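import Pool.Agent.J4.H32.VS.Ka

set_option autoImplicit false

/-! The Abelian theorem for Gaussian means. -/

namespace Pool.Agent.J4.H32.VS

open Complex MeasureTheory Filter Topology Set

noncomputable section

/-- polynomial growth -/
def PB (P : ℝ → ℂ) : Prop := ∃ (C : ℝ) (p : ℕ), 0 ≤ C ∧ ∀ t, ‖P t‖ ≤ C * (1 + |t|) ^ p

lemma gauss_poly_int (p : ℕ) : IntegrableOn (fun x : ℝ => Real.exp (-x ^ 2) * (1 + x) ^ p) (Ioi 0) := by
  have h1 : Integrable (fun x : ℝ => Real.exp (-(1 / 2) * x ^ 2)) := integrable_exp_neg_mul_sq (by norm_num)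
  have h2 := (h1.const_mul (p.factorial * Real.exp (3 / 2))).integrableOn (s := Ioi 0)
  refine h2.mono' (by fun_prop : Continuous _).aestronglyMeasurable ?_
  refine (ae_restrict_iff' measurableSet_Ioi).2 (Eventually.of_forall fun x hx => ?_)
  have hx0 : 0 < x := hx
  have h3 := Real.pow_div_factorial_le_exp (1 + x) (by linarith) p
  have hf : (0:ℝ) < p.factorial := by exact_mod_cast Nat.factorial_pos p
  rw [div_le_iff₀ hf] at h3
  rw [Real.norm_of_nonneg (by positivity)]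
  calc Real.exp (-x ^ 2) * (1 + x) ^ p ≤ Real.exp (-x ^ 2) * (Real.exp (1 + x) * p.factorial) := by gcongr
    _ = p.factorial * Real.exp (1 + x - x ^ 2) := by
        rw [mul_comm, mul_comm (Real.exp (1 + x)), mul_assoc, ← Real.exp_add]
        congr 2
    _ ≤ p.factorial * Real.exp (3 / 2 + -(1 / 2) * x ^ 2) := by
        refine mul_le_mul_of_nonneg_left (Real.exp_le_exp.2 ?_) hf.le
        nlinarith [sq_nonneg (x - 1)]
    _ = _ := by rw [Real.exp_add]; ring

lemma prim_bd {P : ℝ → ℂ} (hc : Continuous P) (hP : PB P) {T : ℝ} (hT : 0 < T) :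
    ∃ (C : ℝ) (p : ℕ), 0 ≤ C ∧ ∀ x : ℝ, 0 ≤ x → ‖∫ t in (0:ℝ)..(x * T), P t‖ ≤ C * (1 + x) ^ p := by
  obtain ⟨C, p, hC, hb⟩ := hP
  refine ⟨C * (1 + T) ^ (p + 1), p + 1, by positivity, fun x hx => ?_⟩
  have h0 : 0 ≤ x * T := by positivity
  have h1 := intervalIntegral.norm_integral_le_of_norm_le_const (a := 0) (b := x * T) (f := P)
    (C := C * (1 + x * T) ^ p) (fun t ht => by
      rw [uIoc_of_le h0] at ht
      refine (hb t).trans ?_
      rw [abs_of_pos ht.1]
      have := ht.2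
      have := ht.1
      gcongr)
  rw [sub_zero, abs_of_nonneg h0] at h1
  have h2 : 1 + x * T ≤ (1 + T) * (1 + x) := by nlinarith
  have h3 : x * T ≤ (1 + T) * (1 + x) := by linarith
  calc _ ≤ C * (1 + x * T) ^ p * (x * T) := h1
    _ ≤ C * ((1 + T) * (1 + x)) ^ p * ((1 + T) * (1 + x)) := by gcongr
    _ = _ := by rw [mul_pow]; ring

/-- integration by parts -/
lemma byparts {P : ℝ → ℂ} (hc : Continuous P) (hP : PB P) {T : ℝ} (hT : 0 < T) :
    ∫ t in Ioi (0:ℝ), (eg 0 (t / T) : ℂ) * P t =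
      ∫ x in Ioi (0:ℝ), ((2 * x * Real.exp (-x ^ 2) : ℝ) : ℂ) * ∫ t in (0:ℝ)..(x * T), P t := by
  obtain ⟨C, p, hC, hb⟩ := prim_bd hc hP hT
  obtain ⟨C2, p2, hC2, hb2⟩ := hP
  set Φ : ℝ → ℂ := fun x => ∫ t in (0:ℝ)..(x * T), P t with hΦ
  have hΦd : ∀ x, HasDerivAt Φ ((T : ℂ) * P (x * T)) x := by
    intro x
    have h1 : HasDerivAt (fun y : ℝ => ∫ t in (0:ℝ)..y, P t) (P (x * T)) (x * T) :=
      intervalIntegral.integral_hasDerivAt_right (hc.intervalIntegrable _ _)
        (hc.stronglyMeasurableAtFilter _ _) hc.continuousAt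
    have h2 : HasDerivAt (fun y : ℝ => y * T) T x := by simpa using (hasDerivAt_id x).mul_const T
    have h3 := h1.scomp x h2
    rw [Complex.real_smul] at h3
    exact h3
  have hΦc : Continuous Φ := continuous_iff_continuousAt.2 fun x => (hΦd x).continuousAt
  have hg : ∀ x : ℝ, HasDerivAt (fun y : ℝ => ((Real.exp (-y ^ 2) : ℝ) : ℂ))
      ((-(2 * x * Real.exp (-x ^ 2)) : ℝ) : ℂ) x := by
    intro x
    have h1 : HasDerivAt (fun y : ℝ => Real.exp (-y ^ 2)) (-(2 * x * Real.exp (-x ^ 2))) x := by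
      have h2 : HasDerivAt (fun y : ℝ => -y ^ 2) (-(2 * x)) x := by
        simpa using (hasDerivAt_pow 2 x).fun_neg
      have h3 := h2.exp
      convert h3 using 1
      ring
    exact h1.ofReal_comp
  have hd : ∀ x ∈ Ioi (0:ℝ), HasDerivAt (fun y : ℝ => ((Real.exp (-y ^ 2) : ℝ) : ℂ) * Φ y)
      (((-(2 * x * Real.exp (-x ^ 2)) : ℝ) : ℂ) * Φ x + ((Real.exp (-x ^ 2) : ℝ) : ℂ) * ((T : ℂ) * P (x * T))) x :=
    fun x _ => (hg x).mul (hΦd x)
  have i1 : IntegrableOn (fun x : ℝ => ((2 * x * Real.exp (-x ^ 2) : ℝ) : ℂ) * Φ x) (Ioi 0) := by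
    have h1 := (gauss_poly_int (p + 1)).const_mul (2 * C)
    refine h1.mono' ((by fun_prop : Continuous fun x : ℝ => ((2 * x * Real.exp (-x ^ 2) : ℝ) : ℂ)).mul
      hΦc).aestronglyMeasurable ?_
    refine (ae_restrict_iff' measurableSet_Ioi).2 (Eventually.of_forall fun x hx => ?_)
    have hx0 : 0 < x := hx
    rw [norm_mul, Complex.norm_real, Real.norm_of_nonneg (by positivity)]
    calc 2 * x * Real.exp (-x ^ 2) * ‖Φ x‖ ≤ 2 * (1 + x) * Real.exp (-x ^ 2) * (C * (1 + x) ^ p) := by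
          have := hb x hx0.le
          gcongr
          linarith
      _ = _ := by ring
  have i2 : IntegrableOn (fun x : ℝ => ((Real.exp (-x ^ 2) : ℝ) : ℂ) * ((T : ℂ) * P (x * T))) (Ioi 0) := by
    have h1 := (gauss_poly_int p2).const_mul (T * C2 * (1 + T) ^ p2)
    refine h1.mono' (Continuous.aestronglyMeasurable (by fun_prop)) ?_
    refine (ae_restrict_iff' measurableSet_Ioi).2 (Eventually.of_forall fun x hx => ?_)
    have hx0 : 0 < x := hx
    rw [norm_mul, norm_mul, Complex.norm_real, Real.norm_of_nonneg (Real.exp_pos _).le, Complex.norm_real,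
      Real.norm_of_nonneg hT.le]
    have h2 := hb2 (x * T)
    rw [abs_of_pos (by positivity)] at h2
    have h3 : 1 + x * T ≤ (1 + T) * (1 + x) := by nlinarith
    calc Real.exp (-x ^ 2) * (T * ‖P (x * T)‖) ≤ Real.exp (-x ^ 2) * (T * (C2 * ((1 + T) * (1 + x)) ^ p2)) := by
          gcongr
          exact h2.trans (by gcongr)
      _ = _ := by rw [mul_pow]; ring
  have i3 : IntegrableOn (fun x : ℝ => ((-(2 * x * Real.exp (-x ^ 2)) : ℝ) : ℂ) * Φ x) (Ioi 0) := by
    refine i1.neg.congr (Eventually.of_forall fun x => ?_)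
    simp only [Pi.neg_apply]
    push_cast; ring
  have hlim : Tendsto (fun y : ℝ => ((Real.exp (-y ^ 2) : ℝ) : ℂ) * Φ y) atTop (𝓝 0) := by
    rw [tendsto_zero_iff_norm_tendsto_zero]
    have h5 : Tendsto (fun y : ℝ => C * ((1 + y) ^ p * Real.exp (-y))) atTop (𝓝 0) := by
      have h6 := Real.tendsto_pow_mul_exp_neg_atTop_nhds_zero p
      have h7 : Tendsto (fun y : ℝ => 1 + y) atTop atTop := tendsto_atTop_add_const_left _ _ tendsto_id
      have h8 := ((h6.comp h7).const_mul (C * Real.exp 1))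
      rw [mul_zero] at h8
      refine h8.congr fun y => ?_
      simp only [Function.comp]
      rw [show -(1 + y) = -1 + -y by ring, Real.exp_add, Real.exp_neg 1]
      have := (Real.exp_pos 1).ne'
      field_simp
    refine squeeze_zero' (Eventually.of_forall fun y => norm_nonneg _) ?_ h5
    filter_upwards [eventually_ge_atTop 1] with y hy
    rw [norm_mul, Complex.norm_real, Real.norm_of_nonneg (Real.exp_pos _).le]
    have h9 : Real.exp (-y ^ 2) ≤ Real.exp (-y) := Real.exp_le_exp.2 (by nlinarith)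
    calc Real.exp (-y ^ 2) * ‖Φ y‖ ≤ Real.exp (-y) * (C * (1 + y) ^ p) := by
          have := hb y (by linarith)
          gcongr
      _ = _ := by ring
  have hmain := integral_Ioi_of_hasDerivAt_of_tendsto (a := (0:ℝ)) (f := fun y : ℝ => ((Real.exp (-y ^ 2) : ℝ) : ℂ) * Φ y)
    (((by fun_prop : Continuous fun y : ℝ => ((Real.exp (-y ^ 2) : ℝ) : ℂ)).mul hΦc).continuousWithinAt) hd
    (i3.add i2) hlim
  have e0 : Φ 0 = 0 := by simp [hΦ]
  simp only [e0, mul_zero, sub_zero] at hmain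
  rw [integral_add i3 i2] at hmain
  have e1 : ∫ x in Ioi (0:ℝ), ((-(2 * x * Real.exp (-x ^ 2)) : ℝ) : ℂ) * Φ x =
      -∫ x in Ioi (0:ℝ), ((2 * x * Real.exp (-x ^ 2) : ℝ) : ℂ) * Φ x := by
    rw [← integral_neg]
    refine integral_congr_ae (Eventually.of_forall fun x => ?_)
    simp only
    push_cast; ring
  have e2 : ∫ x in Ioi (0:ℝ), ((Real.exp (-x ^ 2) : ℝ) : ℂ) * ((T : ℂ) * P (x * T)) =
      ∫ t in Ioi (0:ℝ), (eg 0 (t / T) : ℂ) * P t := by
    have h1 := integral_comp_mul_right_Ioi (fun t : ℝ => (eg 0 (t / T) : ℂ) * P t) 0 hT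
    rw [zero_mul] at h1
    have h2 : ∫ t in Ioi (0:ℝ), (eg 0 (t / T) : ℂ) * P t =
        T • ∫ x in Ioi (0:ℝ), (eg 0 (x * T / T) : ℂ) * P (x * T) := by
      rw [h1, smul_smul, mul_inv_cancel₀ hT.ne', one_smul]
    rw [h2, Complex.real_smul, ← integral_const_mul]
    refine integral_congr_ae (Eventually.of_forall fun x => ?_)
    simp only
    rw [mul_div_cancel_right₀ x hT.ne']
    have : eg 0 x = Real.exp (-x ^ 2) := by unfold eg; congr 1; push_cast; ring
    rw [this]; ring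
  rw [e1, e2] at hmain
  linear_combination hmain

lemma second_moment : ∫ x in Ioi (0:ℝ), 2 * x * Real.exp (-x ^ 2) * x = √Real.pi / 2 := by
  have h1 := byparts (P := fun _ => (1:ℂ)) continuous_const ⟨1, 0, zero_le_one, fun t => by simp⟩ one_pos
  have e1 : ∫ t in Ioi (0:ℝ), (eg 0 (t / 1) : ℂ) * 1 = ((√Real.pi / 2 : ℝ) : ℂ) := by
    have h2 := eg_val 0
    simp only [Nat.cast_zero, zero_add, Real.sqrt_one, div_one] at h2
    rw [← h2, ← integral_complex_ofReal]
    refine integral_congr_ae (Eventually.of_forall fun t => ?_)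
    simp
  have e2 : ∫ x in Ioi (0:ℝ), ((2 * x * Real.exp (-x ^ 2) : ℝ) : ℂ) * ∫ t in (0:ℝ)..(x * 1), (1:ℂ) =
      ((∫ x in Ioi (0:ℝ), 2 * x * Real.exp (-x ^ 2) * x : ℝ) : ℂ) := by
    rw [← integral_complex_ofReal]
    refine integral_congr_ae (Eventually.of_forall fun t => ?_)
    simp
  rw [e1, e2] at h1
  exact_mod_cast h1.symm

/-- **Abelian theorem** -/
theorem abel {P : ℝ → ℝ → ℂ} {N : ℝ → ℝ} {A : ℂ} (hPc : ∀ T, Continuous (P T)) (hpoly : ∀ T, PB (P T))
    (hN : ∀ᶠ T in atTop, 0 < N T)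
    (hlim : ∀ x : ℝ, 0 < x → Tendsto (fun T => (∫ t in (0:ℝ)..(x * T), P T t) / (N T : ℂ)) atTop (𝓝 (x * A)))
    (hdom : ∃ (C : ℝ) (r : ℕ), ∀ᶠ T in atTop, ∀ x : ℝ, 0 < x →
      ‖∫ t in (0:ℝ)..(x * T), P T t‖ ≤ C * N T * (1 + x) ^ r) :
    Tendsto (fun T => (∫ t in Ioi (0:ℝ), (eg 0 (t / T) : ℂ) * P T t) / (N T : ℂ)) atTop
      (𝓝 (A * (√Real.pi / 2 : ℝ))) := by
  obtain ⟨C, r, hd⟩ := hdom
  have h1 : Tendsto (fun T => ∫ x in Ioi (0:ℝ), ((2 * x * Real.exp (-x ^ 2) : ℝ) : ℂ) *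
      ((∫ t in (0:ℝ)..(x * T), P T t) / (N T : ℂ))) atTop
      (𝓝 (∫ x in Ioi (0:ℝ), ((2 * x * Real.exp (-x ^ 2) : ℝ) : ℂ) * (x * A))) := by
    refine tendsto_integral_filter_of_dominated_convergence
      (fun x => 2 * |C| * (Real.exp (-x ^ 2) * (1 + x) ^ (r + 1))) ?_ ?_ ((gauss_poly_int (r + 1)).const_mul _) ?_
    · refine Eventually.of_forall fun T => ?_
      refine Continuous.aestronglyMeasurable ?_
      have h2 : Continuous (fun x : ℝ => ∫ t in (0:ℝ)..(x * T), P T t) := by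
        have := intervalIntegral.continuous_primitive (μ := volume) (f := P T)
          (fun a b => (hPc T).intervalIntegrable a b) 0
        exact this.comp (continuous_id.mul continuous_const)
      fun_prop
    · filter_upwards [hd, hN] with T h3 h4
      refine (ae_restrict_iff' measurableSet_Ioi).2 (Eventually.of_forall fun x hx => ?_)
      have hx0 : 0 < x := hx
      have h5 := h3 x hx0
      have h6 : ‖(∫ t in (0:ℝ)..(x * T), P T t) / (N T : ℂ)‖ ≤ |C| * (1 + x) ^ r := by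
        rw [norm_div, Complex.norm_real, Real.norm_of_nonneg h4.le, div_le_iff₀ h4]
        calc _ ≤ C * N T * (1 + x) ^ r := h5
          _ ≤ |C| * N T * (1 + x) ^ r := by gcongr; exact le_abs_self C
          _ = _ := by ring
      rw [norm_mul, Complex.norm_real, Real.norm_of_nonneg (by positivity)]
      calc 2 * x * Real.exp (-x ^ 2) * ‖(∫ t in (0:ℝ)..(x * T), P T t) / (N T : ℂ)‖ ≤
            2 * (1 + x) * Real.exp (-x ^ 2) * (|C| * (1 + x) ^ r) := by
            gcongr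
            linarith
        _ = _ := by ring
    · refine (ae_restrict_iff' measurableSet_Ioi).2 (Eventually.of_forall fun x hx => ?_)
      exact (hlim x hx).const_mul _
  have e1 : ∫ x in Ioi (0:ℝ), ((2 * x * Real.exp (-x ^ 2) : ℝ) : ℂ) * (x * A) = A * (√Real.pi / 2 : ℝ) := by
    rw [← second_moment, ← integral_complex_ofReal, ← integral_const_mul]
    refine integral_congr_ae (Eventually.of_forall fun x => ?_)
    simp only
    push_cast; ring
  rw [e1] at h1
  refine h1.congr' ?_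
  filter_upwards [eventually_gt_atTop 0] with T hT
  rw [byparts (hPc T) (hpoly T) hT, ← integral_div]
  refine integral_congr_ae (Eventually.of_forall fun x => ?_)
  simp only
  rw [mul_div_assoc]

end

end Pool.Agent.J4.H32.VS
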