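import Pool.Agent.J4.H32.VS.Ra
import Pool.Agent.TH535.SM.B1
import Pool.Agent.R446.KR.Fin

set_option autoImplicit false

/-! Gaussian sums of the divisor function and the critical line: the exact identity. -/

namespace Pool.Agent.J4.H32.VS

open Complex MeasureTheory Filter Topology Set Metric Pool.Agent.TH535.SM Pool.Agent.R446.KR
open scoped FourierTransform ComplexConjugate

noncomputable section

/-- polynomials against a Gaussian -/
lemma poly_gauss (p : ℕ) {c : ℝ} (hc : 0 < c) : ∃ B : ℝ, 0 ≤ B ∧ ∀ y : ℝ,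
    (1 + |y|) ^ p * Real.exp (-(c * y ^ 2)) ≤ B := by
  refine ⟨p.factorial * Real.exp (1 + 1 / (4 * c)), by positivity, fun y => ?_⟩
  have hf : (0:ℝ) < p.factorial := by exact_mod_cast Nat.factorial_pos p
  have hy := abs_nonneg y
  have h1 := Real.pow_div_factorial_le_exp (1 + |y|) (by linarith) p
  rw [div_le_iff₀ hf] at h1
  calc (1 + |y|) ^ p * Real.exp (-(c * y ^ 2)) ≤ (Real.exp (1 + |y|) * p.factorial) * Real.exp (-(c * y ^ 2)) := by
        gcongr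
    _ = p.factorial * Real.exp (1 + |y| + -(c * y ^ 2)) := by rw [Real.exp_add (1 + |y|)]; ring
    _ ≤ _ := by
        refine mul_le_mul_of_nonneg_left (Real.exp_le_exp.2 ?_) hf.le
        have h2 : |y| - c * |y| ^ 2 ≤ 1 / (4 * c) := by
          have h3 : 0 ≤ c * (|y| - 1 / (2 * c)) ^ 2 := by positivity
          have h4 : c * (|y| - 1 / (2 * c)) ^ 2 = c * |y| ^ 2 - |y| + 1 / (4 * c) := by
            field_simp; ring
          linarith
        rw [sq_abs] at h2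
        linarith

/-- the exponential factor -/
def Ex (h u : ℝ) (s : ℂ) : ℂ := cexp (h ^ 2 * (s - 1 / 2) ^ 2 / 2 + u * (s - 1 / 2))

lemma Ex_diff (h u : ℝ) : Differentiable ℂ (Ex h u) := by
  unfold Ex
  fun_prop

lemma Ex_norm (h u : ℝ) (s : ℂ) : ‖Ex h u s‖ =
    Real.exp (h ^ 2 * ((s.re - 1 / 2) ^ 2 - s.im ^ 2) / 2 + u * (s.re - 1 / 2)) := by
  unfold Ex
  rw [Complex.norm_exp]
  congr 1
  have e : (h ^ 2 * (s - 1 / 2) ^ 2 / 2 + u * (s - 1 / 2) : ℂ) =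
      ((h ^ 2 * ((s.re - 1 / 2) ^ 2 - s.im ^ 2) / 2 + u * (s.re - 1 / 2) : ℝ) : ℂ) +
      ((h ^ 2 * ((s.re - 1 / 2) * s.im) + u * s.im : ℝ) : ℂ) * I := by
    conv_lhs => rw [← Complex.re_add_im s]
    push_cast
    linear_combination (h ^ 2 * (s.im : ℂ) ^ 2 / 2) * I_sq
  rw [e]
  simp [-Complex.ofReal_add, -Complex.ofReal_mul, -Complex.ofReal_sub, -Complex.ofReal_div, -Complex.ofReal_pow]

lemma Ex_half (h u t : ℝ) : Ex h u (((1 / 2 : ℝ) : ℂ) + t * I) =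
    cexp (u * t * I) * (Real.exp (-(h ^ 2 * t ^ 2 / 2)) : ℝ) := by
  unfold Ex
  rw [Complex.ofReal_exp, ← Complex.exp_add]
  congr 1
  push_cast
  linear_combination (h ^ 2 * (t:ℂ) ^ 2 / 2) * I_sq

lemma Y_strip (k : ℕ) : ∃ (C : ℝ) (M : ℕ), 0 ≤ C ∧ ∀ s : ℂ, 1 / 2 ≤ s.re → s.re ≤ 3 / 2 →
    ‖Y s ^ k‖ ≤ C * (1 + |s.im|) ^ M := by
  obtain ⟨C, M, hC, hb⟩ := H_strip k (u := 1) le_rfl
  refine ⟨C * 5 ^ k, M + k, by positivity, fun s h1 h2 => ?_⟩
  have h3 := hb s (by push_cast; linarith) (by push_cast; linarith)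
  have hne : s + (2 * 1 + 1 : ℕ) ≠ 0 := by
    refine den_ne (u := 1) ?_
    push_cast; linarith
  have e : Y s ^ k = H k 1 s * (s + (2 * 1 + 1 : ℕ)) ^ k := by
    unfold H
    rw [div_pow, div_mul_cancel₀ _ (pow_ne_zero _ hne)]
  have h4 : ‖s + (2 * 1 + 1 : ℕ)‖ ≤ 5 * (1 + |s.im|) := by
    have h5 := Complex.norm_le_abs_re_add_abs_im (s + (2 * 1 + 1 : ℕ))
    have e1 : (s + (2 * 1 + 1 : ℕ)).re = s.re + 3 := by simp
    have e2 : (s + (2 * 1 + 1 : ℕ)).im = s.im := by simp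
    rw [e1, e2, abs_of_nonneg (by linarith : 0 ≤ s.re + 3)] at h5
    have := abs_nonneg s.im
    linarith
  rw [e, norm_mul, norm_pow]
  calc ‖H k 1 s‖ * ‖s + (2 * 1 + 1 : ℕ)‖ ^ k ≤ (C * (1 + |s.im|) ^ M) * (5 * (1 + |s.im|)) ^ k := by
        gcongr
    _ = _ := by rw [mul_pow, pow_add]; ring

/-- the contour shift -/
lemma shift_id (k : ℕ) {h : ℝ} (hh : 0 < h) (u : ℝ) {r : ℝ} (hr : 0 < r) :
    I * (∫ y : ℝ, riemannZeta (((3 / 2 : ℝ) : ℂ) + y * I) ^ k * Ex h u (((3 / 2 : ℝ) : ℂ) + y * I)) -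
      I * (∫ y : ℝ, riemannZeta (((1 / 2 : ℝ) : ℂ) + y * I) ^ k * Ex h u (((1 / 2 : ℝ) : ℂ) + y * I)) =
      ∮ z in C(1, r), riemannZeta z ^ k * Ex h u z := by
  obtain ⟨C, M, hC, hY⟩ := Y_strip k
  obtain ⟨B, hB, hg⟩ := poly_gauss (M + 2) (c := h ^ 2 / 2) (by positivity)
  have hF : Differentiable ℂ (fun s => Y s ^ k * Ex h u s) := (Y_diff.pow k).mul (Ex_diff h u)
  have key := line_pole hF k (w := 1) one_im (a := 1 / 2) (b := 3 / 2)
    (B := C * (Real.exp (h ^ 2 / 2 + |u|) * B) * 2 ^ k) (r := r) (by simp; norm_num) (by simp; norm_num) hr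
    (by positivity) (by
      intro s h1 h2 h3
      have hd : 1 / 2 ≤ ‖s - 1‖ := by
        rcases h3 with h3 | h3 | h3
        · have := Complex.abs_re_le_norm (s - 1)
          rw [sub_re, one_re, h3] at this
          norm_num at this ⊢
          exact this
        · have := Complex.abs_re_le_norm (s - 1)
          rw [sub_re, one_re, h3] at this
          norm_num at this ⊢
          exact this
        · have := Complex.abs_im_le_norm (s - 1)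
          rw [sub_im, one_im, sub_zero] at this
          linarith
      have h4 : ‖((s - 1) ^ k)⁻¹‖ ≤ 2 ^ k := by
        rw [norm_inv, norm_pow, ← inv_pow]
        refine pow_le_pow_left₀ (by positivity) ?_ k
        rw [inv_le_comm₀ (by linarith) (by norm_num)]
        linarith
      have h5 : ‖Ex h u s‖ ≤ Real.exp (h ^ 2 / 2 + |u|) * Real.exp (-(h ^ 2 / 2 * s.im ^ 2)) := by
        rw [Ex_norm, ← Real.exp_add]
        refine Real.exp_le_exp.2 ?_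
        have h6 : (s.re - 1 / 2) ^ 2 ≤ 1 := by
          have : |s.re - 1 / 2| ≤ 1 := abs_le.2 ⟨by linarith, by linarith⟩
          rw [← sq_abs]; exact pow_le_one₀ (abs_nonneg _) this
        have h7 : u * (s.re - 1 / 2) ≤ |u| := by
          calc u * (s.re - 1 / 2) ≤ |u| * (s.re - 1 / 2) :=
                mul_le_mul_of_nonneg_right (le_abs_self u) (by linarith)
            _ ≤ |u| * 1 := mul_le_mul_of_nonneg_left (by linarith) (abs_nonneg u)
            _ = |u| := mul_one _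
        nlinarith [sq_nonneg h, mul_le_mul_of_nonneg_left h6 (sq_nonneg h)]
      have h8 := hY s h1 h2
      have h9 := hg s.im
      have hp : 0 < (1 + |s.im|) ^ 2 := by positivity
      rw [norm_mul, norm_mul, le_div_iff₀ hp]
      calc ‖Y s ^ k‖ * ‖Ex h u s‖ * ‖((s - 1) ^ k)⁻¹‖ * (1 + |s.im|) ^ 2 ≤
            (C * (1 + |s.im|) ^ M) * (Real.exp (h ^ 2 / 2 + |u|) * Real.exp (-(h ^ 2 / 2 * s.im ^ 2))) * 2 ^ k *
            (1 + |s.im|) ^ 2 := by gcongr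
        _ = C * (Real.exp (h ^ 2 / 2 + |u|) * ((1 + |s.im|) ^ (M + 2) *
            Real.exp (-(h ^ 2 / 2 * s.im ^ 2)))) * 2 ^ k := by rw [pow_add]; ring
        _ ≤ _ := by gcongr)
  have hz : ∀ s : ℂ, s ≠ 1 → Y s ^ k * Ex h u s * ((s - 1) ^ k)⁻¹ = riemannZeta s ^ k * Ex h u s := by
    intro s hs
    have h1 : s - 1 ≠ 0 := sub_ne_zero.2 hs
    rw [Y_eq hs, mul_pow]
    field_simp
  have ne : ∀ (x : ℝ), x ≠ 1 → ∀ y : ℝ, ((x : ℂ) + y * I) ≠ 1 := by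
    intro x hx y h0
    have := congrArg Complex.re h0
    simp at this
    exact hx this
  have el : ∀ x : ℝ, x ≠ 1 → ∫ y : ℝ, riemannZeta ((x : ℂ) + y * I) ^ k * Ex h u ((x : ℂ) + y * I) =
      ∫ y : ℝ, Y ((x : ℂ) + y * I) ^ k * Ex h u ((x : ℂ) + y * I) * (((x : ℂ) + y * I - 1) ^ k)⁻¹ := by
    intro x hx
    refine integral_congr_ae (Eventually.of_forall fun y => ?_)
    exact (hz _ (ne _ hx y)).symm
  have ec : ∮ z in C(1, r), riemannZeta z ^ k * Ex h u z =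
      ∮ z in C(1, r), Y z ^ k * Ex h u z * ((z - 1) ^ k)⁻¹ := by
    refine circleIntegral.integral_congr hr.le fun z hz' => (hz z ?_).symm
    intro h0
    rw [h0, mem_sphere_iff_norm, sub_self, norm_zero] at hz'
    exact hr.ne hz'
  rw [ec, ← key, el _ (by norm_num), el _ (by norm_num)]

/-- the Gaussian integral of one term -/
lemma term_int {h : ℝ} (hh : 0 < h) (u l : ℝ) :
    ∫ y : ℝ, cexp (-(((3 / 2 : ℝ) : ℂ) + y * I) * l) * Ex h u (((3 / 2 : ℝ) : ℂ) + y * I) =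
      ((√(2 * Real.pi) / h * (Real.exp (-(l / 2)) * Real.exp (-(l - u) ^ 2 / (2 * h ^ 2))) : ℝ) : ℂ) := by
  have hh2 : (h:ℂ) ≠ 0 := by exact_mod_cast hh.ne'
  have e1 : ∀ y : ℝ, cexp (-(((3 / 2 : ℝ) : ℂ) + y * I) * l) * Ex h u (((3 / 2 : ℝ) : ℂ) + y * I) =
      cexp ((-(h ^ 2 / 2) : ℂ) * (y:ℂ) ^ 2 + ((h ^ 2 + u - l) * I) * y + (h ^ 2 / 2 + u - 3 / 2 * l)) := by
    intro y
    unfold Ex
    rw [← Complex.exp_add]
    congr 1
    push_cast
    linear_combination (h ^ 2 * (y:ℂ) ^ 2 / 2) * I_sq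
  simp_rw [e1]
  rw [integral_cexp_quadratic (by
    have : (-(h ^ 2 / 2) : ℂ) = ((-(h ^ 2 / 2) : ℝ) : ℂ) := by push_cast; ring
    rw [this, Complex.ofReal_re]
    have := sq_pos_of_pos hh
    linarith)]
  have e2 : ((Real.pi : ℂ) / -(-(h ^ 2 / 2) : ℂ)) ^ (1 / 2 : ℂ) = ((√(2 * Real.pi) / h : ℝ) : ℂ) := by
    have e3 : ((Real.pi : ℂ) / -(-(h ^ 2 / 2) : ℂ)) = (((√(2 * Real.pi) / h) ^ 2 : ℝ) : ℂ) := by
      rw [div_pow, Real.sq_sqrt (by positivity)]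
      push_cast
      field_simp
    rw [e3]
    have e4 : (1 / 2 : ℂ) = ((1 / 2 : ℝ) : ℂ) := by push_cast; ring
    rw [e4, ← Complex.ofReal_cpow (by positivity), ← Real.sqrt_eq_rpow, Real.sqrt_sq (by positivity)]
  rw [e2, Complex.ofReal_mul, Complex.ofReal_mul, Complex.ofReal_exp, Complex.ofReal_exp, ← Complex.exp_add]
  congr 2
  push_cast
  field_simp
  linear_combination (4 * (h ^ 2 + u - l : ℂ) ^ 2) * I_sq

/-- the residue term -/
def mt (k : ℕ) (h u : ℝ) : ℂ := ((√(2 * Real.pi) * h : ℝ) : ℂ) * ((2 * Real.pi * I)⁻¹ *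
  ∮ s in C(1, 1 / 4), riemannZeta s ^ k * cexp (h ^ 2 * (s - 1 / 2) ^ 2 / 2 + u * (s - 1 / 2)))

/-- the Gaussian sum of the divisor function minus its expected value -/
def Dl (k : ℕ) (h u : ℝ) : ℂ := ((∑' n : ℕ, (W182.KO.dk k n : ℝ) * (n : ℝ) ^ (-(1 / 2) : ℝ) *
  Real.exp (-(Real.log n - u) ^ 2 / (2 * h ^ 2)) : ℝ) : ℂ) - mt k h u

/-- the weighted function on the line -/
def Fh (k : ℕ) (h t : ℝ) : ℂ := zk k t * (Real.exp (-(h ^ 2 * t ^ 2 / 2)) : ℝ)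

lemma sum_line (k : ℕ) {h : ℝ} (hh : 0 < h) (u : ℝ) :
    ∫ y : ℝ, riemannZeta (((3 / 2 : ℝ) : ℂ) + y * I) ^ k * Ex h u (((3 / 2 : ℝ) : ℂ) + y * I) =
      ((√(2 * Real.pi) / h * ∑' n : ℕ, (W182.KO.dk k n : ℝ) * (n : ℝ) ^ (-(1 / 2) : ℝ) *
        Real.exp (-(Real.log n - u) ^ 2 / (2 * h ^ 2)) : ℝ) : ℂ) := by
  obtain ⟨B, hB, hg⟩ := poly_gauss 2 (c := h ^ 2 / 2) (by positivity)
  have hre : ∀ y : ℝ, ((((3 / 2 : ℝ) : ℂ) + y * I)).re = 3 / 2 := fun y => by simp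
  have him : ∀ y : ℝ, ((((3 / 2 : ℝ) : ℂ) + y * I)).im = y := fun y => by simp
  set A : ℝ := Real.exp (h ^ 2 / 2 + u) * B with hA
  have hE : ∀ y : ℝ, ‖Ex h u (((3 / 2 : ℝ) : ℂ) + y * I)‖ ≤ A * ((1 + |y|) ^ 2)⁻¹ := by
    intro y
    rw [Ex_norm, hre, him, ← div_eq_mul_inv, le_div_iff₀ (by positivity)]
    have e : h ^ 2 * ((3 / 2 - 1 / 2) ^ 2 - y ^ 2) / 2 + u * (3 / 2 - 1 / 2) =
        (h ^ 2 / 2 + u) + -(h ^ 2 / 2 * y ^ 2) := by ring
    rw [e, Real.exp_add, hA]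
    have := hg y
    calc Real.exp (h ^ 2 / 2 + u) * Real.exp (-(h ^ 2 / 2 * y ^ 2)) * (1 + |y|) ^ 2 =
          Real.exp (h ^ 2 / 2 + u) * ((1 + |y|) ^ 2 * Real.exp (-(h ^ 2 / 2 * y ^ 2))) := by ring
      _ ≤ _ := by gcongr
  set F : ℕ → ℝ → ℂ := fun n y => LSeries.term (fun n => ((dr k n : ℝ) : ℂ)) (((3 / 2 : ℝ) : ℂ) + y * I) n *
    Ex h u (((3 / 2 : ℝ) : ℂ) + y * I) with hF
  have hterm : ∀ n : ℕ, ∀ y : ℝ, F n y = ((dr k n : ℝ) : ℂ) *
      (cexp (-(((3 / 2 : ℝ) : ℂ) + y * I) * (Real.log n : ℝ)) * Ex h u (((3 / 2 : ℝ) : ℂ) + y * I)) := by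
    intro n y
    simp only [hF]
    rcases Nat.eq_zero_or_pos n with hn | hn
    · subst hn
      rw [LSeries.term_zero, zero_mul]
      have : dr k 0 = 0 := by simp [dr, W182.KO.dk]
      rw [this]; simp
    · rw [LSeries.term_of_ne_zero hn.ne', ← mul_assoc]
      congr 1
      have hnc : (n : ℂ) ≠ 0 := by exact_mod_cast hn.ne'
      rw [div_eq_mul_inv, ← Complex.cpow_neg, Complex.cpow_def_of_ne_zero hnc, ← Complex.natCast_log]
      congr 2
      ring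
  have hFc : ∀ n, Continuous (F n) := by
    intro n
    have : F n = fun y : ℝ => ((dr k n : ℝ) : ℂ) *
      (cexp (-(((3 / 2 : ℝ) : ℂ) + y * I) * (Real.log n : ℝ)) * Ex h u (((3 / 2 : ℝ) : ℂ) + y * I)) :=
      funext (hterm n)
    rw [this]
    have := (Ex_diff h u).continuous
    fun_prop
  have hn : ∀ n y, ‖F n y‖ ≤ ‖LSeries.term (fun n => ((dr k n : ℝ) : ℂ)) (((3 / 2 : ℝ) : ℂ)) n‖ *
      (A * ((1 + |y|) ^ 2)⁻¹) := by
    intro n y
    simp only [hF]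
    rw [norm_mul]
    refine mul_le_mul (le_of_eq ?_) (hE y) (norm_nonneg _) (norm_nonneg _)
    rw [LSeries.norm_term_eq, LSeries.norm_term_eq, hre, Complex.ofReal_re]
  have hFi : ∀ n, Integrable (F n) := fun n =>
    ((W182.KO.one_add_inv_sq_int.const_mul A).const_mul _).mono' (hFc n).aestronglyMeasurable
      (Eventually.of_forall (hn n))
  have hs0 : Summable (fun n => ‖LSeries.term (fun n => ((dr k n : ℝ) : ℂ)) (((3 / 2 : ℝ) : ℂ)) n‖) :=
    (dser k (s := ((3 / 2 : ℝ) : ℂ)) (by rw [ofReal_re]; norm_num)).summable.norm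
  have hFs : Summable (fun n => ∫ y, ‖F n y‖) := by
    refine Summable.of_nonneg_of_le (fun n => integral_nonneg fun y => norm_nonneg _) (fun n => ?_)
      (hs0.mul_right (∫ y : ℝ, A * ((1 + |y|) ^ 2)⁻¹))
    rw [← integral_const_mul]
    exact integral_mono (hFi n).norm ((W182.KO.one_add_inv_sq_int.const_mul A).const_mul _) (hn n)
  have hsum := hasSum_integral_of_summable_integral_norm hFi hFs
  have e1 : ∫ y, ∑' n, F n y =
      ∫ y : ℝ, riemannZeta (((3 / 2 : ℝ) : ℂ) + y * I) ^ k * Ex h u (((3 / 2 : ℝ) : ℂ) + y * I) := by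
    refine integral_congr_ae (Eventually.of_forall fun y => ?_)
    exact ((dser k (s := ((3 / 2 : ℝ) : ℂ) + y * I) (by rw [hre]; norm_num)).mul_right _).tsum_eq
  rw [e1] at hsum
  rw [← hsum.tsum_eq, ← tsum_mul_left, Complex.ofReal_tsum]
  refine tsum_congr fun n => ?_
  simp_rw [hterm n]
  rw [integral_const_mul, term_int hh u (Real.log n)]
  rcases Nat.eq_zero_or_pos n with hn0 | hn0
  · subst hn0
    have : W182.KO.dk k 0 = 0 := by simp [W182.KO.dk]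
    simp [dr, this]
  · have hn1 : (0:ℝ) < n := by exact_mod_cast hn0
    have e2 : (n : ℝ) ^ (-(1 / 2) : ℝ) = Real.exp (-(Real.log n / 2)) := by
      rw [Real.rpow_def_of_pos hn1]; congr 1; ring
    rw [e2, ← Complex.ofReal_mul]
    congr 1
    unfold dr
    ring

/-- **the exact identity** -/
theorem Dl_eq (k : ℕ) {h : ℝ} (hh : 0 < h) (u : ℝ) :
    Dl k h u = ((h / √(2 * Real.pi) : ℝ) : ℂ) * ∫ t : ℝ, cexp (u * t * I) * Fh k h t := by
  have h2 := sum_line k hh u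
  have h1 := shift_id k hh u (r := 1 / 4) (by norm_num)
  have hp : 0 < √(2 * Real.pi) := by positivity
  have hpc : ((√(2 * Real.pi) : ℝ) : ℂ) ≠ 0 := by exact_mod_cast hp.ne'
  have hhc : (h : ℂ) ≠ 0 := by exact_mod_cast hh.ne'
  have e1 : ∫ t : ℝ, cexp (u * t * I) * Fh k h t =
      ∫ y : ℝ, riemannZeta (((1 / 2 : ℝ) : ℂ) + y * I) ^ k * Ex h u (((1 / 2 : ℝ) : ℂ) + y * I) := by
    refine integral_congr_ae (Eventually.of_forall fun y => ?_)
    simp only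
    rw [Ex_half]
    unfold Fh zk ze
    push_cast
    ring
  have e2 : ∮ s in C(1, 1 / 4), riemannZeta s ^ k * cexp (h ^ 2 * (s - 1 / 2) ^ 2 / 2 + u * (s - 1 / 2)) =
      ∮ z in C(1, 1 / 4), riemannZeta z ^ k * Ex h u z := rfl
  unfold Dl mt
  rw [e1, e2]
  set A3 := ∫ y : ℝ, riemannZeta (((3 / 2 : ℝ) : ℂ) + y * I) ^ k * Ex h u (((3 / 2 : ℝ) : ℂ) + y * I) with hA3
  set A1 := ∫ y : ℝ, riemannZeta (((1 / 2 : ℝ) : ℂ) + y * I) ^ k * Ex h u (((1 / 2 : ℝ) : ℂ) + y * I) with hA1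
  set S := ∑' n : ℕ, (W182.KO.dk k n : ℝ) * (n : ℝ) ^ (-(1 / 2) : ℝ) *
    Real.exp (-(Real.log n - u) ^ 2 / (2 * h ^ 2)) with hS
  rw [← h1]
  have e3 : (S : ℂ) = ((h / √(2 * Real.pi) : ℝ) : ℂ) * A3 := by
    rw [h2]
    push_cast
    field_simp
  have e4 : (((√(2 * Real.pi) * h : ℝ) : ℂ)) * ((2 * Real.pi * I)⁻¹ * (I * A3 - I * A1)) =
      ((h / √(2 * Real.pi) : ℝ) : ℂ) * (A3 - A1) := by
    have e5 : ((√(2 * Real.pi) : ℝ) : ℂ) * ((√(2 * Real.pi) : ℝ) : ℂ) = 2 * Real.pi := by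
      rw [← Complex.ofReal_mul, Real.mul_self_sqrt (by positivity)]; push_cast; ring
    have hpi : (Real.pi : ℂ) ≠ 0 := by exact_mod_cast Real.pi_ne_zero
    push_cast
    field_simp
    linear_combination (A3 - A1) * e5
  rw [e3, e4]
  ring

end

end Pool.Agent.J4.H32.VS
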