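import Mathlib

set_option autoImplicit false

/-! A Tauberian theorem for Gaussian means of a family of functions. -/

namespace Pool.Agent.J4.H32.VS

open Complex MeasureTheory Filter Topology Set Polynomial

noncomputable section

/-- the weight of a polynomial -/
def wp (p : ℝ[X]) (x : ℝ) : ℝ := Real.exp (-x ^ 2) * p.eval (Real.exp (-x ^ 2))

/-- the Gaussians -/
def eg (j : ℕ) (x : ℝ) : ℝ := Real.exp (-((j + 1 : ℝ) * x ^ 2))

lemma wp_eq (p : ℝ[X]) (x : ℝ) : wp p x = ∑ j ∈ Finset.range (p.natDegree + 1), p.coeff j * eg j x := by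
  unfold wp eg
  rw [Polynomial.eval_eq_sum_range, Finset.mul_sum]
  refine Finset.sum_congr rfl fun j _ => ?_
  rw [← Real.exp_nat_mul, mul_left_comm, ← Real.exp_add]
  congr 2
  ring

lemma eg_cont (j : ℕ) : Continuous (eg j) := by unfold eg; fun_prop

lemma eg_pos (j : ℕ) (x : ℝ) : 0 < eg j x := Real.exp_pos _

lemma eg_int (j : ℕ) : IntegrableOn (eg j) (Ioi 0) := by
  have h := (integrable_exp_neg_mul_sq (b := (j + 1 : ℝ)) (by positivity)).integrableOn (s := Ioi 0)
  refine h.congr (Eventually.of_forall fun x => ?_)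
  simp only [eg]
  congr 1; ring

lemma eg_val (j : ℕ) : ∫ x in Ioi (0:ℝ), eg j x = √Real.pi / 2 / √(j + 1) := by
  have h := integral_gaussian_Ioi (j + 1 : ℝ)
  have e : ∫ x in Ioi (0:ℝ), eg j x = ∫ x in Ioi (0:ℝ), Real.exp (-(j + 1 : ℝ) * x ^ 2) := by
    refine integral_congr_ae (Eventually.of_forall fun x => ?_)
    simp only [eg]
    congr 1; ring
  rw [e, h, Real.sqrt_div' _ (by positivity)]
  ring

/-- the mean of a weight -/
def Jp (p : ℝ[X]) : ℝ := ∫ x in Ioi (0:ℝ), wp p x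

lemma wp_int (p : ℝ[X]) : IntegrableOn (wp p) (Ioi 0) := by
  have e : wp p = fun x => ∑ j ∈ Finset.range (p.natDegree + 1), p.coeff j * eg j x := funext (wp_eq p)
  rw [e]
  exact integrable_finsetSum _ fun j _ => (eg_int j).const_mul _

lemma Jp_eq (p : ℝ[X]) : Jp p = ∑ j ∈ Finset.range (p.natDegree + 1), p.coeff j * (√Real.pi / 2 / √(j + 1)) := by
  unfold Jp
  simp_rw [wp_eq]
  rw [integral_finsetSum _ fun j _ => (eg_int j).const_mul _]
  refine Finset.sum_congr rfl fun j _ => ?_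
  rw [integral_const_mul, eg_val]

/-- trapezoid -/
def tz (η b s : ℝ) : ℝ := max 0 (min 1 ((b - s) / η))

lemma tz_cont {η b : ℝ} : Continuous (tz η b) := by unfold tz; fun_prop

lemma tz_nonneg (η b s : ℝ) : 0 ≤ tz η b s := le_max_left _ _

lemma tz_le (η b s : ℝ) : tz η b s ≤ 1 := max_le zero_le_one (min_le_left _ _)

lemma tz_one {η b s : ℝ} (hη : 0 < η) (h : s ≤ b - η) : tz η b s = 1 := by
  unfold tz
  have : 1 ≤ (b - s) / η := by rw [le_div_iff₀ hη]; linarith
  rw [min_eq_left this, max_eq_right zero_le_one]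

lemma tz_zero {η b s : ℝ} (hη : 0 < η) (h : b ≤ s) : tz η b s = 0 := by
  unfold tz
  have : (b - s) / η ≤ 0 := div_nonpos_of_nonpos_of_nonneg (by linarith) hη.le
  exact max_eq_left (le_trans (min_le_right _ _) this)

/-- pulled back to `[0,1]` -/
def ph (η b y : ℝ) : ℝ := (max y (Real.exp (-2)))⁻¹ * tz η b (-Real.log (max y (Real.exp (-2))))

lemma ph_cont {η b : ℝ} : Continuous (ph η b) := by
  have h0 : ∀ y : ℝ, max y (Real.exp (-2)) ≠ 0 := fun y => (lt_max_of_lt_right (Real.exp_pos _)).ne'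
  unfold ph
  refine Continuous.mul (Continuous.inv₀ (by fun_prop) h0) (tz_cont.comp ?_)
  exact (Continuous.log (by fun_prop) h0).neg

lemma ph_eq {η b : ℝ} (hη : 0 < η) (hb : b ≤ 2) (x : ℝ) :
    Real.exp (-x ^ 2) * ph η b (Real.exp (-x ^ 2)) = tz η b (x ^ 2) := by
  unfold ph
  rcases le_total (x ^ 2) 2 with h | h
  · have e : max (Real.exp (-x ^ 2)) (Real.exp (-2)) = Real.exp (-x ^ 2) :=
      max_eq_left (Real.exp_le_exp.2 (by linarith))
    rw [e, Real.log_exp, neg_neg, ← mul_assoc, mul_inv_cancel₀ (Real.exp_pos _).ne', one_mul]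
  · have e : max (Real.exp (-x ^ 2)) (Real.exp (-2)) = Real.exp (-2) :=
      max_eq_right (Real.exp_le_exp.2 (by linarith))
    rw [e, Real.log_exp, neg_neg, tz_zero hη hb, tz_zero hη (hb.trans h)]
    ring

/-- polynomial approximation of the indicator in mean -/
lemma approx {ε : ℝ} (hε : 0 < ε) : ∃ p q : ℝ[X],
    (∀ x : ℝ, 0 < x → |(Ioc (0:ℝ) 1).indicator (fun _ => (1:ℝ)) x - wp p x| ≤ wp q x) ∧ Jp q ≤ ε := by
  set η : ℝ := min 1 (ε / 4) with hη
  have hη0 : 0 < η := by positivity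
  have hη1 : η ≤ 1 := min_le_left _ _
  have hη2 : η ≤ ε / 4 := min_le_right _ _
  set δ : ℝ := ε / 12 with hδ
  have hδ0 : 0 < δ := by positivity
  obtain ⟨p, hp⟩ := exists_polynomial_near_of_continuousOn 0 1 (ph η (1 + η)) ph_cont.continuousOn δ hδ0
  obtain ⟨q, hq⟩ := exists_polynomial_near_of_continuousOn 0 1
    (fun y => ph η (1 + η) y - ph η 1 y + 2 * δ) (by
      have := (ph_cont (η := η) (b := 1 + η)).continuousOn (s := Icc (0:ℝ) 1)
      have h2 := (ph_cont (η := η) (b := 1)).continuousOn (s := Icc (0:ℝ) 1)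
      exact (this.sub h2).add continuousOn_const) δ hδ0
  have hy : ∀ x : ℝ, Real.exp (-x ^ 2) ∈ Icc (0:ℝ) 1 := fun x =>
    ⟨(Real.exp_pos _).le, Real.exp_le_one_iff.2 (by nlinarith [sq_nonneg x])⟩
  have hwp : ∀ x : ℝ, |wp p x - tz η (1 + η) (x ^ 2)| ≤ δ * Real.exp (-x ^ 2) := by
    intro x
    rw [← ph_eq hη0 (by linarith) x]
    unfold wp
    rw [← mul_sub, abs_mul, abs_of_pos (Real.exp_pos _), mul_comm]
    exact mul_le_mul_of_nonneg_right (hp _ (hy x)).le (Real.exp_pos _).le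
  have hwq : ∀ x : ℝ, |wp q x - (tz η (1 + η) (x ^ 2) - tz η 1 (x ^ 2) + 2 * δ * Real.exp (-x ^ 2))| ≤
      δ * Real.exp (-x ^ 2) := by
    intro x
    rw [← ph_eq hη0 (by linarith) x, ← ph_eq hη0 (by linarith : (1:ℝ) ≤ 2) x]
    unfold wp
    have e : Real.exp (-x ^ 2) * q.eval (Real.exp (-x ^ 2)) -
        (Real.exp (-x ^ 2) * ph η (1 + η) (Real.exp (-x ^ 2)) - Real.exp (-x ^ 2) * ph η 1 (Real.exp (-x ^ 2)) +
          2 * δ * Real.exp (-x ^ 2)) = Real.exp (-x ^ 2) * (q.eval (Real.exp (-x ^ 2)) -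
          (ph η (1 + η) (Real.exp (-x ^ 2)) - ph η 1 (Real.exp (-x ^ 2)) + 2 * δ)) := by ring
    rw [e, abs_mul, abs_of_pos (Real.exp_pos _), mul_comm]
    exact mul_le_mul_of_nonneg_right (hq _ (hy x)).le (Real.exp_pos _).le
  refine ⟨p, q, fun x hx => ?_, ?_⟩
  · have h1 := abs_le.1 (hwp x)
    have h2 := abs_le.1 (hwq x)
    have hi : tz η 1 (x ^ 2) ≤ (Ioc (0:ℝ) 1).indicator (fun _ => (1:ℝ)) x ∧
        (Ioc (0:ℝ) 1).indicator (fun _ => (1:ℝ)) x ≤ tz η (1 + η) (x ^ 2) := by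
      by_cases h : x ≤ 1
      · rw [indicator_of_mem (show x ∈ Ioc (0:ℝ) 1 from ⟨hx, h⟩)]
        refine ⟨tz_le _ _ _, ?_⟩
        rw [tz_one hη0 (by nlinarith)]
      · rw [indicator_of_notMem (fun h' => h h'.2)]
        push Not at h
        refine ⟨?_, tz_nonneg _ _ _⟩
        rw [tz_zero hη0 (by nlinarith)]
    have he := Real.exp_pos (-x ^ 2)
    rw [abs_le]
    constructor <;> linarith
  · have hb : ∀ x ∈ Ioi (0:ℝ), wp q x ≤ (Icc (1 - η) (1 + η)).indicator (fun _ => (1:ℝ)) x + 3 * δ * eg 0 x := by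
      intro x hx
      have hx0 : 0 < x := hx
      have h2 := abs_le.1 (hwq x)
      have e0 : eg 0 x = Real.exp (-x ^ 2) := by
        unfold eg; congr 1; push_cast; ring
      rw [e0]
      have h3 : tz η (1 + η) (x ^ 2) - tz η 1 (x ^ 2) ≤ (Icc (1 - η) (1 + η)).indicator (fun _ => (1:ℝ)) x := by
        by_cases h : x ∈ Icc (1 - η) (1 + η)
        · rw [indicator_of_mem h]
          have := tz_le η (1 + η) (x ^ 2)
          have := tz_nonneg η 1 (x ^ 2)
          linarith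
        · rw [indicator_of_notMem h]
          rw [mem_Icc, not_and_or, not_le, not_le] at h
          rcases h with h | h
          · rw [tz_one hη0 (by nlinarith), tz_one hη0 (by nlinarith), sub_self]
          · rw [tz_zero hη0 (by nlinarith), tz_zero hη0 (by nlinarith), sub_self]
      linarith
    have hi1 : IntegrableOn (fun x : ℝ => (Icc (1 - η) (1 + η)).indicator (fun _ => (1:ℝ)) x) (Ioi 0) :=
      ((integrable_indicator_iff measurableSet_Icc).2 (by simp)).integrableOn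
    have h4 : Jp q ≤ ∫ x in Ioi (0:ℝ), ((Icc (1 - η) (1 + η)).indicator (fun _ => (1:ℝ)) x + 3 * δ * eg 0 x) := by
      unfold Jp
      exact setIntegral_mono_on (wp_int q) (hi1.add ((eg_int 0).const_mul _)) measurableSet_Ioi hb
    have h5 : ∫ x in Ioi (0:ℝ), (Icc (1 - η) (1 + η)).indicator (fun _ => (1:ℝ)) x ≤ 2 * η := by
      have h6 : ∫ x in Ioi (0:ℝ), (Icc (1 - η) (1 + η)).indicator (fun _ => (1:ℝ)) x ≤
          ∫ x : ℝ, (Icc (1 - η) (1 + η)).indicator (fun _ => (1:ℝ)) x :=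
        setIntegral_le_integral ((integrable_indicator_iff measurableSet_Icc).2 (by simp))
          (Eventually.of_forall fun x => indicator_nonneg (fun _ _ => zero_le_one) x)
      have h8 : ∫ x : ℝ, (Icc (1 - η) (1 + η)).indicator (fun _ => (1:ℝ)) x = 2 * η := by
        rw [integral_indicator measurableSet_Icc, setIntegral_const, Real.volume_real_Icc,
          max_eq_left (by linarith), smul_eq_mul]
        ring
      rw [h8] at h6
      exact h6
    rw [integral_add hi1 ((eg_int 0).const_mul _), integral_const_mul, eg_val] at h4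
    have h7 : √Real.pi / 2 / √((0:ℕ) + 1) ≤ 1 := by
      have : √Real.pi ≤ 2 := by
        rw [Real.sqrt_le_left (by norm_num)]
        linarith [Real.pi_lt_d2]
      simp
      linarith
    nlinarith [mul_le_mul_of_nonneg_left h7 (by positivity : 0 ≤ 3 * δ)]

lemma int_wp {E : Type} [NormedAddCommGroup E] [NormedSpace ℝ E] {g : ℝ → E} {T : ℝ}
    (hg : ∀ j : ℕ, IntegrableOn (fun t => eg j (t / T) • g t) (Ioi 0)) (p : ℝ[X]) :
    IntegrableOn (fun t => wp p (t / T) • g t) (Ioi 0) ∧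
    ∫ t in Ioi (0:ℝ), wp p (t / T) • g t =
      ∑ j ∈ Finset.range (p.natDegree + 1), p.coeff j • ∫ t in Ioi (0:ℝ), eg j (t / T) • g t := by
  have e : (fun t => wp p (t / T) • g t) = fun t => ∑ j ∈ Finset.range (p.natDegree + 1),
      p.coeff j • (eg j (t / T) • g t) := by
    funext t
    rw [wp_eq, Finset.sum_smul]
    exact Finset.sum_congr rfl fun j _ => by rw [mul_smul]
  rw [e]
  refine ⟨integrable_finsetSum _ fun j _ => (hg j).smul (p.coeff j), ?_⟩
  have h := integral_finsetSum (μ := volume.restrict (Ioi (0:ℝ))) (Finset.range (p.natDegree + 1))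
    (f := fun j t => p.coeff j • (eg j (t / T) • g t)) fun j _ => (hg j).smul (p.coeff j)
  rw [h]
  exact Finset.sum_congr rfl fun j _ => integral_smul _ _

/-- **Tauberian theorem** for Gaussian means of a family of complex functions with a majorant -/
theorem kara {P : ℝ → ℝ → ℂ} {m : ℝ → ℝ → ℝ} {N : ℝ → ℝ} {A : ℂ} {B : ℝ}
    (hPc : ∀ T, Continuous (P T)) (hle : ∀ T t, ‖P T t‖ ≤ m T t)
    (hint : ∀ T : ℝ, 0 < T → ∀ j : ℕ, IntegrableOn (fun t => eg j (t / T) * m T t) (Ioi 0))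
    (hN : ∀ᶠ T in atTop, 0 < N T)
    (hP : ∀ j : ℕ, Tendsto (fun T => (∫ t in Ioi (0:ℝ), (eg j (t / T) : ℂ) * P T t) / (N T : ℂ)) atTop
      (𝓝 (A / (√(j + 1) : ℝ))))
    (hm : ∀ j : ℕ, Tendsto (fun T => (∫ t in Ioi (0:ℝ), eg j (t / T) * m T t) / N T) atTop
      (𝓝 (B / √(j + 1)))) :
    Tendsto (fun T => (∫ t in (0:ℝ)..T, P T t) / (N T : ℂ)) atTop (𝓝 (A * (2 / √Real.pi : ℝ))) := by
  have hpi : 0 < √Real.pi := by positivity
  have hPint : ∀ T : ℝ, 0 < T → ∀ j : ℕ, IntegrableOn (fun t => eg j (t / T) • P T t) (Ioi 0) := by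
    intro T hT j
    refine (hint T hT j).mono' ?_ (Eventually.of_forall fun t => ?_)
    · have h1 := hPc T
      have h2 := eg_cont j
      exact Continuous.aestronglyMeasurable (by fun_prop)
    · rw [norm_smul, Real.norm_of_nonneg (eg_pos _ _).le]
      exact mul_le_mul_of_nonneg_left (hle T t) (eg_pos _ _).le
  -- limits for weights
  have hPw : ∀ p : ℝ[X], Tendsto (fun T => (∫ t in Ioi (0:ℝ), wp p (t / T) • P T t) / (N T : ℂ)) atTop
      (𝓝 (A * (2 / √Real.pi : ℝ) * Jp p)) := by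
    intro p
    have h1 : Tendsto (fun T => ∑ j ∈ Finset.range (p.natDegree + 1), (p.coeff j : ℂ) *
        ((∫ t in Ioi (0:ℝ), (eg j (t / T) : ℂ) * P T t) / (N T : ℂ))) atTop
        (𝓝 (∑ j ∈ Finset.range (p.natDegree + 1), (p.coeff j : ℂ) * (A / (√(j + 1) : ℝ)))) :=
      tendsto_finsetSum _ fun j _ => (hP j).const_mul _
    have e1 : ∑ j ∈ Finset.range (p.natDegree + 1), (p.coeff j : ℂ) * (A / (√(j + 1) : ℝ)) =
        A * (2 / √Real.pi : ℝ) * Jp p := by
      rw [Jp_eq, Complex.ofReal_sum, Finset.mul_sum]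
      refine Finset.sum_congr rfl fun j _ => ?_
      have hpc : ((√Real.pi : ℝ) : ℂ) ≠ 0 := by exact_mod_cast hpi.ne'
      push_cast
      field_simp
    rw [e1] at h1
    refine h1.congr' ?_
    filter_upwards [eventually_gt_atTop 0] with T hT
    rw [(int_wp (hPint T hT) p).2, Finset.sum_div]
    refine Finset.sum_congr rfl fun j _ => ?_
    rw [Complex.real_smul, mul_div_assoc]
    congr 3
  have hmw : ∀ p : ℝ[X], Tendsto (fun T => (∫ t in Ioi (0:ℝ), wp p (t / T) • m T t) / N T) atTop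
      (𝓝 (B * (2 / √Real.pi) * Jp p)) := by
    intro p
    have h1 : Tendsto (fun T => ∑ j ∈ Finset.range (p.natDegree + 1), p.coeff j *
        ((∫ t in Ioi (0:ℝ), eg j (t / T) * m T t) / N T)) atTop
        (𝓝 (∑ j ∈ Finset.range (p.natDegree + 1), p.coeff j * (B / √(j + 1)))) :=
      tendsto_finsetSum _ fun j _ => (hm j).const_mul _
    have e1 : ∑ j ∈ Finset.range (p.natDegree + 1), p.coeff j * (B / √(j + 1)) =
        B * (2 / √Real.pi) * Jp p := by
      rw [Jp_eq, Finset.mul_sum]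
      refine Finset.sum_congr rfl fun j _ => ?_
      field_simp
    rw [e1] at h1
    refine h1.congr' ?_
    filter_upwards [eventually_gt_atTop 0] with T hT
    rw [(int_wp (g := m T) (hint T hT) p).2, Finset.sum_div]
    refine Finset.sum_congr rfl fun j _ => ?_
    simp only [smul_eq_mul]
    rw [mul_div_assoc]
  have hB0 : 0 ≤ B := by
    have h1 := hm 0
    simp only [Nat.cast_zero, zero_add, Real.sqrt_one, div_one] at h1
    refine ge_of_tendsto h1 ?_
    filter_upwards [hN, eventually_gt_atTop 0] with T h2 h3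
    refine div_nonneg (setIntegral_nonneg measurableSet_Ioi fun t _ => ?_) h2.le
    exact mul_nonneg (eg_pos _ _).le ((norm_nonneg _).trans (hle T t))
  rw [Metric.tendsto_nhds]
  intro ε hε
  set K : ℝ := B * (2 / √Real.pi) + ‖A * (2 / √Real.pi : ℝ)‖ + 1 with hK
  have hK0 : 1 ≤ K := by
    have : 0 ≤ B * (2 / √Real.pi) := by positivity
    have := norm_nonneg (A * (2 / √Real.pi : ℝ))
    linarith
  obtain ⟨p, q, hpq, hq⟩ := approx (ε := ε / (4 * K)) (by positivity)
  have hqK : K * Jp q ≤ ε / 4 := by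
    calc K * Jp q ≤ K * (ε / (4 * K)) := mul_le_mul_of_nonneg_left hq (by linarith)
      _ = ε / 4 := by field_simp
  have hJ : |1 - Jp p| ≤ Jp q := by
    have i1 : IntegrableOn (fun x : ℝ => (Ioc (0:ℝ) 1).indicator (fun _ => (1:ℝ)) x) (Ioi 0) :=
      ((integrable_indicator_iff measurableSet_Ioc).2 (by simp)).integrableOn
    have e1 : ∫ x in Ioi (0:ℝ), (Ioc (0:ℝ) 1).indicator (fun _ => (1:ℝ)) x = 1 := by
      rw [setIntegral_indicator measurableSet_Ioc]
      have : Ioi (0:ℝ) ∩ Ioc 0 1 = Ioc 0 1 := inter_eq_self_of_subset_right fun x hx => hx.1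
      rw [this, setIntegral_const]
      simp
    rw [← e1]
    unfold Jp
    rw [← integral_sub i1 (wp_int p), ← Real.norm_eq_abs]
    refine norm_integral_le_of_norm_le (wp_int q) ?_
    refine (ae_restrict_iff' measurableSet_Ioi).2 (Eventually.of_forall fun x hx => ?_)
    exact hpq x hx
  have h1 := Metric.tendsto_nhds.1 (hPw p) (ε / 4) (by positivity)
  have h2 := Metric.tendsto_nhds.1 (hmw q) (ε / 8) (by positivity)
  filter_upwards [h1, h2, hN, eventually_gt_atTop 0] with T h3 h4 h5 h6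
  have hN0 : (N T : ℂ) ≠ 0 := by exact_mod_cast h5.ne'
  -- the difference
  have hdiff : ‖(∫ t in (0:ℝ)..T, P T t) - ∫ t in Ioi (0:ℝ), wp p (t / T) • P T t‖ ≤
      ∫ t in Ioi (0:ℝ), wp q (t / T) • m T t := by
    have e1 : ∫ t in (0:ℝ)..T, P T t =
        ∫ t in Ioi (0:ℝ), (Ioc (0:ℝ) 1).indicator (fun _ => (1:ℝ)) (t / T) • P T t := by
      rw [intervalIntegral.integral_of_le h6.le, ← integral_indicator measurableSet_Ioc,
        ← integral_indicator measurableSet_Ioi]
      refine integral_congr_ae (Eventually.of_forall fun t => ?_)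
      by_cases ht : t ∈ Ioc 0 T
      · rw [indicator_of_mem ht, indicator_of_mem (show t ∈ Ioi (0:ℝ) from ht.1),
          indicator_of_mem (show t / T ∈ Ioc (0:ℝ) 1 from ⟨div_pos ht.1 h6, (div_le_one h6).2 ht.2⟩), one_smul]
      · rw [indicator_of_notMem ht]
        by_cases ht0 : t ∈ Ioi (0:ℝ)
        · have h9 : t / T ∉ Ioc (0:ℝ) 1 := fun h10 => ht ⟨ht0, (div_le_one h6).1 h10.2⟩
          rw [indicator_of_mem ht0, indicator_of_notMem h9, zero_smul]
        · rw [indicator_of_notMem ht0]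
    have i1 : IntegrableOn (fun t => (Ioc (0:ℝ) 1).indicator (fun _ => (1:ℝ)) (t / T) • P T t) (Ioi 0) := by
      have h7 : IntegrableOn (P T) (Ioc 0 T) := (hPc T).continuousOn.integrableOn_Icc.mono_set Ioc_subset_Icc_self
      have h8 := (integrable_indicator_iff measurableSet_Ioc).2 h7
      refine (h8.integrableOn (s := Ioi 0)).congr ?_
      refine (ae_restrict_iff' measurableSet_Ioi).2 (Eventually.of_forall fun t ht0 => ?_)
      show (Ioc 0 T).indicator (P T) t = (Ioc (0:ℝ) 1).indicator (fun _ => (1:ℝ)) (t / T) • P T t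
      by_cases ht : t ∈ Ioc 0 T
      · rw [indicator_of_mem ht,
          indicator_of_mem (show t / T ∈ Ioc (0:ℝ) 1 from ⟨div_pos ht.1 h6, (div_le_one h6).2 ht.2⟩), one_smul]
      · have h9 : t / T ∉ Ioc (0:ℝ) 1 := fun h10 => ht ⟨ht0, (div_le_one h6).1 h10.2⟩
        rw [indicator_of_notMem ht, indicator_of_notMem h9, zero_smul]
    rw [e1, ← integral_sub i1 (int_wp (hPint T h6) p).1]
    refine norm_integral_le_of_norm_le (int_wp (g := m T) (hint T h6) q).1 ?_
    refine (ae_restrict_iff' measurableSet_Ioi).2 (Eventually.of_forall fun t ht => ?_)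
    rw [← sub_smul, norm_smul, Real.norm_eq_abs, smul_eq_mul]
    exact mul_le_mul (hpq _ (div_pos ht h6)) (hle T t) (norm_nonneg _)
      ((abs_nonneg _).trans (hpq _ (div_pos ht h6)))
  set X : ℂ := ∫ t in (0:ℝ)..T, P T t with hX
  set Y : ℂ := ∫ t in Ioi (0:ℝ), wp p (t / T) • P T t with hY
  set Z : ℝ := ∫ t in Ioi (0:ℝ), wp q (t / T) • m T t with hZ
  rw [dist_eq_norm] at h3 ⊢
  rw [Real.dist_eq] at h4
  have h7 : ‖X / (N T : ℂ) - Y / (N T : ℂ)‖ ≤ Z / N T := by
    rw [← sub_div, norm_div, Complex.norm_real, Real.norm_of_nonneg h5.le]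
    exact div_le_div_of_nonneg_right hdiff h5.le
  have h8 : Z / N T ≤ B * (2 / √Real.pi) * Jp q + ε / 8 := by linarith [(abs_lt.1 h4).2]
  have h9 : ‖A * (2 / √Real.pi : ℝ) * Jp p - A * (2 / √Real.pi : ℝ)‖ ≤ ‖A * (2 / √Real.pi : ℝ)‖ * Jp q := by
    have e : A * (2 / √Real.pi : ℝ) * Jp p - A * (2 / √Real.pi : ℝ) =
        A * (2 / √Real.pi : ℝ) * (((Jp p - 1 : ℝ)) : ℂ) := by push_cast; ring
    rw [e, norm_mul, Complex.norm_real, Real.norm_eq_abs, abs_sub_comm]
    exact mul_le_mul_of_nonneg_left hJ (norm_nonneg _)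
  have e10 : X / (N T : ℂ) - A * (2 / √Real.pi : ℝ) = (X / (N T : ℂ) - Y / (N T : ℂ)) +
      (Y / (N T : ℂ) - A * (2 / √Real.pi : ℝ) * Jp p) +
      (A * (2 / √Real.pi : ℝ) * Jp p - A * (2 / √Real.pi : ℝ)) := by ring
  have hJq : 0 ≤ Jp q := (abs_nonneg _).trans hJ
  have h11 : K * Jp q = B * (2 / √Real.pi) * Jp q + ‖A * (2 / √Real.pi : ℝ)‖ * Jp q + Jp q := by
    rw [hK]; ring
  rw [e10]
  refine (norm_add₃_le).trans_lt ?_
  linarith

end

end Pool.Agent.J4.H32.VS
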