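import Pool.Agent.J4.H32.VS.Id
import Pool.Agent.J4.H44.LP.Pl
import Pool.Agent.J4.H44.OL.Co

set_option autoImplicit false

/-! Plancherel for the Gaussian sums. -/

namespace Pool.Agent.J4.H32.VS

open Complex MeasureTheory Filter Topology Set Metric Pool.Agent.TH535.SM Pool.Agent.R446.KR
open Pool.Agent.J4.H44.LP
open Pool.Agent.J4.H44.OL (Cr Cr_int Rs Rs_int Cr_eq)
open scoped FourierTransform ComplexConjugate

noncomputable section

lemma zk_cont (k : ℕ) : Continuous (zk k) := (zk_dat k (u := 1) le_rfl).zc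

lemma zk_poly (k : ℕ) : ∃ (C : ℝ) (p : ℕ), 1 ≤ C ∧ ∀ t : ℝ, ‖zk k t‖ ^ 2 ≤ C * (1 + |t|) ^ p :=
  (zk_dat k (u := 1) le_rfl).zb

lemma Fh_norm (k : ℕ) (h t : ℝ) : ‖Fh k h t‖ ^ 2 = ‖zk k t‖ ^ 2 * Real.exp (-(h ^ 2 * t ^ 2)) := by
  unfold Fh
  rw [norm_mul, mul_pow, Complex.norm_real, Real.norm_of_nonneg (Real.exp_pos _).le, ← Real.exp_nat_mul]
  congr 2
  push_cast; ring

lemma Fh_dec (k : ℕ) {h : ℝ} (hh : 0 < h) : Dec (Fh k h) := by
  obtain ⟨C, p, hC, hb⟩ := zk_poly k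
  obtain ⟨B, hB, hg⟩ := poly_gauss (p + 4) (c := h ^ 2) (by positivity)
  refine ⟨?_, √(C * B), by positivity, fun t => ?_⟩
  · unfold Fh
    have := zk_cont k
    fun_prop
  · have hp : 0 < (1 + |t|) ^ 2 := by positivity
    rw [← div_eq_mul_inv, le_div_iff₀ hp]
    refine Real.le_sqrt_of_sq_le ?_
    rw [mul_pow, Fh_norm]
    calc ‖zk k t‖ ^ 2 * Real.exp (-(h ^ 2 * t ^ 2)) * ((1 + |t|) ^ 2) ^ 2 ≤
          (C * (1 + |t|) ^ p) * Real.exp (-(h ^ 2 * t ^ 2)) * ((1 + |t|) ^ 2) ^ 2 := by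
          gcongr; exact hb t
      _ = C * ((1 + |t|) ^ (p + 4) * Real.exp (-(h ^ 2 * t ^ 2))) := by ring
      _ ≤ C * B := mul_le_mul_of_nonneg_left (hg t) (by linarith)

lemma Dl_ft (k : ℕ) {h : ℝ} (hh : 0 < h) (u : ℝ) :
    Dl k h u = ((h / √(2 * Real.pi) : ℝ) : ℂ) * 𝓕 (Fh k h) (-(u / (2 * Real.pi))) := by
  rw [Dl_eq k hh u, ft_eq]
  congr 1
  refine integral_congr_ae (Eventually.of_forall fun t => ?_)
  simp only
  congr 2
  have hpi : (Real.pi : ℂ) ≠ 0 := by exact_mod_cast Real.pi_ne_zero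
  push_cast
  field_simp

lemma Dl_sq (k : ℕ) {h : ℝ} (hh : 0 < h) (u : ℝ) :
    ‖Dl k h u‖ ^ 2 = h ^ 2 / (2 * Real.pi) * ‖𝓕 (Fh k h) (-(u / (2 * Real.pi)))‖ ^ 2 := by
  rw [Dl_ft k hh, norm_mul, mul_pow, Complex.norm_real, Real.norm_of_nonneg (by positivity), div_pow,
    Real.sq_sqrt (by positivity)]

lemma scale_int {E : Type} [NormedAddCommGroup E] [NormedSpace ℝ E] (g : ℝ → E) :
    ∫ u : ℝ, g u = (2 * Real.pi) • ∫ w : ℝ, g (-(2 * Real.pi) * w) := by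
  have hp : 0 < 2 * Real.pi := by positivity
  rw [Measure.integral_comp_mul_left, abs_inv, abs_neg, abs_of_pos hp, smul_smul,
    mul_inv_cancel₀ hp.ne', one_smul]

lemma int_St (k : ℕ) {h : ℝ} (hh : 0 < h) (L : ℝ) (g : ℝ → ℝ) :
    ∫ u : ℝ, g (u / L) * ‖Dl k h u‖ ^ 2 = h ^ 2 * St (Fh k h) L g := by
  rw [scale_int]
  unfold St
  rw [smul_eq_mul, ← integral_const_mul, ← integral_const_mul]
  refine integral_congr_ae (Eventually.of_forall fun w => ?_)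
  simp only
  rw [Dl_sq k hh]
  have e1 : -(-(2 * Real.pi) * w / (2 * Real.pi)) = w := by field_simp
  have e2 : -(2 * Real.pi) * w / L = -(2 * Real.pi * w / L) := by ring
  rw [e1, e2]
  field_simp

lemma Dl_sq_int (k : ℕ) {h : ℝ} (hh : 0 < h) : Integrable (fun u : ℝ => ‖Dl k h u‖ ^ 2) := by
  have h1 := (planch (Fh_dec k hh)).1
  have h2 := h1.comp_mul_left' (R := -(2 * Real.pi)⁻¹) (neg_ne_zero.2 (by
    have := Real.pi_pos
    positivity))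
  refine (h2.const_mul (h ^ 2 / (2 * Real.pi))).congr (Eventually.of_forall fun u => ?_)
  simp only
  rw [Dl_sq k hh]
  congr 3
  ring_nf

lemma int_Rs (k : ℕ) {h : ℝ} (hh : 0 < h) (β : ℝ) :
    ∫ u : ℝ, ((‖Dl k h u‖ ^ 2 : ℝ) : ℂ) * cexp (-(2 * β * u * I)) = (h:ℂ) ^ 2 * Rs (Fh k h) β := by
  rw [scale_int]
  unfold Rs
  rw [← integral_const_mul, Complex.real_smul, ← integral_const_mul]
  refine integral_congr_ae (Eventually.of_forall fun w => ?_)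
  simp only
  rw [Dl_sq k hh]
  have e1 : -(-(2 * Real.pi) * w / (2 * Real.pi)) = w := by field_simp
  rw [e1]
  have hpi : (Real.pi : ℂ) ≠ 0 := by exact_mod_cast Real.pi_ne_zero
  have e2 : -(2 * β * (-(2 * Real.pi) * w : ℝ) * I : ℂ) = ((4 * Real.pi * β * w : ℝ) : ℂ) * I := by
    push_cast; ring
  rw [e2]
  push_cast
  field_simp

/-- the correlation with the Gaussian weight -/
lemma Cr_Fh (k : ℕ) (h a : ℝ) : Cr (Fh k h) a = ((Real.exp (-(h ^ 2 * a ^ 2)) : ℝ) : ℂ) *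
    ∫ t : ℝ, zk k (t + a) * conj (zk k (t + -a)) * ((Real.exp (-(h ^ 2 * t ^ 2)) : ℝ) : ℂ) := by
  unfold Cr
  rw [← integral_const_mul]
  refine integral_congr_ae (Eventually.of_forall fun t => ?_)
  simp only
  unfold Fh
  rw [map_mul, Complex.conj_ofReal]
  have e : ((Real.exp (-(h ^ 2 * (t + a) ^ 2 / 2)) : ℝ) : ℂ) * ((Real.exp (-(h ^ 2 * (t + -a) ^ 2 / 2)) : ℝ) : ℂ) =
      ((Real.exp (-(h ^ 2 * a ^ 2)) : ℝ) : ℂ) * ((Real.exp (-(h ^ 2 * t ^ 2)) : ℝ) : ℂ) := by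
    rw [← Complex.ofReal_mul, ← Complex.ofReal_mul, ← Real.exp_add, ← Real.exp_add]
    congr 2
    ring
  calc _ = zk k (t + a) * conj (zk k (t + -a)) * (((Real.exp (-(h ^ 2 * (t + a) ^ 2 / 2)) : ℝ) : ℂ) *
        ((Real.exp (-(h ^ 2 * (t + -a) ^ 2 / 2)) : ℝ) : ℂ)) := by ring
    _ = _ := by rw [e]; ring

lemma zk_conj (k : ℕ) (t : ℝ) : conj (zk k t) = zk k (-t) := by
  unfold zk ze
  have e : (1 / 2 + ((-t : ℝ) : ℂ) * I) = conj (1 / 2 + (t : ℂ) * I) := by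
    rw [map_add, map_mul, conj_I, Complex.conj_ofReal, map_div₀, map_one, map_ofNat]
    push_cast; ring
  rw [e, riemannZeta_conj, map_pow]

/-- the product is even -/
lemma P_even (k : ℕ) (a t : ℝ) : zk k (-t + a) * conj (zk k (-t + -a)) = zk k (t + a) * conj (zk k (t + -a)) := by
  rw [zk_conj, zk_conj, mul_comm]
  congr 2 <;> ring

end

end Pool.Agent.J4.H32.VS
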