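import Pool.Agent.H640R3.EG.Res
import Pool.Agent.W182.KO.Strip

set_option autoImplicit false

/-! A pole of any order: the rectangle integral equals the circle integral; shifting a line across a pole. -/

namespace Pool.Agent.J4.H32.VS

open Complex MeasureTheory Filter Topology Set Metric
open Pool.Agent.H640R3.EG Pool.Agent.H810R2.CSd

noncomputable section

variable {x₀ x₁ y₀ y₁ : ℝ}

/-- a function with a primitive has no boundary integral -/
lemma rect_prim {f p : ℂ → ℂ} (hx : x₀ < x₁) (hy : y₀ < y₁)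
    (hd : ∀ z ∈ bd x₀ x₁ y₀ y₁, HasDerivAt p (f z) z) (hc : ContinuousOn f (bd x₀ x₁ y₀ y₁)) :
    rect x₀ x₁ y₀ y₁ f = 0 := by
  have H : ∀ y, y = y₀ ∨ y = y₁ → ∫ x in x₀..x₁, f (x + (y : ℝ) * I) = p (x₁ + y * I) - p (x₀ + y * I) := by
    intro y hy'
    refine intervalIntegral.integral_eq_sub_of_hasDerivAt (f := fun x : ℝ => p (x + (y : ℝ) * I))
      (fun x hx' => ?_) (int_h hx.le hy.le hc hy')
    rw [uIcc_of_le hx.le] at hx'
    have h1 := hd _ (mem_bd_h hy.le hy' hx')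
    have h2 : HasDerivAt (fun x : ℝ => (x : ℂ) + (y : ℝ) * I) 1 x :=
      (Complex.ofRealCLM.hasDerivAt).add_const _
    have h3 := h1.comp_of_eq x h2 rfl
    rw [mul_one] at h3
    exact h3
  have V : ∀ x, x = x₀ ∨ x = x₁ → I * ∫ y in y₀..y₁, f ((x : ℝ) + y * I) = p (x + y₁ * I) - p (x + y₀ * I) := by
    intro x hx'
    rw [← intervalIntegral.integral_const_mul]
    refine intervalIntegral.integral_eq_sub_of_hasDerivAt (f := fun y : ℝ => p (x + (y : ℝ) * I))
      (fun y hy' => ?_) ((int_v hx.le hy.le hc hx').const_mul I)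
    rw [uIcc_of_le hy.le] at hy'
    have h1 := hd _ (mem_bd_v hx.le hx' hy')
    have h2 : HasDerivAt (fun y : ℝ => (x : ℂ) + (y : ℝ) * I) I y := by
      have h4 : HasDerivAt (fun y : ℝ => (y : ℂ)) 1 y := Complex.ofRealCLM.hasDerivAt
      simpa using (h4.mul_const I).const_add (x : ℂ)
    have h3 := h1.comp_of_eq y h2 rfl
    rw [mul_comm]
    exact h3
  unfold rect
  rw [H _ (Or.inl rfl), H _ (Or.inr rfl)]
  simp only [smul_eq_mul]
  rw [V _ (Or.inl rfl), V _ (Or.inr rfl)]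
  ring

lemma bd_ne {w z : ℂ} (hw : w ∈ op x₀ x₁ y₀ y₁) (hz : z ∈ bd x₀ x₁ y₀ y₁) : z - w ≠ 0 := by
  intro h
  rw [sub_eq_zero] at h
  rw [h] at hz
  exact op_bd hz hw

lemma pow_cont (w : ℂ) (hw : w ∈ op x₀ x₁ y₀ y₁) (n : ℕ) :
    ContinuousOn (fun z => ((z - w) ^ n)⁻¹) (bd x₀ x₁ y₀ y₁) := by
  refine ContinuousOn.inv₀ (by fun_prop) fun z hz => pow_ne_zero _ (bd_ne hw hz)

lemma rect_const_pole (w : ℂ) (hw : w ∈ op x₀ x₁ y₀ y₁) {r : ℝ} (hr : 0 < r) (n : ℕ) :
    rect x₀ x₁ y₀ y₁ (fun z => ((z - w) ^ (n + 1))⁻¹) = ∮ z in C(w, r), ((z - w) ^ (n + 1))⁻¹ := by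
  obtain ⟨⟨h1, h2⟩, h3, h4⟩ := hw
  rcases Nat.eq_zero_or_pos n with rfl | hn
  · simp only [zero_add, pow_one]
    rw [rect_inv h1 h2 h3 h4, circleIntegral.integral_sub_center_inv w hr.ne']
  · have e1 : ∮ z in C(w, r), ((z - w) ^ (n + 1))⁻¹ = 0 := by
      have h := circleIntegral.integral_sub_zpow_of_ne (n := -((n:ℤ) + 1)) (by omega) w w r
      refine Eq.trans (circleIntegral.integral_congr hr.le fun z _ => ?_) h
      rw [zpow_neg]
      norm_cast
    rw [e1]
    refine rect_prim (p := fun z => -((n:ℂ))⁻¹ * ((z - w) ^ n)⁻¹) (h1.trans h2) (h3.trans h4) (fun z hz => ?_)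
      (pow_cont w ⟨⟨h1, h2⟩, h3, h4⟩ (n + 1))
    have hne := bd_ne ⟨⟨h1, h2⟩, h3, h4⟩ hz
    have hd : HasDerivAt (fun z : ℂ => (z - w) ^ n) ((n:ℂ) * (z - w) ^ (n - 1)) z := by
      have h5 := ((hasDerivAt_id' z).sub_const w).fun_pow n
      rw [mul_one] at h5
      exact h5
    have h6 := (hd.fun_inv (pow_ne_zero n hne)).const_mul (-((n:ℂ))⁻¹)
    have hn0 : (n : ℂ) ≠ 0 := by exact_mod_cast hn.ne'
    have e6 : -((n:ℂ))⁻¹ * (-((n:ℂ) * (z - w) ^ (n - 1)) / ((z - w) ^ n) ^ 2) = ((z - w) ^ (n + 1))⁻¹ := by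
      obtain ⟨m, rfl⟩ : ∃ m, n = m + 1 := ⟨n - 1, by omega⟩
      rw [Nat.add_sub_cancel]
      field_simp
      ring
    rw [e6] at h6
    exact h6

/-- rectangle and circle around a pole -/
theorem rect_circle (w : ℂ) (hw : w ∈ op x₀ x₁ y₀ y₁) {r : ℝ} (hr : 0 < r) (k : ℕ) :
    ∀ F : ℂ → ℂ, Differentiable ℂ F →
      rect x₀ x₁ y₀ y₁ (fun z => F z * ((z - w) ^ k)⁻¹) = ∮ z in C(w, r), F z * ((z - w) ^ k)⁻¹ := by
  obtain ⟨⟨h1, h2⟩, h3, h4⟩ := hw
  induction k with
  | zero =>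
    intro F hF
    simp only [pow_zero, inv_one, mul_one]
    rw [rect_eq_zero hF]
    exact (Complex.circleIntegral_eq_zero_of_differentiable_on_off_countable hr.le Set.countable_empty
      hF.continuous.continuousOn (fun z _ => hF z)).symm
  | succ k ih =>
    intro F hF
    have hd : Differentiable ℂ (dslope F w) := by
      have := (Complex.differentiableOn_dslope (s := univ) (c := w) univ_mem).2 hF.differentiableOn
      exact differentiableOn_univ.1 this
    have hsplit : ∀ z, z - w ≠ 0 → F z * ((z - w) ^ (k + 1))⁻¹ =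
        dslope F w z * ((z - w) ^ k)⁻¹ + F w * ((z - w) ^ (k + 1))⁻¹ := by
      intro z hz
      rw [dslope_of_ne F (sub_ne_zero.1 hz), slope_def_field]
      field_simp
      ring
    have hw' : w ∈ op x₀ x₁ y₀ y₁ := ⟨⟨h1, h2⟩, h3, h4⟩
    have e1 : rect x₀ x₁ y₀ y₁ (fun z => F z * ((z - w) ^ (k + 1))⁻¹) =
        rect x₀ x₁ y₀ y₁ (fun z => dslope F w z * ((z - w) ^ k)⁻¹) +
        F w * rect x₀ x₁ y₀ y₁ (fun z => ((z - w) ^ (k + 1))⁻¹) := by
      rw [← rect_const_mul, ← rect_add (f := fun z => dslope F w z * ((z - w) ^ k)⁻¹)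
        (g := fun z => F w * ((z - w) ^ (k + 1))⁻¹) (h1.trans h2).le (h3.trans h4).le
        (hd.continuous.continuousOn.mul (pow_cont w hw' k)) (continuousOn_const.mul (pow_cont w hw' (k + 1)))]
      exact rect_congr (h1.trans h2).le (h3.trans h4).le fun z hz => hsplit z (bd_ne hw' hz)
    have hsp : ∀ z ∈ sphere w r, z - w ≠ 0 := by
      intro z hz h
      rw [mem_sphere_iff_norm, h, norm_zero] at hz
      exact hr.ne hz
    have hcp : ∀ n : ℕ, ContinuousOn (fun z => ((z - w) ^ n)⁻¹) (sphere w r) := fun n =>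
      ContinuousOn.inv₀ (by fun_prop) fun z hz => pow_ne_zero _ (hsp z hz)
    have e2 : ∮ z in C(w, r), F z * ((z - w) ^ (k + 1))⁻¹ =
        (∮ z in C(w, r), dslope F w z * ((z - w) ^ k)⁻¹) + F w * ∮ z in C(w, r), ((z - w) ^ (k + 1))⁻¹ := by
      rw [circleIntegral.integral_congr hr.le (fun z hz => hsplit z (hsp z hz)),
        circleIntegral.integral_add (f := fun z => dslope F w z * ((z - w) ^ k)⁻¹)
          (g := fun z => F w * ((z - w) ^ (k + 1))⁻¹)
          ((hd.continuous.continuousOn.mul (hcp k)).circleIntegrable hr.le)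
          ((continuousOn_const.mul (hcp (k + 1))).circleIntegrable hr.le),
        circleIntegral.integral_const_mul]
    rw [e1, e2, ih _ hd, rect_const_pole w hw' hr k]

/-- moving a vertical line across a pole of any order -/
theorem line_pole {F : ℂ → ℂ} (hF : Differentiable ℂ F) (k : ℕ) {w : ℂ} (hw : w.im = 0) {a b B r : ℝ}
    (ha : a < w.re) (hb : w.re < b) (hr : 0 < r) (hB0 : 0 ≤ B)
    (hB : ∀ s : ℂ, a ≤ s.re → s.re ≤ b → (s.re = a ∨ s.re = b ∨ 1 ≤ |s.im|) →
      ‖F s * ((s - w) ^ k)⁻¹‖ ≤ B / (1 + |s.im|) ^ 2) :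
    I * (∫ y : ℝ, F ((b : ℂ) + y * I) * (((b : ℂ) + y * I - w) ^ k)⁻¹) -
      I * (∫ y : ℝ, F ((a : ℂ) + y * I) * (((a : ℂ) + y * I - w) ^ k)⁻¹) =
      ∮ z in C(w, r), F z * ((z - w) ^ k)⁻¹ := by
  set f : ℂ → ℂ := fun s => F s * ((s - w) ^ k)⁻¹ with hf
  have hab : a ≤ b := (ha.trans hb).le
  have hcont : ∀ x : ℝ, x ≠ w.re → Continuous (fun y : ℝ => f ((x : ℂ) + y * I)) := by
    intro x hx
    refine (hF.continuous.comp (by fun_prop)).mul (Continuous.inv₀ (by fun_prop) fun y => pow_ne_zero _ ?_)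
    intro h
    have := congrArg Complex.re h
    simp at this
    exact hx (by linarith)
  have hint : ∀ x : ℝ, (x = a ∨ x = b) → Integrable (fun y : ℝ => f ((x : ℂ) + y * I)) := by
    intro x hx
    have h1 : a ≤ x ∧ x ≤ b ∧ x ≠ w.re := by
      rcases hx with rfl | rfl
      · exact ⟨le_rfl, hab, ha.ne⟩
      · exact ⟨hab, le_rfl, hb.ne'⟩
    refine (W182.KO.one_add_inv_sq_int.const_mul B).mono' (hcont x h1.2.2).aestronglyMeasurable
      (Eventually.of_forall fun y => ?_)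
    have := hB ((x : ℂ) + y * I) (by simpa using h1.1) (by simpa using h1.2.1) (by
      rcases hx with rfl | rfl
      · left; simp
      · right; left; simp)
    have e : ((x : ℂ) + y * I).im = y := by simp
    rw [e] at this
    rwa [← div_eq_mul_inv]
  have ta := (intervalIntegral_tendsto_integral (hint a (Or.inl rfl)) tendsto_neg_atTop_atBot tendsto_id)
  have tb := (intervalIntegral_tendsto_integral (hint b (Or.inr rfl)) tendsto_neg_atTop_atBot tendsto_id)
  have t1 := (tb.const_mul I).sub (ta.const_mul I)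
  have t2 : Tendsto (fun Y : ℝ => (∫ x in a..b, f (x + (-Y : ℝ) * I)) - ∫ x in a..b, f (x + (Y : ℝ) * I))
      atTop (𝓝 0) := by
    rw [tendsto_zero_iff_norm_tendsto_zero]
    have h6 : Tendsto (fun Y : ℝ => 2 * (B * (b - a)) * Y⁻¹) atTop (𝓝 0) := by
      simpa using tendsto_inv_atTop_zero.const_mul (2 * (B * (b - a)))
    refine squeeze_zero' (Eventually.of_forall fun _ => norm_nonneg _) ?_ h6
    filter_upwards [eventually_ge_atTop 1] with Y hY1
    have hY : 0 < Y := by linarith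
    have hor : ∀ y : ℝ, |y| = Y → ∀ x ∈ uIoc a b, ‖f (x + y * I)‖ ≤ B * Y⁻¹ := by
      intro y hy x hx
      rw [uIoc_of_le hab] at hx
      have e : ((x : ℂ) + y * I).im = y := by simp
      have := hB ((x : ℂ) + y * I) (by simpa using hx.1.le) (by simpa using hx.2)
        (by right; right; rw [e, hy]; exact hY1)
      rw [e, hy] at this
      refine this.trans ?_
      rw [← div_eq_mul_inv]
      refine div_le_div_of_nonneg_left hB0 hY ?_
      nlinarith
    have hh1 : ‖∫ x in a..b, f (x + (-Y : ℝ) * I)‖ ≤ B * Y⁻¹ * |b - a| :=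
      intervalIntegral.norm_integral_le_of_norm_le_const
        (hor (-Y) (by rw [abs_neg, abs_of_pos hY]))
    have hh2 : ‖∫ x in a..b, f (x + (Y : ℝ) * I)‖ ≤ B * Y⁻¹ * |b - a| :=
      intervalIntegral.norm_integral_le_of_norm_le_const (hor Y (abs_of_pos hY))
    rw [abs_of_nonneg (by linarith)] at hh1 hh2
    refine (norm_sub_le _ _).trans ?_
    linarith
  have t3 := t2.add t1
  rw [zero_add] at t3
  have t4 : Tendsto (fun _ : ℝ => ∮ z in C(w, r), F z * ((z - w) ^ k)⁻¹) atTop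
      (𝓝 (∮ z in C(w, r), F z * ((z - w) ^ k)⁻¹)) := tendsto_const_nhds
  refine tendsto_nhds_unique (t3.congr' ?_) t4
  filter_upwards [eventually_ge_atTop 1] with Y hY1
  have hw' : w ∈ op a b (-Y) Y := ⟨⟨ha, hb⟩, by rw [hw]; linarith, by rw [hw]; linarith⟩
  rw [← rect_circle w hw' hr k F hF]
  unfold rect
  simp only [smul_eq_mul, hf, id]
  ring

end

end Pool.Agent.J4.H32.VS
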