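import Pool.Agent.J4.H32.VS.Tm
import Pool.Agent.J4.H32.VS.Av

set_option autoImplicit false

/-! Sharp and Gaussian means of the moment. -/

namespace Pool.Agent.J4.H32.VS

open Complex MeasureTheory Filter Topology Set Metric Pool.Agent.TH535.SM Pool.Agent.R446.KR
open Pool.Agent.J4.H44.LP
open Pool.Agent.J4.H44.OL (Cr Cr_int Rs Rs_int Cr_eq)
open scoped FourierTransform ComplexConjugate

noncomputable section

variable {q k : ℕ} {c : ℝ}

lemma NN_scale (q : ℕ) {s : ℝ} (hs : 0 < s) : Tendsto (fun T => NN q (s * T) / NN q T) atTop (𝓝 s) := by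
  have h1 : Tendsto (fun T : ℝ => s * (1 + Real.log s / Real.log T) ^ q) atTop (𝓝 (s * (1 + 0) ^ q)) := by
    refine Tendsto.const_mul _ (Tendsto.pow ?_ q)
    exact tendsto_const_nhds.add (tendsto_const_nhds.div_atTop Real.tendsto_log_atTop)
  rw [add_zero, one_pow, mul_one] at h1
  refine h1.congr' ?_
  filter_upwards [eventually_gt_atTop 1] with T hT
  have hl := Real.log_pos hT
  have hT0 : 0 < T := by linarith
  unfold NN
  rw [Real.log_mul hs.ne' hT0.ne']
  have e : 1 + Real.log s / Real.log T = (Real.log s + Real.log T) / Real.log T := by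
    field_simp; ring
  rw [e, div_pow]
  field_simp

/-- change of scale in a limit -/
lemma scale_lim {E : Type} [NormedAddCommGroup E] [NormedSpace ℝ E] {f : ℝ → E} {l : E}
    (h : Tendsto (fun T => (NN q T)⁻¹ • f T) atTop (𝓝 l)) {s : ℝ} (hs : 0 < s) :
    Tendsto (fun T => (NN q T)⁻¹ • f (s * T)) atTop (𝓝 (s • l)) := by
  have t1 : Tendsto (fun T : ℝ => s * T) atTop atTop := tendsto_id.const_mul_atTop hs
  have h1 := (NN_scale q hs).smul (h.comp t1)
  refine h1.congr' ?_
  filter_upwards [t1.eventually_gt_atTop 1, eventually_gt_atTop 1] with T h2 h3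
  have := (NN_pos q h2).ne'
  have := (NN_pos q h3).ne'
  simp only [Function.comp]
  rw [smul_smul]
  congr 1
  field_simp

lemma NN_dom (q : ℕ) {T x : ℝ} (hT : Real.exp 1 ≤ T) (hx : 0 ≤ x) :
    NN q (x * T + 5) ≤ NN q T * (x + 5) ^ (q + 1) := by
  have hT1 : 1 ≤ T := le_trans (by have := Real.add_one_le_exp 1; linarith) hT
  have hT0 : 0 < T := by linarith
  have hl : 1 ≤ Real.log T := by rwa [Real.le_log_iff_exp_le hT0]
  have h1 : x * T + 5 ≤ T * (x + 5) := by nlinarith
  have h2 : Real.log (x * T + 5) ≤ Real.log T * (x + 5) := by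
    calc Real.log (x * T + 5) ≤ Real.log (T * (x + 5)) := Real.log_le_log (by positivity) h1
      _ = Real.log T + Real.log (x + 5) := Real.log_mul hT0.ne' (by positivity)
      _ ≤ Real.log T * 1 + Real.log T * Real.log (x + 5) := by
          have : 0 ≤ Real.log (x + 5) := Real.log_nonneg (by linarith)
          nlinarith
      _ = Real.log T * (1 + Real.log (x + 5)) := by ring
      _ ≤ _ := by
          refine mul_le_mul_of_nonneg_left ?_ (by linarith)
          have := Real.log_le_sub_one_of_pos (show 0 < x + 5 by positivity)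
          linarith
  unfold NN
  have h3 : 0 ≤ Real.log (x * T + 5) := Real.log_nonneg (by nlinarith)
  calc (x * T + 5) * Real.log (x * T + 5) ^ q ≤ (T * (x + 5)) * (Real.log T * (x + 5)) ^ q := by gcongr
    _ = _ := by rw [mul_pow]; ring

lemma M_all (hup : ∃ C : ℝ, ∀ᶠ T : ℝ in atTop, M (zk k) T ≤ C * NN q T) :
    ∃ C : ℝ, 0 ≤ C ∧ ∀ Y : ℝ, 0 ≤ Y → M (zk k) Y ≤ C * NN q (Y + 4) := by
  obtain ⟨C, h⟩ := hup
  have D := zk_dat k (u := 1) le_rfl
  obtain ⟨Y0, hY0⟩ := eventually_atTop.1 h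
  set Y1 : ℝ := max Y0 1 with hY1
  have hM1 := M_nonneg (zk k) (T := Y1) (by have := le_max_right Y0 1; linarith)
  refine ⟨|C| + M (zk k) Y1, by positivity, fun Y hY => ?_⟩
  have hN4 : 1 ≤ NN q (Y + 4) := by
    have h4 : 1 ≤ Real.log (Y + 4) := by
      rw [Real.le_log_iff_exp_le (by linarith)]
      linarith [Real.exp_one_lt_d9]
    have := one_le_pow₀ (n := q) h4
    unfold NN
    nlinarith
  rcases le_total Y1 Y with hc | hc
  · have h1 := hY0 Y ((le_max_left _ _).trans hc)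
    have h2 : 1 ≤ Y := (le_max_right _ _).trans hc
    have h3 := NN_mono q h2 (show Y ≤ Y + 4 by linarith)
    have h4 : 0 ≤ NN q Y := by
      unfold NN
      have := Real.log_nonneg h2
      positivity
    calc M (zk k) Y ≤ C * NN q Y := h1
      _ ≤ |C| * NN q Y := mul_le_mul_of_nonneg_right (le_abs_self C) h4
      _ ≤ |C| * NN q (Y + 4) := mul_le_mul_of_nonneg_left h3 (abs_nonneg C)
      _ ≤ _ := by nlinarith
  · have h1 := M_mono D hc
    calc M (zk k) Y ≤ M (zk k) Y1 := h1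
      _ ≤ M (zk k) Y1 * NN q (Y + 4) := le_mul_of_one_le_right hM1 hN4
      _ ≤ _ := by nlinarith [abs_nonneg C]

lemma M_PB (k : ℕ) : PB (fun t => ((‖zk k t‖ ^ 2 : ℝ) : ℂ)) := by
  obtain ⟨C, p, hC, hb⟩ := zk_poly k
  refine ⟨C, p, by linarith, fun t => ?_⟩
  rw [Complex.norm_real, Real.norm_of_nonneg (by positivity)]
  exact hb t

/-- even integrals -/
lemma int_even {E : Type} [NormedAddCommGroup E] [NormedSpace ℝ E] {f : ℝ → E} (hf : Integrable f)
    (he : ∀ t, f (-t) = f t) : ∫ t, f t = (2:ℝ) • ∫ t in Ioi (0:ℝ), f t := by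
  have h1 := integral_add_compl (μ := volume) (s := Ioi (0:ℝ)) measurableSet_Ioi hf
  rw [compl_Ioi] at h1
  have h2 : ∫ t in Iic (0:ℝ), f t = ∫ t in Ioi (0:ℝ), f t := by
    have h3 := integral_comp_neg_Ioi (E := E) 0 f
    rw [neg_zero] at h3
    rw [← h3]
    simp only [he]
  rw [← h1, h2, two_smul]

lemma eg_zero (T t : ℝ) : eg 0 (t / T) = Real.exp (-(T⁻¹ ^ 2 * t ^ 2)) := by
  unfold eg
  congr 1
  push_cast
  field_simp
  ring

/-- the total mass -/
def mass (k : ℕ) (T : ℝ) : ℝ := ∫ t, ‖Fh k T⁻¹ t‖ ^ 2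

lemma mass_nonneg (k : ℕ) (T : ℝ) : 0 ≤ mass k T := integral_nonneg fun t => by positivity

lemma zk_neg' (k : ℕ) (t : ℝ) : ‖zk k (-t)‖ = ‖zk k t‖ := zk_neg k t

lemma mass_eq (k : ℕ) {T : ℝ} (hT : 0 < T) :
    mass k T = 2 * ∫ t in Ioi (0:ℝ), eg 0 (t / T) * ‖zk k t‖ ^ 2 := by
  unfold mass
  have h1 := int_even (f := fun t => ‖Fh k T⁻¹ t‖ ^ 2) (Fh_dec k (h := T⁻¹) (by positivity)).sq (fun t => by
    simp only [Fh_norm]
    rw [zk_neg', neg_sq])
  rw [h1, smul_eq_mul]
  congr 1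
  refine integral_congr_ae (Eventually.of_forall fun t => ?_)
  simp only
  rw [Fh_norm, eg_zero, mul_comm]

lemma eg_j (j : ℕ) (T t : ℝ) : eg j (t / T) = eg 0 (t / ((√(j + 1))⁻¹ * T)) := by
  unfold eg
  congr 1
  have h : √((j:ℝ) + 1) ^ 2 = j + 1 := Real.sq_sqrt (by positivity)
  push_cast
  have e : t / ((√((j:ℝ) + 1))⁻¹ * T) = √((j:ℝ) + 1) * (t / T) := by
    by_cases hT : T = 0
    · subst hT; simp
    · have : √((j:ℝ) + 1) ≠ 0 := by positivity
      field_simp
  rw [e, mul_pow, h]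
  ring

lemma M_eq (k : ℕ) (T : ℝ) : ((M (zk k) T : ℝ) : ℂ) = ∫ t in (0:ℝ)..T, ((‖zk k t‖ ^ 2 : ℝ) : ℂ) := by
  unfold M
  rw [intervalIntegral.integral_ofReal]

lemma smul_form {f : ℝ → ℝ} {l : ℝ} : Tendsto (fun T => f T / NN q T) atTop (𝓝 l) ↔
    Tendsto (fun T => (NN q T)⁻¹ • f T) atTop (𝓝 l) := by
  have e : (fun T => f T / NN q T) = fun T => (NN q T)⁻¹ • f T := by
    funext T
    rw [smul_eq_mul, div_eq_inv_mul]
  rw [e]

lemma smul_formC {f : ℝ → ℂ} {l : ℂ} : Tendsto (fun T => f T / (NN q T : ℂ)) atTop (𝓝 l) ↔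
    Tendsto (fun T => (NN q T)⁻¹ • f T) atTop (𝓝 l) := by
  have e : (fun T => f T / (NN q T : ℂ)) = fun T => (NN q T)⁻¹ • f T := by
    funext T
    rw [Complex.real_smul, Complex.ofReal_inv, div_eq_inv_mul]
  rw [e]

/-- **the moment and its Gaussian mean** -/
theorem AT1 (k q : ℕ) (c : ℝ) : Tendsto (fun T => M (zk k) T / NN q T) atTop (𝓝 c) ↔
    Tendsto (fun T => mass k T / NN q T) atTop (𝓝 (√Real.pi * c)) := by
  have hpi : 0 < √Real.pi := by positivity
  have hNev : ∀ᶠ T : ℝ in atTop, 0 < NN q T := by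
    filter_upwards [eventually_gt_atTop 1] with T hT using NN_pos q hT
  have hc : Continuous (fun t => ((‖zk k t‖ ^ 2 : ℝ) : ℂ)) := by
    have := zk_cont k
    fun_prop
  constructor
  · intro h
    obtain ⟨C, hC, hM⟩ := M_all (k := k) (q := q) ⟨_, up_of_ratio h⟩
    have h1 := abel (P := fun _ t => ((‖zk k t‖ ^ 2 : ℝ) : ℂ)) (N := NN q) (A := c) (fun _ => hc)
      (fun _ => M_PB k) hNev (fun x hx => by
        have h2 := scale_lim (smul_form.1 h) hx
        have h3 := (Complex.continuous_ofReal.tendsto _).comp h2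
        have e : ((x • c : ℝ) : ℂ) = x * c := by rw [smul_eq_mul]; push_cast; rfl
        rw [e] at h3
        refine h3.congr fun T => ?_
        simp only [Function.comp, smul_eq_mul]
        rw [← M_eq, Complex.ofReal_mul, Complex.ofReal_inv, div_eq_inv_mul]) ⟨C * 5 ^ (q + 1), q + 1, by
        filter_upwards [eventually_ge_atTop (Real.exp 1)] with T hT x hx
        have hT1 : 1 ≤ T := le_trans (by have := Real.add_one_le_exp 1; linarith) hT
        have hx0 : 0 ≤ x * T := by positivity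
        rw [← M_eq, Complex.norm_real, Real.norm_of_nonneg (M_nonneg _ hx0)]
        have hN := NN_pos q (show 1 < T from lt_of_lt_of_le (by have := Real.add_one_lt_exp one_ne_zero; linarith) hT)
        have h4 := NN_mono q (show 1 ≤ x * T + 4 by linarith) (show x * T + 4 ≤ x * T + 5 by linarith)
        calc M (zk k) (x * T) ≤ C * NN q (x * T + 4) := hM _ hx0
          _ ≤ C * (NN q T * (x + 5) ^ (q + 1)) :=
              mul_le_mul_of_nonneg_left (h4.trans (NN_dom q hT hx.le)) hC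
          _ ≤ C * (NN q T * (5 * (1 + x)) ^ (q + 1)) := by gcongr; linarith
          _ = _ := by rw [mul_pow]; ring⟩
    have h5 := (Complex.continuous_re.tendsto _).comp (h1.const_mul 2)
    have e1 : (2 * ((c : ℂ) * (√Real.pi / 2 : ℝ))).re = √Real.pi * c := by
      have : (2 * ((c : ℂ) * (√Real.pi / 2 : ℝ))) = ((√Real.pi * c : ℝ) : ℂ) := by push_cast; ring
      rw [this, Complex.ofReal_re]
    rw [e1] at h5
    refine h5.congr' ?_
    filter_upwards [eventually_gt_atTop 0] with T hT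
    simp only [Function.comp]
    have e2 : ∫ t in Ioi (0:ℝ), (eg 0 (t / T) : ℂ) * ((‖zk k t‖ ^ 2 : ℝ) : ℂ) =
        ((∫ t in Ioi (0:ℝ), eg 0 (t / T) * ‖zk k t‖ ^ 2 : ℝ) : ℂ) := by
      rw [← integral_complex_ofReal]
      refine integral_congr_ae (Eventually.of_forall fun t => ?_)
      simp only
      push_cast; ring
    rw [e2, mass_eq k hT]
    have e3 : (2 * (((∫ t in Ioi (0:ℝ), eg 0 (t / T) * ‖zk k t‖ ^ 2 : ℝ) : ℂ) / (NN q T : ℂ))) =
        ((2 * (∫ t in Ioi (0:ℝ), eg 0 (t / T) * ‖zk k t‖ ^ 2) / NN q T : ℝ) : ℂ) := by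
      push_cast; ring
    rw [e3, Complex.ofReal_re]
  · intro h
    have hlim : ∀ j : ℕ, Tendsto (fun T => (∫ t in Ioi (0:ℝ), eg j (t / T) * ‖zk k t‖ ^ 2) / NN q T) atTop
        (𝓝 (√Real.pi / 2 * c / √(j + 1))) := by
      intro j
      have hs : 0 < (√((j:ℝ) + 1))⁻¹ := by positivity
      have h1 := (scale_lim (smul_form.1 h) hs).const_mul (1 / 2)
      have e : 1 / 2 * (√((j:ℝ) + 1))⁻¹ • (√Real.pi * c) = √Real.pi / 2 * c / √(j + 1) := by
        rw [smul_eq_mul]; ring
      rw [e] at h1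
      refine h1.congr' ?_
      filter_upwards [eventually_gt_atTop 0] with T hT
      rw [mass_eq k (by positivity), smul_eq_mul]
      simp_rw [eg_j j T]
      ring
    have hint : ∀ T : ℝ, 0 < T → ∀ j : ℕ, IntegrableOn (fun t => eg j (t / T) * ‖zk k t‖ ^ 2) (Ioi 0) := by
      intro T hT j
      have hs : 0 < (√((j:ℝ) + 1))⁻¹ * T := by positivity
      have := (Fh_dec k (h := ((√((j:ℝ) + 1))⁻¹ * T)⁻¹) (by positivity)).sq.integrableOn (s := Ioi 0)
      refine this.congr (Eventually.of_forall fun t => ?_)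
      simp only
      rw [Fh_norm, eg_j, eg_zero, mul_comm]
    have h1 := kara (P := fun _ t => ((‖zk k t‖ ^ 2 : ℝ) : ℂ)) (m := fun _ t => ‖zk k t‖ ^ 2) (N := NN q)
      (A := (√Real.pi / 2 * c : ℝ)) (B := √Real.pi / 2 * c) (fun _ => hc)
      (fun _ t => by rw [Complex.norm_real, Real.norm_of_nonneg (by positivity)]) hint hNev
      (fun j => by
        have h2 := (Complex.continuous_ofReal.tendsto _).comp (hlim j)
        have e : ((√Real.pi / 2 * c / √(j + 1) : ℝ) : ℂ) = (√Real.pi / 2 * c : ℝ) / (√(j + 1) : ℝ) := by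
          push_cast; rfl
        rw [e] at h2
        refine h2.congr fun T => ?_
        simp only [Function.comp]
        rw [Complex.ofReal_div, ← integral_complex_ofReal]
        congr 1
        refine integral_congr_ae (Eventually.of_forall fun t => ?_)
        simp only
        push_cast; ring) hlim
    have h3 := (Complex.continuous_re.tendsto _).comp h1
    have e1 : (((√Real.pi / 2 * c : ℝ) : ℂ) * (2 / √Real.pi : ℝ)).re = c := by
      rw [← Complex.ofReal_mul, Complex.ofReal_re]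
      field_simp
    rw [e1] at h3
    refine h3.congr fun T => ?_
    simp only [Function.comp]
    rw [← M_eq, ← Complex.ofReal_div, Complex.ofReal_re]

end

end Pool.Agent.J4.H32.VS
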