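import Pool.Agent.J4.H32.VS.Tb

set_option autoImplicit false

/-! Equicontinuity of the correlations. -/

namespace Pool.Agent.J4.H32.VS

open Complex MeasureTheory Filter Topology Set Metric Pool.Agent.TH535.SM Pool.Agent.R446.KR
open Pool.Agent.J4.H44.LP
open Pool.Agent.J4.H44.OL (Cr Cr_int Rs Rs_int Cr_eq)
open scoped FourierTransform ComplexConjugate

noncomputable section

variable {q k : ℕ} {c : ℝ}

lemma eq_gen {F : ℝ → ℝ → ℂ} {a b : ℝ → ℝ} (hF : ∀ᶠ T in atTop, Dec (F T))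
    (hm : ∃ C : ℝ, ∀ᶠ T in atTop, ∫ t, ‖F T t‖ ^ 2 ≤ C * NN q T)
    (ht : ∀ δ : ℝ, 0 < δ → ∀ᶠ T in atTop, ms (F T) (Iic (-((k + 1) * Real.log T / (2 * Real.pi)))) +
      ms (F T) (Ici (1 * Real.log T / (2 * Real.pi))) ≤ δ * NN q T)
    (hab : Tendsto (fun T => (a T - b T) * Real.log T) atTop (𝓝 0)) :
    Tendsto (fun T => (Rs (F T) (a T) - Rs (F T) (b T)) / (NN q T : ℂ)) atTop (𝓝 0) := by
  obtain ⟨C, hC⟩ := hm
  have hp := Real.pi_pos
  rw [tendsto_zero_iff_norm_tendsto_zero, Metric.tendsto_nhds]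
  intro ε hε
  have h1 := Metric.tendsto_nhds.1 hab (ε / (4 * (k + 1) * (|C| + 1))) (by positivity)
  filter_upwards [hF, hC, ht (ε / 8) (by positivity), h1, eventually_gt_atTop 1] with T h2 h3 h4 h5 h6
  have hN := NN_pos q h6
  have hl := Real.log_pos h6
  rw [Real.dist_eq, sub_zero] at h5
  rw [Real.dist_eq, sub_zero, abs_of_nonneg (norm_nonneg _), norm_div, Complex.norm_real,
    Real.norm_of_nonneg hN.le, div_lt_iff₀ hN]
  have h7 := Rs_lip h2 (a T) (b T) (W1 := (k + 1) * Real.log T / (2 * Real.pi))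
    (W2 := 1 * Real.log T / (2 * Real.pi)) (by positivity) (by positivity)
  have h8 : max ((k + 1) * Real.log T / (2 * Real.pi)) (1 * Real.log T / (2 * Real.pi)) =
      (k + 1) * Real.log T / (2 * Real.pi) := by
    refine max_eq_left ?_
    have : (0:ℝ) ≤ k := Nat.cast_nonneg k
    gcongr
    linarith
  rw [h8] at h7
  rw [abs_mul, abs_of_pos hl] at h5
  have h9 : 4 * Real.pi * |a T - b T| * ((k + 1) * Real.log T / (2 * Real.pi)) =
      2 * (k + 1) * (|a T - b T| * Real.log T) := by field_simp; ring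
  rw [h9] at h7
  have h10 : 0 ≤ ∫ t, ‖F T t‖ ^ 2 := integral_nonneg fun t => by positivity
  have h11 : ∫ t, ‖F T t‖ ^ 2 ≤ (|C| + 1) * NN q T := by
    refine h3.trans (mul_le_mul_of_nonneg_right ?_ hN.le)
    linarith [le_abs_self C]
  have h12 : 2 * (k + 1) * (|a T - b T| * Real.log T) * (∫ t, ‖F T t‖ ^ 2) ≤ ε / 2 * NN q T := by
    calc _ ≤ 2 * (k + 1) * (ε / (4 * (k + 1) * (|C| + 1))) * ((|C| + 1) * NN q T) := by gcongr
      _ = _ := by field_simp; ring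
  have h13 : 0 < ε * NN q T := by positivity
  linarith

lemma Fh_mass_up (h : Tendsto (fun T => mass k T / NN q T) atTop (𝓝 c)) :
    ∃ C : ℝ, ∀ᶠ T in atTop, ∫ t, ‖Fh k T⁻¹ t‖ ^ 2 ≤ C * NN q T := by
  refine ⟨c + 1, ?_⟩
  filter_upwards [h.eventually_lt_const (lt_add_one c), eventually_gt_atTop 1] with T h1 h2
  have hN := NN_pos q h2
  rw [div_lt_iff₀ hN] at h1
  exact h1.le

lemma Fh_tails (h : ∃ C : ℝ, ∀ᶠ T in atTop, ∫ t, ‖Fh k T⁻¹ t‖ ^ 2 ≤ C * NN q T) {δ0 δ : ℝ}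
    (hδ0 : 0 < δ0) (hδ : 0 < δ) : ∀ᶠ T in atTop, ms (Fh k T⁻¹) (Iic (-((k + δ0) * Real.log T / (2 * Real.pi)))) +
      ms (Fh k T⁻¹) (Ici (δ0 * Real.log T / (2 * Real.pi))) ≤ δ * NN q T := by
  obtain ⟨C, hC⟩ := h
  obtain ⟨C1, hC1, h1⟩ := tails k (δ := δ0) (η := δ / (4 * (|C| + 1))) hδ0 (by positivity)
  filter_upwards [hC, one_small q (2 * C1) (show 0 < δ / 4 by positivity), eventually_gt_atTop 1] with T h2 h3 h4
  have hN := NN_pos q h4
  obtain ⟨a1, a2⟩ := h1 T h4.le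
  have h5 : δ / (4 * (|C| + 1)) * (∫ t, ‖Fh k T⁻¹ t‖ ^ 2) ≤ δ / 4 * NN q T := by
    calc _ ≤ δ / (4 * (|C| + 1)) * ((|C| + 1) * NN q T) := by
          refine mul_le_mul_of_nonneg_left (h2.trans (mul_le_mul_of_nonneg_right ?_ hN.le)) (by positivity)
          linarith [le_abs_self C]
      _ = _ := by field_simp
  have h6 : 0 < δ * NN q T := by positivity
  linarith

/-- equicontinuity for the Gaussian weight -/
lemma Rs_Fh_eq (h : ∃ C : ℝ, ∀ᶠ T in atTop, ∫ t, ‖Fh k T⁻¹ t‖ ^ 2 ≤ C * NN q T) {a b : ℝ → ℝ}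
    (hab : Tendsto (fun T => (a T - b T) * Real.log T) atTop (𝓝 0)) :
    Tendsto (fun T => (Rs (Fh k T⁻¹) (a T) - Rs (Fh k T⁻¹) (b T)) / (NN q T : ℂ)) atTop (𝓝 0) := by
  refine eq_gen (k := k) (F := fun T => Fh k T⁻¹) ?_ h (fun δ hδ => ?_) hab
  · filter_upwards [eventually_gt_atTop 0] with T hT using Fh_dec k (by positivity)
  · exact Fh_tails h one_pos hδ

lemma Rs_Fn_eq (h : Tendsto (fun T => M (zk k) T / NN q T) atTop (𝓝 c)) {a b : ℝ → ℝ}
    (hab : Tendsto (fun T => (a T - b T) * Real.log T) atTop (𝓝 0)) :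
    Tendsto (fun T => (Rs (Fn (H k 1) T 0) (a T) - Rs (Fn (H k 1) T 0) (b T)) / (NN q T : ℂ)) atTop (𝓝 0) := by
  have D := zk_dat k (u := 1) le_rfl
  obtain ⟨C, -, hC⟩ := mass_up k h
  obtain ⟨c1, hc1, m1⟩ := out_right D (δ := 1) one_pos (by norm_num)
  obtain ⟨c2, hc2, m2⟩ := out_left D (δ := 1) one_pos (by norm_num)
  refine eq_gen (k := k) (F := fun T => Fn (H k 1) T 0) ?_ ⟨C, hC⟩ (fun δ hδ => ?_) hab
  · filter_upwards [eventually_ge_atTop 1] with T hT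
    exact Fn_dec D.pg hT (r := 0) (neg_nonpos.2 (Nat.cast_nonneg 1)) (Nat.cast_nonneg 1)
  · filter_upwards [one_small q (c1 + c2) hδ, eventually_ge_atTop 1] with T h2 h3
    have a1 := m1 T h3
    have a2 := m2 T h3
    linarith

/-- the shifted moment against the spectral side, for variable shifts -/
lemma Cor_Rs_var (h : Tendsto (fun T => M (zk k) T / NN q T) atTop (𝓝 c)) {a : ℝ → ℝ}
    (ha : ∀ᶠ T in atTop, |a T| ≤ 1) : Tendsto (fun T => (Cor (zk k) (a T) T - Rs (Fn (H k 1) T 0) (a T)) /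
      (NN q T : ℂ)) atTop (𝓝 0) := by
  have D := zk_dat k (u := 1) le_rfl
  rw [tendsto_zero_iff_norm_tendsto_zero, Metric.tendsto_nhds]
  intro δ hδ
  obtain ⟨C, T0, hC, hT0, h1⟩ := Cor_Rs D (ε := min (1 / 2) (δ / (4 * (|c| + 1)))) (by positivity)
    (lt_of_le_of_lt (min_le_left _ _) (by norm_num))
  have s1 := one_small q 1 (show 0 < δ / (8 * (C + 1)) by positivity)
  have s2 := bsmall D h (show 0 < δ / (8 * (C + 1)) by positivity)
  filter_upwards [s1, s2, up_of_ratio h, eventually_ge_atTop T0, eventually_gt_atTop 1, ha] with T a1 a2 a3 a4 a5 a6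
  have hN := NN_pos q a5
  have hM := M_nonneg (zk k) (T := T) (by linarith)
  have h2 := h1 T a4 _ a6
  rw [Real.dist_eq, sub_zero, abs_of_nonneg (norm_nonneg _), norm_div, Complex.norm_real,
    Real.norm_of_nonneg hN.le, div_lt_iff₀ hN]
  have h3 : min (1 / 2) (δ / (4 * (|c| + 1))) * M (zk k) T ≤ δ / 4 * NN q T := by
    calc _ ≤ δ / (4 * (|c| + 1)) * M (zk k) T := mul_le_mul_of_nonneg_right (min_le_right _ _) hM
      _ ≤ δ / (4 * (|c| + 1)) * ((|c| + 1) * NN q T) := mul_le_mul_of_nonneg_left a3 (by positivity)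
      _ = _ := by field_simp
  have h4 : C * (1 + B (zk k) T) ≤ δ / 4 * NN q T := by
    calc C * (1 + B (zk k) T) ≤ C * (δ / (8 * (C + 1)) * NN q T + δ / (8 * (C + 1)) * NN q T) :=
          mul_le_mul_of_nonneg_left (add_le_add a1 a2) hC
      _ = (C / (C + 1)) * (δ / 4 * NN q T) := by field_simp; ring
      _ ≤ 1 * (δ / 4 * NN q T) := by
          refine mul_le_mul_of_nonneg_right ?_ (by positivity)
          rw [div_le_one (by linarith)]; linarith
      _ = _ := one_mul _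
  have h5 : 0 < δ * NN q T := by positivity
  linarith

/-- equicontinuity of the shifted moments -/
lemma Cor_eq (h : Tendsto (fun T => M (zk k) T / NN q T) atTop (𝓝 c)) {a b : ℝ → ℝ}
    (ha : ∀ᶠ T in atTop, |a T| ≤ 1) (hb : ∀ᶠ T in atTop, |b T| ≤ 1)
    (hab : Tendsto (fun T => (a T - b T) * Real.log T) atTop (𝓝 0)) :
    Tendsto (fun T => (Cor (zk k) (a T) T - Cor (zk k) (b T) T) / (NN q T : ℂ)) atTop (𝓝 0) := by
  have h1 := ((Cor_Rs_var h ha).sub (Cor_Rs_var h hb)).add (Rs_Fn_eq h hab)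
  simp only [sub_zero, add_zero] at h1
  refine h1.congr fun T => ?_
  ring

/-- the product of two shifted values -/
def Pa (k : ℕ) (a t : ℝ) : ℂ := zk k (t + a) * conj (zk k (t + -a))

lemma Pa_cont (k : ℕ) (a : ℝ) : Continuous (Pa k a) := by
  have := zk_cont k
  unfold Pa
  exact (this.comp (by fun_prop)).mul (Complex.continuous_conj.comp (this.comp (by fun_prop)))

lemma Pa_le (k : ℕ) (a t : ℝ) : ‖Pa k a t‖ ≤ ‖zk k (t + a)‖ ^ 2 + ‖zk k (t + -a)‖ ^ 2 := by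
  unfold Pa
  rw [norm_mul, RCLike.norm_conj]
  nlinarith [sq_nonneg (‖zk k (t + a)‖ - ‖zk k (t + -a)‖), sq_nonneg ‖zk k (t + a)‖, sq_nonneg ‖zk k (t + -a)‖]

lemma Pa_PB (k : ℕ) (a : ℝ) : PB (Pa k a) := by
  obtain ⟨C, p, hC, hb⟩ := zk_poly k
  refine ⟨2 * C * (1 + |a|) ^ p, p, by positivity, fun t => (Pa_le k a t).trans ?_⟩
  have h1 : ∀ x : ℝ, |x| = |a| → ‖zk k (t + x)‖ ^ 2 ≤ C * ((1 + |t|) ^ p * (1 + |a|) ^ p) := by
    intro x hx
    refine (hb (t + x)).trans ?_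
    rw [← hx]
    exact mul_le_mul_of_nonneg_left (poly_shift p t x) (by linarith)
  have h2 := h1 a rfl
  have h3 := h1 (-a) (abs_neg a)
  calc _ ≤ _ := add_le_add h2 h3
    _ = _ := by ring

lemma Cor_Pa (k : ℕ) (a X : ℝ) : Cor (zk k) a X = ∫ t in (0:ℝ)..X, Pa k a t := rfl

lemma Cor_le (k : ℕ) {a X : ℝ} (ha : |a| ≤ 1) (hX : 0 ≤ X) : ‖Cor (zk k) a X‖ ≤ 4 * M (zk k) (X + 1) := by
  have D := zk_dat k (u := 1) le_rfl
  have hc := D.sc
  have key : ∀ x : ℝ, |x| ≤ 1 → ∫ t in (0:ℝ)..X, ‖zk k (t + x)‖ ^ 2 ≤ 2 * M (zk k) (X + 1) := by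
    intro x hx
    have hx' := abs_le.1 hx
    rw [intervalIntegral.integral_comp_add_right (fun t => ‖zk k t‖ ^ 2) x]
    have h1 : ∫ t in (0 + x)..(X + x), ‖zk k t‖ ^ 2 ≤ ∫ t in (-1:ℝ)..(X + 1), ‖zk k t‖ ^ 2 :=
      intervalIntegral.integral_mono_interval (by linarith [hx'.1]) (by linarith) (by linarith [hx'.2])
        (Eventually.of_forall fun t => by positivity) (hc.intervalIntegrable _ _)
    have h2 : ∫ t in (-1:ℝ)..(X + 1), ‖zk k t‖ ^ 2 = (∫ t in (-1:ℝ)..0, ‖zk k t‖ ^ 2) + M (zk k) (X + 1) := by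
      unfold M
      rw [intervalIntegral.integral_add_adjacent_intervals (hc.intervalIntegrable _ _)
        (hc.intervalIntegrable _ _)]
    have h3 := M_neg k 1
    have h4 := M_mono D (show (1:ℝ) ≤ X + 1 by linarith)
    linarith
  rw [Cor_Pa]
  have h1 : ‖∫ t in (0:ℝ)..X, Pa k a t‖ ≤ ∫ t in (0:ℝ)..X, (‖zk k (t + a)‖ ^ 2 + ‖zk k (t + -a)‖ ^ 2) := by
    refine intervalIntegral.norm_integral_le_of_norm_le hX (Eventually.of_forall fun t _ => Pa_le k a t) ?_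
    exact ((hc.comp (by fun_prop : Continuous fun t : ℝ => t + a)).add
      (hc.comp (by fun_prop : Continuous fun t : ℝ => t + -a))).intervalIntegrable _ _
  rw [intervalIntegral.integral_add (f := fun t => ‖zk k (t + a)‖ ^ 2) (g := fun t => ‖zk k (t + -a)‖ ^ 2)
    ((hc.comp (by fun_prop : Continuous fun t : ℝ => t + a)).intervalIntegrable _ _)
    ((hc.comp (by fun_prop : Continuous fun t : ℝ => t + -a)).intervalIntegrable _ _)] at h1
  have h2 := key a ha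
  have h3 := key (-a) (by rwa [abs_neg])
  linarith

lemma Pa_even (k : ℕ) (a t : ℝ) : Pa k a (-t) = Pa k a t := P_even k a t

lemma Pa_int (k : ℕ) (a : ℝ) {T : ℝ} (hT : 0 < T) :
    Integrable (fun t : ℝ => ((eg 0 (t / T) : ℝ) : ℂ) * Pa k a t) := by
  obtain ⟨C, p, hC, hb⟩ := Pa_PB k a
  obtain ⟨B, hB, hg⟩ := poly_gauss (p + 2) (c := T⁻¹ ^ 2) (by positivity)
  refine (W182.KO.one_add_inv_sq_int.const_mul (C * B)).mono' ?_ (Eventually.of_forall fun t => ?_)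
  · have h1 := Pa_cont k a
    have h2 := eg_cont 0
    exact Continuous.aestronglyMeasurable (by fun_prop)
  · rw [norm_mul, Complex.norm_real, Real.norm_of_nonneg (eg_pos _ _).le, eg_zero, ← div_eq_mul_inv,
      le_div_iff₀ (by positivity)]
    calc _ ≤ Real.exp (-(T⁻¹ ^ 2 * t ^ 2)) * (C * (1 + |t|) ^ p) * (1 + |t|) ^ 2 := by gcongr; exact hb t
      _ = C * ((1 + |t|) ^ (p + 2) * Real.exp (-(T⁻¹ ^ 2 * t ^ 2))) := by rw [pow_add]; ring
      _ ≤ _ := mul_le_mul_of_nonneg_left (hg t) hC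

/-- the Gaussian mean of the shifted product -/
lemma Rs_Fh (k : ℕ) {T : ℝ} (hT : 0 < T) (a : ℝ) : Rs (Fh k T⁻¹) a =
    ((Real.exp (-(T⁻¹ ^ 2 * a ^ 2)) : ℝ) : ℂ) * (2 * ∫ t in Ioi (0:ℝ), (eg 0 (t / T) : ℂ) * Pa k a t) := by
  rw [← Cr_eq (Fh_dec k (by positivity)), Cr_Fh]
  congr 1
  have h1 := int_even (Pa_int k a hT) (fun t => by rw [Pa_even, neg_div, eg, eg, neg_sq])
  rw [Complex.real_smul] at h1
  push_cast at h1
  rw [← h1]
  refine integral_congr_ae (Eventually.of_forall fun t => ?_)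
  simp only
  rw [eg_zero]
  unfold Pa
  ring

end

end Pool.Agent.J4.H32.VS
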