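import Pool.Agent.J4.H32.VS.Tc

set_option autoImplicit false

/-! Sharp and Gaussian means of the shifted products. -/

namespace Pool.Agent.J4.H32.VS

open Complex MeasureTheory Filter Topology Set Metric Pool.Agent.TH535.SM Pool.Agent.R446.KR
open Pool.Agent.J4.H44.LP
open Pool.Agent.J4.H44.OL (Cr Cr_int Rs Rs_int Cr_eq)
open scoped FourierTransform ComplexConjugate

noncomputable section

variable {q k : ℕ} {c : ℝ}

lemma shift_small (α : ℝ) : ∀ᶠ T : ℝ in atTop, |α / Real.log T| ≤ 1 := by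
  filter_upwards [Real.tendsto_log_atTop.eventually_ge_atTop (|α| + 1)] with T h1
  have := abs_nonneg α
  rw [abs_div, abs_of_pos (by linarith : 0 < Real.log T), div_le_one (by linarith)]
  linarith

/-- the two scales -/
lemma log_scale (α : ℝ) {s : ℝ} (hs : 0 < s) :
    Tendsto (fun T : ℝ => (α / Real.log (s * T) - α / Real.log T) * Real.log T) atTop (𝓝 0) := by
  have t1 : Tendsto (fun T : ℝ => Real.log (s * T)) atTop atTop :=
    Real.tendsto_log_atTop.comp (tendsto_id.const_mul_atTop hs)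
  have h1 : Tendsto (fun T : ℝ => -(α * Real.log s) / Real.log (s * T)) atTop (𝓝 0) :=
    tendsto_const_nhds.div_atTop t1
  refine h1.congr' ?_
  filter_upwards [t1.eventually_gt_atTop 0, eventually_gt_atTop 1] with T h2 h3
  have hl := Real.log_pos h3
  have e : Real.log (s * T) = Real.log s + Real.log T := Real.log_mul hs.ne' (by linarith)
  have h4 : Real.log s = Real.log (s * T) - Real.log T := by rw [e]; ring
  rw [h4]
  have := h2.ne'
  have := hl.ne'
  field_simp
  ring

lemma gauss_shift_one (α : ℝ) : Tendsto (fun T : ℝ => ((Real.exp (-(T⁻¹ ^ 2 * (α / Real.log T) ^ 2)) : ℝ) : ℂ))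
    atTop (𝓝 1) := by
  have h1 : Tendsto (fun T : ℝ => -(T⁻¹ ^ 2 * (α / Real.log T) ^ 2)) atTop (𝓝 (-(0 ^ 2 * 0 ^ 2))) := by
    refine Tendsto.neg (Tendsto.mul (tendsto_inv_atTop_zero.pow 2) (Tendsto.pow ?_ 2))
    exact tendsto_const_nhds.div_atTop Real.tendsto_log_atTop
  have h2 := (Complex.continuous_ofReal.tendsto _).comp ((Real.continuous_exp.tendsto _).comp h1)
  have e : ((Real.exp (-((0:ℝ) ^ 2 * (0:ℝ) ^ 2)) : ℝ) : ℂ) = 1 := by simp
  rw [e] at h2
  exact h2

/-- **sharp to Gaussian**, with shifts -/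
theorem AT2a {G : ℝ → ℂ}
    (hG : ∀ α : ℝ, Tendsto (fun T => Cor (zk k) (α / Real.log T) T / (NN q T : ℂ)) atTop (𝓝 (G α))) (α : ℝ) :
    Tendsto (fun T => Rs (Fh k T⁻¹) (α / Real.log T) / (NN q T : ℂ)) atTop (𝓝 (√Real.pi * G α)) := by
  have hM : Tendsto (fun T => M (zk k) T / NN q T) atTop (𝓝 (G 0).re) := by
    have h2 := (Complex.continuous_re.tendsto _).comp (hG 0)
    refine h2.congr fun T => ?_
    simp only [Function.comp, zero_div]
    rw [Cor_zero, ← Complex.ofReal_div, Complex.ofReal_re]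
  obtain ⟨C, hC, hMa⟩ := M_all (k := k) (q := q) ⟨_, up_of_ratio hM⟩
  have hNev : ∀ᶠ T : ℝ in atTop, 0 < NN q T := by
    filter_upwards [eventually_gt_atTop 1] with T hT using NN_pos q hT
  have h1 := abel (P := fun T t => Pa k (α / Real.log T) t) (N := NN q) (A := G α) (fun T => Pa_cont k _)
    (fun T => Pa_PB k _) hNev (fun x hx => by
      -- the limit at `X = xT`
      have t1 : Tendsto (fun T : ℝ => x * T) atTop atTop := tendsto_id.const_mul_atTop hx
      have hx' : 0 < x⁻¹ := inv_pos.2 hx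
      have h2 := Cor_eq (k := k) (q := q) hM (a := fun X => α / Real.log (x⁻¹ * X)) (b := fun X => α / Real.log X)
        (by
          have := (shift_small α).filter_mono (le_refl atTop)
          exact (tendsto_id.const_mul_atTop hx').eventually (shift_small α)) (shift_small α)
        (log_scale α hx')
      have h3 := h2.add (hG α)
      simp only [zero_add] at h3
      have h4 : Tendsto (fun X => Cor (zk k) (α / Real.log (x⁻¹ * X)) X / (NN q X : ℂ)) atTop (𝓝 (G α)) := by
        refine h3.congr fun X => ?_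
        ring
      have h5 := scale_lim (smul_formC.1 h4) hx
      rw [Complex.real_smul] at h5
      refine h5.congr' ?_
      filter_upwards [eventually_gt_atTop 0] with T hT
      have e9 : x⁻¹ * (x * T) = T := by field_simp
      rw [e9, ← Cor_Pa, Complex.real_smul, Complex.ofReal_inv]
      ring) ⟨4 * C * 5 ^ (q + 1), q + 1, by
      filter_upwards [eventually_ge_atTop (Real.exp 1), shift_small α] with T hT hα x hx
      have hT1 : 1 ≤ T := le_trans (by have := Real.add_one_le_exp 1; linarith) hT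
      have hx0 : 0 ≤ x * T := by positivity
      have hN := NN_pos q (show 1 < T from lt_of_lt_of_le (by have := Real.add_one_lt_exp one_ne_zero; linarith) hT)
      have h4 : NN q (x * T + 1 + 4) ≤ NN q T * (x + 5) ^ (q + 1) := by
        have := NN_dom q hT hx.le
        rwa [show x * T + 5 = x * T + 1 + 4 by ring] at this
      rw [← Cor_Pa]
      calc _ ≤ 4 * M (zk k) (x * T + 1) := Cor_le k hα hx0
        _ ≤ 4 * (C * NN q (x * T + 1 + 4)) := by
            gcongr; exact hMa _ (by linarith)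
        _ ≤ 4 * (C * (NN q T * (x + 5) ^ (q + 1))) := by gcongr
        _ ≤ 4 * (C * (NN q T * (5 * (1 + x)) ^ (q + 1))) := by gcongr; linarith
        _ = _ := by rw [mul_pow]; ring⟩
  have h6 := (gauss_shift_one α).mul (h1.const_mul 2)
  have e1 : (1 : ℂ) * (2 * (G α * (√Real.pi / 2 : ℝ))) = √Real.pi * G α := by push_cast; ring
  rw [e1] at h6
  refine h6.congr' ?_
  filter_upwards [eventually_gt_atTop 0] with T hT
  rw [Rs_Fh k hT]
  ring

/-- comparison of shifted Gaussians -/
lemma gauss_cmp {b x y : ℝ} (hb : 1 ≤ b) (hy : |y| ≤ 1) :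
    |Real.exp (-(b * (x - y) ^ 2)) - Real.exp (-(b * x ^ 2))| ≤
      4 * b * Real.exp b * |y| * Real.exp (-(b / 4 * x ^ 2)) := by
  have hgen : ∀ A B m : ℝ, m ≤ A → m ≤ B → |Real.exp (-A) - Real.exp (-B)| ≤ |A - B| * Real.exp (-m) := by
    have hone : ∀ A B m : ℝ, m ≤ A → m ≤ B → Real.exp (-A) - Real.exp (-B) ≤ |A - B| * Real.exp (-m) := by
      intro A B m hA hB
      have h1 : Real.exp (-A) - Real.exp (-B) = Real.exp (-A) * (1 - Real.exp (-(B - A))) := by
        rw [mul_sub, ← Real.exp_add, mul_one]; congr 2; ring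
      have h2 : 1 - Real.exp (-(B - A)) ≤ |A - B| := by
        have := Real.add_one_le_exp (-(B - A))
        have := neg_abs_le (A - B)
        linarith [abs_sub_comm A B, le_abs_self (B - A)]
      rw [h1, mul_comm]
      have h3 : Real.exp (-A) ≤ Real.exp (-m) := Real.exp_le_exp.2 (by linarith)
      calc (1 - Real.exp (-(B - A))) * Real.exp (-A) ≤ |A - B| * Real.exp (-A) :=
            mul_le_mul_of_nonneg_right h2 (Real.exp_pos _).le
        _ ≤ _ := mul_le_mul_of_nonneg_left h3 (abs_nonneg _)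
    intro A B m hA hB
    rw [abs_le]
    constructor
    · have := hone B A m hB hA
      rw [abs_sub_comm] at this
      linarith
    · exact hone A B m hA hB
  have hb0 : 0 < b := by linarith
  have hyy : y ^ 2 ≤ 1 := by rw [← sq_abs]; exact pow_le_one₀ (abs_nonneg _) hy
  have h1 := hgen (b * (x - y) ^ 2) (b * x ^ 2) (b * (x ^ 2 / 2 - 1))
    (by
      refine mul_le_mul_of_nonneg_left ?_ hb0.le
      nlinarith [sq_nonneg (x - 2 * y)])
    (mul_le_mul_of_nonneg_left (by nlinarith [sq_nonneg x]) hb0.le)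
  refine h1.trans ?_
  have e1 : b * (x - y) ^ 2 - b * x ^ 2 = b * (y * (y - 2 * x)) := by ring
  have h2 : |b * (x - y) ^ 2 - b * x ^ 2| ≤ b * (|y| * (1 + 2 * |x|)) := by
    rw [e1, abs_mul, abs_mul, abs_of_pos hb0]
    gcongr
    have := abs_sub y (2 * x)
    rw [abs_mul, abs_two] at this
    linarith
  have h3 : 1 + 2 * |x| ≤ 4 * Real.exp (b / 4 * x ^ 2) := by
    have h4 := Real.add_one_le_exp (b / 4 * x ^ 2)
    have h5 : x ^ 2 / 4 ≤ b / 4 * x ^ 2 := by nlinarith [sq_nonneg x]
    have h6 : 1 + 2 * |x| ≤ 4 * (x ^ 2 / 4 + 1) := by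
      rw [← sq_abs x]
      nlinarith [sq_nonneg (|x| - 1)]
    linarith
  calc _ ≤ b * (|y| * (4 * Real.exp (b / 4 * x ^ 2))) * Real.exp (-(b * (x ^ 2 / 2 - 1))) := by
        refine mul_le_mul_of_nonneg_right (h2.trans ?_) (Real.exp_pos _).le
        gcongr
    _ = 4 * b * |y| * (Real.exp (b / 4 * x ^ 2) * Real.exp (-(b * (x ^ 2 / 2 - 1)))) := by ring
    _ = 4 * b * |y| * (Real.exp b * Real.exp (-(b / 4 * x ^ 2))) := by
        rw [← Real.exp_add, ← Real.exp_add]; congr 2; ring
    _ = _ := by ring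

/-- the Gaussian mean with a general exponent -/
def En (k : ℕ) (b T : ℝ) : ℝ := ∫ t : ℝ, Real.exp (-(b * (t / T) ^ 2)) * ‖zk k t‖ ^ 2

lemma En_mass (k : ℕ) {b T : ℝ} (hb : 0 < b) (hT : 0 < T) : En k b T = mass k ((√b)⁻¹ * T) := by
  unfold En mass
  refine integral_congr_ae (Eventually.of_forall fun t => ?_)
  simp only
  rw [Fh_norm, mul_comm]
  congr 2
  have h : √b ^ 2 = b := Real.sq_sqrt hb.le
  have h2 : √b ≠ 0 := by positivity
  rw [mul_inv, inv_inv, mul_pow, h]
  field_simp

lemma En_int (k : ℕ) {b T : ℝ} (hb : 0 < b) (hT : 0 < T) :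
    Integrable (fun t : ℝ => Real.exp (-(b * (t / T) ^ 2)) * ‖zk k t‖ ^ 2) := by
  have := (Fh_dec k (h := ((√b)⁻¹ * T)⁻¹) (by positivity)).sq
  refine this.congr (Eventually.of_forall fun t => ?_)
  simp only
  rw [Fh_norm, mul_comm]
  congr 2
  have h : √b ^ 2 = b := Real.sq_sqrt hb.le
  have h2 : √b ≠ 0 := by positivity
  rw [mul_inv, inv_inv, mul_pow, h]
  field_simp

lemma En_lim (h : Tendsto (fun T => mass k T / NN q T) atTop (𝓝 c)) {b : ℝ} (hb : 0 < b) :
    Tendsto (fun T => En k b T / NN q T) atTop (𝓝 (c / √b)) := by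
  have hs : 0 < (√b)⁻¹ := by positivity
  have h1 := scale_lim (smul_form.1 h) hs
  have e : (√b)⁻¹ • c = c / √b := by rw [smul_eq_mul]; ring
  rw [e] at h1
  refine h1.congr' ?_
  filter_upwards [eventually_gt_atTop 0] with T hT
  rw [En_mass k hb hT, smul_eq_mul]
  ring

/-- the Gaussian mean of a translate -/
lemma En_shift (h : Tendsto (fun T => mass k T / NN q T) atTop (𝓝 c)) {b : ℝ} (hb : 1 ≤ b) {a : ℝ → ℝ}
    (ha : ∀ᶠ T in atTop, |a T| ≤ 1) :
    Tendsto (fun T => (∫ t : ℝ, Real.exp (-(b * (t / T) ^ 2)) * ‖zk k (t + a T)‖ ^ 2) / NN q T) atTop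
      (𝓝 (c / √b)) := by
  have hb0 : 0 < b := by linarith
  have h1 := En_lim h hb0
  have h2 := En_lim h (b := b / 4) (by positivity)
  have h3 : Tendsto (fun T : ℝ => 4 * b * Real.exp b * T⁻¹ * (En k (b / 4) T / NN q T)) atTop (𝓝 0) := by
    have := (tendsto_inv_atTop_zero.const_mul (4 * b * Real.exp b)).mul h2
    simpa using this
  have h4 : Tendsto (fun T => (∫ t : ℝ, Real.exp (-(b * (t / T) ^ 2)) * ‖zk k (t + a T)‖ ^ 2) / NN q T -
      En k b T / NN q T) atTop (𝓝 0) := by
    rw [tendsto_zero_iff_norm_tendsto_zero]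
    refine squeeze_zero' (Eventually.of_forall fun T => norm_nonneg _) ?_ h3
    filter_upwards [ha, eventually_gt_atTop 1] with T h5 h6
    have hN := NN_pos q h6
    have hT0 : 0 < T := by linarith
    rw [← sub_div, norm_div, Real.norm_of_nonneg hN.le, mul_div_assoc', div_le_div_iff_of_pos_right hN]
    have e1 : ∫ t : ℝ, Real.exp (-(b * (t / T) ^ 2)) * ‖zk k (t + a T)‖ ^ 2 =
        ∫ t : ℝ, Real.exp (-(b * (t / T - a T / T) ^ 2)) * ‖zk k t‖ ^ 2 := by
      have := integral_add_right_eq_self (μ := volume)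
        (fun t : ℝ => Real.exp (-(b * (t / T - a T / T) ^ 2)) * ‖zk k t‖ ^ 2) (a T)
      rw [← this]
      refine integral_congr_ae (Eventually.of_forall fun t => ?_)
      simp only
      congr 4
      ring
    have hcm : ∀ t : ℝ, |Real.exp (-(b * (t / T - a T / T) ^ 2)) - Real.exp (-(b * (t / T) ^ 2))| ≤
        4 * b * Real.exp b * T⁻¹ * Real.exp (-(b / 4 * (t / T) ^ 2)) := by
      intro t
      have hy : |a T / T| ≤ T⁻¹ := by
        rw [abs_div, abs_of_pos hT0, ← one_div]
        gcongr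
      have hy1 : |a T / T| ≤ 1 := hy.trans (inv_le_one_of_one_le₀ h6.le)
      refine (gauss_cmp hb hy1).trans ?_
      gcongr
    have hzc : Continuous (fun t => ‖zk k t‖ ^ 2) := (zk_cont k).norm.pow 2
    have i2 := En_int k hb0 hT0
    have i3 := En_int k (b := b / 4) (by positivity) hT0
    have i1 : Integrable (fun t : ℝ => Real.exp (-(b * (t / T - a T / T) ^ 2)) * ‖zk k t‖ ^ 2) := by
      refine ((i2.add (i3.const_mul (4 * b * Real.exp b * T⁻¹)))).mono'
        (Continuous.aestronglyMeasurable (by fun_prop)) (Eventually.of_forall fun t => ?_)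
      rw [Real.norm_of_nonneg (by positivity)]
      simp only [Pi.add_apply]
      have := (abs_le.1 (hcm t)).2
      have hz : 0 ≤ ‖zk k t‖ ^ 2 := by positivity
      nlinarith
    rw [e1]
    unfold En
    rw [← integral_sub i1 i2, ← integral_const_mul]
    refine norm_integral_le_of_norm_le (i3.const_mul _) (Eventually.of_forall fun t => ?_)
    rw [← sub_mul, norm_mul, Real.norm_eq_abs, Real.norm_of_nonneg (by positivity : 0 ≤ ‖zk k t‖ ^ 2), ← mul_assoc]
    exact mul_le_mul_of_nonneg_right (hcm t) (by positivity)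
  have h5 := h4.add h1
  simpa using h5

/-- **Gaussian to sharp**, with shifts -/
theorem AT2b {G : ℝ → ℂ}
    (hG : ∀ α : ℝ, Tendsto (fun T => Rs (Fh k T⁻¹) (α / Real.log T) / (NN q T : ℂ)) atTop (𝓝 (√Real.pi * G α)))
    (α : ℝ) : Tendsto (fun T => Cor (zk k) (α / Real.log T) T / (NN q T : ℂ)) atTop (𝓝 (G α)) := by
  have hpi : 0 < √Real.pi := by positivity
  have hm : Tendsto (fun T => mass k T / NN q T) atTop (𝓝 (√Real.pi * (G 0).re)) := by
    have h1 := (Complex.continuous_re.tendsto _).comp (hG 0)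
    have e : ((√Real.pi : ℂ) * G 0).re = √Real.pi * (G 0).re := Complex.re_ofReal_mul _ _
    rw [e] at h1
    refine h1.congr' ?_
    filter_upwards [eventually_gt_atTop 0] with T hT
    simp only [Function.comp, zero_div]
    have e2 : Rs (Fh k T⁻¹) 0 = ((mass k T : ℝ) : ℂ) := by
      unfold Rs mass
      rw [← (planch (Fh_dec k (h := T⁻¹) (by positivity))).2, ← integral_complex_ofReal]
      refine integral_congr_ae (Eventually.of_forall fun t => ?_)
      simp
    rw [e2, ← Complex.ofReal_div, Complex.ofReal_re]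
  have hup := Fh_mass_up hm
  have hNev : ∀ᶠ T : ℝ in atTop, 0 < NN q T := by
    filter_upwards [eventually_gt_atTop 1] with T hT using NN_pos q hT
  -- the majorant
  set mj : ℝ → ℝ → ℝ := fun T t => ‖zk k (t + α / Real.log T)‖ ^ 2 + ‖zk k (t + -(α / Real.log T))‖ ^ 2 with hmj
  have hzc : Continuous (fun t => ‖zk k t‖ ^ 2) := (zk_cont k).norm.pow 2
  have ints : ∀ T : ℝ, 0 < T → ∀ j : ℕ, ∀ x : ℝ, Integrable (fun t => eg j (t / T) * ‖zk k (t + x)‖ ^ 2) := by
    intro T hT j x
    obtain ⟨C, p, hC, hb⟩ := zk_poly k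
    obtain ⟨B, hB, hg⟩ := poly_gauss (p + 2) (c := (j + 1) * T⁻¹ ^ 2) (by positivity)
    refine (W182.KO.one_add_inv_sq_int.const_mul (C * (1 + |x|) ^ p * B)).mono' ?_ (Eventually.of_forall fun t => ?_)
    · have h2 := eg_cont j
      have hz := zk_cont k
      exact Continuous.aestronglyMeasurable (by fun_prop)
    · rw [Real.norm_of_nonneg (mul_nonneg (eg_pos _ _).le (by positivity)), ← div_eq_mul_inv,
        le_div_iff₀ (by positivity)]
      have e : eg j (t / T) = Real.exp (-((j + 1) * T⁻¹ ^ 2 * t ^ 2)) := by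
        unfold eg; congr 1; field_simp
      rw [e]
      have h1 : ‖zk k (t + x)‖ ^ 2 ≤ C * ((1 + |t|) ^ p * (1 + |x|) ^ p) :=
        (hb (t + x)).trans (mul_le_mul_of_nonneg_left (poly_shift p t x) (by linarith))
      calc _ ≤ Real.exp (-((j + 1) * T⁻¹ ^ 2 * t ^ 2)) * (C * ((1 + |t|) ^ p * (1 + |x|) ^ p)) * (1 + |t|) ^ 2 := by
            gcongr
        _ = C * (1 + |x|) ^ p * ((1 + |t|) ^ (p + 2) * Real.exp (-((j + 1) * T⁻¹ ^ 2 * t ^ 2))) := by
            rw [pow_add]; ring
        _ ≤ _ := mul_le_mul_of_nonneg_left (hg t) (by positivity)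
  have key := kara (P := fun T t => Pa k (α / Real.log T) t) (m := mj) (N := NN q)
    (A := (√Real.pi / 2 : ℝ) * G α) (B := √Real.pi * (G 0).re) (fun T => Pa_cont k _)
    (fun T t => Pa_le k _ t) (fun T hT j => by
      have h1 := (ints T hT j (α / Real.log T)).add (ints T hT j (-(α / Real.log T)))
      refine (h1.integrableOn (s := Ioi 0)).congr (Eventually.of_forall fun t => ?_)
      simp only [Pi.add_apply, hmj]
      ring) hNev
    (fun j => by
      set s : ℝ := (√((j:ℝ) + 1))⁻¹ with hs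
      have hs0 : 0 < s := by positivity
      -- correct the scale of the shift
      have h2 := Rs_Fh_eq (k := k) (q := q) hup (a := fun X => α / Real.log (s⁻¹ * X)) (b := fun X => α / Real.log X)
        (log_scale α (inv_pos.2 hs0))
      have h3 := h2.add (hG α)
      simp only [zero_add] at h3
      have h4 : Tendsto (fun X => Rs (Fh k X⁻¹) (α / Real.log (s⁻¹ * X)) / (NN q X : ℂ)) atTop
          (𝓝 (√Real.pi * G α)) := by
        refine h3.congr fun X => ?_
        ring
      have h5 := scale_lim (smul_formC.1 h4) hs0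
      have h6 : Tendsto (fun T : ℝ => ((Real.exp ((s * T)⁻¹ ^ 2 * (α / Real.log T) ^ 2) : ℝ) : ℂ)) atTop (𝓝 1) := by
        have a1 : Tendsto (fun T : ℝ => (s * T)⁻¹ ^ 2 * (α / Real.log T) ^ 2) atTop (𝓝 (0 ^ 2 * 0 ^ 2)) := by
          refine Tendsto.mul (Tendsto.pow ?_ 2) (Tendsto.pow ?_ 2)
          · exact tendsto_inv_atTop_zero.comp (tendsto_id.const_mul_atTop hs0)
          · exact tendsto_const_nhds.div_atTop Real.tendsto_log_atTop
        have a2 := (Complex.continuous_ofReal.tendsto _).comp ((Real.continuous_exp.tendsto _).comp a1)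
        have e : ((Real.exp ((0:ℝ) ^ 2 * (0:ℝ) ^ 2) : ℝ) : ℂ) = 1 := by simp
        rw [e] at a2
        exact a2
      have h7 := (h6.mul h5).const_mul (1 / 2 : ℂ)
      have e1 : (1 / 2 : ℂ) * (1 * (s • ((√Real.pi : ℂ) * G α))) = (√Real.pi / 2 : ℝ) * G α / (√(j + 1) : ℝ) := by
        rw [Complex.real_smul, hs]
        have : ((√((j:ℝ) + 1) : ℝ) : ℂ) ≠ 0 := by
          have : √((j:ℝ) + 1) ≠ 0 := by positivity
          exact_mod_cast this
        push_cast
        field_simp
      rw [e1] at h7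
      refine h7.congr' ?_
      filter_upwards [eventually_gt_atTop 0] with T hT
      have hsT : 0 < s * T := by positivity
      have e2 : s⁻¹ * (s * T) = T := by field_simp
      rw [e2, Rs_Fh k hsT, Complex.real_smul, Complex.ofReal_inv]
      simp_rw [eg_j j T]
      rw [← hs]
      have e3 : ((Real.exp ((s * T)⁻¹ ^ 2 * (α / Real.log T) ^ 2) : ℝ) : ℂ) *
          ((Real.exp (-((s * T)⁻¹ ^ 2 * (α / Real.log T) ^ 2)) : ℝ) : ℂ) = 1 := by
        rw [← Complex.ofReal_mul, ← Real.exp_add, add_neg_cancel, Real.exp_zero, Complex.ofReal_one]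
      rw [div_eq_inv_mul]
      linear_combination (((NN q T : ℝ) : ℂ))⁻¹ * (∫ t in Ioi (0:ℝ), (eg 0 (t / (s * T)) : ℂ) *
        Pa k (α / Real.log T) t) * e3)
    (fun j => by
      have h1 := En_shift (k := k) (q := q) hm (b := j + 1) (by
        have : (0:ℝ) ≤ j := Nat.cast_nonneg j
        linarith) (a := fun T => α / Real.log T) (shift_small α)
      refine h1.congr' ?_
      filter_upwards [eventually_gt_atTop 0] with T hT
      congr 1
      set x := α / Real.log T with hx
      have i1 := ints T hT j x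
      have i2 := ints T hT j (-x)
      have e1 : ∀ t, eg j (-t / T) = eg j (t / T) := fun t => by
        unfold eg
        rw [neg_div, neg_sq]
      have e2 : ∫ t, eg j (t / T) * ‖zk k (t + -x)‖ ^ 2 = ∫ t, eg j (t / T) * ‖zk k (t + x)‖ ^ 2 := by
        rw [← integral_neg_eq_self]
        refine integral_congr_ae (Eventually.of_forall fun t => ?_)
        simp only
        rw [e1, ← neg_add, zk_neg']
      have e3 := int_even (i1.add i2) (fun t => by
        simp only [Pi.add_apply]
        rw [e1, show -t + x = -(t + -x) by ring, show -t + -x = -(t + x) by ring, zk_neg', zk_neg']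
        ring)
      simp only [Pi.add_apply] at e3
      rw [integral_add i1 i2, e2, smul_eq_mul] at e3
      have e4 : ∫ t in Ioi (0:ℝ), eg j (t / T) * mj T t =
          ∫ t in Ioi (0:ℝ), (eg j (t / T) * ‖zk k (t + x)‖ ^ 2 + eg j (t / T) * ‖zk k (t + -x)‖ ^ 2) := by
        refine integral_congr_ae (Eventually.of_forall fun t => ?_)
        simp only [hmj]
        ring
      rw [e4]
      have e5 : ∫ t : ℝ, Real.exp (-(((j:ℝ) + 1) * (t / T) ^ 2)) * ‖zk k (t + x)‖ ^ 2 =
        ∫ t, eg j (t / T) * ‖zk k (t + x)‖ ^ 2 := rfl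
      rw [e5]
      linarith)
  have e9 : ((√Real.pi / 2 : ℝ) : ℂ) * G α * (2 / √Real.pi : ℝ) = G α := by
    have : ((√Real.pi : ℝ) : ℂ) ≠ 0 := by exact_mod_cast hpi.ne'
    push_cast
    field_simp
  rw [e9] at key
  exact key

end

end Pool.Agent.J4.H32.VS
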