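import Pool.Agent.J4.H32.VS.Td
import Pool.Agent.J4.H44.LP.Sw

set_option autoImplicit false

/-! The functional equation on the spectral side. -/

namespace Pool.Agent.J4.H32.VS

open Complex MeasureTheory Filter Topology Set Metric Pool.Agent.TH535.SM Pool.Agent.R446.KR
open Pool.Agent.J4.H44.LP
open Pool.Agent.J4.H44.OL (Cr Cr_int Rs Rs_int Cr_eq)
open scoped FourierTransform ComplexConjugate

noncomputable section

variable {q k : ℕ} {c : ℝ}

lemma Pa_fe (k : ℕ) (a t : ℝ) : conj (Pa k a t) = (Xl (t + a) * conj (Xl (t + -a))) ^ k * Pa k a t := by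
  have h2 : conj (zk k (t + a)) = Xl (t + a) ^ k * zk k (t + a) := by
    unfold zk
    rw [map_pow, fe_all, mul_pow]
  have h3 := zk_fe k (t + -a)
  unfold Pa
  rw [map_mul, conj_conj, h2, mul_pow]
  calc _ = Xl (t + a) ^ k * zk k (t + a) * (conj (Xl (t + -a)) ^ k * conj (zk k (t + -a))) := by rw [← h3]
    _ = _ := by ring

lemma Xl_ratio : ∃ C T0 : ℝ, 0 ≤ C ∧ 2 ≤ T0 ∧ ∀ t : ℝ, T0 ≤ t → ∀ a : ℝ,
    ‖Xl (t + a) * conj (Xl (t + -a)) - cexp (((2 * a * Real.log (t / (2 * Real.pi)) : ℝ) : ℂ) * I)‖ ≤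
      2 * (C * (1 + |a|) ^ 2 / t) := by
  obtain ⟨C, T0, hC, hT0, h⟩ := Xl_local
  refine ⟨C, T0, hC, hT0, fun t ht a => ?_⟩
  have h1 := h t ht a
  have h2 := h t ht (-a)
  rw [abs_neg] at h2
  set e1 := cexp (((a * Real.log (t / (2 * Real.pi)) : ℝ) : ℂ) * I) with he1
  set e2 := cexp (((-a * Real.log (t / (2 * Real.pi)) : ℝ) : ℂ) * I) with he2
  have hc : conj e2 = e1 := by
    rw [he1, he2, ← Complex.exp_conj, map_mul, conj_ofReal, conj_I]
    congr 1; push_cast; ring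
  have hX : Xl t * conj (Xl t) = 1 := by rw [mul_comm]; exact conj_Xl t
  have h3 : cexp (((2 * a * Real.log (t / (2 * Real.pi)) : ℝ) : ℂ) * I) = e1 * e1 := by
    rw [he1, ← Complex.exp_add]; congr 1; push_cast; ring
  have e : Xl (t + a) * conj (Xl (t + -a)) - e1 * e1 = (Xl (t + a) - Xl t * e1) * conj (Xl (t + -a)) +
      (Xl t * e1) * conj (Xl (t + -a) - Xl t * e2) := by
    rw [map_sub, map_mul, hc]
    linear_combination (e1 * e1) * hX
  have n1 : ‖e1‖ = 1 := Complex.norm_exp_ofReal_mul_I _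
  rw [h3, e]
  refine (norm_add_le _ _).trans ?_
  rw [norm_mul, norm_mul, norm_mul, RCLike.norm_conj, RCLike.norm_conj, Xl_norm, Xl_norm, n1]
  linarith

lemma two_M (k : ℕ) {a X : ℝ} (ha : |a| ≤ 1) (hX : 0 ≤ X) :
    ∫ t in (0:ℝ)..X, (‖zk k (t + a)‖ ^ 2 + ‖zk k (t + -a)‖ ^ 2) ≤ 4 * M (zk k) (X + 1) := by
  have D := zk_dat k (u := 1) le_rfl
  have hc := D.sc
  have key : ∀ x : ℝ, |x| ≤ 1 → ∫ t in (0:ℝ)..X, ‖zk k (t + x)‖ ^ 2 ≤ 2 * M (zk k) (X + 1) := by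
    intro x hx
    have hx' := abs_le.1 hx
    rw [intervalIntegral.integral_comp_add_right (fun t => ‖zk k t‖ ^ 2) x]
    have h1 : ∫ t in (0 + x)..(X + x), ‖zk k t‖ ^ 2 ≤ ∫ t in (-1:ℝ)..(X + 1), ‖zk k t‖ ^ 2 :=
      intervalIntegral.integral_mono_interval (by linarith [hx'.1]) (by linarith) (by linarith [hx'.2])
        (Eventually.of_forall fun t => by positivity) (hc.intervalIntegrable _ _)
    have h2 : ∫ t in (-1:ℝ)..(X + 1), ‖zk k t‖ ^ 2 = (∫ t in (-1:ℝ)..0, ‖zk k t‖ ^ 2) + M (zk k) (X + 1) := by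
      unfold M
      rw [intervalIntegral.integral_add_adjacent_intervals (hc.intervalIntegrable _ _)
        (hc.intervalIntegrable _ _)]
    have h3 := M_neg k 1
    have h4 := M_mono D (show (1:ℝ) ≤ X + 1 by linarith)
    linarith
  rw [intervalIntegral.integral_add (f := fun t => ‖zk k (t + a)‖ ^ 2) (g := fun t => ‖zk k (t + -a)‖ ^ 2)
    ((hc.comp (by fun_prop : Continuous fun t : ℝ => t + a)).intervalIntegrable _ _)
    ((hc.comp (by fun_prop : Continuous fun t : ℝ => t + -a)).intervalIntegrable _ _)]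
  have h2 := key a ha
  have h3 := key (-a) (by rwa [abs_neg])
  linarith

/-- the far range of the Gaussian -/
lemma far_gauss (k : ℕ) {ε : ℝ} (hε : 0 < ε) (hε1 : ε < 1) : ∃ C : ℝ, 0 ≤ C ∧ ∀ T t a : ℝ, 1 ≤ T →
    T ^ (1 + ε) ≤ t → |a| ≤ 1 → eg 0 (t / T) * ‖Pa k a t‖ ≤ C * ((1 + |t|) ^ 2)⁻¹ := by
  obtain ⟨Cz, p, hCz, hb⟩ := zk_poly k
  set n : ℕ := ⌈((p:ℝ) + 2) / ε⌉₊ with hn
  refine ⟨2 * Cz * 2 ^ p * (2 ^ (p + 2) * n.factorial), by positivity, fun T t a hT ht ha => ?_⟩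
  have hT0 : 0 < T := by linarith
  have ht1 : 1 ≤ t := (Real.one_le_rpow hT (by linarith)).trans ht
  have ht0 : 0 < t := by linarith
  have h1 : ∀ x : ℝ, |x| ≤ 1 → ‖zk k (t + x)‖ ^ 2 ≤ Cz * ((1 + |t|) ^ p * 2 ^ p) := by
    intro x hx
    refine (hb (t + x)).trans (mul_le_mul_of_nonneg_left ?_ (by linarith))
    refine (poly_shift p t x).trans ?_
    gcongr; linarith
  have h2 : ‖Pa k a t‖ ≤ 2 * Cz * 2 ^ p * (1 + |t|) ^ p := by
    refine (Pa_le k a t).trans ?_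
    have h21 := h1 a ha
    have h22 := h1 (-a) (by rwa [abs_neg])
    linarith
  have h3 : t ^ ε ≤ (t / T) ^ 2 := by
    rw [div_pow, le_div_iff₀ (by positivity)]
    have h4 : T ^ (2:ℕ) ≤ t ^ (2 - ε) := by
      have h5 : (T ^ (1 + ε)) ^ (2 - ε) ≤ t ^ (2 - ε) := Real.rpow_le_rpow (by positivity) ht (by linarith)
      rw [← Real.rpow_mul hT0.le] at h5
      refine le_trans ?_ h5
      rw [← Real.rpow_natCast]
      exact Real.rpow_le_rpow_of_exponent_le hT (by push_cast; nlinarith)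
    calc t ^ ε * T ^ 2 ≤ t ^ ε * t ^ (2 - ε) := by gcongr
      _ = t ^ 2 := by rw [← Real.rpow_add ht0, ← Real.rpow_natCast]; congr 1; push_cast; ring
  have h6 : (1 + |t|) ^ (p + 2) * eg 0 (t / T) ≤ 2 ^ (p + 2) * n.factorial := by
    have h7 : eg 0 (t / T) = (Real.exp ((t / T) ^ 2))⁻¹ := by
      unfold eg
      rw [← Real.exp_neg]
      congr 1
      push_cast; ring
    have h8 := Real.pow_div_factorial_le_exp ((t / T) ^ 2) (by positivity) n
    have h9 : t ^ (p + 2) ≤ ((t / T) ^ 2) ^ n := by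
      refine le_trans ?_ (pow_le_pow_left₀ (by positivity) h3 n)
      rw [← Real.rpow_natCast, ← Real.rpow_natCast, ← Real.rpow_mul ht0.le]
      refine Real.rpow_le_rpow_of_exponent_le ht1 ?_
      have h91 := Nat.le_ceil (((p:ℝ) + 2) / ε)
      rw [div_le_iff₀ hε] at h91
      push_cast; linarith
    have h10 : 1 + |t| ≤ 2 * t := by rw [abs_of_pos ht0]; linarith
    rw [h7, ← div_eq_mul_inv, div_le_iff₀ (Real.exp_pos _)]
    rw [div_le_iff₀ (by positivity)] at h8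
    calc (1 + |t|) ^ (p + 2) ≤ (2 * t) ^ (p + 2) := by gcongr
      _ = 2 ^ (p + 2) * t ^ (p + 2) := mul_pow _ _ _
      _ ≤ 2 ^ (p + 2) * (Real.exp ((t / T) ^ 2) * n.factorial) := by
          gcongr; exact h9.trans h8
      _ = _ := by ring
  rw [← div_eq_mul_inv, le_div_iff₀ (by positivity)]
  have he := (eg_pos 0 (t / T)).le
  calc eg 0 (t / T) * ‖Pa k a t‖ * (1 + |t|) ^ 2 ≤
        eg 0 (t / T) * (2 * Cz * 2 ^ p * (1 + |t|) ^ p) * (1 + |t|) ^ 2 := by gcongr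
    _ = 2 * Cz * 2 ^ p * ((1 + |t|) ^ (p + 2) * eg 0 (t / T)) := by rw [pow_add]; ring
    _ ≤ _ := mul_le_mul_of_nonneg_left h6 (by positivity)

/-- the phase in the bulk -/
lemma phase (k : ℕ) {CX TX : ℝ} (hCX : 0 ≤ CX) (hX : ∀ t : ℝ, TX ≤ t → ∀ a : ℝ,
    ‖Xl (t + a) * conj (Xl (t + -a)) - cexp (((2 * a * Real.log (t / (2 * Real.pi)) : ℝ) : ℂ) * I)‖ ≤
      2 * (CX * (1 + |a|) ^ 2 / t)) {ε T t y : ℝ} (hε : 0 < ε) (hT : 1 ≤ T) (hL : 1 ≤ Real.log T)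
    (hl : |Real.log (2 * Real.pi)| ≤ ε * Real.log T) (hTX : TX ≤ T ^ (1 - ε)) (h8 : 8 * CX ≤ ε * T ^ (1 - ε))
    (ha : |y / (2 * Real.log T)| ≤ 1) (h1 : T ^ (1 - ε) ≤ t) (h2 : t ≤ T ^ (1 + ε)) :
    ‖(Xl (t + y / (2 * Real.log T)) * conj (Xl (t + -(y / (2 * Real.log T))))) ^ k - cexp ((k * y : ℝ) * I)‖ ≤
      2 * k * ε * (1 + |y|) := by
  have hT0 : 0 < T := by linarith
  have hA : 0 < T ^ (1 - ε) := by positivity
  have ht : 0 < t := hA.trans_le h1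
  set L := Real.log T with hLd
  have hL0 : 0 < L := by linarith
  set a := y / (2 * L) with had
  have hk : (0:ℝ) ≤ k := Nat.cast_nonneg k
  have e1 : cexp ((k * y : ℝ) * I) = cexp ((y : ℝ) * I) ^ k := by
    rw [← Complex.exp_nat_mul]; congr 1; push_cast; ring
  have n1 : ‖Xl (t + a) * conj (Xl (t + -a))‖ = 1 := by
    rw [norm_mul, RCLike.norm_conj, Xl_norm, Xl_norm, mul_one]
  rw [e1]
  refine (pow_sub_le n1 (Complex.norm_exp_ofReal_mul_I y) k).trans ?_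
  have h3 : ‖Xl (t + a) * conj (Xl (t + -a)) - cexp ((y : ℝ) * I)‖ ≤ 2 * ε * (1 + |y|) := by
    have h4 := hX t (hTX.trans h1) a
    have h5 := exp_lip (2 * a * Real.log (t / (2 * Real.pi))) y
    have h6 : 2 * (CX * (1 + |a|) ^ 2 / t) ≤ ε := by
      have h61 : (1 + |a|) ^ 2 ≤ 4 := by
        have := abs_nonneg a
        nlinarith
      have h62 : CX * (1 + |a|) ^ 2 / t ≤ CX * 4 / T ^ (1 - ε) := by gcongr
      have h63 : CX * 4 / T ^ (1 - ε) ≤ ε / 2 := by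
        rw [div_le_iff₀ hA]; linarith
      linarith
    have h7 : |2 * a * Real.log (t / (2 * Real.pi)) - y| ≤ 2 * ε * |y| := by
      have e2 : 2 * a * Real.log (t / (2 * Real.pi)) - y = y / L * (Real.log t - Real.log (2 * Real.pi) - L) := by
        rw [Real.log_div ht.ne' (by positivity), had]
        field_simp
      have h71 : |Real.log t - Real.log (2 * Real.pi) - L| ≤ 2 * ε * L := by
        have h72 : Real.log t ≤ (1 + ε) * L := by
          rw [hLd, ← Real.log_rpow hT0]; exact Real.log_le_log ht h2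
        have h73 : (1 - ε) * L ≤ Real.log t := by
          rw [hLd, ← Real.log_rpow hT0]; exact Real.log_le_log hA h1
        have h74 := abs_le.1 hl
        rw [abs_le]
        constructor <;> nlinarith
      rw [e2, abs_mul, abs_div, abs_of_pos hL0]
      calc |y| / L * |Real.log t - Real.log (2 * Real.pi) - L| ≤ |y| / L * (2 * ε * L) := by gcongr
        _ = _ := by field_simp
    have h9 := norm_sub_le_norm_sub_add_norm_sub (Xl (t + a) * conj (Xl (t + -a)))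
      (cexp (((2 * a * Real.log (t / (2 * Real.pi)) : ℝ) : ℂ) * I)) (cexp ((y : ℝ) * I))
    linarith
  calc (k:ℝ) * ‖Xl (t + a) * conj (Xl (t + -a)) - cexp ((y : ℝ) * I)‖ ≤ k * (2 * ε * (1 + |y|)) := by gcongr
    _ = _ := by ring

lemma int3 {μ : Measure ℝ} {f g h : ℝ → ℝ} (hf : Integrable f μ) (hg : Integrable g μ) (hh : Integrable h μ) :
    ∫ t, (f t + g t + h t) ∂μ = ∫ t, f t ∂μ + ∫ t, g t ∂μ + ∫ t, h t ∂μ := by
  rw [integral_add (f := fun t => f t + g t) (hf.add hg) hh, integral_add hf hg]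

/-- the two weights -/
lemma wF (k : ℕ) (T a t : ℝ) : Real.exp (-(T⁻¹ ^ 2 * a ^ 2)) * eg 0 (t / T) * ‖Pa k a t‖ =
    ‖Fh k T⁻¹ (t + a)‖ * ‖Fh k T⁻¹ (t + -a)‖ := by
  unfold Pa Fh
  rw [norm_mul, RCLike.norm_conj, norm_mul, norm_mul, Complex.norm_real, Complex.norm_real,
    Real.norm_of_nonneg (Real.exp_pos _).le, Real.norm_of_nonneg (Real.exp_pos _).le, eg_zero]
  have e : Real.exp (-(T⁻¹ ^ 2 * a ^ 2)) * Real.exp (-(T⁻¹ ^ 2 * t ^ 2)) =
      Real.exp (-(T⁻¹ ^ 2 * (t + a) ^ 2 / 2)) * Real.exp (-(T⁻¹ ^ 2 * (t + -a) ^ 2 / 2)) := by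
    rw [← Real.exp_add, ← Real.exp_add]; congr 1; ring
  rw [e]; ring

/-- **the functional equation for the correlations** -/
theorem Rsym (k : ℕ) {ε : ℝ} (hε : 0 < ε) (hε1 : ε < 1) : ∃ C T0 : ℝ, 0 ≤ C ∧ 1 ≤ T0 ∧ ∀ T, T0 ≤ T → ∀ y : ℝ,
    ‖conj (Rs (Fh k T⁻¹) (y / (2 * Real.log T))) - cexp ((k * y : ℝ) * I) *
        Rs (Fh k T⁻¹) (y / (2 * Real.log T))‖ ≤
      (4 * k + 1) * ε * (1 + |y|) * mass k T + C * (1 + M (zk k) (4 * T ^ (1 - ε))) := by
  obtain ⟨CX, TX, hCX, hTX, hX⟩ := Xl_ratio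
  obtain ⟨CF, hCF, hF⟩ := far_gauss k hε hε1
  have hJ : 0 ≤ W182.KO.J2 := by unfold W182.KO.J2; positivity
  have hk : (0:ℝ) ≤ k := Nat.cast_nonneg k
  have D := zk_dat k (u := 1) le_rfl
  have t1 : Tendsto (fun T : ℝ => T ^ (1 - ε)) atTop atTop := tendsto_rpow_atTop (by linarith)
  have ev : ∀ᶠ T : ℝ in atTop, 1 ≤ T ∧ 1 ≤ Real.log T ∧ |Real.log (2 * Real.pi)| ≤ ε * Real.log T ∧
      1 ≤ ε * Real.log T ∧ TX ≤ T ^ (1 - ε) ∧ 8 * CX ≤ ε * T ^ (1 - ε) := by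
    filter_upwards [eventually_ge_atTop 1, Real.tendsto_log_atTop.eventually_ge_atTop 1,
      Real.tendsto_log_atTop.eventually_ge_atTop (|Real.log (2 * Real.pi)| / ε),
      Real.tendsto_log_atTop.eventually_ge_atTop (1 / ε), t1.eventually_ge_atTop TX,
      t1.eventually_ge_atTop (8 * CX / ε)] with T a1 a2 a3 a4 a5 a6
    rw [div_le_iff₀ hε] at a3 a4 a6
    exact ⟨a1, a2, by linarith, by linarith, a5, by linarith⟩
  obtain ⟨T0, hT0⟩ := eventually_atTop.1 ev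
  refine ⟨16 + 4 * CF * W182.KO.J2, max T0 1, by positivity, le_max_right _ _, fun T hT y => ?_⟩
  obtain ⟨b1, b2, b3, b4, b5, b6⟩ := hT0 T ((le_max_left _ _).trans hT)
  have hTp : 0 < T := by linarith
  have hh : 0 < T⁻¹ := by positivity
  have hFd := Fh_dec k hh
  have hm := mass_nonneg k T
  have hy := abs_nonneg y
  set L := Real.log T with hL
  have hL0 : 0 < L := by linarith
  have hA : 1 ≤ T ^ (1 - ε) := Real.one_le_rpow b1 (by linarith)
  have hM : 0 ≤ M (zk k) (4 * T ^ (1 - ε)) := M_nonneg _ (by positivity)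
  have hR : ‖Rs (Fh k T⁻¹) (y / (2 * L))‖ ≤ mass k T := Rs_le hFd _
  rcases le_or_gt |y / (2 * L)| 1 with ha | ha
  swap
  · -- far shifts
    have h1 : ‖conj (Rs (Fh k T⁻¹) (y / (2 * L))) - cexp ((k * y : ℝ) * I) * Rs (Fh k T⁻¹) (y / (2 * L))‖ ≤
        2 * mass k T := by
      refine (norm_sub_le _ _).trans ?_
      rw [RCLike.norm_conj, norm_mul, Complex.norm_exp_ofReal_mul_I, one_mul]
      linarith
    have h2 : 2 * L < |y| := by
      rw [abs_div, abs_of_pos (by linarith : 0 < 2 * L), lt_div_iff₀ (by linarith)] at ha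
      linarith
    have h3 : 2 ≤ ε * |y| := by nlinarith
    have h4 : 2 ≤ (4 * k + 1) * ε * (1 + |y|) := by
      have : 0 ≤ k * ε * (1 + |y|) := by positivity
      nlinarith
    have h5 : 0 ≤ (16 + 4 * CF * W182.KO.J2) * (1 + M (zk k) (4 * T ^ (1 - ε))) := by positivity
    have h6 := mul_le_mul_of_nonneg_right h4 hm
    linarith
  set a := y / (2 * L) with had
  set E : ℝ := Real.exp (-(T⁻¹ ^ 2 * a ^ 2)) with hE
  have hE0 : 0 < E := Real.exp_pos _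
  have hE1 : E ≤ 1 := Real.exp_le_one_iff.2 (by have : 0 ≤ T⁻¹ ^ 2 * a ^ 2 := by positivity
                                                linarith)
  set e := cexp ((k * y : ℝ) * I) with he
  have ne : ‖e‖ = 1 := Complex.norm_exp_ofReal_mul_I _
  have hPi := (Pa_int k a hTp).integrableOn (s := Ioi (0:ℝ))
  have hPc : IntegrableOn (fun t : ℝ => ((eg 0 (t / T) : ℝ) : ℂ) * conj (Pa k a t)) (Ioi (0:ℝ)) := by
    have h1 : Integrable (fun t : ℝ => conj (((eg 0 (t / T) : ℝ) : ℂ) * Pa k a t)) (volume.restrict (Ioi (0:ℝ))) :=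
      (LinearIsometryEquiv.integrable_comp_iff (conjLIE : ℂ ≃ₗᵢ[ℝ] ℂ)).2 hPi
    refine h1.congr (Eventually.of_forall fun t => ?_)
    simp only [map_mul, conj_ofReal]
  have e1 : conj (Rs (Fh k T⁻¹) a) - e * Rs (Fh k T⁻¹) a =
      2 * ∫ t in Ioi (0:ℝ), (E : ℂ) * ((eg 0 (t / T) : ℂ) * (conj (Pa k a t) - e * Pa k a t)) := by
    rw [Rs_Fh k hTp a, map_mul, map_mul, conj_ofReal, ← integral_conj, integral_const_mul]
    have h1 : ∫ t in Ioi (0:ℝ), (eg 0 (t / T) : ℂ) * (conj (Pa k a t) - e * Pa k a t) =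
        (∫ t in Ioi (0:ℝ), (eg 0 (t / T) : ℂ) * conj (Pa k a t)) -
          e * ∫ t in Ioi (0:ℝ), (eg 0 (t / T) : ℂ) * Pa k a t := by
      rw [← integral_const_mul, ← integral_sub hPc (hPi.const_mul e)]
      refine integral_congr_ae (Eventually.of_forall fun t => ?_)
      simp only
      ring
    rw [h1]
    simp only [map_mul, conj_ofReal, map_ofNat]
    ring
  -- the three majorants
  have hzc : Continuous (fun t => ‖zk k t‖ ^ 2) := (zk_cont k).norm.pow 2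
  have hFc : Continuous (Fh k T⁻¹) := hFd.cont
  have hsq : Integrable (fun t => ‖Fh k T⁻¹ t‖ ^ 2) := hFd.sq
  have i1 : IntegrableOn ((Ioc (0:ℝ) (T ^ (1 - ε))).indicator
      (fun t => 2 * (‖zk k (t + a)‖ ^ 2 + ‖zk k (t + -a)‖ ^ 2))) (Ioi 0) := by
    refine (IntegrableOn.integrable_indicator ?_ measurableSet_Ioc).integrableOn
    have hzz := zk_cont k
    exact (Continuous.integrableOn_Icc (by fun_prop)).mono_set Ioc_subset_Icc_self
  have i2 : IntegrableOn (fun t => 2 * k * ε * (1 + |y|) *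
      ((‖Fh k T⁻¹ (t + a)‖ ^ 2 + ‖Fh k T⁻¹ (t + -a)‖ ^ 2) / 2)) (Ioi 0) :=
    ((((hsq.comp_add_right a).add (hsq.comp_add_right (-a))).div_const 2).const_mul _).integrableOn
  have i3 : IntegrableOn (fun t : ℝ => 2 * CF * ((1 + |t|) ^ 2)⁻¹) (Ioi 0) :=
    (W182.KO.one_add_inv_sq_int.const_mul _).integrableOn
  have key : ‖∫ t in Ioi (0:ℝ), (E : ℂ) * ((eg 0 (t / T) : ℂ) * (conj (Pa k a t) - e * Pa k a t))‖ ≤
      ∫ t in Ioi (0:ℝ), ((Ioc (0:ℝ) (T ^ (1 - ε))).indicator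
        (fun t => 2 * (‖zk k (t + a)‖ ^ 2 + ‖zk k (t + -a)‖ ^ 2)) t +
        2 * k * ε * (1 + |y|) * ((‖Fh k T⁻¹ (t + a)‖ ^ 2 + ‖Fh k T⁻¹ (t + -a)‖ ^ 2) / 2) +
        2 * CF * ((1 + |t|) ^ 2)⁻¹) := by
    refine norm_integral_le_of_norm_le ((i1.add i2).add i3) ?_
    filter_upwards [ae_restrict_mem measurableSet_Ioi] with t ht
    have ht0 : 0 < t := ht
    have p1 : 0 ≤ (Ioc (0:ℝ) (T ^ (1 - ε))).indicator
        (fun t => 2 * (‖zk k (t + a)‖ ^ 2 + ‖zk k (t + -a)‖ ^ 2)) t :=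
      indicator_nonneg (fun _ _ => by positivity) t
    have p2 : 0 ≤ 2 * k * ε * (1 + |y|) * ((‖Fh k T⁻¹ (t + a)‖ ^ 2 + ‖Fh k T⁻¹ (t + -a)‖ ^ 2) / 2) := by
      positivity
    have p3 : 0 ≤ 2 * CF * ((1 + |t|) ^ 2)⁻¹ := by positivity
    have hg0 := (eg_pos 0 (t / T)).le
    have hg1 : eg 0 (t / T) ≤ 1 := by
      rw [eg_zero]
      exact Real.exp_le_one_iff.2 (by have : 0 ≤ T⁻¹ ^ 2 * t ^ 2 := by positivity
                                      linarith)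
    have n1 : ‖(E : ℂ) * ((eg 0 (t / T) : ℂ) * (conj (Pa k a t) - e * Pa k a t))‖ =
        E * (eg 0 (t / T) * ‖conj (Pa k a t) - e * Pa k a t‖) := by
      rw [norm_mul, norm_mul, Complex.norm_real, Complex.norm_real, Real.norm_of_nonneg hE0.le,
        Real.norm_of_nonneg hg0]
    rw [n1]
    have n2 : ‖conj (Pa k a t) - e * Pa k a t‖ ≤ 2 * ‖Pa k a t‖ := by
      refine (norm_sub_le _ _).trans ?_
      rw [RCLike.norm_conj, norm_mul, ne, one_mul]; linarith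
    rcases le_or_gt t (T ^ (1 - ε)) with c1 | c1
    · have h1 : (Ioc (0:ℝ) (T ^ (1 - ε))).indicator
          (fun t => 2 * (‖zk k (t + a)‖ ^ 2 + ‖zk k (t + -a)‖ ^ 2)) t =
          2 * (‖zk k (t + a)‖ ^ 2 + ‖zk k (t + -a)‖ ^ 2) := 
        indicator_of_mem (show t ∈ Ioc (0:ℝ) (T ^ (1 - ε)) from ⟨ht0, c1⟩) _
      have h2 := Pa_le k a t
      have h3 : E * (eg 0 (t / T) * ‖conj (Pa k a t) - e * Pa k a t‖) ≤ 1 * (1 * (2 * ‖Pa k a t‖)) := by
        gcongr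
      linarith
    · rcases le_or_gt t (T ^ (1 + ε)) with c2 | c2
      · have h1 : conj (Pa k a t) - e * Pa k a t = ((Xl (t + a) * conj (Xl (t + -a))) ^ k - e) * Pa k a t := by
          rw [Pa_fe]; ring
        have h2 := phase k (y := y) hCX hX hε b1 b2 b3 b5 b6 ha c1.le c2
        rw [h1, norm_mul]
        have h3 := wF k T a t
        have h4 : ‖Fh k T⁻¹ (t + a)‖ * ‖Fh k T⁻¹ (t + -a)‖ ≤
            (‖Fh k T⁻¹ (t + a)‖ ^ 2 + ‖Fh k T⁻¹ (t + -a)‖ ^ 2) / 2 := by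
          nlinarith [sq_nonneg (‖Fh k T⁻¹ (t + a)‖ - ‖Fh k T⁻¹ (t + -a)‖)]
        have h5 : E * (eg 0 (t / T) * (‖(Xl (t + a) * conj (Xl (t + -a))) ^ k - e‖ * ‖Pa k a t‖)) =
            ‖(Xl (t + a) * conj (Xl (t + -a))) ^ k - e‖ * (‖Fh k T⁻¹ (t + a)‖ * ‖Fh k T⁻¹ (t + -a)‖) := by
          rw [← h3]; ring
        rw [h5]
        have h6 : ‖(Xl (t + a) * conj (Xl (t + -a))) ^ k - e‖ * (‖Fh k T⁻¹ (t + a)‖ * ‖Fh k T⁻¹ (t + -a)‖) ≤
            2 * k * ε * (1 + |y|) * ((‖Fh k T⁻¹ (t + a)‖ ^ 2 + ‖Fh k T⁻¹ (t + -a)‖ ^ 2) / 2) :=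
          mul_le_mul h2 h4 (by positivity) (by positivity)
        linarith
      · have h1 := hF T t a b1 c2.le ha
        have h3 : E * (eg 0 (t / T) * ‖conj (Pa k a t) - e * Pa k a t‖) ≤
            1 * (eg 0 (t / T) * (2 * ‖Pa k a t‖)) := by
          gcongr
        linarith
  rw [int3 i1 i2 i3] at key
  have j1 : ∫ t in Ioi (0:ℝ), (Ioc (0:ℝ) (T ^ (1 - ε))).indicator
      (fun t => 2 * (‖zk k (t + a)‖ ^ 2 + ‖zk k (t + -a)‖ ^ 2)) t ≤ 8 * M (zk k) (4 * T ^ (1 - ε)) := by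
    rw [integral_indicator measurableSet_Ioc, Measure.restrict_restrict measurableSet_Ioc,
      inter_eq_left.2 Ioc_subset_Ioi_self, ← intervalIntegral.integral_of_le (by positivity),
      intervalIntegral.integral_const_mul]
    have h1 := two_M k ha (show 0 ≤ T ^ (1 - ε) by positivity)
    have h2 := M_mono D (show T ^ (1 - ε) + 1 ≤ 4 * T ^ (1 - ε) by linarith)
    linarith
  have j2 : ∫ t in Ioi (0:ℝ), 2 * k * ε * (1 + |y|) *
      ((‖Fh k T⁻¹ (t + a)‖ ^ 2 + ‖Fh k T⁻¹ (t + -a)‖ ^ 2) / 2) ≤ 2 * k * ε * (1 + |y|) * mass k T := by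
    have h1 : ∀ x : ℝ, ∫ t, ‖Fh k T⁻¹ (t + x)‖ ^ 2 = mass k T := fun x =>
      integral_add_right_eq_self (fun t => ‖Fh k T⁻¹ t‖ ^ 2) x
    have h2 := setIntegral_le_integral (s := Ioi (0:ℝ))
      ((((hsq.comp_add_right a).add (hsq.comp_add_right (-a))).div_const 2).const_mul (2 * k * ε * (1 + |y|)))
      (Eventually.of_forall fun t => by simp only [Pi.add_apply, Pi.zero_apply]; positivity)
    refine h2.trans ?_
    rw [integral_const_mul, integral_div]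
    simp only [Pi.add_apply]
    rw [integral_add (hsq.comp_add_right a) (hsq.comp_add_right (-a)), h1, h1]
    exact le_of_eq (by ring)
  have j3 : ∫ t in Ioi (0:ℝ), 2 * CF * ((1 + |t|) ^ 2)⁻¹ ≤ 2 * CF * W182.KO.J2 := by
    rw [integral_const_mul]
    refine mul_le_mul_of_nonneg_left ?_ (by positivity)
    exact setIntegral_le_integral W182.KO.one_add_inv_sq_int (Eventually.of_forall fun t => by
      simp only [Pi.zero_apply]; positivity)
  rw [e1, norm_mul, Complex.norm_ofNat]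
  have h7 : 0 ≤ ε * (1 + |y|) * mass k T := by positivity
  have h8 : 0 ≤ CF * W182.KO.J2 * M (zk k) (4 * T ^ (1 - ε)) := by positivity
  nlinarith

end

end Pool.Agent.J4.H32.VS
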