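import Pool.Agent.J4.H32.VS.Te
import Pool.Agent.J4.H44.LP.Pe

set_option autoImplicit false

/-! Reflection of test functions and the half range. -/

namespace Pool.Agent.J4.H32.VS

open Complex MeasureTheory Filter Topology Set Metric Pool.Agent.TH535.SM Pool.Agent.R446.KR
open Pool.Agent.J4.H44.LP
open Pool.Agent.J4.H44.OL (Cr Cr_int Rs Rs_int Cr_eq)
open Pool.Agent.W182.KO (TF)
open scoped FourierTransform ComplexConjugate ContDiff

noncomputable section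

variable {q k : ℕ} {c : ℝ}

/-- **the functional equation for test functions** -/
theorem Ssym (k : ℕ) {ξ : ℝ} {g : ℝ → ℂ} (hg : TF ξ g) {ε : ℝ} (hε : 0 < ε) : ∃ C T0 β : ℝ, 0 ≤ C ∧ 1 ≤ T0 ∧
    0 < β ∧ β < 1 ∧ ∀ T, T0 ≤ T →
    ‖conj (Sg (Fh k T⁻¹) (Real.log T) g) - Sg (Fh k T⁻¹) (Real.log T) (refl k g)‖ ≤
      ε * mass k T + C * (1 + M (zk k) (4 * T ^ β)) := by
  obtain ⟨ξ', hξ', hg'⟩ := refl_TF hg k
  have hw := KL_w hg (L := 1) le_rfl
  set K : ℝ := ∫ y, ‖KL g 1 y‖ * (1 + |y|) ^ 2 with hK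
  have hK0 : 0 ≤ K := integral_nonneg fun y => by positivity
  have hk : (0:ℝ) ≤ k := Nat.cast_nonneg k
  set d : ℝ := min (1 / 2) (ε / ((4 * k + 1) * (K + 1))) with hd
  have hd0 : 0 < d := by positivity
  have hd1 : d < 1 := (min_le_left _ _).trans_lt (by norm_num)
  have hd2 : (4 * k + 1) * d * K ≤ ε := by
    have h1 : d ≤ ε / ((4 * k + 1) * (K + 1)) := min_le_right _ _
    rw [le_div_iff₀ (by positivity)] at h1
    have : 0 ≤ (4 * k + 1) * d := by positivity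
    nlinarith
  obtain ⟨C, T0, hC, hT0, hb⟩ := Rsym k hd0 hd1
  refine ⟨K * C, max T0 2, 1 - d, by positivity, by have := le_max_right T0 2; linarith, by linarith, by linarith,
    fun T hT => ?_⟩
  have hT1 : 2 ≤ T := (le_max_right _ _).trans hT
  have hT2 : T0 ≤ T := (le_max_left _ _).trans hT
  have hTp : 0 < T := by linarith
  have hL : 0 < Real.log T := Real.log_pos (by linarith)
  have hF := Fh_dec k (h := T⁻¹) (by positivity)
  have hm := mass_nonneg k T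
  have hM : 0 ≤ M (zk k) (4 * T ^ (1 - d)) := M_nonneg _ (by positivity)
  have hKi := KL_int hg one_pos
  have hRc := Rs_cont hF
  have hKc := KL_cont hg 1
  have e1 : conj (Sg (Fh k T⁻¹) (Real.log T) g) =
      ∫ y, conj (KL g 1 y) * conj (Rs (Fh k T⁻¹) (y / (2 * Real.log T))) := by
    rw [Sg_Rs hg hF hL, ← integral_conj]
    refine integral_congr_ae (Eventually.of_forall fun y => ?_)
    simp only [map_mul]
  have e2 : Sg (Fh k T⁻¹) (Real.log T) (refl k g) =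
      ∫ y, conj (KL g 1 y) * (cexp ((k * y : ℝ) * I) * Rs (Fh k T⁻¹) (y / (2 * Real.log T))) := by
    rw [Sg_Rs hg' hF hL]
    refine integral_congr_ae (Eventually.of_forall fun y => ?_)
    simp only
    rw [KL_refl hg k 1 y, mul_one]
    ring
  have i0 : Integrable (fun y => ‖KL g 1 y‖ * mass k T) := hKi.norm.mul_const _
  have i1 : Integrable (fun y => conj (KL g 1 y) * conj (Rs (Fh k T⁻¹) (y / (2 * Real.log T)))) := by
    refine i0.mono' (Continuous.aestronglyMeasurable ?_) (Eventually.of_forall fun y => ?_)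
    · exact (Complex.continuous_conj.comp hKc).mul (Complex.continuous_conj.comp (hRc.comp (by fun_prop)))
    · rw [norm_mul, RCLike.norm_conj, RCLike.norm_conj]
      exact mul_le_mul_of_nonneg_left (Rs_le hF _) (norm_nonneg _)
  have i2 : Integrable (fun y => conj (KL g 1 y) * (cexp ((k * y : ℝ) * I) *
      Rs (Fh k T⁻¹) (y / (2 * Real.log T)))) := by
    refine i0.mono' (Continuous.aestronglyMeasurable ?_) (Eventually.of_forall fun y => ?_)
    · exact (Complex.continuous_conj.comp hKc).mul ((by fun_prop : Continuous fun y : ℝ =>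
        cexp ((k * y : ℝ) * I)).mul (hRc.comp (by fun_prop)))
    · rw [norm_mul, norm_mul, RCLike.norm_conj, Complex.norm_exp_ofReal_mul_I, one_mul]
      exact mul_le_mul_of_nonneg_left (Rs_le hF _) (norm_nonneg _)
  rw [e1, e2, ← integral_sub i1 i2]
  have key : ‖∫ y, (conj (KL g 1 y) * conj (Rs (Fh k T⁻¹) (y / (2 * Real.log T))) -
      conj (KL g 1 y) * (cexp ((k * y : ℝ) * I) * Rs (Fh k T⁻¹) (y / (2 * Real.log T))))‖ ≤
      ∫ y, ‖KL g 1 y‖ * (1 + |y|) ^ 2 * ((4 * k + 1) * d * mass k T + C * (1 + M (zk k) (4 * T ^ (1 - d)))) := by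
    refine norm_integral_le_of_norm_le (hw.mul_const _) (Eventually.of_forall fun y => ?_)
    rw [← mul_sub, norm_mul, RCLike.norm_conj, mul_assoc]
    refine mul_le_mul_of_nonneg_left ((hb T hT2 y).trans ?_) (norm_nonneg _)
    have hy := abs_nonneg y
    have h1 : 1 + |y| ≤ (1 + |y|) ^ 2 := by nlinarith
    have h2 : 1 ≤ (1 + |y|) ^ 2 := by nlinarith
    have h3 : 0 ≤ (4 * k + 1) * d * mass k T := by positivity
    have h4 : 0 ≤ C * (1 + M (zk k) (4 * T ^ (1 - d))) := by positivity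
    nlinarith [mul_le_mul_of_nonneg_right h1 h3, mul_le_mul_of_nonneg_right h2 h4]
  refine key.trans ?_
  rw [integral_mul_const, ← hK]
  have h5 := mul_le_mul_of_nonneg_right hd2 hm
  linarith

/-- the linear functional for bounded continuous functions -/
lemma Sg_int {F : ℝ → ℂ} (hF : Dec F) {L : ℝ} {g : ℝ → ℂ} (hg : Continuous g) {S : ℝ}
    (hS : ∀ v, ‖g v‖ ≤ S) : Integrable (fun w => g (-(2 * Real.pi * w / L)) * ((‖𝓕 F w‖ ^ 2 : ℝ) : ℂ)) := by
  refine ((planch hF).1.const_mul S).mono' ?_ (Eventually.of_forall fun w => ?_)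
  · have h1 := ft_cont hF
    exact Continuous.aestronglyMeasurable (by fun_prop)
  · rw [norm_mul, Complex.norm_real, Real.norm_of_nonneg (by positivity)]
    exact mul_le_mul_of_nonneg_right (hS _) (by positivity)

lemma Sg_add {F : ℝ → ℂ} (hF : Dec F) (L : ℝ) {g g' : ℝ → ℂ} (hg : Continuous g) (hg' : Continuous g')
    {S : ℝ} (hS : ∀ v, ‖g v‖ ≤ S) (hS' : ∀ v, ‖g' v‖ ≤ S) :
    Sg F L (fun v => g v + g' v) = Sg F L g + Sg F L g' := by
  unfold Sg
  rw [← integral_add (Sg_int hF hg hS) (Sg_int hF hg' hS')]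
  refine integral_congr_ae (Eventually.of_forall fun w => ?_)
  simp only
  ring

lemma Sg_smul (F : ℝ → ℂ) (L : ℝ) (g : ℝ → ℂ) (z : ℂ) : Sg F L (fun v => z * g v) = z * Sg F L g := by
  unfold Sg
  rw [← integral_const_mul]
  refine integral_congr_ae (Eventually.of_forall fun w => ?_)
  simp only
  ring

/-- comparison of two test functions -/
lemma Sg_close {F : ℝ → ℂ} (hF : Dec F) {L : ℝ} (hL : 0 < L) {g g' : ℝ → ℂ} (hg : Continuous g)
    (hg' : Continuous g') {S : ℝ} (hS : ∀ v, ‖g v‖ ≤ S) (hS' : ∀ v, ‖g' v‖ ≤ S) {a b : ℝ}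
    (hab : ∀ v, a ≤ v → v ≤ b → g v = g' v) :
    ‖Sg F L g - Sg F L g'‖ ≤ 4 * S * (ms F (Iic (-(b * L / (2 * Real.pi)))) +
      ms F (Ici (-(a * L / (2 * Real.pi))))) := by
  have hS0 : 0 ≤ S := (norm_nonneg _).trans (hS 0)
  have hb : ∀ v, ‖g v - g' v‖ ≤ 2 * S := fun v => (norm_sub_le _ _).trans (by linarith [hS v, hS' v])
  have hc : Continuous (fun v => ‖g v - g' v‖) := (hg.sub hg').norm
  have h1 := St_close hF hL (g := fun v => ‖g v - g' v‖) (g' := fun _ => 0) hc continuous_const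
    (S := 2 * S) (by linarith) (fun v => by rw [abs_of_nonneg (norm_nonneg _)]; exact hb v)
    (fun v => by simp; linarith) (a := a) (b := b) (e := 0) le_rfl (fun v h1 h2 => by
      rw [hab v h1 h2, sub_self, norm_zero, sub_zero, abs_zero])
  have h2 : St F L (fun _ => 0) = 0 := by unfold St; simp
  rw [h2, sub_zero, zero_mul, zero_add] at h1
  have h3 : ‖Sg F L g - Sg F L g'‖ ≤ St F L (fun v => ‖g v - g' v‖) := by
    unfold Sg St
    rw [← integral_sub (Sg_int hF hg hS) (Sg_int hF hg' hS')]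
    refine norm_integral_le_of_norm_le (St_int hF hc (fun v => by
      rw [abs_of_nonneg (norm_nonneg _)]; exact hb v)) (Eventually.of_forall fun w => ?_)
    rw [← sub_mul, norm_mul, Complex.norm_real, Real.norm_of_nonneg (by positivity : 0 ≤ ‖𝓕 F w‖ ^ 2)]
  refine h3.trans ((le_abs_self _).trans (h1.trans (le_of_eq ?_)))
  ring

/-- test functions that agree near `[0, k]` -/
lemma Sg_tails (k : ℕ) {g g' : ℝ → ℂ} (hg : Continuous g) (hg' : Continuous g') {S : ℝ} (hS : ∀ v, ‖g v‖ ≤ S)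
    (hS' : ∀ v, ‖g' v‖ ≤ S) (hab : ∀ v : ℝ, -1 ≤ v → v ≤ k + 1 → g v = g' v) {ε : ℝ} (hε : 0 < ε) :
    ∃ C : ℝ, 0 ≤ C ∧ ∀ T : ℝ, 2 ≤ T →
      ‖Sg (Fh k T⁻¹) (Real.log T) g - Sg (Fh k T⁻¹) (Real.log T) g'‖ ≤ ε * mass k T + C := by
  have hS0 : 0 ≤ S := (norm_nonneg _).trans (hS 0)
  obtain ⟨C, hC, hb⟩ := tails k (δ := 1) (η := ε / (8 * (S + 1))) one_pos (by positivity)
  refine ⟨8 * S * C, by positivity, fun T hT => ?_⟩
  have hL : 0 < Real.log T := Real.log_pos (by linarith)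
  have hF := Fh_dec k (h := T⁻¹) (by positivity)
  obtain ⟨t1, t2⟩ := hb T (by linarith)
  have h1 := Sg_close hF hL hg hg' hS hS' (a := -1) (b := k + 1) hab
  have e1 : -(-1 * Real.log T / (2 * Real.pi)) = 1 * Real.log T / (2 * Real.pi) := by ring
  rw [e1] at h1
  have hm : 0 ≤ ∫ t, ‖Fh k T⁻¹ t‖ ^ 2 := mass_nonneg k T
  have h2 : 4 * S * (ε / (8 * (S + 1)) * (∫ t, ‖Fh k T⁻¹ t‖ ^ 2)) * 2 ≤ ε * ∫ t, ‖Fh k T⁻¹ t‖ ^ 2 := by
    have h3 : S / (S + 1) ≤ 1 := by rw [div_le_one (by linarith)]; linarith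
    calc _ = (S / (S + 1)) * (ε * ∫ t, ‖Fh k T⁻¹ t‖ ^ 2) := by field_simp; ring
      _ ≤ 1 * (ε * ∫ t, ‖Fh k T⁻¹ t‖ ^ 2) := mul_le_mul_of_nonneg_right h3 (by positivity)
      _ = _ := one_mul _
  have h4 : 4 * S * (ms (Fh k T⁻¹) (Iic (-((k + 1) * Real.log T / (2 * Real.pi)))) +
      ms (Fh k T⁻¹) (Ici (1 * Real.log T / (2 * Real.pi)))) ≤
      4 * S * ((ε / (8 * (S + 1)) * (∫ t, ‖Fh k T⁻¹ t‖ ^ 2) + C) +
        (ε / (8 * (S + 1)) * (∫ t, ‖Fh k T⁻¹ t‖ ^ 2) + C)) :=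
    mul_le_mul_of_nonneg_left (add_le_add t2 t1) (by linarith)
  have e2 : mass k T = ∫ t, ‖Fh k T⁻¹ t‖ ^ 2 := rfl
  rw [e2]
  linarith

/-- the class of half-range cut-offs -/
structure HR (k : ℕ) (B : ℝ) (g : ℝ → ℝ) : Prop where
  cd : ContDiff ℝ ∞ g
  sym : ∀ v : ℝ, g v + g (k - v) = 1
  out : ∀ v : ℝ, B ≤ v → g v = 0

lemma HR.bd {B : ℝ} {g : ℝ → ℝ} (h : HR k B g) : ∃ S : ℝ, 1 ≤ S ∧ ∀ v, |g v| ≤ S := by
  obtain ⟨S, hS⟩ := (isCompact_Icc (a := (k:ℝ) - B) (b := B)).exists_bound_of_continuousOn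
    h.cd.continuous.continuousOn
  refine ⟨max S 1, le_max_right _ _, fun v => ?_⟩
  rcases le_or_gt B v with h1 | h1
  · rw [h.out v h1, abs_zero]; exact le_trans zero_le_one (le_max_right _ _)
  rcases le_or_gt v (k - B) with h2 | h2
  · have h3 := h.sym v
    rw [h.out (k - v) (by linarith)] at h3
    rw [show g v = 1 by linarith, abs_one]; exact le_max_right _ _
  · exact (hS v ⟨h2.le, h1.le⟩).trans (le_max_left _ _)

lemma cut_symm (k : ℕ) (v : ℝ) : cut k (k - v) = cut k v := by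
  unfold cut
  rw [mul_comm]
  congr 2 <;> ring

/-- the truncated half-range cut-off -/
def gc (k : ℕ) (g : ℝ → ℝ) (v : ℝ) : ℝ := g v * cut k v

lemma gc_cd {B : ℝ} {g : ℝ → ℝ} (h : HR k B g) : ContDiff ℝ ∞ (gc k g) := h.cd.mul (cut_smooth k)

lemma gc_cs (k : ℕ) (g : ℝ → ℝ) : HasCompactSupport (gc k g) := by
  have h1 := cut_cs k
  have h2 : HasCompactSupport (cut k) := by
    have := h1.comp_left (g := Complex.re) (by simp)
    exact this
  exact h2.mul_left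

lemma gc_out {B : ℝ} {g : ℝ → ℝ} (h : HR k B g) {v : ℝ} (hv : B ≤ v) : gc k g v = 0 := by
  unfold gc; rw [h.out v hv, zero_mul]

lemma gc_sym {B : ℝ} {g : ℝ → ℝ} (h : HR k B g) (v : ℝ) : gc k g v + gc k g (k - v) = cut k v := by
  unfold gc
  rw [cut_symm, ← add_mul, h.sym, one_mul]

lemma gc_bd {g : ℝ → ℝ} {S : ℝ} (hS : ∀ v, |g v| ≤ S) (v : ℝ) : |gc k g v| ≤ S := by
  unfold gc
  rw [abs_mul, abs_of_nonneg (cut_nonneg k v)]
  calc |g v| * cut k v ≤ |g v| * 1 := mul_le_mul_of_nonneg_left (cut_le k v) (abs_nonneg _)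
    _ ≤ S := by rw [mul_one]; exact hS v

/-- a twisted truncated cut-off -/
def ge (k : ℕ) (g : ℝ → ℝ) (α v : ℝ) : ℂ := cexp (-(2 * α * v : ℝ) * I) * (gc k g v : ℂ)

lemma ge_TF {B : ℝ} {g : ℝ → ℝ} (h : HR k B g) (α : ℝ) : ∃ ξ : ℝ, 0 ≤ ξ ∧ TF ξ (ge k g α) := by
  refine mk_TF ?_ ?_
  · unfold ge
    have h1 : ContDiff ℝ ∞ (fun v : ℝ => ((gc k g v : ℝ) : ℂ)) := (ofRealCLM.contDiff (n := ∞)).comp (gc_cd h)
    have h2 : ContDiff ℝ ∞ (fun v : ℝ => cexp (-(2 * α * v : ℝ) * I)) := by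
      have h3 : ContDiff ℝ ∞ (fun v : ℝ => (-((2 * α * v : ℝ) : ℂ) * I)) := by
        have h4 : ContDiff ℝ ∞ (fun v : ℝ => ((2 * α * v : ℝ) : ℂ)) :=
          (ofRealCLM.contDiff (n := ∞)).comp (contDiff_const.mul contDiff_id)
        exact h4.neg.mul contDiff_const
      exact h3.cexp
    exact h2.mul h1
  · unfold ge
    have h1 : HasCompactSupport (fun v : ℝ => ((gc k g v : ℝ) : ℂ)) :=
      (gc_cs k g).comp_left (g := Complex.ofReal) Complex.ofReal_zero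
    exact h1.mul_left

/-- the decomposition of the twisted full cut-off -/
lemma ge_dec {B : ℝ} {g : ℝ → ℝ} (h : HR k B g) (α v : ℝ) :
    cexp (-(2 * α * v : ℝ) * I) * (cut k v : ℂ) =
      ge k g α v + cexp (-(2 * α * k : ℝ) * I) * refl k (ge k g α) v := by
  unfold ge Pool.Agent.J4.H44.LP.refl
  rw [← gc_sym h v]
  simp only [map_mul, conj_ofReal, ← Complex.exp_conj, map_neg, conj_I]
  rw [← mul_assoc, ← Complex.exp_add]
  push_cast
  rw [mul_add]
  congr 3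
  ring_nf

lemma ge_norm {g : ℝ → ℝ} {S : ℝ} (hS : ∀ v, |g v| ≤ S) (α v : ℝ) : ‖ge k g α v‖ ≤ S := by
  unfold ge
  have e : cexp (-(2 * α * v : ℝ) * I) = cexp ((-(2 * α * v) : ℝ) * I) := by push_cast; rfl
  rw [e, norm_mul, Complex.norm_exp_ofReal_mul_I, one_mul, Complex.norm_real, Real.norm_eq_abs]
  exact gc_bd hS v

lemma Rs_Sg (F : ℝ → ℂ) {L : ℝ} (hL : L ≠ 0) (α : ℝ) :
    Rs F (α / L) = Sg F L (fun v => cexp (-(2 * α * v : ℝ) * I)) := by
  unfold Rs Sg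
  refine integral_congr_ae (Eventually.of_forall fun w => ?_)
  simp only
  congr 2
  push_cast
  have : (L : ℂ) ≠ 0 := by exact_mod_cast hL
  field_simp
  ring

/-- **the half range determines the shifted means**, up to small errors -/
theorem half_core {B : ℝ} {g : ℝ → ℝ} (h : HR k B g) (α : ℝ) {ε : ℝ} (hε : 0 < ε) : ∃ C T0 β : ℝ, 0 ≤ C ∧
    2 ≤ T0 ∧ 0 < β ∧ β < 1 ∧ ∀ T, T0 ≤ T →
    ‖Rs (Fh k T⁻¹) (α / Real.log T) - (Sg (Fh k T⁻¹) (Real.log T) (ge k g α) +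
      cexp (-(2 * α * k : ℝ) * I) * conj (Sg (Fh k T⁻¹) (Real.log T) (ge k g α)))‖ ≤
      ε * mass k T + C * (1 + M (zk k) (4 * T ^ β)) := by
  obtain ⟨S, hS1, hS⟩ := h.bd
  obtain ⟨ξ, hξ, hT⟩ := ge_TF h α
  obtain ⟨C1, T1, β, hC1, hT1, hβ0, hβ1, hb1⟩ := Ssym k hT (ε := ε / 2) (by positivity)
  have c1 : Continuous (fun v : ℝ => cexp (-(2 * α * v : ℝ) * I)) := by fun_prop
  have c2 : Continuous (fun v : ℝ => (cut k v : ℂ)) :=
    Complex.continuous_ofReal.comp (cut_smooth k).continuous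
  have n1 : ∀ v : ℝ, ‖cexp (-(2 * α * v : ℝ) * I)‖ = 1 := fun v => by
    rw [← Complex.ofReal_neg, Complex.norm_exp_ofReal_mul_I]
  obtain ⟨C2, hC2, hb2⟩ := Sg_tails k (g := fun v : ℝ => cexp (-(2 * α * v : ℝ) * I))
    (g' := fun v : ℝ => cexp (-(2 * α * v : ℝ) * I) * (cut k v : ℂ)) c1 (c1.mul c2) (S := 1) (fun v => (n1 v).le) (fun v => by
      rw [norm_mul, n1, one_mul, Complex.norm_real, Real.norm_of_nonneg (cut_nonneg k v)]; exact cut_le k v)
    (fun v h1 h2 => by rw [cut_one h1 h2]; simp) (ε := ε / 2) (by positivity)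
  refine ⟨C1 + C2, max T1 2, β, by positivity, le_max_right _ _, hβ0, hβ1, fun T hT' => ?_⟩
  have hT2 : 2 ≤ T := (le_max_right _ _).trans hT'
  have hTp : 0 < T := by linarith
  have hL : 0 < Real.log T := Real.log_pos (by linarith)
  have hF := Fh_dec k (h := T⁻¹) (by positivity)
  have a1 := hb1 T ((le_max_left _ _).trans hT')
  have a2 := hb2 T hT2
  have hM : 0 ≤ M (zk k) (4 * T ^ β) := M_nonneg _ (by positivity)
  have e1 : (fun v : ℝ => cexp (-(2 * α * v : ℝ) * I) * (cut k v : ℂ)) =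
      fun v => ge k g α v + cexp (-(2 * α * k : ℝ) * I) * refl k (ge k g α) v := funext fun v => ge_dec h α v
  obtain ⟨ξ', hξ', hT'⟩ := refl_TF hT k
  have nk : ‖cexp (-(2 * α * k : ℝ) * I)‖ = 1 := n1 k
  have e2 := Sg_add hF (Real.log T) (g := ge k g α)
    (g' := fun v => cexp (-(2 * α * k : ℝ) * I) * refl k (ge k g α) v) hT.cd.continuous
    (continuous_const.mul hT'.cd.continuous) (S := S) (fun v => ge_norm hS α v) (fun v => by
      rw [norm_mul, nk, one_mul]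
      unfold Pool.Agent.J4.H44.LP.refl
      rw [RCLike.norm_conj]
      exact ge_norm hS α _)
  rw [Sg_smul] at e2
  rw [e1, e2, ← Rs_Sg _ hL.ne'] at a2
  have e3 : Rs (Fh k T⁻¹) (α / Real.log T) - (Sg (Fh k T⁻¹) (Real.log T) (ge k g α) +
      cexp (-(2 * α * k : ℝ) * I) * conj (Sg (Fh k T⁻¹) (Real.log T) (ge k g α))) =
      (Rs (Fh k T⁻¹) (α / Real.log T) - (Sg (Fh k T⁻¹) (Real.log T) (ge k g α) +
        cexp (-(2 * α * k : ℝ) * I) * Sg (Fh k T⁻¹) (Real.log T) (refl k (ge k g α)))) -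
      cexp (-(2 * α * k : ℝ) * I) * (conj (Sg (Fh k T⁻¹) (Real.log T) (ge k g α)) -
        Sg (Fh k T⁻¹) (Real.log T) (refl k (ge k g α))) := by ring
  rw [e3]
  refine (norm_sub_le _ _).trans ?_
  rw [norm_mul, nk, one_mul]
  have h5 : 0 ≤ C2 * M (zk k) (4 * T ^ β) := by positivity
  linarith

end

end Pool.Agent.J4.H32.VS
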