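import Pool.Agent.J4.H32.VS.Tf

set_option autoImplicit false

/-! Limits over the half range. -/

namespace Pool.Agent.J4.H32.VS

open Complex MeasureTheory Filter Topology Set Metric Pool.Agent.TH535.SM Pool.Agent.R446.KR
open Pool.Agent.J4.H44.LP
open Pool.Agent.J4.H44.OL (Cr Cr_int Rs Rs_int Cr_eq)
open Pool.Agent.W182.KO (TF)
open scoped FourierTransform ComplexConjugate ContDiff

noncomputable section

variable {q k : ℕ} {c : ℝ}

lemma Rs_zero_mass (k : ℕ) {T : ℝ} (hT : 0 < T) : Rs (Fh k T⁻¹) 0 = ((mass k T : ℝ) : ℂ) := by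
  unfold Rs mass
  rw [← (planch (Fh_dec k (h := T⁻¹) (by positivity))).2, ← integral_complex_ofReal]
  refine integral_congr_ae (Eventually.of_forall fun t => ?_)
  simp

lemma M_le_mass (k : ℕ) {T : ℝ} (hT : 0 < T) : M (zk k) T ≤ Real.exp 1 * mass k T := by
  have hi := (Fh_dec k (h := T⁻¹) (by positivity)).sq
  have h1 : ∫ t in Ioc (0:ℝ) T, ‖Fh k T⁻¹ t‖ ^ 2 ≤ mass k T :=
    setIntegral_le_integral hi (Eventually.of_forall fun t => by simp only [Pi.zero_apply]; positivity)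
  have D := zk_dat k (u := 1) le_rfl
  have h2 : M (zk k) T ≤ Real.exp 1 * ∫ t in Ioc (0:ℝ) T, ‖Fh k T⁻¹ t‖ ^ 2 := by
    unfold M
    rw [intervalIntegral.integral_of_le hT.le, ← integral_const_mul]
    refine setIntegral_mono_on (D.sc.integrableOn_Icc.mono_set Ioc_subset_Icc_self)
      ((hi.const_mul _).integrableOn) measurableSet_Ioc fun t ht => ?_
    rw [Fh_norm, mul_left_comm, ← Real.exp_add]
    have h3 : 1 ≤ Real.exp (1 + -(T⁻¹ ^ 2 * t ^ 2)) := by
      refine Real.one_le_exp ?_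
      have h4 : T⁻¹ ^ 2 * t ^ 2 ≤ 1 := by
        rw [← mul_pow]
        refine pow_le_one₀ (mul_nonneg (by positivity) ht.1.le) ?_
        rw [← div_eq_inv_mul, div_le_one hT]
        exact ht.2
      linarith
    have h5 : 0 ≤ ‖zk k t‖ ^ 2 := by positivity
    nlinarith
  exact h2.trans (mul_le_mul_of_nonneg_left h1 (Real.exp_pos _).le)

/-- errors of the standard shape are small -/
lemma err_small (hup : ∃ C : ℝ, ∀ᶠ T : ℝ in atTop, M (zk k) T ≤ C * NN q T)
    (hm : ∃ C : ℝ, ∀ᶠ T : ℝ in atTop, mass k T ≤ C * NN q T) {X : ℝ → ℂ}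
    (hX : ∀ ε : ℝ, 0 < ε → ∃ C T0 β : ℝ, 0 ≤ C ∧ 2 ≤ T0 ∧ 0 < β ∧ β < 1 ∧ ∀ T, T0 ≤ T →
      ‖X T‖ ≤ ε * mass k T + C * (1 + M (zk k) (4 * T ^ β))) :
    Tendsto (fun T => X T / (NN q T : ℂ)) atTop (𝓝 0) := by
  obtain ⟨C1, h1⟩ := hup
  obtain ⟨C2, h2⟩ := hm
  rw [Metric.tendsto_nhds]
  intro δ hδ
  obtain ⟨C, T0, β, hC, hT0, hβ0, hβ1, hb⟩ := hX (δ / (4 * (|C2| + 1))) (by positivity)
  have h1' : ∀ᶠ T : ℝ in atTop, M (zk k) T ≤ |C1| * NN q T := by
    filter_upwards [h1, eventually_gt_atTop 1] with T a1 a2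
    have := NN_pos q a2
    have := le_abs_self C1
    nlinarith
  filter_upwards [small_shift (abs_nonneg C1) h1' (a := 4) (by norm_num) hβ0 hβ1
    (δ := δ / (8 * (C + 1))) (by positivity), one_small q 1 (δ := δ / (8 * (C + 1))) (by positivity), h2,
    eventually_ge_atTop T0, eventually_gt_atTop 1] with T a1 a2 a3 a4 a5
  have hN := NN_pos q a5
  have hm := mass_nonneg k T
  rw [dist_zero_right, norm_div, Complex.norm_real, Real.norm_of_nonneg hN.le, div_lt_iff₀ hN]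
  have h3 : δ / (4 * (|C2| + 1)) * mass k T ≤ δ / 4 * NN q T := by
    calc _ ≤ δ / (4 * (|C2| + 1)) * (|C2| * NN q T) := by
          refine mul_le_mul_of_nonneg_left (a3.trans ?_) (by positivity)
          exact mul_le_mul_of_nonneg_right (le_abs_self _) hN.le
      _ = (|C2| / (|C2| + 1)) * (δ / 4 * NN q T) := by field_simp
      _ ≤ 1 * (δ / 4 * NN q T) := by
          refine mul_le_mul_of_nonneg_right ?_ (by positivity)
          rw [div_le_one (by positivity)]; linarith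
      _ = _ := one_mul _
  have h4 : C * (1 + M (zk k) (4 * T ^ β)) ≤ δ / 4 * NN q T := by
    calc _ ≤ C * (δ / (8 * (C + 1)) * NN q T + δ / (8 * (C + 1)) * NN q T) :=
          mul_le_mul_of_nonneg_left (add_le_add a2 a1) hC
      _ = (C / (C + 1)) * (δ / 4 * NN q T) := by field_simp; ring
      _ ≤ 1 * (δ / 4 * NN q T) := by
          refine mul_le_mul_of_nonneg_right ?_ (by positivity)
          rw [div_le_one (by positivity)]; linarith
      _ = _ := one_mul _
  have h5 := hb T a4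
  have h6 : 0 < δ * NN q T := by positivity
  linarith

lemma ge_zero (k : ℕ) (g : ℝ → ℝ) : ge k g 0 = fun v => ((gc k g v : ℝ) : ℂ) := by
  funext v
  unfold ge
  simp

lemma HR.cont {B : ℝ} {g : ℝ → ℝ} (h : HR k B g) : Continuous g := h.cd.continuous

/-- the truncation of the cut-off -/
lemma St_gc {B : ℝ} {g : ℝ → ℝ} (h : HR k B g) {ε : ℝ} (hε : 0 < ε) : ∃ C : ℝ, 0 ≤ C ∧ ∀ T : ℝ, 2 ≤ T →
    |St (Fh k T⁻¹) (Real.log T) g - St (Fh k T⁻¹) (Real.log T) (gc k g)| ≤ ε * mass k T + C := by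
  obtain ⟨S, hS1, hS⟩ := h.bd
  obtain ⟨C, hC, hb⟩ := Sg_tails k (g := fun v => ((g v : ℝ) : ℂ)) (g' := fun v => ((gc k g v : ℝ) : ℂ))
    (Complex.continuous_ofReal.comp h.cont) (Complex.continuous_ofReal.comp (gc_cd h).continuous) (S := S)
    (fun v => by rw [Complex.norm_real]; exact hS v) (fun v => by rw [Complex.norm_real]; exact gc_bd hS v)
    (fun v h1 h2 => by unfold gc; rw [cut_one h1 h2, mul_one]) hε
  refine ⟨C, hC, fun T hT => ?_⟩
  have h1 := hb T hT
  rw [Sg_real, Sg_real, ← Complex.ofReal_sub, Complex.norm_real, Real.norm_eq_abs] at h1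
  exact h1

/-- **the half range carries half of the mass** -/
theorem half_mass {B : ℝ} {g : ℝ → ℝ} (h : HR k B g) {ε : ℝ} (hε : 0 < ε) : ∃ C T0 β : ℝ, 0 ≤ C ∧
    2 ≤ T0 ∧ 0 < β ∧ β < 1 ∧ ∀ T, T0 ≤ T →
    |mass k T - 2 * St (Fh k T⁻¹) (Real.log T) g| ≤ ε * mass k T + C * (1 + M (zk k) (4 * T ^ β)) := by
  obtain ⟨C1, T1, β, hC1, hT1, hβ0, hβ1, hb1⟩ := half_core h 0 (ε := ε / 2) (by positivity)
  obtain ⟨C2, hC2, hb2⟩ := St_gc h (ε := ε / 4) (by positivity)
  refine ⟨C1 + 2 * C2, T1, β, by positivity, hT1, hβ0, hβ1, fun T hT => ?_⟩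
  have hT2 : 2 ≤ T := hT1.trans hT
  have hTp : 0 < T := by linarith
  have a1 := hb1 T hT
  have a2 := hb2 T hT2
  have hM : 0 ≤ M (zk k) (4 * T ^ β) := M_nonneg _ (by positivity)
  have e1 : Rs (Fh k T⁻¹) (0 / Real.log T) - (Sg (Fh k T⁻¹) (Real.log T) (ge k g 0) +
      cexp (-(2 * 0 * k : ℝ) * I) * conj (Sg (Fh k T⁻¹) (Real.log T) (ge k g 0))) =
      ((mass k T - 2 * St (Fh k T⁻¹) (Real.log T) (gc k g) : ℝ) : ℂ) := by
    rw [zero_div, Rs_zero_mass k hTp, ge_zero, Sg_real (gc k g), conj_ofReal]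
    simp
    ring
  rw [e1, Complex.norm_real, Real.norm_eq_abs] at a1
  have h5 : 0 ≤ C2 * M (zk k) (4 * T ^ β) := by positivity
  have h1 := abs_le.1 a1
  have h2 := abs_le.1 a2
  rw [abs_le]
  constructor <;> linarith [h1.1, h1.2, h2.1, h2.2]

lemma M_of_mass (h : ∃ C : ℝ, ∀ᶠ T : ℝ in atTop, mass k T ≤ C * NN q T) :
    ∃ C : ℝ, ∀ᶠ T : ℝ in atTop, M (zk k) T ≤ C * NN q T := by
  obtain ⟨C, hC⟩ := h
  refine ⟨Real.exp 1 * C, ?_⟩
  filter_upwards [hC, eventually_gt_atTop 0] with T h1 h2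
  have h3 := M_le_mass k h2
  have h4 := mul_le_mul_of_nonneg_left h1 (Real.exp_pos 1).le
  linarith

/-- **bootstrap** -/
theorem boot_mass {A T1 β : ℝ} (hβ0 : 0 < β) (hβ1 : β < 1)
    (h : ∀ T : ℝ, T1 ≤ T → mass k T ≤ A * (NN q T + M (zk k) (4 * T ^ β))) :
    (∃ C : ℝ, ∀ᶠ T : ℝ in atTop, M (zk k) T ≤ C * NN q T) ∧ ∃ C : ℝ, ∀ᶠ T : ℝ in atTop, mass k T ≤ C * NN q T := by
  obtain ⟨C, T2, hC, hb⟩ := boot (M_Gr k) q hβ0 hβ1 ⟨Real.exp 1 * |A|, max T1 2, by positivity, fun T hT => by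
    have hT2 : 2 ≤ T := (le_max_right _ _).trans hT
    have hTp : 0 < T := by linarith
    have hN := NN_pos q (show 1 < T by linarith)
    have hM : 0 ≤ M (zk k) (4 * T ^ β) := M_nonneg _ (by positivity)
    have h1 := h T ((le_max_left _ _).trans hT)
    have h2 : A * (NN q T + M (zk k) (4 * T ^ β)) ≤ |A| * (NN q T + M (zk k) (4 * T ^ β)) :=
      mul_le_mul_of_nonneg_right (le_abs_self A) (by positivity)
    have h3 := mul_le_mul_of_nonneg_left (h1.trans h2) (Real.exp_pos 1).le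
    have h4 := M_le_mass k hTp
    linarith⟩
  have hev : ∀ᶠ T : ℝ in atTop, M (zk k) T ≤ C * NN q T := by
    filter_upwards [eventually_ge_atTop T2] with T hT using hb T hT
  refine ⟨⟨C, hev⟩, ⟨|A| * 2, ?_⟩⟩
  filter_upwards [small_shift hC hev (a := 4) (by norm_num) hβ0 hβ1 one_pos, eventually_ge_atTop T1,
    eventually_gt_atTop 1] with T a1 a2 a3
  have hN := NN_pos q a3
  have hM : 0 ≤ M (zk k) (4 * T ^ β) := M_nonneg _ (by positivity)
  calc mass k T ≤ A * (NN q T + M (zk k) (4 * T ^ β)) := h T a2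
    _ ≤ |A| * (NN q T + M (zk k) (4 * T ^ β)) := mul_le_mul_of_nonneg_right (le_abs_self A) (by positivity)
    _ ≤ |A| * (NN q T + 1 * NN q T) := by gcongr
    _ = _ := by ring

/-- an upper bound over the half range bounds everything -/
lemma half_up {B : ℝ} {g : ℝ → ℝ} (h : HR k B g)
    (hS : ∃ C : ℝ, ∀ᶠ T : ℝ in atTop, St (Fh k T⁻¹) (Real.log T) g ≤ C * NN q T) :
    (∃ C : ℝ, ∀ᶠ T : ℝ in atTop, M (zk k) T ≤ C * NN q T) ∧ ∃ C : ℝ, ∀ᶠ T : ℝ in atTop, mass k T ≤ C * NN q T := by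
  obtain ⟨C0, h0⟩ := hS
  obtain ⟨C, T0, β, hC, hT0, hβ0, hβ1, hb⟩ := half_mass h (ε := 1 / 2) (by norm_num)
  have ev : ∀ᶠ T : ℝ in atTop, mass k T ≤ (4 * |C0| + 4 * C) * (NN q T + M (zk k) (4 * T ^ β)) := by
    filter_upwards [h0, one_small q 1 one_pos, eventually_ge_atTop T0] with T a1 a2 a3
    have hTp : 0 < T := by linarith
    have hN := NN_pos q (show 1 < T by linarith)
    have hM : 0 ≤ M (zk k) (4 * T ^ β) := M_nonneg _ (by positivity)
    have h1 := (abs_le.1 (hb T a3)).2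
    have h2 : C0 * NN q T ≤ |C0| * NN q T := mul_le_mul_of_nonneg_right (le_abs_self _) hN.le
    have h3 : 0 ≤ |C0| * M (zk k) (4 * T ^ β) := by positivity
    have h4 : C * 1 ≤ C * (1 * NN q T) := mul_le_mul_of_nonneg_left a2 hC
    have h5 : 0 ≤ C * M (zk k) (4 * T ^ β) := by positivity
    have h6 : 0 ≤ C * NN q T := by positivity
    linarith
  obtain ⟨T1, hT1⟩ := eventually_atTop.1 ev
  exact boot_mass hβ0 hβ1 hT1

/-- the half range, from the moment -/
theorem half_lim {B : ℝ} {g : ℝ → ℝ} (h : HR k B g)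
    (hM : Tendsto (fun T => M (zk k) T / NN q T) atTop (𝓝 c)) :
    Tendsto (fun T => St (Fh k T⁻¹) (Real.log T) g / NN q T) atTop (𝓝 (√Real.pi * c / 2)) := by
  have hm := (AT1 k q c).1 hM
  have h1 := err_small (k := k) (q := q) ⟨_, up_of_ratio hM⟩ ⟨_, up_of_ratio hm⟩
    (X := fun T => ((mass k T - 2 * St (Fh k T⁻¹) (Real.log T) g : ℝ) : ℂ)) (fun ε hε => by
      obtain ⟨C, T0, β, hC, hT0, hβ0, hβ1, hb⟩ := half_mass h hε
      refine ⟨C, T0, β, hC, hT0, hβ0, hβ1, fun T hT => ?_⟩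
      rw [Complex.norm_real, Real.norm_eq_abs]
      exact hb T hT)
  have h2 := (Complex.continuous_re.tendsto _).comp h1
  have h3 : Tendsto (fun T => (mass k T - 2 * St (Fh k T⁻¹) (Real.log T) g) / NN q T) atTop (𝓝 0) := by
    refine h2.congr fun T => ?_
    simp only [Function.comp]
    rw [← Complex.ofReal_div, Complex.ofReal_re]
  have h4 := (hm.sub h3).div_const 2
  rw [sub_zero] at h4
  refine h4.congr fun T => ?_
  ring

/-- the moment, from the half range -/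
theorem half_conv {B : ℝ} {g : ℝ → ℝ} (h : HR k B g)
    (hS : Tendsto (fun T => St (Fh k T⁻¹) (Real.log T) g / NN q T) atTop (𝓝 (√Real.pi * c / 2))) :
    Tendsto (fun T => M (zk k) T / NN q T) atTop (𝓝 c) := by
  obtain ⟨u1, u2⟩ := half_up h ⟨_, up_of_ratio hS⟩
  have h1 := err_small (k := k) (q := q) u1 u2
    (X := fun T => ((mass k T - 2 * St (Fh k T⁻¹) (Real.log T) g : ℝ) : ℂ)) (fun ε hε => by
      obtain ⟨C, T0, β, hC, hT0, hβ0, hβ1, hb⟩ := half_mass h hε
      refine ⟨C, T0, β, hC, hT0, hβ0, hβ1, fun T hT => ?_⟩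
      rw [Complex.norm_real, Real.norm_eq_abs]
      exact hb T hT)
  have h2 := (Complex.continuous_re.tendsto _).comp h1
  have h3 : Tendsto (fun T => (mass k T - 2 * St (Fh k T⁻¹) (Real.log T) g) / NN q T) atTop (𝓝 0) := by
    refine h2.congr fun T => ?_
    simp only [Function.comp]
    rw [← Complex.ofReal_div, Complex.ofReal_re]
  refine (AT1 k q c).2 ?_
  have h4 := h3.add (hS.const_mul 2)
  have e : 0 + 2 * (√Real.pi * c / 2) = √Real.pi * c := by ring
  rw [e] at h4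
  refine h4.congr fun T => ?_
  ring

/-- **the shifted moments, from the half range** -/
theorem half_shifts {B : ℝ} {g : ℝ → ℝ} (h : HR k B g) {Z : ℝ → ℂ}
    (hZ : ∀ α : ℝ, Tendsto (fun T => Sg (Fh k T⁻¹) (Real.log T) (ge k g α) / (NN q T : ℂ)) atTop
      (𝓝 (√Real.pi * Z α))) (α : ℝ) :
    Tendsto (fun T => Cor (zk k) (α / Real.log T) T / (NN q T : ℂ)) atTop
      (𝓝 (Z α + cexp (-(2 * α * k : ℝ) * I) * conj (Z α))) := by
  -- a priori bounds
  have hS0 : Tendsto (fun T => St (Fh k T⁻¹) (Real.log T) (gc k g) / NN q T) atTop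
      (𝓝 ((√Real.pi : ℂ) * Z 0).re) := by
    have h1 := (Complex.continuous_re.tendsto _).comp (hZ 0)
    refine h1.congr fun T => ?_
    simp only [Function.comp]
    rw [ge_zero, Sg_real (gc k g), ← Complex.ofReal_div, Complex.ofReal_re]
  obtain ⟨Cg, hCg, hbg⟩ := St_gc h (ε := 1 / 8) (by norm_num)
  obtain ⟨C, T0, β, hC, hT0, hβ0, hβ1, hb⟩ := half_mass h (ε := 1 / 4) (by norm_num)
  have ev : ∀ᶠ T : ℝ in atTop, mass k T ≤ (4 * (|((√Real.pi : ℂ) * Z 0).re| + 1) + 4 * C + 4 * Cg) *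
      (NN q T + M (zk k) (4 * T ^ β)) := by
    filter_upwards [up_of_ratio hS0, one_small q 1 one_pos, eventually_ge_atTop T0] with T a1 a2 a3
    have hTp : 0 < T := by linarith
    have hN := NN_pos q (show 1 < T by linarith)
    have hM : 0 ≤ M (zk k) (4 * T ^ β) := M_nonneg _ (by positivity)
    have h1 := (abs_le.1 (hb T a3)).2
    have h2 := (abs_le.1 (hbg T (by linarith))).2
    have h3 : 0 ≤ (|((√Real.pi : ℂ) * Z 0).re| + 1) * M (zk k) (4 * T ^ β) := by positivity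
    have h4 : C * 1 ≤ C * (1 * NN q T) := mul_le_mul_of_nonneg_left a2 hC
    have h5 : 0 ≤ C * M (zk k) (4 * T ^ β) := by positivity
    have h6 : 0 ≤ C * NN q T := by positivity
    have h7 : Cg * 1 ≤ Cg * (1 * NN q T) := mul_le_mul_of_nonneg_left a2 hCg
    have h8 : 0 ≤ Cg * M (zk k) (4 * T ^ β) := by positivity
    have h9 : 0 ≤ Cg * NN q T := by positivity
    linarith
  obtain ⟨T1, hT1⟩ := eventually_atTop.1 ev
  obtain ⟨u1, u2⟩ := boot_mass hβ0 hβ1 hT1
  have key : ∀ α : ℝ, Tendsto (fun T => Rs (Fh k T⁻¹) (α / Real.log T) / (NN q T : ℂ)) atTop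
      (𝓝 (√Real.pi * (Z α + cexp (-(2 * α * k : ℝ) * I) * conj (Z α)))) := by
    intro α
    have h1 := err_small (k := k) (q := q) u1 u2
      (X := fun T => Rs (Fh k T⁻¹) (α / Real.log T) - (Sg (Fh k T⁻¹) (Real.log T) (ge k g α) +
        cexp (-(2 * α * k : ℝ) * I) * conj (Sg (Fh k T⁻¹) (Real.log T) (ge k g α))))
      (fun ε hε => half_core h α hε)
    have h2 := (Complex.continuous_conj.tendsto _).comp (hZ α)
    have h3 := h1.add ((hZ α).add (h2.const_mul (cexp (-(2 * α * k : ℝ) * I))))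
    have e : 0 + (√Real.pi * Z α + cexp (-(2 * α * k : ℝ) * I) * conj ((√Real.pi : ℂ) * Z α)) =
        √Real.pi * (Z α + cexp (-(2 * α * k : ℝ) * I) * conj (Z α)) := by
      rw [map_mul, conj_ofReal]; ring
    rw [e] at h3
    refine h3.congr fun T => ?_
    simp only [Function.comp]
    rw [map_div₀, conj_ofReal]
    ring
  exact AT2b (k := k) (q := q) (G := fun α => Z α + cexp (-(2 * α * k : ℝ) * I) * conj (Z α)) key α

/-- **the shifted moments determine all test functions** -/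
theorem full_lim {G : ℝ → ℂ}
    (hG : ∀ α : ℝ, Tendsto (fun T => Cor (zk k) (α / Real.log T) T / (NN q T : ℂ)) atTop (𝓝 (G α)))
    {ξ : ℝ} {f : ℝ → ℂ} (hf : TF ξ f) :
    Tendsto (fun T => Sg (Fh k T⁻¹) (Real.log T) f / (NN q T : ℂ)) atTop
      (𝓝 (√Real.pi * ∫ y, KL f 1 y * G (y / 2))) := by
  have hR := AT2a (k := k) (q := q) hG
  have hM : Tendsto (fun T => M (zk k) T / NN q T) atTop (𝓝 (G 0).re) := by
    have h2 := (Complex.continuous_re.tendsto _).comp (hG 0)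
    refine h2.congr fun T => ?_
    simp only [Function.comp, zero_div]
    rw [Cor_zero, ← Complex.ofReal_div, Complex.ofReal_re]
  have hm := up_of_ratio ((AT1 k q _).1 hM)
  set C : ℝ := |√Real.pi * (G 0).re| + 1 with hC
  have hlim : Tendsto (fun T => ∫ y, KL f 1 y * (Rs (Fh k T⁻¹) (y / 2 / Real.log T) /
      (NN q T : ℂ))) atTop (𝓝 (∫ y, KL f 1 y * (√Real.pi * G (y / 2)))) := by
    refine tendsto_integral_filter_of_dominated_convergence (fun y => ‖KL f 1 y‖ * C) ?_ ?_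
      ((KL_int hf one_pos).norm.mul_const C) ?_
    · filter_upwards [eventually_ge_atTop 1] with T hT
      have hF := Fh_dec k (h := T⁻¹) (by positivity)
      have := Rs_cont hF
      have h2 := KL_cont hf 1
      refine Continuous.aestronglyMeasurable ?_
      exact h2.mul ((this.comp (by fun_prop)).div_const _)
    · filter_upwards [hm, eventually_gt_atTop 1] with T hT1 hT
      have hF := Fh_dec k (h := T⁻¹) (by positivity)
      have hN := NN_pos q hT
      refine Eventually.of_forall fun y => ?_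
      rw [norm_mul, norm_div, Complex.norm_real, Real.norm_of_nonneg hN.le]
      refine mul_le_mul_of_nonneg_left ?_ (norm_nonneg _)
      rw [div_le_iff₀ hN]
      exact (Rs_le hF _).trans hT1
    · exact Eventually.of_forall fun y => (hR (y / 2)).const_mul _
  have e0 : ∫ y, KL f 1 y * (√Real.pi * G (y / 2)) = √Real.pi * ∫ y, KL f 1 y * G (y / 2) := by
    rw [← integral_const_mul]
    refine integral_congr_ae (Eventually.of_forall fun y => ?_)
    simp only
    ring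
  rw [e0] at hlim
  refine hlim.congr' ?_
  filter_upwards [eventually_gt_atTop 1] with T hT
  have hF := Fh_dec k (h := T⁻¹) (by positivity)
  rw [Sg_Rs hf hF (Real.log_pos hT), ← integral_div]
  refine integral_congr_ae (Eventually.of_forall fun y => ?_)
  simp only
  rw [div_div y 2, mul_div_assoc]

end

end Pool.Agent.J4.H32.VS
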