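import Pool.Agent.J4.H32.VS.Tg
import Pool.Agent.J4.H44.LP.Rm

set_option autoImplicit false

/-! The matrix side over the half range. -/

namespace Pool.Agent.J4.H32.VS

open Complex MeasureTheory Filter Topology Set Metric Pool.Agent.TH535.SM Pool.Agent.R446.KR
open Pool.Agent.J4.H44.LP
open Pool.Agent.J4.H44.OL (Cr Cr_int Rs Rs_int Cr_eq)
open Pool.Agent.W182.KO (TF)
open scoped FourierTransform ComplexConjugate ContDiff Matrix

noncomputable section

variable {q k : ℕ} {c ξ1 : ℝ}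

lemma det_fe {N : ℕ} (U : Matrix (Fin N) (Fin N) ℂ) (hU : U * Uᴴ = 1) (hU' : Uᴴ * U = 1) {x y : ℂ}
    (hxy : x * y = 1) (k : ℕ) : (1 - x • U).det ^ k * (1 - x • Uᴴ).det ^ k =
      x ^ (2 * N * k) * ((1 - y • U).det ^ k * (1 - y • Uᴴ).det ^ k) := by
  have h1 : (1 - x • U) = ((-x) • U) * (1 - y • Uᴴ) := by
    rw [mul_sub, mul_one, Matrix.smul_mul, Matrix.mul_smul, hU, smul_smul]
    rw [neg_mul, hxy, neg_smul, neg_smul, one_smul]
    abel
  have h2 : (1 - x • Uᴴ) = ((-x) • Uᴴ) * (1 - y • U) := by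
    rw [mul_sub, mul_one, Matrix.smul_mul, Matrix.mul_smul, hU', smul_smul]
    rw [neg_mul, hxy, neg_smul, neg_smul, one_smul]
    abel
  have h3 : U.det * (Uᴴ).det = 1 := by rw [← Matrix.det_mul, hU, Matrix.det_one]
  rw [h1, h2, Matrix.det_mul, Matrix.det_mul, Matrix.det_smul, Matrix.det_smul, Fintype.card_fin]
  have h4 : ((-x) ^ N * U.det * ((1 - y • Uᴴ).det)) ^ k * ((-x) ^ N * (Uᴴ).det * ((1 - y • U).det)) ^ k =
      (((-x) ^ N) ^ 2 * (U.det * (Uᴴ).det)) ^ k * ((1 - y • U).det ^ k * (1 - y • Uᴴ).det ^ k) := by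
    rw [← mul_pow, ← mul_pow, ← mul_pow]
    congr 1
    ring
  rw [h4, h3, mul_one]
  congr 1
  rw [← pow_mul, ← pow_mul, neg_pow, mul_assoc, mul_comm N (2 * k), mul_assoc 2 k N, mul_comm k N,
    pow_mul (-1 : ℂ) 2]
  simp

lemma Wk_neg (k : ℕ) (α : ℝ) {N : ℕ} (hN : 1 ≤ N) :
    Wk k α N = cexp (-(2 * α * k : ℝ) * I) * Wk k (-α) N := by
  have hN0 : (0:ℝ) < N := by exact_mod_cast hN
  have hNc : (N : ℂ) ≠ 0 := by exact_mod_cast hN0.ne'
  unfold Wk
  rw [mul_left_comm]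
  congr 1
  rw [← integral_const_mul]
  refine integral_congr_ae (Eventually.of_forall fun U => ?_)
  simp only
  have hU : (U : Matrix (Fin N) (Fin N) ℂ) * (U : Matrix (Fin N) (Fin N) ℂ)ᴴ = 1 :=
    (Matrix.mem_unitaryGroup_iff.1 U.2)
  have hU' : (U : Matrix (Fin N) (Fin N) ℂ)ᴴ * (U : Matrix (Fin N) (Fin N) ℂ) = 1 :=
    (Matrix.mem_unitaryGroup_iff'.1 U.2)
  have hxy : cexp (-(I * α / N)) * cexp (-(I * ((-α : ℝ) : ℂ) / N)) = 1 := by
    rw [← Complex.exp_add, ← Complex.exp_zero]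
    congr 1
    push_cast; ring
  rw [det_fe _ hU hU' hxy k, ← Complex.exp_nat_mul]
  congr 2
  push_cast
  field_simp

lemma Wk_conj (k : ℕ) (α : ℝ) {N : ℕ} (hN : 1 ≤ N) : conj (Wk k α N) = Wk k (-α) N := by
  rw [Wk_eq k α hN, Wk_eq k (-α) hN, map_sum]
  refine Finset.sum_congr rfl fun m _ => ?_
  rw [map_mul, conj_ofReal, ← Complex.exp_conj]
  simp only [map_mul, map_neg, conj_ofReal, conj_I]
  congr 2
  push_cast; ring

/-- the linear functional on the matrix side -/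
def Vl (k : ℕ) (f : ℝ → ℂ) (N : ℕ) : ℂ := ∑ m ∈ Finset.range (k * N + 1), f (m / N) * (Pool.Agent.J4.H44.LP.mu k N m : ℂ)

lemma Vl_int (k : ℕ) {f : ℝ → ℂ} (hs : TF ξ1 f) {N : ℕ} (hN : 1 ≤ N) :
    Vl k f N = ∫ y, KL f 1 y * Wk k (y / 2) N := by
  have hK := KL_int hs one_pos
  have e : (fun y => KL f 1 y * Wk k (y / 2) N) = fun y => ∑ m ∈ Finset.range (k * N + 1),
      (Pool.Agent.J4.H44.LP.mu k N m : ℂ) * (KL f 1 y * cexp (-((m / N : ℝ) * (1:ℝ) * y) * I)) := by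
    funext y
    rw [Wk_eq k _ hN, Finset.mul_sum]
    refine Finset.sum_congr rfl fun m _ => ?_
    rw [mul_left_comm]
    congr 3
    push_cast
    ring
  have hi : ∀ m : ℕ, Integrable (fun y : ℝ => KL f 1 y * cexp (-((m / N : ℝ) * (1:ℝ) * y) * I)) := fun m => by
    refine hK.norm.mono' ?_ (Eventually.of_forall fun y => ?_)
    · have := KL_cont hs 1
      refine Continuous.aestronglyMeasurable ?_
      fun_prop
    · have e2 : cexp (-((m / N : ℝ) * (1:ℝ) * y) * I) = cexp (((-(m / N * 1 * y) : ℝ) : ℂ) * I) := by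
        push_cast; ring_nf
      rw [norm_mul, e2, Complex.norm_exp_ofReal_mul_I, mul_one]
  rw [e, integral_finsetSum _ fun m _ => (hi m).const_mul _]
  unfold Vl
  refine Finset.sum_congr rfl fun m _ => ?_
  rw [integral_const_mul]
  have h3 := KL_symbol hs one_pos (m / N : ℝ)
  push_cast at h3 ⊢
  rw [h3]
  ring

lemma Vl_refl (k : ℕ) {f : ℝ → ℂ} (hf : TF ξ1 f) {N : ℕ} (hN : 1 ≤ N) :
    Vl k (Pool.Agent.J4.H44.LP.refl k f) N = conj (Vl k f N) := by
  obtain ⟨ξ', hξ', hf'⟩ := refl_TF hf k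
  rw [Vl_int k hf hN, Vl_int k hf' hN, ← integral_conj]
  refine integral_congr_ae (Eventually.of_forall fun y => ?_)
  simp only
  rw [KL_refl hf k 1 y, mul_one, map_mul, Wk_conj k _ hN, Wk_neg k (y / 2) hN]
  have e : cexp ((k * y : ℝ) * I) * cexp (-(2 * (y / 2) * k : ℝ) * I) = 1 := by
    rw [← Complex.exp_add, ← Complex.exp_zero]
    congr 1
    push_cast; ring
  calc cexp ((k * y : ℝ) * I) * conj (KL f 1 y) * (cexp (-(2 * (y / 2) * k : ℝ) * I) * Wk k (-(y / 2)) N) =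
        (cexp ((k * y : ℝ) * I) * cexp (-(2 * (y / 2) * k : ℝ) * I)) *
          (conj (KL f 1 y) * Wk k (-(y / 2)) N) := by ring
    _ = _ := by rw [e, one_mul]

/-- **the half range on the matrix side** -/
lemma Wk_half {B : ℝ} {g : ℝ → ℝ} (h : HR k B g) (α : ℝ) {N : ℕ} (hN : 1 ≤ N) :
    Wk k α N = Vl k (ge k g α) N + cexp (-(2 * α * k : ℝ) * I) * conj (Vl k (ge k g α) N) := by
  obtain ⟨ξ, hξ, hT⟩ := ge_TF h α
  have hN0 : (0:ℝ) < N := by exact_mod_cast hN
  rw [← Vl_refl k hT hN, Wk_eq k α hN]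
  unfold Vl
  rw [Finset.mul_sum, ← Finset.sum_add_distrib]
  refine Finset.sum_congr rfl fun m hm => ?_
  have hm1 : m ≤ k * N := by have := Finset.mem_range.1 hm; omega
  have hm2 : (m : ℝ) / N ≤ k := by
    rw [div_le_iff₀ hN0]; exact_mod_cast hm1
  have hm3 : (0:ℝ) ≤ (m : ℝ) / N := by positivity
  have hc : cut k (m / N) = 1 := cut_one (by linarith) (by linarith)
  have h1 := ge_dec h α (m / N)
  rw [hc, Complex.ofReal_one, mul_one] at h1
  rw [h1]
  ring

/-- the dominated convergence on the matrix side -/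
lemma Vl_lim (k : ℕ) {f : ℝ → ℂ} (hs : TF ξ1 f) {w : ℝ → ℂ}
    (hw : ∀ α : ℝ, Tendsto (fun N => Wk k α N) atTop (𝓝 (w α))) :
    Tendsto (fun N => Vl k f N) atTop (𝓝 (∫ y, KL f 1 y * w (y / 2))) := by
  have hK := KL_int hs one_pos
  have hb := (hw 0).norm.eventually_le_const (show ‖w 0‖ < ‖w 0‖ + 1 by linarith)
  have hlim : Tendsto (fun N : ℕ => ∫ y, KL f 1 y * Wk k (y / 2) N) atTop
      (𝓝 (∫ y, KL f 1 y * w (y / 2))) := by
    refine tendsto_integral_filter_of_dominated_convergence (fun y => ‖KL f 1 y‖ * (‖w 0‖ + 1)) ?_ ?_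
      (hK.norm.mul_const _) ?_
    · filter_upwards [eventually_ge_atTop 1] with N hN
      have h2 := KL_cont hs 1
      have h3 : Continuous (fun y : ℝ => Wk k (y / 2) N) := by
        have e : (fun y : ℝ => Wk k (y / 2) N) = fun y : ℝ => ∑ m ∈ Finset.range (k * N + 1),
            (Pool.Agent.J4.H44.LP.mu k N m : ℂ) * cexp (-(2 * (y / 2) * (m / N : ℝ) : ℝ) * I) := by
          funext y
          rw [Wk_eq k _ hN]
        rw [e]
        fun_prop
      exact (h2.mul h3).aestronglyMeasurable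
    · filter_upwards [hb, eventually_ge_atTop 1] with N h1 h2
      refine Eventually.of_forall fun y => ?_
      rw [norm_mul]
      exact mul_le_mul_of_nonneg_left ((Wk_le k _ h2).trans h1) (norm_nonneg _)
    · exact Eventually.of_forall fun y => (hw (y / 2)).const_mul _
  refine hlim.congr' ?_
  filter_upwards [eventually_ge_atTop 1] with N hN
  rw [Vl_int k hs hN]

end

end Pool.Agent.J4.H32.VS
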