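import Pool.Agent.J4.H32.VS.Pq
import Pool.Agent.J4.H44.LP.Sv

set_option autoImplicit false

/-! Spectral tails of the weighted function. -/

namespace Pool.Agent.J4.H32.VS

open Complex MeasureTheory Filter Topology Set Metric Pool.Agent.TH535.SM Pool.Agent.R446.KR
open Pool.Agent.J4.H44.LP
open Pool.Agent.J4.H44.OL (Cr Cr_int Rs Rs_int Cr_eq)
open scoped FourierTransform ComplexConjugate

noncomputable section

variable {z : ℝ → ℂ} {G : ℂ → ℂ} {u K : ℕ}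

/-- the Gaussian companion in the strip -/
def Gw (G : ℂ → ℂ) (T : ℝ) (s : ℂ) : ℂ := cexp (((T⁻¹ : ℝ) : ℂ) ^ 2 * (s - 1 / 2) ^ 2 / 2) * G s

/-- its restriction to lines -/
def Gr (G : ℂ → ℂ) (T r t : ℝ) : ℂ := Gw G T (((1 / 2 + r : ℝ) : ℂ) + t * I)

lemma gw_norm (T : ℝ) (s : ℂ) : ‖cexp (((T⁻¹ : ℝ) : ℂ) ^ 2 * (s - 1 / 2) ^ 2 / 2)‖ =
    Real.exp (T⁻¹ ^ 2 * ((s.re - 1 / 2) ^ 2 - s.im ^ 2) / 2) := by
  have h := Ex_norm T⁻¹ 0 s
  unfold Ex at h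
  simp only [Complex.ofReal_zero, zero_mul, add_zero] at h
  exact h

lemma gw_le {T : ℝ} (hT : 1 ≤ T) {s : ℂ} (h1 : 1 / 2 - (u : ℝ) ≤ s.re) (h2 : s.re ≤ 1 / 2 + u) :
    ‖cexp (((T⁻¹ : ℝ) : ℂ) ^ 2 * (s - 1 / 2) ^ 2 / 2)‖ ≤
      Real.exp ((u:ℝ) ^ 2 / 2) * Real.exp (-(T⁻¹ ^ 2 / 2 * s.im ^ 2)) := by
  rw [gw_norm, ← Real.exp_add]
  refine Real.exp_le_exp.2 ?_
  have h3 : (s.re - 1 / 2) ^ 2 ≤ (u:ℝ) ^ 2 := by
    have : |s.re - 1 / 2| ≤ u := abs_le.2 ⟨by linarith, by linarith⟩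
    rw [← sq_abs (s.re - 1 / 2)]
    gcongr
  have h4 : T⁻¹ ^ 2 ≤ 1 := pow_le_one₀ (by positivity) (inv_le_one_of_one_le₀ hT)
  have h5 : T⁻¹ ^ 2 * (s.re - 1 / 2) ^ 2 ≤ 1 * (u:ℝ) ^ 2 := by gcongr
  nlinarith

lemma Gw_bd (hG : PG G u) {T : ℝ} (hT : 1 ≤ T) : ∃ B : ℝ, 0 ≤ B ∧ ∀ s : ℂ,
    1 / 2 - (u : ℝ) ≤ s.re → s.re ≤ 1 / 2 + u → ‖Gw G T s‖ ≤ B / (1 + |s.im|) ^ 2 := by
  obtain ⟨C, M, hC, hb⟩ := hG.bd
  obtain ⟨B, hB, hg⟩ := poly_gauss (M + 2) (c := T⁻¹ ^ 2 / 2) (by positivity)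
  refine ⟨Real.exp ((u:ℝ) ^ 2 / 2) * C * B, by positivity, fun s h1 h2 => ?_⟩
  have hp : 0 < (1 + |s.im|) ^ 2 := by positivity
  have h3 := gw_le hT h1 h2
  have h4 := hb s h1 h2
  have h5 := hg s.im
  unfold Gw
  rw [norm_mul, le_div_iff₀ hp]
  calc _ ≤ (Real.exp ((u:ℝ) ^ 2 / 2) * Real.exp (-(T⁻¹ ^ 2 / 2 * s.im ^ 2))) * (C * (1 + |s.im|) ^ M) *
        (1 + |s.im|) ^ 2 := by gcongr
    _ = Real.exp ((u:ℝ) ^ 2 / 2) * C * ((1 + |s.im|) ^ (M + 2) * Real.exp (-(T⁻¹ ^ 2 / 2 * s.im ^ 2))) := by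
        rw [pow_add]; ring
    _ ≤ _ := by gcongr

lemma Gw_diff (hG : PG G u) (T : ℝ) {s : ℂ} (h1 : 1 / 2 - (u : ℝ) ≤ s.re) (h2 : s.re ≤ 1 / 2 + u) :
    DifferentiableAt ℂ (Gw G T) s := by
  unfold Gw
  exact DifferentiableAt.mul (by fun_prop) (hG.diff s h1 h2)

lemma Gr_dec (hG : PG G u) {T : ℝ} (hT : 1 ≤ T) {r : ℝ} (h1 : -(u:ℝ) ≤ r) (h2 : r ≤ u) : Dec (Gr G T r) := by
  have hre : ∀ t : ℝ, (((1 / 2 + r : ℝ) : ℂ) + t * I).re = 1 / 2 + r := fun t => by simp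
  have him : ∀ t : ℝ, (((1 / 2 + r : ℝ) : ℂ) + t * I).im = t := fun t => by simp
  refine ⟨?_, ?_⟩
  · rw [continuous_iff_continuousAt]
    intro t
    have hd : ContinuousAt (Gw G T) (((1 / 2 + r : ℝ) : ℂ) + t * I) :=
      (Gw_diff hG T (by rw [hre]; linarith) (by rw [hre]; linarith)).continuousAt
    exact ContinuousAt.comp (f := fun t : ℝ => (((1 / 2 + r : ℝ) : ℂ) + t * I)) hd (by fun_prop)
  · obtain ⟨B, hB, hb⟩ := Gw_bd hG hT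
    refine ⟨B, hB, fun t => ?_⟩
    have := hb (((1 / 2 + r : ℝ) : ℂ) + t * I) (by rw [hre]; linarith) (by rw [hre]; linarith)
    rwa [him, div_eq_mul_inv] at this

lemma Gr_shift (hG : PG G u) {T : ℝ} (hT : 1 ≤ T) {r1 r2 : ℝ}
    (h1 : -(u:ℝ) ≤ r1) (h12 : r1 ≤ r2) (h2 : r2 ≤ u) (w : ℝ) :
    cexp (-(2 * Real.pi * w * r1 : ℝ)) * 𝓕 (Gr G T r1) w =
      cexp (-(2 * Real.pi * w * r2 : ℝ)) * 𝓕 (Gr G T r2) w := by
  obtain ⟨B, hB, hb⟩ := Gw_bd hG hT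
  set f : ℂ → ℂ := fun s => cexp (-(2 * Real.pi * w * (s - 1 / 2))) * Gw G T s with hf
  have hline : ∀ r : ℝ, ∫ y : ℝ, f (((1 / 2 + r : ℝ) : ℂ) + y * I) =
      cexp (-(2 * Real.pi * w * r : ℝ)) * 𝓕 (Gr G T r) w := by
    intro r
    rw [ft_eq, ← integral_const_mul]
    refine integral_congr_ae (Eventually.of_forall fun y => ?_)
    simp only [hf, Gr]
    have e : cexp (-(2 * Real.pi * w * ((((1 / 2 + r : ℝ) : ℂ) + y * I) - 1 / 2))) =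
        cexp (-(2 * Real.pi * w * r : ℝ)) * cexp (-(2 * Real.pi * w * y * I)) := by
      rw [← Complex.exp_add]
      congr 1
      push_cast
      ring
    rw [e]
    ring
  rw [← hline, ← hline]
  refine W182.KO.strip_shift (B := Real.exp (2 * Real.pi * |w| * u) * B) (by linarith)
    (by positivity) ?_ ?_
  · intro s a b
    exact DifferentiableAt.mul (by fun_prop) (Gw_diff hG T (by linarith) (by linarith))
  · intro s a b
    have h3 := hb s (by linarith) (by linarith)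
    rw [hf]
    simp only
    have h7 : ‖cexp (-(2 * (Real.pi:ℂ) * w * (s - 1 / 2)))‖ ≤ Real.exp (2 * Real.pi * |w| * u) := by
      rw [Complex.norm_exp]
      refine Real.exp_le_exp.2 ?_
      have e1 : (-(2 * (Real.pi:ℂ) * w * (s - 1 / 2))).re = -(2 * Real.pi * w * (s.re - 1 / 2)) := by
        have : (-(2 * (Real.pi:ℂ) * w * (s - 1 / 2))) = ((-(2 * Real.pi * w) : ℝ) : ℂ) * (s - 1 / 2) := by
          push_cast; ring
        rw [this, Complex.re_ofReal_mul]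
        simp
      rw [e1]
      have h4 : |s.re - 1 / 2| ≤ u := abs_le.2 ⟨by linarith, by linarith⟩
      have h5 : |w * (s.re - 1 / 2)| ≤ |w| * u := by
        rw [abs_mul]; gcongr
      have h6 := neg_abs_le (w * (s.re - 1 / 2))
      have hp := Real.pi_pos
      nlinarith [mul_le_mul_of_nonneg_left h5 hp.le, mul_le_mul_of_nonneg_left h6 hp.le]
    calc ‖cexp (-(2 * (Real.pi:ℂ) * w * (s - 1 / 2))) * Gw G T s‖ =
          ‖cexp (-(2 * (Real.pi:ℂ) * w * (s - 1 / 2)))‖ * ‖Gw G T s‖ := norm_mul _ _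
      _ ≤ Real.exp (2 * Real.pi * |w| * u) * (B / (1 + |s.im|) ^ 2) :=
          mul_le_mul h7 h3 (norm_nonneg _) (Real.exp_pos _).le
      _ = _ := by ring

lemma gp_all (p : ℕ) : Integrable (fun x : ℝ => (1 + |x|) ^ p * Real.exp (-x ^ 2)) := by
  obtain ⟨B, hB, hb⟩ := poly_gauss p (c := 1 / 2) (by norm_num)
  have h1 : Integrable (fun x : ℝ => B * Real.exp (-(1 / 2) * x ^ 2)) :=
    (integrable_exp_neg_mul_sq (by norm_num)).const_mul B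
  refine h1.mono' (by fun_prop : Continuous _).aestronglyMeasurable (Eventually.of_forall fun x => ?_)
  rw [Real.norm_of_nonneg (by positivity)]
  have h2 := hb x
  have e : Real.exp (-x ^ 2) = Real.exp (-(1 / 2 * x ^ 2)) * Real.exp (-(1 / 2) * x ^ 2) := by
    rw [← Real.exp_add]; congr 1; ring
  rw [e, ← mul_assoc]
  exact mul_le_mul_of_nonneg_right h2 (Real.exp_pos _).le

lemma gauss_poly_T (p : ℕ) : ∃ C : ℝ, 0 ≤ C ∧ ∀ T : ℝ, 1 ≤ T →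
    Integrable (fun t : ℝ => (1 + |t|) ^ p * Real.exp (-(T⁻¹ ^ 2 * t ^ 2))) ∧
    ∫ t : ℝ, (1 + |t|) ^ p * Real.exp (-(T⁻¹ ^ 2 * t ^ 2)) ≤ C * T ^ (p + 1) := by
  refine ⟨∫ x : ℝ, (1 + |x|) ^ p * Real.exp (-x ^ 2), integral_nonneg fun x => by positivity, fun T hT => ?_⟩
  have hT0 : 0 < T := by linarith
  have h1 := (gp_all p).comp_div hT0.ne'
  have hle : ∀ t : ℝ, (1 + |t|) ^ p * Real.exp (-(T⁻¹ ^ 2 * t ^ 2)) ≤
      T ^ p * ((1 + |t / T|) ^ p * Real.exp (-(t / T) ^ 2)) := by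
    intro t
    have e : -(T⁻¹ ^ 2 * t ^ 2) = -(t / T) ^ 2 := by field_simp
    have h2 : 1 + |t| ≤ T * (1 + |t / T|) := by
      rw [abs_div, abs_of_pos hT0]
      field_simp
      linarith
    rw [e, ← mul_assoc, ← mul_pow]
    gcongr
  have i1 : Integrable (fun t : ℝ => (1 + |t|) ^ p * Real.exp (-(T⁻¹ ^ 2 * t ^ 2))) := by
    refine (h1.const_mul (T ^ p)).mono' (by fun_prop : Continuous _).aestronglyMeasurable
      (Eventually.of_forall fun t => ?_)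
    rw [Real.norm_of_nonneg (by positivity)]
    exact hle t
  refine ⟨i1, ?_⟩
  calc _ ≤ ∫ t : ℝ, T ^ p * ((1 + |t / T|) ^ p * Real.exp (-(t / T) ^ 2)) :=
        integral_mono i1 (h1.const_mul (T ^ p)) hle
    _ = T ^ p * (T * ∫ x : ℝ, (1 + |x|) ^ p * Real.exp (-x ^ 2)) := by
        rw [integral_const_mul, Measure.integral_comp_div (fun x : ℝ => (1 + |x|) ^ p * Real.exp (-x ^ 2)) T,
          abs_of_pos hT0, smul_eq_mul]
    _ = _ := by ring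

lemma Gr_sq (p : ℕ) : ∃ C0 : ℝ, 0 ≤ C0 ∧ ∀ (G : ℂ → ℂ) (u : ℕ), PG G u → ∀ T : ℝ, 1 ≤ T → ∀ r : ℝ,
    -(u:ℝ) ≤ r → r ≤ u → ∀ C : ℝ, 0 ≤ C →
    (∀ t : ℝ, ‖G (((1 / 2 + r : ℝ) : ℂ) + t * I)‖ ≤ C * (1 + |t|) ^ p) →
    ∫ t, ‖Gr G T r t‖ ^ 2 ≤ C0 * Real.exp ((u:ℝ) ^ 2) * C ^ 2 * T ^ (2 * p + 1) := by
  obtain ⟨C0, hC0, hg⟩ := gauss_poly_T (2 * p)
  refine ⟨C0, hC0, fun G u hG T hT r h1 h2 C hC hb => ?_⟩
  obtain ⟨i1, i2⟩ := hg T hT
  have hre : ∀ t : ℝ, (((1 / 2 + r : ℝ) : ℂ) + t * I).re = 1 / 2 + r := fun t => by simp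
  have him : ∀ t : ℝ, (((1 / 2 + r : ℝ) : ℂ) + t * I).im = t := fun t => by simp
  have hle : ∀ t, ‖Gr G T r t‖ ^ 2 ≤ Real.exp ((u:ℝ) ^ 2) * C ^ 2 *
      ((1 + |t|) ^ (2 * p) * Real.exp (-(T⁻¹ ^ 2 * t ^ 2))) := by
    intro t
    unfold Gr Gw
    have h3 := gw_le (u := u) hT (s := ((1 / 2 + r : ℝ) : ℂ) + t * I) (by rw [hre]; linarith) (by rw [hre]; linarith)
    rw [him] at h3
    have e1 : (Real.exp ((u:ℝ) ^ 2 / 2)) ^ 2 = Real.exp ((u:ℝ) ^ 2) := by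
      rw [← Real.exp_nat_mul]; congr 1; push_cast; ring
    have e2 : (Real.exp (-(T⁻¹ ^ 2 / 2 * t ^ 2))) ^ 2 = Real.exp (-(T⁻¹ ^ 2 * t ^ 2)) := by
      rw [← Real.exp_nat_mul]; congr 1; push_cast; ring
    rw [norm_mul]
    calc _ ≤ ((Real.exp ((u:ℝ) ^ 2 / 2) * Real.exp (-(T⁻¹ ^ 2 / 2 * t ^ 2))) * (C * (1 + |t|) ^ p)) ^ 2 := by
          gcongr; exact hb t
      _ = (Real.exp ((u:ℝ) ^ 2 / 2)) ^ 2 * C ^ 2 * (((1 + |t|) ^ p) ^ 2 * (Real.exp (-(T⁻¹ ^ 2 / 2 * t ^ 2))) ^ 2) := by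
          ring
      _ = _ := by rw [e1, e2, ← pow_mul, mul_comm p 2]
  calc _ ≤ ∫ t, Real.exp ((u:ℝ) ^ 2) * C ^ 2 * ((1 + |t|) ^ (2 * p) * Real.exp (-(T⁻¹ ^ 2 * t ^ 2))) :=
        integral_mono (Gr_dec hG hT h1 h2).sq (i1.const_mul _) hle
    _ = Real.exp ((u:ℝ) ^ 2) * C ^ 2 * ∫ t, (1 + |t|) ^ (2 * p) * Real.exp (-(T⁻¹ ^ 2 * t ^ 2)) :=
        integral_const_mul _ _
    _ ≤ Real.exp ((u:ℝ) ^ 2) * C ^ 2 * (C0 * T ^ (2 * p + 1)) := by gcongr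
    _ = _ := by ring

lemma Gr_out (D : Dat z G u K) {δ : ℝ} (hδ : 0 < δ) (hu : 1 ≤ δ * u) : ∃ C : ℝ, 0 ≤ C ∧
    ∀ T : ℝ, 1 ≤ T → ms (Gr G T 0) (Ici (δ * Real.log T / (2 * Real.pi))) ≤ C ∧
      ms (Gr G T 0) (Iic (-((K + δ) * Real.log T / (2 * Real.pi)))) ≤ C := by
  obtain ⟨C1, hC1, hb1⟩ := D.rt
  obtain ⟨C2, hC2, hb2⟩ := D.lt
  obtain ⟨A1, hA1, hs1⟩ := Gr_sq 0
  obtain ⟨A2, hA2, hs2⟩ := Gr_sq (u * K)
  have hu0 : (0:ℝ) ≤ u := Nat.cast_nonneg u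
  have hpi := Real.pi_pos
  refine ⟨max (A1 * Real.exp ((u:ℝ) ^ 2) * C1 ^ 2) (A2 * Real.exp ((u:ℝ) ^ 2) * C2 ^ 2),
    le_max_of_le_left (by positivity), fun T hT => ?_⟩
  have hT0 : 0 < T := by linarith
  have hL : 0 ≤ Real.log T := Real.log_nonneg hT
  have h0 := Gr_dec D.pg hT (r := 0) (by linarith) (by linarith)
  constructor
  · refine le_trans ?_ (le_max_left _ _)
    have hr := Gr_dec D.pg hT (r := u) (by linarith) le_rfl
    have h1 := ms_le_of_shift h0 hr (u := u) (fun w => by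
      have := Gr_shift D.pg hT (r1 := 0) (r2 := u) (by linarith) hu0 le_rfl w
      simpa using this) (A := Ici (δ * Real.log T / (2 * Real.pi))) measurableSet_Ici
      (E := -(2 * (δ * u)) * Real.log T) (fun w hw => by
        have h2 : δ * Real.log T / (2 * Real.pi) ≤ w := hw
        rw [div_le_iff₀ (by positivity)] at h2
        nlinarith [mul_le_mul_of_nonneg_right h2 hu0])
    have h2 := hs1 G u D.pg T hT u (by linarith) le_rfl C1 (by linarith) (by simpa using hb1)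
    have h3 : Real.exp (-(2 * (δ * u)) * Real.log T) * T ≤ 1 := by
      nth_rewrite 2 [← Real.exp_log hT0]
      rw [← Real.exp_add, Real.exp_le_one_iff]
      nlinarith
    have hE := Real.exp_pos (-(2 * (δ * u)) * Real.log T)
    calc _ ≤ Real.exp (-(2 * (δ * u)) * Real.log T) * ∫ t, ‖Gr G T u t‖ ^ 2 := h1
      _ ≤ Real.exp (-(2 * (δ * u)) * Real.log T) * (A1 * Real.exp ((u:ℝ) ^ 2) * C1 ^ 2 * T ^ (2 * 0 + 1)) := by
          gcongr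
      _ = (A1 * Real.exp ((u:ℝ) ^ 2) * C1 ^ 2) * (Real.exp (-(2 * (δ * u)) * Real.log T) * T) := by ring
      _ ≤ (A1 * Real.exp ((u:ℝ) ^ 2) * C1 ^ 2) * 1 := by gcongr
      _ = _ := mul_one _
  · refine le_trans ?_ (le_max_right _ _)
    have hr := Gr_dec D.pg hT (r := -u) le_rfl (by linarith)
    have h1 := ms_le_of_shift h0 hr (u := -u) (fun w => by
      have := Gr_shift D.pg hT (r1 := -u) (r2 := 0) le_rfl (by linarith) hu0 w
      rw [eq_comm] at this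
      simpa using this) (A := Iic (-((K + δ) * Real.log T / (2 * Real.pi)))) measurableSet_Iic
      (E := -(2 * ((K + δ) * u)) * Real.log T) (fun w hw => by
        have h2 : w ≤ -((K + δ) * Real.log T / (2 * Real.pi)) := hw
        have h3 : (K + δ) * Real.log T / (2 * Real.pi) ≤ -w := by linarith
        rw [div_le_iff₀ (by positivity)] at h3
        nlinarith [mul_le_mul_of_nonneg_right h3 hu0])
    have h2 := hs2 G u D.pg T hT (-u) le_rfl (by linarith) C2 (by linarith) (by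
      intro t
      have := hb2 t
      rwa [sub_eq_add_neg] at this)
    have h3 : Real.exp (-(2 * ((K + δ) * u)) * Real.log T) * T ^ (2 * (u * K) + 1) ≤ 1 := by
      have e : T ^ (2 * (u * K) + 1) = Real.exp ((2 * (u * K) + 1 : ℕ) * Real.log T) := by
        rw [Real.exp_nat_mul, Real.exp_log hT0]
      rw [e, ← Real.exp_add, Real.exp_le_one_iff]
      push_cast
      have : -(2 * ((K + δ) * u)) * Real.log T + (2 * ((u:ℝ) * K) + 1) * Real.log T =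
          (1 - 2 * (δ * u)) * Real.log T := by ring
      rw [this]
      exact mul_nonpos_of_nonpos_of_nonneg (by linarith) hL
    have hE := Real.exp_pos (-(2 * ((K + δ) * u)) * Real.log T)
    calc _ ≤ Real.exp (-(2 * ((K + δ) * u)) * Real.log T) * ∫ t, ‖Gr G T (-u) t‖ ^ 2 := h1
      _ ≤ Real.exp (-(2 * ((K + δ) * u)) * Real.log T) *
          (A2 * Real.exp ((u:ℝ) ^ 2) * C2 ^ 2 * T ^ (2 * (u * K) + 1)) := by
          gcongr
      _ = (A2 * Real.exp ((u:ℝ) ^ 2) * C2 ^ 2) *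
          (Real.exp (-(2 * ((K + δ) * u)) * Real.log T) * T ^ (2 * (u * K) + 1)) := by ring
      _ ≤ (A2 * Real.exp ((u:ℝ) ^ 2) * C2 ^ 2) * 1 := by gcongr
      _ = _ := mul_one _

end

end Pool.Agent.J4.H32.VS
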