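import Pool.Agent.J4.H32.VS.Tl

set_option autoImplicit false

/-! Spectral tails of the weighted function and modulus of continuity of the correlations. -/

namespace Pool.Agent.J4.H32.VS

open Complex MeasureTheory Filter Topology Set Metric Pool.Agent.TH535.SM Pool.Agent.R446.KR
open Pool.Agent.J4.H44.LP
open Pool.Agent.J4.H44.OL (Cr Cr_int Rs Rs_int Cr_eq)
open scoped FourierTransform ComplexConjugate

noncomputable section

variable {G : ℂ → ℂ} {u : ℕ}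

lemma Gr_zero (G : ℂ → ℂ) (T t : ℝ) : Gr G T 0 t =
    ((Real.exp (-(T⁻¹ ^ 2 * t ^ 2 / 2)) : ℝ) : ℂ) * G (1 / 2 + t * I) := by
  unfold Gr Gw
  have e : (((1 / 2 + 0 : ℝ) : ℂ) + t * I) = 1 / 2 + t * I := by push_cast; ring
  rw [e, Complex.ofReal_exp]
  congr 2
  push_cast
  linear_combination (((T:ℂ)⁻¹) ^ 2 * t ^ 2 / 2) * I_sq

lemma near (k : ℕ) (D : Dat (zk k) G u k) {η : ℝ} (hη : 0 < η) : ∃ C : ℝ, 0 ≤ C ∧ ∀ T : ℝ, 1 ≤ T →
    ∫ t, ‖Fh k T⁻¹ t - Gr G T 0 t‖ ^ 2 ≤ η * (∫ t, ‖Fh k T⁻¹ t‖ ^ 2) + C := by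
  obtain ⟨C, hC, hcl⟩ := D.cl
  obtain ⟨R, hR⟩ := exists_nat_ge (C ^ 2 / η)
  have hR0 : (0:ℝ) ≤ R := Nat.cast_nonneg R
  rw [div_le_iff₀ hη] at hR
  have hs : Integrable (fun t : ℝ => (Icc (-(R:ℝ)) R).indicator (fun t => C ^ 2 * ‖zk k t‖ ^ 2) t) :=
    (integrable_indicator_iff measurableSet_Icc).2
      ((continuous_const.mul D.sc).continuousOn.integrableOn_Icc)
  refine ⟨∫ t : ℝ, (Icc (-(R:ℝ)) R).indicator (fun t => C ^ 2 * ‖zk k t‖ ^ 2) t,
    integral_nonneg fun t => indicator_nonneg (fun _ _ => by positivity) t, fun T hT => ?_⟩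
  have hTi : 0 < T⁻¹ := by positivity
  have d1 := Fh_dec k hTi
  have d2 := Gr_dec D.pg hT (r := 0) (neg_nonpos.2 (Nat.cast_nonneg u)) (Nat.cast_nonneg u)
  rw [← integral_const_mul, ← integral_add (d1.sq.const_mul η) hs]
  refine integral_mono (d1.sub d2).sq ((d1.sq.const_mul η).add hs) fun t => ?_
  simp only
  have hp : 0 < 1 + |t| := by positivity
  have e : Fh k T⁻¹ t - Gr G T 0 t = ((Real.exp (-(T⁻¹ ^ 2 * t ^ 2 / 2)) : ℝ) : ℂ) *
      (zk k t - G (1 / 2 + t * I)) := by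
    rw [Gr_zero]; unfold Fh; ring
  have h1 : ‖Fh k T⁻¹ t - Gr G T 0 t‖ ^ 2 ≤ C ^ 2 / (1 + |t|) ^ 2 * ‖Fh k T⁻¹ t‖ ^ 2 := by
    have h2 := hcl t
    rw [norm_sub_rev] at h2
    have e2 : ‖Fh k T⁻¹ t‖ = Real.exp (-(T⁻¹ ^ 2 * t ^ 2 / 2)) * ‖zk k t‖ := by
      unfold Fh
      rw [norm_mul, Complex.norm_real, Real.norm_of_nonneg (Real.exp_pos _).le, mul_comm]
    rw [e, norm_mul, Complex.norm_real, Real.norm_of_nonneg (Real.exp_pos _).le, e2]
    calc _ ≤ (Real.exp (-(T⁻¹ ^ 2 * t ^ 2 / 2)) * (C / (1 + |t|) * ‖zk k t‖)) ^ 2 := by gcongr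
      _ = _ := by field_simp
  by_cases ht : t ∈ Icc (-(R:ℝ)) R
  · rw [indicator_of_mem ht]
    have h3 : C ^ 2 / (1 + |t|) ^ 2 ≤ C ^ 2 := by
      refine div_le_self (by positivity) (one_le_pow₀ ?_)
      have := abs_nonneg t; linarith
    have h4 : ‖Fh k T⁻¹ t‖ ^ 2 ≤ ‖zk k t‖ ^ 2 := by
      rw [Fh_norm]
      refine mul_le_of_le_one_right (by positivity) (Real.exp_le_one_iff.2 ?_)
      have : 0 ≤ T⁻¹ ^ 2 * t ^ 2 := by positivity
      linarith
    calc _ ≤ C ^ 2 / (1 + |t|) ^ 2 * ‖Fh k T⁻¹ t‖ ^ 2 := h1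
      _ ≤ C ^ 2 * ‖zk k t‖ ^ 2 := by gcongr
      _ ≤ _ := by
        have : 0 ≤ η * ‖Fh k T⁻¹ t‖ ^ 2 := by positivity
        linarith
  · rw [indicator_of_notMem ht, add_zero]
    have h5 : (R:ℝ) ≤ |t| := by
      by_contra h
      push Not at h
      exact ht (abs_le.1 h.le)
    have h6 : C ^ 2 / (1 + |t|) ^ 2 ≤ η := by
      rw [div_le_iff₀ (by positivity)]
      have : (R:ℝ) ≤ (1 + |t|) ^ 2 := by nlinarith [abs_nonneg t]
      nlinarith
    exact h1.trans (mul_le_mul_of_nonneg_right h6 (by positivity))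

lemma ft_sub {F G : ℝ → ℂ} (hF : Dec F) (hG : Dec G) (w : ℝ) :
    𝓕 (fun t => F t - G t) w = 𝓕 F w - 𝓕 G w := by
  have h := ft_add hF (hG.smul (-1)) w
  rw [ft_smul] at h
  have e : (fun t => F t + -1 * G t) = fun t => F t - G t := by funext t; ring
  rw [e] at h
  rw [h]; ring

lemma ms_near {F G : ℝ → ℂ} (hF : Dec F) (hG : Dec G) {S : Set ℝ} (hS : MeasurableSet S) :
    ms F S ≤ 2 * ms G S + 2 * ∫ t, ‖F t - G t‖ ^ 2 := by
  have hd := hF.sub hG
  have h1 : ms F S ≤ ∫ w in S, (2 * ‖𝓕 G w‖ ^ 2 + 2 * ‖𝓕 (fun t => F t - G t) w‖ ^ 2) := by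
    unfold ms
    refine setIntegral_mono_on (planch hF).1.integrableOn
      (((planch hG).1.integrableOn.const_mul 2).add ((planch hd).1.integrableOn.const_mul 2)) hS fun w _ => ?_
    rw [ft_sub hF hG]
    have h2 : ‖𝓕 F w‖ ≤ ‖𝓕 G w‖ + ‖𝓕 F w - 𝓕 G w‖ := by
      have := norm_add_le (𝓕 G w) (𝓕 F w - 𝓕 G w)
      simpa using this
    nlinarith [norm_nonneg (𝓕 F w), norm_nonneg (𝓕 G w), norm_nonneg (𝓕 F w - 𝓕 G w),
      sq_nonneg (‖𝓕 G w‖ - ‖𝓕 F w - 𝓕 G w‖)]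
  refine h1.trans ?_
  rw [integral_add ((planch hG).1.integrableOn.const_mul 2) ((planch hd).1.integrableOn.const_mul 2),
    integral_const_mul, integral_const_mul]
  unfold ms
  refine add_le_add le_rfl (mul_le_mul_of_nonneg_left ?_ (by norm_num))
  rw [← (planch hd).2]
  exact setIntegral_le_integral (planch hd).1 (Eventually.of_forall fun w => by positivity)

/-- the spectral tails of the weighted function -/
theorem tails (k : ℕ) {δ η : ℝ} (hδ : 0 < δ) (hη : 0 < η) : ∃ C : ℝ, 0 ≤ C ∧ ∀ T : ℝ, 1 ≤ T →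
    ms (Fh k T⁻¹) (Ici (δ * Real.log T / (2 * Real.pi))) ≤ η * (∫ t, ‖Fh k T⁻¹ t‖ ^ 2) + C ∧
    ms (Fh k T⁻¹) (Iic (-((k + δ) * Real.log T / (2 * Real.pi)))) ≤ η * (∫ t, ‖Fh k T⁻¹ t‖ ^ 2) + C := by
  obtain ⟨u, hu⟩ := exists_nat_ge (max 1 (1 / δ))
  have hu1 : 1 ≤ u := by
    have : (1:ℝ) ≤ u := (le_max_left _ _).trans hu
    exact_mod_cast this
  have hu2 : 1 ≤ δ * u := by
    have : 1 / δ ≤ u := (le_max_right _ _).trans hu
    rw [div_le_iff₀ hδ] at this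
    linarith
  have D := zk_dat k hu1
  obtain ⟨C1, hC1, h1⟩ := Gr_out D hδ hu2
  obtain ⟨C2, hC2, h2⟩ := near k D (η := η / 2) (by positivity)
  refine ⟨2 * C1 + 2 * C2, by positivity, fun T hT => ?_⟩
  have d1 := Fh_dec k (h := T⁻¹) (by positivity)
  have d2 := Gr_dec D.pg hT (r := 0) (neg_nonpos.2 (Nat.cast_nonneg u)) (Nat.cast_nonneg u)
  obtain ⟨a1, a2⟩ := h1 T hT
  have a3 := h2 T hT
  constructor
  · have := ms_near d1 d2 (S := Ici (δ * Real.log T / (2 * Real.pi))) measurableSet_Ici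
    linarith
  · have := ms_near d1 d2 (S := Iic (-((k + δ) * Real.log T / (2 * Real.pi)))) measurableSet_Iic
    linarith

lemma exp_lip (x y : ℝ) : ‖cexp (x * I) - cexp (y * I)‖ ≤ |x - y| := by
  have e : cexp (x * I) - cexp (y * I) = cexp (y * I) * (cexp (((x - y : ℝ) : ℂ) * I) - 1) := by
    rw [mul_sub, ← Complex.exp_add, mul_one]
    congr 2
    push_cast; ring
  rw [e, norm_mul, Complex.norm_exp_ofReal_mul_I, one_mul]
  have := Real.norm_exp_I_mul_ofReal_sub_one_le (x := x - y)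
  rw [mul_comm, Real.norm_eq_abs] at this
  exact this

/-- modulus of continuity of the correlation -/
lemma Rs_lip {F : ℝ → ℂ} (hF : Dec F) (a b : ℝ) {W1 W2 : ℝ} (hW1 : 0 ≤ W1) (hW2 : 0 ≤ W2) :
    ‖Rs F a - Rs F b‖ ≤ 4 * Real.pi * |a - b| * max W1 W2 * (∫ t, ‖F t‖ ^ 2) +
      2 * (ms F (Iic (-W1)) + ms F (Ici W2)) := by
  have hp := Real.pi_pos
  have hI := (planch hF).1
  unfold Rs
  rw [← integral_sub (Rs_int hF a) (Rs_int hF b), ← (planch hF).2]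
  have i2 : Integrable (fun w => 4 * Real.pi * |a - b| * max W1 W2 * ‖𝓕 F w‖ ^ 2) := hI.const_mul _
  have i3 : Integrable (fun w => 2 * ((Iic (-W1)).indicator (fun w => ‖𝓕 F w‖ ^ 2) w +
      (Ici W2).indicator (fun w => ‖𝓕 F w‖ ^ 2) w)) :=
    ((hI.indicator measurableSet_Iic).add (hI.indicator measurableSet_Ici)).const_mul 2
  have h1 : ‖∫ w, (cexp ((4 * Real.pi * a * w : ℝ) * I) * ((‖𝓕 F w‖ ^ 2 : ℝ) : ℂ) -
      cexp ((4 * Real.pi * b * w : ℝ) * I) * ((‖𝓕 F w‖ ^ 2 : ℝ) : ℂ))‖ ≤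
      ∫ w, (4 * Real.pi * |a - b| * max W1 W2 * ‖𝓕 F w‖ ^ 2 +
        2 * ((Iic (-W1)).indicator (fun w => ‖𝓕 F w‖ ^ 2) w + (Ici W2).indicator (fun w => ‖𝓕 F w‖ ^ 2) w)) := by
    refine norm_integral_le_of_norm_le (i2.add i3) (Eventually.of_forall fun w => ?_)
    rw [← sub_mul, norm_mul, Complex.norm_real, Real.norm_of_nonneg (by positivity)]
    have e1 := exp_lip (4 * Real.pi * a * w) (4 * Real.pi * b * w)
    have e2 : ‖cexp ((4 * Real.pi * a * w : ℝ) * I) - cexp ((4 * Real.pi * b * w : ℝ) * I)‖ ≤ 2 := by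
      refine (norm_sub_le _ _).trans ?_
      rw [Complex.norm_exp_ofReal_mul_I, Complex.norm_exp_ofReal_mul_I]
      norm_num
    have n0 : 0 ≤ ‖𝓕 F w‖ ^ 2 := by positivity
    have n1 : 0 ≤ (Iic (-W1)).indicator (fun w => ‖𝓕 F w‖ ^ 2) w := indicator_nonneg (fun _ _ => by positivity) w
    have n2 : 0 ≤ (Ici W2).indicator (fun w => ‖𝓕 F w‖ ^ 2) w := indicator_nonneg (fun _ _ => by positivity) w
    have n3 : 0 ≤ 4 * Real.pi * |a - b| * max W1 W2 * ‖𝓕 F w‖ ^ 2 := by positivity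
    by_cases c1 : w ∈ Iic (-W1)
    · rw [indicator_of_mem c1] at n1 ⊢
      nlinarith
    · by_cases c2 : w ∈ Ici W2
      · rw [indicator_of_mem c2] at n2 ⊢
        nlinarith
      · have c3 : |w| ≤ max W1 W2 := by
          rw [mem_Iic, not_le] at c1
          rw [mem_Ici, not_le] at c2
          rw [abs_le]
          constructor
          · have := le_max_left W1 W2; linarith
          · have := le_max_right W1 W2; linarith
        have e3 : |4 * Real.pi * a * w - 4 * Real.pi * b * w| ≤ 4 * Real.pi * |a - b| * max W1 W2 := by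
          rw [show 4 * Real.pi * a * w - 4 * Real.pi * b * w = (4 * Real.pi) * (a - b) * w by ring, abs_mul,
            abs_mul, abs_of_pos (by positivity : 0 < 4 * Real.pi)]
          gcongr
        have := mul_le_mul_of_nonneg_right (e1.trans e3) n0
        linarith
  refine h1.trans (le_of_eq ?_)
  have ia : Integrable (fun w => (Iic (-W1)).indicator (fun w => ‖𝓕 F w‖ ^ 2) w) := hI.indicator measurableSet_Iic
  have ib : Integrable (fun w => (Ici W2).indicator (fun w => ‖𝓕 F w‖ ^ 2) w) := hI.indicator measurableSet_Ici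
  rw [integral_add i2 i3, integral_const_mul, integral_const_mul, integral_add ia ib,
    integral_indicator measurableSet_Iic, integral_indicator measurableSet_Ici]
  rfl

end

end Pool.Agent.J4.H32.VS
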