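import Pool.Agent.J4.H32.VS.Tg

set_option autoImplicit false

/-! The error term of the divisor problem: definitions and crude bounds. -/

namespace Pool.Agent.J4.H32.VS

open Complex MeasureTheory Filter Topology Set Metric Pool.Agent.TH535.SM Pool.Agent.R446.KR
open scoped FourierTransform ComplexConjugate

noncomputable section

/-- the circle -/
def cm (θ : ℝ) : ℂ := circleMap 1 (1 / 4) θ

/-- the weight on the circle -/
def zc (k : ℕ) (θ : ℝ) : ℂ := (2 * Real.pi * I)⁻¹ * (deriv (circleMap 1 (1 / 4)) θ * riemannZeta (cm θ) ^ k)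

/-- the residue functional -/
def RL (k : ℕ) (φ : ℂ → ℂ) : ℂ := (2 * Real.pi * I)⁻¹ * ∮ s in C(1, 1 / 4), riemannZeta s ^ k * φ s

lemma cm_ne (θ : ℝ) : cm θ ≠ 1 := circleMap_ne_center (by norm_num)

lemma cm_cont : Continuous cm := continuous_circleMap _ _

lemma cm_sub (θ : ℝ) : ‖cm θ - 1‖ = 1 / 4 := by
  unfold cm
  rw [circleMap_sub_center, norm_circleMap_zero, abs_of_pos (by norm_num)]

lemma cm_re (θ : ℝ) : 3 / 4 ≤ (cm θ).re ∧ (cm θ).re ≤ 5 / 4 := by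
  have h1 := Complex.abs_re_le_norm (cm θ - 1)
  rw [cm_sub, sub_re, one_re] at h1
  have := abs_le.1 h1
  constructor <;> linarith

lemma cm_im (θ : ℝ) : |(cm θ).im| ≤ 1 / 4 := by
  have h1 := Complex.abs_im_le_norm (cm θ - 1)
  rwa [cm_sub, sub_im, one_im, sub_zero] at h1

lemma cm_ne0 (θ : ℝ) : cm θ ≠ 0 := by
  intro h
  have := (cm_re θ).1
  rw [h] at this
  norm_num at this

lemma zc_cont (k : ℕ) : Continuous (zc k) := by
  unfold zc
  simp only [deriv_circleMap]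
  have h1 : Continuous (fun θ : ℝ => riemannZeta (cm θ)) := by
    rw [continuous_iff_continuousAt]
    intro θ
    exact (differentiableAt_riemannZeta (cm_ne θ)).continuousAt.comp cm_cont.continuousAt
  have h2 : Continuous (circleMap 0 (1 / 4)) := continuous_circleMap _ _
  fun_prop

lemma RL_eq (k : ℕ) (φ : ℂ → ℂ) : RL k φ = ∫ θ in (0:ℝ)..(2 * Real.pi), zc k θ * φ (cm θ) := by
  unfold RL circleIntegral
  rw [← intervalIntegral.integral_const_mul]
  refine intervalIntegral.integral_congr fun θ _ => ?_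
  simp only [smul_eq_mul]
  unfold zc cm
  ring

/-- the norm of the functional -/
lemma zc_bd (k : ℕ) : ∃ C : ℝ, 0 ≤ C ∧ ∀ θ ∈ Icc (0:ℝ) (2 * Real.pi), ‖zc k θ‖ ≤ C := by
  obtain ⟨C, hC⟩ := isCompact_Icc.exists_bound_of_continuousOn (zc_cont k).continuousOn
    (s := Icc (0:ℝ) (2 * Real.pi))
  exact ⟨max C 0, le_max_right _ _, fun θ hθ => (hC θ hθ).trans (le_max_left _ _)⟩

lemma RL_norm (k : ℕ) : ∃ C : ℝ, 0 ≤ C ∧ ∀ (φ : ℂ → ℂ) (B : ℝ), (∀ θ : ℝ, ‖φ (cm θ)‖ ≤ B) → ‖RL k φ‖ ≤ C * B := by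
  obtain ⟨C, hC, hb⟩ := zc_bd k
  have hp := Real.pi_pos
  refine ⟨C * (2 * Real.pi), by positivity, fun φ B hB => ?_⟩
  rw [RL_eq]
  have h1 := intervalIntegral.norm_integral_le_of_norm_le_const (a := 0) (b := 2 * Real.pi)
    (f := fun θ => zc k θ * φ (cm θ)) (C := C * B) (fun θ hθ => by
      rw [uIoc_of_le (by positivity)] at hθ
      rw [norm_mul]
      exact mul_le_mul (hb θ ⟨hθ.1.le, hθ.2⟩) (hB θ) (norm_nonneg _) hC)
  rw [sub_zero, abs_of_pos (by positivity)] at h1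
  calc _ ≤ _ := h1
    _ = _ := by ring

lemma RL_cont (k : ℕ) {φ : ℝ → ℂ → ℂ} (h : Continuous (fun p : ℝ × ℝ => φ p.1 (cm p.2))) :
    Continuous (fun x => RL k (φ x)) := by
  have e : (fun x => RL k (φ x)) = fun x => ∫ θ in (0:ℝ)..(2 * Real.pi), zc k θ * φ x (cm θ) :=
    funext fun x => RL_eq k _
  rw [e]
  refine intervalIntegral.continuous_parametric_intervalIntegral_of_continuous' ?_ _ _
  have := zc_cont k
  exact (this.comp continuous_snd).mul h

/-- exchanging the residue functional and a real integral -/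
lemma RL_swap (k : ℕ) {φ : ℝ → ℂ → ℂ} {b : ℝ → ℝ} (h : Continuous (fun p : ℝ × ℝ => φ p.1 (cm p.2)))
    (hb : Integrable b) (hφ : ∀ x θ, ‖φ x (cm θ)‖ ≤ b x) :
    Integrable (fun x => RL k (φ x)) ∧ ∫ x, RL k (φ x) = RL k (fun s => ∫ x, φ x s) := by
  obtain ⟨C, hC, hz⟩ := zc_bd k
  have hp := Real.pi_pos
  have hb0 : ∀ x, 0 ≤ b x := fun x => (norm_nonneg _).trans (hφ x 0)
  set μ : Measure ℝ := volume.restrict (Ioc (0:ℝ) (2 * Real.pi)) with hμ
  have hc : Continuous (fun p : ℝ × ℝ => zc k p.2 * φ p.1 (cm p.2)) :=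
    ((zc_cont k).comp continuous_snd).mul h
  have hi : Integrable (fun p : ℝ × ℝ => zc k p.2 * φ p.1 (cm p.2)) (volume.prod μ) := by
    have h1 : Integrable (fun p : ℝ × ℝ => b p.1 * C) (volume.prod μ) :=
      hb.mul_prod (integrable_const C)
    refine h1.mono' hc.aestronglyMeasurable ?_
    have h2 : ∀ᵐ p : ℝ × ℝ ∂(volume.prod μ), p.2 ∈ Ioc (0:ℝ) (2 * Real.pi) := by
      have h3 : ∀ᵐ θ ∂μ, θ ∈ Ioc (0:ℝ) (2 * Real.pi) := ae_restrict_mem measurableSet_Ioc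
      exact (Measure.quasiMeasurePreserving_snd (μ := volume) (ν := μ)).ae h3
    filter_upwards [h2] with p hp2
    rw [norm_mul, mul_comm]
    exact mul_le_mul (hφ _ _) (hz _ ⟨hp2.1.le, hp2.2⟩) (norm_nonneg _) (hb0 _)
  have e : ∀ x, RL k (φ x) = ∫ θ, zc k θ * φ x (cm θ) ∂μ := fun x => by
    rw [RL_eq, intervalIntegral.integral_of_le (by positivity)]
  constructor
  · refine (hi.integral_prod_left).congr (Eventually.of_forall fun x => ?_)
    exact (e x).symm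
  · simp_rw [e]
    rw [integral_integral_swap hi, RL_eq, intervalIntegral.integral_of_le (by positivity)]
    refine integral_congr_ae (Eventually.of_forall fun θ => ?_)
    exact integral_const_mul _ _

lemma RL_const_mul (k : ℕ) (c : ℂ) (φ : ℂ → ℂ) : RL k (fun s => c * φ s) = c * RL k φ := by
  rw [RL_eq, RL_eq, ← intervalIntegral.integral_const_mul]
  refine intervalIntegral.integral_congr fun θ _ => ?_
  ring

lemma RL_congr (k : ℕ) {φ ψ : ℂ → ℂ} (h : ∀ θ, φ (cm θ) = ψ (cm θ)) : RL k φ = RL k ψ := by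
  rw [RL_eq, RL_eq]
  refine intervalIntegral.integral_congr fun θ _ => ?_
  simp only [h θ]

/-- the summatory function -/
def Sk (k : ℕ) (u : ℝ) : ℝ := ∑ n ∈ Finset.Icc 1 ⌊Real.exp u⌋₊, (W182.KO.dk k n : ℝ)

/-- the main term -/
def Rk (k : ℕ) (u : ℝ) : ℂ := RL k (fun s => cexp (u * s) / s)

/-- the error term -/
def D0 (k : ℕ) (u : ℝ) : ℂ := (Sk k u : ℂ) - Rk k u

/-- the short interval -/
def Ee (k : ℕ) (h u : ℝ) : ℂ := (Real.exp (-(u / 2)) : ℝ) * (D0 k (u + h) - D0 k u)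

/-- the Dirichlet series at `2` -/
def Z2 (k : ℕ) : ℝ := ∑' n : ℕ, (W182.KO.dk k n : ℝ) * ((n : ℝ) ^ 2)⁻¹

lemma dk_sum (k : ℕ) : Summable (fun n : ℕ => (W182.KO.dk k n : ℝ) * ((n : ℝ) ^ 2)⁻¹) := by
  have h := (dser k (s := 2) (by norm_num)).summable.norm
  refine h.congr fun n => ?_
  rcases Nat.eq_zero_or_pos n with hn | hn
  · subst hn
    simp
  · rw [LSeries.norm_term_eq, if_neg hn.ne']
    have e : ‖((dr k n : ℝ) : ℂ)‖ = (W182.KO.dk k n : ℝ) := by
      rw [Complex.norm_real, Real.norm_of_nonneg (by unfold dr; positivity)]; rfl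
    rw [e, div_eq_mul_inv]
    congr 2
    rw [re_ofNat]
    norm_cast

lemma Z2_nonneg (k : ℕ) : 0 ≤ Z2 k := tsum_nonneg fun n => by positivity

lemma mem_Sk {u : ℝ} {n : ℕ} (hn : 1 ≤ n) : n ∈ Finset.Icc 1 ⌊Real.exp u⌋₊ ↔ Real.log n ≤ u := by
  have h0 : (0:ℝ) < n := by exact_mod_cast hn
  rw [Finset.mem_Icc, Nat.le_floor_iff (Real.exp_pos u).le, Real.log_le_iff_le_exp h0]
  exact ⟨fun h => h.2, fun h => ⟨hn, h⟩⟩

lemma Sk_nonneg (k : ℕ) (u : ℝ) : 0 ≤ Sk k u := Finset.sum_nonneg fun n _ => by positivity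

lemma Sk_le (k : ℕ) (u : ℝ) : Sk k u ≤ Z2 k * Real.exp (2 * u) := by
  unfold Sk
  have h1 : ∀ n ∈ Finset.Icc 1 ⌊Real.exp u⌋₊, (W182.KO.dk k n : ℝ) ≤
      (W182.KO.dk k n : ℝ) * ((n : ℝ) ^ 2)⁻¹ * Real.exp (2 * u) := by
    intro n hn
    have hn1 : 1 ≤ n := (Finset.mem_Icc.1 hn).1
    have h0 : (0:ℝ) < n := by exact_mod_cast hn1
    have h2 := (mem_Sk hn1).1 hn
    have h3 : (n:ℝ) ^ 2 ≤ Real.exp (2 * u) := by
      have h4 : (n:ℝ) ≤ Real.exp u := by rwa [← Real.log_le_iff_le_exp h0]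
      calc (n:ℝ) ^ 2 ≤ Real.exp u ^ 2 := by gcongr
        _ = _ := by rw [← Real.exp_nat_mul]; norm_num
    rw [mul_assoc]
    refine le_mul_of_one_le_right (by positivity) ?_
    rw [inv_mul_eq_div, one_le_div (by positivity)]
    exact h3
  refine (Finset.sum_le_sum h1).trans ?_
  rw [← Finset.sum_mul]
  refine mul_le_mul_of_nonneg_right ?_ (Real.exp_pos _).le
  exact (dk_sum k).sum_le_tsum _ fun n _ => by positivity

lemma Sk_mono (k : ℕ) : Monotone (Sk k) := by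
  intro u v huv
  unfold Sk
  refine Finset.sum_le_sum_of_subset_of_nonneg ?_ fun n _ _ => by positivity
  exact Finset.Icc_subset_Icc_right (Nat.floor_le_floor (Real.exp_le_exp.2 huv))

lemma Sk_meas (k : ℕ) : Measurable (Sk k) := (Sk_mono k).measurable

lemma exps_cont : Continuous (fun p : ℝ × ℝ => cexp (p.1 * cm p.2) / cm p.2) := by
  have := cm_cont
  exact Continuous.div (by fun_prop) (by fun_prop) fun p => cm_ne0 _

lemma exps_norm (u θ : ℝ) : ‖cexp (u * cm θ) / cm θ‖ ≤ 2 * Real.exp (2 * |u|) := by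
  have h1 := cm_re θ
  rw [norm_div, Complex.norm_exp, Complex.re_ofReal_mul]
  have h2 : 3 / 4 ≤ ‖cm θ‖ := h1.1.trans ((le_abs_self _).trans (Complex.abs_re_le_norm _))
  have h3 : u * (cm θ).re ≤ 2 * |u| := by
    calc u * (cm θ).re ≤ |u| * (cm θ).re := mul_le_mul_of_nonneg_right (le_abs_self u) (by linarith)
      _ ≤ |u| * 2 := mul_le_mul_of_nonneg_left (by linarith) (abs_nonneg u)
      _ = _ := mul_comm _ _
  rw [div_le_iff₀ (by linarith)]
  have h4 := Real.exp_le_exp.2 h3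
  have h5 := Real.exp_pos (2 * |u|)
  nlinarith

lemma Rk_cont (k : ℕ) : Continuous (Rk k) := RL_cont k (φ := fun u s => cexp (u * s) / s) exps_cont

lemma D0_meas (k : ℕ) : Measurable (D0 k) := by
  unfold D0
  exact (Complex.measurable_ofReal.comp (Sk_meas k)).sub (Rk_cont k).measurable

lemma D0_bd (k : ℕ) : ∃ C : ℝ, 1 ≤ C ∧ ∀ u : ℝ, ‖D0 k u‖ ≤ C * Real.exp (2 * |u|) := by
  obtain ⟨C, hC, hb⟩ := RL_norm k
  have hZ := Z2_nonneg k
  refine ⟨Z2 k + C * 2 + 1, by linarith, fun u => ?_⟩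
  unfold D0
  refine (norm_sub_le _ _).trans ?_
  have h1 := hb (fun s => cexp (u * s) / s) _ (exps_norm u)
  have h2 := Sk_le k u
  have h3 : Real.exp (2 * u) ≤ Real.exp (2 * |u|) := Real.exp_le_exp.2 (by linarith [le_abs_self u])
  have h4 := Real.exp_pos (2 * |u|)
  rw [Complex.norm_real, Real.norm_of_nonneg (Sk_nonneg k u)]
  have h5 : Z2 k * Real.exp (2 * u) ≤ Z2 k * Real.exp (2 * |u|) := by gcongr
  have h6 : ‖Rk k u‖ ≤ C * (2 * Real.exp (2 * |u|)) := h1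
  calc Sk k u + ‖Rk k u‖ ≤ Z2 k * Real.exp (2 * |u|) + C * (2 * Real.exp (2 * |u|)) := by linarith
    _ ≤ _ := by nlinarith

lemma Ee_meas (k : ℕ) (h : ℝ) : Measurable (Ee k h) := by
  unfold Ee
  refine Measurable.mul (by fun_prop) ?_
  exact ((D0_meas k).comp (measurable_id.add_const h)).sub (D0_meas k)

lemma Ee_bd (k : ℕ) : ∃ C : ℝ, 1 ≤ C ∧ ∀ h u : ℝ, ‖Ee k h u‖ ≤ C * Real.exp (3 * |u| + 2 * |h|) := by
  obtain ⟨C, hC, hb⟩ := D0_bd k
  refine ⟨2 * C, by linarith, fun h u => ?_⟩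
  unfold Ee
  rw [norm_mul, Complex.norm_real, Real.norm_of_nonneg (Real.exp_pos _).le]
  have h1 := hb (u + h)
  have h2 := hb u
  have h3 : Real.exp (2 * |u + h|) ≤ Real.exp (2 * |u| + 2 * |h|) :=
    Real.exp_le_exp.2 (by linarith [abs_add_le u h])
  have h4 : Real.exp (2 * |u|) ≤ Real.exp (2 * |u| + 2 * |h|) :=
    Real.exp_le_exp.2 (by linarith [abs_nonneg h])
  have h5 : ‖D0 k (u + h) - D0 k u‖ ≤ 2 * C * Real.exp (2 * |u| + 2 * |h|) := by
    refine (norm_sub_le _ _).trans ?_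
    have hC0 : 0 ≤ C := by linarith
    have := mul_le_mul_of_nonneg_left h3 hC0
    have := mul_le_mul_of_nonneg_left h4 hC0
    linarith
  have h6 : Real.exp (-(u / 2)) ≤ Real.exp |u| := Real.exp_le_exp.2 (by
    have := neg_abs_le u
    have := abs_nonneg u
    linarith)
  calc Real.exp (-(u / 2)) * ‖D0 k (u + h) - D0 k u‖ ≤
        Real.exp |u| * (2 * C * Real.exp (2 * |u| + 2 * |h|)) :=
        mul_le_mul h6 h5 (norm_nonneg _) (Real.exp_pos _).le
    _ = 2 * C * (Real.exp |u| * Real.exp (2 * |u| + 2 * |h|)) := by ring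
    _ = _ := by rw [← Real.exp_add]; congr 2; ring

/-- continuity away from the integers -/
lemma D0_contAt (k : ℕ) {u : ℝ} (hu : ∀ n : ℕ, Real.exp u ≠ n) : ContinuousAt (D0 k) u := by
  have h1 : (⌊Real.exp u⌋₊ : ℝ) < Real.exp u :=
    lt_of_le_of_ne (Nat.floor_le (Real.exp_pos u).le) (Ne.symm (hu _))
  have h2 : Real.exp u < ⌊Real.exp u⌋₊ + 1 := Nat.lt_floor_add_one _
  have h3 : ∀ᶠ v in 𝓝 u, Sk k v = Sk k u := by
    have c0 : Tendsto Real.exp (𝓝 u) (𝓝 (Real.exp u)) := Real.continuous_exp.tendsto u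
    filter_upwards [c0.eventually_const_lt h1, c0.eventually_lt_const h2] with v a1 a2
    have : ⌊Real.exp v⌋₊ = ⌊Real.exp u⌋₊ := by
      rw [Nat.floor_eq_iff (Real.exp_pos v).le]
      exact ⟨a1.le, a2⟩
    unfold Sk
    rw [this]
  have h4 : ContinuousAt (fun v => (Sk k v : ℂ)) u := by
    have h5 : (fun v => ((Sk k u : ℝ) : ℂ)) =ᶠ[𝓝 u] fun v => (Sk k v : ℂ) := by
      filter_upwards [h3] with v hv
      rw [hv]
    exact continuousAt_const.congr h5
  exact h4.sub (Rk_cont k).continuousAt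

lemma logs_null : volume {u : ℝ | ∃ n : ℕ, Real.exp u = n} = 0 := by
  have h : {u : ℝ | ∃ n : ℕ, Real.exp u = n} ⊆ range (fun n : ℕ => Real.log n) := by
    rintro u ⟨n, hn⟩
    exact ⟨n, by simp only; rw [← hn, Real.log_exp]⟩
  exact measure_mono_null h ((countable_range _).measure_zero _)

lemma Ee_contAt (k : ℕ) (h : ℝ) : ∀ᵐ u : ℝ, ContinuousAt (Ee k h) u := by
  have h1 : ∀ᵐ u : ℝ, ∀ n : ℕ, Real.exp u ≠ n := by
    have := measure_eq_zero_iff_ae_notMem.1 logs_null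
    filter_upwards [this] with u hu n hn
    exact hu ⟨n, hn⟩
  have h2 : ∀ᵐ u : ℝ, ∀ n : ℕ, Real.exp (u + h) ≠ n :=
    (quasiMeasurePreserving_add_right volume h).ae h1
  filter_upwards [h1, h2] with u a1 a2
  unfold Ee
  refine ContinuousAt.mul (by fun_prop) ?_
  refine ContinuousAt.sub ?_ (D0_contAt k a1)
  exact ContinuousAt.comp (f := fun v : ℝ => v + h) (D0_contAt k a2) (by fun_prop)

end

end Pool.Agent.J4.H32.VS
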