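import Pool.Agent.J4.H32.VS.U9

set_option autoImplicit false

/-! From short intervals to Gaussian windows: the limits. -/

namespace Pool.Agent.J4.H32.VS

open Complex MeasureTheory Filter Topology Set Metric Pool.Agent.TH535.SM Pool.Agent.R446.KR
open scoped FourierTransform ComplexConjugate ContDiff

noncomputable section

variable {q k : ℕ}

lemma Nh_scale (q : ℕ) {x : ℝ} (hx : 0 < x) : Tendsto (fun T => Nh q (x⁻¹ * T) / Nh q T) atTop (𝓝 x) := by
  have h1 := (NN_scale q (inv_pos.2 hx)).const_mul (x ^ 2)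
  have e : x ^ 2 * x⁻¹ = x := by field_simp
  rw [e] at h1
  refine h1.congr' ?_
  filter_upwards [eventually_gt_atTop 1] with T hT
  have := (NN_pos q hT).ne'
  have : T ≠ 0 := by linarith
  unfold Nh
  rw [mul_inv, inv_inv, mul_pow]
  field_simp

lemma log_ratio {x : ℝ} (hx : 0 < x) : Tendsto (fun T => Real.log (x⁻¹ * T) / Real.log T) atTop (𝓝 1) := by
  have h1 : Tendsto (fun T => 1 + Real.log x⁻¹ / Real.log T) atTop (𝓝 (1 + 0)) :=
    tendsto_const_nhds.add (tendsto_const_nhds.div_atTop Real.tendsto_log_atTop)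
  rw [add_zero] at h1
  refine h1.congr' ?_
  filter_upwards [eventually_gt_atTop 1] with T hT
  have hl := (Real.log_pos hT).ne'
  rw [Real.log_mul (inv_ne_zero hx.ne') (by linarith)]
  field_simp
  ring

/-- the comparison of scales for the variances -/
lemma Af_near {f f0 : ℝ → ℝ} {C1 S B1 Bm : ℝ} {R : ℕ} (h : Td f C1 S B1 R) (hBm : B1 ≤ Bm)
    (f0c : Continuous f0) (f0s : HasCompactSupport f0) (h0 : ∀ v, 0 ≤ f0 v)
    (h1 : ∀ v, -(2 * (R : ℝ) + 2) ≤ v → v ≤ Bm → f0 v = 1) {p L L' e : ℝ} (hL : 0 < L) (hL' : 0 < L')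
    (he : |p| / L + (R + |p| / L) * |L / L' - 1| + R * |L' / L - 1| ≤ e) (he1 : e ≤ 1) (he2 : e ≤ Bm - B1)
    (y : ℝ) : |Af k f p L y - Af k f 0 L' y| ≤ C1 * e * Af k f0 0 L' y := by
  have hR0 : (0:ℝ) ≤ R := Nat.cast_nonneg R
  have hfc := h.cont
  have cmp := cmp1 h.hC1 hR0 h.lip h.out h.edge h0 h1 hBm hL hL' he he1 he2
  have i1 := gE_int k y (g := fun v => f ((v - p) / L)) (by fun_prop) (aff_cs h.out p hL)
  have i2 := gE_int k y (g := fun v => f ((v - 0) / L')) (by fun_prop) (aff_cs h.out 0 hL')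
  have i0 := gE_int k y (g := fun v => f0 ((v - 0) / L')) (by fun_prop) (by
    obtain ⟨R', hR'⟩ := f0s.isCompact.isBounded.subset_closedBall 0
    refine aff_cs (R := R' + 1) (fun v hv => ?_) 0 hL'
    by_contra hcon
    have h1 := hR' (subset_tsupport f0 hcon)
    rw [mem_closedBall, dist_zero_right, Real.norm_eq_abs] at h1
    linarith)
  unfold Af
  rw [← integral_sub i1 i2, ← integral_const_mul, ← Real.norm_eq_abs]
  refine norm_integral_le_of_norm_le (i0.const_mul _) (Eventually.of_forall fun v => ?_)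
  rw [← sub_mul, norm_mul, Real.norm_eq_abs, norm_pow, norm_norm, sub_zero, ← mul_assoc]
  exact mul_le_mul_of_nonneg_right (cmp v) (by positivity)

/-- the limit for a fixed separation -/
lemma Psi_lim {f f0 : ℝ → ℝ} {C1 S B1 Bm ℓ ℓ0 : ℝ} {R : ℕ} (h : Td f C1 S B1 R) (hBm : B1 < Bm)
    (f0c : Continuous f0) (f0s : HasCompactSupport f0) (h0 : ∀ v, 0 ≤ f0 v)
    (h1 : ∀ v, -(2 * (R : ℝ) + 2) ≤ v → v ≤ Bm → f0 v = 1)
    (H : Tendsto (fun T => Af k f 0 (Real.log T) T⁻¹ / Nh q T) atTop (𝓝 ℓ))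
    (H0 : Tendsto (fun T => Af k f0 0 (Real.log T) T⁻¹ / Nh q T) atTop (𝓝 ℓ0)) (s r : ℝ) :
    Tendsto (fun T => Psi k f (Real.log T) (T⁻¹ * s) (T⁻¹ * r) / Nh q T) atTop (𝓝 (|s - r| * ℓ)) := by
  have key : ∀ s r : ℝ, r < s →
      Tendsto (fun T => Psi k f (Real.log T) (T⁻¹ * s) (T⁻¹ * r) / Nh q T) atTop (𝓝 (|s - r| * ℓ)) := by
    intro s r hsr
    set x : ℝ := s - r with hxd
    have hx0 : 0 < x := by rw [hxd]; linarith
    rw [abs_of_pos hx0]
    have tT : Tendsto (fun T : ℝ => x⁻¹ * T) atTop atTop := tendsto_id.const_mul_atTop (inv_pos.2 hx0)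
    have r1 := log_ratio hx0
    have r2 : Tendsto (fun T => Real.log T / Real.log (x⁻¹ * T)) atTop (𝓝 1) := by
      have := r1.inv₀ one_ne_zero
      rw [inv_one] at this
      exact this.congr fun T => inv_div _ _
    have p1 : Tendsto (fun T : ℝ => T⁻¹ * r) atTop (𝓝 0) := by
      simpa using tendsto_inv_atTop_zero.mul_const r
    have p2 : Tendsto (fun T : ℝ => |T⁻¹ * r| / Real.log T) atTop (𝓝 0) := by
      have := p1.abs
      rw [abs_zero] at this
      exact this.div_atTop Real.tendsto_log_atTop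
    set e : ℝ → ℝ := fun T => |T⁻¹ * r| / Real.log T + (R + |T⁻¹ * r| / Real.log T) *
      |Real.log T / Real.log (x⁻¹ * T) - 1| + R * |Real.log (x⁻¹ * T) / Real.log T - 1| with hedef
    have he : Tendsto e atTop (𝓝 0) := by
      have a1 := (r2.sub_const 1).abs
      have a2 := (r1.sub_const 1).abs
      rw [sub_self, abs_zero] at a1 a2
      have := (p2.add ((p2.const_add (R:ℝ)).mul a1)).add (a2.const_mul (R:ℝ))
      have e0 : (0:ℝ) + (R + 0) * 0 + R * 0 = 0 := by ring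
      rw [e0] at this
      exact this
    have L1 := H.comp tT
    have L0 := H0.comp tT
    have L2 : Tendsto (fun T => (Af k f (T⁻¹ * r) (Real.log T) (x⁻¹ * T)⁻¹ -
        Af k f 0 (Real.log (x⁻¹ * T)) (x⁻¹ * T)⁻¹) / Nh q (x⁻¹ * T)) atTop (𝓝 0) := by
      have L3 := (he.const_mul C1).mul L0
      rw [mul_zero, zero_mul] at L3
      rw [tendsto_zero_iff_abs_tendsto_zero]
      refine squeeze_zero' (Eventually.of_forall fun T => abs_nonneg _) ?_ L3
      filter_upwards [he.eventually_le_const (show (0:ℝ) < 1 by norm_num),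
        he.eventually_le_const (show (0:ℝ) < Bm - B1 by linarith), eventually_gt_atTop 1,
        tT.eventually_gt_atTop 1] with T c1 c2 c3 c4
      have hN := Nh_pos q c4
      simp only [Function.comp]
      rw [abs_div, abs_of_pos hN, div_le_iff₀ hN]
      have c5 := Af_near (k := k) h hBm.le f0c f0s h0 h1 (p := T⁻¹ * r) (Real.log_pos c3) (Real.log_pos c4)
        (le_refl (e T)) c1 c2 (x⁻¹ * T)⁻¹
      refine c5.trans (le_of_eq ?_)
      rw [← mul_div_assoc, div_mul_cancel₀ _ hN.ne']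
    have L4 := L2.add L1
    rw [zero_add] at L4
    have L5 : Tendsto (fun T : ℝ => Real.exp (T⁻¹ * r)) atTop (𝓝 1) := by
      have := (Real.continuous_exp.tendsto _).comp p1
      rwa [Real.exp_zero] at this
    have L6 := (L5.mul L4).mul (Nh_scale q hx0)
    rw [one_mul, mul_comm ℓ x] at L6
    refine L6.congr' ?_
    filter_upwards [eventually_gt_atTop 1, tT.eventually_gt_atTop 1] with T c3 c4
    have hN := (Nh_pos q c4).ne'
    have hN' := (Nh_pos q c3).ne'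
    have e1 : T⁻¹ * s - T⁻¹ * r = (x⁻¹ * T)⁻¹ := by
      rw [mul_inv, inv_inv, hxd]; ring
    rw [Psi_Af, e1]
    simp only [Function.comp]
    rw [← add_div, sub_add_cancel, mul_assoc, div_mul_div_cancel₀ hN, mul_div_assoc]
  rcases lt_trichotomy r s with c | c | c
  · exact key s r c
  · subst c
    rw [sub_self, abs_zero, zero_mul]
    refine tendsto_const_nhds.congr fun T => ?_
    rw [Psi_self, zero_div]
  · rw [abs_sub_comm]
    refine (key r s c).congr fun T => ?_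
    rw [Psi_symm]

/-- **from short intervals to Gaussian windows** -/
theorem conv {B1 B2 : ℝ} (hB1 : 0 < B1) (hB : B1 < B2) {ℓ : (ℝ → ℝ) → ℝ}
    (H : ∀ f : ℝ → ℝ, ContDiff ℝ ∞ f → HasCompactSupport f → (∀ v, B2 ≤ v → f v = 0) →
      Tendsto (fun T => (∫ u, f (u / Real.log T) * ‖Ee k T⁻¹ u‖ ^ 2) / Nh q T) atTop (𝓝 (ℓ f)))
    {f : ℝ → ℝ} (hc : ContDiff ℝ ∞ f) (hs : HasCompactSupport f) (hf0 : ∀ v, B1 ≤ v → f v = 0) :
    Tendsto (fun T => (∫ u, f (u / Real.log T) * ‖Dl k T⁻¹ u‖ ^ 2) / Nh q T) atTop (𝓝 (√Real.pi * ℓ f)) := by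
  obtain ⟨C1, S, R, h⟩ := mk_Td hB1 hc hs hf0
  obtain ⟨f0, g1, g2, g3, g4, g5⟩ := exists_f0 (R := (R : ℝ)) hB
  have f0c := g1.continuous
  have hBm : B1 < (B1 + B2) / 2 := by linarith
  have eA : ∀ (g : ℝ → ℝ) (T : ℝ), (∫ u, g (u / Real.log T) * ‖Ee k T⁻¹ u‖ ^ 2) = Af k g 0 (Real.log T) T⁻¹ := by
    intro g T
    unfold Af
    simp only [sub_zero]
  have Hf := H f hc hs fun v hv => hf0 v (hB.le.trans hv)
  have Hf0 := H f0 g1 g2 g3
  simp only [eA] at Hf Hf0
  -- a priori bound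
  obtain ⟨T1, hT1⟩ : ∃ T1 : ℝ, ∀ T, T1 ≤ T → Af k f0 0 (Real.log T) T⁻¹ ≤ (|ℓ f0| + 1) * Nh q T := by
    have h2 := (up_of_ratio' Hf0).and (eventually_gt_atTop 1)
    obtain ⟨T1, hT1⟩ := eventually_atTop.1 h2
    exact ⟨T1, fun T hT => (hT1 T hT).1 (Nh_pos q (hT1 T hT).2)⟩
  obtain ⟨C, T0, A, hC, hT0, hdom⟩ := Psi_dom (k := k) (q := q) h hBm f0c g2 g4 g5 (C0 := |ℓ f0| + 1)
    (by positivity) hT1
  have hlim := Psi_lim (k := k) (q := q) h hBm f0c g2 g4 g5 Hf Hf0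
  have hw := ge_int (A + 1) 5 (c := 1 / 2) (by norm_num)
  have key : Tendsto (fun T => ∫ p : ℝ × ℝ, mr T⁻¹ p.1 * mr T⁻¹ p.2 *
      (Psi k f (Real.log T) (T⁻¹ * p.1) (T⁻¹ * p.2) / Nh q T)) atTop
      (𝓝 (∫ p : ℝ × ℝ, m0 p.1 * m0 p.2 * (|p.1 - p.2| * ℓ f))) := by
    refine tendsto_integral_filter_of_dominated_convergence (fun p => C *
      (((1 + |p.1|) ^ (A + 1) * Real.exp (5 * |p.1| - 1 / 2 * p.1 ^ 2)) *
        ((1 + |p.2|) ^ (A + 1) * Real.exp (5 * |p.2| - 1 / 2 * p.2 ^ 2)))) ?_ ?_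
      ((hw.mul_prod hw).const_mul C) ?_
    · refine Eventually.of_forall fun T => ?_
      have m1 := (mr_cont T⁻¹).measurable
      have m2 : StronglyMeasurable (fun p : ℝ × ℝ => Psi k f (Real.log T) (T⁻¹ * p.1) (T⁻¹ * p.2)) :=
        (Psi_meas k hc.continuous (Real.log T)).comp_measurable
          (g := fun p : ℝ × ℝ => (T⁻¹ * p.1, T⁻¹ * p.2)) (by fun_prop)
      exact (((m1.comp measurable_fst).mul (m1.comp measurable_snd)).mul
        (m2.measurable.div_const _)).aestronglyMeasurable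
    · filter_upwards [eventually_ge_atTop T0] with T hT
      have hT2 : 2 ≤ T := hT0.trans hT
      have hTp : 0 < T := by linarith
      have hN := Nh_pos q (show 1 < T by linarith)
      refine Eventually.of_forall fun p => ?_
      have hh : 0 < T⁻¹ := inv_pos.2 hTp
      have hh1 : T⁻¹ ≤ 1 := inv_le_one_of_one_le₀ (by linarith)
      have b1 := mr_le hh hh1 p.1
      have b2 := mr_le hh hh1 p.2
      have b3 := hdom T hT p.1 p.2
      rw [norm_mul, norm_mul, norm_div, Real.norm_eq_abs, Real.norm_eq_abs, Real.norm_eq_abs, Real.norm_eq_abs,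
        abs_of_pos hN]
      have b4 : |Psi k f (Real.log T) (T⁻¹ * p.1) (T⁻¹ * p.2)| / Nh q T ≤
          C * ((1 + |p.1|) ^ A * (1 + |p.2|) ^ A) * (Real.exp (4 * |p.1|) * Real.exp (4 * |p.2|)) := by
        rwa [div_le_iff₀ hN]
      have e5 : ∀ y : ℝ, Real.exp (5 * |y| - 1 / 2 * y ^ 2) = Real.exp (|y| - 1 / 2 * y ^ 2) * Real.exp (4 * |y|) := by
        intro y
        rw [← Real.exp_add]; congr 1; ring
      calc |mr T⁻¹ p.1| * |mr T⁻¹ p.2| * (|Psi k f (Real.log T) (T⁻¹ * p.1) (T⁻¹ * p.2)| / Nh q T) ≤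
            ((1 + |p.1|) * Real.exp (|p.1| - 1 / 2 * p.1 ^ 2)) * ((1 + |p.2|) * Real.exp (|p.2| - 1 / 2 * p.2 ^ 2)) *
            (C * ((1 + |p.1|) ^ A * (1 + |p.2|) ^ A) * (Real.exp (4 * |p.1|) * Real.exp (4 * |p.2|))) := by
            gcongr
        _ = _ := by rw [e5, e5]; ring
    · refine Eventually.of_forall fun p => ?_
      have hm : ∀ y : ℝ, Tendsto (fun T => mr T⁻¹ y) atTop (𝓝 (m0 y)) := by
        intro y
        have h2 : Tendsto (fun h : ℝ => (y + h / 2) * Real.exp (-(y ^ 2 / 2) - h * y / 2)) (𝓝 0)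
            (𝓝 ((y + 0 / 2) * Real.exp (-(y ^ 2 / 2) - 0 * y / 2))) :=
          (by fun_prop : Continuous fun h : ℝ => (y + h / 2) * Real.exp (-(y ^ 2 / 2) - h * y / 2)).tendsto 0
        have e6 : (y + 0 / 2) * Real.exp (-(y ^ 2 / 2) - 0 * y / 2) = m0 y := by
          unfold m0; simp
        rw [e6] at h2
        refine (h2.comp tendsto_inv_atTop_zero).congr' ?_
        filter_upwards [eventually_gt_atTop 0] with T hT
        exact (mr_eq (inv_pos.2 hT) y).symm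
      exact ((hm p.1).mul (hm p.2)).mul (hlim p.1 p.2)
  have e1 : ∫ p : ℝ × ℝ, m0 p.1 * m0 p.2 * (|p.1 - p.2| * ℓ f) = -2 * √Real.pi * ℓ f := by
    rw [← m0_const, ← integral_mul_const]
    refine integral_congr_ae (Eventually.of_forall fun p => ?_)
    simp only
    ring
  rw [e1] at key
  have h3 := key.const_mul (-1 / 2)
  have e2 : -1 / 2 * (-2 * √Real.pi * ℓ f) = √Real.pi * ℓ f := by ring
  rw [e2] at h3
  refine h3.congr' ?_
  filter_upwards [eventually_gt_atTop 1] with T hT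
  have hTp : 0 < T := by linarith
  have hh : 0 < T⁻¹ := inv_pos.2 hTp
  have hh1 : T⁻¹ ≤ 1 := inv_le_one_of_one_le₀ hT.le
  have h4 := Dl_double k hh hh1 (Real.log_pos hT) hc.continuous hs
  have e3 : ∫ p : ℝ × ℝ, mr T⁻¹ p.1 * mr T⁻¹ p.2 * (Psi k f (Real.log T) (T⁻¹ * p.1) (T⁻¹ * p.2) / Nh q T) =
      (∫ p : ℝ × ℝ, mr T⁻¹ p.1 * mr T⁻¹ p.2 * Psi k f (Real.log T) (T⁻¹ * p.1) (T⁻¹ * p.2)) / Nh q T := by
    rw [← integral_div]
    refine integral_congr_ae (Eventually.of_forall fun p => ?_)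
    simp only
    ring
  rw [e3, ← h4]
  ring

end

end Pool.Agent.J4.H32.VS
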