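import Pool.Agent.J4.H32.VS.U10

set_option autoImplicit false

/-! Intervals `(x, x + hx]`. -/

namespace Pool.Agent.J4.H32.VS

open Complex MeasureTheory Filter Topology Set Metric Pool.Agent.TH535.SM Pool.Agent.R446.KR
open scoped FourierTransform ComplexConjugate ContDiff

noncomputable section

variable {q k : ℕ}

/-- test functions -/
def Tst (B : ℝ) (f : ℝ → ℝ) : Prop := ContDiff ℝ ∞ f ∧ HasCompactSupport f ∧ ∀ v : ℝ, B ≤ v → f v = 0

lemma log_rat {a b : ℝ → ℝ} (hb : Tendsto b atTop atTop) (hab : Tendsto (fun T => a T / b T) atTop (𝓝 1)) :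
    Tendsto (fun T => Real.log (a T) / Real.log (b T)) atTop (𝓝 1) := by
  have h1 : Tendsto (fun T => Real.log (a T / b T)) atTop (𝓝 0) := by
    have := (Real.continuousAt_log one_ne_zero).tendsto.comp hab
    rwa [Real.log_one] at this
  have h2 : Tendsto (fun T => 1 + Real.log (a T / b T) / Real.log (b T)) atTop (𝓝 (1 + 0)) :=
    tendsto_const_nhds.add (h1.div_atTop (Real.tendsto_log_atTop.comp hb))
  rw [add_zero] at h2
  refine h2.congr' ?_
  filter_upwards [hb.eventually_gt_atTop 1, hab.eventually_const_lt (show (0:ℝ) < 1 by norm_num)] with T c1 c2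
  have hb0 : 0 < b T := by linarith
  have hl := (Real.log_pos c1).ne'
  have ha0 : 0 < a T := by
    have := mul_pos c2 hb0
    rwa [div_mul_cancel₀ _ hb0.ne'] at this
  rw [Real.log_div ha0.ne' hb0.ne']
  field_simp
  ring

lemma Nh_rat (q : ℕ) {a b : ℝ → ℝ} (ha : Tendsto a atTop atTop) (hb : Tendsto b atTop atTop)
    (hab : Tendsto (fun T => a T / b T) atTop (𝓝 1)) : Tendsto (fun T => Nh q (b T) / Nh q (a T)) atTop (𝓝 1) := by
  have h1 : Tendsto (fun T => b T / a T) atTop (𝓝 1) := by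
    have := hab.inv₀ one_ne_zero
    rw [inv_one] at this
    exact this.congr fun T => inv_div _ _
  have h2 := (log_rat ha h1).pow q
  have h3 := hab.mul h2
  rw [one_pow, mul_one] at h3
  refine h3.congr' ?_
  filter_upwards [ha.eventually_gt_atTop 1, hb.eventually_gt_atTop 1] with T c1 c2
  have := (Real.log_pos c1).ne'
  have : a T ≠ 0 := by linarith
  have : b T ≠ 0 := by linarith
  rw [Nh_eq q (by linarith), Nh_eq q (by linarith), div_pow]
  field_simp

/-- **change of scale** -/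
theorem scale_change {B1 B2 : ℝ} (hB1 : 0 < B1) (hB : B1 < B2) {a b y : ℝ → ℝ} (ha : Tendsto a atTop atTop)
    (hb : Tendsto b atTop atTop) (hab : Tendsto (fun T => a T / b T) atTop (𝓝 1)) {ℓ : (ℝ → ℝ) → ℝ}
    (H : ∀ f, Tst B2 f → Tendsto (fun T => Af k f 0 (Real.log (b T)) (y T) / Nh q (b T)) atTop (𝓝 (ℓ f)))
    {f : ℝ → ℝ} (hf : Tst B1 f) :
    Tendsto (fun T => Af k f 0 (Real.log (a T)) (y T) / Nh q (a T)) atTop (𝓝 (ℓ f)) := by
  obtain ⟨C1, S, R, h⟩ := mk_Td hB1 hf.1 hf.2.1 hf.2.2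
  obtain ⟨f0, g1, g2, g3, g4, g5⟩ := exists_f0 (R := (R : ℝ)) hB
  have hBm : B1 < (B1 + B2) / 2 := by linarith
  have L1 := H f ⟨hf.1, hf.2.1, fun v hv => hf.2.2 v (hB.le.trans hv)⟩
  have L0 := H f0 ⟨g1, g2, g3⟩
  have r1 := log_rat hb hab
  have r2 : Tendsto (fun T => Real.log (b T) / Real.log (a T)) atTop (𝓝 1) := by
    have := r1.inv₀ one_ne_zero
    rw [inv_one] at this
    exact this.congr fun T => inv_div _ _
  set e : ℝ → ℝ := fun T => |(0:ℝ)| / Real.log (a T) + (R + |(0:ℝ)| / Real.log (a T)) *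
    |Real.log (a T) / Real.log (b T) - 1| + R * |Real.log (b T) / Real.log (a T) - 1| with hedef
  have he : Tendsto e atTop (𝓝 0) := by
    have a1 := (r1.sub_const 1).abs
    have a2 := (r2.sub_const 1).abs
    rw [sub_self, abs_zero] at a1 a2
    have := (a1.const_mul (R:ℝ)).add (a2.const_mul (R:ℝ))
    have e0 : (R:ℝ) * 0 + R * 0 = 0 := by ring
    rw [e0] at this
    refine this.congr fun T => ?_
    rw [hedef]
    simp only [abs_zero, zero_div, add_zero, zero_add]
  have L2 : Tendsto (fun T => (Af k f 0 (Real.log (a T)) (y T) - Af k f 0 (Real.log (b T)) (y T)) / Nh q (b T))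
      atTop (𝓝 0) := by
    have L3 := (he.const_mul C1).mul L0
    rw [mul_zero, zero_mul] at L3
    rw [tendsto_zero_iff_abs_tendsto_zero]
    refine squeeze_zero' (Eventually.of_forall fun T => abs_nonneg _) ?_ L3
    filter_upwards [he.eventually_le_const (show (0:ℝ) < 1 by norm_num),
      he.eventually_le_const (show (0:ℝ) < (B1 + B2) / 2 - B1 by linarith), ha.eventually_gt_atTop 1,
      hb.eventually_gt_atTop 1] with T c1 c2 c3 c4
    have hN := Nh_pos q c4
    simp only [Function.comp]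
    rw [abs_div, abs_of_pos hN, div_le_iff₀ hN]
    have c5 := Af_near (k := k) h hBm.le g1.continuous g2 g4 g5 (p := 0) (Real.log_pos c3) (Real.log_pos c4)
      (le_refl (e T)) c1 c2 (y T)
    refine c5.trans (le_of_eq ?_)
    rw [← mul_div_assoc, div_mul_cancel₀ _ hN.ne']
  have L4 := (L2.add L1).mul (Nh_rat q ha hb hab)
  rw [zero_add, mul_one] at L4
  refine L4.congr' ?_
  filter_upwards [ha.eventually_gt_atTop 1, hb.eventually_gt_atTop 1] with T c3 c4
  have hN := (Nh_pos q c4).ne'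
  rw [← add_div, sub_add_cancel, div_mul_div_cancel₀ hN]

/-- the ratio of the two scales -/
lemma sc1 : Tendsto (fun T : ℝ => T / (Real.log (1 + T⁻¹))⁻¹) atTop (𝓝 1) := by
  have h1 : Tendsto (fun T : ℝ => T * Real.log (1 + 1 / T)) atTop (𝓝 1) :=
    Real.tendsto_mul_log_one_add_div_atTop 1
  refine h1.congr fun T => ?_
  rw [div_inv_eq_mul, one_div]

lemma sc1' : Tendsto (fun T : ℝ => (Real.log (1 + T⁻¹))⁻¹) atTop atTop := by
  have h1 : Tendsto (fun T : ℝ => Real.log (1 + T⁻¹)) atTop (𝓝[>] 0) := by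
    rw [tendsto_nhdsWithin_iff]
    refine ⟨?_, ?_⟩
    · have h2 : Tendsto (fun T : ℝ => 1 + T⁻¹) atTop (𝓝 (1 + 0)) := tendsto_inv_atTop_zero.const_add 1
      rw [add_zero] at h2
      have := (Real.continuousAt_log one_ne_zero).tendsto.comp h2
      rwa [Real.log_one] at this
    · filter_upwards [eventually_gt_atTop 0] with T hT
      show 0 < Real.log (1 + T⁻¹)
      exact Real.log_pos (by have : 0 < T⁻¹ := by positivity
                             linarith)
  exact tendsto_inv_nhdsGT_zero.comp h1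

lemma sc2' : Tendsto (fun S : ℝ => (Real.exp S⁻¹ - 1)⁻¹) atTop atTop := by
  have h1 : Tendsto (fun S : ℝ => Real.exp S⁻¹ - 1) atTop (𝓝[>] 0) := by
    rw [tendsto_nhdsWithin_iff]
    refine ⟨?_, ?_⟩
    · have h2 := ((Real.continuous_exp.tendsto _).comp tendsto_inv_atTop_zero).sub_const 1
      rw [Real.exp_zero, sub_self] at h2
      exact h2
    · filter_upwards [eventually_gt_atTop 0] with T hT
      show 0 < Real.exp T⁻¹ - 1
      have : 0 < T⁻¹ := by positivity
      have := Real.add_one_lt_exp this.ne'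
      linarith
  exact tendsto_inv_nhdsGT_zero.comp h1

lemma sc2 : Tendsto (fun S : ℝ => S / (Real.exp S⁻¹ - 1)⁻¹) atTop (𝓝 1) := by
  have h1 := sc1.comp sc2'
  have h2 := h1.inv₀ one_ne_zero
  rw [inv_one] at h2
  refine h2.congr' ?_
  filter_upwards [eventually_gt_atTop 0] with S hS
  simp only [Function.comp]
  rw [inv_inv, add_sub_cancel, Real.log_exp, inv_inv, inv_div]

/-- the variance for the intervals `(x, x + hx]` -/
def V1 (k q : ℕ) (f : ℝ → ℝ) (T : ℝ) : ℝ := Af k f 0 (Real.log T) (Real.log (1 + T⁻¹)) / Nh q T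

theorem V0_V1 {B1 B2 : ℝ} (hB1 : 0 < B1) (hB : B1 < B2) {ℓ : (ℝ → ℝ) → ℝ}
    (H : ∀ f, Tst B2 f → Tendsto (fun T => Af k f 0 (Real.log T) T⁻¹ / Nh q T) atTop (𝓝 (ℓ f)))
    {f : ℝ → ℝ} (hf : Tst B1 f) : Tendsto (V1 k q f) atTop (𝓝 (ℓ f)) := by
  refine scale_change (k := k) (q := q) hB1 hB (a := fun T => T) (b := fun T => (Real.log (1 + T⁻¹))⁻¹)
    (y := fun T => Real.log (1 + T⁻¹)) tendsto_id sc1' sc1 (ℓ := ℓ) (fun g hg => ?_) hf
  refine ((H g hg).comp sc1').congr fun T => ?_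
  simp only [Function.comp, inv_inv]

theorem V1_V0 {B1 B2 : ℝ} (hB1 : 0 < B1) (hB : B1 < B2) {ℓ : (ℝ → ℝ) → ℝ}
    (H : ∀ f, Tst B2 f → Tendsto (V1 k q f) atTop (𝓝 (ℓ f)))
    {f : ℝ → ℝ} (hf : Tst B1 f) : Tendsto (fun T => Af k f 0 (Real.log T) T⁻¹ / Nh q T) atTop (𝓝 (ℓ f)) := by
  refine scale_change (k := k) (q := q) hB1 hB (a := fun T => T) (b := fun T => (Real.exp T⁻¹ - 1)⁻¹)
    (y := fun T => T⁻¹) tendsto_id sc2' sc2 (ℓ := ℓ) (fun g hg => ?_) hf
  refine ((H g hg).comp sc2').congr fun T => ?_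
  unfold V1
  simp only [Function.comp]
  rw [inv_inv, add_sub_cancel, Real.log_exp]

end

end Pool.Agent.J4.H32.VS
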