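import Pool.Agent.J4.H32.VS.U11
import Pool.Agent.J4.H32.VS.Th

set_option autoImplicit false

/-! The first edge of the spectrum: the pole part. -/

namespace Pool.Agent.J4.H32.VS

open Complex MeasureTheory Filter Topology Set Metric Pool.Agent.TH535.SM Pool.Agent.R446.KR
open scoped FourierTransform ComplexConjugate ContDiff

noncomputable section

variable {q k : ℕ}

/-- smaller circles -/
lemma RL_radius (k : ℕ) {r : ℝ} (hr : 0 < r) (hr4 : r ≤ 1 / 4) {φ : ℂ → ℂ}
    (hφ : ∀ s : ℂ, s ≠ 0 → DifferentiableAt ℂ φ s) :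
    RL k φ = (2 * Real.pi * I)⁻¹ * ∮ s in C(1, r), riemannZeta s ^ k * φ s := by
  unfold RL
  congr 1
  have h0 : ∀ z : ℂ, z ∈ closedBall (1:ℂ) (1 / 4) → z ≠ 0 := by
    intro z hz h
    rw [h, mem_closedBall, dist_zero_left, norm_one] at hz
    norm_num at hz
  have hd : ∀ z : ℂ, z ∈ closedBall (1:ℂ) (1 / 4) → z ≠ 1 →
      DifferentiableAt ℂ (fun s => riemannZeta s ^ k * φ s) z := fun z hz h1 =>
    ((differentiableAt_riemannZeta h1).pow k).mul (hφ z (h0 z hz))
  refine Complex.circleIntegral_eq_of_differentiable_on_annulus_off_countable hr hr4 countable_empty ?_ ?_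
  · intro z hz
    have h1 : z ≠ 1 := by
      intro h
      exact hz.2 (by rw [h]; exact mem_ball_self hr)
    exact (hd z hz.1 h1).continuousAt.continuousWithinAt
  · intro z hz
    have h1 : z ≠ 1 := by
      intro h
      exact hz.1.2 (by rw [h]; exact mem_closedBall_self hr.le)
    exact hd z (ball_subset_closedBall hz.1.1) h1

/-- **the pole part** in a short interval -/
lemma Rk_diff (k : ℕ) {r : ℝ} (hr : 0 < r) (hr4 : r ≤ 1 / 4) : ∃ C : ℝ, 0 ≤ C ∧ ∀ h u : ℝ, 0 ≤ h → h ≤ 1 / 2 →
    ‖Rk k (u + h) - Rk k u‖ ≤ C * h * (Real.exp ((1 + r) * u) + Real.exp ((1 - r) * u)) := by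
  have hz : ∀ z ∈ sphere (1:ℂ) r, z ≠ 1 ∧ 3 / 4 ≤ ‖z‖ ∧ ‖z‖ ≤ 5 / 4 ∧ 1 - r ≤ z.re ∧ z.re ≤ 1 + r := by
    intro z hz
    have h1 : ‖z - 1‖ = r := by rwa [mem_sphere, dist_eq_norm] at hz
    refine ⟨?_, ?_, ?_, ?_, ?_⟩
    · intro h
      rw [h, sub_self, norm_zero] at h1
      linarith
    · have := norm_sub_norm_le (1:ℂ) (1 - z)
      rw [norm_one, sub_sub_cancel, norm_sub_rev, h1] at this
      linarith
    · have := norm_add_le (z - 1) 1
      rw [sub_add_cancel, h1, norm_one] at this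
      linarith
    · have := neg_abs_le (z - 1).re
      have h2 := Complex.abs_re_le_norm (z - 1)
      rw [h1] at h2
      rw [sub_re, one_re] at this h2
      linarith
    · have := le_abs_self (z - 1).re
      have h2 := Complex.abs_re_le_norm (z - 1)
      rw [h1] at h2
      rw [sub_re, one_re] at this h2
      linarith
  have hc : ContinuousOn (fun s => riemannZeta s ^ k) (sphere (1:ℂ) r) := fun z hzs =>
    ((differentiableAt_riemannZeta (hz z hzs).1).continuousAt.pow k).continuousWithinAt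
  obtain ⟨C, hC⟩ := (isCompact_sphere (1:ℂ) r).exists_bound_of_continuousOn hc
  have hC0 : 0 ≤ C := by
    have h1 : (1 + r : ℂ) ∈ sphere (1:ℂ) r := by
      rw [mem_sphere, dist_eq_norm, add_sub_cancel_left, Complex.norm_real, Real.norm_of_nonneg hr.le]
    exact (norm_nonneg _).trans (hC _ h1)
  have hne : ∀ z ∈ sphere (1:ℂ) r, z ≠ 0 := by
    intro z hzs h
    have := (hz z hzs).2.1
    rw [h, norm_zero] at this
    norm_num at this
  have hint : ∀ u : ℝ, CircleIntegrable (fun s => riemannZeta s ^ k * (cexp (u * s) / s)) 1 r := fun u =>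
    ContinuousOn.circleIntegrable hr.le (hc.mul (ContinuousOn.div (by fun_prop) continuousOn_id hne))
  refine ⟨r * (2 * C), by positivity, fun h u hh hh2 => ?_⟩
  have e : ∀ v : ℝ, Rk k v = (2 * Real.pi * I)⁻¹ * ∮ s in C(1, r), riemannZeta s ^ k * (cexp (v * s) / s) := by
    intro v
    unfold Rk
    exact RL_radius k hr hr4 fun s hs => DifferentiableAt.div (by fun_prop) differentiableAt_id hs
  rw [e, e, ← mul_sub, ← circleIntegral.integral_sub (hint _) (hint _)]
  have hE : 0 < Real.exp ((1 + r) * u) + Real.exp ((1 - r) * u) := by positivity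
  have hb : ∀ z ∈ sphere (1:ℂ) r, ‖riemannZeta z ^ k * (cexp ((u + h : ℝ) * z) / z) -
      riemannZeta z ^ k * (cexp (u * z) / z)‖ ≤
      C * ((Real.exp ((1 + r) * u) + Real.exp ((1 - r) * u)) * (2 * h)) := by
    intro z hzs
    obtain ⟨-, z1, z2, z3, z4⟩ := hz z hzs
    have e1 : riemannZeta z ^ k * (cexp ((u + h : ℝ) * z) / z) - riemannZeta z ^ k * (cexp (u * z) / z) =
        riemannZeta z ^ k * (cexp (u * z) * ((cexp (h * z) - 1) / z)) := by
      have : ((u + h : ℝ) : ℂ) * z = u * z + h * z := by push_cast; ring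
      rw [this, Complex.exp_add]
      ring
    rw [e1, norm_mul, norm_mul, norm_div]
    have b1 : ‖cexp (u * z)‖ ≤ Real.exp ((1 + r) * u) + Real.exp ((1 - r) * u) := by
      rw [Complex.norm_exp, Complex.re_ofReal_mul]
      rcases le_total 0 u with hu | hu
      · have : Real.exp (u * z.re) ≤ Real.exp ((1 + r) * u) := Real.exp_le_exp.2 (by nlinarith)
        linarith [Real.exp_pos ((1 - r) * u)]
      · have : Real.exp (u * z.re) ≤ Real.exp ((1 - r) * u) := Real.exp_le_exp.2 (by nlinarith)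
        linarith [Real.exp_pos ((1 + r) * u)]
    have b2 : ‖cexp (h * z) - 1‖ / ‖z‖ ≤ 2 * h := by
      have hzp : 0 < ‖z‖ := by linarith
      rw [div_le_iff₀ hzp]
      have h1 : ‖(h : ℂ) * z‖ = h * ‖z‖ := by rw [norm_mul, Complex.norm_real, Real.norm_of_nonneg hh]
      have h2 : ‖(h : ℂ) * z‖ ≤ 1 := by rw [h1]; nlinarith
      have h3 := Complex.norm_exp_sub_one_le h2
      rw [h1] at h3
      linarith
    exact mul_le_mul (hC z hzs) (mul_le_mul b1 b2 (by positivity) hE.le) (by positivity) hC0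
  have h1 := circleIntegral.norm_two_pi_i_inv_smul_integral_le_of_norm_le_const hr.le hb
  rw [smul_eq_mul] at h1
  refine h1.trans (le_of_eq ?_)
  ring

end

end Pool.Agent.J4.H32.VS
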