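import Pool.Agent.J4.H32.VS.U12

set_option autoImplicit false

/-! The first edge of the spectrum: the integers. -/

namespace Pool.Agent.J4.H32.VS

open Complex MeasureTheory Filter Topology Set Metric Pool.Agent.TH535.SM Pool.Agent.R446.KR
open scoped FourierTransform ComplexConjugate ContDiff

noncomputable section

variable {q k : ℕ}

lemma Sk_filter (k : ℕ) {v T : ℝ} (hT : 0 < T) (hv : v ≤ Real.log T) :
    Sk k v = ∑ n ∈ Finset.Icc 1 ⌊T⌋₊, if Real.log n ≤ v then (W182.KO.dk k n : ℝ) else 0 := by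
  rw [← Finset.sum_filter]
  unfold Sk
  refine Finset.sum_congr ?_ fun _ _ => rfl
  ext n
  rw [Finset.mem_filter]
  constructor
  · intro h
    have hn := (Finset.mem_Icc.1 h).1
    refine ⟨?_, (mem_Sk hn).1 h⟩
    have h1 := ((mem_Sk hn).1 h).trans hv
    have h2 := (mem_Sk (u := Real.log T) hn).2 h1
    rwa [Real.exp_log hT] at h2
  · rintro ⟨h, h1⟩
    exact (mem_Sk (Finset.mem_Icc.1 h).1).2 h1

lemma Sk_diff (k : ℕ) {u h T : ℝ} (hT : 0 < T) (hh : 0 ≤ h) (hv : u + h ≤ Real.log T) :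
    Sk k (u + h) - Sk k u = ∑ n ∈ Finset.Icc 1 ⌊T⌋₊,
      if u < Real.log n ∧ Real.log n ≤ u + h then (W182.KO.dk k n : ℝ) else 0 := by
  rw [Sk_filter k hT hv, Sk_filter k hT (by linarith : u ≤ Real.log T), ← Finset.sum_sub_distrib]
  refine Finset.sum_congr rfl fun n _ => ?_
  by_cases h1 : Real.log n ≤ u
  · rw [if_pos h1, if_pos (by linarith), if_neg (by rintro ⟨h2, -⟩; linarith), sub_self]
  · rw [if_neg h1, sub_zero]
    by_cases h2 : Real.log n ≤ u + h
    · rw [if_pos h2, if_pos ⟨not_le.1 h1, h2⟩]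
    · rw [if_neg h2, if_neg (fun h3 => h2 h3.2)]

lemma uniq_le {u h : ℝ} {m n : ℕ} (hm : 1 ≤ m) (hn : 1 ≤ n) (h2 : Real.exp u * (Real.exp h - 1) < 1)
    (m1 : u < Real.log m) (n2 : Real.log n ≤ u + h) : n ≤ m := by
  have hm0 : (0:ℝ) < m := by exact_mod_cast hm
  have hn0 : (0:ℝ) < n := by exact_mod_cast hn
  have a1 : Real.exp u < m := by rwa [← Real.lt_log_iff_exp_lt hm0]
  have a2 : (n:ℝ) ≤ Real.exp (u + h) := by rwa [← Real.log_le_iff_le_exp hn0]
  rw [Real.exp_add] at a2
  have a3 : (n:ℝ) < m + 1 := by nlinarith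
  have : n < m + 1 := by exact_mod_cast a3
  omega

lemma sq_uniq {s : Finset ℕ} {P : ℕ → Prop} [DecidablePred P] {d : ℕ → ℝ}
    (hu : ∀ m ∈ s, ∀ n ∈ s, P m → P n → m = n) :
    (∑ n ∈ s, if P n then d n else 0) ^ 2 = ∑ n ∈ s, if P n then d n ^ 2 else 0 := by
  by_cases h : ∃ n ∈ s, P n
  · obtain ⟨n, hn, hP⟩ := h
    have e : ∀ m ∈ s, m ≠ n → ¬ P m := fun m hm hmn hPm => hmn (hu m hm n hn hPm hP)
    rw [Finset.sum_eq_single n (fun m hm hmn => if_neg (e m hm hmn)) (fun h => absurd hn h),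
      Finset.sum_eq_single n (fun m hm hmn => if_neg (e m hm hmn)) (fun h => absurd hn h), if_pos hP, if_pos hP]
  · push Not at h
    rw [Finset.sum_eq_zero fun n hn => if_neg (h n hn), Finset.sum_eq_zero fun n hn => if_neg (h n hn)]
    ring

/-- the square of the number of integers in a short interval -/
def Aq (k : ℕ) (h u : ℝ) : ℝ := Real.exp (-u) * (Sk k (u + h) - Sk k u) ^ 2

lemma Aq_nonneg (k : ℕ) (h u : ℝ) : 0 ≤ Aq k h u := by
  unfold Aq; positivity

/-- the contribution of the integers, when an interval holds at most one -/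
lemma Aq_int (k : ℕ) {g : ℝ → ℝ} (hg : Continuous g) {b T : ℝ} (hT : 1 < T) (hb : ∀ v, b ≤ v → g v = 0)
    (h1 : b * Real.log T + T⁻¹ ≤ Real.log T)
    (h2 : Real.exp (b * Real.log T) * (Real.exp T⁻¹ - 1) < 1) :
    ∫ u, g (u / Real.log T) * Aq k T⁻¹ u = ∑ n ∈ Finset.Icc 1 ⌊T⌋₊, (W182.KO.dk k n : ℝ) ^ 2 *
      ∫ u in Ico (Real.log n - T⁻¹) (Real.log n), g (u / Real.log T) * Real.exp (-u) := by
  have hT0 : 0 < T := by linarith
  have hL := Real.log_pos hT
  have hh : 0 < T⁻¹ := inv_pos.2 hT0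
  have e : ∀ u, g (u / Real.log T) * Aq k T⁻¹ u = ∑ n ∈ Finset.Icc 1 ⌊T⌋₊, (W182.KO.dk k n : ℝ) ^ 2 *
      (Ico (Real.log n - T⁻¹) (Real.log n)).indicator (fun u => g (u / Real.log T) * Real.exp (-u)) u := by
    intro u
    by_cases hu : b * Real.log T ≤ u
    · have h0 : g (u / Real.log T) = 0 := hb _ (by rwa [le_div_iff₀ hL])
      rw [h0, zero_mul]
      refine (Finset.sum_eq_zero fun n _ => ?_).symm
      rw [indicator_apply, h0, zero_mul, ite_self, mul_zero]
    · push Not at hu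
      unfold Aq
      rw [Sk_diff k hT0 hh.le (by linarith), sq_uniq, Finset.mul_sum, Finset.mul_sum]
      · refine Finset.sum_congr rfl fun n _ => ?_
        rw [indicator_apply]
        by_cases hn : u < Real.log n ∧ Real.log n ≤ u + T⁻¹
        · rw [if_pos hn, if_pos ⟨by linarith [hn.2], hn.1⟩]
          ring
        · rw [if_neg hn, if_neg (fun h3 : u ∈ Ico _ _ => hn ⟨h3.2, by linarith [h3.1]⟩)]
          ring
      · intro m hm n hn pm pn
        have h3 : Real.exp u * (Real.exp T⁻¹ - 1) < 1 := by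
          refine lt_of_le_of_lt ?_ h2
          have h4 : 0 ≤ Real.exp T⁻¹ - 1 := by
            have := Real.add_one_le_exp T⁻¹
            linarith
          exact mul_le_mul_of_nonneg_right (Real.exp_le_exp.2 hu.le) h4
        have m1 := (Finset.mem_Icc.1 hm).1
        have n1 := (Finset.mem_Icc.1 hn).1
        exact le_antisymm (uniq_le n1 m1 h3 pn.1 pm.2) (uniq_le m1 n1 h3 pm.1 pn.2)
  have hi : ∀ n : ℕ, Integrable ((Ico (Real.log n - T⁻¹) (Real.log n)).indicator
      (fun u => g (u / Real.log T) * Real.exp (-u))) := by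
    intro n
    rw [integrable_indicator_iff measurableSet_Ico]
    exact (Continuous.integrableOn_Icc (by fun_prop)).mono_set Ico_subset_Icc_self
  simp_rw [e]
  rw [integral_finsetSum _ fun n _ => (hi n).const_mul _]
  refine Finset.sum_congr rfl fun n _ => ?_
  rw [integral_const_mul, integral_indicator measurableSet_Ico]

lemma int_cell {g : ℝ → ℝ} (hg : Continuous g) {C1 S : ℝ} (hC1 : 0 ≤ C1) (hS : ∀ v, |g v| ≤ S)
    (hlip : ∀ v w, |g v - g w| ≤ C1 * |v - w|) {n : ℕ} (hn : 1 ≤ n) {h L : ℝ} (hh : 0 ≤ h) (hh1 : h ≤ 1)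
    (hL : 1 ≤ L) :
    |(∫ u in Ico (Real.log n - h) (Real.log n), g (u / L) * Real.exp (-u)) - h * (g (Real.log n / L) / n)| ≤
      (3 * C1 + 2 * S) * h ^ 2 / n := by
  have hn0 : (0:ℝ) < n := by exact_mod_cast hn
  have hS0 : 0 ≤ S := (abs_nonneg _).trans (hS 0)
  have hv : volume.real (Ico (Real.log n - h) (Real.log n)) = h := by
    rw [Real.volume_real_Ico_of_le (by linarith)]
    ring
  have e1 : h * (g (Real.log n / L) / n) =
      ∫ _u in Ico (Real.log n - h) (Real.log n), g (Real.log n / L) / n := by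
    rw [setIntegral_const, hv, smul_eq_mul]
  have hi : IntegrableOn (fun u => g (u / L) * Real.exp (-u)) (Ico (Real.log n - h) (Real.log n)) :=
    (Continuous.integrableOn_Icc (by fun_prop)).mono_set Ico_subset_Icc_self
  rw [e1, ← integral_sub hi (integrableOn_const (by simp) (by simp)), ← Real.norm_eq_abs]
  have h1 := norm_setIntegral_le_of_norm_le_const (μ := volume) (s := Ico (Real.log n - h) (Real.log n))
    (f := fun u => g (u / L) * Real.exp (-u) - g (Real.log n / L) / n) (C := (3 * C1 + 2 * S) * h / n)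
    (by simp) (fun u hu => by
      obtain ⟨u1, u2⟩ := hu
      have hx := Real.abs_exp_sub_one_le (x := h) (by rwa [abs_of_nonneg hh])
      rw [abs_of_nonneg hh] at hx
      have hx1 := (abs_le.1 hx).2
      have a1 : Real.exp (-u) ≤ Real.exp h / n := by
        have e2 : Real.exp h / n = Real.exp (h - Real.log n) := by rw [Real.exp_sub, Real.exp_log hn0]
        rw [e2]
        exact Real.exp_le_exp.2 (by linarith)
      have a2 : 1 / n ≤ Real.exp (-u) := by
        have e2 : 1 / (n:ℝ) = Real.exp (-Real.log n) := by rw [Real.exp_neg, Real.exp_log hn0, one_div]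
        rw [e2]
        exact Real.exp_le_exp.2 (by linarith)
      have a3 : |Real.exp (-u) - 1 / n| ≤ 2 * h / n := by
        rw [abs_of_nonneg (by linarith)]
        have : Real.exp h / n ≤ (1 + 2 * h) / n := by gcongr; linarith
        have e2 : (1 + 2 * h) / n = 1 / n + 2 * h / n := by ring
        linarith
      have a4 : Real.exp (-u) ≤ 3 / n := by
        refine a1.trans ?_
        gcongr
        linarith
      have a5 : |g (u / L) - g (Real.log n / L)| ≤ C1 * h := by
        refine (hlip _ _).trans ?_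
        refine mul_le_mul_of_nonneg_left ?_ hC1
        rw [← sub_div, abs_div, abs_of_pos (by linarith : 0 < L), div_le_iff₀ (by linarith), abs_le]
        constructor <;> nlinarith
      have e3 : g (u / L) * Real.exp (-u) - g (Real.log n / L) / n =
          (g (u / L) - g (Real.log n / L)) * Real.exp (-u) + g (Real.log n / L) * (Real.exp (-u) - 1 / n) := by ring
      rw [e3, Real.norm_eq_abs]
      refine (abs_add_le _ _).trans ?_
      rw [abs_mul, abs_mul, abs_of_pos (Real.exp_pos _)]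
      calc |g (u / L) - g (Real.log n / L)| * Real.exp (-u) + |g (Real.log n / L)| * |Real.exp (-u) - 1 / n| ≤
            (C1 * h) * (3 / n) + S * (2 * h / n) := by
            refine add_le_add (mul_le_mul a5 a4 (Real.exp_pos _).le (by positivity))
              (mul_le_mul (hS _) a3 (abs_nonneg _) hS0)
        _ = _ := by ring)
  refine h1.trans (le_of_eq ?_)
  rw [hv]
  ring

/-- a cut-off -/
def cφ (v : ℝ) : ℝ := max 0 (min 1 (2 - v))

lemma cφ_cont : Continuous cφ := by unfold cφ; fun_prop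

lemma cφ_nonneg (v : ℝ) : 0 ≤ cφ v := le_max_left _ _

lemma cφ_one {v : ℝ} (h : v ≤ 1) : cφ v = 1 := by
  unfold cφ
  rw [min_eq_left (by linarith), max_eq_right (by norm_num)]

lemma cφ_zero {v : ℝ} (h : 2 ≤ v) : cφ v = 0 := by
  unfold cφ
  rw [max_eq_left]
  exact (min_le_right _ _).trans (by linarith)

lemma dsum_le (k : ℕ) {T : ℝ} (hT : 1 < T) :
    ∑ n ∈ Finset.Icc 1 ⌊T⌋₊, (W182.KO.dk k n : ℝ) ^ 2 / n ≤
      ∑' n : ℕ, (W182.KO.dk k n : ℝ) * W182.KO.dk k n / n * cφ (Real.log n / Real.log T) := by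
  have hT0 : 0 < T := by linarith
  have hL := Real.log_pos hT
  have hs : Summable (fun n : ℕ => (W182.KO.dk k n : ℝ) * W182.KO.dk k n / n * cφ (Real.log n / Real.log T)) := by
    refine summable_of_hasFiniteSupport ?_
    refine (Set.finite_Iic ⌈Real.exp (2 * Real.log T)⌉₊).subset fun n hn => ?_
    rw [Function.mem_support] at hn
    rw [Set.mem_Iic]
    by_contra h
    push Not at h
    refine hn ?_
    rw [cφ_zero, mul_zero]
    have h2 : Real.exp (2 * Real.log T) ≤ n := (Nat.le_ceil _).trans (by exact_mod_cast h.le)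
    have h3 := Real.log_le_log (Real.exp_pos _) h2
    rw [Real.log_exp] at h3
    rwa [le_div_iff₀ hL]
  refine le_trans (le_of_eq ?_) (hs.sum_le_tsum (Finset.Icc 1 ⌊T⌋₊) fun n _ => by
    have := cφ_nonneg (Real.log n / Real.log T)
    positivity)
  refine Finset.sum_congr rfl fun n hn => ?_
  have hn1 := (Finset.mem_Icc.1 hn).1
  have h2 := (mem_Sk (u := Real.log T) hn1).1 (by rwa [Real.exp_log hT0])
  rw [cφ_one (by rwa [div_le_one hL]), mul_one]
  ring

lemma dsum_eq (k : ℕ) {g : ℝ → ℝ} {b T : ℝ} (hT : 1 < T) (hb : ∀ v, b ≤ v → g v = 0) (hb1 : b ≤ 1) :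
    ∑ n ∈ Finset.Icc 1 ⌊T⌋₊, (W182.KO.dk k n : ℝ) ^ 2 * (g (Real.log n / Real.log T) / n) =
      ∑' n : ℕ, (W182.KO.dk k n : ℝ) * W182.KO.dk k n / n * g (Real.log n / Real.log T) := by
  have hT0 : 0 < T := by linarith
  have hL := Real.log_pos hT
  rw [tsum_eq_sum (s := Finset.Icc 1 ⌊T⌋₊)]
  · refine Finset.sum_congr rfl fun n hn => ?_
    ring
  · intro n hn
    rcases Nat.eq_zero_or_pos n with h0 | h0
    · subst h0
      simp
    · have h2 : ¬ Real.log n ≤ Real.log T := fun h => hn (by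
        have := (mem_Sk (u := Real.log T) h0).2 h
        rwa [Real.exp_log hT0] at this)
      rw [hb, mul_zero]
      rw [le_div_iff₀ hL]
      push Not at h2
      nlinarith

end

end Pool.Agent.J4.H32.VS
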