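import Pool.Agent.J4.H32.VS.U13

set_option autoImplicit false

/-! The first edge of the spectrum: the limits. -/

namespace Pool.Agent.J4.H32.VS

open Complex MeasureTheory Filter Topology Set Metric Pool.Agent.TH535.SM Pool.Agent.R446.KR
open scoped FourierTransform ComplexConjugate ContDiff

noncomputable section

variable {q k : ℕ}

/-- admissible functions -/
structure Ga (g : ℝ → ℝ) (b R C1 S : ℝ) : Prop where
  cont : Continuous g
  hC1 : 0 ≤ C1
  lip : ∀ v w, |g v - g w| ≤ C1 * |v - w|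
  bd : ∀ v, |g v| ≤ S
  out : ∀ v, b ≤ v → g v = 0
  outl : ∀ v, v ≤ -R → g v = 0

lemma Ga.abs {g : ℝ → ℝ} {b R C1 S : ℝ} (h : Ga g b R C1 S) : Ga (fun v => |g v|) b R C1 S where
  cont := h.cont.abs
  hC1 := h.hC1
  lip v w := (abs_abs_sub_abs_le _ _).trans (h.lip v w)
  bd v := by rw [abs_abs]; exact h.bd v
  out v hv := by rw [h.out v hv, abs_zero]
  outl v hv := by rw [h.outl v hv, abs_zero]

lemma Ga.cs {g : ℝ → ℝ} {b R C1 S : ℝ} (h : Ga g b R C1 S) {L : ℝ} (hL : 0 < L) :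
    HasCompactSupport (fun u : ℝ => g (u / L)) := by
  refine HasCompactSupport.intro (isCompact_Icc (a := -R * L) (b := b * L)) fun u hu => ?_
  rw [mem_Icc, not_and_or, not_le, not_le] at hu
  rcases hu with hu | hu
  · exact h.outl _ (by rw [div_le_iff₀ hL]; exact hu.le)
  · exact h.out _ (by rw [le_div_iff₀ hL]; exact hu.le)

/-- the limit -/
def El (k : ℕ) (g : ℝ → ℝ) : ℝ := H306R2.aF k * ∫ u : ℝ, H306R2.gd ((k:ℝ) * k) u * g u

lemma exp_lim {δ : ℝ} (hδ : 0 < δ) : Tendsto (fun L : ℝ => L * Real.exp (-(δ * L))) atTop (𝓝 0) := by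
  have h1 := (Real.tendsto_pow_mul_exp_neg_atTop_nhds_zero 1).comp (tendsto_id.const_mul_atTop hδ)
  have h2 := h1.const_mul δ⁻¹
  rw [mul_zero] at h2
  refine h2.congr fun L => ?_
  simp only [Function.comp, id, pow_one]
  field_simp

lemma exp_lim0 {δ : ℝ} (hδ : 0 < δ) : Tendsto (fun L : ℝ => Real.exp (-(δ * L))) atTop (𝓝 0) := by
  have h1 := Real.tendsto_exp_neg_atTop_nhds_zero.comp (tendsto_id.const_mul_atTop hδ)
  exact h1

lemma ev_small {b : ℝ} (hb0 : 0 < b) (hb : b < 1) : ∀ᶠ T : ℝ in atTop, 1 < T ∧ 1 ≤ Real.log T ∧ T⁻¹ ≤ 1 / 2 ∧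
    b * Real.log T + T⁻¹ ≤ Real.log T ∧ Real.exp (b * Real.log T) * (Real.exp T⁻¹ - 1) < 1 := by
  have h1 : Tendsto (fun T : ℝ => 2 * Real.exp (-((1 - b) * Real.log T))) atTop (𝓝 (2 * 0)) :=
    ((exp_lim0 (by linarith : 0 < 1 - b)).comp Real.tendsto_log_atTop).const_mul 2
  rw [mul_zero] at h1
  filter_upwards [eventually_ge_atTop 2, Real.tendsto_log_atTop.eventually_ge_atTop (1 / (1 - b) + 1),
    h1.eventually_lt_const one_pos] with T c1 c2 c3
  have hT0 : 0 < T := by linarith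
  have hb' : 0 < 1 - b := by linarith
  have h2 : T⁻¹ ≤ 1 / 2 := by
    rw [one_div]
    exact inv_anti₀ (by norm_num) c1
  have h3 : 0 < 1 / (1 - b) := by positivity
  have h4 : 1 ≤ (1 - b) * Real.log T := by
    have := mul_le_mul_of_nonneg_left c2 hb'.le
    rw [mul_add, mul_one_div_cancel hb'.ne'] at this
    linarith
  refine ⟨by linarith, by linarith, h2, by linarith, lt_of_le_of_lt ?_ c3⟩
  have hi : 0 < T⁻¹ := inv_pos.2 hT0
  have h5 := Real.abs_exp_sub_one_le (x := T⁻¹) (by rw [abs_of_pos hi]; linarith)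
  rw [abs_of_pos hi] at h5
  have h6 := (abs_le.1 h5).2
  calc Real.exp (b * Real.log T) * (Real.exp T⁻¹ - 1) ≤ Real.exp (b * Real.log T) * (2 * T⁻¹) :=
        mul_le_mul_of_nonneg_left h6 (Real.exp_pos _).le
    _ = 2 * (Real.exp (b * Real.log T) * Real.exp (-Real.log T)) := by
        rw [Real.exp_neg, Real.exp_log hT0]; ring
    _ = _ := by
        rw [← Real.exp_add]
        congr 2
        ring

/-- the integers: the limit -/
theorem Aq_lim (hk : 1 ≤ k) {g : ℝ → ℝ} {b R C1 S : ℝ} (h : Ga g b R C1 S) (hb0 : 0 < b) (hb : b < 1) :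
    Tendsto (fun T => (∫ u, g (u / Real.log T) * Aq k T⁻¹ u) / Nh (k ^ 2) T) atTop (𝓝 (El k g)) := by
  have hX := (W182.KO.diag_real hk g h.cont b hb0.le h.out).comp Real.tendsto_log_atTop
  have hY := (W182.KO.diag_real hk cφ cφ_cont 2 (by norm_num) fun u hu => cφ_zero hu).comp Real.tendsto_log_atTop
  have hS0 : 0 ≤ S := (abs_nonneg _).trans (h.bd 0)
  have hE : Tendsto (fun T : ℝ => (3 * C1 + 2 * S) * T⁻¹ * ((∑' n : ℕ, (W182.KO.dk k n : ℝ) * W182.KO.dk k n / n *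
      cφ (Real.log n / Real.log T)) / Real.log T ^ (((k:ℕ):ℝ) ^ 2))) atTop (𝓝 0) := by
    have h1 := (tendsto_inv_atTop_zero (𝕜 := ℝ)).const_mul (3 * C1 + 2 * S)
    have h2 := h1.mul hY
    rwa [mul_zero, zero_mul] at h2
  have key : Tendsto (fun T => (∫ u, g (u / Real.log T) * Aq k T⁻¹ u) / Nh (k ^ 2) T -
      (∑' n : ℕ, (W182.KO.dk k n : ℝ) * W182.KO.dk k n / n * g (Real.log n / Real.log T)) /
        Real.log T ^ (((k:ℕ):ℝ) ^ 2)) atTop (𝓝 0) := by
    rw [tendsto_zero_iff_abs_tendsto_zero]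
    refine squeeze_zero' (Eventually.of_forall fun T => abs_nonneg _) ?_ hE
    filter_upwards [ev_small hb0 hb] with T ⟨c1, c2, c3, c4, c5⟩
    have hT0 : 0 < T := by linarith
    have hi : 0 < T⁻¹ := inv_pos.2 hT0
    have hL := Real.log_pos c1
    have hq : Real.log T ^ (((k:ℕ):ℝ) ^ 2) = Real.log T ^ (k ^ 2) := by
      have e0 : ((k:ℕ):ℝ) ^ 2 = ((k ^ 2 : ℕ) : ℝ) := by push_cast; ring
      rw [e0, Real.rpow_natCast]
    have hLq : 0 < Real.log T ^ (k ^ 2) := pow_pos hL _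
    simp only [Function.comp]
    rw [hq, Nh_eq _ hT0, Aq_int k h.cont c1 h.out c4 c5, ← dsum_eq k c1 h.out hb.le]
    have e1 : (∑ n ∈ Finset.Icc 1 ⌊T⌋₊, (W182.KO.dk k n : ℝ) ^ 2 *
        ∫ u in Ico (Real.log n - T⁻¹) (Real.log n), g (u / Real.log T) * Real.exp (-u)) /
          (T⁻¹ * Real.log T ^ (k ^ 2)) -
        (∑ n ∈ Finset.Icc 1 ⌊T⌋₊, (W182.KO.dk k n : ℝ) ^ 2 * (g (Real.log n / Real.log T) / n)) /
          Real.log T ^ (k ^ 2) =
        (∑ n ∈ Finset.Icc 1 ⌊T⌋₊, (W182.KO.dk k n : ℝ) ^ 2 *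
        ((∫ u in Ico (Real.log n - T⁻¹) (Real.log n), g (u / Real.log T) * Real.exp (-u)) -
          T⁻¹ * (g (Real.log n / Real.log T) / n))) / (T⁻¹ * Real.log T ^ (k ^ 2)) := by
      simp only [mul_sub, Finset.sum_sub_distrib, sub_div]
      congr 1
      have e2 : ∀ n : ℕ, (W182.KO.dk k n : ℝ) ^ 2 * (T⁻¹ * (g (Real.log n / Real.log T) / n)) =
          T⁻¹ * ((W182.KO.dk k n : ℝ) ^ 2 * (g (Real.log n / Real.log T) / n)) := fun n => by ring
      simp only [e2]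
      rw [← Finset.mul_sum, mul_div_mul_left _ _ hi.ne']
    rw [e1, abs_div, abs_of_pos (mul_pos hi hLq), div_le_iff₀ (mul_pos hi hLq)]
    have h2 : |∑ n ∈ Finset.Icc 1 ⌊T⌋₊, (W182.KO.dk k n : ℝ) ^ 2 *
        ((∫ u in Ico (Real.log n - T⁻¹) (Real.log n), g (u / Real.log T) * Real.exp (-u)) -
          T⁻¹ * (g (Real.log n / Real.log T) / n))| ≤
        ∑ n ∈ Finset.Icc 1 ⌊T⌋₊, ((3 * C1 + 2 * S) * T⁻¹ ^ 2) * ((W182.KO.dk k n : ℝ) ^ 2 / n) := by
      refine (Finset.abs_sum_le_sum_abs _ _).trans (Finset.sum_le_sum fun n hn => ?_)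
      rw [abs_mul, abs_of_nonneg (by positivity)]
      have h3 := int_cell h.cont h.hC1 h.bd h.lip (Finset.mem_Icc.1 hn).1 hi.le (by linarith : T⁻¹ ≤ 1) c2
      calc (W182.KO.dk k n : ℝ) ^ 2 * |(∫ u in Ico (Real.log n - T⁻¹) (Real.log n), g (u / Real.log T) *
            Real.exp (-u)) - T⁻¹ * (g (Real.log n / Real.log T) / n)| ≤
            (W182.KO.dk k n : ℝ) ^ 2 * ((3 * C1 + 2 * S) * T⁻¹ ^ 2 / n) :=
            mul_le_mul_of_nonneg_left h3 (by positivity)
        _ = _ := by ring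
    refine h2.trans ?_
    rw [← Finset.mul_sum]
    have h4 := dsum_le k c1
    have h5 : 0 ≤ (3 * C1 + 2 * S) * T⁻¹ ^ 2 := by
      have := h.hC1
      positivity
    refine (mul_le_mul_of_nonneg_left h4 h5).trans (le_of_eq ?_)
    field_simp
  have h3 := key.add hX
  rw [zero_add] at h3
  refine h3.congr fun T => ?_
  simp only [Function.comp]
  ring

/-- the pole part -/
def pk (k : ℕ) (h u : ℝ) : ℂ := (Real.exp (-(u / 2)) : ℝ) * (Rk k (u + h) - Rk k u)

/-- the integer part -/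
def akk (k : ℕ) (h u : ℝ) : ℂ := ((Real.exp (-(u / 2)) * (Sk k (u + h) - Sk k u) : ℝ) : ℂ)

lemma akk_sq (k : ℕ) (h u : ℝ) : ‖akk k h u‖ ^ 2 = Aq k h u := by
  unfold akk Aq
  rw [Complex.norm_real, Real.norm_eq_abs, sq_abs, mul_pow, ← Real.exp_nat_mul]
  congr 2
  push_cast; ring

lemma Ee_akk (k : ℕ) (h u : ℝ) : Ee k h u - akk k h u = -pk k h u := by
  unfold Ee akk pk D0
  push_cast
  ring

lemma pk_cont (k : ℕ) (h : ℝ) : Continuous (pk k h) := by
  unfold pk
  have := Rk_cont k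
  fun_prop

lemma pk_bd (k : ℕ) {b : ℝ} (hb0 : 0 < b) (hb : b < 1) : ∃ C : ℝ, 0 ≤ C ∧ ∃ δ : ℝ, 0 < δ ∧ ∀ L h u : ℝ, 0 ≤ L →
    h = Real.exp (-L) → h ≤ 1 / 2 → u ≤ b * L → ‖pk k h u‖ ^ 2 ≤ C * h * Real.exp (-(δ * L)) := by
  have hr : 0 < (1 - b) / 4 := by linarith
  obtain ⟨C, hC, h1⟩ := Rk_diff k hr (by linarith : (1 - b) / 4 ≤ 1 / 4)
  set r := (1 - b) / 4 with hrdef
  refine ⟨4 * C ^ 2, by positivity, 1 - b * (1 + 2 * r), ?_, fun L h u hL hhL hh hu => ?_⟩
  · nlinarith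
  have hh0 : 0 < h := by rw [hhL]; positivity
  have h2 := h1 h u hh0.le hh
  unfold pk
  rw [norm_mul, mul_pow, Complex.norm_real, Real.norm_of_nonneg (Real.exp_pos _).le, ← Real.exp_nat_mul]
  have e0 : ((2:ℕ):ℝ) * -(u / 2) = -u := by push_cast; ring
  rw [e0]
  have h3 : ‖Rk k (u + h) - Rk k u‖ ^ 2 ≤
      (C * h * (Real.exp ((1 + r) * u) + Real.exp ((1 - r) * u))) ^ 2 := by gcongr
  have h4 : (Real.exp ((1 + r) * u) + Real.exp ((1 - r) * u)) ^ 2 ≤
      2 * (Real.exp ((1 + r) * u) ^ 2 + Real.exp ((1 - r) * u) ^ 2) := by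
    nlinarith [sq_nonneg (Real.exp ((1 + r) * u) - Real.exp ((1 - r) * u))]
  have hbL : 0 ≤ b * L := by positivity
  have h5 : Real.exp (-u) * Real.exp ((1 + r) * u) ^ 2 ≤ Real.exp ((1 + 2 * r) * (b * L)) := by
    rw [← Real.exp_nat_mul, ← Real.exp_add]
    refine Real.exp_le_exp.2 ?_
    push_cast
    nlinarith
  have h6 : Real.exp (-u) * Real.exp ((1 - r) * u) ^ 2 ≤ Real.exp ((1 + 2 * r) * (b * L)) := by
    rw [← Real.exp_nat_mul, ← Real.exp_add]
    refine Real.exp_le_exp.2 ?_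
    push_cast
    have : r ≤ 1 / 4 := by linarith
    nlinarith
  have h7 : h * Real.exp ((1 + 2 * r) * (b * L)) = Real.exp (-((1 - b * (1 + 2 * r)) * L)) := by
    rw [hhL, ← Real.exp_add]
    congr 1; ring
  calc Real.exp (-u) * ‖Rk k (u + h) - Rk k u‖ ^ 2 ≤
        Real.exp (-u) * (C * h * (Real.exp ((1 + r) * u) + Real.exp ((1 - r) * u))) ^ 2 := by gcongr
    _ = (C * h) ^ 2 * (Real.exp (-u) * (Real.exp ((1 + r) * u) + Real.exp ((1 - r) * u)) ^ 2) := by ring
    _ ≤ (C * h) ^ 2 * (Real.exp (-u) * (2 * (Real.exp ((1 + r) * u) ^ 2 + Real.exp ((1 - r) * u) ^ 2))) := by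
        gcongr
    _ = (C * h) ^ 2 * (2 * (Real.exp (-u) * Real.exp ((1 + r) * u) ^ 2 +
          Real.exp (-u) * Real.exp ((1 - r) * u) ^ 2)) := by ring
    _ ≤ (C * h) ^ 2 * (2 * (Real.exp ((1 + 2 * r) * (b * L)) + Real.exp ((1 + 2 * r) * (b * L)))) := by gcongr
    _ = 4 * C ^ 2 * h * (h * Real.exp ((1 + 2 * r) * (b * L))) := by ring
    _ = _ := by rw [h7]

/-- **the variance at the first edge** -/
theorem Ee_lim (hk : 1 ≤ k) {g : ℝ → ℝ} {b R C1 S : ℝ} (h : Ga g b R C1 S) (hR : 0 ≤ R) (hb0 : 0 < b) (hb : b < 1) :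
    Tendsto (fun T => (∫ u, g (u / Real.log T) * ‖Ee k T⁻¹ u‖ ^ 2) / Nh (k ^ 2) T) atTop (𝓝 (El k g)) := by
  have hA := Aq_lim hk h hb0 hb
  have hA' := Aq_lim hk h.abs hb0 hb
  obtain ⟨C, hC, δ, hδ, hp⟩ := pk_bd k hb0 hb
  have hS0 : 0 ≤ S := (abs_nonneg _).trans (h.bd 0)
  have hδ2 : 0 < δ / 2 := by positivity
  have hb1 : 0 ≤ R + b := by positivity
  have hE : Tendsto (fun T : ℝ => 2 * (S * C * (R + b)) * (Real.log T * Real.exp (-(δ / 2 * Real.log T))) +
      Real.exp (-(δ / 2 * Real.log T)) * ((∫ u, |g (u / Real.log T)| * Aq k T⁻¹ u) / Nh (k ^ 2) T)) atTop (𝓝 0) := by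
    have h1 := ((exp_lim hδ2).comp Real.tendsto_log_atTop).const_mul (2 * (S * C * (R + b)))
    have h2 := ((exp_lim0 hδ2).comp Real.tendsto_log_atTop).mul hA'
    have h3 := h1.add h2
    rwa [mul_zero, zero_mul, add_zero] at h3
  have key : Tendsto (fun T => (∫ u, g (u / Real.log T) * ‖Ee k T⁻¹ u‖ ^ 2) / Nh (k ^ 2) T -
      (∫ u, g (u / Real.log T) * Aq k T⁻¹ u) / Nh (k ^ 2) T) atTop (𝓝 0) := by
    rw [tendsto_zero_iff_abs_tendsto_zero]
    refine squeeze_zero' (Eventually.of_forall fun T => abs_nonneg _) ?_ hE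
    filter_upwards [ev_small hb0 hb] with T ⟨c1, c2, c3, c4, c5⟩
    have hT0 : 0 < T := by linarith
    have hi : 0 < T⁻¹ := inv_pos.2 hT0
    have hL := Real.log_pos c1
    have hN := Nh_pos (k ^ 2) c1
    have hcs := h.cs hL
    have gc : Continuous (fun u : ℝ => g (u / Real.log T)) := h.cont.comp (by fun_prop)
    have acs : HasCompactSupport (fun u : ℝ => |g (u / Real.log T)|) := h.abs.cs hL
    have iE := gE_int k T⁻¹ gc hcs
    have iE' := gE_int k T⁻¹ gc.abs acs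
    have ip : Integrable (fun u => |g (u / Real.log T)| * ‖pk k T⁻¹ u‖ ^ 2) := by
      exact Continuous.integrable_of_hasCompactSupport (gc.abs.mul ((pk_cont k T⁻¹).norm.pow 2)) acs.mul_right
    have am : Measurable (fun u => Aq k T⁻¹ u) := by
      unfold Aq
      have := Sk_meas k
      fun_prop
    have iA' : Integrable (fun u => |g (u / Real.log T)| * Aq k T⁻¹ u) := by
      refine ((iE'.const_mul 2).add (ip.const_mul 2)).mono' (gc.abs.measurable.mul am).aestronglyMeasurable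
        (Eventually.of_forall fun u => ?_)
      rw [Real.norm_of_nonneg (mul_nonneg (abs_nonneg _) (Aq_nonneg _ _ _)), ← akk_sq]
      have e : akk k T⁻¹ u = Ee k T⁻¹ u + pk k T⁻¹ u := by
        have := Ee_akk k T⁻¹ u
        linear_combination -this
      have h1 : ‖akk k T⁻¹ u‖ ^ 2 ≤ 2 * ‖Ee k T⁻¹ u‖ ^ 2 + 2 * ‖pk k T⁻¹ u‖ ^ 2 := by
        rw [e]
        have h2 := norm_add_le (Ee k T⁻¹ u) (pk k T⁻¹ u)
        nlinarith [norm_nonneg (Ee k T⁻¹ u + pk k T⁻¹ u), sq_nonneg (‖Ee k T⁻¹ u‖ - ‖pk k T⁻¹ u‖)]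
      have := mul_le_mul_of_nonneg_left h1 (abs_nonneg (g (u / Real.log T)))
      simp only [Pi.add_apply]
      linarith
    have iA : Integrable (fun u => g (u / Real.log T) * Aq k T⁻¹ u) := by
      refine iA'.mono' (gc.measurable.mul am).aestronglyMeasurable (Eventually.of_forall fun u => ?_)
      rw [norm_mul, Real.norm_eq_abs, Real.norm_of_nonneg (Aq_nonneg _ _ _)]
    -- the pole part
    have hLT : T⁻¹ = Real.exp (-Real.log T) := by rw [Real.exp_neg, Real.exp_log hT0]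
    have P1 : ∫ u, |g (u / Real.log T)| * ‖pk k T⁻¹ u‖ ^ 2 ≤
        (S * (C * T⁻¹ * Real.exp (-(δ * Real.log T)))) * ((R + b) * Real.log T) := by
      have h1 : ∫ u, |g (u / Real.log T)| * ‖pk k T⁻¹ u‖ ^ 2 ≤
          ∫ u, (Icc (-R * Real.log T) (b * Real.log T)).indicator
            (fun _ => S * (C * T⁻¹ * Real.exp (-(δ * Real.log T)))) u := by
        refine integral_mono ip ?_ fun u => ?_
        · rw [integrable_indicator_iff measurableSet_Icc]
          exact integrableOn_const (by simp) enorm_ne_top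
        · simp only
          rw [indicator_apply]
          split_ifs with hu
          · exact mul_le_mul (h.bd _) (hp _ _ _ hL.le hLT c3 hu.2) (by positivity) hS0
          · rw [mem_Icc, not_and_or, not_le, not_le] at hu
            have h0 : g (u / Real.log T) = 0 := by
              rcases hu with hu | hu
              · exact h.outl _ (by rw [div_le_iff₀ hL]; exact hu.le)
              · exact h.out _ (by rw [le_div_iff₀ hL]; exact hu.le)
            rw [h0, abs_zero, zero_mul]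
      refine h1.trans (le_of_eq ?_)
      rw [integral_indicator measurableSet_Icc, setIntegral_const, Real.volume_real_Icc_of_le (by nlinarith),
        smul_eq_mul]
      ring
    -- the comparison
    set l : ℝ := Real.exp (-(δ / 2 * Real.log T)) with hl
    have hl0 : 0 < l := Real.exp_pos _
    have hl1 : l ≤ 1 := by
      rw [hl, Real.exp_le_one_iff]
      have : 0 < δ / 2 * Real.log T := by positivity
      linarith
    have hll : Real.exp (-(δ * Real.log T)) = l * l := by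
      rw [hl, ← Real.exp_add]; congr 1; ring
    have h1 : |(∫ u, g (u / Real.log T) * ‖Ee k T⁻¹ u‖ ^ 2) - ∫ u, g (u / Real.log T) * Aq k T⁻¹ u| ≤
        (1 + l⁻¹) * (∫ u, |g (u / Real.log T)| * ‖pk k T⁻¹ u‖ ^ 2) +
          l * ∫ u, |g (u / Real.log T)| * Aq k T⁻¹ u := by
      rw [← integral_sub iE iA, ← integral_const_mul, ← integral_const_mul,
        ← integral_add (ip.const_mul _) (iA'.const_mul _), ← Real.norm_eq_abs]
      refine norm_integral_le_of_norm_le ((ip.const_mul _).add (iA'.const_mul _)) (Eventually.of_forall fun u => ?_)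
      have h2 := sq_cmp (Ee k T⁻¹ u) (akk k T⁻¹ u) hl0
      rw [Ee_akk, norm_neg, akk_sq] at h2
      rw [← mul_sub, norm_mul, Real.norm_eq_abs, Real.norm_eq_abs]
      have h3 := mul_le_mul_of_nonneg_left h2 (abs_nonneg (g (u / Real.log T)))
      linarith
    simp only [Function.comp]
    rw [← sub_div, abs_div, abs_of_pos hN, div_le_iff₀ hN, add_mul]
    have h4 : (1 + l⁻¹) * (∫ u, |g (u / Real.log T)| * ‖pk k T⁻¹ u‖ ^ 2) ≤
        2 * (S * C * (R + b)) * (Real.log T * l) * Nh (k ^ 2) T := by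
      have h5 : 1 + l⁻¹ ≤ 2 * l⁻¹ := by
        have : 1 ≤ l⁻¹ := (one_le_inv₀ hl0).2 hl1
        linarith
      have h6 : T⁻¹ ≤ Nh (k ^ 2) T := by
        rw [Nh_eq _ hT0]
        exact le_mul_of_one_le_right hi.le (one_le_pow₀ c2)
      have h7 : 0 ≤ ∫ u, |g (u / Real.log T)| * ‖pk k T⁻¹ u‖ ^ 2 :=
        integral_nonneg fun u => by positivity
      rw [hll] at P1
      calc (1 + l⁻¹) * (∫ u, |g (u / Real.log T)| * ‖pk k T⁻¹ u‖ ^ 2) ≤
            (2 * l⁻¹) * ((S * (C * T⁻¹ * (l * l))) * ((R + b) * Real.log T)) := by gcongr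
        _ = 2 * (S * C * (R + b)) * (Real.log T * l) * T⁻¹ := by field_simp
        _ ≤ _ := by gcongr
    have h8 : l * ∫ u, |g (u / Real.log T)| * Aq k T⁻¹ u =
        l * ((∫ u, |g (u / Real.log T)| * Aq k T⁻¹ u) / Nh (k ^ 2) T) * Nh (k ^ 2) T := by
      field_simp
    rw [h8] at h1
    linarith
  have h3 := key.add hA
  rw [zero_add] at h3
  refine h3.congr fun T => ?_
  ring

end

end Pool.Agent.J4.H32.VS
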