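import Pool.Agent.J4.H32.VS.U14
import Pool.Agent.J4.H32.VS.Tg

set_option autoImplicit false

/-! One test function: from Gaussian windows to short intervals. -/

namespace Pool.Agent.J4.H32.VS

open Complex MeasureTheory Filter Topology Set Metric Polynomial Pool.Agent.TH535.SM Pool.Agent.R446.KR
open Pool.Agent.J4.H44.LP
open Pool.Agent.J4.H44.OL (Cr Cr_int Rs Rs_int Cr_eq)
open Pool.Agent.W182.KO (TF)
open scoped FourierTransform ComplexConjugate ContDiff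

noncomputable section

variable {q k : ℕ}

/-- the test functions at another scale -/
lemma Sg_rescale (hup : ∃ C : ℝ, ∀ᶠ T : ℝ in atTop, mass k T ≤ C * NN q T) {s : ℝ} (hs : 0 < s) {ξ : ℝ}
    {f : ℝ → ℂ} (hf : TF ξ f) {l : ℂ}
    (h : Tendsto (fun T => Sg (Fh k T⁻¹) (Real.log T) f / (NN q T : ℂ)) atTop (𝓝 l)) :
    Tendsto (fun T => Sg (Fh k (s * T)⁻¹) (Real.log T) f / (NN q T : ℂ)) atTop (𝓝 (s • l)) := by
  obtain ⟨C, hC⟩ := hup
  have tX : Tendsto (fun X : ℝ => s⁻¹ * X) atTop atTop := tendsto_id.const_mul_atTop (inv_pos.2 hs)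
  have hlim : Tendsto (fun X => ∫ y, KL f 1 y * ((Rs (Fh k X⁻¹) (y / 2 / Real.log (s⁻¹ * X)) -
      Rs (Fh k X⁻¹) (y / 2 / Real.log X)) / (NN q X : ℂ))) atTop (𝓝 (∫ y, KL f 1 y * 0)) := by
    refine tendsto_integral_filter_of_dominated_convergence (fun y => ‖KL f 1 y‖ * (2 * C)) ?_ ?_
      ((KL_int hf one_pos).norm.mul_const _) ?_
    · filter_upwards [eventually_ge_atTop 1] with T hT
      have hF := Fh_dec k (h := T⁻¹) (by positivity)
      have := Rs_cont hF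
      have h2 := KL_cont hf 1
      refine Continuous.aestronglyMeasurable ?_
      exact h2.mul (((this.comp (by fun_prop)).sub (this.comp (by fun_prop))).div_const _)
    · filter_upwards [hC, eventually_gt_atTop 1] with T hT1 hT
      have hF := Fh_dec k (h := T⁻¹) (by positivity)
      have hN := NN_pos q hT
      refine Eventually.of_forall fun y => ?_
      rw [norm_mul, norm_div, Complex.norm_real, Real.norm_of_nonneg hN.le]
      refine mul_le_mul_of_nonneg_left ?_ (norm_nonneg _)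
      rw [div_le_iff₀ hN]
      have h1 := Rs_le hF (y / 2 / Real.log (s⁻¹ * T))
      have h2 := Rs_le hF (y / 2 / Real.log T)
      have h3 : ∫ t, ‖Fh k T⁻¹ t‖ ^ 2 ≤ C * NN q T := hT1
      exact (norm_sub_le _ _).trans (by linarith)
    · exact Eventually.of_forall fun y => (Rs_Fh_eq (k := k) (q := q) ⟨C, hC⟩
        (a := fun X => y / 2 / Real.log (s⁻¹ * X)) (b := fun X => y / 2 / Real.log X)
        (log_scale (y / 2) (inv_pos.2 hs))).const_mul _
  simp only [mul_zero, integral_zero] at hlim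
  have h4 : Tendsto (fun X => Sg (Fh k X⁻¹) (Real.log (s⁻¹ * X)) f / (NN q X : ℂ)) atTop (𝓝 l) := by
    have h5 := hlim.add h
    rw [zero_add] at h5
    refine h5.congr' ?_
    filter_upwards [tX.eventually_gt_atTop 1, eventually_gt_atTop 1] with X a1 a2
    have hF := Fh_dec k (h := X⁻¹) (by positivity)
    have hK := KL_int hf one_pos
    have i : ∀ L : ℝ, Integrable (fun y => KL f 1 y * Rs (Fh k X⁻¹) (y / 2 / L)) := fun L => by
      refine (hK.norm.mul_const (∫ t, ‖Fh k X⁻¹ t‖ ^ 2)).mono' ?_ (Eventually.of_forall fun y => ?_)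
      · have := Rs_cont hF
        have h2 := KL_cont hf 1
        exact (h2.mul (this.comp (by fun_prop))).aestronglyMeasurable
      · rw [norm_mul]
        exact mul_le_mul_of_nonneg_left (Rs_le hF _) (norm_nonneg _)
    have e0 : ∀ L : ℝ, 0 < L → Sg (Fh k X⁻¹) L f = ∫ y, KL f 1 y * Rs (Fh k X⁻¹) (y / 2 / L) := fun L hL => by
      rw [Sg_Rs hf hF hL]
      refine integral_congr_ae (Eventually.of_forall fun y => ?_)
      simp only
      rw [div_div]
    rw [e0 _ (Real.log_pos a1), e0 _ (Real.log_pos a2)]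
    have e1 : ∀ y, KL f 1 y * ((Rs (Fh k X⁻¹) (y / 2 / Real.log (s⁻¹ * X)) -
        Rs (Fh k X⁻¹) (y / 2 / Real.log X)) / (NN q X : ℂ)) =
        (KL f 1 y * Rs (Fh k X⁻¹) (y / 2 / Real.log (s⁻¹ * X)) - KL f 1 y *
          Rs (Fh k X⁻¹) (y / 2 / Real.log X)) / (NN q X : ℂ) := fun y => by ring
    simp only [e1]
    rw [integral_div, integral_sub (i _) (i _), ← add_div, sub_add_cancel]
  have h5 := scale_lim (smul_formC.1 h4) hs
  refine h5.congr' ?_
  filter_upwards [eventually_gt_atTop 1] with T hT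
  have e : s⁻¹ * (s * T) = T := by field_simp
  simp only [e]
  rw [Complex.real_smul, Complex.ofReal_inv, div_eq_inv_mul]

/-- the absolute means, uniformly in the shift -/
lemma Pa_upu (hup : ∃ C : ℝ, ∀ᶠ T in atTop, mass k T ≤ C * NN q T) {c : ℝ} (hc : 0 < c) :
    ∃ C : ℝ, 0 ≤ C ∧ ∀ α : ℝ, ∀ᶠ T : ℝ in atTop, Integrable (fun t => gz c (t / T) * ‖Pa k (α / Real.log T) t‖) ∧
      ∫ t, gz c (t / T) * ‖Pa k (α / Real.log T) t‖ ≤ C * NN q T := by
  obtain ⟨C, hC⟩ := hup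
  set s : ℝ := (√c)⁻¹ with hs
  have hs0 : 0 < s := by positivity
  have t1 : Tendsto (fun T : ℝ => s * T) atTop atTop := tendsto_id.const_mul_atTop hs0
  have h1 := (NN_scale q hs0).eventually_le_const (show s < s + 1 by linarith)
  refine ⟨Real.exp 1 * (|C| * (s + 1)), by positivity, fun α => ?_⟩
  filter_upwards [t1.eventually hC, t1.eventually_ge_atTop 1, shift_small α, h1, eventually_gt_atTop 1]
    with T a1 a2 a3 a4 a5
  obtain ⟨i1, b1⟩ := Pa_abs k a2 a3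
  have e : (fun t => gz c (t / T) * ‖Pa k (α / Real.log T) t‖) =
      fun t => eg 0 (t / (s * T)) * ‖Pa k (α / Real.log T) t‖ := by
    funext t
    rw [gz_scale hc]
  rw [e]
  refine ⟨i1, b1.trans ?_⟩
  have hN := NN_pos q a5
  rw [mul_assoc]
  refine mul_le_mul_of_nonneg_left ?_ (Real.exp_pos _).le
  rw [div_le_iff₀ hN] at a4
  have hN2 : 0 ≤ NN q (s * T) := by
    unfold NN
    have := Real.log_nonneg a2
    positivity
  calc mass k (s * T) ≤ C * NN q (s * T) := a1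
    _ ≤ |C| * NN q (s * T) := mul_le_mul_of_nonneg_right (le_abs_self C) hN2
    _ ≤ |C| * ((s + 1) * NN q T) := mul_le_mul_of_nonneg_left a4 (abs_nonneg _)
    _ = _ := by ring

/-- approximation of a weight -/
lemma wq_near {c : ℝ} (hc : 0 < c) {ψ : ℝ → ℝ} (hψ : Continuous ψ) (h0 : Tendsto ψ atTop (𝓝 0))
    (hev : ∀ x, ψ (-x) = ψ x) {ε : ℝ} (hε : 0 < ε) :
    ∃ p : ℝ[X], ∀ x : ℝ, |gz c x * ψ x - wq c p x| ≤ ε * gz c x := by
  obtain ⟨p, hp⟩ := exists_polynomial_near_of_continuousOn 0 1 (pb c ψ) (pb_cont hc hψ h0) ε hε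
  refine ⟨p, fun x => ?_⟩
  have hy : gz c x ∈ Icc (0:ℝ) 1 := ⟨(gz_pos c x).le, by
    unfold gz
    rw [Real.exp_le_one_iff]
    have : 0 ≤ c * x ^ 2 := by positivity
    linarith⟩
  have e1 : pb c ψ (gz c x) = ψ x := by
    unfold pb
    rw [if_neg (not_le.2 (gz_pos c x))]
    have e2 : -Real.log (gz c x) / c = x ^ 2 := by
      unfold gz
      rw [Real.log_exp]
      field_simp
    rw [e2, Real.sqrt_sq_eq_abs]
    rcases abs_choice x with h | h <;> rw [h]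
    exact hev x
  have h1 := hp _ hy
  rw [e1] at h1
  unfold wq
  rw [← mul_sub, abs_mul, abs_of_pos (gz_pos c x), mul_comm, abs_sub_comm]
  exact mul_le_mul_of_nonneg_right h1.le (gz_pos c x).le

/-- the factor of a shift -/
def Ex2 (δ α T : ℝ) : ℝ := Real.exp (-((δ / T) ^ 2 * (α / Real.log T) ^ 2))

lemma Ex2_lim (δ α : ℝ) : Tendsto (fun T : ℝ => ((Ex2 δ α T : ℝ) : ℂ)) atTop (𝓝 1) := by
  have h3 : Tendsto (fun T : ℝ => -((δ / T) ^ 2 * (α / Real.log T) ^ 2)) atTop (𝓝 (-(0 ^ 2 * 0 ^ 2))) := by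
    refine Tendsto.neg (Tendsto.mul (Tendsto.pow ?_ 2) (Tendsto.pow ?_ 2))
    · exact tendsto_const_nhds.div_atTop tendsto_id
    · exact tendsto_const_nhds.div_atTop Real.tendsto_log_atTop
  have h4 := (Complex.continuous_ofReal.tendsto _).comp ((Real.continuous_exp.tendsto _).comp h3)
  have e : ((Real.exp (-((0:ℝ) ^ 2 * (0:ℝ) ^ 2)) : ℝ) : ℂ) = 1 := by simp
  rw [e] at h4
  exact h4

/-- the correlations of the smoothed short intervals, up to small errors -/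
lemma Rs_Gb_err (hup : ∃ C : ℝ, ∀ᶠ T in atTop, mass k T ≤ C * NN q T) {δ : ℝ} (hδ : 0 < δ) (α : ℝ) :
    Tendsto (fun T => Rs (Gb k T⁻¹ (δ / T)) (α / Real.log T) / ((Nh q T : ℝ) : ℂ) -
      ((Ex2 δ α T : ℝ) : ℂ) *
        ((∫ t : ℝ, ((gz (δ ^ 2) (t / T) * fj (t / T) : ℝ) : ℂ) * Pa k (α / Real.log T) t) / (NN q T : ℂ)))
      atTop (𝓝 0) := by
  obtain ⟨C, hC⟩ := hup
  have hs0 : 0 < δ⁻¹ := by positivity
  have t1 : Tendsto (fun T : ℝ => δ⁻¹ * T) atTop atTop := tendsto_id.const_mul_atTop hs0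
  have h6 := (NN_scale q hs0).eventually_le_const (show δ⁻¹ < δ⁻¹ + 1 by linarith)
  have herr : Tendsto (fun T : ℝ => 9 * (|C| * (δ⁻¹ + 1)) * T⁻¹) atTop (𝓝 0) := by
    simpa using tendsto_inv_atTop_zero.const_mul (9 * (|C| * (δ⁻¹ + 1)))
  rw [tendsto_zero_iff_norm_tendsto_zero]
  refine squeeze_zero' (Eventually.of_forall fun T => norm_nonneg _) ?_ herr
  filter_upwards [t1.eventually hC, t1.eventually_ge_atTop 1, shift_small α, h6, eventually_ge_atTop 2]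
    with T a1 a2 a3 a4 a5
  have hT0 : 0 < T := by linarith
  have hN := NN_pos q (show 1 < T by linarith)
  have hNh := Nh_pos q (show 1 < T by linarith)
  have hh1 : T⁻¹ ≤ 1 / 2 := by
    rw [one_div]
    exact inv_anti₀ (by norm_num) a5
  have b1 := Rs_Gb k (h := T⁻¹) (ε := δ / T) (by positivity) hh1 (by positivity) a3
  have e2 : ∫ t : ℝ, ((gz ((δ / T) ^ 2) t * fj (T⁻¹ * t) : ℝ) : ℂ) * Pa k (α / Real.log T) t =
      ∫ t : ℝ, ((gz (δ ^ 2) (t / T) * fj (t / T) : ℝ) : ℂ) * Pa k (α / Real.log T) t := by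
    refine integral_congr_ae (Eventually.of_forall fun t => ?_)
    simp only
    have e3 : gz ((δ / T) ^ 2) t = gz (δ ^ 2) (t / T) := by
      unfold gz
      congr 1
      field_simp
    rw [e3, show T⁻¹ * t = t / T by ring]
  rw [e2] at b1
  have e4 : (δ / T)⁻¹ = δ⁻¹ * T := by field_simp
  rw [e4] at b1
  rw [div_le_iff₀ hN] at a4
  have hN2 : 0 ≤ NN q (δ⁻¹ * T) := by
    unfold NN
    have := Real.log_nonneg a2
    positivity
  have b2 : mass k (δ⁻¹ * T) ≤ |C| * (δ⁻¹ + 1) * NN q T := by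
    calc mass k (δ⁻¹ * T) ≤ C * NN q (δ⁻¹ * T) := a1
      _ ≤ |C| * NN q (δ⁻¹ * T) := mul_le_mul_of_nonneg_right (le_abs_self C) hN2
      _ ≤ |C| * ((δ⁻¹ + 1) * NN q T) := mul_le_mul_of_nonneg_left a4 (abs_nonneg _)
      _ = _ := by ring
  unfold Ex2
  set X := Rs (Gb k T⁻¹ (δ / T)) (α / Real.log T) with hX
  set E : ℂ := ((Real.exp (-((δ / T) ^ 2 * (α / Real.log T) ^ 2)) : ℝ) : ℂ) with hE
  set J : ℂ := ∫ t : ℝ, ((gz (δ ^ 2) (t / T) * fj (t / T) : ℝ) : ℂ) * Pa k (α / Real.log T) t with hJ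
  have hNc : (NN q T : ℂ) ≠ 0 := by exact_mod_cast hN.ne'
  have hTc : (T : ℂ) ≠ 0 := by exact_mod_cast hT0.ne'
  have e5 : X / ((Nh q T : ℝ) : ℂ) - E * (J / (NN q T : ℂ)) =
      (X - ((T⁻¹ : ℝ) : ℂ) ^ 2 * (E * J)) / ((Nh q T : ℝ) : ℂ) := by
    unfold Nh
    push_cast
    field_simp
  rw [e5, norm_div, Complex.norm_real, Real.norm_of_nonneg hNh.le, div_le_iff₀ hNh]
  calc _ ≤ 9 * T⁻¹ ^ 3 * mass k (δ⁻¹ * T) := b1
    _ ≤ 9 * T⁻¹ ^ 3 * (|C| * (δ⁻¹ + 1) * NN q T) := by gcongr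
    _ = _ := by unfold Nh; ring

/-- the Gaussian mean as a correlation -/
lemma gz_Rs (k : ℕ) {c T : ℝ} (hc : 0 < c) (hT : 0 < T) (a : ℝ) :
    Rs (Fh k ((√c)⁻¹ * T)⁻¹) a = ((Real.exp (-(((√c)⁻¹ * T)⁻¹ ^ 2 * a ^ 2)) : ℝ) : ℂ) *
      ∫ t : ℝ, ((gz c (t / T) : ℝ) : ℂ) * Pa k a t := by
  have hs0 : 0 < (√c)⁻¹ := by positivity
  rw [← Cr_eq (Fh_dec k (h := ((√c)⁻¹ * T)⁻¹) (by positivity)), Cr_Fh]
  congr 1
  refine integral_congr_ae (Eventually.of_forall fun t => ?_)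
  simp only
  rw [gz_scale hc, eg_zero]
  unfold Pa
  ring

end

end Pool.Agent.J4.H32.VS
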