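import Pool.Agent.J4.H32.VS.U15

set_option autoImplicit false

/-! One test function: the smoothed short intervals. -/

namespace Pool.Agent.J4.H32.VS

open Complex MeasureTheory Filter Topology Set Metric Polynomial Pool.Agent.TH535.SM Pool.Agent.R446.KR
open Pool.Agent.J4.H44.LP
open Pool.Agent.J4.H44.OL (Cr Cr_int Rs Rs_int Cr_eq)
open Pool.Agent.W182.KO (TF)
open scoped FourierTransform ComplexConjugate ContDiff

noncomputable section

variable {q k : ℕ}

/-- the scales of the Gaussian polynomials -/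
def sj (c : ℝ) (j : ℕ) : ℝ := (√(c * (j + 1)))⁻¹

lemma sj_pos {c : ℝ} (hc : 0 < c) (j : ℕ) : 0 < sj c j := by unfold sj; positivity

/-- a combination of correlations -/
def Sm (k : ℕ) (c : ℝ) (p : ℝ[X]) (T a : ℝ) : ℂ :=
  ∑ j ∈ Finset.range (p.natDegree + 1), (p.coeff j : ℂ) * Rs (Fh k (sj c j * T)⁻¹) a

lemma wq_Pa (k : ℕ) {c T : ℝ} (hc : 0 < c) (hT : 0 < T) (p : ℝ[X]) (a : ℝ) :
    Integrable (fun t : ℝ => ((wq c p (t / T) : ℝ) : ℂ) * Pa k a t) ∧
    ∫ t : ℝ, ((wq c p (t / T) : ℝ) : ℂ) * Pa k a t = ∑ j ∈ Finset.range (p.natDegree + 1), (p.coeff j : ℂ) *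
      ∫ t : ℝ, ((gz (c * (j + 1)) (t / T) : ℝ) : ℂ) * Pa k a t := by
  have e2 : (fun t : ℝ => ((wq c p (t / T) : ℝ) : ℂ) * Pa k a t) = fun t =>
      ∑ j ∈ Finset.range (p.natDegree + 1), (p.coeff j : ℂ) *
        (((gz (c * (j + 1)) (t / T) : ℝ) : ℂ) * Pa k a t) := by
    funext t
    rw [wq_eq, Complex.ofReal_sum, Finset.sum_mul]
    refine Finset.sum_congr rfl fun j _ => ?_
    push_cast
    ring
  rw [e2]
  refine ⟨integrable_finsetSum _ fun j _ => (Pa_gint k _ (by positivity) hT).const_mul _, ?_⟩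
  rw [integral_finsetSum _ fun j _ => (Pa_gint k _ (by positivity) hT).const_mul _]
  refine Finset.sum_congr rfl fun j _ => ?_
  rw [integral_const_mul]

lemma Sm_err (hup : ∃ C : ℝ, ∀ᶠ T in atTop, mass k T ≤ C * NN q T) {c : ℝ} (hc : 0 < c) (δ α : ℝ) (p : ℝ[X]) :
    Tendsto (fun T => ((Ex2 δ α T : ℝ) : ℂ) * ((∫ t : ℝ, ((wq c p (t / T) : ℝ) : ℂ) * Pa k (α / Real.log T) t) /
      (NN q T : ℂ)) - Sm k c p T (α / Real.log T) / (NN q T : ℂ)) atTop (𝓝 0) := by
  have hj : ∀ j : ℕ, Tendsto (fun T : ℝ => (((Ex2 δ α T : ℝ) : ℂ) - ((Ex2 (sj c j)⁻¹ α T : ℝ) : ℂ)) *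
      ((∫ t : ℝ, ((gz (c * (j + 1)) (t / T) : ℝ) : ℂ) * Pa k (α / Real.log T) t) / (NN q T : ℂ))) atTop (𝓝 0) := by
    intro j
    have hcj : 0 < c * ((j:ℝ) + 1) := by positivity
    obtain ⟨C, hC, hb⟩ := Pa_upu (k := k) (q := q) hup hcj
    have h1 := ((Ex2_lim δ α).sub (Ex2_lim (sj c j)⁻¹ α)).norm
    rw [sub_self, norm_zero] at h1
    have h2 := h1.mul_const C
    rw [zero_mul] at h2
    rw [tendsto_zero_iff_norm_tendsto_zero]
    refine squeeze_zero' (Eventually.of_forall fun T => norm_nonneg _) ?_ h2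
    filter_upwards [hb α, eventually_gt_atTop 1] with T a1 a2
    have hN := NN_pos q a2
    rw [norm_mul]
    refine mul_le_mul_of_nonneg_left ?_ (norm_nonneg _)
    rw [norm_div, Complex.norm_real, Real.norm_of_nonneg hN.le, div_le_iff₀ hN]
    refine (norm_integral_le_of_norm_le a1.1 (Eventually.of_forall fun t => ?_)).trans a1.2
    rw [norm_mul, Complex.norm_real, Real.norm_of_nonneg (gz_pos _ _).le]
  have h1 := tendsto_finsetSum (Finset.range (p.natDegree + 1)) fun j _ => (hj j).const_mul (p.coeff j : ℂ)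
  simp only [mul_zero, Finset.sum_const_zero] at h1
  refine h1.congr' ?_
  filter_upwards [eventually_gt_atTop 0] with T hT
  rw [(wq_Pa k hc hT p _).2]
  unfold Sm
  rw [Finset.sum_div, Finset.mul_sum, Finset.sum_div, ← Finset.sum_sub_distrib]
  refine Finset.sum_congr rfl fun j _ => ?_
  have hcj : 0 < c * ((j:ℝ) + 1) := by positivity
  have e1 := gz_Rs k hcj hT (α / Real.log T)
  have e2 : sj c j * T = (√(c * (j + 1)))⁻¹ * T := rfl
  have e3 : Ex2 (sj c j)⁻¹ α T = Real.exp (-(((√(c * (j + 1)))⁻¹ * T)⁻¹ ^ 2 * (α / Real.log T) ^ 2)) := by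
    unfold Ex2 sj
    congr 3
    rw [inv_inv, mul_inv, inv_inv, div_eq_mul_inv]
  rw [e2, e1, e3]
  ring

/-- the approximation of the correlations -/
lemma Rs_Gb_near (hup : ∃ C : ℝ, ∀ᶠ T in atTop, mass k T ≤ C * NN q T) {δ : ℝ} (hδ : 0 < δ) :
    ∃ C : ℝ, 0 ≤ C ∧ ∀ (η : ℝ) (p : ℝ[X]), 0 ≤ η →
      (∀ x : ℝ, |gz (δ ^ 2) x * fj x - wq (δ ^ 2 / 2) p x| ≤ η * gz (δ ^ 2 / 2) x) → ∀ α ε : ℝ, 0 < ε →
      ∀ᶠ T : ℝ in atTop, ‖Rs (Gb k T⁻¹ (δ / T)) (α / Real.log T) / ((Nh q T : ℝ) : ℂ) -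
        Sm k (δ ^ 2 / 2) p T (α / Real.log T) / (NN q T : ℂ)‖ ≤ C * η + ε := by
  have hc : 0 < δ ^ 2 / 2 := by positivity
  obtain ⟨C, hC, hb⟩ := Pa_upu (k := k) (q := q) hup hc
  refine ⟨C, hC, fun η p hη hp α ε hε => ?_⟩
  have h1 := Rs_Gb_err (k := k) (q := q) hup hδ α
  have h2 := Sm_err (k := k) (q := q) hup hc δ α p
  have h3 := (h1.add h2).norm
  rw [add_zero, norm_zero] at h3
  filter_upwards [h3.eventually_le_const hε, hb α, eventually_gt_atTop 1] with T a1 a2 a3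
  have hT0 : 0 < T := by linarith
  have hN := NN_pos q a3
  obtain ⟨i1, b1⟩ := a2
  have hPc := Pa_cont k (α / Real.log T)
  have iw : Integrable (fun t : ℝ => ((gz (δ ^ 2) (t / T) * fj (t / T) : ℝ) : ℂ) * Pa k (α / Real.log T) t) := by
    refine i1.mono' ?_ (Eventually.of_forall fun t => ?_)
    · have := gz_cont (δ ^ 2)
      have := fj_cont
      exact Continuous.aestronglyMeasurable (by fun_prop)
    · rw [norm_mul, Complex.norm_real, norm_mul, Real.norm_of_nonneg (gz_pos _ _).le,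
        Real.norm_of_nonneg (fj_nonneg _)]
      refine mul_le_mul_of_nonneg_right ?_ (norm_nonneg _)
      refine (mul_le_of_le_one_right (gz_pos _ _).le (fj_le _)).trans ?_
      unfold gz
      refine Real.exp_le_exp.2 ?_
      have : 0 ≤ δ ^ 2 * (t / T) ^ 2 := by positivity
      linarith
  have hd : ‖(∫ t : ℝ, ((gz (δ ^ 2) (t / T) * fj (t / T) : ℝ) : ℂ) * Pa k (α / Real.log T) t) -
      ∫ t : ℝ, ((wq (δ ^ 2 / 2) p (t / T) : ℝ) : ℂ) * Pa k (α / Real.log T) t‖ ≤ η * (C * NN q T) := by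
    rw [← integral_sub iw (wq_Pa k hc hT0 p _).1]
    refine (norm_integral_le_of_norm_le (i1.const_mul η) (Eventually.of_forall fun t => ?_)).trans ?_
    · rw [← sub_mul, norm_mul, ← Complex.ofReal_sub, Complex.norm_real, Real.norm_eq_abs, ← mul_assoc]
      exact mul_le_mul_of_nonneg_right (hp (t / T)) (norm_nonneg _)
    · rw [integral_const_mul]
      exact mul_le_mul_of_nonneg_left b1 hη
  set X := ∫ t : ℝ, ((gz (δ ^ 2) (t / T) * fj (t / T) : ℝ) : ℂ) * Pa k (α / Real.log T) t with hX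
  set Y := ∫ t : ℝ, ((wq (δ ^ 2 / 2) p (t / T) : ℝ) : ℂ) * Pa k (α / Real.log T) t with hY
  have hE : ‖((Ex2 δ α T : ℝ) : ℂ)‖ ≤ 1 := by
    unfold Ex2
    rw [Complex.norm_real, Real.norm_of_nonneg (Real.exp_pos _).le]
    rw [Real.exp_le_one_iff]
    have : 0 ≤ (δ / T) ^ 2 * (α / Real.log T) ^ 2 := by positivity
    linarith
  have e : Rs (Gb k T⁻¹ (δ / T)) (α / Real.log T) / ((Nh q T : ℝ) : ℂ) -
      Sm k (δ ^ 2 / 2) p T (α / Real.log T) / (NN q T : ℂ) =
      ((Rs (Gb k T⁻¹ (δ / T)) (α / Real.log T) / ((Nh q T : ℝ) : ℂ) - ((Ex2 δ α T : ℝ) : ℂ) * (X / (NN q T : ℂ))) +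
      (((Ex2 δ α T : ℝ) : ℂ) * (Y / (NN q T : ℂ)) - Sm k (δ ^ 2 / 2) p T (α / Real.log T) / (NN q T : ℂ))) +
      ((Ex2 δ α T : ℝ) : ℂ) * ((X - Y) / (NN q T : ℂ)) := by ring
  rw [e]
  refine (norm_add_le _ _).trans ?_
  have h5 : ‖((Ex2 δ α T : ℝ) : ℂ) * ((X - Y) / (NN q T : ℂ))‖ ≤ C * η := by
    rw [norm_mul, norm_div, Complex.norm_real (NN q T), Real.norm_of_nonneg hN.le]
    calc _ ≤ 1 * (η * (C * NN q T) / NN q T) := by gcongr
      _ = _ := by field_simp
  linarith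

/-- the mass of the smoothed short intervals -/
lemma Gb_up (hup : ∃ C : ℝ, ∀ᶠ T in atTop, mass k T ≤ C * NN q T) {δ : ℝ} (hδ : 0 < δ) :
    ∃ C : ℝ, 0 ≤ C ∧ ∀ᶠ T : ℝ in atTop, ∫ t, ‖Gb k T⁻¹ (δ / T) t‖ ^ 2 ≤ C * Nh q T := by
  obtain ⟨C, hC⟩ := hup
  have hs0 : 0 < δ⁻¹ := by positivity
  have t1 : Tendsto (fun T : ℝ => δ⁻¹ * T) atTop atTop := tendsto_id.const_mul_atTop hs0
  have h6 := (NN_scale q hs0).eventually_le_const (show δ⁻¹ < δ⁻¹ + 1 by linarith)
  refine ⟨Real.exp 1 * (|C| * (δ⁻¹ + 1)), by positivity, ?_⟩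
  filter_upwards [t1.eventually hC, t1.eventually_ge_atTop 1, h6, eventually_ge_atTop 2] with T a1 a2 a4 a5
  have hT0 : 0 < T := by linarith
  have hN := NN_pos q (show 1 < T by linarith)
  have hF := Fh_dec k (h := δ / T) (by positivity)
  have hG := Gb_dec k (h := T⁻¹) (ε := δ / T) (by positivity) (by positivity)
  rw [div_le_iff₀ hN] at a4
  have hN2 : 0 ≤ NN q (δ⁻¹ * T) := by
    unfold NN
    have := Real.log_nonneg a2
    positivity
  have e4 : (δ⁻¹ * T)⁻¹ = δ / T := by field_simp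
  have b2 : ∫ t, ‖Fh k (δ / T) t‖ ^ 2 ≤ |C| * (δ⁻¹ + 1) * NN q T := by
    calc ∫ t, ‖Fh k (δ / T) t‖ ^ 2 = mass k (δ⁻¹ * T) := by unfold mass; rw [e4]
      _ ≤ C * NN q (δ⁻¹ * T) := a1
      _ ≤ |C| * NN q (δ⁻¹ * T) := mul_le_mul_of_nonneg_right (le_abs_self C) hN2
      _ ≤ |C| * ((δ⁻¹ + 1) * NN q T) := mul_le_mul_of_nonneg_left a4 (abs_nonneg _)
      _ = _ := by ring
  have hT1 : T⁻¹ ≤ 1 := inv_le_one_of_one_le₀ (by linarith)
  have b3 : ∫ t, ‖Gb k T⁻¹ (δ / T) t‖ ^ 2 ≤ ∫ t, (Real.exp 1 * T⁻¹ ^ 2) * ‖Fh k (δ / T) t‖ ^ 2 := by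
    refine integral_mono hG.sq (hF.sq.const_mul _) fun t => ?_
    simp only
    unfold Gb
    rw [norm_mul, mul_pow]
    refine mul_le_mul_of_nonneg_right ?_ (by positivity)
    calc ‖kap T⁻¹ t‖ ^ 2 ≤ (T⁻¹ * Real.exp (T⁻¹ / 2)) ^ 2 := by
          gcongr
          exact kap_norm (by positivity) t
      _ = Real.exp T⁻¹ * T⁻¹ ^ 2 := by
          rw [mul_pow, ← Real.exp_nat_mul, mul_comm]
          congr 2
          push_cast; ring
      _ ≤ _ := by gcongr
  refine b3.trans ?_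
  rw [integral_const_mul]
  calc Real.exp 1 * T⁻¹ ^ 2 * ∫ t, ‖Fh k (δ / T) t‖ ^ 2 ≤
        Real.exp 1 * T⁻¹ ^ 2 * (|C| * (δ⁻¹ + 1) * NN q T) := by gcongr
    _ = _ := by unfold Nh; ring

lemma Sm_int {c T : ℝ} (hc : 0 < c) (hT : 0 < T) (p : ℝ[X]) {ξ : ℝ} {f : ℝ → ℂ} (hf : TF ξ f) {L : ℝ} (hL : 0 < L) :
    Integrable (fun y => KL f 1 y * Sm k c p T (y / 2 / L)) ∧
    ∫ y, KL f 1 y * Sm k c p T (y / 2 / L) = ∑ j ∈ Finset.range (p.natDegree + 1), (p.coeff j : ℂ) *
      Sg (Fh k (sj c j * T)⁻¹) L f := by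
  have hK := KL_int hf one_pos
  have hKc := KL_cont hf 1
  have i : ∀ j : ℕ, Integrable (fun y => KL f 1 y * Rs (Fh k (sj c j * T)⁻¹) (y / 2 / L)) := fun j => by
    have hs := sj_pos hc j
    have hF := Fh_dec k (h := (sj c j * T)⁻¹) (by positivity)
    refine (hK.norm.mul_const (∫ t, ‖Fh k (sj c j * T)⁻¹ t‖ ^ 2)).mono' ?_ (Eventually.of_forall fun y => ?_)
    · have := Rs_cont hF
      exact (hKc.mul (this.comp (by fun_prop))).aestronglyMeasurable
    · rw [norm_mul]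
      exact mul_le_mul_of_nonneg_left (Rs_le hF _) (norm_nonneg _)
  have e : (fun y => KL f 1 y * Sm k c p T (y / 2 / L)) = fun y => ∑ j ∈ Finset.range (p.natDegree + 1),
      (p.coeff j : ℂ) * (KL f 1 y * Rs (Fh k (sj c j * T)⁻¹) (y / 2 / L)) := by
    funext y
    unfold Sm
    rw [Finset.mul_sum]
    refine Finset.sum_congr rfl fun j _ => ?_
    ring
  rw [e]
  refine ⟨integrable_finsetSum _ fun j _ => (i j).const_mul _, ?_⟩
  rw [integral_finsetSum _ fun j _ => (i j).const_mul _]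
  refine Finset.sum_congr rfl fun j _ => ?_
  have hs := sj_pos hc j
  rw [integral_const_mul, Sg_Rs hf (Fh_dec k (h := (sj c j * T)⁻¹) (by positivity)) hL]
  congr 1
  refine integral_congr_ae (Eventually.of_forall fun y => ?_)
  simp only
  rw [div_div]

/-- **one test function** for the smoothed short intervals -/
theorem Sg_Gb_one (hup : ∃ C : ℝ, ∀ᶠ T in atTop, mass k T ≤ C * NN q T) {δ : ℝ} (hδ : 0 < δ) {ξ : ℝ} {f : ℝ → ℂ}
    (hf : TF ξ f) {l : ℂ}
    (h : Tendsto (fun T => Sg (Fh k T⁻¹) (Real.log T) f / (NN q T : ℂ)) atTop (𝓝 (√Real.pi * l))) :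
    Tendsto (fun T => Sg (Gb k T⁻¹ (δ / T)) (Real.log T) f / ((Nh q T : ℝ) : ℂ)) atTop
      (𝓝 (((Jc (δ ^ 2) : ℝ) : ℂ) * l)) := by
  set c : ℝ := δ ^ 2 / 2 with hcd
  have hc : 0 < c := by positivity
  obtain ⟨C, hC, hnear⟩ := Rs_Gb_near (k := k) (q := q) hup hδ
  obtain ⟨Cg, hCg, hGu⟩ := Gb_up (k := k) (q := q) hup hδ
  have hK := KL_int hf one_pos
  have hKc := KL_cont hf 1
  set K0 : ℝ := ∫ y, ‖KL f 1 y‖ with hK0
  have hK00 : 0 ≤ K0 := integral_nonneg fun y => norm_nonneg _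
  set J0 : ℝ := ∫ x, gz c x with hJ0
  have hJ00 : 0 ≤ J0 := integral_nonneg fun x => (gz_pos c x).le
  -- the weight
  have hψ : Continuous (fun x => gz c x * fj x) := (gz_cont _).mul fj_cont
  have hψ0 : Tendsto (fun x => gz c x * fj x) atTop (𝓝 0) :=
    squeeze_zero (fun x => mul_nonneg (gz_pos _ x).le (fj_nonneg x))
      (fun x => mul_le_of_le_one_right (gz_pos _ x).le (fj_le x)) (gz_top hc)
  have hev : ∀ x, gz c (-x) * fj (-x) = gz c x * fj x := by
    intro x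
    rw [fj_neg]
    unfold gz
    rw [neg_sq]
  have e1 : ∀ x, gz c x * (gz c x * fj x) = gz (δ ^ 2) x * fj x := by
    intro x
    rw [← mul_assoc]
    congr 1
    unfold gz
    rw [← Real.exp_add]
    congr 1
    rw [hcd]; ring
  have hWi : Integrable (fun x => gz (δ ^ 2) x * fj x) := gz_fj_int (by positivity)
  rw [Metric.tendsto_nhds]
  intro ε hε
  set η : ℝ := ε / (8 * (C + 1) * (K0 + 1) + 8 * (J0 + 1) * (‖l‖ + 1)) with hη
  have hden : 0 < 8 * (C + 1) * (K0 + 1) + 8 * (J0 + 1) * (‖l‖ + 1) := by positivity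
  have hη0 : 0 < η := by positivity
  have hηe : η * (8 * (C + 1) * (K0 + 1) + 8 * (J0 + 1) * (‖l‖ + 1)) = ε := by
    rw [hη]; field_simp
  have hη1 : C * η * K0 ≤ ε / 8 := by
    have h1 : C * K0 ≤ (C + 1) * (K0 + 1) := by nlinarith
    have h2 : 0 ≤ η * (8 * (J0 + 1) * (‖l‖ + 1)) := by positivity
    nlinarith [mul_le_mul_of_nonneg_left h1 hη0.le]
  have hη2 : η * J0 * ‖l‖ ≤ ε / 8 := by
    have h2 : 0 ≤ η * (8 * (C + 1) * (K0 + 1)) := by positivity
    have h3 : J0 * ‖l‖ ≤ (J0 + 1) * (‖l‖ + 1) := by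
      have := norm_nonneg l
      nlinarith
    nlinarith [mul_le_mul_of_nonneg_left h3 hη0.le]
  obtain ⟨p, hp⟩ := wq_near hc hψ hψ0 hev hη0
  simp only [e1] at hp
  -- the difference of the correlations
  set D : ℝ → ℝ → ℂ := fun T y => Rs (Gb k T⁻¹ (δ / T)) (y / 2 / Real.log T) / ((Nh q T : ℝ) : ℂ) -
    Sm k c p T (y / 2 / Real.log T) / (NN q T : ℂ) with hD
  have hpt : ∀ y : ℝ, Tendsto (fun T => max (‖D T y‖ - C * η) 0) atTop (𝓝 0) := by
    intro y
    rw [Metric.tendsto_nhds]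
    intro ε' hε'
    filter_upwards [hnear η p hη0.le hp (y / 2) (ε' / 2) (by positivity)] with T hT
    rw [Real.dist_eq, sub_zero, abs_of_nonneg (le_max_right _ _)]
    refine max_lt ?_ hε'
    have : ‖D T y‖ ≤ C * η + ε' / 2 := hT
    linarith
  have hbd : ∃ B : ℝ, 0 ≤ B ∧ ∀ᶠ T : ℝ in atTop, ∀ y, ‖D T y‖ ≤ B := by
    have hj : ∀ j : ℕ, ∃ Bj : ℝ, ∀ᶠ T : ℝ in atTop, mass k (sj c j * T) ≤ Bj * NN q T := by
      intro j
      obtain ⟨Cm, hCm⟩ := hup
      have hs := sj_pos hc j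
      have t1 : Tendsto (fun T : ℝ => sj c j * T) atTop atTop := tendsto_id.const_mul_atTop hs
      have h6 := (NN_scale q hs).eventually_le_const (show sj c j < sj c j + 1 by linarith)
      refine ⟨|Cm| * (sj c j + 1), ?_⟩
      filter_upwards [t1.eventually hCm, t1.eventually_ge_atTop 1, h6, eventually_gt_atTop 1] with T a1 a2 a4 a5
      have hN := NN_pos q a5
      rw [div_le_iff₀ hN] at a4
      have hN2 : 0 ≤ NN q (sj c j * T) := by
        unfold NN
        have := Real.log_nonneg a2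
        positivity
      calc mass k (sj c j * T) ≤ Cm * NN q (sj c j * T) := a1
        _ ≤ |Cm| * NN q (sj c j * T) := mul_le_mul_of_nonneg_right (le_abs_self Cm) hN2
        _ ≤ |Cm| * ((sj c j + 1) * NN q T) := mul_le_mul_of_nonneg_left a4 (abs_nonneg _)
        _ = _ := by ring
    choose Bj hBj using hj
    refine ⟨Cg + ∑ j ∈ Finset.range (p.natDegree + 1), |p.coeff j| * |Bj j|, by positivity, ?_⟩
    have hall : ∀ᶠ T : ℝ in atTop, ∀ j ∈ Finset.range (p.natDegree + 1), mass k (sj c j * T) ≤ Bj j * NN q T :=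
      (Filter.eventually_all_finset _).2 fun j _ => hBj j
    filter_upwards [hall, hGu, eventually_gt_atTop 1] with T a1 a2 a3 y
    have hT0 : 0 < T := by linarith
    have hN := NN_pos q a3
    have hNh := Nh_pos q a3
    have hG := Gb_dec k (h := T⁻¹) (ε := δ / T) (by positivity) (by positivity)
    refine (norm_sub_le _ _).trans (add_le_add ?_ ?_)
    · rw [norm_div, Complex.norm_real, Real.norm_of_nonneg hNh.le, div_le_iff₀ hNh]
      exact (Rs_le hG _).trans a2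
    · rw [norm_div, Complex.norm_real, Real.norm_of_nonneg hN.le, div_le_iff₀ hN, Finset.sum_mul]
      unfold Sm
      refine (norm_sum_le _ _).trans (Finset.sum_le_sum fun j hj => ?_)
      have hs := sj_pos hc j
      rw [norm_mul, Complex.norm_real, Real.norm_eq_abs, mul_assoc]
      refine mul_le_mul_of_nonneg_left ?_ (abs_nonneg _)
      refine (Rs_le (Fh_dec k (h := (sj c j * T)⁻¹) (by positivity)) _).trans ((a1 j hj).trans ?_)
      exact mul_le_mul_of_nonneg_right (le_abs_self _) hN.le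
  obtain ⟨B, hB, hbd⟩ := hbd
  have hDc : ∀ᶠ T : ℝ in atTop, Continuous (D T) := by
    filter_upwards [eventually_gt_atTop 1] with T hT
    have hT0 : 0 < T := by linarith
    have c1 := Rs_cont (Gb_dec k (h := T⁻¹) (ε := δ / T) (by positivity) (by positivity))
    refine ((c1.comp (by fun_prop)).div_const _).sub (Continuous.div_const ?_ _)
    unfold Sm
    refine continuous_finsetSum _ fun j _ => continuous_const.mul ?_
    have hs := sj_pos hc j
    exact (Rs_cont (Fh_dec k (h := (sj c j * T)⁻¹) (by positivity))).comp (by fun_prop)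
  have hlim : Tendsto (fun T => ∫ y, ‖KL f 1 y‖ * max (‖D T y‖ - C * η) 0) atTop (𝓝 (∫ y, ‖KL f 1 y‖ * 0)) := by
    refine tendsto_integral_filter_of_dominated_convergence (fun y => ‖KL f 1 y‖ * B) ?_ ?_
      (hK.norm.mul_const B) ?_
    · filter_upwards [hDc] with T hT
      exact (hKc.norm.mul ((hT.norm.sub continuous_const).max continuous_const)).aestronglyMeasurable
    · filter_upwards [hbd] with T hT
      refine Eventually.of_forall fun y => ?_
      rw [norm_mul, norm_norm, Real.norm_of_nonneg (le_max_right _ _)]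
      refine mul_le_mul_of_nonneg_left (max_le ?_ hB) (norm_nonneg _)
      have := hT y
      have : 0 ≤ C * η := by positivity
      linarith
    · exact Eventually.of_forall fun y => (hpt y).const_mul _
  simp only [mul_zero, integral_zero] at hlim
  -- the limit of the combination
  have hcomb : Tendsto (fun T => (∑ j ∈ Finset.range (p.natDegree + 1), (p.coeff j : ℂ) *
      (Sg (Fh k (sj c j * T)⁻¹) (Real.log T) f / (NN q T : ℂ)))) atTop
      (𝓝 (((∫ x, wq c p x : ℝ) : ℂ) * l)) := by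
    have h1 := tendsto_finsetSum (Finset.range (p.natDegree + 1)) fun j _ =>
      (Sg_rescale (k := k) (q := q) hup (sj_pos hc j) hf h).const_mul (p.coeff j : ℂ)
    have e0 : ∑ j ∈ Finset.range (p.natDegree + 1), (p.coeff j : ℂ) * (sj c j • ((√Real.pi : ℂ) * l)) =
        ((∫ x, wq c p x : ℝ) : ℂ) * l := by
      have e : wq c p = fun x => ∑ j ∈ Finset.range (p.natDegree + 1), p.coeff j * gz (c * (j + 1)) x :=
        funext (wq_eq c p)
      rw [e, integral_finsetSum _ fun j _ => (gz_int (by positivity)).const_mul _, Complex.ofReal_sum,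
        Finset.sum_mul]
      refine Finset.sum_congr rfl fun j _ => ?_
      rw [integral_const_mul, gz_val, Real.sqrt_div' _ (by positivity), Complex.real_smul]
      unfold sj
      push_cast
      ring
    rw [e0] at h1
    exact h1
  have hd2 : |Jc (δ ^ 2) - ∫ x, wq c p x| ≤ η * J0 := by
    unfold Jc
    rw [← integral_sub hWi (wq_int hc p), hJ0, ← integral_const_mul, ← Real.norm_eq_abs]
    refine norm_integral_le_of_norm_le ((gz_int hc).const_mul η) (Eventually.of_forall fun x => ?_)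
    exact hp x
  filter_upwards [Metric.tendsto_nhds.1 hcomb (ε / 4) (by positivity),
    Metric.tendsto_nhds.1 hlim (ε / 4) (by positivity), hbd, hDc, eventually_gt_atTop 1] with T a1 a2 a3 a4 a5
  have hT0 : 0 < T := by linarith
  have hL := Real.log_pos a5
  have hG := Gb_dec k (h := T⁻¹) (ε := δ / T) (by positivity) (by positivity)
  rw [dist_eq_norm] at a1 ⊢
  rw [Real.dist_eq, sub_zero, abs_of_nonneg (integral_nonneg fun y => by positivity)] at a2
  obtain ⟨i2, s2⟩ := Sm_int (k := k) hc hT0 p hf hL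
  have i1 : Integrable (fun y => KL f 1 y * Rs (Gb k T⁻¹ (δ / T)) (y / 2 / Real.log T)) := by
    refine (hK.norm.mul_const (∫ t, ‖Gb k T⁻¹ (δ / T) t‖ ^ 2)).mono' ?_ (Eventually.of_forall fun y => ?_)
    · have := Rs_cont hG
      exact (hKc.mul (this.comp (by fun_prop))).aestronglyMeasurable
    · rw [norm_mul]
      exact mul_le_mul_of_nonneg_left (Rs_le hG _) (norm_nonneg _)
  have e3 : Sg (Gb k T⁻¹ (δ / T)) (Real.log T) f / ((Nh q T : ℝ) : ℂ) - ∑ j ∈ Finset.range (p.natDegree + 1),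
      (p.coeff j : ℂ) * (Sg (Fh k (sj c j * T)⁻¹) (Real.log T) f / (NN q T : ℂ)) = ∫ y, KL f 1 y * D T y := by
    have e4 : ∑ j ∈ Finset.range (p.natDegree + 1),
        (p.coeff j : ℂ) * (Sg (Fh k (sj c j * T)⁻¹) (Real.log T) f / (NN q T : ℂ)) =
        (∑ j ∈ Finset.range (p.natDegree + 1), (p.coeff j : ℂ) * Sg (Fh k (sj c j * T)⁻¹) (Real.log T) f) /
          (NN q T : ℂ) := by
      rw [Finset.sum_div]
      refine Finset.sum_congr rfl fun j _ => ?_
      ring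
    rw [e4, ← s2, Sg_Rs hf hG hL]
    have e5 : ∫ y, KL f 1 y * Rs (Gb k T⁻¹ (δ / T)) (y / (2 * Real.log T)) =
        ∫ y, KL f 1 y * Rs (Gb k T⁻¹ (δ / T)) (y / 2 / Real.log T) := by
      refine integral_congr_ae (Eventually.of_forall fun y => ?_)
      simp only
      rw [div_div]
    rw [e5, ← integral_div, ← integral_div, ← integral_sub (i1.div_const _) (i2.div_const _)]
    refine integral_congr_ae (Eventually.of_forall fun y => ?_)
    simp only [hD]
    ring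
  have h4 : ‖∫ y, KL f 1 y * D T y‖ ≤ C * η * K0 + ∫ y, ‖KL f 1 y‖ * max (‖D T y‖ - C * η) 0 := by
    have i3 : Integrable (fun y => ‖KL f 1 y‖ * max (‖D T y‖ - C * η) 0) := by
      refine (hK.norm.mul_const B).mono' ?_ (Eventually.of_forall fun y => ?_)
      · exact (hKc.norm.mul ((a4.norm.sub continuous_const).max continuous_const)).aestronglyMeasurable
      · rw [norm_mul, norm_norm, Real.norm_of_nonneg (le_max_right _ _)]
        refine mul_le_mul_of_nonneg_left (max_le ?_ hB) (norm_nonneg _)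
        have := a3 y
        have : 0 ≤ C * η := by positivity
        linarith
    rw [hK0, ← integral_const_mul, ← integral_add (hK.norm.const_mul _) i3]
    refine norm_integral_le_of_norm_le ((hK.norm.const_mul _).add i3) (Eventually.of_forall fun y => ?_)
    rw [norm_mul]
    have h5 := le_max_left (‖D T y‖ - C * η) 0
    have h6 := norm_nonneg (KL f 1 y)
    nlinarith
  have e6 : Sg (Gb k T⁻¹ (δ / T)) (Real.log T) f / ((Nh q T : ℝ) : ℂ) - ((Jc (δ ^ 2) : ℝ) : ℂ) * l =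
      (∫ y, KL f 1 y * D T y) + ((∑ j ∈ Finset.range (p.natDegree + 1), (p.coeff j : ℂ) *
      (Sg (Fh k (sj c j * T)⁻¹) (Real.log T) f / (NN q T : ℂ))) - ((∫ x, wq c p x : ℝ) : ℂ) * l) -
      ((Jc (δ ^ 2) - ∫ x, wq c p x : ℝ) : ℂ) * l := by
    rw [← e3]; push_cast; ring
  rw [e6]
  have h7 : ‖((Jc (δ ^ 2) - ∫ x, wq c p x : ℝ) : ℂ) * l‖ ≤ ε / 8 := by
    rw [norm_mul, Complex.norm_real, Real.norm_eq_abs]
    exact (mul_le_mul_of_nonneg_right hd2 (norm_nonneg _)).trans hη2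
  refine ((norm_sub_le _ _).trans (add_le_add (norm_add_le _ _) le_rfl)).trans_lt ?_
  linarith

end

end Pool.Agent.J4.H32.VS
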