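import Pool.Agent.J4.H32.VS.U16

set_option autoImplicit false

/-! One test function: the short intervals. -/

namespace Pool.Agent.J4.H32.VS

open Complex MeasureTheory Filter Topology Set Metric Polynomial Pool.Agent.TH535.SM Pool.Agent.R446.KR
open Pool.Agent.J4.H44.LP
open Pool.Agent.J4.H44.OL (Cr Cr_int Rs Rs_int Cr_eq)
open Pool.Agent.W182.KO (TF)
open scoped FourierTransform ComplexConjugate ContDiff

noncomputable section

variable {q k : ℕ}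

/-- the distance of the short intervals to the smoothed ones -/
lemma Bh_near (hup : ∃ C : ℝ, ∀ᶠ T in atTop, mass k T ≤ C * NN q T) : ∃ K : ℝ, 0 ≤ K ∧ ∀ δ : ℝ, 0 < δ →
    ∀ᶠ T in atTop, Integrable (fun u => ‖Ee k T⁻¹ u - Bh k T⁻¹ (δ / T) u‖ ^ 2) ∧
      ∫ u, ‖Ee k T⁻¹ u - Bh k T⁻¹ (δ / T) u‖ ^ 2 ≤ K * δ * Nh q T := by
  obtain ⟨K, b0, hK, hb0, herr⟩ := Bh_err (k := k) (q := q) hup
  refine ⟨2 * K, by positivity, fun δ hδ => ?_⟩
  have t1 : Tendsto (fun T : ℝ => δ / T) atTop (𝓝 0) := tendsto_const_nhds.div_atTop tendsto_id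
  have t2 : Tendsto (fun T : ℝ => (1 + -Real.log δ / Real.log T) ^ q) atTop (𝓝 ((1 + 0) ^ q)) :=
    Tendsto.pow (tendsto_const_nhds.add (tendsto_const_nhds.div_atTop Real.tendsto_log_atTop)) q
  rw [add_zero, one_pow] at t2
  filter_upwards [t1.eventually_le_const hb0, t2.eventually_le_const (show (1:ℝ) < 2 by norm_num),
    eventually_gt_atTop 1] with T a1 a2 a3
  have hT0 : 0 < T := by linarith
  have hl := Real.log_pos a3
  obtain ⟨i1, b1⟩ := herr T⁻¹ (δ / T) (by positivity) (inv_le_one_of_one_le₀ a3.le) (by positivity) a1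
  refine ⟨i1, b1.trans ?_⟩
  have e1 : Real.log (1 / (δ / T)) = Real.log T * (1 + -Real.log δ / Real.log T) := by
    rw [one_div_div, Real.log_div hT0.ne' hδ.ne']
    field_simp
    ring
  rw [e1, mul_pow, Nh_eq q hT0]
  have h5 : 0 ≤ K * (δ / T) * Real.log T ^ q := by positivity
  calc K * (δ / T) * (Real.log T ^ q * (1 + -Real.log δ / Real.log T) ^ q) =
        K * (δ / T) * Real.log T ^ q * (1 + -Real.log δ / Real.log T) ^ q := by ring
    _ ≤ K * (δ / T) * Real.log T ^ q * 2 := mul_le_mul_of_nonneg_left a2 h5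
    _ = _ := by ring

lemma Bh_int {h b : ℝ} (hh : 0 ≤ h) (hb : 0 < b) : Integrable (fun u => ‖Bh k h b u‖ ^ 2) := by
  rw [Bh_Bf k hh hb]
  exact Bf_int (Gb_dec k hh hb)

/-- the mass of the short intervals -/
lemma Ee_up (hup : ∃ C : ℝ, ∀ᶠ T in atTop, mass k T ≤ C * NN q T) : ∃ C : ℝ, 0 ≤ C ∧
    ∀ᶠ T in atTop, Integrable (fun u => ‖Ee k T⁻¹ u‖ ^ 2) ∧ ∫ u, ‖Ee k T⁻¹ u‖ ^ 2 ≤ C * Nh q T := by
  obtain ⟨K, hK, hn⟩ := Bh_near (k := k) (q := q) hup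
  obtain ⟨C, hC, hg⟩ := Gb_up (k := k) (q := q) hup one_pos
  refine ⟨2 * (K * 1) + 2 * C, by positivity, ?_⟩
  filter_upwards [hn 1 one_pos, hg, eventually_gt_atTop 1] with T a1 a2 a3
  have hT0 : 0 < T := by linarith
  have hN := Nh_pos q a3
  obtain ⟨i1, b1⟩ := a1
  have iE := Ee_sq_int (k := k) (h := T⁻¹) (b := 1 / T) (by positivity) (by positivity) i1
  have iB := Bh_int (k := k) (h := T⁻¹) (b := 1 / T) (by positivity) (by positivity)
  have hB : ∫ u, ‖Bh k T⁻¹ (1 / T) u‖ ^ 2 ≤ C * Nh q T := by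
    rw [Bh_Bf k (by positivity) (by positivity), Bf_norm (Gb_dec k (by positivity) (by positivity))]
    have hp : 1 / (2 * Real.pi) ≤ 1 := by
      rw [div_le_one (by positivity)]
      linarith [Real.pi_gt_three]
    have h0 : 0 ≤ ∫ t, ‖Gb k T⁻¹ (1 / T) t‖ ^ 2 := integral_nonneg fun t => by positivity
    calc 1 / (2 * Real.pi) * ∫ t, ‖Gb k T⁻¹ (1 / T) t‖ ^ 2 ≤ 1 * ∫ t, ‖Gb k T⁻¹ (1 / T) t‖ ^ 2 :=
          mul_le_mul_of_nonneg_right hp h0
      _ ≤ _ := by rw [one_mul]; exact a2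
  refine ⟨iE, ?_⟩
  have h1 : ∫ u, ‖Ee k T⁻¹ u‖ ^ 2 ≤ ∫ u, (2 * ‖Ee k T⁻¹ u - Bh k T⁻¹ (1 / T) u‖ ^ 2 +
      2 * ‖Bh k T⁻¹ (1 / T) u‖ ^ 2) := by
    refine integral_mono iE ((i1.const_mul 2).add (iB.const_mul 2)) fun u => ?_
    have h2 : ‖Ee k T⁻¹ u‖ ≤ ‖Ee k T⁻¹ u - Bh k T⁻¹ (1 / T) u‖ + ‖Bh k T⁻¹ (1 / T) u‖ := by
      have := norm_add_le (Ee k T⁻¹ u - Bh k T⁻¹ (1 / T) u) (Bh k T⁻¹ (1 / T) u)
      rwa [sub_add_cancel] at this
    have := norm_nonneg (Ee k T⁻¹ u)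
    simp only
    nlinarith [sq_nonneg (‖Ee k T⁻¹ u - Bh k T⁻¹ (1 / T) u‖ - ‖Bh k T⁻¹ (1 / T) u‖)]
  rw [integral_add (i1.const_mul 2) (iB.const_mul 2), integral_const_mul, integral_const_mul] at h1
  linarith

/-- **one test function**: from Gaussian windows to short intervals -/
theorem fwd1 (hup : ∃ C : ℝ, ∀ᶠ T in atTop, mass k T ≤ C * NN q T) {ξ : ℝ} {f : ℝ → ℝ}
    (hf : TF ξ (fun v => ((f v : ℝ) : ℂ))) {l : ℝ}
    (h : Tendsto (fun T => St (Fh k T⁻¹) (Real.log T) f / NN q T) atTop (𝓝 (√Real.pi * l))) :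
    Tendsto (fun T => (∫ u, f (u / Real.log T) * ‖Ee k T⁻¹ u‖ ^ 2) / Nh q T) atTop (𝓝 l) := by
  obtain ⟨K, hK, hn⟩ := Bh_near (k := k) (q := q) hup
  obtain ⟨C, hC, hE⟩ := Ee_up (k := k) (q := q) hup
  have hfc : Continuous f := Complex.continuous_re.comp hf.cd.continuous
  obtain ⟨S, hS⟩ : ∃ S : ℝ, ∀ v, |f v| ≤ S := by
    obtain ⟨S, hS⟩ := hf.cs.exists_bound_of_continuous hf.cd.continuous
    refine ⟨S, fun v => ?_⟩
    have := hS v
    rwa [Complex.norm_real] at this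
  have hS0 : 0 ≤ S := (abs_nonneg _).trans (hS 0)
  set G : ℝ := 2 * C + 2 * K with hG
  have hG0 : 0 ≤ G := by positivity
  have hc : Tendsto (fun T => Sg (Fh k T⁻¹) (Real.log T) (fun v => ((f v : ℝ) : ℂ)) / (NN q T : ℂ)) atTop
      (𝓝 (√Real.pi * (l : ℂ))) := by
    have h1 := (Complex.continuous_ofReal.tendsto _).comp h
    rw [Complex.ofReal_mul] at h1
    refine h1.congr fun T => ?_
    simp only [Function.comp]
    rw [Sg_real f, Complex.ofReal_div]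
  -- the choice of the parameter
  have c1 : Tendsto (fun δ : ℝ => S * ((1 + (√δ)⁻¹) * (K * δ) + √δ * G)) (𝓝[>] 0) (𝓝 0) := by
    have h1 : Tendsto (fun δ : ℝ => S * (K * δ + K * √δ + √δ * G)) (𝓝[>] 0) (𝓝 0) := by
      have h2 : Tendsto (fun δ : ℝ => S * (K * δ + K * √δ + √δ * G)) (𝓝 0)
          (𝓝 (S * (K * 0 + K * √0 + √0 * G))) :=
        (by fun_prop : Continuous fun δ : ℝ => S * (K * δ + K * √δ + √δ * G)).tendsto 0
      simp only [Real.sqrt_zero, mul_zero, zero_mul, add_zero] at h2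
      exact h2.mono_left nhdsWithin_le_nhds
    refine h1.congr' ?_
    filter_upwards [self_mem_nhdsWithin] with δ hδ
    have hδ0 : 0 < δ := hδ
    have hs : 0 < √δ := by positivity
    have e : (√δ)⁻¹ * δ = √δ := by
      rw [inv_mul_eq_div, Real.div_sqrt]
    linear_combination (-(S * K)) * e
  have c2 : Tendsto (fun δ : ℝ => |Jc (δ ^ 2) / (2 * Real.pi) - 1| * |l|) (𝓝[>] 0) (𝓝 0) := by
    have h1 : Tendsto (fun δ : ℝ => δ ^ 2) (𝓝[>] 0) (𝓝[>] 0) := by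
      rw [tendsto_nhdsWithin_iff]
      refine ⟨?_, ?_⟩
      · have : Tendsto (fun δ : ℝ => δ ^ 2) (𝓝 0) (𝓝 (0 ^ 2)) := (continuous_pow 2).tendsto 0
        rw [zero_pow two_ne_zero] at this
        exact this.mono_left nhdsWithin_le_nhds
      · filter_upwards [self_mem_nhdsWithin] with δ hδ
        have hδ0 : 0 < δ := hδ
        show 0 < δ ^ 2
        positivity
    have h2 := (((Jc_lim.comp h1).div_const (2 * Real.pi)).sub_const 1).abs.mul_const |l|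
    have e : |2 * Real.pi / (2 * Real.pi) - 1| * |l| = 0 := by
      rw [div_self (by positivity), sub_self, abs_zero, zero_mul]
    rw [e] at h2
    exact h2
  have c3 : ∀ᶠ δ : ℝ in 𝓝[>] 0, δ ≤ 1 :=
    (tendsto_id.mono_left nhdsWithin_le_nhds).eventually_le_const (show (0:ℝ) < 1 by norm_num)
  rw [Metric.tendsto_nhds]
  intro ε hε
  obtain ⟨δ, ⟨⟨d1, d2⟩, d4⟩, d3⟩ := (((((c1.eventually_lt_const (show (0:ℝ) < ε / 3 by positivity)).and
    (c2.eventually_lt_const (show (0:ℝ) < ε / 3 by positivity)))).and c3).and self_mem_nhdsWithin).exists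
  have hδ : 0 < δ := d3
  have hs : 0 < √δ := by positivity
  have l1 := Sg_Gb_one hup hδ hf hc
  have l1' : Tendsto (fun T => (∫ u, f (u / Real.log T) * ‖Bh k T⁻¹ (δ / T) u‖ ^ 2) / Nh q T) atTop
      (𝓝 (Jc (δ ^ 2) / (2 * Real.pi) * l)) := by
    have h1 := ((Complex.continuous_re.tendsto _).comp l1).const_mul (1 / (2 * Real.pi))
    rw [Complex.re_ofReal_mul, Complex.ofReal_re] at h1
    have e : 1 / (2 * Real.pi) * (Jc (δ ^ 2) * l) = Jc (δ ^ 2) / (2 * Real.pi) * l := by ring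
    rw [e] at h1
    refine h1.congr' ?_
    filter_upwards [eventually_gt_atTop 0] with T hT
    simp only [Function.comp]
    rw [Sg_real f, ← Complex.ofReal_div, Complex.ofReal_re, Bh_Bf k (by positivity) (by positivity), Bf_St]
    ring
  filter_upwards [Metric.tendsto_nhds.1 l1' (ε / 3) (by positivity), hE, hn δ hδ, eventually_gt_atTop 1]
    with T a1 a2 a3 a4
  obtain ⟨i1, b1⟩ := a3
  obtain ⟨iE, bE⟩ := a2
  have hT0 : 0 < T := by linarith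
  have hN := Nh_pos q a4
  have iB := Bh_int (k := k) (h := T⁻¹) (b := δ / T) (by positivity) (by positivity)
  have bB : ∫ u, ‖Bh k T⁻¹ (δ / T) u‖ ^ 2 ≤ G * Nh q T := by
    have h1 : ∫ u, ‖Bh k T⁻¹ (δ / T) u‖ ^ 2 ≤ ∫ u, (2 * ‖Ee k T⁻¹ u - Bh k T⁻¹ (δ / T) u‖ ^ 2 +
        2 * ‖Ee k T⁻¹ u‖ ^ 2) := by
      refine integral_mono iB ((i1.const_mul 2).add (iE.const_mul 2)) fun u => ?_
      have h2 : ‖Bh k T⁻¹ (δ / T) u‖ ≤ ‖Ee k T⁻¹ u - Bh k T⁻¹ (δ / T) u‖ + ‖Ee k T⁻¹ u‖ := by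
        have := norm_sub_le (Ee k T⁻¹ u) (Ee k T⁻¹ u - Bh k T⁻¹ (δ / T) u)
        rw [sub_sub_cancel] at this
        linarith
      have := norm_nonneg (Bh k T⁻¹ (δ / T) u)
      simp only
      nlinarith [sq_nonneg (‖Ee k T⁻¹ u - Bh k T⁻¹ (δ / T) u‖ - ‖Ee k T⁻¹ u‖)]
    rw [integral_add (i1.const_mul 2) (iE.const_mul 2), integral_const_mul, integral_const_mul] at h1
    have h3 : K * δ * Nh q T ≤ K * 1 * Nh q T := by gcongr
    rw [hG]
    linarith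
  have bint : ∀ {g : ℝ → ℝ}, Integrable g → Integrable (fun u => f (u / Real.log T) * g u) := by
    intro g hg
    refine (hg.norm.const_mul S).mono' ?_ (Eventually.of_forall fun u => ?_)
    · exact (hfc.comp (by fun_prop : Continuous fun u : ℝ => u / Real.log T)).aestronglyMeasurable.mul hg.1
    · rw [norm_mul]
      exact mul_le_mul_of_nonneg_right (hS _) (norm_nonneg _)
  have hd : |(∫ u, f (u / Real.log T) * ‖Ee k T⁻¹ u‖ ^ 2) - ∫ u, f (u / Real.log T) * ‖Bh k T⁻¹ (δ / T) u‖ ^ 2| ≤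
      S * ((1 + (√δ)⁻¹) * (K * δ) + √δ * G) * Nh q T := by
    rw [← integral_sub (bint iE) (bint iB), ← Real.norm_eq_abs]
    have i2 : Integrable (fun u => S * ((1 + (√δ)⁻¹) * ‖Ee k T⁻¹ u - Bh k T⁻¹ (δ / T) u‖ ^ 2 +
        √δ * ‖Bh k T⁻¹ (δ / T) u‖ ^ 2)) := ((i1.const_mul _).add (iB.const_mul _)).const_mul S
    refine (norm_integral_le_of_norm_le i2 (Eventually.of_forall fun u => ?_)).trans ?_
    · rw [← mul_sub, norm_mul, Real.norm_eq_abs, Real.norm_eq_abs]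
      exact mul_le_mul (hS _) (sq_cmp _ _ hs) (abs_nonneg _) hS0
    · rw [integral_const_mul, integral_add (i1.const_mul _) (iB.const_mul _), integral_const_mul,
        integral_const_mul]
      calc S * ((1 + (√δ)⁻¹) * (∫ u, ‖Ee k T⁻¹ u - Bh k T⁻¹ (δ / T) u‖ ^ 2) +
            √δ * ∫ u, ‖Bh k T⁻¹ (δ / T) u‖ ^ 2) ≤
            S * ((1 + (√δ)⁻¹) * (K * δ * Nh q T) + √δ * (G * Nh q T)) := by gcongr
        _ = _ := by ring
  rw [Real.dist_eq] at a1 ⊢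
  have e1 : (∫ u, f (u / Real.log T) * ‖Ee k T⁻¹ u‖ ^ 2) / Nh q T - l =
      ((∫ u, f (u / Real.log T) * ‖Ee k T⁻¹ u‖ ^ 2) - ∫ u, f (u / Real.log T) * ‖Bh k T⁻¹ (δ / T) u‖ ^ 2) / Nh q T +
      ((∫ u, f (u / Real.log T) * ‖Bh k T⁻¹ (δ / T) u‖ ^ 2) / Nh q T - Jc (δ ^ 2) / (2 * Real.pi) * l) +
      (Jc (δ ^ 2) / (2 * Real.pi) - 1) * l := by ring
  rw [e1]
  have h1 : |((∫ u, f (u / Real.log T) * ‖Ee k T⁻¹ u‖ ^ 2) -
      ∫ u, f (u / Real.log T) * ‖Bh k T⁻¹ (δ / T) u‖ ^ 2) / Nh q T| < ε / 3 := by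
    rw [abs_div, abs_of_pos hN, div_lt_iff₀ hN]
    exact hd.trans_lt (mul_lt_mul_of_pos_right d1 hN)
  have h2 : |(Jc (δ ^ 2) / (2 * Real.pi) - 1) * l| < ε / 3 := by
    rw [abs_mul]; exact d2
  refine (abs_add_three _ _ _).trans_lt ?_
  linarith

end

end Pool.Agent.J4.H32.VS
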