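import Pool.Agent.J4.H32.VS.U18

set_option autoImplicit false

/-! Bounds. -/

namespace Pool.Agent.J4.H32.VS

open Complex MeasureTheory Filter Topology Set Metric Pool.Agent.TH535.SM Pool.Agent.R446.KR
open Pool.Agent.J4.H44.LP
open scoped FourierTransform ComplexConjugate ContDiff

noncomputable section

variable {q k : ℕ}

/-- **change of scale**, one test function -/
theorem scale_change1 {B1 B2 : ℝ} (hB1 : 0 < B1) (hB : B1 < B2) {a b y : ℝ → ℝ} (ha : Tendsto a atTop atTop)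
    (hb : Tendsto b atTop atTop) (hab : Tendsto (fun T => a T / b T) atTop (𝓝 1))
    (Hb : ∀ f0, Tst B2 f0 → (∀ v, 0 ≤ f0 v) → ∃ C : ℝ, ∀ᶠ T in atTop,
      Af k f0 0 (Real.log (b T)) (y T) ≤ C * Nh q (b T))
    {f : ℝ → ℝ} (hf : Tst B1 f) {ℓ : ℝ}
    (L1 : Tendsto (fun T => Af k f 0 (Real.log (b T)) (y T) / Nh q (b T)) atTop (𝓝 ℓ)) :
    Tendsto (fun T => Af k f 0 (Real.log (a T)) (y T) / Nh q (a T)) atTop (𝓝 ℓ) := by
  obtain ⟨C1, S, R, h⟩ := mk_Td hB1 hf.1 hf.2.1 hf.2.2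
  obtain ⟨f0, g1, g2, g3, g4, g5⟩ := exists_f0 (R := (R : ℝ)) hB
  have hBm : B1 < (B1 + B2) / 2 := by linarith
  obtain ⟨C0, hC0⟩ := Hb f0 ⟨g1, g2, g3⟩ g4
  have r1 := log_rat hb hab
  have r2 : Tendsto (fun T => Real.log (b T) / Real.log (a T)) atTop (𝓝 1) := by
    have := r1.inv₀ one_ne_zero
    rw [inv_one] at this
    exact this.congr fun T => inv_div _ _
  set e : ℝ → ℝ := fun T => |(0:ℝ)| / Real.log (a T) + (R + |(0:ℝ)| / Real.log (a T)) *
    |Real.log (a T) / Real.log (b T) - 1| + R * |Real.log (b T) / Real.log (a T) - 1| with hedef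
  have he : Tendsto e atTop (𝓝 0) := by
    have a1 := (r1.sub_const 1).abs
    have a2 := (r2.sub_const 1).abs
    rw [sub_self, abs_zero] at a1 a2
    have := (a1.const_mul (R:ℝ)).add (a2.const_mul (R:ℝ))
    have e0 : (R:ℝ) * 0 + R * 0 = 0 := by ring
    rw [e0] at this
    refine this.congr fun T => ?_
    rw [hedef]
    simp only [abs_zero, zero_div, add_zero, zero_add]
  have L2 : Tendsto (fun T => (Af k f 0 (Real.log (a T)) (y T) - Af k f 0 (Real.log (b T)) (y T)) / Nh q (b T))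
      atTop (𝓝 0) := by
    have L3 := (he.const_mul C1).mul_const |C0|
    rw [mul_zero, zero_mul] at L3
    rw [tendsto_zero_iff_abs_tendsto_zero]
    refine squeeze_zero' (Eventually.of_forall fun T => abs_nonneg _) ?_ L3
    filter_upwards [he.eventually_le_const (show (0:ℝ) < 1 by norm_num),
      he.eventually_le_const (show (0:ℝ) < (B1 + B2) / 2 - B1 by linarith), ha.eventually_gt_atTop 1,
      hb.eventually_gt_atTop 1, hC0] with T c1 c2 c3 c4 c6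
    have hN := Nh_pos q c4
    simp only [Function.comp]
    rw [abs_div, abs_of_pos hN, div_le_iff₀ hN]
    have c5 := Af_near (k := k) h hBm.le g1.continuous g2 g4 g5 (p := 0) (Real.log_pos c3) (Real.log_pos c4)
      (le_refl (e T)) c1 c2 (y T)
    have c7 : 0 ≤ e T := by
      rw [hedef]
      have := (Real.log_pos c3)
      simp only
      positivity
    calc _ ≤ C1 * e T * Af k f0 0 (Real.log (b T)) (y T) := c5
      _ ≤ C1 * e T * (|C0| * Nh q (b T)) := by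
          refine mul_le_mul_of_nonneg_left (c6.trans ?_) (mul_nonneg h.hC1 c7)
          exact mul_le_mul_of_nonneg_right (le_abs_self _) hN.le
      _ = _ := by ring
  have L4 := (L2.add L1).mul (Nh_rat q ha hb hab)
  rw [zero_add, mul_one] at L4
  refine L4.congr' ?_
  filter_upwards [ha.eventually_gt_atTop 1, hb.eventually_gt_atTop 1] with T c3 c4
  have hN := (Nh_pos q c4).ne'
  rw [← add_div, sub_add_cancel, div_mul_div_cancel₀ hN]

/-- bounded short intervals give bounded Gaussian windows -/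
theorem conv_up {B1 B2 : ℝ} (hB1 : 0 < B1) (hB : B1 < B2)
    (Hb : ∀ f0 : ℝ → ℝ, Tst B2 f0 → (∀ v, 0 ≤ f0 v) → ∃ C : ℝ, ∀ᶠ T in atTop, Af k f0 0 (Real.log T) T⁻¹ ≤ C * Nh q T)
    {f : ℝ → ℝ} (hf : Tst B1 f) :
    ∃ C : ℝ, 0 ≤ C ∧ ∀ᶠ T in atTop, |∫ u, f (u / Real.log T) * ‖Dl k T⁻¹ u‖ ^ 2| ≤ C * Nh q T := by
  obtain ⟨hc, hs, hf0⟩ := hf
  obtain ⟨C1, S, R, h⟩ := mk_Td hB1 hc hs hf0
  obtain ⟨f0, g1, g2, g3, g4, g5⟩ := exists_f0 (R := (R : ℝ)) hB
  have f0c := g1.continuous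
  have hBm : B1 < (B1 + B2) / 2 := by linarith
  obtain ⟨C00, hC00⟩ := Hb f0 ⟨g1, g2, g3⟩ g4
  have Hf0 : ∀ᶠ T in atTop, Af k f0 0 (Real.log T) T⁻¹ ≤ |C00| * Nh q T := by
    filter_upwards [hC00, eventually_gt_atTop 1] with T h1 h2
    exact h1.trans (mul_le_mul_of_nonneg_right (le_abs_self _) (Nh_pos q h2).le)
  obtain ⟨T1, hT1⟩ := eventually_atTop.1 Hf0
  obtain ⟨C, T0, A, hC, hT0, hdom⟩ := Psi_dom (k := k) (q := q) h hBm f0c g2 g4 g5 (C0 := |C00|)
    (abs_nonneg _) hT1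
  have hw := ge_int (A + 1) 5 (c := 1 / 2) (by norm_num)
  set W : ℝ × ℝ → ℝ := fun p => ((1 + |p.1|) ^ (A + 1) * Real.exp (5 * |p.1| - 1 / 2 * p.1 ^ 2)) *
    ((1 + |p.2|) ^ (A + 1) * Real.exp (5 * |p.2| - 1 / 2 * p.2 ^ 2)) with hW
  have iW : Integrable W (volume.prod volume) := hw.mul_prod hw
  refine ⟨C * ∫ p, W p, mul_nonneg hC (integral_nonneg fun p => by rw [hW]; positivity), ?_⟩
  filter_upwards [eventually_ge_atTop T0] with T hT
  have hT2 : 2 ≤ T := hT0.trans hT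
  have hTp : 0 < T := by linarith
  have hN := Nh_pos q (show 1 < T by linarith)
  have hh : 0 < T⁻¹ := inv_pos.2 hTp
  have hh1 : T⁻¹ ≤ 1 := inv_le_one_of_one_le₀ (by linarith)
  have h4 := Dl_double k hh hh1 (Real.log_pos (by linarith : 1 < T)) hc.continuous hs
  have h5 : |∫ p : ℝ × ℝ, mr T⁻¹ p.1 * mr T⁻¹ p.2 * Psi k f (Real.log T) (T⁻¹ * p.1) (T⁻¹ * p.2)| ≤
      ∫ p, (C * Nh q T) * W p := by
    rw [← Real.norm_eq_abs]
    refine norm_integral_le_of_norm_le (iW.const_mul _) (Eventually.of_forall fun p => ?_)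
    have b1 := mr_le hh hh1 p.1
    have b2 := mr_le hh hh1 p.2
    have b4 := hdom T hT p.1 p.2
    rw [norm_mul, norm_mul, Real.norm_eq_abs, Real.norm_eq_abs, Real.norm_eq_abs]
    have e5 : ∀ y : ℝ, Real.exp (5 * |y| - 1 / 2 * y ^ 2) = Real.exp (|y| - 1 / 2 * y ^ 2) * Real.exp (4 * |y|) := by
      intro y
      rw [← Real.exp_add]; congr 1; ring
    calc |mr T⁻¹ p.1| * |mr T⁻¹ p.2| * |Psi k f (Real.log T) (T⁻¹ * p.1) (T⁻¹ * p.2)| ≤
          ((1 + |p.1|) * Real.exp (|p.1| - 1 / 2 * p.1 ^ 2)) * ((1 + |p.2|) * Real.exp (|p.2| - 1 / 2 * p.2 ^ 2)) *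
          (C * ((1 + |p.1|) ^ A * (1 + |p.2|) ^ A) * (Real.exp (4 * |p.1|) * Real.exp (4 * |p.2|)) * Nh q T) := by
          gcongr
      _ = _ := by rw [hW]; simp only; rw [e5, e5]; ring
  rw [← h4, integral_const_mul, abs_mul, show |(-2:ℝ)| = 2 by norm_num] at h5
  have h6 : 0 ≤ |∫ u, f (u / Real.log T) * ‖Dl k T⁻¹ u‖ ^ 2| := abs_nonneg _
  have h7 : (C * ∫ p, W p) * Nh q T = C * Nh q T * ∫ p, W p := by ring
  rw [h7]
  linarith

/-- all windows are bounded if the moment is -/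
lemma Af_all (hup : ∃ C : ℝ, ∀ᶠ T in atTop, mass k T ≤ C * NN q T) {f0 : ℝ → ℝ} {S : ℝ}
    (hS : ∀ v, |f0 v| ≤ S) : ∃ C : ℝ, 0 ≤ C ∧ ∀ᶠ T in atTop, ∀ L : ℝ, |Af k f0 0 L T⁻¹| ≤ C * Nh q T := by
  obtain ⟨C, hC, hE⟩ := Ee_up (k := k) (q := q) hup
  have hS0 : 0 ≤ S := (abs_nonneg _).trans (hS 0)
  refine ⟨S * C, by positivity, ?_⟩
  filter_upwards [hE] with T hT L
  unfold Af
  rw [← Real.norm_eq_abs]
  refine (norm_integral_le_of_norm_le (hT.1.const_mul S) (Eventually.of_forall fun v => ?_)).trans ?_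
  · rw [norm_mul, norm_pow, norm_norm]
    exact mul_le_mul_of_nonneg_right (hS _) (by positivity)
  · rw [integral_const_mul, mul_assoc]
    exact mul_le_mul_of_nonneg_left hT.2 hS0

lemma Tst.bd {B : ℝ} {f : ℝ → ℝ} (h : Tst B f) : ∃ S : ℝ, ∀ v, |f v| ≤ S := by
  obtain ⟨S, hS⟩ := h.2.1.exists_bound_of_continuous h.1.continuous
  exact ⟨S, hS⟩

/-- a bounded moment has bounded Gaussian means -/
lemma mass_of_M (hup : ∃ C : ℝ, ∀ᶠ T : ℝ in atTop, M (zk k) T ≤ C * NN q T) :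
    ∃ C : ℝ, ∀ᶠ T in atTop, mass k T ≤ C * NN q T := by
  obtain ⟨C, hC, hM⟩ := M_all (k := k) (q := q) hup
  have hc : Continuous (fun t => ((‖zk k t‖ ^ 2 : ℝ) : ℂ)) := by
    have := zk_cont k
    fun_prop
  set I0 : ℝ := ∫ x in Ioi (0:ℝ), Real.exp (-x ^ 2) * (1 + x) ^ (q + 2) with hI0
  refine ⟨2 * (2 * (C * 5 ^ (q + 1)) * I0), ?_⟩
  filter_upwards [eventually_ge_atTop (Real.exp 1)] with T hT
  have hT1 : 1 ≤ T := le_trans (by have := Real.add_one_le_exp 1; linarith) hT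
  have hT0 : 0 < T := by linarith
  have hN := NN_pos q (show 1 < T from lt_of_lt_of_le (by have := Real.add_one_lt_exp one_ne_zero; linarith) hT)
  have h1 := byparts hc (M_PB k) hT0
  have e2 : ∫ t in Ioi (0:ℝ), (eg 0 (t / T) : ℂ) * ((‖zk k t‖ ^ 2 : ℝ) : ℂ) =
      ((∫ t in Ioi (0:ℝ), eg 0 (t / T) * ‖zk k t‖ ^ 2 : ℝ) : ℂ) := by
    rw [← integral_complex_ofReal]
    refine integral_congr_ae (Eventually.of_forall fun t => ?_)
    simp only
    push_cast; ring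
  have h2 : ‖∫ x in Ioi (0:ℝ), ((2 * x * Real.exp (-x ^ 2) : ℝ) : ℂ) *
      ∫ t in (0:ℝ)..(x * T), ((‖zk k t‖ ^ 2 : ℝ) : ℂ)‖ ≤
      ∫ x in Ioi (0:ℝ), (2 * (C * 5 ^ (q + 1)) * NN q T) * (Real.exp (-x ^ 2) * (1 + x) ^ (q + 2)) := by
    refine norm_integral_le_of_norm_le ((gauss_poly_int (q + 2)).const_mul _) ?_
    refine (ae_restrict_iff' measurableSet_Ioi).2 (Eventually.of_forall fun x hx => ?_)
    have hx0 : 0 < x := hx
    have hxT : 0 ≤ x * T := by positivity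
    rw [norm_mul, Complex.norm_real, Real.norm_of_nonneg (by positivity), ← M_eq, Complex.norm_real,
      Real.norm_of_nonneg (M_nonneg _ hxT)]
    have h4 := NN_mono q (show 1 ≤ x * T + 4 by linarith) (show x * T + 4 ≤ x * T + 5 by linarith)
    have h5 : M (zk k) (x * T) ≤ (C * 5 ^ (q + 1)) * NN q T * (1 + x) ^ (q + 1) := by
      calc M (zk k) (x * T) ≤ C * NN q (x * T + 4) := hM _ hxT
        _ ≤ C * (NN q T * (x + 5) ^ (q + 1)) :=
            mul_le_mul_of_nonneg_left (h4.trans (NN_dom q hT hx0.le)) hC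
        _ ≤ C * (NN q T * (5 * (1 + x)) ^ (q + 1)) := by gcongr; linarith
        _ = _ := by rw [mul_pow]; ring
    have h6 := M_nonneg (zk k) hxT
    calc 2 * x * Real.exp (-x ^ 2) * M (zk k) (x * T) ≤
          2 * (1 + x) * Real.exp (-x ^ 2) * ((C * 5 ^ (q + 1)) * NN q T * (1 + x) ^ (q + 1)) := by
          have h7 : x ≤ 1 + x := by linarith
          gcongr
      _ = _ := by rw [pow_succ (1 + x) (q + 1)]; ring
  rw [← h1, e2, Complex.norm_real, integral_const_mul] at h2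
  rw [mass_eq k hT0]
  have h6 := (le_abs_self _).trans h2
  calc 2 * ∫ t in Ioi (0:ℝ), eg 0 (t / T) * ‖zk k t‖ ^ 2 ≤ 2 * (2 * (C * 5 ^ (q + 1)) * NN q T * I0) := by
        linarith
    _ = _ := by ring

/-- an upper bound over the half range bounds everything -/
lemma half_upc {B : ℝ} {g : ℝ → ℝ} (h : HR k B g)
    (hS : ∃ C : ℝ, ∀ᶠ T : ℝ in atTop, St (Fh k T⁻¹) (Real.log T) (gc k g) ≤ C * NN q T) :
    (∃ C : ℝ, ∀ᶠ T : ℝ in atTop, M (zk k) T ≤ C * NN q T) ∧ ∃ C : ℝ, ∀ᶠ T : ℝ in atTop, mass k T ≤ C * NN q T := by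
  obtain ⟨C0, h0⟩ := hS
  obtain ⟨Cg, hCg, hbg⟩ := St_gc h (ε := 1 / 8) (by norm_num)
  obtain ⟨C, T0, β, hC, hT0, hβ0, hβ1, hb⟩ := half_mass h (ε := 1 / 4) (by norm_num)
  have ev : ∀ᶠ T : ℝ in atTop, mass k T ≤ (4 * |C0| + 4 * C + 4 * Cg) *
      (NN q T + M (zk k) (4 * T ^ β)) := by
    filter_upwards [h0, one_small q 1 one_pos, eventually_ge_atTop T0] with T a1 a2 a3
    have hTp : 0 < T := by linarith
    have hN := NN_pos q (show 1 < T by linarith)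
    have hM : 0 ≤ M (zk k) (4 * T ^ β) := M_nonneg _ (by positivity)
    have h1 := (abs_le.1 (hb T a3)).2
    have h2 := (abs_le.1 (hbg T (by linarith))).2
    have h3 : 0 ≤ |C0| * M (zk k) (4 * T ^ β) := by positivity
    have h4 : C * 1 ≤ C * (1 * NN q T) := mul_le_mul_of_nonneg_left a2 hC
    have h5 : 0 ≤ C * M (zk k) (4 * T ^ β) := by positivity
    have h6 : 0 ≤ C * NN q T := by positivity
    have h7 : Cg * 1 ≤ Cg * (1 * NN q T) := mul_le_mul_of_nonneg_left a2 hCg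
    have h8 : 0 ≤ Cg * M (zk k) (4 * T ^ β) := by positivity
    have h9 : 0 ≤ Cg * NN q T := by positivity
    have h10 : C0 * NN q T ≤ |C0| * NN q T := mul_le_mul_of_nonneg_right (le_abs_self _) hN.le
    linarith
  obtain ⟨T1, hT1⟩ := eventually_atTop.1 ev
  exact boot_mass hβ0 hβ1 hT1

end

end Pool.Agent.J4.H32.VS
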