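import Pool.Agent.J4.H32.VS.U1

set_option autoImplicit false

/-! The Gaussian sums are means of the classical error term. -/

namespace Pool.Agent.J4.H32.VS

open Complex MeasureTheory Filter Topology Set Metric Pool.Agent.TH535.SM Pool.Agent.R446.KR
open scoped FourierTransform ComplexConjugate

noncomputable section

/-- the kernel -/
def Kt (h s : ℝ) : ℝ := Real.exp (-(s ^ 2 / (2 * h ^ 2)) - s / 2)

/-- minus its derivative -/
def mk (h s : ℝ) : ℝ := (s / h ^ 2 + 1 / 2) * Kt h s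

lemma Kt_pos (h s : ℝ) : 0 < Kt h s := Real.exp_pos _

lemma Kt_cont (h : ℝ) : Continuous (Kt h) := by unfold Kt; fun_prop

lemma mk_cont (h : ℝ) : Continuous (mk h) := by
  have := Kt_cont h
  unfold mk
  fun_prop

lemma Kt_deriv (h s : ℝ) : HasDerivAt (Kt h) (-mk h s) s := by
  unfold Kt
  have h1 : HasDerivAt (fun s : ℝ => -(s ^ 2 / (2 * h ^ 2)) - s / 2) (-(2 * s / (2 * h ^ 2)) - 1 / 2) s := by
    have h2 := ((hasDerivAt_pow 2 s).div_const (2 * h ^ 2)).fun_neg
    exact (h2.fun_sub ((hasDerivAt_id' s).div_const 2)).congr_deriv (by norm_num)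
  have h4 := h1.exp
  convert h4 using 1
  unfold mk Kt
  by_cases hh : h = 0
  · subst hh; simp; ring
  · field_simp
    ring

lemma ge_int (p : ℕ) (l : ℝ) {c : ℝ} (hc : 0 < c) :
    Integrable (fun s : ℝ => (1 + |s|) ^ p * Real.exp (l * |s| - c * s ^ 2)) := by
  obtain ⟨B, hB, hg⟩ := poly_gauss p (c := c / 4) (by positivity)
  have h1 : Integrable (fun s : ℝ => Real.exp (l ^ 2 / c) * B * Real.exp (-(c / 2) * s ^ 2)) :=
    (integrable_exp_neg_mul_sq (by positivity)).const_mul _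
  refine h1.mono' (by fun_prop : Continuous _).aestronglyMeasurable (Eventually.of_forall fun s => ?_)
  rw [Real.norm_of_nonneg (by positivity)]
  have h2 : l * |s| ≤ l ^ 2 / c + c / 4 * s ^ 2 := by
    have h3 : 0 ≤ (l - c / 2 * |s|) ^ 2 / c := by positivity
    have h4 : (l - c / 2 * |s|) ^ 2 / c = l ^ 2 / c - l * |s| + c / 4 * |s| ^ 2 := by
      field_simp; ring
    rw [sq_abs] at h4
    linarith
  calc (1 + |s|) ^ p * Real.exp (l * |s| - c * s ^ 2) ≤
        (1 + |s|) ^ p * Real.exp (l ^ 2 / c + -(c / 4 * s ^ 2) + -(c / 2) * s ^ 2) := by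
        refine mul_le_mul_of_nonneg_left (Real.exp_le_exp.2 ?_) (by positivity)
        linarith
    _ = Real.exp (l ^ 2 / c) * ((1 + |s|) ^ p * Real.exp (-(c / 4 * s ^ 2))) * Real.exp (-(c / 2) * s ^ 2) := by
        rw [Real.exp_add, Real.exp_add]; ring
    _ ≤ _ := by gcongr; exact hg s

lemma Kt_le (h s : ℝ) : Kt h s ≤ Real.exp (1 / 2 * |s| - 1 / (2 * h ^ 2) * s ^ 2) := by
  unfold Kt
  refine Real.exp_le_exp.2 ?_
  have h1 := neg_abs_le s
  have e : 1 / (2 * h ^ 2) * s ^ 2 = s ^ 2 / (2 * h ^ 2) := by ring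
  rw [e]
  linarith

lemma mk_le (h s : ℝ) : |mk h s| ≤ (1 / h ^ 2 + 1) * ((1 + |s|) * Real.exp (1 / 2 * |s| - 1 / (2 * h ^ 2) * s ^ 2)) := by
  unfold mk
  rw [abs_mul, abs_of_pos (Kt_pos h s), ← mul_assoc]
  refine mul_le_mul ?_ (Kt_le h s) (Kt_pos h s).le (by positivity)
  have h1 := abs_add_le (s / h ^ 2) (1 / 2)
  rw [abs_div, abs_of_nonneg (sq_nonneg h), abs_of_pos (by norm_num : (0:ℝ) < 1 / 2)] at h1
  have h2 : |s| / h ^ 2 = 1 / h ^ 2 * |s| := by ring
  have h3 : 0 ≤ 1 / h ^ 2 := by positivity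
  have h4 := abs_nonneg s
  nlinarith

lemma mk_int (l : ℝ) {h : ℝ} (hh : 0 < h) : Integrable (fun s => |mk h s| * Real.exp (l * |s|)) := by
  have h1 := (ge_int 1 (l + 1 / 2) (c := 1 / (2 * h ^ 2)) (by positivity)).const_mul (1 / h ^ 2 + 1)
  refine h1.mono' (Continuous.aestronglyMeasurable ?_) (Eventually.of_forall fun s => ?_)
  · have := mk_cont h
    fun_prop
  · rw [Real.norm_of_nonneg (by positivity)]
    have h2 := mk_le h s
    calc |mk h s| * Real.exp (l * |s|) ≤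
          ((1 / h ^ 2 + 1) * ((1 + |s|) * Real.exp (1 / 2 * |s| - 1 / (2 * h ^ 2) * s ^ 2))) * Real.exp (l * |s|) := by
          gcongr
      _ = (1 / h ^ 2 + 1) * ((1 + |s|) * (Real.exp (1 / 2 * |s| - 1 / (2 * h ^ 2) * s ^ 2) * Real.exp (l * |s|))) := by
          ring
      _ = _ := by
          rw [← Real.exp_add, pow_one]
          congr 3
          ring

lemma Kt_int (l : ℝ) {h : ℝ} (hh : 0 < h) : Integrable (fun s => Kt h s * Real.exp (l * |s|)) := by
  have h1 := (ge_int 0 (l + 1 / 2) (c := 1 / (2 * h ^ 2)) (by positivity))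
  refine h1.mono' (Continuous.aestronglyMeasurable ?_) (Eventually.of_forall fun s => ?_)
  · have := Kt_cont h
    fun_prop
  · rw [Real.norm_of_nonneg (mul_nonneg (Kt_pos h s).le (Real.exp_pos _).le)]
    calc Kt h s * Real.exp (l * |s|) ≤
          Real.exp (1 / 2 * |s| - 1 / (2 * h ^ 2) * s ^ 2) * Real.exp (l * |s|) :=
          mul_le_mul_of_nonneg_right (Kt_le h s) (Real.exp_pos _).le
      _ = _ := by
          rw [← Real.exp_add, pow_zero, one_mul]
          congr 1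
          ring

lemma mk_int0 {h : ℝ} (hh : 0 < h) : Integrable (mk h) := by
  have h1 := mk_int 0 hh
  refine h1.mono' (mk_cont h).aestronglyMeasurable (Eventually.of_forall fun s => ?_)
  rw [zero_mul, Real.exp_zero, mul_one, Real.norm_eq_abs]

lemma Kt_int0 {h : ℝ} (hh : 0 < h) : Integrable (Kt h) := by
  have h1 := Kt_int 0 hh
  refine h1.mono' (Kt_cont h).aestronglyMeasurable (Eventually.of_forall fun s => ?_)
  rw [zero_mul, Real.exp_zero, mul_one, Real.norm_of_nonneg (Kt_pos h s).le]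

lemma mk_zero {h : ℝ} (hh : 0 < h) : ∫ s, mk h s = 0 := by
  have h1 := integral_eq_zero_of_hasDerivAt_of_integrable (f := Kt h) (f' := fun s => -mk h s)
    (fun s => Kt_deriv h s) (mk_int0 hh).neg (Kt_int0 hh)
  rw [integral_neg, neg_eq_zero] at h1
  exact h1

lemma mk_tail {h : ℝ} (hh : 0 < h) (l : ℝ) : ∫ s in Ioi l, mk h s = Kt h l := by
  have hl : Tendsto (fun s => -Kt h s) atTop (𝓝 0) := by
    rw [← neg_zero]
    refine Tendsto.neg ?_
    have h1 : Tendsto (fun s : ℝ => Real.exp (-(s / 2))) atTop (𝓝 0) :=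
      Real.tendsto_exp_neg_atTop_nhds_zero.comp (tendsto_id.atTop_div_const (by norm_num))
    refine squeeze_zero (fun s => (Kt_pos h s).le) (fun s => ?_) h1
    unfold Kt
    refine Real.exp_le_exp.2 ?_
    have : 0 ≤ s ^ 2 / (2 * h ^ 2) := by positivity
    linarith
  have h2 := integral_Ioi_of_hasDerivAt_of_tendsto (a := l) (f := fun s => -Kt h s) (f' := mk h)
    ((Kt_cont h).neg.continuousWithinAt) (fun s _ => by
      have := (Kt_deriv h s).neg
      rwa [neg_neg] at this) (mk_int0 hh).integrableOn hl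
  rw [h2]
  ring

/-- one summand -/
def Fn1 (k : ℕ) (h u : ℝ) (n : ℕ) (s : ℝ) : ℝ :=
  (Ioi (Real.log n - u)).indicator (fun s => (W182.KO.dk k n : ℝ) * mk h s) s

lemma dk0 (k : ℕ) : W182.KO.dk k 0 = 0 := by simp [W182.KO.dk]

lemma Fn1_int (k : ℕ) {h : ℝ} (hh : 0 < h) (u : ℝ) (n : ℕ) : Integrable (Fn1 k h u n) :=
  ((mk_int0 hh).const_mul _).indicator measurableSet_Ioi

lemma Fn1_val (k : ℕ) {h : ℝ} (hh : 0 < h) (u : ℝ) (n : ℕ) :
    ∫ s, Fn1 k h u n s = (W182.KO.dk k n : ℝ) * Kt h (Real.log n - u) := by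
  unfold Fn1
  rw [integral_indicator measurableSet_Ioi, integral_const_mul, mk_tail hh]

lemma Fn1_le (k : ℕ) (h u : ℝ) (n : ℕ) (s : ℝ) : ‖Fn1 k h u n s‖ ≤
    (W182.KO.dk k n : ℝ) * ((n : ℝ) ^ 2)⁻¹ * (Real.exp (2 * u) * (|mk h s| * Real.exp (2 * |s|))) := by
  rcases Nat.eq_zero_or_pos n with hn | hn
  · subst hn
    unfold Fn1
    simp [dk0]
  have h0 : (0:ℝ) < n := by exact_mod_cast hn
  unfold Fn1
  by_cases hs : s ∈ Ioi (Real.log n - u)
  · rw [indicator_of_mem hs, norm_mul, Real.norm_of_nonneg (by positivity), Real.norm_eq_abs]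
    have h1 : Real.log n - u < s := hs
    have h2 : (n:ℝ) ^ 2 ≤ Real.exp (2 * u) * Real.exp (2 * |s|) := by
      rw [← Real.exp_add, ← Real.exp_log (pow_pos h0 2), Real.log_pow]
      refine Real.exp_le_exp.2 ?_
      push_cast
      linarith [le_abs_self s]
    have h3 : 1 ≤ ((n:ℝ) ^ 2)⁻¹ * (Real.exp (2 * u) * Real.exp (2 * |s|)) := by
      rw [inv_mul_eq_div, one_le_div (by positivity)]
      exact h2
    have h4 : 0 ≤ (W182.KO.dk k n : ℝ) * |mk h s| := by positivity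
    calc (W182.KO.dk k n : ℝ) * |mk h s| ≤
          (W182.KO.dk k n : ℝ) * |mk h s| * (((n:ℝ) ^ 2)⁻¹ * (Real.exp (2 * u) * Real.exp (2 * |s|))) :=
          le_mul_of_one_le_right h4 h3
      _ = _ := by ring
  · rw [indicator_of_notMem hs, norm_zero]
    positivity

lemma Fn1_tsum (k : ℕ) (h u s : ℝ) (hs : ∀ n : ℕ, Real.log n - u ≠ s) : ∑' n, Fn1 k h u n s = mk h s * Sk k (u + s) := by
  unfold Sk
  rw [tsum_eq_sum (s := Finset.Icc 1 ⌊Real.exp (u + s)⌋₊), Finset.mul_sum]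
  · refine Finset.sum_congr rfl fun n hn => ?_
    have hn1 : 1 ≤ n := (Finset.mem_Icc.1 hn).1
    have h2 := (mem_Sk hn1).1 hn
    unfold Fn1
    rw [indicator_of_mem (show s ∈ Ioi (Real.log n - u) from lt_of_le_of_ne (by linarith) (hs n)), mul_comm]
  · intro n hn
    rcases Nat.eq_zero_or_pos n with hn0 | hn0
    · subst hn0
      unfold Fn1
      simp [dk0]
    · unfold Fn1
      refine indicator_of_notMem ?_ _
      intro h3
      apply hn
      rw [mem_Sk hn0]
      have h4 : Real.log n - u < s := h3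
      linarith

/-- the sum -/
lemma sum_id (k : ℕ) {h : ℝ} (hh : 0 < h) (u : ℝ) :
    Integrable (fun s => mk h s * Sk k (u + s)) ∧
    ∑' n : ℕ, (W182.KO.dk k n : ℝ) * (n : ℝ) ^ (-(1 / 2) : ℝ) *
      Real.exp (-(Real.log n - u) ^ 2 / (2 * h ^ 2)) = Real.exp (-(u / 2)) * ∫ s, mk h s * Sk k (u + s) := by
  have hm := (mk_int 2 hh).const_mul (Real.exp (2 * u))
  have hae : ∀ᵐ s : ℝ, ∀ n : ℕ, Real.log n - u ≠ s := by
    have h1 : volume (range (fun n : ℕ => Real.log n - u)) = 0 := (countable_range _).measure_zero _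
    filter_upwards [measure_eq_zero_iff_ae_notMem.1 h1] with s hs n hn
    exact hs ⟨n, hn⟩
  have hF : ∀ n, Integrable (Fn1 k h u n) := fun n => Fn1_int k hh u n
  have hsum : Summable (fun n => ∫ s, ‖Fn1 k h u n s‖) := by
    refine Summable.of_nonneg_of_le (fun n => integral_nonneg fun s => norm_nonneg _) (fun n => ?_)
      ((dk_sum k).mul_right (∫ s, Real.exp (2 * u) * (|mk h s| * Real.exp (2 * |s|))))
    rw [← integral_const_mul]
    exact integral_mono (hF n).norm (hm.const_mul _) (Fn1_le k h u n)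
  have hint : Integrable (fun s => mk h s * Sk k (u + s)) := by
    refine (hm.const_mul (Z2 k)).mono' ?_ (Eventually.of_forall fun s => ?_)
    · exact ((mk_cont h).measurable.mul ((Sk_meas k).comp (measurable_const.add measurable_id))).aestronglyMeasurable
    · rw [norm_mul, Real.norm_eq_abs, Real.norm_of_nonneg (Sk_nonneg k _)]
      have h1 := Sk_le k (u + s)
      have h2 : Real.exp (2 * (u + s)) ≤ Real.exp (2 * u) * Real.exp (2 * |s|) := by
        rw [← Real.exp_add]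
        exact Real.exp_le_exp.2 (by linarith [le_abs_self s])
      have hZ := Z2_nonneg k
      calc |mk h s| * Sk k (u + s) ≤ |mk h s| * (Z2 k * (Real.exp (2 * u) * Real.exp (2 * |s|))) := by
            refine mul_le_mul_of_nonneg_left (h1.trans ?_) (abs_nonneg _)
            exact mul_le_mul_of_nonneg_left h2 hZ
        _ = _ := by ring
  refine ⟨hint, ?_⟩
  have h1 := hasSum_integral_of_summable_integral_norm hF hsum
  have e1 : ∫ s, ∑' n, Fn1 k h u n s = ∫ s, mk h s * Sk k (u + s) := by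
    refine integral_congr_ae ?_
    filter_upwards [hae] with s hs
    exact Fn1_tsum k h u s hs
  rw [e1] at h1
  rw [← h1.tsum_eq, ← tsum_mul_left]
  refine tsum_congr fun n => ?_
  rw [Fn1_val k hh]
  rcases Nat.eq_zero_or_pos n with hn | hn
  · subst hn
    simp [dk0]
  have h0 : (0:ℝ) < n := by exact_mod_cast hn
  have e2 : (n : ℝ) ^ (-(1 / 2) : ℝ) * Real.exp (-(Real.log n - u) ^ 2 / (2 * h ^ 2)) =
      Real.exp (-(u / 2)) * Kt h (Real.log n - u) := by
    unfold Kt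
    rw [Real.rpow_def_of_pos h0, ← Real.exp_add, ← Real.exp_add]
    congr 1
    ring
  rw [mul_assoc, e2]
  ring

/-- the Gaussian integral -/
lemma Kt_laplace {h : ℝ} (hh : 0 < h) (z : ℂ) : ∫ x : ℝ, (Kt h x : ℂ) * cexp (x * z) =
    ((√(2 * Real.pi) * h : ℝ) : ℂ) * cexp (h ^ 2 * (z - 1 / 2) ^ 2 / 2) := by
  have hhc : (h:ℂ) ≠ 0 := by exact_mod_cast hh.ne'
  have e1 : ∀ x : ℝ, (Kt h x : ℂ) * cexp (x * z) =
      cexp ((-(1 / (2 * h ^ 2)) : ℂ) * (x:ℂ) ^ 2 + (z - 1 / 2) * x + 0) := by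
    intro x
    unfold Kt
    rw [Complex.ofReal_exp, ← Complex.exp_add]
    congr 1
    push_cast
    ring
  simp_rw [e1]
  rw [integral_cexp_quadratic (by
    have : (-(1 / (2 * h ^ 2)) : ℂ) = ((-(1 / (2 * h ^ 2)) : ℝ) : ℂ) := by push_cast; ring
    rw [this, Complex.ofReal_re]
    have : 0 < 1 / (2 * h ^ 2) := by positivity
    linarith)]
  have e2 : ((Real.pi : ℂ) / -(-(1 / (2 * h ^ 2)) : ℂ)) ^ (1 / 2 : ℂ) = ((√(2 * Real.pi) * h : ℝ) : ℂ) := by
    have e3 : ((Real.pi : ℂ) / -(-(1 / (2 * h ^ 2)) : ℂ)) = (((√(2 * Real.pi) * h) ^ 2 : ℝ) : ℂ) := by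
      rw [mul_pow, Real.sq_sqrt (by positivity)]
      push_cast
      field_simp
    rw [e3]
    have e4 : (1 / 2 : ℂ) = ((1 / 2 : ℝ) : ℂ) := by push_cast; ring
    rw [e4, ← Complex.ofReal_cpow (by positivity), ← Real.sqrt_eq_rpow, Real.sqrt_sq (by positivity)]
  rw [e2]
  congr 2
  field_simp
  ring

lemma exp_le_abs (x : ℝ) {z : ℂ} {l : ℝ} (hz : |z.re| ≤ l) : ‖cexp (x * z)‖ ≤ Real.exp (l * |x|) := by
  rw [Complex.norm_exp, Complex.re_ofReal_mul]
  refine Real.exp_le_exp.2 ?_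
  calc x * z.re ≤ |x * z.re| := le_abs_self _
    _ = |x| * |z.re| := abs_mul _ _
    _ ≤ |x| * l := mul_le_mul_of_nonneg_left hz (abs_nonneg _)
    _ = _ := mul_comm _ _

lemma mk_laplace {h : ℝ} (hh : 0 < h) (z : ℂ) : ∫ x : ℝ, (mk h x : ℂ) * cexp (x * z) =
    z * (((√(2 * Real.pi) * h : ℝ) : ℂ) * cexp (h ^ 2 * (z - 1 / 2) ^ 2 / 2)) := by
  have i1 : Integrable (fun x : ℝ => (mk h x : ℂ) * cexp (x * z)) := by
    refine (mk_int |z.re| hh).mono' (Continuous.aestronglyMeasurable ?_) (Eventually.of_forall fun x => ?_)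
    · have := mk_cont h
      fun_prop
    · rw [norm_mul, Complex.norm_real, Real.norm_eq_abs]
      exact mul_le_mul_of_nonneg_left (exp_le_abs x le_rfl) (abs_nonneg _)
  have i2 : Integrable (fun x : ℝ => (Kt h x : ℂ) * cexp (x * z)) := by
    refine (Kt_int |z.re| hh).mono' (Continuous.aestronglyMeasurable ?_) (Eventually.of_forall fun x => ?_)
    · have := Kt_cont h
      fun_prop
    · rw [norm_mul, Complex.norm_real, Real.norm_of_nonneg (Kt_pos h x).le]
      exact mul_le_mul_of_nonneg_left (exp_le_abs x le_rfl) (Kt_pos h x).le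
  have hd : ∀ x : ℝ, HasDerivAt (fun x : ℝ => (Kt h x : ℂ) * cexp (x * z))
      (z * ((Kt h x : ℂ) * cexp (x * z)) - (mk h x : ℂ) * cexp (x * z)) x := by
    intro x
    have h1 := (Kt_deriv h x).ofReal_comp
    have h2 : HasDerivAt (fun x : ℝ => cexp (x * z)) (cexp (x * z) * z) x := by
      have h3 : HasDerivAt (fun x : ℝ => (x : ℂ) * z) z x := by
        have h4 : HasDerivAt (fun y : ℝ => (y : ℂ)) 1 x := Complex.ofRealCLM.hasDerivAt
        simpa using h4.mul_const z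
      exact h3.cexp
    refine (h1.mul h2).congr_deriv ?_
    push_cast
    ring
  have h6 := integral_eq_zero_of_hasDerivAt_of_integrable hd ((i2.const_mul z).sub i1) i2
  rw [integral_sub (i2.const_mul z) i1, integral_const_mul, Kt_laplace hh, sub_eq_zero] at h6
  exact h6.symm

/-- the pole -/
lemma pole_id (k : ℕ) {h : ℝ} (hh : 0 < h) (u : ℝ) :
    Integrable (fun s => (mk h s : ℂ) * Rk k (u + s)) ∧
    mt k h u = (Real.exp (-(u / 2)) : ℝ) * ∫ s, (mk h s : ℂ) * Rk k (u + s) := by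
  have hm := (mk_int 2 hh).const_mul (2 * Real.exp (2 * |u|))
  have key := RL_swap k (φ := fun s w => (mk h s : ℂ) * (cexp (((u + s : ℝ) : ℂ) * w) / w))
    (b := fun s => 2 * Real.exp (2 * |u|) * (|mk h s| * Real.exp (2 * |s|)))
    (by
      have h1 := mk_cont h
      have h2 := cm_cont
      refine Continuous.mul (by fun_prop) ?_
      exact Continuous.div (by fun_prop) (by fun_prop) fun p => cm_ne0 _) hm (fun s θ => by
      rw [norm_mul, Complex.norm_real, Real.norm_eq_abs]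
      have h1 := exps_norm (u + s) θ
      have h2 : Real.exp (2 * |u + s|) ≤ Real.exp (2 * |u|) * Real.exp (2 * |s|) := by
        rw [← Real.exp_add]
        exact Real.exp_le_exp.2 (by linarith [abs_add_le u s])
      calc |mk h s| * ‖cexp (((u + s : ℝ) : ℂ) * cm θ) / cm θ‖ ≤
            |mk h s| * (2 * (Real.exp (2 * |u|) * Real.exp (2 * |s|))) := by
            refine mul_le_mul_of_nonneg_left (h1.trans ?_) (abs_nonneg _)
            linarith
        _ = _ := by ring)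
  have e1 : ∀ s, RL k (fun w => (mk h s : ℂ) * (cexp (((u + s : ℝ) : ℂ) * w) / w)) =
      (mk h s : ℂ) * Rk k (u + s) := fun s => RL_const_mul k _ _
  simp only [e1] at key
  refine ⟨key.1, ?_⟩
  rw [key.2]
  unfold mt
  have e2 : (2 * Real.pi * I)⁻¹ * ∮ s in C(1, 1 / 4), riemannZeta s ^ k *
      cexp (h ^ 2 * (s - 1 / 2) ^ 2 / 2 + u * (s - 1 / 2)) =
      RL k (fun s => cexp (h ^ 2 * (s - 1 / 2) ^ 2 / 2 + u * (s - 1 / 2))) := rfl
  rw [e2, ← RL_const_mul, ← RL_const_mul]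
  refine RL_congr k fun θ => ?_
  set w := cm θ with hw
  have hw0 : w ≠ 0 := cm_ne0 θ
  have e3 : ∫ s : ℝ, (mk h s : ℂ) * (cexp (((u + s : ℝ) : ℂ) * w) / w) =
      cexp (u * w) / w * ∫ s : ℝ, (mk h s : ℂ) * cexp (s * w) := by
    rw [← integral_const_mul]
    refine integral_congr_ae (Eventually.of_forall fun s => ?_)
    simp only
    rw [show ((u + s : ℝ) : ℂ) * w = u * w + s * w by push_cast; ring, Complex.exp_add]
    ring
  rw [e3, mk_laplace hh, Complex.ofReal_exp]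
  have e4 : cexp ((-(u / 2) : ℝ) : ℂ) * (cexp (u * w) / w * (w * (((√(2 * Real.pi) * h : ℝ) : ℂ) *
      cexp (h ^ 2 * (w - 1 / 2) ^ 2 / 2)))) = ((√(2 * Real.pi) * h : ℝ) : ℂ) *
      (cexp ((-(u / 2) : ℝ) : ℂ) * cexp (u * w) * cexp (h ^ 2 * (w - 1 / 2) ^ 2 / 2)) := by
    field_simp
  rw [e4, ← Complex.exp_add, ← Complex.exp_add]
  congr 2
  push_cast
  ring

/-- **the Gaussian sums are means of the error term** -/
theorem Dl_D0 (k : ℕ) {h : ℝ} (hh : 0 < h) (u : ℝ) :
    Integrable (fun s => (mk h s : ℂ) * D0 k (u + s)) ∧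
    Dl k h u = (Real.exp (-(u / 2)) : ℝ) * ∫ s, (mk h s : ℂ) * D0 k (u + s) := by
  obtain ⟨i1, e1⟩ := sum_id k hh u
  obtain ⟨i2, e2⟩ := pole_id k hh u
  have e3 : (fun s => (mk h s : ℂ) * D0 k (u + s)) =
      fun s => ((mk h s * Sk k (u + s) : ℝ) : ℂ) - (mk h s : ℂ) * Rk k (u + s) := by
    funext s
    unfold D0
    push_cast
    ring
  rw [e3]
  refine ⟨i1.ofReal.sub i2, ?_⟩
  rw [integral_sub (f := fun s => ((mk h s * Sk k (u + s) : ℝ) : ℂ)) (g := fun s => (mk h s : ℂ) * Rk k (u + s))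
    i1.ofReal i2, integral_complex_ofReal]
  unfold Dl
  rw [e1, e2]
  push_cast
  ring

end

end Pool.Agent.J4.H32.VS
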