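import Pool.Agent.J4.H32.VS.U19

set_option autoImplicit false

/-! The moment and the variance for one half-range cut-off. -/

namespace Pool.Agent.J4.H32.VS

open Complex MeasureTheory Filter Topology Set Metric Pool.Agent.TH535.SM Pool.Agent.R446.KR
open Pool.Agent.J4.H44.LP
open Pool.Agent.W182.KO (TF)
open scoped FourierTransform ComplexConjugate ContDiff

noncomputable section

variable {q k : ℕ}

lemma Ga_Tst {B : ℝ} (hB : 0 < B) {f : ℝ → ℝ} (hf : Tst B f) : ∃ R C1 S : ℝ, 0 ≤ R ∧ Ga f B R C1 S := by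
  obtain ⟨C1, S, R, h⟩ := mk_Td hB hf.1 hf.2.1 hf.2.2
  exact ⟨R, C1, S, Nat.cast_nonneg R, h.cont, h.hC1, h.lip, h.bd, h.edge, fun v hv => h.out v (by
    rw [abs_of_nonpos (by linarith [(Nat.cast_nonneg R : (0:ℝ) ≤ R)])]
    linarith)⟩

lemma edge_bd (hk : 1 ≤ k) {b : ℝ} (hb0 : 0 < b) (hb : b < 1) {f : ℝ → ℝ} (hf : Tst b f) :
    ∃ C : ℝ, 0 ≤ C ∧ ∀ᶠ T in atTop, |Af k f 0 (Real.log T) T⁻¹| ≤ C * Nh (k ^ 2) T := by
  obtain ⟨R, C1, S, hR, h⟩ := Ga_Tst hb0 hf
  have h1 := (Ee_lim hk h hR hb0 hb).abs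
  refine ⟨|El k f| + 1, by positivity, ?_⟩
  filter_upwards [h1.eventually_le_const (show |El k f| < |El k f| + 1 by linarith), eventually_gt_atTop 1]
    with T a1 a2
  have hN := Nh_pos (k ^ 2) a2
  rw [abs_div, abs_of_pos hN, div_le_iff₀ hN] at a1
  unfold Af
  simp only [sub_zero]
  exact a1

/-- the functions of one scale are below those of another -/
lemma Af_mono {f g : ℝ → ℝ} (hf : Continuous f) (hfs : HasCompactSupport f) (hg : Continuous g)
    (hgs : HasCompactSupport g) {L L' h : ℝ} (hL : 0 < L) (hL' : 0 < L') (hfg : ∀ v : ℝ, f (v / L) ≤ g (v / L')) :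
    Af k f 0 L h ≤ Af k g 0 L' h := by
  have cs : ∀ {f : ℝ → ℝ}, HasCompactSupport f → ∀ {L : ℝ}, 0 < L → HasCompactSupport (fun v : ℝ => f (v / L)) := by
    intro f hf L hL
    have h2 := hf.comp_homeomorph (Homeomorph.mulRight₀ L⁻¹ (by positivity))
    have e : (fun u : ℝ => f (u / L)) = f ∘ ⇑(Homeomorph.mulRight₀ L⁻¹ (by positivity)) := by
      funext u
      simp [div_eq_mul_inv]
    rw [e]
    exact h2
  have i1 := gE_int k h (g := fun v => f (v / L)) (by fun_prop) (cs hfs hL)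
  have i2 := gE_int k h (g := fun v => g (v / L')) (by fun_prop) (cs hgs hL')
  unfold Af
  simp only [sub_zero]
  exact integral_mono i1 i2 fun v => mul_le_mul_of_nonneg_right (hfg v) (by positivity)

lemma Af_add {f g : ℝ → ℝ} (hf : Continuous f) (hfs : HasCompactSupport f) (hg : Continuous g)
    (hgs : HasCompactSupport g) {L h : ℝ} (hL : 0 < L) :
    Af k (fun v => f v + g v) 0 L h = Af k f 0 L h + Af k g 0 L h := by
  have cs : ∀ {f : ℝ → ℝ}, HasCompactSupport f → HasCompactSupport (fun v : ℝ => f (v / L)) := by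
    intro f hf
    have h2 := hf.comp_homeomorph (Homeomorph.mulRight₀ L⁻¹ (by positivity))
    have e : (fun u : ℝ => f (u / L)) = f ∘ ⇑(Homeomorph.mulRight₀ L⁻¹ (by positivity)) := by
      funext u
      simp [div_eq_mul_inv]
    rw [e]
    exact h2
  have i1 := gE_int k h (g := fun v => f (v / L)) (by fun_prop) (cs hfs)
  have i2 := gE_int k h (g := fun v => g (v / L)) (by fun_prop) (cs hgs)
  unfold Af
  simp only [sub_zero]
  rw [← integral_add i1 i2]
  refine integral_congr_ae (Eventually.of_forall fun v => ?_)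
  simp only
  ring

lemma Af_smul (f : ℝ → ℝ) (c L h : ℝ) : Af k (fun v => c * f v) 0 L h = c * Af k f 0 L h := by
  unfold Af
  rw [← integral_const_mul]
  refine integral_congr_ae (Eventually.of_forall fun v => ?_)
  simp only
  ring

lemma HR.nonneg {B : ℝ} {g : ℝ → ℝ} (h : HR k B g) (ha : Antitone g) (v : ℝ) : 0 ≤ g v := by
  have h1 := ha (le_max_left v B)
  rw [h.out _ (le_max_right v B)] at h1
  exact h1

/-- bounded short intervals over the half range bound all short intervals slightly beyond the middle -/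
lemma Hb_of_V1 (hk : 1 ≤ k) {B : ℝ} {g : ℝ → ℝ} (h : HR k B g) (ha : Antitone g)
    (hV : ∃ C : ℝ, ∀ᶠ T in atTop, V1 k (k ^ 2) (gc k g) T ≤ C) :
    ∃ e : ℝ, 0 < e ∧ ∀ f0 : ℝ → ℝ, Tst (k / 2 + e) f0 → (∀ v, 0 ≤ f0 v) →
      ∃ C : ℝ, ∀ᶠ T in atTop, Af k f0 0 (Real.log T) T⁻¹ ≤ C * Nh (k ^ 2) T := by
  have hk1 : (1:ℝ) ≤ k := by exact_mod_cast hk
  have g2 : g (k / 2) = 1 / 2 := by
    have h1 := h.sym (k / 2)
    rw [show (k:ℝ) - k / 2 = k / 2 by ring] at h1
    linarith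
  obtain ⟨δ, hδ, hd⟩ := Metric.continuous_iff.1 h.cd.continuous (k / 2 : ℝ) (1 / 4) (by norm_num)
  obtain ⟨e, hee⟩ : ∃ e : ℝ, e = min (δ / 4) (1 / 4) := ⟨_, rfl⟩
  have he0 : 0 < e := by rw [hee]; positivity
  have he1 : e ≤ δ / 4 := by rw [hee]; exact min_le_left _ _
  have he2 : e ≤ 1 / 4 := by rw [hee]; exact min_le_right _ _
  have g3 : 1 / 4 ≤ g (k / 2 + 2 * e) := by
    have h1 := hd (k / 2 + 2 * e) (by
      rw [Real.dist_eq, add_sub_cancel_left, abs_of_pos (by positivity)]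
      linarith)
    rw [Real.dist_eq, g2] at h1
    have := (abs_lt.1 h1).1
    linarith
  refine ⟨e, he0, fun f0 hf0 h0 => ?_⟩
  obtain ⟨S, hS⟩ := hf0.bd
  have hS0 : 0 ≤ S := (abs_nonneg _).trans (hS 0)
  obtain ⟨C, hC⟩ := hV
  set χ : ℝ → ℝ := fun v => Real.smoothTransition (4 * v - 1) with hχ
  have cχ : ContDiff ℝ ∞ χ := Real.smoothTransition.contDiff.comp ((contDiff_const.mul contDiff_id).sub contDiff_const)
  have χ0 : ∀ v, v ≤ 1 / 4 → χ v = 0 := fun v hv => Real.smoothTransition.zero_of_nonpos (by linarith)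
  have χ1 : ∀ v, 1 / 2 ≤ v → χ v = 1 := fun v hv => Real.smoothTransition.one_of_one_le (by linarith)
  have χn : ∀ v, 0 ≤ χ v := fun v => Real.smoothTransition.nonneg _
  have χl : ∀ v, χ v ≤ 1 := fun v => Real.smoothTransition.le_one _
  have tb : Tst (1 / 2) (fun v => f0 v * (1 - χ v)) := by
    refine ⟨hf0.1.mul (contDiff_const.sub cχ), hf0.2.1.mul_right, fun v hv => ?_⟩
    simp only
    rw [χ1 v hv, sub_self, mul_zero]
  have ca : Continuous (fun v => f0 v * χ v) := hf0.1.continuous.mul cχ.continuous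
  have sa : HasCompactSupport (fun v => f0 v * χ v) := hf0.2.1.mul_right
  obtain ⟨Cb, hCb, hb⟩ := edge_bd hk (by norm_num : (0:ℝ) < 1 / 2) (by norm_num) tb
  have r1 := log_rat sc2' (a := fun T : ℝ => T) sc2
  have r2 := Nh_rat (k ^ 2) (a := fun T : ℝ => T) tendsto_id sc2' sc2
  have hkap : (1:ℝ) < (k / 2 + 2 * e) / (k / 2 + e) := by
    rw [one_lt_div (by positivity)]
    linarith
  refine ⟨4 * S * (|C| * 2) + Cb, ?_⟩
  filter_upwards [hb, sc2'.eventually hC, r1.eventually_le_const hkap,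
    r1.eventually_const_lt (show (0:ℝ) < 1 by norm_num), r2.eventually_le_const (show (1:ℝ) < 2 by norm_num),
    eventually_gt_atTop 1, sc2'.eventually_gt_atTop 1] with T a1 a2 a3 a4 a5 a6 a7
  set T' : ℝ := (Real.exp T⁻¹ - 1)⁻¹ with hT'
  have hL := Real.log_pos a6
  have hL' := Real.log_pos a7
  have hN := Nh_pos (k ^ 2) a6
  have hN' := Nh_pos (k ^ 2) a7
  have cg := (gc_cd h).continuous
  have sg := gc_cs k g
  have ef : (fun v => f0 v * χ v + f0 v * (1 - χ v)) = f0 := by funext v; ring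
  have h1 := Af_add (k := k) ca sa tb.1.continuous tb.2.1 (L := Real.log T) (h := T⁻¹) hL
  rw [ef] at h1
  have h2 : Af k (fun v => f0 v * χ v) 0 (Real.log T) T⁻¹ ≤
      Af k (fun v => (4 * S) * gc k g v) 0 (Real.log T') T⁻¹ := by
    have cc : Continuous (fun v => (4 * S) * gc k g v) := continuous_const.mul cg
    have ss : HasCompactSupport (fun v => (4 * S) * gc k g v) := sg.mul_left
    refine Af_mono ca sa cc ss hL hL' fun v => ?_
    set x := v / Real.log T with hx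
    have ex : v / Real.log T' = x * (Real.log T / Real.log T') := by
      rw [hx]; field_simp
    rw [ex]
    set r := Real.log T / Real.log T' with hr
    have hgc : 0 ≤ gc k g (x * r) := mul_nonneg (h.nonneg ha _) (cut_nonneg k _)
    rcases le_or_gt x (1 / 4) with c | c
    · rw [χ0 x c, mul_zero]
      positivity
    rcases le_or_gt (k / 2 + e) x with c' | c'
    · rw [hf0.2.2 x c', zero_mul]
      positivity
    · have hx' : x * r ≤ k / 2 + 2 * e := by
        have h3 : x * r ≤ (k / 2 + e) * ((k / 2 + 2 * e) / (k / 2 + e)) :=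
          mul_le_mul c'.le a3 a4.le (by positivity)
        rwa [mul_div_cancel₀ _ (by positivity : (k:ℝ) / 2 + e ≠ 0)] at h3
      have hx0 : 0 ≤ x * r := mul_nonneg (by linarith) a4.le
      have h4 : gc k g (x * r) = g (x * r) := by
        unfold gc
        rw [cut_one (by linarith) (by linarith), mul_one]
      have h5 : 1 / 4 ≤ g (x * r) := g3.trans (ha hx')
      rw [h4]
      calc f0 x * χ x ≤ f0 x * 1 := mul_le_mul_of_nonneg_left (χl x) (h0 x)
        _ ≤ S := by rw [mul_one]; exact (le_abs_self _).trans (hS x)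
        _ = 4 * S * (1 / 4) := by ring
        _ ≤ 4 * S * g (x * r) := mul_le_mul_of_nonneg_left h5 (by positivity)
  rw [Af_smul] at h2
  have h3 : Af k (gc k g) 0 (Real.log T') T⁻¹ ≤ |C| * 2 * Nh (k ^ 2) T := by
    have h4 : V1 k (k ^ 2) (gc k g) T' ≤ C := a2
    unfold V1 at h4
    have e1 : Real.log (1 + T'⁻¹) = T⁻¹ := by
      rw [hT', inv_inv, add_sub_cancel, Real.log_exp]
    rw [e1, div_le_iff₀ hN'] at h4
    rw [div_le_iff₀ hN] at a5
    calc _ ≤ C * Nh (k ^ 2) T' := h4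
      _ ≤ |C| * Nh (k ^ 2) T' := mul_le_mul_of_nonneg_right (le_abs_self _) hN'.le
      _ ≤ |C| * (2 * Nh (k ^ 2) T) := mul_le_mul_of_nonneg_left a5 (abs_nonneg _)
      _ = _ := by ring
  have h5 := (le_abs_self _).trans a1
  have h6 := mul_le_mul_of_nonneg_left h3 (by positivity : 0 ≤ 4 * S)
  rw [h1]
  calc _ ≤ 4 * S * (|C| * 2 * Nh (k ^ 2) T) + Cb * Nh (k ^ 2) T := add_le_add (h2.trans h6) h5
    _ = _ := by ring

/-- a cut-off near the middle -/
def gm (k : ℕ) (η v : ℝ) : ℝ := Real.smoothTransition ((k / 2 + η - v) / (2 * η))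

lemma gm_HR (k : ℕ) {η : ℝ} (hη : 0 < η) : HR k (k / 2 + η) (gm k η) where
  cd := by
    unfold gm
    exact Real.smoothTransition.contDiff.comp ((contDiff_const.sub contDiff_id).div_const _)
  sym v := by
    unfold gm
    have e : (k / 2 + η - ((k:ℝ) - v)) / (2 * η) = 1 - (k / 2 + η - v) / (2 * η) := by
      field_simp
      ring
    rw [e, st_symm]
    ring
  out v hv := by
    unfold gm
    exact Real.smoothTransition.zero_of_nonpos (div_nonpos_of_nonpos_of_nonneg (by linarith) (by positivity))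

lemma gc_Tst {B : ℝ} {g : ℝ → ℝ} (h : HR k B g) : Tst B (gc k g) :=
  ⟨gc_cd h, gc_cs k g, fun _ hv => gc_out h hv⟩

/-- **bounded variance, bounded moment** -/
theorem up_bwd (hk : 1 ≤ k) {B : ℝ} {g : ℝ → ℝ} (h : HR k B g) (ha : Antitone g)
    (hV : ∃ C : ℝ, ∀ᶠ T in atTop, V1 k (k ^ 2) (gc k g) T ≤ C) :
    (∃ C : ℝ, ∀ᶠ T : ℝ in atTop, M (zk k) T ≤ C * NN (k ^ 2) T) ∧
      ∃ C : ℝ, ∀ᶠ T : ℝ in atTop, mass k T ≤ C * NN (k ^ 2) T := by
  obtain ⟨e, he, Hb⟩ := Hb_of_V1 hk h ha hV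
  have hk0 : (0:ℝ) < k := by exact_mod_cast hk
  have he2 : 0 < e / 2 := by positivity
  obtain ⟨C, hC, hb⟩ := conv_up (k := k) (q := k ^ 2) (B1 := k / 2 + e / 2) (B2 := k / 2 + e) (by positivity)
    (by linarith) Hb (gc_Tst (gm_HR k he2))
  refine half_upc (gm_HR k he2) ⟨C, ?_⟩
  filter_upwards [hb, eventually_gt_atTop 1] with T a1 a2
  have hT0 : 0 < T := by linarith
  rw [int_St k (inv_pos.2 hT0)] at a1
  have h1 := (le_abs_self _).trans a1
  unfold Nh at h1
  have h2 : 0 < T⁻¹ ^ 2 := by positivity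
  have h3 : T⁻¹ ^ 2 * St (Fh k T⁻¹) (Real.log T) (gc k (gm k (e / 2))) ≤ T⁻¹ ^ 2 * (C * NN (k ^ 2) T) := by
    linarith
  exact le_of_mul_le_mul_left h3 h2

/-- **bounded moment, bounded variance** -/
theorem up_fwd {B : ℝ} {f : ℝ → ℝ} (hf : Tst B f)
    (hup : ∃ C : ℝ, ∀ᶠ T : ℝ in atTop, M (zk k) T ≤ C * NN q T) : ∃ C : ℝ, ∀ᶠ T in atTop, V1 k q f T ≤ C := by
  obtain ⟨S, hS⟩ := hf.bd
  obtain ⟨C, hC, hb⟩ := Af_all (k := k) (q := q) (mass_of_M hup) hS
  have r2 := Nh_rat q (a := fun T : ℝ => T) tendsto_id sc1' sc1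
  refine ⟨C * 2, ?_⟩
  filter_upwards [sc1'.eventually hb, r2.eventually_le_const (show (1:ℝ) < 2 by norm_num),
    eventually_gt_atTop 1] with T a1 a2 a3
  have hN := Nh_pos q a3
  have h1 := (le_abs_self _).trans (a1 (Real.log T))
  rw [inv_inv] at h1
  unfold V1
  rw [div_le_iff₀ hN]
  rw [div_le_iff₀ hN] at a2
  calc _ ≤ C * Nh q (Real.log (1 + T⁻¹))⁻¹ := h1
    _ ≤ C * (2 * Nh q T) := mul_le_mul_of_nonneg_left a2 hC
    _ = _ := by ring

lemma gc_diff {B : ℝ} {g : ℝ → ℝ} (h : HR k B g) (u1 : ∃ C : ℝ, ∀ᶠ T : ℝ in atTop, M (zk k) T ≤ C * NN q T)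
    (u2 : ∃ C : ℝ, ∀ᶠ T : ℝ in atTop, mass k T ≤ C * NN q T) :
    Tendsto (fun T => (St (Fh k T⁻¹) (Real.log T) g - St (Fh k T⁻¹) (Real.log T) (gc k g)) / NN q T) atTop (𝓝 0) := by
  have h1 := err_small (k := k) (q := q) u1 u2
    (X := fun T => ((St (Fh k T⁻¹) (Real.log T) g - St (Fh k T⁻¹) (Real.log T) (gc k g) : ℝ) : ℂ)) (fun ε hε => by
      obtain ⟨C, hC, hb⟩ := St_gc h hε
      refine ⟨C, 2, 1 / 2, hC, le_rfl, by norm_num, by norm_num, fun T hT => ?_⟩
      rw [Complex.norm_real, Real.norm_eq_abs]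
      refine (hb T hT).trans (add_le_add le_rfl ?_)
      have hT0 : 0 < T := by linarith
      have hM : 0 ≤ M (zk k) (4 * T ^ (1 / 2 : ℝ)) := M_nonneg _ (by positivity)
      nlinarith)
  have h2 := (Complex.continuous_re.tendsto _).comp h1
  refine h2.congr fun T => ?_
  simp only [Function.comp]
  rw [← Complex.ofReal_div, Complex.ofReal_re]

/-- **from the moment to the variance**, one cut-off -/
theorem one_fwd {B c : ℝ} {g : ℝ → ℝ} (h : HR k B g)
    (hM : Tendsto (fun T => M (zk k) T / NN q T) atTop (𝓝 c)) :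
    Tendsto (V1 k q (gc k g)) atTop (𝓝 (c / 2)) := by
  have u1 : ∃ C : ℝ, ∀ᶠ T : ℝ in atTop, M (zk k) T ≤ C * NN q T := ⟨_, up_of_ratio hM⟩
  have u2 := mass_of_M u1
  have h1 := (half_lim h hM).sub (gc_diff h u1 u2)
  rw [sub_zero] at h1
  have h2 : Tendsto (fun T => St (Fh k T⁻¹) (Real.log T) (gc k g) / NN q T) atTop (𝓝 (√Real.pi * (c / 2))) := by
    have e : √Real.pi * (c / 2) = √Real.pi * c / 2 := by ring
    rw [e]
    refine h1.congr fun T => ?_
    ring
  obtain ⟨ξ, hξ, hT⟩ := ge_TF h 0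
  rw [ge_zero] at hT
  have h3 := fwd1 u2 hT h2
  have hB1 : 0 < max B 1 := lt_of_lt_of_le one_pos (le_max_right _ _)
  have ht : Tst (max B 1) (gc k g) := ⟨gc_cd h, gc_cs k g, fun v hv => gc_out h ((le_max_left _ _).trans hv)⟩
  refine scale_change1 (k := k) (q := q) (B1 := max B 1) (B2 := max B 1 + 1) hB1 (by linarith) (a := fun T => T)
    (b := fun T => (Real.log (1 + T⁻¹))⁻¹)
    (y := fun T => Real.log (1 + T⁻¹)) tendsto_id sc1' sc1 (fun f0 hf0 _ => ?_) ht ?_
  · obtain ⟨S, hS⟩ := hf0.bd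
    obtain ⟨C, hC, hb⟩ := Af_all (k := k) (q := q) u2 hS
    refine ⟨C, ?_⟩
    filter_upwards [sc1'.eventually hb] with T a1
    have h4 := (le_abs_self _).trans (a1 (Real.log ((Real.log (1 + T⁻¹))⁻¹)))
    rwa [inv_inv] at h4
  · refine (h3.comp sc1').congr fun T => ?_
    simp only [Function.comp, inv_inv]
    unfold Af
    simp only [sub_zero]

/-- **from the variance to the moment**, one cut-off -/
theorem one_bwd (hk : 1 ≤ k) {B c : ℝ} {g : ℝ → ℝ} (h : HR k B g) (ha : Antitone g)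
    (hV : Tendsto (V1 k (k ^ 2) (gc k g)) atTop (𝓝 (c / 2))) :
    Tendsto (fun T => M (zk k) T / NN (k ^ 2) T) atTop (𝓝 c) := by
  obtain ⟨u1, u2⟩ := up_bwd hk h ha ⟨c / 2 + 1, hV.eventually_le_const (by linarith)⟩
  have hB1 : 0 < max B 1 := lt_of_lt_of_le one_pos (le_max_right _ _)
  have ht : Tst (max B 1) (gc k g) := ⟨gc_cd h, gc_cs k g, fun v hv => gc_out h ((le_max_left _ _).trans hv)⟩
  have h1 : Tendsto (fun T => Af k (gc k g) 0 (Real.log T) T⁻¹ / Nh (k ^ 2) T) atTop (𝓝 (c / 2)) := by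
    refine scale_change1 (k := k) (q := k ^ 2) (B1 := max B 1) (B2 := max B 1 + 1) hB1 (by linarith)
      (a := fun T => T) (b := fun T => (Real.exp T⁻¹ - 1)⁻¹)
      (y := fun T => T⁻¹) tendsto_id sc2' sc2 (fun f0 hf0 _ => ?_) ht ?_
    · obtain ⟨S, hS⟩ := hf0.bd
      obtain ⟨C, hC, hb⟩ := Af_all (k := k) (q := k ^ 2) u2 hS
      have r2 := Nh_rat (k ^ 2) (a := fun T : ℝ => (Real.exp T⁻¹ - 1)⁻¹) (b := fun T : ℝ => T) sc2' tendsto_id (by
        have := sc2.inv₀ one_ne_zero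
        rw [inv_one] at this
        exact this.congr fun T => inv_div _ _)
      refine ⟨C * 2, ?_⟩
      filter_upwards [hb, r2.eventually_le_const (show (1:ℝ) < 2 by norm_num), sc2'.eventually_gt_atTop 1]
        with T a1 a2 a3
      have hN := Nh_pos (k ^ 2) a3
      rw [div_le_iff₀ hN] at a2
      have h4 := (le_abs_self _).trans (a1 (Real.log ((Real.exp T⁻¹ - 1)⁻¹)))
      calc _ ≤ C * Nh (k ^ 2) T := h4
        _ ≤ C * (2 * Nh (k ^ 2) (Real.exp T⁻¹ - 1)⁻¹) := mul_le_mul_of_nonneg_left a2 hC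
        _ = _ := by ring
    · refine (hV.comp sc2').congr fun T => ?_
      unfold V1
      simp only [Function.comp]
      rw [inv_inv, add_sub_cancel, Real.log_exp]
  have h2 := conv1 (k := k) (q := k ^ 2) (B1 := max B 1) (B2 := max B 1 + 1) hB1 (by linarith)
    (fun f0 hf0 _ => by
      obtain ⟨S, hS⟩ := hf0.bd
      obtain ⟨C, hC, hb⟩ := Af_all (k := k) (q := k ^ 2) u2 hS
      exact ⟨C, hb.mono fun T a1 => (le_abs_self _).trans (a1 _)⟩) ht h1
  have h3 : Tendsto (fun T => St (Fh k T⁻¹) (Real.log T) (gc k g) / NN (k ^ 2) T) atTop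
      (𝓝 (√Real.pi * (c / 2))) := by
    refine h2.congr' ?_
    filter_upwards [eventually_gt_atTop 1] with T hT
    have hT0 : 0 < T := by linarith
    rw [int_St k (inv_pos.2 hT0)]
    unfold Nh
    have := (NN_pos (k ^ 2) hT).ne'
    field_simp
  have h4 := (gc_diff h u1 u2).add h3
  rw [zero_add] at h4
  refine half_conv h ?_
  have e : √Real.pi * c / 2 = √Real.pi * (c / 2) := by ring
  rw [e]
  refine h4.congr fun T => ?_
  ring

end

end Pool.Agent.J4.H32.VS
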