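import Pool.Agent.J4.H32.VS.U20
import Mathlib.Analysis.Calculus.BumpFunction.Convolution

set_option autoImplicit false

/-! Continuous cut-offs. -/

namespace Pool.Agent.J4.H32.VS

open Complex MeasureTheory Filter Topology Set Metric Pool.Agent.TH535.SM Pool.Agent.R446.KR
open Pool.Agent.J4.H44.LP
open Pool.Agent.W182.KO (TF)
open scoped FourierTransform ComplexConjugate ContDiff Convolution

noncomputable section

variable {q k : ℕ}

/-- continuous half-range cut-offs -/
structure HC (k : ℕ) (f : ℝ → ℝ) : Prop where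
  cont : Continuous f
  sym : ∀ v : ℝ, f v + f (k - v) = 1
  out : ∀ v : ℝ, k ≤ v → f v = 0
  nn : ∀ v : ℝ, 0 ≤ f v
  pos : ∀ v : ℝ, v ≤ k / 2 → 0 < f v

lemma HC.one {f : ℝ → ℝ} (h : HC k f) {v : ℝ} (hv : v ≤ 0) : f v = 1 := by
  have h1 := h.sym v
  rw [h.out (k - v) (by linarith)] at h1
  linarith

lemma HC.le {f : ℝ → ℝ} (h : HC k f) (v : ℝ) : f v ≤ 1 := by
  have h1 := h.sym v
  have := h.nn (k - v)
  linarith

/-- continuous cut-offs are uniform limits of smooth ones -/
lemma HC.near {f : ℝ → ℝ} (h : HC k f) {ε : ℝ} (hε : 0 < ε) :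
    ∃ g : ℝ → ℝ, HR k (k + 1) g ∧ ∀ v, |f v - g v| ≤ ε := by
  have huc := (isCompact_Icc (a := (-1:ℝ)) (b := (k:ℝ) + 1)).uniformContinuousOn_of_continuous h.cont.continuousOn
  rw [Metric.uniformContinuousOn_iff] at huc
  obtain ⟨δ0, hδ0, hu⟩ := huc ε hε
  obtain ⟨δ, hδd⟩ : ∃ δ, δ = min δ0 1 := ⟨_, rfl⟩
  have hδ : 0 < δ := by rw [hδd]; positivity
  have hδ1 : δ ≤ δ0 := by rw [hδd]; exact min_le_left _ _
  have hδ2 : δ ≤ 1 := by rw [hδd]; exact min_le_right _ _
  have hk0 : (0:ℝ) ≤ k := Nat.cast_nonneg k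
  have hU : ∀ x v : ℝ, |x - v| < δ → dist (f x) (f v) ≤ ε := by
    intro x v hxv
    have h1 := abs_lt.1 hxv
    rcases lt_or_ge v (-1) with c | c
    · rw [h.one (by linarith : v ≤ 0), h.one (by linarith : x ≤ 0), dist_self]; exact hε.le
    rcases lt_or_ge x (-1) with c1 | c1
    · rw [h.one (by linarith : v ≤ 0), h.one (by linarith : x ≤ 0), dist_self]; exact hε.le
    rcases lt_or_ge ((k:ℝ) + 1) v with c2 | c2
    · rw [h.out v (by linarith), h.out x (by linarith), dist_self]; exact hε.le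
    rcases lt_or_ge ((k:ℝ) + 1) x with c3 | c3
    · rw [h.out v (by linarith), h.out x (by linarith), dist_self]; exact hε.le
    · exact (hu x ⟨c1, c3⟩ v ⟨c, c2⟩ (by rw [Real.dist_eq]; linarith)).le
  let φ : ContDiffBump (0:ℝ) := ⟨δ / 2, δ, by positivity, by linarith⟩
  have hr : φ.rOut = δ := rfl
  set g : ℝ → ℝ := (φ.normed volume ⋆[ContinuousLinearMap.lsmul ℝ ℝ, volume] f) with hg
  have hgd : ∀ v, g v = ∫ t, φ.normed volume t * f (v - t) := fun v => rfl
  have hφi : ∀ F : ℝ → ℝ, Continuous F → Integrable (fun t => φ.normed volume t * F t) := fun F hF =>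
    (φ.continuous_normed.mul hF).integrable_of_hasCompactSupport φ.hasCompactSupport_normed.mul_right
  refine ⟨g, ⟨?_, fun v => ?_, fun v hv => ?_⟩, fun v => ?_⟩
  · exact HasCompactSupport.contDiff_convolution_left _ φ.hasCompactSupport_normed φ.contDiff_normed
      h.cont.locallyIntegrable
  · rw [hgd, hgd]
    have e1 : ∫ t, φ.normed volume t * f (k - v - t) = ∫ t, φ.normed volume t * f (k - (v - t)) := by
      have h1 := integral_neg_eq_self (fun t : ℝ => φ.normed volume t * f (k - v - t)) volume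
      rw [← h1]
      refine integral_congr_ae (Eventually.of_forall fun t => ?_)
      simp only
      rw [φ.normed_neg]
      congr 2
      ring
    rw [e1, ← integral_add (hφi (fun t => f (v - t)) (h.cont.comp (by fun_prop))) (hφi (fun t => f (k - (v - t)))
      (h.cont.comp (by fun_prop)))]
    have e2 : ∀ t, φ.normed volume t * f (v - t) + φ.normed volume t * f (k - (v - t)) = φ.normed volume t := by
      intro t
      rw [← mul_add, h.sym, mul_one]
    simp only [e2]
    exact φ.integral_normed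
  · have h1 := φ.normed_convolution_eq_right (μ := volume) (g := f) (x₀ := v) (fun x hx => by
      rw [mem_ball, Real.dist_eq, hr] at hx
      have := abs_lt.1 hx
      rw [h.out v (by linarith), h.out x (by linarith)])
    rw [hg, h1, h.out v (by linarith)]
  · have h1 := φ.dist_normed_convolution_le (μ := volume) (g := f) (x₀ := v) (ε := ε)
      h.cont.aestronglyMeasurable (fun x hx => by
        rw [mem_ball, Real.dist_eq, hr] at hx
        exact hU x v hx)
    rw [← hg, Real.dist_eq, abs_sub_comm] at h1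
    exact h1

lemma gc_contC {f : ℝ → ℝ} (hf : Continuous f) : Continuous (gc k f) := hf.mul (cut_smooth k).continuous

lemma Af_bd {h L ε : ℝ} (hi : Integrable (fun u => ‖Ee k h u‖ ^ 2)) {f : ℝ → ℝ} (hf : ∀ v, |f v| ≤ ε) :
    |Af k f 0 L h| ≤ ε * ∫ u, ‖Ee k h u‖ ^ 2 := by
  unfold Af
  rw [← Real.norm_eq_abs, ← integral_const_mul]
  refine norm_integral_le_of_norm_le (hi.const_mul ε) (Eventually.of_forall fun v => ?_)
  rw [norm_mul, norm_pow, norm_norm]
  exact mul_le_mul_of_nonneg_right (hf _) (by positivity)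

/-- small functions have small variances -/
lemma V1_all (hup : ∃ C : ℝ, ∀ᶠ T in atTop, mass k T ≤ C * NN q T) : ∃ C : ℝ, 0 ≤ C ∧ ∀ᶠ T in atTop,
    ∀ (f : ℝ → ℝ) (ε : ℝ), 0 ≤ ε → (∀ v, |f v| ≤ ε) → |V1 k q f T| ≤ C * ε := by
  obtain ⟨C, hC, hE⟩ := Ee_up (k := k) (q := q) hup
  have r2 := Nh_rat q (a := fun T : ℝ => T) tendsto_id sc1' sc1
  refine ⟨C * 2, by positivity, ?_⟩
  filter_upwards [sc1'.eventually hE, r2.eventually_le_const (show (1:ℝ) < 2 by norm_num),
    eventually_gt_atTop 1] with T a1 a2 a3 f ε hε hf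
  have hN := Nh_pos q a3
  obtain ⟨i1, b1⟩ := a1
  rw [inv_inv] at i1 b1
  have h1 := Af_bd (k := k) (L := Real.log T) i1 hf
  rw [div_le_iff₀ hN] at a2
  unfold V1
  rw [abs_div, abs_of_pos hN, div_le_iff₀ hN]
  calc _ ≤ ε * ∫ u, ‖Ee k (Real.log (1 + T⁻¹)) u‖ ^ 2 := h1
    _ ≤ ε * (C * (2 * Nh q T)) := by
        refine mul_le_mul_of_nonneg_left (b1.trans ?_) hε
        exact mul_le_mul_of_nonneg_left a2 hC
    _ = _ := by ring

lemma V1_sub {f g : ℝ → ℝ} (hf : Continuous f) (hfs : HasCompactSupport f) (hg : Continuous g)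
    (hgs : HasCompactSupport g) {T : ℝ} (hT : 1 < T) :
    V1 k q (fun v => f v - g v) T = V1 k q f T - V1 k q g T := by
  have hL := Real.log_pos hT
  have cn : Continuous (fun v => (-1) * g v) := continuous_const.mul hg
  have sn : HasCompactSupport (fun v => (-1) * g v) := hgs.mul_left
  have h1 := Af_add (k := k) hf hfs cn sn (L := Real.log T) (h := Real.log (1 + T⁻¹)) hL
  rw [Af_smul] at h1
  have e : (fun v => f v - g v) = fun v => f v + (-1) * g v := by funext v; ring
  unfold V1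
  rw [e, h1]
  ring

/-- the cut-offs have the same variance -/
lemma V1_same {B B' : ℝ} {g g' : ℝ → ℝ} (h : HR k B g) (h' : HR k B' g')
    (u1 : ∃ C : ℝ, ∀ᶠ T : ℝ in atTop, M (zk k) T ≤ C * NN q T)
    (u2 : ∃ C : ℝ, ∀ᶠ T : ℝ in atTop, mass k T ≤ C * NN q T) :
    Tendsto (fun T => V1 k q (gc k g) T - V1 k q (gc k g') T) atTop (𝓝 0) := by
  have hm : ∀ {B : ℝ} {g : ℝ → ℝ}, HR k B g →
      Tendsto (fun T => (mass k T - 2 * St (Fh k T⁻¹) (Real.log T) g) / NN q T) atTop (𝓝 0) := by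
    intro B g h
    have h1 := err_small (k := k) (q := q) u1 u2
      (X := fun T => ((mass k T - 2 * St (Fh k T⁻¹) (Real.log T) g : ℝ) : ℂ)) (fun ε hε => by
        obtain ⟨C, T0, β, hC, hT0, hβ0, hβ1, hb⟩ := half_mass h hε
        refine ⟨C, T0, β, hC, hT0, hβ0, hβ1, fun T hT => ?_⟩
        rw [Complex.norm_real, Real.norm_eq_abs]
        exact hb T hT)
    have h2 := (Complex.continuous_re.tendsto _).comp h1
    refine h2.congr fun T => ?_
    simp only [Function.comp]
    rw [← Complex.ofReal_div, Complex.ofReal_re]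
  have h1 := (((hm h').sub (hm h)).div_const 2).add ((gc_diff h' u1 u2).sub (gc_diff h u1 u2))
  simp only [sub_zero, zero_div, add_zero] at h1
  obtain ⟨S, hS1, hS⟩ := h.bd
  obtain ⟨S', hS1', hS'⟩ := h'.bd
  set f : ℝ → ℝ := fun v => gc k g v - 1 * gc k g' v with hf
  have hcd : ContDiff ℝ ∞ f := (gc_cd h).sub (contDiff_const.mul (gc_cd h'))
  have hcs : HasCompactSupport f := (gc_cs k g).sub (gc_cs k g').mul_left
  have h2 : Tendsto (fun T => St (Fh k T⁻¹) (Real.log T) f / NN q T) atTop (𝓝 (√Real.pi * 0)) := by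
    rw [mul_zero]
    refine h1.congr' ?_
    filter_upwards [eventually_gt_atTop 0] with T hT
    have hF := Fh_dec k (h := T⁻¹) (by positivity)
    rw [hf, St_sub hF (gc_cd h).continuous (gc_cd h').continuous (S := max S S')
      (fun v => (gc_bd hS v).trans (le_max_left _ _)) (fun v => (gc_bd hS' v).trans (le_max_right _ _)) 1]
    ring
  obtain ⟨ξ, hξ, hT⟩ : ∃ ξ : ℝ, 0 ≤ ξ ∧ TF ξ (fun v => ((f v : ℝ) : ℂ)) :=
    mk_TF ((ofRealCLM.contDiff (n := ∞)).comp hcd) (hcs.comp_left (g := Complex.ofReal) Complex.ofReal_zero)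
  have h3 := fwd1 (f := f) u2 hT h2
  have hB1 : 0 < max (max B B') 1 := lt_of_lt_of_le one_pos (le_max_right _ _)
  have ht : Tst (max (max B B') 1) f := ⟨hcd, hcs, fun v hv => by
    rw [hf]
    simp only
    rw [gc_out h (((le_max_left _ _).trans (le_max_left _ _)).trans hv),
      gc_out h' (((le_max_right _ _).trans (le_max_left _ _)).trans hv)]
    ring⟩
  have h4 : Tendsto (V1 k q f) atTop (𝓝 0) := by
    refine scale_change1 (k := k) (q := q) (B1 := max (max B B') 1) (B2 := max (max B B') 1 + 1) hB1 (by linarith)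
      (a := fun T => T) (b := fun T => (Real.log (1 + T⁻¹))⁻¹)
      (y := fun T => Real.log (1 + T⁻¹)) tendsto_id sc1' sc1 (fun f0 hf0 _ => ?_) ht ?_
    · obtain ⟨S, hS⟩ := hf0.bd
      obtain ⟨C, hC, hb⟩ := Af_all (k := k) (q := q) u2 hS
      refine ⟨C, ?_⟩
      filter_upwards [sc1'.eventually hb] with T a1
      have h4 := (le_abs_self _).trans (a1 (Real.log ((Real.log (1 + T⁻¹))⁻¹)))
      rwa [inv_inv] at h4
    · refine (h3.comp sc1').congr fun T => ?_
      simp only [Function.comp, inv_inv]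
      unfold Af
      simp only [sub_zero]
  refine h4.congr' ?_
  filter_upwards [eventually_gt_atTop 1] with T hT1
  rw [← V1_sub (gc_cd h).continuous (gc_cs k g) (gc_cd h').continuous (gc_cs k g') hT1, hf]
  simp only [one_mul]

lemma V1_contdiff {B : ℝ} {f g : ℝ → ℝ} (hf : HC k f) (h : HR k B g)
    (u1 : ∃ C : ℝ, ∀ᶠ T : ℝ in atTop, M (zk k) T ≤ C * NN q T)
    (u2 : ∃ C : ℝ, ∀ᶠ T : ℝ in atTop, mass k T ≤ C * NN q T) :
    Tendsto (fun T => V1 k q (gc k f) T - V1 k q (gc k g) T) atTop (𝓝 0) := by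
  obtain ⟨C, hC, hV⟩ := V1_all (k := k) (q := q) u2
  rw [Metric.tendsto_nhds]
  intro ε hε
  obtain ⟨g', h', hn⟩ := hf.near (ε := ε / (2 * (C + 1))) (by positivity)
  filter_upwards [hV, Metric.tendsto_nhds.1 (V1_same h' h u1 u2) (ε / 2) (by positivity), eventually_gt_atTop 1]
    with T a1 a2 a3
  have h1 := a1 (fun v => gc k f v - gc k g' v) (ε / (2 * (C + 1))) (by positivity) (fun v => by
    have e : gc k f v - gc k g' v = (f v - g' v) * cut k v := by unfold gc; ring
    rw [e, abs_mul, abs_of_nonneg (cut_nonneg k v)]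
    calc |f v - g' v| * cut k v ≤ |f v - g' v| * 1 := mul_le_mul_of_nonneg_left (cut_le k v) (abs_nonneg _)
      _ ≤ _ := by rw [mul_one]; exact hn v)
  rw [V1_sub (gc_contC hf.cont) (gc_cs k f) (gc_cd h').continuous (gc_cs k g') a3] at h1
  rw [Real.dist_eq, sub_zero] at a2 ⊢
  have h2 : C * (ε / (2 * (C + 1))) ≤ ε / 2 := by
    calc C * (ε / (2 * (C + 1))) = (C / (C + 1)) * (ε / 2) := by field_simp
      _ ≤ 1 * (ε / 2) := by
          refine mul_le_mul_of_nonneg_right ?_ (by positivity)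
          rw [div_le_one (by positivity)]; linarith
      _ = _ := one_mul _
  have e : V1 k q (gc k f) T - V1 k q (gc k g) T = (V1 k q (gc k f) T - V1 k q (gc k g') T) +
      (V1 k q (gc k g') T - V1 k q (gc k g) T) := by ring
  rw [e]
  exact (abs_add_le _ _).trans_lt (by linarith)

end

end Pool.Agent.J4.H32.VS
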