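import Pool.Agent.J4.H32.VS.U21

set_option autoImplicit false

/-! Measurable weights; the first edge for continuous weights on the half line. -/

namespace Pool.Agent.J4.H32.VS

open Complex MeasureTheory Filter Topology Set Metric Pool.Agent.TH535.SM Pool.Agent.R446.KR
open Pool.Agent.J4.H44.LP
open Pool.Agent.W182.KO (TF)
open scoped FourierTransform ComplexConjugate ContDiff Convolution

noncomputable section

variable {q k : ℕ}

lemma cs_div {f : ℝ → ℝ} (hf : HasCompactSupport f) {L : ℝ} (hL : 0 < L) :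
    HasCompactSupport (fun v : ℝ => f (v / L)) := by
  have h2 := hf.comp_homeomorph (Homeomorph.mulRight₀ L⁻¹ (by positivity))
  have e : (fun u : ℝ => f (u / L)) = f ∘ ⇑(Homeomorph.mulRight₀ L⁻¹ (by positivity)) := by
    funext u
    simp [div_eq_mul_inv]
  rw [e]
  exact h2

/-- measurable weights under a majorant -/
lemma mE_int {F Φ : ℝ → ℝ} (hF : Measurable F) (hΦ : Continuous Φ) (hΦs : HasCompactSupport Φ)
    (hb : ∀ v, |F v| ≤ Φ v) {L : ℝ} (hL : 0 < L) (h : ℝ) :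
    Integrable (fun u => F (u / L) * ‖Ee k h u‖ ^ 2) := by
  have i1 := gE_int k h (g := fun v => Φ (v / L)) (by fun_prop) (cs_div hΦs hL)
  refine i1.mono' ?_ (Eventually.of_forall fun u => ?_)
  · exact ((hF.comp (measurable_id.div_const L)).mul (((Ee_meas k h).norm).pow_const 2)).aestronglyMeasurable
  · rw [norm_mul, norm_pow, norm_norm]
    exact mul_le_mul_of_nonneg_right (hb _) (by positivity)

lemma V1_dom {F Φ : ℝ → ℝ} (hΦ : Continuous Φ) (hΦs : HasCompactSupport Φ)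
    (hb : ∀ v, |F v| ≤ Φ v) {T : ℝ} (hT : 1 < T) : |V1 k q F T| ≤ V1 k q Φ T := by
  have hL := Real.log_pos hT
  have i1 := gE_int k (Real.log (1 + T⁻¹)) (g := fun v => Φ (v / Real.log T)) (by fun_prop) (cs_div hΦs hL)
  have hN := Nh_pos q hT
  unfold V1 Af
  rw [abs_div, abs_of_pos hN]
  refine div_le_div_of_nonneg_right ?_ hN.le
  simp only [sub_zero]
  rw [← Real.norm_eq_abs]
  refine norm_integral_le_of_norm_le i1 (Eventually.of_forall fun v => ?_)
  rw [norm_mul, norm_pow, norm_norm]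
  exact mul_le_mul_of_nonneg_right (hb _) (by positivity)

lemma V1_subm {F G Φ Ψ : ℝ → ℝ} (hF : Measurable F) (hΦ : Continuous Φ) (hΦs : HasCompactSupport Φ)
    (hb : ∀ v, |F v| ≤ Φ v) (hG : Measurable G) (hΨ : Continuous Ψ) (hΨs : HasCompactSupport Ψ)
    (hb' : ∀ v, |G v| ≤ Ψ v) {T : ℝ} (hT : 1 < T) :
    V1 k q (fun v => F v - G v) T = V1 k q F T - V1 k q G T := by
  have hL := Real.log_pos hT
  have i1 := mE_int (k := k) hF hΦ hΦs hb hL (Real.log (1 + T⁻¹))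
  have i2 := mE_int (k := k) hG hΨ hΨs hb' hL (Real.log (1 + T⁻¹))
  unfold V1 Af
  rw [← sub_div]
  congr 1
  simp only [sub_zero]
  rw [← integral_sub i1 i2]
  refine integral_congr_ae (Eventually.of_forall fun v => ?_)
  simp only
  ring

lemma V1_smul (f : ℝ → ℝ) (c T : ℝ) : V1 k q (fun v => c * f v) T = c * V1 k q f T := by
  have h : ∀ L h : ℝ, Af k (fun v => c * f v) 0 L h = c * Af k f 0 L h := fun L h => Af_smul f c L h
  unfold V1
  rw [h]
  ring

lemma V1_add {f g : ℝ → ℝ} (hf : Continuous f) (hfs : HasCompactSupport f) (hg : Continuous g)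
    (hgs : HasCompactSupport g) {T : ℝ} (hT : 1 < T) :
    V1 k q (fun v => f v + g v) T = V1 k q f T + V1 k q g T := by
  unfold V1
  rw [Af_add hf hfs hg hgs (Real.log_pos hT)]
  ring

/-- the first edge, smooth weights -/
lemma V1_edge (hk : 1 ≤ k) {b : ℝ} (hb0 : 0 < b) (hb : b < 1) {f : ℝ → ℝ} (hf : Tst b f) :
    Tendsto (V1 k (k ^ 2) f) atTop (𝓝 (El k f)) := by
  refine V0_V1 (k := k) (q := k ^ 2) (B1 := b) (B2 := (b + 1) / 2) hb0 (by linarith)
    (ℓ := fun f => El k f) (fun g hg => ?_) hf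
  obtain ⟨R, C1, S, hR, h⟩ := Ga_Tst (by linarith) hg
  have h1 := Ee_lim hk h hR (by linarith : 0 < (b + 1) / 2) (by linarith)
  refine h1.congr fun T => ?_
  unfold Af
  simp only [sub_zero]

/-- smooth approximation -/
lemma moll {F : ℝ → ℝ} (hF : Continuous F) (hs : HasCompactSupport F) {ε δ : ℝ} (hε : 0 < ε) (hδ : 0 < δ) :
    ∃ G : ℝ → ℝ, ContDiff ℝ ∞ G ∧ (∀ v, |F v - G v| ≤ ε) ∧ ∀ v, (∀ w, |w - v| < δ → F w = 0) → G v = 0 := by
  have huc := hF.uniformContinuous_of_tendsto_cocompact (x := 0) hs.is_zero_at_infty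
  rw [Metric.uniformContinuous_iff] at huc
  obtain ⟨δ0, hδ0, hu⟩ := huc ε hε
  obtain ⟨d, hd⟩ : ∃ d, d = min δ0 δ := ⟨_, rfl⟩
  have hd0 : 0 < d := by rw [hd]; positivity
  have hd1 : d ≤ δ0 := by rw [hd]; exact min_le_left _ _
  have hd2 : d ≤ δ := by rw [hd]; exact min_le_right _ _
  let φ : ContDiffBump (0:ℝ) := ⟨d / 2, d, by positivity, by linarith⟩
  have hr : φ.rOut = d := rfl
  refine ⟨φ.normed volume ⋆[ContinuousLinearMap.lsmul ℝ ℝ, volume] F, ?_, fun v => ?_, fun v hv => ?_⟩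
  · exact HasCompactSupport.contDiff_convolution_left _ φ.hasCompactSupport_normed φ.contDiff_normed
      hF.locallyIntegrable
  · have h1 := φ.dist_normed_convolution_le (μ := volume) (g := F) (x₀ := v) (ε := ε)
      hF.aestronglyMeasurable (fun x hx => by
        rw [mem_ball, hr] at hx
        exact (hu (lt_of_lt_of_le hx hd1)).le)
    rw [Real.dist_eq, abs_sub_comm] at h1
    exact h1
  · have h0 : F v = 0 := hv v (by rw [sub_self, abs_zero]; exact hδ)
    have h1 := φ.normed_convolution_eq_right (μ := volume) (g := F) (x₀ := v) (fun x hx => by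
      rw [mem_ball, Real.dist_eq, hr] at hx
      rw [h0]
      exact hv x (lt_of_lt_of_le hx hd2))
    rw [h1, h0]

/-- the limit at the first edge -/
def J0 (k : ℕ) (f : ℝ → ℝ) : ℝ := ∫ u in Ioi (0:ℝ), u ^ (k ^ 2 - 1) / (k ^ 2 - 1).factorial * f u

lemma El_eq (hk : 1 ≤ k) (f : ℝ → ℝ) : El k f = H306R2.aF k * J0 k f := by
  unfold El J0
  rw [W182.KO.gd_int hk]

lemma J_int (k : ℕ) {F : ℝ → ℝ} {b S : ℝ} (hF : Measurable F) (hS : ∀ v, |F v| ≤ S) (hb : ∀ v, b ≤ v → F v = 0) :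
    Integrable (fun u => u ^ (k ^ 2 - 1) / (k ^ 2 - 1).factorial * F u) (volume.restrict (Ioi (0:ℝ))) := by
  have h1 : IntegrableOn (fun u : ℝ => |u| ^ (k ^ 2 - 1) / (k ^ 2 - 1).factorial * S) (Icc 0 (max b 0)) :=
    Continuous.integrableOn_Icc (by fun_prop)
  have h2 : IntegrableOn (fun u => u ^ (k ^ 2 - 1) / (k ^ 2 - 1).factorial * F u) (Icc 0 (max b 0)) := by
    refine Integrable.mono' h1 (by fun_prop) (Eventually.of_forall fun u => ?_)
    rw [norm_mul, norm_div, norm_pow, Real.norm_eq_abs, Real.norm_natCast]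
    exact mul_le_mul_of_nonneg_left (hS u) (by positivity)
  have h3 : IntegrableOn (fun u => u ^ (k ^ 2 - 1) / (k ^ 2 - 1).factorial * F u) (Ioi (max b 0)) := by
    refine (integrableOn_zero (μ := volume)).congr_fun (fun u hu => ?_) measurableSet_Ioi
    have : b ≤ u := (le_max_left _ _).trans (le_of_lt hu)
    simp only
    rw [hb u this, mul_zero]
  have h4 := h2.union h3
  rw [Icc_union_Ioi_eq_Ici (le_max_right _ _)] at h4
  exact h4.mono_set Ioi_subset_Ici_self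

lemma J_diff (k : ℕ) {F G Φ : ℝ → ℝ} {b S b' S' b'' S'' : ℝ} (hF : Measurable F) (hS : ∀ v, |F v| ≤ S)
    (hb : ∀ v, b ≤ v → F v = 0) (hG : Measurable G) (hS' : ∀ v, |G v| ≤ S') (hb' : ∀ v, b' ≤ v → G v = 0)
    (hΦ : Measurable Φ) (hS'' : ∀ v, |Φ v| ≤ S'') (hb'' : ∀ v, b'' ≤ v → Φ v = 0)
    (h : ∀ v, 0 < v → |F v - G v| ≤ Φ v) : |J0 k F - J0 k G| ≤ J0 k Φ := by
  have i1 := J_int k hF hS hb
  have i2 := J_int k hG hS' hb'
  have i3 := J_int k hΦ hS'' hb''
  unfold J0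
  rw [← integral_sub i1 i2, ← Real.norm_eq_abs]
  refine norm_integral_le_of_norm_le i3 ?_
  refine (ae_restrict_iff' measurableSet_Ioi).2 (Eventually.of_forall fun u hu => ?_)
  have hu0 : 0 < u := hu
  rw [← mul_sub, norm_mul, Real.norm_of_nonneg (by positivity), Real.norm_eq_abs]
  exact mul_le_mul_of_nonneg_left (h u hu0) (by positivity)

lemma J_nonneg (k : ℕ) {Φ : ℝ → ℝ} (h : ∀ v, 0 < v → 0 ≤ Φ v) : 0 ≤ J0 k Φ := by
  unfold J0
  refine setIntegral_nonneg measurableSet_Ioi fun u hu => ?_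
  have hu0 : 0 < u := hu
  exact mul_nonneg (by positivity) (h u hu0)

lemma J_smul (k : ℕ) (Φ : ℝ → ℝ) (c : ℝ) : J0 k (fun v => c * Φ v) = c * J0 k Φ := by
  unfold J0
  rw [← integral_const_mul]
  refine integral_congr_ae (Eventually.of_forall fun u => ?_)
  simp only
  ring

lemma J_small (k : ℕ) {Φ : ℝ → ℝ} {d : ℝ} (hd0 : 0 ≤ d) (hd1 : d ≤ 1) (hΦ : Measurable Φ) (h1 : ∀ v, |Φ v| ≤ 1)
    (hd : ∀ v, d ≤ v → Φ v = 0) : J0 k Φ ≤ d := by
  have i3 := J_int k hΦ h1 hd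
  have e : J0 k Φ = ∫ u in Ioc (0:ℝ) d, u ^ (k ^ 2 - 1) / (k ^ 2 - 1).factorial * Φ u := by
    unfold J0
    refine setIntegral_eq_of_subset_of_forall_sdiff_eq_zero measurableSet_Ioi Ioc_subset_Ioi_self ?_
    rintro x ⟨h1, h2⟩
    have : d < x := by
      by_contra h3
      exact h2 ⟨h1, not_lt.1 h3⟩
    rw [hd x this.le, mul_zero]
  rw [e]
  have h2 : ‖∫ u in Ioc (0:ℝ) d, u ^ (k ^ 2 - 1) / (k ^ 2 - 1).factorial * Φ u‖ ≤ 1 * volume.real (Ioc (0:ℝ) d) := by
    refine norm_setIntegral_le_of_norm_le_const (by simp) fun u hu => ?_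
    rw [norm_mul, norm_div, norm_pow, Real.norm_eq_abs, Real.norm_natCast,
      abs_of_pos hu.1, Real.norm_eq_abs]
    have hf : (1:ℝ) ≤ ((k ^ 2 - 1).factorial : ℝ) := by exact_mod_cast Nat.factorial_pos _
    have hu1 : u ^ (k ^ 2 - 1) ≤ 1 := pow_le_one₀ hu.1.le (hu.2.trans hd1)
    have h3 : u ^ (k ^ 2 - 1) / ((k ^ 2 - 1).factorial : ℝ) ≤ 1 := by
      rw [div_le_one (by linarith)]; linarith
    calc _ ≤ 1 * 1 := mul_le_mul h3 (h1 u) (abs_nonneg _) zero_le_one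
      _ = 1 := one_mul 1
  rw [Real.volume_real_Ioc_of_le hd0, sub_zero, one_mul] at h2
  exact (le_abs_self _).trans h2

end

end Pool.Agent.J4.H32.VS
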