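import Pool.Agent.J4.H32.VS.U22

set_option autoImplicit false

/-! The first edge for continuous weights on the half line; the equivalence for continuous cut-offs. -/

namespace Pool.Agent.J4.H32.VS

open Complex MeasureTheory Filter Topology Set Metric Pool.Agent.TH535.SM Pool.Agent.R446.KR
open Pool.Agent.J4.H44.LP
open Pool.Agent.W182.KO (TF)
open scoped FourierTransform ComplexConjugate ContDiff Convolution

noncomputable section

variable {q k : ℕ}

lemma exists_psi {R a d : ℝ} (hd : a < d) : ∃ ψ : ℝ → ℝ, ContDiff ℝ ∞ ψ ∧ HasCompactSupport ψ ∧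
    (∀ v, d ≤ v → ψ v = 0) ∧ (∀ v, 0 ≤ ψ v) ∧ (∀ v, ψ v ≤ 1) ∧ (∀ v, -(2 * R + 2) ≤ v → v ≤ a → ψ v = 1) := by
  have hd' : 0 < d - a := by linarith
  refine ⟨fun v => Real.smoothTransition ((d - v) / (d - a)) * Real.smoothTransition (v + 2 * R + 3),
    ?_, ?_, fun v hv => ?_, fun v => ?_, fun v => ?_, fun v h1 h2 => ?_⟩
  · exact (Real.smoothTransition.contDiff.comp ((contDiff_const.sub contDiff_id).div_const _)).mul
      (Real.smoothTransition.contDiff.comp ((contDiff_id.add contDiff_const).add contDiff_const))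
  · refine HasCompactSupport.intro (isCompact_Icc (a := -(2 * R + 3)) (b := d)) fun v hv => ?_
    rw [mem_Icc, not_and_or, not_le, not_le] at hv
    rcases hv with hv | hv
    · rw [Real.smoothTransition.zero_of_nonpos (x := v + 2 * R + 3) (by linarith), mul_zero]
    · rw [Real.smoothTransition.zero_of_nonpos (x := (d - v) / (d - a))
        (div_nonpos_of_nonpos_of_nonneg (by linarith) hd'.le), zero_mul]
  · simp only
    rw [Real.smoothTransition.zero_of_nonpos (x := (d - v) / (d - a))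
      (div_nonpos_of_nonpos_of_nonneg (by linarith) hd'.le), zero_mul]
  · exact mul_nonneg (Real.smoothTransition.nonneg _) (Real.smoothTransition.nonneg _)
  · exact mul_le_one₀ (Real.smoothTransition.le_one _) (Real.smoothTransition.nonneg _) (Real.smoothTransition.le_one _)
  · simp only
    rw [Real.smoothTransition.one_of_one_le (x := (d - v) / (d - a)) (by rw [one_le_div hd']; linarith),
      Real.smoothTransition.one_of_one_le (x := v + 2 * R + 3) (by linarith), one_mul]

/-- the first edge for weights on the half line -/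
theorem edge_cont (hk : 1 ≤ k) {b S R : ℝ} (hb0 : 0 < b) (hb : b < 1) (hR : 0 ≤ R) {F g : ℝ → ℝ} (hF : Measurable F)
    (hS : ∀ v, |F v| ≤ S) (hFb : ∀ v, b ≤ v → F v = 0) (hFR : ∀ v, v ≤ -R → F v = 0) (hg : Continuous g)
    (hFg : ∀ v, 0 ≤ v → F v = g v) : Tendsto (V1 k (k ^ 2) F) atTop (𝓝 (H306R2.aF k * J0 k F)) := by
  have hS0 : 0 ≤ S := (abs_nonneg _).trans (hS 0)
  have ha : 0 < H306R2.aF (k : ℝ) := H306R2.aF_pos (by exact_mod_cast hk)
  set gt : ℝ → ℝ := fun v => g (max v 0) * Real.smoothTransition (v + 1) with hgt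
  have cgt : Continuous gt := by
    have := Real.smoothTransition.continuous
    fun_prop
  have gt1 : ∀ v, v ≤ -1 → gt v = 0 := fun v hv => by
    rw [hgt]
    simp only
    rw [Real.smoothTransition.zero_of_nonpos (x := v + 1) (by linarith), mul_zero]
  have gt2 : ∀ v, 0 ≤ v → gt v = F v := fun v hv => by
    rw [hgt]
    simp only
    rw [Real.smoothTransition.one_of_one_le (x := v + 1) (by linarith), mul_one, max_eq_left hv, hFg v hv]
  have gt3 : ∀ v, b ≤ v → gt v = 0 := fun v hv => by rw [gt2 v (by linarith), hFb v hv]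
  have gtb : ∀ v, |gt v| ≤ S := fun v => by
    rw [hgt]
    simp only
    rw [abs_mul, ← hFg _ (le_max_right v 0), abs_of_nonneg (Real.smoothTransition.nonneg _)]
    calc |F (max v 0)| * Real.smoothTransition (v + 1) ≤ S * 1 :=
          mul_le_mul (hS _) (Real.smoothTransition.le_one _) (Real.smoothTransition.nonneg _) hS0
      _ = S := mul_one S
  have sgt : HasCompactSupport gt := HasCompactSupport.intro (isCompact_Icc (a := -1) (b := b)) fun v hv => by
    rw [mem_Icc, not_and_or, not_le, not_le] at hv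
    rcases hv with hv | hv
    · exact gt1 v hv.le
    · exact gt3 v hv.le
  obtain ⟨φ, φ1, φ2, φ3, φ4, φ5, φ6⟩ := exists_psi (R := R) (a := (b + 1) / 2) (d := (b + 3) / 4) (by linarith)
  have tφ : Tst ((b + 3) / 4) φ := ⟨φ1, φ2, φ3⟩
  have hJ : 0 ≤ J0 k φ := J_nonneg k fun v _ => φ4 v
  obtain ⟨A, hA⟩ : ∃ A, A = H306R2.aF (k : ℝ) * J0 k φ := ⟨_, rfl⟩
  have hA0 : 0 ≤ A := by rw [hA]; positivity
  have Lφ := V1_edge hk (by linarith) (by linarith : (b + 3) / 4 < 1) tφ
  rw [El_eq hk, ← hA] at Lφ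
  rw [Metric.tendsto_nhds]
  intro ε0 hε0
  obtain ⟨ε, hε⟩ : ∃ ε, ε = min 1 (ε0 / (8 * (A + 1))) := ⟨_, rfl⟩
  have e1 : 0 < ε := by rw [hε]; positivity
  have e2 : ε ≤ 1 := by rw [hε]; exact min_le_left _ _
  have e3 : ε * (A + 1) ≤ ε0 / 8 := by
    have : ε ≤ ε0 / (8 * (A + 1)) := by rw [hε]; exact min_le_right _ _
    calc ε * (A + 1) ≤ ε0 / (8 * (A + 1)) * (A + 1) := mul_le_mul_of_nonneg_right this (by positivity)
      _ = ε0 / 8 := by field_simp
  set D : ℝ := (2 * S + 1) * (H306R2.aF (k : ℝ) + 1) with hD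
  have hD0 : 0 < D := by positivity
  obtain ⟨d, hd⟩ : ∃ d, d = min (1 / 2) (ε0 / (8 * D)) := ⟨_, rfl⟩
  have d1 : 0 < d := by rw [hd]; positivity
  have d2 : d ≤ 1 / 2 := by rw [hd]; exact min_le_left _ _
  have d3 : d * D ≤ ε0 / 8 := by
    have : d ≤ ε0 / (8 * D) := by rw [hd]; exact min_le_right _ _
    calc d * D ≤ ε0 / (8 * D) * D := mul_le_mul_of_nonneg_right this hD0.le
      _ = ε0 / 8 := by field_simp
  obtain ⟨ψ, ψ1, ψ2, ψ3, ψ4, ψ5, ψ6⟩ := exists_psi (R := R) (a := 0) (d := d) d1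
  have Lψ := V1_edge hk d1 (by linarith) (⟨ψ1, ψ2, ψ3⟩ : Tst d ψ)
  rw [El_eq hk] at Lψ
  have Jψ : J0 k ψ ≤ d := J_small k d1.le (by linarith) ψ1.continuous.measurable
    (fun v => by rw [abs_of_nonneg (ψ4 v)]; exact ψ5 v) ψ3
  obtain ⟨G, G1, G2, G3⟩ := moll cgt sgt e1 (δ := (1 - b) / 4) (by linarith)
  have G4 : ∀ v, b + (1 - b) / 4 ≤ v → G v = 0 := fun v hv => G3 v fun w hw => gt3 w (by
    have := (abs_lt.1 hw).1; linarith)
  have G5 : ∀ v, v ≤ -1 - (1 - b) / 4 → G v = 0 := fun v hv => G3 v fun w hw => gt1 w (by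
    have := (abs_lt.1 hw).2; linarith)
  have G6 : HasCompactSupport G :=
    HasCompactSupport.intro (isCompact_Icc (a := -1 - (1 - b) / 4) (b := b + (1 - b) / 4)) fun v hv => by
      rw [mem_Icc, not_and_or, not_le, not_le] at hv
      rcases hv with hv | hv
      · exact G5 v hv.le
      · exact G4 v hv.le
  have G7 : ∀ v, |G v| ≤ S + 1 := fun v => by
    have h1 := G2 v
    have h2 := gtb v
    rw [abs_le] at h1 h2 ⊢
    constructor <;> linarith [h1.1, h1.2, h2.1, h2.2]
  have tG : Tst (b + (1 - b) / 4) G := ⟨G1, G6, G4⟩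
  have LG := V1_edge hk (by linarith) (by linarith : b + (1 - b) / 4 < 1) tG
  rw [El_eq hk] at LG
  have key : ∀ v, |F v - G v| ≤ ε * φ v + (2 * S + 1) * ψ v := by
    intro v
    have p1 := φ4 v
    have p2 := ψ4 v
    have p3 : 0 ≤ ε * φ v := by positivity
    have p4 : 0 ≤ (2 * S + 1) * ψ v := by positivity
    rcases le_or_gt 0 v with c | c
    · rcases le_or_gt v ((b + 1) / 2) with c1 | c1
      · rw [φ6 v (by linarith) c1, mul_one, ← gt2 v c]
        have := G2 v
        linarith
      · rw [hFb v (by linarith), G4 v (by linarith), sub_zero, abs_zero]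
        positivity
    · rcases le_or_gt (-(2 * R + 2)) v with c1 | c1
      · rw [ψ6 v c1 c.le, mul_one]
        have h1 := abs_sub (F v) (G v)
        have h2 := hS v
        have h3 := gtb v
        have h4 := G2 v
        have h5 : |G v| ≤ S + ε := by
          rw [abs_le] at h3 h4 ⊢
          constructor <;> linarith [h3.1, h3.2, h4.1, h4.2]
        linarith
      · rw [hFR v (by linarith), G5 v (by linarith), sub_zero, abs_zero]
        positivity
  have key2 : |J0 k F - J0 k G| ≤ ε * J0 k φ := by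
    rw [← J_smul]
    refine J_diff k hF hS hFb G1.continuous.measurable G7 G4 (b'' := (b + 3) / 4) (S'' := ε)
      (by have := φ1.continuous.measurable; fun_prop) (fun v => ?_) (fun v hv => by rw [φ3 v hv, mul_zero])
      fun v hv => ?_
    · rw [abs_of_nonneg (mul_nonneg e1.le (φ4 v))]
      calc ε * φ v ≤ ε * 1 := mul_le_mul_of_nonneg_left (φ5 v) e1.le
        _ = ε := mul_one _
    · rcases le_or_gt v ((b + 1) / 2) with c1 | c1
      · rw [φ6 v (by linarith) c1, mul_one, ← gt2 v hv.le]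
        exact G2 v
      · rw [hFb v (by linarith), G4 v (by linarith), sub_zero, abs_zero]
        exact mul_nonneg e1.le (φ4 v)
  have l1 : H306R2.aF (k : ℝ) * J0 k ψ < H306R2.aF (k : ℝ) * d + d := by
    have := mul_le_mul_of_nonneg_left Jψ ha.le
    linarith
  filter_upwards [Lφ.eventually_le_const (show A < A + 1 by linarith), Lψ.eventually_le_const l1,
    Metric.tendsto_nhds.1 LG (ε0 / 8) (by positivity), eventually_gt_atTop 1] with T a1 a2 a3 a4
  have c1 : Continuous (fun v => ε * φ v) := continuous_const.mul φ1.continuous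
  have c2 : Continuous (fun v => (2 * S + 1) * ψ v) := continuous_const.mul ψ1.continuous
  have s1 : HasCompactSupport (fun v => ε * φ v) := φ2.mul_left
  have s2 : HasCompactSupport (fun v => (2 * S + 1) * ψ v) := ψ2.mul_left
  have h1 := V1_dom (k := k) (q := k ^ 2) (F := fun v => F v - G v) (c1.add c2) (s1.add s2) key a4
  have h2 := V1_add (k := k) (q := k ^ 2) c1 s1 c2 s2 a4
  rw [V1_smul, V1_smul] at h2
  have e4 : (fun v => ε * φ v + (2 * S + 1) * ψ v) = (fun v => ε * φ v) + (fun v => (2 * S + 1) * ψ v) := rfl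
  rw [e4] at h2
  rw [h2] at h1
  have bF : ∀ v, |F v| ≤ S * φ v + S * ψ v := by
    intro v
    have p1 := φ4 v
    have p2 := ψ4 v
    have p3 : 0 ≤ S * φ v := by positivity
    have p4 : 0 ≤ S * ψ v := by positivity
    rcases le_or_gt 0 v with c | c
    · rcases le_or_gt v ((b + 1) / 2) with c1 | c1
      · rw [φ6 v (by linarith) c1, mul_one]
        have := hS v
        linarith
      · rw [hFb v (by linarith), abs_zero]
        positivity
    · rcases le_or_gt (-(2 * R + 2)) v with c1 | c1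
      · rw [ψ6 v c1 c.le, mul_one]
        have := hS v
        linarith
      · rw [hFR v (by linarith), abs_zero]
        positivity
  have h3 := V1_subm (k := k) (q := k ^ 2) hF (Φ := fun v => S * φ v + S * ψ v)
    ((continuous_const.mul φ1.continuous).add (continuous_const.mul ψ1.continuous)) (φ2.mul_left.add ψ2.mul_left) bF
    G1.continuous.measurable (Ψ := fun v => |G v|) G1.continuous.abs (by
      exact G6.comp_left (g := abs) abs_zero) (fun v => le_refl _) a4
  rw [h3] at h1
  rw [Real.dist_eq] at a3 ⊢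
  have h4 : |H306R2.aF (k : ℝ) * J0 k G - H306R2.aF (k : ℝ) * J0 k F| ≤ ε * A := by
    rw [← mul_sub, abs_mul, abs_of_pos ha, abs_sub_comm, hA]
    calc _ ≤ H306R2.aF (k : ℝ) * (ε * J0 k φ) := mul_le_mul_of_nonneg_left key2 ha.le
      _ = _ := by ring
  have h5 : ε * V1 k (k ^ 2) φ T ≤ ε * (A + 1) := mul_le_mul_of_nonneg_left a1 e1.le
  have h6 : (2 * S + 1) * V1 k (k ^ 2) ψ T ≤ d * D := by
    calc _ ≤ (2 * S + 1) * (H306R2.aF (k : ℝ) * d + d) := mul_le_mul_of_nonneg_left a2 (by positivity)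
      _ = _ := by rw [hD]; ring
  have h7 : ε * A ≤ ε * (A + 1) := mul_le_mul_of_nonneg_left (by linarith) e1.le
  have e5 : V1 k (k ^ 2) F T - H306R2.aF (k : ℝ) * J0 k F =
      (V1 k (k ^ 2) F T - V1 k (k ^ 2) G T) + (V1 k (k ^ 2) G T - H306R2.aF (k : ℝ) * J0 k G) +
      (H306R2.aF (k : ℝ) * J0 k G - H306R2.aF (k : ℝ) * J0 k F) := by ring
  rw [e5]
  refine (abs_add_le _ _).trans_lt ?_
  have h8 := abs_add_le (V1 k (k ^ 2) F T - V1 k (k ^ 2) G T) (V1 k (k ^ 2) G T - H306R2.aF (k : ℝ) * J0 k G)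
  linarith

end

end Pool.Agent.J4.H32.VS
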