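import Pool.Agent.J4.H32.VS.U23

set_option autoImplicit false

/-! The equivalence for continuous cut-offs. -/

namespace Pool.Agent.J4.H32.VS

open Complex MeasureTheory Filter Topology Set Metric Pool.Agent.TH535.SM Pool.Agent.R446.KR
open Pool.Agent.J4.H44.LP
open Pool.Agent.W182.KO (TF)
open scoped FourierTransform ComplexConjugate ContDiff Convolution

noncomputable section

variable {q k : ℕ}

lemma HC.low {f : ℝ → ℝ} (h : HC k f) : ∃ c0 e : ℝ, 0 < c0 ∧ 0 < e ∧ e ≤ 1 / 4 ∧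
    ∀ v, 0 ≤ v → v ≤ k / 2 + 2 * e → c0 ≤ f v := by
  have hk0 : (0:ℝ) ≤ k := Nat.cast_nonneg k
  have g2 : f (k / 2) = 1 / 2 := by
    have h1 := h.sym (k / 2)
    rw [show (k:ℝ) - k / 2 = k / 2 by ring] at h1
    linarith
  obtain ⟨x0, hx0, hmin⟩ := (isCompact_Icc (a := (0:ℝ)) (b := (k:ℝ) / 2)).exists_isMinOn
    ⟨0, by constructor <;> linarith⟩ h.cont.continuousOn
  have hp := h.pos x0 hx0.2
  obtain ⟨δ, hδ, hd⟩ := Metric.continuous_iff.1 h.cont (k / 2 : ℝ) (1 / 4) (by norm_num)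
  obtain ⟨e, hee⟩ : ∃ e : ℝ, e = min (δ / 4) (1 / 4) := ⟨_, rfl⟩
  have he0 : 0 < e := by rw [hee]; positivity
  have he1 : e ≤ δ / 4 := by rw [hee]; exact min_le_left _ _
  have he2 : e ≤ 1 / 4 := by rw [hee]; exact min_le_right _ _
  refine ⟨min (f x0) (1 / 4), e, by positivity, he0, he2, fun v hv0 hv => ?_⟩
  rcases le_or_gt v (k / 2) with c | c
  · exact (min_le_left _ _).trans (hmin ⟨hv0, c⟩)
  · refine (min_le_right _ _).trans ?_
    have h1 := hd v (by
      rw [Real.dist_eq, abs_of_pos (by linarith)]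
      linarith)
    rw [Real.dist_eq, g2] at h1
    have := (abs_lt.1 h1).1
    linarith

/-- bounded short intervals over the half range bound all short intervals slightly beyond the middle -/
lemma Hb_of_V1C (hk : 1 ≤ k) {g : ℝ → ℝ} (h : HC k g)
    (hV : ∃ C : ℝ, ∀ᶠ T in atTop, V1 k (k ^ 2) (gc k g) T ≤ C) :
    ∃ e : ℝ, 0 < e ∧ ∀ f0 : ℝ → ℝ, Tst (k / 2 + e) f0 → (∀ v, 0 ≤ f0 v) →
      ∃ C : ℝ, ∀ᶠ T in atTop, Af k f0 0 (Real.log T) T⁻¹ ≤ C * Nh (k ^ 2) T := by
  have hk1 : (1:ℝ) ≤ k := by exact_mod_cast hk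
  obtain ⟨c0, e, hc0, he0, he2, g3⟩ := h.low
  refine ⟨e, he0, fun f0 hf0 h0 => ?_⟩
  obtain ⟨S, hS⟩ := hf0.bd
  have hS0 : 0 ≤ S := (abs_nonneg _).trans (hS 0)
  obtain ⟨C, hC⟩ := hV
  set χ : ℝ → ℝ := fun v => Real.smoothTransition (4 * v - 1) with hχ
  have cχ : ContDiff ℝ ∞ χ := Real.smoothTransition.contDiff.comp ((contDiff_const.mul contDiff_id).sub contDiff_const)
  have χ0 : ∀ v, v ≤ 1 / 4 → χ v = 0 := fun v hv => Real.smoothTransition.zero_of_nonpos (by linarith)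
  have χ1 : ∀ v, 1 / 2 ≤ v → χ v = 1 := fun v hv => Real.smoothTransition.one_of_one_le (by linarith)
  have χn : ∀ v, 0 ≤ χ v := fun v => Real.smoothTransition.nonneg _
  have χl : ∀ v, χ v ≤ 1 := fun v => Real.smoothTransition.le_one _
  have tb : Tst (1 / 2) (fun v => f0 v * (1 - χ v)) := by
    refine ⟨hf0.1.mul (contDiff_const.sub cχ), hf0.2.1.mul_right, fun v hv => ?_⟩
    simp only
    rw [χ1 v hv, sub_self, mul_zero]
  have ca : Continuous (fun v => f0 v * χ v) := hf0.1.continuous.mul cχ.continuous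
  have sa : HasCompactSupport (fun v => f0 v * χ v) := hf0.2.1.mul_right
  obtain ⟨Cb, hCb, hb⟩ := edge_bd hk (by norm_num : (0:ℝ) < 1 / 2) (by norm_num) tb
  have r1 := log_rat sc2' (a := fun T : ℝ => T) sc2
  have r2 := Nh_rat (k ^ 2) (a := fun T : ℝ => T) tendsto_id sc2' sc2
  have hkap : (1:ℝ) < (k / 2 + 2 * e) / (k / 2 + e) := by
    rw [one_lt_div (by positivity)]
    linarith
  refine ⟨S / c0 * (|C| * 2) + Cb, ?_⟩
  filter_upwards [hb, sc2'.eventually hC, r1.eventually_le_const hkap,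
    r1.eventually_const_lt (show (0:ℝ) < 1 by norm_num), r2.eventually_le_const (show (1:ℝ) < 2 by norm_num),
    eventually_gt_atTop 1, sc2'.eventually_gt_atTop 1] with T a1 a2 a3 a4 a5 a6 a7
  set T' : ℝ := (Real.exp T⁻¹ - 1)⁻¹ with hT'
  have hL := Real.log_pos a6
  have hL' := Real.log_pos a7
  have hN := Nh_pos (k ^ 2) a6
  have hN' := Nh_pos (k ^ 2) a7
  have cg := gc_contC (k := k) h.cont
  have sg := gc_cs k g
  have ef : (fun v => f0 v * χ v + f0 v * (1 - χ v)) = f0 := by funext v; ring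
  have h1 := Af_add (k := k) ca sa tb.1.continuous tb.2.1 (L := Real.log T) (h := T⁻¹) hL
  rw [ef] at h1
  have h2 : Af k (fun v => f0 v * χ v) 0 (Real.log T) T⁻¹ ≤
      Af k (fun v => (S / c0) * gc k g v) 0 (Real.log T') T⁻¹ := by
    have cc : Continuous (fun v => (S / c0) * gc k g v) := continuous_const.mul cg
    have ss : HasCompactSupport (fun v => (S / c0) * gc k g v) := sg.mul_left
    refine Af_mono ca sa cc ss hL hL' fun v => ?_
    set x := v / Real.log T with hx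
    have ex : v / Real.log T' = x * (Real.log T / Real.log T') := by
      rw [hx]; field_simp
    rw [ex]
    set r := Real.log T / Real.log T' with hr
    have hgc : 0 ≤ gc k g (x * r) := mul_nonneg (h.nn _) (cut_nonneg k _)
    rcases le_or_gt x (1 / 4) with c | c
    · rw [χ0 x c, mul_zero]
      positivity
    rcases le_or_gt (k / 2 + e) x with c' | c'
    · rw [hf0.2.2 x c', zero_mul]
      positivity
    · have hx' : x * r ≤ k / 2 + 2 * e := by
        have h3 : x * r ≤ (k / 2 + e) * ((k / 2 + 2 * e) / (k / 2 + e)) :=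
          mul_le_mul c'.le a3 a4.le (by positivity)
        rwa [mul_div_cancel₀ _ (by positivity : (k:ℝ) / 2 + e ≠ 0)] at h3
      have hx0 : 0 ≤ x * r := mul_nonneg (by linarith) a4.le
      have h4 : gc k g (x * r) = g (x * r) := by
        unfold gc
        rw [cut_one (by linarith) (by linarith), mul_one]
      have h5 : c0 ≤ g (x * r) := g3 _ hx0 hx'
      rw [h4]
      calc f0 x * χ x ≤ f0 x * 1 := mul_le_mul_of_nonneg_left (χl x) (h0 x)
        _ ≤ S := by rw [mul_one]; exact (le_abs_self _).trans (hS x)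
        _ = S / c0 * c0 := by field_simp
        _ ≤ S / c0 * g (x * r) := mul_le_mul_of_nonneg_left h5 (by positivity)
  rw [Af_smul] at h2
  have h3 : Af k (gc k g) 0 (Real.log T') T⁻¹ ≤ |C| * 2 * Nh (k ^ 2) T := by
    have h4 : V1 k (k ^ 2) (gc k g) T' ≤ C := a2
    unfold V1 at h4
    have e1 : Real.log (1 + T'⁻¹) = T⁻¹ := by
      rw [hT', inv_inv, add_sub_cancel, Real.log_exp]
    rw [e1, div_le_iff₀ hN'] at h4
    rw [div_le_iff₀ hN] at a5
    calc _ ≤ C * Nh (k ^ 2) T' := h4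
      _ ≤ |C| * Nh (k ^ 2) T' := mul_le_mul_of_nonneg_right (le_abs_self _) hN'.le
      _ ≤ |C| * (2 * Nh (k ^ 2) T) := mul_le_mul_of_nonneg_left a5 (abs_nonneg _)
      _ = _ := by ring
  have h5 := (le_abs_self _).trans a1
  have h6 := mul_le_mul_of_nonneg_left h3 (by positivity : 0 ≤ S / c0)
  rw [h1]
  calc _ ≤ S / c0 * (|C| * 2 * Nh (k ^ 2) T) + Cb * Nh (k ^ 2) T := add_le_add (h2.trans h6) h5
    _ = _ := by ring

/-- **bounded variance, bounded moment** -/
theorem up_bwdC (hk : 1 ≤ k) {g : ℝ → ℝ} (h : HC k g)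
    (hV : ∃ C : ℝ, ∀ᶠ T in atTop, V1 k (k ^ 2) (gc k g) T ≤ C) :
    (∃ C : ℝ, ∀ᶠ T : ℝ in atTop, M (zk k) T ≤ C * NN (k ^ 2) T) ∧
      ∃ C : ℝ, ∀ᶠ T : ℝ in atTop, mass k T ≤ C * NN (k ^ 2) T := by
  obtain ⟨e, he, Hb⟩ := Hb_of_V1C hk h hV
  have hk0 : (0:ℝ) < k := by exact_mod_cast hk
  have he2 : 0 < e / 2 := by positivity
  obtain ⟨C, hC, hb⟩ := conv_up (k := k) (q := k ^ 2) (B1 := k / 2 + e / 2) (B2 := k / 2 + e) (by positivity)
    (by linarith) Hb (gc_Tst (gm_HR k he2))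
  refine half_upc (gm_HR k he2) ⟨C, ?_⟩
  filter_upwards [hb, eventually_gt_atTop 1] with T a1 a2
  have hT0 : 0 < T := by linarith
  rw [int_St k (inv_pos.2 hT0)] at a1
  have h1 := (le_abs_self _).trans a1
  unfold Nh at h1
  have h2 : 0 < T⁻¹ ^ 2 := by positivity
  have h3 : T⁻¹ ^ 2 * St (Fh k T⁻¹) (Real.log T) (gc k (gm k (e / 2))) ≤ T⁻¹ ^ 2 * (C * NN (k ^ 2) T) := by
    linarith
  exact le_of_mul_le_mul_left h3 h2

lemma st_mono : Monotone Real.smoothTransition := Real.smoothTransition.monotone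

lemma gm_anti (k : ℕ) {η : ℝ} (hη : 0 < η) : Antitone (gm k η) := by
  intro v w hvw
  unfold gm
  refine st_mono ?_
  have : 0 < 2 * η := by positivity
  rw [div_le_div_iff_of_pos_right this]
  linarith

/-- **the equivalence** for continuous cut-offs -/
theorem cont_iff (hk : 1 ≤ k) {g : ℝ → ℝ} (h : HC k g) (c : ℝ) :
    Tendsto (fun T => M (zk k) T / NN (k ^ 2) T) atTop (𝓝 c) ↔
      Tendsto (V1 k (k ^ 2) (gc k g)) atTop (𝓝 (c / 2)) := by
  have hg := gm_HR k one_pos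
  constructor
  · intro hM
    have u1 : ∃ C : ℝ, ∀ᶠ T : ℝ in atTop, M (zk k) T ≤ C * NN (k ^ 2) T := ⟨_, up_of_ratio hM⟩
    have h1 := (V1_contdiff h hg u1 (mass_of_M u1)).add (one_fwd hg hM)
    rw [zero_add] at h1
    exact h1.congr fun T => by ring
  · intro hV
    obtain ⟨u1, u2⟩ := up_bwdC hk h ⟨c / 2 + 1, hV.eventually_le_const (by linarith)⟩
    have h1 := hV.sub (V1_contdiff h hg u1 u2)
    rw [sub_zero] at h1
    refine one_bwd hk hg (gm_anti k one_pos) (h1.congr fun T => by ring)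

/-- **bounded moment and bounded variance** for continuous cut-offs -/
theorem cont_up (hk : 1 ≤ k) {g : ℝ → ℝ} (h : HC k g) :
    (∃ C : ℝ, ∀ᶠ T : ℝ in atTop, M (zk k) T ≤ C * NN (k ^ 2) T) ↔
      ∃ C : ℝ, ∀ᶠ T in atTop, V1 k (k ^ 2) (gc k g) T ≤ C := by
  constructor
  · intro u1
    obtain ⟨C, hC, hV⟩ := V1_all (k := k) (q := k ^ 2) (mass_of_M u1)
    refine ⟨C * 1, ?_⟩
    filter_upwards [hV] with T a1
    refine (le_abs_self _).trans (a1 _ 1 zero_le_one fun v => ?_)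
    exact gc_bd (fun v => by rw [abs_of_nonneg (h.nn v)]; exact h.le v) v
  · intro hV
    exact (up_bwdC hk h hV).1

end

end Pool.Agent.J4.H32.VS
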