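import Pool.Agent.J4.H32.VS.U24

set_option autoImplicit false

/-! Weights with the unconditional part removed; the integral over `x ≥ 1`. -/

namespace Pool.Agent.J4.H32.VS

open Complex MeasureTheory Filter Topology Set Metric Pool.Agent.TH535.SM Pool.Agent.R446.KR
open Pool.Agent.J4.H44.LP
open Pool.Agent.W182.KO (TF)
open scoped FourierTransform ComplexConjugate ContDiff Convolution

noncomputable section

variable {q k : ℕ}

/-- the weights -/
structure Cut (k : ℕ) (η : ℝ) (w : ℝ → ℝ) : Prop where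
  cont : Continuous w
  sym : ∀ v : ℝ, 1 - η ≤ v → v ≤ k / 2 → w v + w (k - v) = 1
  out : ∀ v : ℝ, k - 1 + η ≤ v → w v = 0
  nn : ∀ v : ℝ, 1 - η ≤ v → 0 ≤ w v
  pos : ∀ v : ℝ, 1 - η ≤ v → v ≤ k / 2 → 0 < w v

/-- the completed cut-off -/
def full (η : ℝ) (w : ℝ → ℝ) (v : ℝ) : ℝ := if v ≤ 1 - η then 1 else w v

lemma full_le {η : ℝ} {w : ℝ → ℝ} {v : ℝ} (h : v ≤ 1 - η) : full η w v = 1 := if_pos h
lemma full_gt {η : ℝ} {w : ℝ → ℝ} {v : ℝ} (h : 1 - η < v) : full η w v = w v := if_neg (not_le.2 h)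

lemma Cut.at {η : ℝ} {w : ℝ → ℝ} (hk : 2 ≤ k) (hη : 0 < η) (h : Cut k η w) : w (1 - η) = 1 := by
  have hk2 : (2:ℝ) ≤ k := by exact_mod_cast hk
  have h1 := h.sym (1 - η) le_rfl (by linarith)
  rw [h.out (k - (1 - η)) (by linarith), add_zero] at h1
  exact h1

lemma Cut.HC {η : ℝ} {w : ℝ → ℝ} (hk : 2 ≤ k) (hη : 0 < η) (hη1 : η ≤ 1) (h : Cut k η w) : HC k (full η w) := by
  have hk2 : (2:ℝ) ≤ k := by exact_mod_cast hk
  have s1 : ∀ v : ℝ, v ≤ k / 2 → full η w v + full η w (k - v) = 1 := by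
    intro v hv
    rcases le_or_gt v (1 - η) with c | c
    · rw [full_le c, full_gt (by linarith), h.out _ (by linarith), add_zero]
    · rw [full_gt c, full_gt (by linarith), h.sym v c.le hv]
  refine ⟨?_, fun v => ?_, fun v hv => ?_, fun v => ?_, fun v hv => ?_⟩
  · refine Continuous.if_le continuous_const h.cont continuous_id continuous_const fun v hv => ?_
    have hv' : v = 1 - η := hv
    rw [hv', h.at hk hη]
  · rcases le_or_gt v (k / 2) with c | c
    · exact s1 v c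
    · have := s1 (k - v) (by linarith)
      rw [sub_sub_cancel] at this
      linarith
  · rw [full_gt (by linarith), h.out v (by linarith)]
  · rcases le_or_gt v (1 - η) with c | c
    · rw [full_le c]; exact zero_le_one
    · rw [full_gt c]; exact h.nn v c.le
  · rcases le_or_gt v (1 - η) with c | c
    · rw [full_le c]; exact one_pos
    · rw [full_gt c]; exact h.pos v c.le hv

/-- the weight on the half line -/
def half (w : ℝ → ℝ) (v : ℝ) : ℝ := if 0 ≤ v then w v else 0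

lemma half_ge {w : ℝ → ℝ} {v : ℝ} (h : 0 ≤ v) : half w v = w v := if_pos h
lemma half_lt {w : ℝ → ℝ} {v : ℝ} (h : v < 0) : half w v = 0 := if_neg (not_le.2 h)

lemma half_meas {w : ℝ → ℝ} (hw : Continuous w) : Measurable (half w) :=
  Measurable.ite measurableSet_Ici hw.measurable measurable_const

/-- the correction -/
def corr (k : ℕ) (η : ℝ) (w : ℝ → ℝ) : ℝ :=
  ∫ v in (0:ℝ)..(1 - η), (1 - w v) * (v ^ (k ^ 2 - 1) / (k ^ 2 - 1).factorial)

lemma Cut.bd {η : ℝ} {w : ℝ → ℝ} (hη1 : η ≤ 1) (h : Cut k η w) : ∃ S : ℝ, 0 ≤ S ∧ ∀ v, |half w v| ≤ S := by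
  obtain ⟨S, hS⟩ := (isCompact_Icc (a := (0:ℝ)) (b := (k:ℝ))).exists_bound_of_continuousOn h.cont.continuousOn
  refine ⟨max S 0, le_max_right _ _, fun v => ?_⟩
  rcases lt_or_ge v 0 with c | c
  · rw [half_lt c, abs_zero]; exact le_max_right _ _
  · rw [half_ge c]
    rcases le_or_gt v k with c' | c'
    · exact (hS v ⟨c, c'⟩).trans (le_max_left _ _)
    · rw [h.out v (by linarith), abs_zero]; exact le_max_right _ _

lemma half_diff {η : ℝ} {w : ℝ → ℝ} (hk : 2 ≤ k) (hη : 0 < η) (hη1 : η ≤ 1) (h : Cut k η w) :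
    Tendsto (fun T => V1 k (k ^ 2) (gc k (full η w)) T - V1 k (k ^ 2) (half w) T) atTop
      (𝓝 (H306R2.aF k * corr k η w)) := by
  have hk2 : (2:ℝ) ≤ k := by exact_mod_cast hk
  have hC := h.HC hk hη hη1
  obtain ⟨S, hS0, hS⟩ := h.bd hη1
  have m1 := half_meas h.cont
  have c1 := gc_contC (k := k) hC.cont
  have hgb : ∀ v, |gc k (full η w) v| ≤ 1 := gc_bd fun v => by rw [abs_of_nonneg (hC.nn v)]; exact hC.le v
  obtain ⟨b, hb⟩ : ∃ b : ℝ, b = max (1 - η) (1 / 2) := ⟨_, rfl⟩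
  have b0 : 0 < b := by rw [hb]; exact lt_of_lt_of_le (by norm_num) (le_max_right _ _)
  have b1 : b < 1 := by rw [hb]; exact max_lt (by linarith) (by norm_num)
  have b2 : 1 - η ≤ b := by rw [hb]; exact le_max_left _ _
  set F : ℝ → ℝ := fun v => gc k (full η w) v - half w v with hF
  have F0 : ∀ v, 1 - η < v → F v = 0 := by
    intro v hv
    have hv0 : 0 ≤ v := by linarith
    rw [hF]
    simp only
    unfold gc
    rw [half_ge hv0, full_gt hv]
    rcases le_or_gt v (k + 1) with c | c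
    · rw [cut_one (by linarith) c, mul_one, sub_self]
    · rw [h.out v (by linarith), zero_mul, sub_self]
  have F1 : ∀ v, 0 < v → v ≤ 1 - η → F v = 1 - w v := by
    intro v hv0 hv
    rw [hF]
    simp only
    unfold gc
    rw [half_ge hv0.le, full_le hv, cut_one (by linarith) (by linarith), mul_one]
  have F2 : ∀ v, b ≤ v → F v = 0 := by
    intro v hv
    rcases lt_or_ge (1 - η) v with c | c
    · exact F0 v c
    · have e : v = 1 - η := by linarith
      rw [F1 v (by linarith) c, e, h.at hk hη, sub_self]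
  have hlim := edge_cont (k := k) (by omega) b0 b1 (R := 2) (by norm_num) (S := 1 + S) (F := F)
    (g := fun v => gc k (full η w) v - w v) (c1.measurable.sub m1) (fun v => by
      refine (abs_sub _ _).trans (add_le_add (hgb v) (hS v))) F2 (fun v hv => by
      rw [hF]
      simp only
      unfold gc cut
      rw [half_lt (by linarith), Real.smoothTransition.zero_of_nonpos (x := v + 2) (by linarith), zero_mul, mul_zero,
        sub_zero]) (c1.sub h.cont) (fun v hv => by rw [hF]; simp only; rw [half_ge hv])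
  have e : J0 k F = corr k η w := by
    unfold J0 corr
    rw [intervalIntegral.integral_of_le (by linarith)]
    have e1 : ∫ u in Ioi (0:ℝ), u ^ (k ^ 2 - 1) / (k ^ 2 - 1).factorial * F u =
        ∫ u in Ioc (0:ℝ) (1 - η), u ^ (k ^ 2 - 1) / (k ^ 2 - 1).factorial * F u := by
      refine setIntegral_eq_of_subset_of_forall_sdiff_eq_zero measurableSet_Ioi Ioc_subset_Ioi_self ?_
      rintro x ⟨h1, h2⟩
      have : 1 - η < x := by
        by_contra h3
        exact h2 ⟨h1, not_lt.1 h3⟩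
      rw [F0 x this, mul_zero]
    rw [e1]
    refine setIntegral_congr_fun measurableSet_Ioc fun u hu => ?_
    rw [F1 u hu.1 hu.2]
    ring
  rw [e] at hlim
  obtain ⟨ψ, ψ1, ψ2, ψ3, ψ4, ψ5, ψ6⟩ := exists_psi (R := 0) (a := (k:ℝ)) (d := k + 1) (by linarith)
  refine hlim.congr' ?_
  filter_upwards [eventually_gt_atTop 1] with T hT
  refine V1_subm c1.measurable (Φ := fun v => |gc k (full η w) v|) c1.abs
    ((gc_cs k _).comp_left (g := abs) abs_zero) (fun v => le_refl _) m1 (Ψ := fun v => S * ψ v)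
    (continuous_const.mul ψ1.continuous) ψ2.mul_left (fun v => ?_) hT
  have hp : 0 ≤ S * ψ v := mul_nonneg hS0 (ψ4 v)
  rcases lt_or_ge v 0 with c | c
  · rw [half_lt c, abs_zero]; exact hp
  · rcases le_or_gt v k with c' | c'
    · rw [ψ6 v (by linarith) c', mul_one]; exact hS v
    · rw [half_ge c, h.out v (by linarith), abs_zero]; exact hp

/-- **the equivalence** -/
theorem main_iff {η : ℝ} {w : ℝ → ℝ} (hk : 2 ≤ k) (hη : 0 < η) (hη1 : η ≤ 1) (h : Cut k η w) (c : ℝ) :
    Tendsto (fun T => M (zk k) T / NN (k ^ 2) T) atTop (𝓝 c) ↔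
      Tendsto (V1 k (k ^ 2) (half w)) atTop (𝓝 (c / 2 - H306R2.aF k * corr k η w)) := by
  have hd := half_diff hk hη hη1 h
  rw [cont_iff (by omega) (h.HC hk hη hη1)]
  constructor
  · intro h1
    exact (h1.sub hd).congr fun T => by ring
  · intro h1
    have h2 := h1.add hd
    rw [sub_add_cancel] at h2
    exact h2.congr fun T => by ring

/-- **the upper bounds** -/
theorem main_up {η : ℝ} {w : ℝ → ℝ} (hk : 2 ≤ k) (hη : 0 < η) (hη1 : η ≤ 1) (h : Cut k η w) :
    (∃ C : ℝ, ∀ᶠ T : ℝ in atTop, M (zk k) T ≤ C * NN (k ^ 2) T) ↔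
      ∃ C : ℝ, ∀ᶠ T in atTop, V1 k (k ^ 2) (half w) T ≤ C := by
  have hd := half_diff hk hη hη1 h
  rw [cont_up (by omega) (h.HC hk hη hη1)]
  constructor
  · rintro ⟨C, hC⟩
    refine ⟨C - (H306R2.aF k * corr k η w - 1), ?_⟩
    filter_upwards [hC, hd.eventually_const_le (show H306R2.aF k * corr k η w - 1 < _ by linarith)] with T a1 a2
    linarith
  · rintro ⟨C, hC⟩
    refine ⟨C + (H306R2.aF k * corr k η w + 1), ?_⟩
    filter_upwards [hC, hd.eventually_le_const (show _ < H306R2.aF k * corr k η w + 1 by linarith)] with T a1 a2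
    linarith

/-- existence of weights -/
lemma exists_Cut (hk : 2 ≤ k) {η ε : ℝ} (hη : 0 < η) (hη1 : η ≤ 1) (hε : 0 < ε) :
    ∃ w : ℝ → ℝ, Cut k η w ∧ (∀ v, 0 ≤ w v ∧ w v ≤ 1) ∧ ∀ v, v ≤ 1 - η - ε ∨ k / 2 + ε ≤ v → w v = 0 := by
  have hk2 : (2:ℝ) ≤ k := by exact_mod_cast hk
  obtain ⟨e, he⟩ : ∃ e : ℝ, e = min ε (η / 2) := ⟨_, rfl⟩
  have e0 : 0 < e := by rw [he]; positivity
  have e1 : e ≤ ε := by rw [he]; exact min_le_left _ _
  have e2 : e ≤ η / 2 := by rw [he]; exact min_le_right _ _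
  set A : ℝ → ℝ := fun v => (v - (1 - η - e)) / e with hA
  set B : ℝ → ℝ := fun v => (k / 2 + e - v) / (2 * e) with hB
  have A1 : ∀ v, 1 - η ≤ v → 1 ≤ A v := fun v hv => by
    rw [hA]; simp only; rw [one_le_div e0]; linarith
  have A0 : ∀ v, v ≤ 1 - η - e → A v ≤ 0 := fun v hv => div_nonpos_of_nonpos_of_nonneg (by linarith) e0.le
  have B0 : ∀ v, k / 2 + e ≤ v → B v ≤ 0 := fun v hv => div_nonpos_of_nonpos_of_nonneg (by linarith) (by positivity)
  have B1 : ∀ v : ℝ, v ≤ k / 2 → 1 / 2 ≤ B v := fun v hv => by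
    rw [hB]; simp only; rw [le_div_iff₀ (by positivity)]; linarith
  have B2 : ∀ v, B (k - v) = 1 - B v := fun v => by
    rw [hB]; simp only; field_simp; ring
  have cA : Continuous A := by rw [hA]; fun_prop
  have cB : Continuous B := by rw [hB]; fun_prop
  refine ⟨fun v => max 0 (min 1 (min (A v) (B v))), ⟨by fun_prop, fun v h1 h2 => ?_,
    fun v hv => ?_, fun v hv => le_max_left _ _, fun v h1 h2 => ?_⟩, fun v => ⟨le_max_left _ _, ?_⟩, fun v hv => ?_⟩
  · have a1 := A1 v h1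
    have a2 := A1 (k - v) (by linarith)
    have b1 := B1 v h2
    have b2 := B2 v
    rcases le_or_gt (B v) 1 with c | c
    · rw [min_eq_right (show B v ≤ A v by linarith), min_eq_right c, max_eq_right (by linarith),
        min_eq_right (show B (k - v) ≤ A (k - v) by linarith), min_eq_right (by linarith), max_eq_right (by linarith),
        b2]
      ring
    · have x1 : min 1 (min (A v) (B v)) = 1 := min_eq_left (le_min a1 c.le)
      have x2 : min 1 (min (A (k - v)) (B (k - v))) ≤ 0 :=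
        (min_le_right _ _).trans ((min_le_right _ _).trans (by linarith))
      rw [x1, max_eq_right zero_le_one, max_eq_left x2, add_zero]
  · have : min 1 (min (A v) (B v)) ≤ 0 :=
      (min_le_right _ _).trans ((min_le_right _ _).trans (B0 v (by linarith)))
    exact max_eq_left this
  · have a1 := A1 v h1
    have b1 := B1 v h2
    refine lt_of_lt_of_le ?_ (le_max_right _ _)
    exact lt_min one_pos (lt_min (by linarith) (by linarith))
  · exact max_le zero_le_one (min_le_left _ _)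
  · rcases hv with hv | hv
    · have : min 1 (min (A v) (B v)) ≤ 0 :=
        (min_le_right _ _).trans ((min_le_left _ _).trans (A0 v (by linarith)))
      exact max_eq_left this
    · have : min 1 (min (A v) (B v)) ≤ 0 :=
        (min_le_right _ _).trans ((min_le_right _ _).trans (B0 v (by linarith)))
      exact max_eq_left this

/-! The intervals `(x, x + hx]`, `x ≥ 1`. -/

/-- the error term -/
def Dx (k : ℕ) (x : ℝ) : ℂ :=
  (∑ n ∈ Finset.Icc 1 ⌊x⌋₊, (((Nat.finMulAntidiag k n).card : ℕ) : ℂ)) -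
    (2 * Real.pi * I)⁻¹ * ∮ s in C(1, 1 / 4), riemannZeta s ^ k * ((x : ℂ) ^ s / s)

/-- the mean square -/
def Var (k : ℕ) (w : ℝ → ℝ) (h : ℝ) : ℝ :=
  (h * Real.log (1 / h) ^ (k ^ 2))⁻¹ *
    ∫ x in Ioi (1:ℝ), w (Real.log x / Real.log (1 / h)) * (‖Dx k (x + h * x) - Dx k x‖ ^ 2 / x ^ 2)

lemma Dx_eq (k : ℕ) (u : ℝ) : Dx k (Real.exp u) = D0 k u := by
  unfold Dx D0 Sk Rk RL
  have e : ∀ s : ℂ, ((Real.exp u : ℝ) : ℂ) ^ s = cexp (u * s) := by
    intro s
    rw [Complex.cpow_def_of_ne_zero (by exact_mod_cast (Real.exp_pos u).ne'),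
      ← Complex.ofReal_log (Real.exp_pos u).le, Real.log_exp]
  simp only [e]
  congr 1
  push_cast
  rfl

lemma sub_exp (g : ℝ → ℝ) : ∫ x in Ioi (0:ℝ), g x = ∫ u : ℝ, Real.exp u * g (Real.exp u) := by
  have h := integral_image_eq_integral_abs_deriv_smul (s := univ) (f := Real.exp) (f' := Real.exp)
    MeasurableSet.univ (fun x _ => (Real.hasDerivAt_exp x).hasDerivWithinAt) Real.exp_injective.injOn g
  rw [image_univ, Real.range_exp, Measure.restrict_univ] at h
  rw [h]
  refine integral_congr_ae (Eventually.of_forall fun u => ?_)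
  simp only [abs_of_pos (Real.exp_pos u), smul_eq_mul]

lemma Var_eq (k : ℕ) (w : ℝ → ℝ) {T : ℝ} (hT : 1 < T) : Var k w T⁻¹ = V1 k (k ^ 2) (half w) T := by
  have hT0 : 0 < T := by linarith
  have hl := Real.log_pos hT
  unfold Var V1 Af
  rw [one_div, inv_inv, Nh_eq _ hT0, div_eq_inv_mul]
  congr 1
  have e0 : ∫ x in Ioi (1:ℝ), w (Real.log x / Real.log T) * (‖Dx k (x + T⁻¹ * x) - Dx k x‖ ^ 2 / x ^ 2) =
      ∫ x in Ioi (0:ℝ), half w (Real.log x / Real.log T) * (‖Dx k (x + T⁻¹ * x) - Dx k x‖ ^ 2 / x ^ 2) := by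
    rw [← integral_Ici_eq_integral_Ioi]
    have e1 : ∫ x in Ici (1:ℝ), w (Real.log x / Real.log T) * (‖Dx k (x + T⁻¹ * x) - Dx k x‖ ^ 2 / x ^ 2) =
        ∫ x in Ici (1:ℝ), half w (Real.log x / Real.log T) * (‖Dx k (x + T⁻¹ * x) - Dx k x‖ ^ 2 / x ^ 2) := by
      refine setIntegral_congr_fun measurableSet_Ici fun x hx => ?_
      have hx1 : 1 ≤ x := hx
      rw [half_ge (div_nonneg (Real.log_nonneg hx1) hl.le)]
    rw [e1]
    refine (setIntegral_eq_of_subset_of_forall_sdiff_eq_zero measurableSet_Ioi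
      (fun x hx => lt_of_lt_of_le one_pos hx) ?_).symm
    rintro x ⟨h1, h2⟩
    have h3 : x < 1 := not_le.1 h2
    have h4 : 0 < x := h1
    rw [half_lt (div_neg_of_neg_of_pos (Real.log_neg h4 h3) hl), zero_mul]
  rw [e0, sub_exp]
  refine integral_congr_ae (Eventually.of_forall fun u => ?_)
  have hp : 0 < 1 + T⁻¹ := by positivity
  have e1 : Real.exp u + T⁻¹ * Real.exp u = Real.exp (u + Real.log (1 + T⁻¹)) := by
    rw [Real.exp_add, Real.exp_log hp]; ring
  simp only
  rw [e1, Dx_eq, Dx_eq, Real.log_exp, sub_zero, Ee_sq, Real.exp_neg]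
  have := (Real.exp_pos u).ne'
  field_simp

lemma lim_iff (k : ℕ) (w : ℝ → ℝ) (l : ℝ) : Tendsto (Var k w) (𝓝[>] 0) (𝓝 l) ↔
    Tendsto (V1 k (k ^ 2) (half w)) atTop (𝓝 l) := by
  have h0 : Tendsto (Var k w) (𝓝[>] 0) (𝓝 l) ↔ Tendsto (fun T : ℝ => Var k w T⁻¹) atTop (𝓝 l) := by
    refine ⟨fun h => h.comp tendsto_inv_atTop_nhdsGT_zero, fun h => ?_⟩
    have h1 := h.comp tendsto_inv_nhdsGT_zero
    refine h1.congr fun x => ?_
    simp only [Function.comp, inv_inv]
  rw [h0]
  refine tendsto_congr' ?_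
  filter_upwards [eventually_gt_atTop 1] with T hT
  exact Var_eq k w hT

lemma up_iff (k : ℕ) (w : ℝ → ℝ) (C : ℝ) : (∀ᶠ h in 𝓝[>] (0:ℝ), Var k w h ≤ C) ↔
    ∀ᶠ T in atTop, V1 k (k ^ 2) (half w) T ≤ C := by
  constructor
  · intro h
    filter_upwards [tendsto_inv_atTop_nhdsGT_zero.eventually h, eventually_gt_atTop (1:ℝ)] with T h1 h2
    rwa [Var_eq k w h2] at h1
  · intro h
    filter_upwards [tendsto_inv_nhdsGT_zero.eventually (h.and (eventually_gt_atTop (1:ℝ)))] with x h1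
    have h2 := Var_eq k w h1.2
    rw [inv_inv] at h2
    rw [h2]
    exact h1.1

end

end Pool.Agent.J4.H32.VS
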