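import Pool.Agent.J4.H32.VS.U25

set_option autoImplicit false

/-! Cut-offs, with the unconditional range `x ≤ h^{-θ}`, `θ < 1`, removed. -/

namespace Pool.Agent.J4.H32.VS

open Complex MeasureTheory Filter Topology Set Metric Pool.Agent.TH535.SM Pool.Agent.R446.KR
open Pool.Agent.J4.H44.LP
open Pool.Agent.W182.KO (TF)
open scoped FourierTransform ComplexConjugate ContDiff Convolution

noncomputable section

variable {q k : ℕ}

lemma V1_mono {F G Φ Ψ : ℝ → ℝ} (hF : Measurable F) (hΦ : Continuous Φ) (hΦs : HasCompactSupport Φ)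
    (hb : ∀ v, |F v| ≤ Φ v) (hG : Measurable G) (hΨ : Continuous Ψ) (hΨs : HasCompactSupport Ψ)
    (hb' : ∀ v, |G v| ≤ Ψ v) (hFG : ∀ v, F v ≤ G v) {T : ℝ} (hT : 1 < T) : V1 k q F T ≤ V1 k q G T := by
  have hL := Real.log_pos hT
  have hN := Nh_pos q hT
  have i1 := mE_int (k := k) hF hΦ hΦs hb hL (Real.log (1 + T⁻¹))
  have i2 := mE_int (k := k) hG hΨ hΨs hb' hL (Real.log (1 + T⁻¹))
  unfold V1 Af
  refine div_le_div_of_nonneg_right ?_ hN.le
  simp only [sub_zero]
  exact integral_mono i1 i2 fun v => mul_le_mul_of_nonneg_right (hFG _) (by positivity)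

/-- the part below `θ` -/
def low (k : ℕ) (θ v : ℝ) : ℝ := if v ≤ θ then cut k v else 0

lemma low_le {θ v : ℝ} (h : v ≤ θ) : low k θ v = cut k v := if_pos h
lemma low_gt {θ v : ℝ} (h : θ < v) : low k θ v = 0 := if_neg (not_le.2 h)

lemma low_meas (k : ℕ) (θ : ℝ) : Measurable (low k θ) :=
  Measurable.ite measurableSet_Iic (cut_smooth k).continuous.measurable measurable_const

lemma low_nonneg (k : ℕ) (θ v : ℝ) : 0 ≤ low k θ v := by
  rcases le_or_gt v θ with c | c
  · rw [low_le c]; exact cut_nonneg k v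
  · rw [low_gt c]

lemma low_le_cut (k : ℕ) (θ v : ℝ) : low k θ v ≤ cut k v := by
  rcases le_or_gt v θ with c | c
  · rw [low_le c]
  · rw [low_gt c]; exact cut_nonneg k v

lemma cut_csR (k : ℕ) : HasCompactSupport (cut k) := by
  refine HasCompactSupport.intro (K := Icc (-2) (k + 2)) isCompact_Icc fun v hv => ?_
  unfold cut
  rw [mem_Icc, not_and_or, not_le, not_le] at hv
  rcases hv with hv | hv
  · rw [Real.smoothTransition.zero_of_nonpos (x := v + 2) (by linarith), zero_mul]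
  · rw [Real.smoothTransition.zero_of_nonpos (x := k + 2 - v) (by linarith), mul_zero]

lemma J_low (hk : 1 ≤ k) {θ : ℝ} (h0 : 0 ≤ θ) (h1 : θ < 1) :
    J0 k (low k θ) = θ ^ (k ^ 2) / (k ^ 2).factorial := by
  have hk1 : (1:ℝ) ≤ k := by exact_mod_cast hk
  have hq : 1 ≤ k ^ 2 := Nat.one_le_pow _ _ hk
  obtain ⟨n, hn⟩ : ∃ n, k ^ 2 = n + 1 := ⟨k ^ 2 - 1, by omega⟩
  have e : J0 k (low k θ) = ∫ u in Ioc (0:ℝ) θ, u ^ n / n.factorial := by
    unfold J0
    rw [hn, Nat.add_sub_cancel]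
    have e1 : ∫ u in Ioi (0:ℝ), u ^ n / n.factorial * low k θ u =
        ∫ u in Ioc (0:ℝ) θ, u ^ n / n.factorial * low k θ u := by
      refine setIntegral_eq_of_subset_of_forall_sdiff_eq_zero measurableSet_Ioi Ioc_subset_Ioi_self ?_
      rintro x ⟨h1, h2⟩
      have : θ < x := by
        by_contra h3
        exact h2 ⟨h1, not_lt.1 h3⟩
      rw [low_gt this, mul_zero]
    rw [e1]
    refine setIntegral_congr_fun measurableSet_Ioc fun u hu => ?_
    have : cut k u = 1 := cut_one (by linarith [hu.1]) (by linarith [hu.2])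
    rw [low_le hu.2, this, mul_one]
  rw [e, ← intervalIntegral.integral_of_le h0, intervalIntegral.integral_div, integral_pow, hn, Nat.factorial_succ]
  push_cast
  have : (0:ℝ) < n + 1 := by positivity
  have h3 : (0:ℝ) < n.factorial := by exact_mod_cast Nat.factorial_pos _
  rw [zero_pow (by omega)]
  field_simp
  ring

lemma J_near (k : ℕ) {Φ : ℝ → ℝ} {a b : ℝ} (ha : 0 ≤ a) (hab : a ≤ b) (hb1 : b ≤ 1) 
    (h1 : ∀ v, |Φ v| ≤ 1) (hd : ∀ v, 0 < v → v ≤ a → Φ v = 0) (hb : ∀ v, b < v → Φ v = 0) : J0 k Φ ≤ b - a := by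
  have e : J0 k Φ = ∫ u in Ioc a b, u ^ (k ^ 2 - 1) / (k ^ 2 - 1).factorial * Φ u := by
    unfold J0
    refine setIntegral_eq_of_subset_of_forall_sdiff_eq_zero measurableSet_Ioi
      (fun x hx => lt_of_le_of_lt ha hx.1) ?_
    rintro x ⟨h1, h2⟩
    rcases le_or_gt x a with c | c
    · rw [hd x h1 c, mul_zero]
    · have : b < x := by
        by_contra h3
        exact h2 ⟨c, not_lt.1 h3⟩
      rw [hb x this, mul_zero]
  rw [e]
  have h2 : ‖∫ u in Ioc a b, u ^ (k ^ 2 - 1) / (k ^ 2 - 1).factorial * Φ u‖ ≤ 1 * volume.real (Ioc a b) := by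
    refine norm_setIntegral_le_of_norm_le_const (by simp) fun u hu => ?_
    have hu0 : 0 < u := lt_of_le_of_lt ha hu.1
    rw [norm_mul, norm_div, norm_pow, Real.norm_eq_abs, Real.norm_natCast,
      abs_of_pos hu0, Real.norm_eq_abs]
    have hf : (1:ℝ) ≤ ((k ^ 2 - 1).factorial : ℝ) := by exact_mod_cast Nat.factorial_pos _
    have hu1 : u ^ (k ^ 2 - 1) ≤ 1 := pow_le_one₀ hu0.le (hu.2.trans hb1)
    have h3 : u ^ (k ^ 2 - 1) / ((k ^ 2 - 1).factorial : ℝ) ≤ 1 := by
      rw [div_le_one (by linarith)]; linarith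
    calc _ ≤ 1 * 1 := mul_le_mul h3 (h1 u) (abs_nonneg _) zero_le_one
      _ = 1 := one_mul 1
  rw [Real.volume_real_Ioc_of_le hab, one_mul] at h2
  exact (le_abs_self _).trans h2

/-- the upper and lower smooth approximations -/
def gy (k : ℕ) (a d v : ℝ) : ℝ := cut k v * Real.smoothTransition ((a + d - v) / d)

lemma gy_one {a d v : ℝ} (hd : 0 < d) (h : v ≤ a) : gy k a d v = cut k v := by
  unfold gy
  rw [Real.smoothTransition.one_of_one_le (x := (a + d - v) / d) (by rw [one_le_div hd]; linarith), mul_one]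

lemma gy_zero {a d v : ℝ} (hd : 0 < d) (h : a + d ≤ v) : gy k a d v = 0 := by
  unfold gy
  rw [Real.smoothTransition.zero_of_nonpos (x := (a + d - v) / d)
    (div_nonpos_of_nonpos_of_nonneg (by linarith) hd.le), mul_zero]

lemma gy_nonneg (k : ℕ) (a d v : ℝ) : 0 ≤ gy k a d v := mul_nonneg (cut_nonneg k v) (Real.smoothTransition.nonneg _)

lemma gy_le (k : ℕ) (a d v : ℝ) : gy k a d v ≤ cut k v := by
  unfold gy
  calc _ ≤ cut k v * 1 := mul_le_mul_of_nonneg_left (Real.smoothTransition.le_one _) (cut_nonneg k v)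
    _ = _ := mul_one _

lemma gy_Tst (k : ℕ) {a d b : ℝ} (hd : 0 < d) (hb : a + d ≤ b) : Tst b (gy k a d) := by
  refine ⟨?_, ?_, fun v hv => gy_zero hd (hb.trans hv)⟩
  · unfold gy
    exact (cut_smooth k).mul (Real.smoothTransition.contDiff.comp ((contDiff_const.sub contDiff_id).div_const _))
  · exact HasCompactSupport.mul_right (cut_csR k)

/-- the unconditional range -/
theorem low_lim (hk : 1 ≤ k) {θ : ℝ} (h0 : 0 ≤ θ) (h1 : θ < 1) :
    Tendsto (V1 k (k ^ 2) (low k θ)) atTop (𝓝 (H306R2.aF k * (θ ^ (k ^ 2) / (k ^ 2).factorial))) := by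
  have ha : 0 < H306R2.aF (k : ℝ) := H306R2.aF_pos (by exact_mod_cast hk)
  rw [← J_low hk h0 h1, Metric.tendsto_nhds]
  intro ε0 hε0
  obtain ⟨d, hd⟩ : ∃ d, d = min ((1 - θ) / 2) (ε0 / (4 * (H306R2.aF (k : ℝ) + 1))) := ⟨_, rfl⟩
  have d0 : 0 < d := by
    rw [hd]
    have : 0 < (1 - θ) / 2 := by linarith
    positivity
  have d1 : d ≤ (1 - θ) / 2 := by rw [hd]; exact min_le_left _ _
  have d2 : d * (H306R2.aF (k : ℝ) + 1) ≤ ε0 / 4 := by
    have : d ≤ ε0 / (4 * (H306R2.aF (k : ℝ) + 1)) := by rw [hd]; exact min_le_right _ _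
    calc d * (H306R2.aF (k : ℝ) + 1) ≤ ε0 / (4 * (H306R2.aF (k : ℝ) + 1)) * (H306R2.aF (k : ℝ) + 1) :=
          mul_le_mul_of_nonneg_right this (by positivity)
      _ = ε0 / 4 := by field_simp
  have tp : Tst (θ + d) (gy k θ d) := gy_Tst k d0 le_rfl
  have tm : Tst (θ + d) (gy k (θ - d) d) := gy_Tst k d0 (by linarith)
  have Lp := V1_edge hk (by linarith) (by linarith : θ + d < 1) tp
  have Lm := V1_edge hk (by linarith) (by linarith : θ + d < 1) tm
  rw [El_eq hk] at Lp Lm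
  have cc := (cut_smooth k).continuous
  have hcb : ∀ v, |cut k v| ≤ 1 := fun v => by rw [abs_of_nonneg (cut_nonneg k v)]; exact cut_le k v
  have bl : ∀ v, |low k θ v| ≤ cut k v := fun v => by
    rw [abs_of_nonneg (low_nonneg k θ v)]; exact low_le_cut k θ v
  have bz : ∀ a v, |gy k a d v| ≤ cut k v := fun a v => by
    rw [abs_of_nonneg (gy_nonneg k a d v)]; exact gy_le k a d v
  have o1 : ∀ v, gy k (θ - d) d v ≤ low k θ v := fun v => by
    rcases le_or_gt v θ with c | c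
    · rw [low_le c]; exact gy_le _ _ _ _
    · rw [low_gt c, gy_zero d0 (by linarith)]
  have o2 : ∀ v, low k θ v ≤ gy k θ d v := fun v => by
    rcases le_or_gt v θ with c | c
    · rw [low_le c, gy_one d0 c]
    · rw [low_gt c]; exact gy_nonneg _ _ _ _
  -- the constants
  have jp : J0 k (gy k θ d) ≤ J0 k (low k θ) + d := by
    have m1 : Measurable (fun v => gy k θ d v - low k θ v) := tp.1.continuous.measurable.sub (low_meas k θ)
    have h2 := J_diff k (F := gy k θ d) (G := low k θ) (Φ := fun v => gy k θ d v - low k θ v)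
      tp.1.continuous.measurable (fun v => (bz θ v).trans (cut_le k v)) tp.2.2
      (low_meas k θ) (fun v => (bl v).trans (cut_le k v)) (b' := θ + d) (fun v hv => low_gt (by linarith))
      m1 (S'' := 1) (fun v => by
        rw [abs_of_nonneg (by linarith [o2 v])]
        have := gy_le k θ d v
        have := low_nonneg k θ v
        have := cut_le k v
        linarith) (b'' := θ + d) (fun v hv => by
        rw [gy_zero d0 hv, low_gt (by linarith), sub_zero]) (fun v _ => by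
        rw [abs_of_nonneg (by linarith [o2 v])])
    have h3 := J_near k (Φ := fun v => gy k θ d v - low k θ v) h0 (show θ ≤ θ + d by linarith) (by linarith)
      (fun v => by
        rw [abs_of_nonneg (by linarith [o2 v])]
        have := gy_le k θ d v
        have := low_nonneg k θ v
        have := cut_le k v
        linarith) (fun v _ hv => by rw [gy_one d0 hv, low_le hv, sub_self])
      (fun v hv => by rw [gy_zero d0 hv.le, low_gt (by linarith), sub_zero])
    have h4 := (abs_le.1 h2).2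
    linarith
  have jm : J0 k (low k θ) - d ≤ J0 k (gy k (θ - d) d) := by
    have m1 : Measurable (fun v => low k θ v - gy k (θ - d) d v) := (low_meas k θ).sub tm.1.continuous.measurable
    have h2 := J_diff k (F := low k θ) (G := gy k (θ - d) d) (Φ := fun v => low k θ v - gy k (θ - d) d v)
      (low_meas k θ) (fun v => (bl v).trans (cut_le k v)) (b := θ + d) (fun v hv => low_gt (by linarith))
      tm.1.continuous.measurable (fun v => (bz (θ - d) v).trans (cut_le k v)) tm.2.2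
      m1 (S'' := 1) (fun v => by
        rw [abs_of_nonneg (by linarith [o1 v])]
        have := gy_nonneg k (θ - d) d v
        have := low_le_cut k θ v
        have := cut_le k v
        linarith) (b'' := θ + d) (fun v hv => by
        rw [gy_zero d0 (by linarith), low_gt (by linarith), sub_zero]) (fun v _ => by
        rw [abs_of_nonneg (by linarith [o1 v])])
    have h3 := J_near k (Φ := fun v => low k θ v - gy k (θ - d) d v) (a := max (θ - d) 0) (b := θ) (le_max_right _ _)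
      (max_le (by linarith) h0) h1.le
      (fun v => by
        rw [abs_of_nonneg (by linarith [o1 v])]
        have := gy_nonneg k (θ - d) d v
        have := low_le_cut k θ v
        have := cut_le k v
        linarith) (fun v hv0 hv => by
          have : v ≤ θ - d := by
            rcases le_total (θ - d) 0 with c | c
            · rw [max_eq_right c] at hv; exfalso; linarith
            · rwa [max_eq_left c] at hv
          rw [gy_one d0 this, low_le (by linarith), sub_self])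
      (fun v hv => by rw [gy_zero d0 (by linarith), low_gt hv, sub_zero])
    have h4 := (abs_le.1 h2).2
    have h5 := le_max_left (θ - d) 0
    linarith
  have kp : H306R2.aF (k : ℝ) * J0 k (gy k θ d) ≤ H306R2.aF (k : ℝ) * J0 k (low k θ) + H306R2.aF (k : ℝ) * d := by
    have := mul_le_mul_of_nonneg_left jp ha.le
    linarith
  have km : H306R2.aF (k : ℝ) * J0 k (low k θ) - H306R2.aF (k : ℝ) * d ≤ H306R2.aF (k : ℝ) * J0 k (gy k (θ - d) d) := by
    have := mul_le_mul_of_nonneg_left jm ha.le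
    linarith
  have d3 : H306R2.aF (k : ℝ) * d ≤ ε0 / 4 := by nlinarith
  filter_upwards [Lp.eventually_le_const (show H306R2.aF (k : ℝ) * J0 k (gy k θ d) <
      H306R2.aF (k : ℝ) * J0 k (gy k θ d) + ε0 / 4 by linarith),
    Lm.eventually_const_le (show H306R2.aF (k : ℝ) * J0 k (gy k (θ - d) d) - ε0 / 4 <
      H306R2.aF (k : ℝ) * J0 k (gy k (θ - d) d) by linarith), eventually_gt_atTop 1] with T a1 a2 a3
  have h2 := V1_mono (k := k) (q := k ^ 2) (low_meas k θ) cc (cut_csR k) bl tp.1.continuous.measurable cc (cut_csR k)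
    (bz θ) o2 a3
  have h3 := V1_mono (k := k) (q := k ^ 2) tm.1.continuous.measurable cc (cut_csR k) (bz (θ - d))
    (low_meas k θ) cc (cut_csR k) bl o1 a3
  rw [Real.dist_eq, abs_lt]
  constructor <;> linarith

/-- the part above `θ` -/
def upp (θ : ℝ) (f : ℝ → ℝ) (v : ℝ) : ℝ := if θ < v then f v else 0

lemma upp_diff (hk : 1 ≤ k) {θ : ℝ} (h0 : 0 ≤ θ) (h1 : θ < 1) {f : ℝ → ℝ} (h : HC k f)
    (hf : ∀ v, k - θ ≤ v → f v = 0) :
    Tendsto (fun T => V1 k (k ^ 2) (gc k f) T - V1 k (k ^ 2) (upp θ f) T) atTop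
      (𝓝 (H306R2.aF k * (θ ^ (k ^ 2) / (k ^ 2).factorial))) := by
  have m1 : Measurable (upp θ f) := Measurable.ite measurableSet_Ioi h.cont.measurable measurable_const
  have c1 := gc_contC (k := k) h.cont
  have F1 : ∀ v, v ≤ θ → f v = 1 := fun v hv => by
    have h2 := h.sym v
    rw [hf (k - v) (by linarith), add_zero] at h2
    exact h2
  have e : (fun v => gc k f v - upp θ f v) = low k θ := by
    funext v
    unfold gc upp
    rcases le_or_gt v θ with c | c
    · rw [if_neg (not_lt.2 c), low_le c, F1 v c, one_mul, sub_zero]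
    · rw [if_pos c, low_gt c]
      rcases le_or_gt v (k + 1) with c' | c'
      · rw [cut_one (by linarith) c', mul_one, sub_self]
      · rw [h.out v (by linarith), zero_mul, sub_self]
  have hlim := low_lim hk h0 h1
  rw [← e] at hlim
  obtain ⟨ψ, ψ1, ψ2, ψ3, ψ4, ψ5, ψ6⟩ := exists_psi (R := 0) (a := (k:ℝ)) (d := k + 1) (by linarith)
  refine hlim.congr' ?_
  filter_upwards [eventually_gt_atTop 1] with T hT
  refine V1_subm c1.measurable (Φ := fun v => |gc k f v|) c1.abs
    ((gc_cs k _).comp_left (g := abs) abs_zero) (fun v => le_refl _) m1 (Ψ := ψ)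
    ψ1.continuous ψ2 (fun v => ?_) hT
  unfold upp
  rcases le_or_gt v θ with c | c
  · rw [if_neg (not_lt.2 c), abs_zero]; exact ψ4 v
  · rw [if_pos c]
    rcases le_or_gt v k with c' | c'
    · rw [ψ6 v (by linarith) c', abs_of_nonneg (h.nn v)]; exact h.le v
    · rw [h.out v c'.le, abs_zero]; exact ψ4 v

/-- **the equivalence** -/
theorem main2_iff (hk : 1 ≤ k) {θ : ℝ} (h0 : 0 ≤ θ) (h1 : θ < 1) {f : ℝ → ℝ} (h : HC k f)
    (hf : ∀ v, k - θ ≤ v → f v = 0) (c : ℝ) :
    Tendsto (fun T => M (zk k) T / NN (k ^ 2) T) atTop (𝓝 c) ↔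
      Tendsto (V1 k (k ^ 2) (upp θ f)) atTop (𝓝 (c / 2 - H306R2.aF k * (θ ^ (k ^ 2) / (k ^ 2).factorial))) := by
  have hd := upp_diff hk h0 h1 h hf
  rw [cont_iff hk h]
  constructor
  · intro h1
    exact (h1.sub hd).congr fun T => by ring
  · intro h1
    have h2 := h1.add hd
    rw [sub_add_cancel] at h2
    exact h2.congr fun T => by ring

/-- **the upper bounds** -/
theorem main2_up (hk : 1 ≤ k) {θ : ℝ} (h0 : 0 ≤ θ) (h1 : θ < 1) {f : ℝ → ℝ} (h : HC k f)
    (hf : ∀ v, k - θ ≤ v → f v = 0) :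
    (∃ C : ℝ, ∀ᶠ T : ℝ in atTop, M (zk k) T ≤ C * NN (k ^ 2) T) ↔
      ∃ C : ℝ, ∀ᶠ T in atTop, V1 k (k ^ 2) (upp θ f) T ≤ C := by
  have hd := upp_diff hk h0 h1 h hf
  rw [cont_up hk h]
  obtain ⟨x, hx⟩ : ∃ x, x = H306R2.aF (k:ℝ) * (θ ^ (k ^ 2) / (k ^ 2).factorial) := ⟨_, rfl⟩
  rw [← hx] at hd
  constructor
  · rintro ⟨C, hC⟩
    refine ⟨C - (x - 1), ?_⟩
    filter_upwards [hC, hd.eventually_const_le (show x - 1 < _ by linarith)] with T a1 a2
    linarith
  · rintro ⟨C, hC⟩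
    refine ⟨C + (x + 1), ?_⟩
    filter_upwards [hC, hd.eventually_le_const (show _ < x + 1 by linarith)] with T a1 a2
    linarith

/-- existence of cut-offs -/
lemma exists_HC (hk : 2 ≤ k) {ε : ℝ} (hε : 0 < ε) : ∃ f : ℝ → ℝ, HC k f ∧ ∀ v : ℝ, k / 2 + ε ≤ v → f v = 0 := by
  have hk2 : (2:ℝ) ≤ k := by exact_mod_cast hk
  obtain ⟨w, h1, h2, h3⟩ := exists_Cut hk one_pos le_rfl hε
  refine ⟨full 1 w, h1.HC hk one_pos le_rfl, fun v hv => ?_⟩
  rw [full_gt (by linarith), h3 v (Or.inr hv)]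

/-- the mean square -/
def Var2 (k : ℕ) (θ : ℝ) (f : ℝ → ℝ) (h : ℝ) : ℝ :=
  (h * Real.log (1 / h) ^ (k ^ 2))⁻¹ *
    ∫ x in Ioi (h ^ (-θ)), f (Real.log x / Real.log (1 / h)) * (‖Dx k (x + h * x) - Dx k x‖ ^ 2 / x ^ 2)

lemma Var2_eq (k : ℕ) (θ : ℝ) (f : ℝ → ℝ) {T : ℝ} (hT : 1 < T) : Var2 k θ f T⁻¹ = V1 k (k ^ 2) (upp θ f) T := by
  have hT0 : 0 < T := by linarith
  have hl := Real.log_pos hT
  unfold Var2 V1 Af
  rw [one_div, inv_inv, Nh_eq _ hT0, div_eq_inv_mul]
  congr 1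
  have ep : T⁻¹ ^ (-θ) = Real.exp (θ * Real.log T) := by
    rw [Real.inv_rpow hT0.le, Real.rpow_neg hT0.le, inv_inv, Real.rpow_def_of_pos hT0, mul_comm]
  have e0 : ∫ x in Ioi (T⁻¹ ^ (-θ)), f (Real.log x / Real.log T) * (‖Dx k (x + T⁻¹ * x) - Dx k x‖ ^ 2 / x ^ 2) =
      ∫ x in Ioi (0:ℝ), upp θ f (Real.log x / Real.log T) * (‖Dx k (x + T⁻¹ * x) - Dx k x‖ ^ 2 / x ^ 2) := by
    have e1 : ∫ x in Ioi (T⁻¹ ^ (-θ)), f (Real.log x / Real.log T) * (‖Dx k (x + T⁻¹ * x) - Dx k x‖ ^ 2 / x ^ 2) =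
        ∫ x in Ioi (T⁻¹ ^ (-θ)), upp θ f (Real.log x / Real.log T) *
          (‖Dx k (x + T⁻¹ * x) - Dx k x‖ ^ 2 / x ^ 2) := by
      refine setIntegral_congr_fun measurableSet_Ioi fun x hx => ?_
      have hx1 : Real.exp (θ * Real.log T) < x := by rw [← ep]; exact hx
      have hx2 : θ < Real.log x / Real.log T := by
        rw [lt_div_iff₀ hl, Real.lt_log_iff_exp_lt (lt_trans (Real.exp_pos _) hx1)]
        exact hx1
      unfold upp
      rw [if_pos hx2]
    rw [e1]
    refine (setIntegral_eq_of_subset_of_forall_sdiff_eq_zero measurableSet_Ioi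
      (fun x hx => lt_trans (by rw [ep]; exact Real.exp_pos _) hx) ?_).symm
    rintro x ⟨h1, h2⟩
    have h4 : 0 < x := h1
    have h3 : x ≤ Real.exp (θ * Real.log T) := by rw [← ep]; exact not_lt.1 h2
    have h5 : ¬ θ < Real.log x / Real.log T := by
      rw [not_lt, div_le_iff₀ hl, Real.log_le_iff_le_exp h4]
      exact h3
    unfold upp
    rw [if_neg h5, zero_mul]
  rw [e0, sub_exp]
  refine integral_congr_ae (Eventually.of_forall fun u => ?_)
  have hp : 0 < 1 + T⁻¹ := by positivity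
  have e1 : Real.exp u + T⁻¹ * Real.exp u = Real.exp (u + Real.log (1 + T⁻¹)) := by
    rw [Real.exp_add, Real.exp_log hp]; ring
  simp only
  rw [e1, Dx_eq, Dx_eq, Real.log_exp, sub_zero, Ee_sq, Real.exp_neg]
  have := (Real.exp_pos u).ne'
  field_simp

lemma lim2_iff (k : ℕ) (θ : ℝ) (f : ℝ → ℝ) (l : ℝ) : Tendsto (Var2 k θ f) (𝓝[>] 0) (𝓝 l) ↔
    Tendsto (V1 k (k ^ 2) (upp θ f)) atTop (𝓝 l) := by
  have h0 : Tendsto (Var2 k θ f) (𝓝[>] 0) (𝓝 l) ↔ Tendsto (fun T : ℝ => Var2 k θ f T⁻¹) atTop (𝓝 l) := by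
    refine ⟨fun h => h.comp tendsto_inv_atTop_nhdsGT_zero, fun h => ?_⟩
    have h1 := h.comp tendsto_inv_nhdsGT_zero
    refine h1.congr fun x => ?_
    simp only [Function.comp, inv_inv]
  rw [h0]
  refine tendsto_congr' ?_
  filter_upwards [eventually_gt_atTop 1] with T hT
  exact Var2_eq k θ f hT

lemma up2_iff (k : ℕ) (θ : ℝ) (f : ℝ → ℝ) (C : ℝ) : (∀ᶠ h in 𝓝[>] (0:ℝ), Var2 k θ f h ≤ C) ↔
    ∀ᶠ T in atTop, V1 k (k ^ 2) (upp θ f) T ≤ C := by
  constructor
  · intro h
    filter_upwards [tendsto_inv_atTop_nhdsGT_zero.eventually h, eventually_gt_atTop (1:ℝ)] with T h1 h2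
    rwa [Var2_eq k θ f h2] at h1
  · intro h
    filter_upwards [tendsto_inv_nhdsGT_zero.eventually (h.and (eventually_gt_atTop (1:ℝ)))] with x h1
    have h2 := Var2_eq k θ f h1.2
    rw [inv_inv] at h2
    rw [h2]
    exact h1.1

end

end Pool.Agent.J4.H32.VS
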