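import Pool.Agent.J4.H32.VS.U26

set_option autoImplicit false

/-! The cross term of the integers and the pole. -/

namespace Pool.Agent.J4.H32.VS

open Complex MeasureTheory Filter Topology Set Metric Pool.Agent.TH535.SM Pool.Agent.R446.KR
open Pool.Agent.J4.H44.LP
open Pool.Agent.W182.KO (TF P P_bound P_diff)
open scoped FourierTransform ComplexConjugate ContDiff Convolution

noncomputable section

variable {q k : ℕ}

lemma RL_sub (k : ℕ) {φ ψ : ℂ → ℂ} (h1 : Continuous (fun θ : ℝ => φ (cm θ))) (h2 : Continuous (fun θ : ℝ => ψ (cm θ))) :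
    RL k (fun s => φ s - ψ s) = RL k φ - RL k ψ := by
  have hz := zc_cont k
  have i1 : IntervalIntegrable (fun θ => zc k θ * φ (cm θ)) volume 0 (2 * Real.pi) := (hz.mul h1).intervalIntegrable _ _
  have i2 : IntervalIntegrable (fun θ => zc k θ * ψ (cm θ)) volume 0 (2 * Real.pi) := (hz.mul h2).intervalIntegrable _ _
  rw [RL_eq, RL_eq, RL_eq, ← intervalIntegral.integral_sub i1 i2]
  refine intervalIntegral.integral_congr fun θ _ => ?_
  ring

lemma exps_cont1 (u : ℝ) : Continuous (fun θ : ℝ => cexp (u * cm θ) / cm θ) := by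
  have := cm_cont
  exact Continuous.div (by fun_prop) (by fun_prop) fun p => cm_ne0 _

/-- the weighted pole part -/
def Gx (k : ℕ) (w : ℝ → ℝ) (L s u : ℝ) : ℂ := ((w (u / L) : ℝ) : ℂ) * pk k s u

lemma Gx_cont (k : ℕ) {w : ℝ → ℝ} (hw : Continuous w) (L s : ℝ) : Continuous (Gx k w L s) := by
  unfold Gx
  have := pk_cont k s
  fun_prop

lemma Gx_cs (k : ℕ) {w : ℝ → ℝ} (hs : HasCompactSupport w) {L : ℝ} (hL : 0 < L) (s : ℝ) :
    HasCompactSupport (Gx k w L s) := by
  have h1 : HasCompactSupport (fun u : ℝ => ((w (u / L) : ℝ) : ℂ)) :=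
    (cs_div hs hL).comp_left (g := Complex.ofReal) Complex.ofReal_zero
  exact h1.mul_right

/-- its transform -/
def Gxt (k : ℕ) (w : ℝ → ℝ) (L s t : ℝ) : ℂ := ∫ u : ℝ, Gx k w L s u * cexp (-(u * t * I))

/-- the analytic function of the residue -/
def px (w : ℝ → ℝ) (L s t : ℝ) (z : ℂ) : ℂ :=
  (cexp (s * z) - 1) / z * (L * P (fun v => ((w v : ℝ) : ℂ)) (L * (z - 1 / 2 - t * I)))

lemma Gxt_eq (k : ℕ) {w : ℝ → ℝ} (hw : Continuous w) (hs : HasCompactSupport w) {L : ℝ} (hL : 0 < L) (s t : ℝ) :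
    Gxt k w L s t = RL k (px w L s t) := by
  set φ : ℝ → ℂ → ℂ := fun u z => (((w (u / L) * Real.exp (-(u / 2)) : ℝ) : ℂ) * cexp (-(u * t * I))) *
    (cexp (((u + s : ℝ) : ℂ) * z) / z - cexp (u * z) / z) with hφ
  have hc : Continuous (fun p : ℝ × ℝ => φ p.1 (cm p.2)) := by
    have h1 := cm_cont
    have h2 : Continuous (fun p : ℝ × ℝ => cexp (((p.1 + s : ℝ) : ℂ) * cm p.2) / cm p.2) :=
      Continuous.div (by fun_prop) (by fun_prop) fun p => cm_ne0 _
    have h3 := exps_cont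
    rw [hφ]
    fun_prop
  have hb : ∀ u θ, ‖φ u (cm θ)‖ ≤ |w (u / L)| * (Real.exp (-(u / 2)) * (2 * Real.exp (2 * |u + s|) +
      2 * Real.exp (2 * |u|))) := by
    intro u θ
    rw [hφ]
    simp only
    have e1 : ‖cexp (-(u * t * I))‖ = 1 := by
      have : (-(u * t * I) : ℂ) = ((-(u * t) : ℝ) : ℂ) * I := by push_cast; ring
      rw [this, Complex.norm_exp_ofReal_mul_I]
    rw [norm_mul, norm_mul, e1, mul_one, Complex.norm_real, norm_mul, Real.norm_eq_abs,
      Real.norm_of_nonneg (Real.exp_pos _).le, mul_assoc]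
    refine mul_le_mul_of_nonneg_left ?_ (abs_nonneg _)
    refine mul_le_mul_of_nonneg_left ?_ (Real.exp_pos _).le
    exact (norm_sub_le _ _).trans (add_le_add (exps_norm _ _) (exps_norm _ _))
  have hi : Integrable (fun u => |w (u / L)| * (Real.exp (-(u / 2)) * (2 * Real.exp (2 * |u + s|) +
      2 * Real.exp (2 * |u|)))) := by
    refine Continuous.integrable_of_hasCompactSupport (by fun_prop) ?_
    have h1 : HasCompactSupport (fun u => |w (u / L)|) := (cs_div hs hL).comp_left (g := abs) abs_zero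
    exact h1.mul_right
  obtain ⟨-, h1⟩ := RL_swap k hc hi hb
  have e1 : ∀ u, RL k (φ u) = Gx k w L s u * cexp (-(u * t * I)) := by
    intro u
    rw [hφ]
    simp only
    rw [RL_const_mul, RL_sub k (exps_cont1 (u + s)) (exps_cont1 u)]
    unfold Gx pk Rk
    push_cast
    ring
  unfold Gxt
  rw [← integral_congr_ae (Eventually.of_forall e1), h1]
  refine RL_congr k fun θ => ?_
  have e2 : ∀ u, φ u (cm θ) = (cexp (s * cm θ) - 1) / cm θ *
      (((w (u / L) : ℝ) : ℂ) * cexp (((u / L : ℝ) : ℂ) * (L * (cm θ - 1 / 2 - t * I)))) := by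
    intro u
    rw [hφ]
    simp only
    have hLc : (L : ℂ) ≠ 0 := by exact_mod_cast hL.ne'
    have e3 : ((u / L : ℝ) : ℂ) * (L * (cm θ - 1 / 2 - t * I)) = -(u / 2) + -(u * t * I) + u * cm θ := by
      push_cast
      field_simp
      ring
    have e4 : (((u + s : ℝ) : ℂ) * cm θ) = s * cm θ + u * cm θ := by push_cast; ring
    rw [e3, e4, Complex.exp_add, Complex.exp_add, Complex.exp_add]
    push_cast
    ring
  simp_rw [e2]
  rw [integral_const_mul]
  unfold px P
  have h2 := Measure.integral_comp_div (fun v : ℝ => ((w v : ℝ) : ℂ) * cexp (v * (L * (cm θ - 1 / 2 - t * I)))) L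
  rw [h2, abs_of_pos hL]
  congr 1

/-- **the bound** for the transform -/
theorem Gxt_bd (k : ℕ) {w : ℝ → ℝ} {b : ℝ} (hw : TF b (fun v => ((w v : ℝ) : ℂ))) (hb : 0 ≤ b) {ρ : ℝ} (hρ : 0 < ρ)
    (hρ4 : ρ ≤ 1 / 4) (N : ℕ) : ∃ C : ℝ, 0 ≤ C ∧ ∀ L s t : ℝ, 1 ≤ L → 0 ≤ s → s ≤ 1 / 2 →
      ‖RL k (px w L s t)‖ * (1 + |t|) ^ N ≤ C * s * L * Real.exp (b * ((1 / 2 + ρ) * L)) := by
  obtain ⟨CP, hCP, hP⟩ := P_bound hw N
  have hz : ∀ z ∈ sphere (1:ℂ) ρ, z ≠ 1 ∧ 3 / 4 ≤ ‖z‖ ∧ ‖z‖ ≤ 5 / 4 ∧ 1 - ρ ≤ z.re ∧ z.re ≤ 1 + ρ ∧ |z.im| ≤ ρ := by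
    intro z hz
    have h1 : ‖z - 1‖ = ρ := by rwa [mem_sphere, dist_eq_norm] at hz
    refine ⟨?_, ?_, ?_, ?_, ?_, ?_⟩
    · intro h
      rw [h, sub_self, norm_zero] at h1
      linarith
    · have := norm_sub_norm_le (1:ℂ) (1 - z)
      rw [norm_one, sub_sub_cancel, norm_sub_rev, h1] at this
      linarith
    · have := norm_add_le (z - 1) 1
      rw [sub_add_cancel, h1, norm_one] at this
      linarith
    · have := neg_abs_le (z - 1).re
      have h2 := Complex.abs_re_le_norm (z - 1)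
      rw [h1] at h2
      rw [sub_re, one_re] at this h2
      linarith
    · have := le_abs_self (z - 1).re
      have h2 := Complex.abs_re_le_norm (z - 1)
      rw [h1] at h2
      rw [sub_re, one_re] at this h2
      linarith
    · have h2 := Complex.abs_im_le_norm (z - 1)
      rw [h1, sub_im, one_im, sub_zero] at h2
      exact h2
  have hc : ContinuousOn (fun s => riemannZeta s ^ k) (sphere (1:ℂ) ρ) := fun z hzs =>
    ((differentiableAt_riemannZeta (hz z hzs).1).continuousAt.pow k).continuousWithinAt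
  obtain ⟨C, hC⟩ := (isCompact_sphere (1:ℂ) ρ).exists_bound_of_continuousOn hc
  have hC0 : 0 ≤ C := by
    have h1 : (1 + ρ : ℂ) ∈ sphere (1:ℂ) ρ := by
      rw [mem_sphere, dist_eq_norm, add_sub_cancel_left, Complex.norm_real, Real.norm_of_nonneg hρ.le]
    exact (norm_nonneg _).trans (hC _ h1)
  refine ⟨ρ * (C * (4 * (CP * 2 ^ N))), by positivity, fun L s t hL hs hs2 => ?_⟩
  have hL0 : 0 < L := by linarith
  have hX : 0 < (1 + |t|) ^ N := by positivity
  have hdiff : ∀ z : ℂ, z ≠ 0 → DifferentiableAt ℂ (px w L s t) z := by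
    intro z hz0
    unfold px
    have h1 : Differentiable ℂ (P (fun v => ((w v : ℝ) : ℂ))) := P_diff hw
    exact (DifferentiableAt.div (by fun_prop) differentiableAt_id hz0).mul
      ((differentiableAt_const _).mul ((h1 _).comp z (by fun_prop)))
  rw [RL_radius k hρ hρ4 hdiff]
  have hbd : ∀ z ∈ sphere (1:ℂ) ρ, ‖riemannZeta z ^ k * px w L s t z‖ ≤
      C * ((4 * s) * (L * (CP * 2 ^ N * Real.exp (b * ((1 / 2 + ρ) * L)) / (1 + |t|) ^ N))) := by
    intro z hzs
    obtain ⟨-, z1, z2, z3, z4, z5⟩ := hz z hzs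
    unfold px
    rw [norm_mul, norm_mul, norm_mul, norm_div, Complex.norm_real, Real.norm_of_nonneg hL0.le]
    have b2 : ‖cexp (s * z) - 1‖ / ‖z‖ ≤ 4 * s := by
      have hzp : 0 < ‖z‖ := by linarith
      rw [div_le_iff₀ hzp]
      have h1 : ‖(s : ℂ) * z‖ = s * ‖z‖ := by rw [norm_mul, Complex.norm_real, Real.norm_of_nonneg hs]
      have h2 : ‖(s : ℂ) * z‖ ≤ 1 := by rw [h1]; nlinarith
      have h3 := Complex.norm_exp_sub_one_le h2
      rw [h1] at h3
      nlinarith
    set z' : ℂ := L * (z - 1 / 2 - t * I) with hz'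
    have r1 : z'.re = L * (z.re - 1 / 2) := by
      rw [hz', Complex.re_ofReal_mul]
      congr 1
      simp
    have i1 : z'.im = L * (z.im - t) := by
      rw [hz', Complex.im_ofReal_mul]
      congr 1
      simp
    have r0 : 0 ≤ z'.re := by rw [r1]; exact mul_nonneg hL0.le (by linarith)
    have h4 := hP z' r0
    have h5 : Real.exp (b * z'.re) ≤ Real.exp (b * ((1 / 2 + ρ) * L)) := by
      refine Real.exp_le_exp.2 (mul_le_mul_of_nonneg_left ?_ hb)
      rw [r1, mul_comm]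
      exact mul_le_mul_of_nonneg_right (by linarith) hL0.le
    have h6 : (1 + |t|) ^ N ≤ 2 ^ N * (1 + ‖z'‖) ^ N := by
      rw [← mul_pow]
      refine pow_le_pow_left₀ (by positivity) ?_ N
      have h7 := Complex.abs_im_le_norm z'
      rw [i1, abs_mul, abs_of_pos hL0] at h7
      have h8 : |t| - |z.im| ≤ |z.im - t| := by
        have := abs_sub_abs_le_abs_sub t z.im
        rwa [abs_sub_comm] at this
      have h9 : |t| - 1 / 4 ≤ L * |z.im - t| := by
        have h10 : |z.im - t| ≤ L * |z.im - t| := by nlinarith [abs_nonneg (z.im - t)]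
        linarith
      linarith [abs_nonneg t]
    have h7 : ‖P (fun v => ((w v : ℝ) : ℂ)) z'‖ ≤ CP * 2 ^ N * Real.exp (b * ((1 / 2 + ρ) * L)) / (1 + |t|) ^ N := by
      rw [le_div_iff₀ hX]
      calc ‖P (fun v => ((w v : ℝ) : ℂ)) z'‖ * (1 + |t|) ^ N ≤
            ‖P (fun v => ((w v : ℝ) : ℂ)) z'‖ * (2 ^ N * (1 + ‖z'‖) ^ N) :=
            mul_le_mul_of_nonneg_left h6 (norm_nonneg _)
        _ = (‖P (fun v => ((w v : ℝ) : ℂ)) z'‖ * (1 + ‖z'‖) ^ N) * 2 ^ N := by ring
        _ ≤ (CP * Real.exp (b * ((1 / 2 + ρ) * L))) * 2 ^ N :=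
            mul_le_mul_of_nonneg_right (h4.trans (mul_le_mul_of_nonneg_left h5 hCP)) (by positivity)
        _ = _ := by ring
    refine mul_le_mul (hC z hzs) ?_ (by positivity) hC0
    refine mul_le_mul b2 ?_ (by positivity) (by positivity)
    exact mul_le_mul_of_nonneg_left h7 hL0.le
  have h1 := circleIntegral.norm_two_pi_i_inv_smul_integral_le_of_norm_le_const hρ.le hbd
  rw [smul_eq_mul] at h1
  refine (mul_le_mul_of_nonneg_right h1 hX.le).trans (le_of_eq ?_)
  field_simp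

end

end Pool.Agent.J4.H32.VS
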