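import Pool.Agent.J4.H32.VS.U27
import Pool.Agent.J4.H44.LP.Cm

set_option autoImplicit false

/-! Parseval for the cross term. -/

namespace Pool.Agent.J4.H32.VS

open Complex MeasureTheory Filter Topology Set Metric Pool.Agent.TH535.SM Pool.Agent.R446.KR
open Pool.Agent.J4.H44.LP
open Pool.Agent.W182.KO (TF P P_bound P_diff)
open scoped FourierTransform ComplexConjugate ContDiff Convolution

noncomputable section

variable {q k : ℕ}

lemma Bh_sub (k : ℕ) (h : ℝ) {ε : ℝ} (hε : 0 < ε) (u : ℝ) : Bh k h ε u =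
    (((√(2 * Real.pi) : ℝ) : ℂ))⁻¹ * ∫ y : ℝ, ((Real.exp (-y ^ 2 / 2) : ℝ) : ℂ) * Ee k h (u + ε * y) := by
  unfold Bh
  have h3 := Measure.integral_comp_mul_left
    (fun x : ℝ => ((Real.exp (-(x ^ 2 / (2 * ε ^ 2))) : ℝ) : ℂ) * Ee k h (u + x)) ε
  rw [abs_inv, abs_of_pos hε, Complex.real_smul] at h3
  have e4 : ∫ y : ℝ, ((Real.exp (-y ^ 2 / 2) : ℝ) : ℂ) * Ee k h (u + ε * y) =
      ∫ y : ℝ, ((Real.exp (-((ε * y) ^ 2 / (2 * ε ^ 2))) : ℝ) : ℂ) * Ee k h (u + ε * y) := by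
    refine integral_congr_ae (Eventually.of_forall fun y => ?_)
    simp only
    congr 4
    field_simp
  rw [e4, h3]
  push_cast
  rw [mul_inv, mul_assoc]

lemma Bh_bdd (k : ℕ) : ∃ C : ℝ, 0 ≤ C ∧ ∀ s ε u : ℝ, 0 ≤ s → s ≤ 1 → 0 < ε → ε ≤ 1 →
    ‖Bh k s ε u‖ ≤ C * Real.exp (3 * |u|) := by
  obtain ⟨C, hC, hb⟩ := Ee_bd k
  have hi := ge_int 0 3 (c := 1 / 2) (by norm_num)
  set J : ℝ := ∫ y : ℝ, (1 + |y|) ^ 0 * Real.exp (3 * |y| - 1 / 2 * y ^ 2) with hJ
  have hJ0 : 0 ≤ J := integral_nonneg fun y => by positivity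
  refine ⟨‖(((√(2 * Real.pi) : ℝ) : ℂ))⁻¹‖ * (C * Real.exp 2 * J), by positivity, fun s ε u hs hs1 hε hε1 => ?_⟩
  rw [Bh_sub k s hε, norm_mul, mul_assoc]
  refine mul_le_mul_of_nonneg_left ?_ (norm_nonneg _)
  have h1 : ‖∫ y : ℝ, ((Real.exp (-y ^ 2 / 2) : ℝ) : ℂ) * Ee k s (u + ε * y)‖ ≤
      ∫ y : ℝ, (C * Real.exp 2 * Real.exp (3 * |u|)) * ((1 + |y|) ^ 0 * Real.exp (3 * |y| - 1 / 2 * y ^ 2)) := by
    refine norm_integral_le_of_norm_le (hi.const_mul _) (Eventually.of_forall fun y => ?_)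
    rw [norm_mul, Complex.norm_real, Real.norm_of_nonneg (Real.exp_pos _).le]
    have h2 := hb s (u + ε * y)
    have h3 : |u + ε * y| ≤ |u| + |y| := by
      refine (abs_add_le _ _).trans ?_
      rw [abs_mul, abs_of_pos hε]
      have : ε * |y| ≤ 1 * |y| := mul_le_mul_of_nonneg_right hε1 (abs_nonneg _)
      linarith
    have h4 : Real.exp (3 * |u + ε * y| + 2 * |s|) ≤ Real.exp 2 * Real.exp (3 * |u|) * Real.exp (3 * |y|) := by
      rw [← Real.exp_add, ← Real.exp_add, abs_of_nonneg hs]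
      exact Real.exp_le_exp.2 (by linarith)
    have e5 : Real.exp (3 * |y| - 1 / 2 * y ^ 2) = Real.exp (-y ^ 2 / 2) * Real.exp (3 * |y|) := by
      rw [← Real.exp_add]; congr 1; ring
    calc Real.exp (-y ^ 2 / 2) * ‖Ee k s (u + ε * y)‖ ≤
          Real.exp (-y ^ 2 / 2) * (C * (Real.exp 2 * Real.exp (3 * |u|) * Real.exp (3 * |y|))) := by
          refine mul_le_mul_of_nonneg_left (h2.trans ?_) (Real.exp_pos _).le
          exact mul_le_mul_of_nonneg_left h4 (by linarith)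
      _ = _ := by rw [e5]; ring
  rw [integral_const_mul] at h1
  refine h1.trans (le_of_eq ?_)
  ring

/-- Parseval for the smoothing -/
lemma Bh_pars (k : ℕ) {s ε : ℝ} (hs : 0 ≤ s) (hε : 0 < ε) {G : ℝ → ℂ} (hG : Continuous G) (hc : HasCompactSupport G) :
    ∫ u, conj (G u) * Bh k s ε u = ((1 / (2 * Real.pi) : ℝ) : ℂ) *
      ∫ t, Gb k s ε t * conj (∫ u, G u * cexp (-(u * t * I))) := by
  have hF := Gb_dec k hs hε
  have hGi : Integrable G := hG.integrable_of_hasCompactSupport hc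
  have e1 : ∀ u, conj (G u) * Bh k s ε u = ((1 / (2 * Real.pi) : ℝ) : ℂ) *
      ∫ t : ℝ, conj (G u) * (cexp (u * t * I) * Gb k s ε t) := by
    intro u
    rw [Bh_ft k hs hε, ft_eq, integral_const_mul]
    have e2 : ∀ t : ℝ, cexp (-(2 * Real.pi * ((-(u / (2 * Real.pi)) : ℝ) : ℂ) * t * I)) = cexp (u * t * I) := by
      intro t
      congr 1
      have hpi : (Real.pi : ℂ) ≠ 0 := by exact_mod_cast Real.pi_ne_zero
      push_cast
      field_simp
    simp only [e2]
    ring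
  simp_rw [e1]
  rw [integral_const_mul]
  congr 1
  have hi : Integrable (Function.uncurry fun u t : ℝ => conj (G u) * (cexp (u * t * I) * Gb k s ε t))
      (volume.prod volume) := by
    have h1 : Integrable (fun p : ℝ × ℝ => ‖G p.1‖ * ‖Gb k s ε p.2‖) (volume.prod volume) :=
      hGi.norm.mul_prod hF.int.norm
    refine h1.mono' ?_ (Eventually.of_forall fun p => ?_)
    · have h2 := hF.cont
      have h3 : Continuous (fun p : ℝ × ℝ => conj (G p.1) * (cexp (p.1 * p.2 * I) * Gb k s ε p.2)) := by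
        have : Continuous (fun z : ℂ => conj z) := Complex.continuous_conj
        fun_prop
      exact h3.aestronglyMeasurable
    · simp only [Function.uncurry]
      have e3 : ‖cexp ((p.1:ℂ) * p.2 * I)‖ = 1 := by
        rw [← Complex.ofReal_mul, Complex.norm_exp_ofReal_mul_I]
      rw [norm_mul, norm_mul, e3, one_mul, RCLike.norm_conj]
  rw [integral_integral_swap hi]
  refine integral_congr_ae (Eventually.of_forall fun t => ?_)
  simp only
  rw [← integral_conj, ← integral_const_mul]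
  refine integral_congr_ae (Eventually.of_forall fun u => ?_)
  simp only
  have e4 : conj (cexp (-((u:ℂ) * t * I))) = cexp (u * t * I) := by
    rw [← Complex.exp_conj]
    congr 1
    simp
  rw [map_mul, e4]
  ring

/-- **the bound for the cross term** -/
theorem cross_bd (k : ℕ) : ∃ (C : ℝ) (N : ℕ), 0 ≤ C ∧ ∀ G : ℝ → ℂ, Continuous G → HasCompactSupport G → ∀ B : ℝ,
    (∀ t : ℝ, ‖∫ u, G u * cexp (-(u * t * I))‖ * (1 + |t|) ^ N ≤ B) → ∀ s : ℝ, 0 ≤ s → s ≤ 1 →
      ‖∫ u, conj (G u) * Ee k s u‖ ≤ C * s * B := by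
  have D := zk_dat k (u := 1) le_rfl
  obtain ⟨C0, p, hC0, hz⟩ := z_bd D
  obtain ⟨K, hK, hKb⟩ := Bh_bdd k
  set J : ℝ := ∫ t : ℝ, ((1 + |t|) ^ 2)⁻¹ with hJ
  have hJ0 : 0 ≤ J := integral_nonneg fun y => by positivity
  refine ⟨1 / (2 * Real.pi) * (Real.exp 1 * C0 * J), p + 2, by positivity, fun G hG hc B hB s hs hs1 => ?_⟩
  have hB0 : 0 ≤ B := le_trans (by positivity) (hB 0)
  have h1 : ∀ ε, 0 < ε → ‖∫ u, conj (G u) * Bh k s ε u‖ ≤ 1 / (2 * Real.pi) * (Real.exp 1 * C0 * J) * s * B := by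
    intro ε hε
    rw [Bh_pars k hs hε hG hc, norm_mul, Complex.norm_real, Real.norm_of_nonneg (by positivity)]
    have h2 : ‖∫ t, Gb k s ε t * conj (∫ u, G u * cexp (-(u * t * I)))‖ ≤
        ∫ t : ℝ, (s * Real.exp 1 * C0 * B) * ((1 + |t|) ^ 2)⁻¹ := by
      refine norm_integral_le_of_norm_le (inv_sq_int.const_mul _) (Eventually.of_forall fun t => ?_)
      rw [norm_mul, RCLike.norm_conj]
      have g1 : ‖Gb k s ε t‖ ≤ s * Real.exp 1 * (C0 * (1 + |t|) ^ p) := by
        unfold Gb Fh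
        rw [norm_mul, norm_mul, Complex.norm_real, Real.norm_of_nonneg (Real.exp_pos _).le]
        have a1 := kap_norm hs t
        have a2 : Real.exp (s / 2) ≤ Real.exp 1 := Real.exp_le_exp.2 (by linarith)
        have a3 : Real.exp (-(ε ^ 2 * t ^ 2 / 2)) ≤ 1 := Real.exp_le_one_iff.2 (by
          have : 0 ≤ ε ^ 2 * t ^ 2 / 2 := by positivity
          linarith)
        refine mul_le_mul (a1.trans (mul_le_mul_of_nonneg_left a2 hs)) ?_ (by positivity) (by positivity)
        calc ‖zk k t‖ * Real.exp (-(ε ^ 2 * t ^ 2 / 2)) ≤ ‖zk k t‖ * 1 :=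
              mul_le_mul_of_nonneg_left a3 (norm_nonneg _)
          _ ≤ _ := by rw [mul_one]; exact hz t
      have hX : 0 < (1 + |t|) ^ (p + 2) := by positivity
      have g2 : ‖∫ u, G u * cexp (-(u * t * I))‖ ≤ B / (1 + |t|) ^ (p + 2) := by
        rw [le_div_iff₀ hX]; exact hB t
      refine (mul_le_mul g1 g2 (norm_nonneg _) (by positivity)).trans (le_of_eq ?_)
      rw [pow_add]
      field_simp
    rw [integral_const_mul] at h2
    calc 1 / (2 * Real.pi) * ‖∫ t, Gb k s ε t * conj (∫ u, G u * cexp (-(u * t * I)))‖ ≤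
          1 / (2 * Real.pi) * ((s * Real.exp 1 * C0 * B) * J) := mul_le_mul_of_nonneg_left h2 (by positivity)
      _ = _ := by ring
  have hcn : HasCompactSupport (fun u => ‖G u‖) := hc.norm
  have h3 : Tendsto (fun ε => ∫ u, conj (G u) * Bh k s ε u) (𝓝[>] 0) (𝓝 (∫ u, conj (G u) * Ee k s u)) := by
    refine tendsto_integral_filter_of_dominated_convergence (fun u => ‖G u‖ * (K * Real.exp (3 * |u|))) ?_ ?_ ?_ ?_
    · filter_upwards [self_mem_nhdsWithin] with ε hε
      have hε0 : 0 < ε := hε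
      have c1 : Continuous (Bh k s ε) := by
        rw [Bh_Bf k hs hε0]
        exact Bf_cont (Gb_dec k hs hε0)
      have : Continuous (fun z : ℂ => conj z) := Complex.continuous_conj
      exact ((this.comp hG).mul c1).aestronglyMeasurable
    · filter_upwards [self_mem_nhdsWithin, Ioc_mem_nhdsGT (show (0:ℝ) < 1 by norm_num)] with ε hε hε1
      refine Eventually.of_forall fun u => ?_
      rw [norm_mul, RCLike.norm_conj]
      exact mul_le_mul_of_nonneg_left (hKb s ε u hs hs1 hε hε1.2) (norm_nonneg _)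
    · exact Continuous.integrable_of_hasCompactSupport (by fun_prop) hcn.mul_right
    · filter_upwards [Bh_lim k s] with u hu
      exact hu.const_mul _
  refine le_of_tendsto h3.norm ?_
  filter_upwards [self_mem_nhdsWithin] with ε hε
  exact h1 ε hε

/-- **the cross term is small** -/
theorem cross_small (k : ℕ) {w : ℝ → ℝ} {b : ℝ} (hw : TF b (fun v => ((w v : ℝ) : ℂ))) (hc : Continuous w)
    (hs : HasCompactSupport w) (hb : 0 ≤ b) (hb2 : b < 2) (q : ℕ) :
    Tendsto (fun T => ‖∫ u, conj (Gx k w (Real.log T) (Real.log (1 + T⁻¹)) u) * Ee k (Real.log (1 + T⁻¹)) u‖ / Nh q T)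
      atTop (𝓝 0) := by
  obtain ⟨C1, N, hC1, h1⟩ := cross_bd k
  obtain ⟨ρ, hρd⟩ : ∃ ρ : ℝ, ρ = (2 - b) / 8 := ⟨_, rfl⟩
  have hρ0 : 0 < ρ := by rw [hρd]; linarith
  have hρ4 : ρ ≤ 1 / 4 := by rw [hρd]; linarith
  have hδ : b * (1 / 2 + ρ) < 1 := by rw [hρd]; nlinarith
  obtain ⟨δ, hδd⟩ : ∃ δ : ℝ, δ = 1 - b * (1 / 2 + ρ) := ⟨_, rfl⟩
  have hδ0 : 0 < δ := by rw [hδd]; linarith
  obtain ⟨C2, hC2, h2⟩ := Gxt_bd k hw hb hρ0 hρ4 N
  have L1 : Tendsto (fun T : ℝ => C1 * C2 * (Real.log T * Real.exp (-(δ * Real.log T)))) atTop (𝓝 (C1 * C2 * 0)) :=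
    ((exp_lim hδ0).comp Real.tendsto_log_atTop).const_mul _
  rw [mul_zero] at L1
  refine squeeze_zero' ?_ ?_ L1
  · filter_upwards [eventually_gt_atTop 1] with T hT
    exact div_nonneg (norm_nonneg _) (Nh_pos q hT).le
  · filter_upwards [eventually_ge_atTop (Real.exp 1), eventually_ge_atTop 2] with T hT hT2
    have hT0 : 0 < T := by linarith
    have hL : 1 ≤ Real.log T := by rwa [Real.le_log_iff_exp_le hT0]
    have hL0 : 0 < Real.log T := by linarith
    have hi : 0 < T⁻¹ := inv_pos.2 hT0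
    have hi2 : T⁻¹ ≤ 1 / 2 := by rw [one_div]; exact inv_anti₀ (by norm_num) hT2
    have s0 : 0 ≤ Real.log (1 + T⁻¹) := Real.log_nonneg (by linarith)
    have s1 : Real.log (1 + T⁻¹) ≤ T⁻¹ := by
      have := Real.log_le_sub_one_of_pos (show 0 < 1 + T⁻¹ by linarith)
      linarith
    set s := Real.log (1 + T⁻¹) with hsd
    have h3 := h1 (Gx k w (Real.log T) s) (Gx_cont k hc _ _) (Gx_cs k hs hL0 _)
      (C2 * s * Real.log T * Real.exp (b * ((1 / 2 + ρ) * Real.log T))) (fun t => by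
        have e := Gxt_eq k hc hs hL0 s t
        unfold Gxt at e
        rw [e]
        exact h2 (Real.log T) s t hL s0 (by linarith)) s s0 (by linarith)
    have hN := Nh_pos q (show 1 < T by linarith)
    rw [div_le_iff₀ hN]
    refine h3.trans ?_
    have h4 : T⁻¹ ^ 2 * T ≤ Nh q T := by
      unfold Nh NN
      refine mul_le_mul_of_nonneg_left ?_ (by positivity)
      have : (1:ℝ) ≤ Real.log T ^ q := one_le_pow₀ hL
      nlinarith
    have h5 : s * s ≤ T⁻¹ ^ 2 := by rw [pow_two]; exact mul_le_mul s1 s1 s0 hi.le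
    have h6 : Real.exp (b * ((1 / 2 + ρ) * Real.log T)) = T * Real.exp (-(δ * Real.log T)) := by
      have : T * Real.exp (-(δ * Real.log T)) = Real.exp (Real.log T) * Real.exp (-(δ * Real.log T)) := by
        rw [Real.exp_log hT0]
      rw [this, ← Real.exp_add]
      congr 1
      rw [hδd]
      ring
    rw [h6]
    have hE : 0 ≤ Real.exp (-(δ * Real.log T)) := (Real.exp_pos _).le
    calc C1 * s * (C2 * s * Real.log T * (T * Real.exp (-(δ * Real.log T)))) =
          (C1 * C2 * (Real.log T * Real.exp (-(δ * Real.log T)))) * (s * s * T) := by ring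
      _ ≤ (C1 * C2 * (Real.log T * Real.exp (-(δ * Real.log T)))) * (T⁻¹ ^ 2 * T) := by
          refine mul_le_mul_of_nonneg_left (mul_le_mul_of_nonneg_right h5 hT0.le) (by positivity)
      _ ≤ _ := mul_le_mul_of_nonneg_left h4 (by positivity)

end

end Pool.Agent.J4.H32.VS
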