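import Pool.Agent.J4.H32.VS.U28

set_option autoImplicit false

/-! The diagonal, and the correlations. -/

namespace Pool.Agent.J4.H32.VS

open Complex MeasureTheory Filter Topology Set Metric Pool.Agent.TH535.SM Pool.Agent.R446.KR
open Pool.Agent.J4.H44.LP
open Pool.Agent.W182.KO (TF P P_bound P_diff)
open scoped FourierTransform ComplexConjugate ContDiff Convolution

noncomputable section

variable {q k : ℕ}

/-- summatory functions -/
def SS (f : ℕ → ℝ) (u : ℝ) : ℝ := ∑ n ∈ Finset.Icc 1 ⌊Real.exp u⌋₊, f n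

lemma SS_filter (f : ℕ → ℝ) {v T : ℝ} (hT : 0 < T) (hv : v ≤ Real.log T) :
    SS f v = ∑ n ∈ Finset.Icc 1 ⌊T⌋₊, if Real.log n ≤ v then f n else 0 := by
  rw [← Finset.sum_filter]
  unfold SS
  refine Finset.sum_congr ?_ fun _ _ => rfl
  ext n
  rw [Finset.mem_filter]
  constructor
  · intro h
    have hn := (Finset.mem_Icc.1 h).1
    refine ⟨?_, (mem_Sk hn).1 h⟩
    have h1 := ((mem_Sk hn).1 h).trans hv
    have h2 := (mem_Sk (u := Real.log T) hn).2 h1
    rwa [Real.exp_log hT] at h2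
  · rintro ⟨h, h1⟩
    exact (mem_Sk (Finset.mem_Icc.1 h).1).2 h1

lemma SS_diff (f : ℕ → ℝ) {u h T : ℝ} (hT : 0 < T) (hh : 0 ≤ h) (hv : u + h ≤ Real.log T) :
    SS f (u + h) - SS f u = ∑ n ∈ Finset.Icc 1 ⌊T⌋₊,
      if u < Real.log n ∧ Real.log n ≤ u + h then f n else 0 := by
  rw [SS_filter f hT hv, SS_filter f hT (by linarith : u ≤ Real.log T), ← Finset.sum_sub_distrib]
  refine Finset.sum_congr rfl fun n _ => ?_
  by_cases h1 : Real.log n ≤ u
  · rw [if_pos h1, if_pos (by linarith), if_neg (by rintro ⟨h2, -⟩; linarith), sub_self]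
  · rw [if_neg h1, sub_zero]
    by_cases h2 : Real.log n ≤ u + h
    · rw [if_pos h2, if_pos ⟨not_le.1 h1, h2⟩]
    · rw [if_neg h2, if_neg (fun h3 => h2 h3.2)]

/-- the diagonal -/
def dg (k : ℕ) (h u : ℝ) : ℝ := Real.exp (-u) * (SS (fun n => (W182.KO.dk k n : ℝ) ^ 2) (u + h) -
  SS (fun n => (W182.KO.dk k n : ℝ) ^ 2) u)

/-- the diagonal, integrated -/
lemma dg_int (k : ℕ) {g : ℝ → ℝ} (hg : Continuous g) {b L X s : ℝ} (hX : 0 < X) (hL : 0 < L) (hs : 0 ≤ s)
    (hb : ∀ v, b ≤ v → g v = 0) (h1 : b * L + s ≤ Real.log X) :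
    ∫ u, g (u / L) * dg k s u = ∑ n ∈ Finset.Icc 1 ⌊X⌋₊, (W182.KO.dk k n : ℝ) ^ 2 *
      ∫ u in Ico (Real.log n - s) (Real.log n), g (u / L) * Real.exp (-u) := by
  have e : ∀ u, g (u / L) * dg k s u = ∑ n ∈ Finset.Icc 1 ⌊X⌋₊, (W182.KO.dk k n : ℝ) ^ 2 *
      (Ico (Real.log n - s) (Real.log n)).indicator (fun u => g (u / L) * Real.exp (-u)) u := by
    intro u
    by_cases hu : b * L ≤ u
    · have h0 : g (u / L) = 0 := hb _ (by rwa [le_div_iff₀ hL])
      rw [h0, zero_mul]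
      refine (Finset.sum_eq_zero fun n _ => ?_).symm
      rw [indicator_apply, h0, zero_mul, ite_self, mul_zero]
    · push Not at hu
      unfold dg
      rw [SS_diff _ hX hs (by linarith), Finset.mul_sum, Finset.mul_sum]
      refine Finset.sum_congr rfl fun n _ => ?_
      rw [indicator_apply]
      by_cases hn : u < Real.log n ∧ Real.log n ≤ u + s
      · rw [if_pos hn, if_pos ⟨by linarith [hn.2], hn.1⟩]
        ring
      · rw [if_neg hn, if_neg (fun h3 : u ∈ Ico _ _ => hn ⟨h3.2, by linarith [h3.1]⟩)]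
        ring
  have hi : ∀ n : ℕ, Integrable ((Ico (Real.log n - s) (Real.log n)).indicator
      (fun u => g (u / L) * Real.exp (-u))) := by
    intro n
    rw [integrable_indicator_iff measurableSet_Ico]
    exact (Continuous.integrableOn_Icc (by fun_prop)).mono_set Ico_subset_Icc_self
  simp_rw [e]
  rw [integral_finsetSum _ fun n _ => (hi n).const_mul _]
  refine Finset.sum_congr rfl fun n _ => ?_
  rw [integral_const_mul, integral_indicator measurableSet_Ico]

/-- the increment of the logarithm -/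
def sg (T : ℝ) : ℝ := Real.log (1 + T⁻¹)

lemma sg_pos {T : ℝ} (hT : 0 < T) : 0 < sg T := Real.log_pos (by
  have := inv_pos.2 hT
  linarith)

lemma sg_le {T : ℝ} (hT : 0 < T) : sg T ≤ T⁻¹ := by
  have h1 := inv_pos.2 hT
  have := Real.log_le_sub_one_of_pos (show 0 < 1 + T⁻¹ by linarith)
  unfold sg
  linarith

lemma sg_lim : Tendsto (fun T => T * sg T) atTop (𝓝 1) := by
  refine sc1.congr fun T => ?_
  unfold sg
  rw [div_inv_eq_mul]

/-- **the diagonal**: the limit -/
theorem dg_lim (hk : 1 ≤ k) {g : ℝ → ℝ} {b R C1 S : ℝ} (h : Ga g b R C1 S) (hb0 : 0 < b) (hb : b < 2) :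
    Tendsto (fun T => (∫ u, g (u / Real.log T) * dg k (sg T) u) / Nh (k ^ 2) T) atTop (𝓝 (El k g)) := by
  have hX := (W182.KO.diag_real hk g h.cont b hb0.le h.out).comp Real.tendsto_log_atTop
  have hY := (W182.KO.diag_real hk cφ cφ_cont 2 (by norm_num) fun u hu => cφ_zero hu).comp
    (Real.tendsto_log_atTop.const_mul_atTop (show (0:ℝ) < 2 by norm_num))
  have hS0 : 0 ≤ S := (abs_nonneg _).trans (h.bd 0)
  have hs0 : Tendsto sg atTop (𝓝 0) := by
    refine squeeze_zero' ?_ ?_ (tendsto_inv_atTop_zero (𝕜 := ℝ))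
    · filter_upwards [eventually_gt_atTop 0] with T hT
      exact (sg_pos hT).le
    · filter_upwards [eventually_gt_atTop 0] with T hT
      exact sg_le hT
  have hE : Tendsto (fun T : ℝ => ((3 * C1 + 2 * S) * (T * sg T) * sg T * 2 ^ (k ^ 2)) *
      ((∑' n : ℕ, (W182.KO.dk k n : ℝ) * W182.KO.dk k n / n * cφ (Real.log n / (2 * Real.log T))) /
        (2 * Real.log T) ^ (((k:ℕ):ℝ) ^ 2))) atTop (𝓝 0) := by
    have h1 := (((sg_lim.const_mul (3 * C1 + 2 * S)).mul hs0).mul_const ((2:ℝ) ^ (k ^ 2))).mul hY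
    rwa [mul_zero, zero_mul, zero_mul] at h1
  have key : Tendsto (fun T => (∫ u, g (u / Real.log T) * dg k (sg T) u) / Nh (k ^ 2) T -
      (T * sg T) * ((∑' n : ℕ, (W182.KO.dk k n : ℝ) * W182.KO.dk k n / n * g (Real.log n / Real.log T)) /
        Real.log T ^ (((k:ℕ):ℝ) ^ 2))) atTop (𝓝 0) := by
    rw [tendsto_zero_iff_abs_tendsto_zero]
    have hb' : 0 < 2 - b := by linarith
    refine squeeze_zero' (Eventually.of_forall fun T => abs_nonneg _) ?_ hE
    filter_upwards [eventually_ge_atTop 2, Real.tendsto_log_atTop.eventually_ge_atTop 1,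
      Real.tendsto_log_atTop.eventually_ge_atTop (1 / (2 - b))] with T c1 c2 c3
    have hT0 : 0 < T := by linarith
    have hT1 : 1 < T := by linarith
    have hi : 0 < T⁻¹ := inv_pos.2 hT0
    have hi1 : T⁻¹ ≤ 1 := inv_le_one_of_one_le₀ hT1.le
    have hL : 0 < Real.log T := by linarith
    have hX0 : 0 < T ^ 2 := by positivity
    have hlX : Real.log (T ^ 2) = 2 * Real.log T := by rw [Real.log_pow]; push_cast; ring
    have hX1 : 1 < T ^ 2 := by nlinarith
    have s0 := sg_pos hT0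
    have s1 := sg_le hT0
    set s := sg T with hsd
    have hq : ∀ x : ℝ, x ^ (((k:ℕ):ℝ) ^ 2) = x ^ (k ^ 2) := by
      intro x
      have e0 : ((k:ℕ):ℝ) ^ 2 = ((k ^ 2 : ℕ) : ℝ) := by push_cast; ring
      rw [e0, Real.rpow_natCast]
    have hLq : 0 < Real.log T ^ (k ^ 2) := pow_pos hL _
    have hbs : b * Real.log T + s ≤ Real.log (T ^ 2) := by
      rw [hlX]
      have h4 : 1 ≤ (2 - b) * Real.log T := by
        have := mul_le_mul_of_nonneg_left c3 hb'.le
        rwa [mul_one_div_cancel hb'.ne'] at this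
      linarith
    simp only [Function.comp]
    rw [hq, hq, Nh_eq _ hT0, dg_int k h.cont hX0 hL s0.le h.out hbs]
    have hdq : ∑ n ∈ Finset.Icc 1 ⌊T ^ 2⌋₊, (W182.KO.dk k n : ℝ) ^ 2 * (g (Real.log n / Real.log T) / n) =
        ∑' n : ℕ, (W182.KO.dk k n : ℝ) * W182.KO.dk k n / n * g (Real.log n / Real.log T) := by
      have h4 := dsum_eq k (g := fun v => g (2 * v)) (b := b / 2) hX1 (fun v hv => h.out _ (by linarith))
        (by linarith)
      rw [hlX] at h4
      have e5 : ∀ n : ℕ, 2 * (Real.log n / (2 * Real.log T)) = Real.log n / Real.log T := fun n => by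
        field_simp
      simp only [e5] at h4
      exact h4
    rw [← hdq]
    have e1 : (∑ n ∈ Finset.Icc 1 ⌊T ^ 2⌋₊, (W182.KO.dk k n : ℝ) ^ 2 *
        ∫ u in Ico (Real.log n - s) (Real.log n), g (u / Real.log T) * Real.exp (-u)) /
          (T⁻¹ * Real.log T ^ (k ^ 2)) -
        (T * s) * ((∑ n ∈ Finset.Icc 1 ⌊T ^ 2⌋₊, (W182.KO.dk k n : ℝ) ^ 2 * (g (Real.log n / Real.log T) / n)) /
          Real.log T ^ (k ^ 2)) =
        (∑ n ∈ Finset.Icc 1 ⌊T ^ 2⌋₊, (W182.KO.dk k n : ℝ) ^ 2 *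
        ((∫ u in Ico (Real.log n - s) (Real.log n), g (u / Real.log T) * Real.exp (-u)) -
          s * (g (Real.log n / Real.log T) / n))) / (T⁻¹ * Real.log T ^ (k ^ 2)) := by
      simp only [mul_sub, Finset.sum_sub_distrib, sub_div]
      congr 1
      have e2 : ∀ n : ℕ, (W182.KO.dk k n : ℝ) ^ 2 * (s * (g (Real.log n / Real.log T) / n)) =
          s * ((W182.KO.dk k n : ℝ) ^ 2 * (g (Real.log n / Real.log T) / n)) := fun n => by ring
      simp only [e2]
      rw [← Finset.mul_sum]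
      field_simp
    rw [e1, abs_div, abs_of_pos (mul_pos hi hLq), div_le_iff₀ (mul_pos hi hLq)]
    have h2 : |∑ n ∈ Finset.Icc 1 ⌊T ^ 2⌋₊, (W182.KO.dk k n : ℝ) ^ 2 *
        ((∫ u in Ico (Real.log n - s) (Real.log n), g (u / Real.log T) * Real.exp (-u)) -
          s * (g (Real.log n / Real.log T) / n))| ≤
        ∑ n ∈ Finset.Icc 1 ⌊T ^ 2⌋₊, ((3 * C1 + 2 * S) * s ^ 2) * ((W182.KO.dk k n : ℝ) ^ 2 / n) := by
      refine (Finset.abs_sum_le_sum_abs _ _).trans (Finset.sum_le_sum fun n hn => ?_)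
      rw [abs_mul, abs_of_nonneg (by positivity)]
      have h3 := int_cell h.cont h.hC1 h.bd h.lip (Finset.mem_Icc.1 hn).1 s0.le (by linarith : s ≤ 1) c2
      calc (W182.KO.dk k n : ℝ) ^ 2 * |(∫ u in Ico (Real.log n - s) (Real.log n), g (u / Real.log T) *
            Real.exp (-u)) - s * (g (Real.log n / Real.log T) / n)| ≤
            (W182.KO.dk k n : ℝ) ^ 2 * ((3 * C1 + 2 * S) * s ^ 2 / n) :=
            mul_le_mul_of_nonneg_left h3 (by positivity)
        _ = _ := by ring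
    refine h2.trans ?_
    rw [← Finset.mul_sum]
    have h4 := dsum_le k hX1
    rw [hlX] at h4
    have h5 : 0 ≤ (3 * C1 + 2 * S) * s ^ 2 := by
      have := h.hC1
      positivity
    refine (mul_le_mul_of_nonneg_left h4 h5).trans (le_of_eq ?_)
    rw [mul_pow]
    field_simp
  have h3 := key.add (sg_lim.mul hX)
  rw [zero_add, one_mul] at h3
  refine h3.congr fun T => ?_
  simp only [Function.comp]
  ring

end

end Pool.Agent.J4.H32.VS
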