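import Pool.Agent.J4.H32.VS.U2

set_option autoImplicit false

/-! The Gaussian smoothing of the short interval and its Fourier transform. -/

namespace Pool.Agent.J4.H32.VS

open Complex MeasureTheory Filter Topology Set Metric Pool.Agent.TH535.SM Pool.Agent.R446.KR
open scoped FourierTransform ComplexConjugate

noncomputable section

/-- the multiplier of a short interval -/
def kap (h t : ℝ) : ℂ := ∫ r in (0:ℝ)..h, cexp (r * (1 / 2 + t * I))

/-- the weighted function on the line -/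
def Gb (k : ℕ) (h ε t : ℝ) : ℂ := kap h t * Fh k ε t

/-- the smoothing of the short interval -/
def Bh (k : ℕ) (h ε u : ℝ) : ℂ := (((√(2 * Real.pi) * ε : ℝ) : ℂ))⁻¹ *
  ∫ x : ℝ, ((Real.exp (-(x ^ 2 / (2 * ε ^ 2))) : ℝ) : ℂ) * Ee k h (u + x)

lemma kap_cont (h : ℝ) : Continuous (kap h) := by
  unfold kap
  refine intervalIntegral.continuous_parametric_intervalIntegral_of_continuous' ?_ _ _
  fun_prop

lemma exp_half_norm (r t : ℝ) : ‖cexp (r * (1 / 2 + t * I))‖ = Real.exp (r / 2) := by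
  rw [Complex.norm_exp, Complex.re_ofReal_mul]
  congr 1
  simp
  ring

lemma kap_norm {h : ℝ} (hh : 0 ≤ h) (t : ℝ) : ‖kap h t‖ ≤ h * Real.exp (h / 2) := by
  unfold kap
  have h1 := intervalIntegral.norm_integral_le_of_norm_le_const (a := 0) (b := h)
    (f := fun r : ℝ => cexp (r * (1 / 2 + t * I))) (C := Real.exp (h / 2)) (fun r hr => by
      rw [uIoc_of_le hh] at hr
      rw [exp_half_norm]
      exact Real.exp_le_exp.2 (by linarith [hr.2]))
  rw [sub_zero, abs_of_nonneg hh] at h1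
  linarith

lemma kap_eq (h t : ℝ) : kap h t = (cexp (h * (1 / 2 + t * I)) - 1) / (1 / 2 + t * I) := by
  have hc : (1 / 2 + t * I : ℂ) ≠ 0 := by
    intro h0
    have := congrArg Complex.re h0
    simp at this
  have h1 := integral_exp_mul_complex (a := 0) (b := h) hc
  unfold kap
  have e : ∫ r in (0:ℝ)..h, cexp (r * (1 / 2 + t * I)) = ∫ r in (0:ℝ)..h, cexp ((1 / 2 + t * I) * r) :=
    intervalIntegral.integral_congr fun r _ => by simp only [mul_comm]
  rw [e, h1]
  simp only [Complex.ofReal_zero, mul_zero, Complex.exp_zero]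
  rw [mul_comm]

lemma kap_dec {h : ℝ} (hh1 : h ≤ 1) (t : ℝ) : ‖kap h t‖ * |t| ≤ 3 := by
  rw [kap_eq, norm_div]
  have h1 : |t| ≤ ‖(1 / 2 + t * I : ℂ)‖ := by
    have := Complex.abs_im_le_norm (1 / 2 + t * I : ℂ)
    have e : (1 / 2 + t * I : ℂ).im = t := by simp
    rwa [e] at this
  have h0 : 0 < ‖(1 / 2 + t * I : ℂ)‖ := by
    have := Complex.abs_re_le_norm (1 / 2 + t * I : ℂ)
    have e : (1 / 2 + t * I : ℂ).re = 1 / 2 := by simp
    rw [e] at this
    exact lt_of_lt_of_le (by norm_num) this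
  have h2 : ‖cexp (h * (1 / 2 + t * I)) - 1‖ ≤ 3 := by
    refine (norm_sub_le _ _).trans ?_
    rw [exp_half_norm, norm_one]
    have h3 : Real.exp (h / 2) ≤ Real.exp (1 / 2) := Real.exp_le_exp.2 (by linarith)
    have h4 : Real.exp (1 / 2) ≤ 2 := by
      have h5 : Real.exp (1 / 2) ^ 2 = Real.exp 1 := by rw [← Real.exp_nat_mul]; norm_num
      have h6 := Real.exp_one_lt_d9
      nlinarith [Real.exp_pos (1 / 2)]
    linarith
  rw [div_mul_eq_mul_div, div_le_iff₀ h0]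
  exact mul_le_mul h2 h1 (abs_nonneg _) (by norm_num)

lemma Gb_dec (k : ℕ) {h ε : ℝ} (hh : 0 ≤ h) (hε : 0 < ε) : Dec (Gb k h ε) := by
  have hF := Fh_dec k hε
  obtain ⟨B, hB, hb⟩ := hF.bd
  refine ⟨(kap_cont h).mul hF.cont, h * Real.exp (h / 2) * B, by positivity, fun t => ?_⟩
  unfold Gb
  rw [norm_mul, mul_assoc]
  exact mul_le_mul (kap_norm hh t) (hb t) (norm_nonneg _) (by positivity)

/-- exchanging integrals over `(0,h] × ℝ` -/
lemma swap_Ioc {h : ℝ} {H : ℝ → ℝ → ℂ} {b : ℝ → ℝ}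
    (hm : AEStronglyMeasurable (Function.uncurry H) ((volume.restrict (Ioc 0 h)).prod volume))
    (hb : Integrable b) (hH : ∀ r ∈ Ioc 0 h, ∀ x, ‖H r x‖ ≤ b x) :
    ∫ r in Ioc 0 h, ∫ x, H r x = ∫ x, ∫ r in Ioc 0 h, H r x := by
  have hi : Integrable (Function.uncurry H) ((volume.restrict (Ioc 0 h)).prod volume) := by
    have h1 : Integrable (fun p : ℝ × ℝ => (1:ℝ) * b p.2) ((volume.restrict (Ioc 0 h)).prod volume) :=
      (integrable_const (1:ℝ)).mul_prod hb
    refine h1.mono' hm ?_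
    have h2 : ∀ᵐ p : ℝ × ℝ ∂((volume.restrict (Ioc 0 h)).prod volume), p.1 ∈ Ioc (0:ℝ) h := by
      have h3 : ∀ᵐ θ ∂(volume.restrict (Ioc 0 h)), θ ∈ Ioc (0:ℝ) h := ae_restrict_mem measurableSet_Ioc
      exact Measure.quasiMeasurePreserving_fst.ae h3
    filter_upwards [h2] with p hp
    rw [one_mul]
    exact hH _ hp _
  exact integral_integral_swap hi

lemma way1 (k : ℕ) {h ε : ℝ} (hh : 0 ≤ h) (hε : 0 < ε) (u : ℝ) :
    ∫ r in Ioc 0 h, ((Real.exp (r / 2) : ℝ) : ℂ) * Dl k ε (u + r) =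
      ((ε / √(2 * Real.pi) : ℝ) : ℂ) * ∫ t : ℝ, cexp (u * t * I) * Gb k h ε t := by
  have hF := Fh_dec k hε
  have e1 : ∀ r : ℝ, ((Real.exp (r / 2) : ℝ) : ℂ) * Dl k ε (u + r) = ((ε / √(2 * Real.pi) : ℝ) : ℂ) *
      ∫ t : ℝ, cexp (r * (1 / 2 + t * I)) * (cexp (u * t * I) * Fh k ε t) := by
    intro r
    rw [Dl_eq k hε, mul_left_comm, ← integral_const_mul (((Real.exp (r / 2) : ℝ) : ℂ))]
    congr 1
    refine integral_congr_ae (Eventually.of_forall fun t => ?_)
    simp only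
    rw [← mul_assoc, ← mul_assoc, Complex.ofReal_exp, ← Complex.exp_add, ← Complex.exp_add]
    congr 2
    push_cast
    ring
  simp_rw [e1]
  rw [integral_const_mul, swap_Ioc (b := fun t => Real.exp (h / 2) * ‖Fh k ε t‖)]
  · congr 1
    refine integral_congr_ae (Eventually.of_forall fun t => ?_)
    simp only
    rw [integral_mul_const]
    unfold Gb kap
    rw [intervalIntegral.integral_of_le hh]
    ring
  · have := hF.cont
    refine Continuous.aestronglyMeasurable ?_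
    unfold Function.uncurry
    fun_prop
  · exact hF.int.norm.const_mul _
  · intro r hr t
    have e2 : cexp (u * t * I) = cexp ((u * t : ℝ) * I) := by push_cast; rfl
    rw [norm_mul, norm_mul, exp_half_norm, e2, Complex.norm_exp_ofReal_mul_I, one_mul]
    exact mul_le_mul_of_nonneg_right (Real.exp_le_exp.2 (by linarith [hr.2])) (norm_nonneg _)

lemma mk_shift {h ε : ℝ} (hε : 0 < ε) {r x : ℝ} (hr0 : 0 ≤ r) (hr : r ≤ h) : |mk ε (x - r)| ≤
    (1 / ε ^ 2 + 1) * (1 + h) * Real.exp (h / 2 + h ^ 2 / (2 * ε ^ 2)) *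
      ((1 + |x|) * Real.exp (1 / 2 * |x| - 1 / (4 * ε ^ 2) * x ^ 2)) := by
  refine (mk_le ε (x - r)).trans ?_
  have h1 : |x - r| ≤ |x| + h := (abs_sub _ _).trans (by rw [abs_of_nonneg hr0]; linarith)
  have h2 : x ^ 2 / 2 - h ^ 2 ≤ (x - r) ^ 2 := by nlinarith [sq_nonneg (x - 2 * r)]
  have hx := abs_nonneg x
  have hh : 0 ≤ h := hr0.trans hr
  have h3 : 1 + |x - r| ≤ (1 + h) * (1 + |x|) := by nlinarith
  have h4 : Real.exp (1 / 2 * |x - r| - 1 / (2 * ε ^ 2) * (x - r) ^ 2) ≤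
      Real.exp (h / 2 + h ^ 2 / (2 * ε ^ 2)) * Real.exp (1 / 2 * |x| - 1 / (4 * ε ^ 2) * x ^ 2) := by
    rw [← Real.exp_add]
    refine Real.exp_le_exp.2 ?_
    have h5 : 1 / (2 * ε ^ 2) * (x ^ 2 / 2 - h ^ 2) ≤ 1 / (2 * ε ^ 2) * (x - r) ^ 2 :=
      mul_le_mul_of_nonneg_left h2 (by positivity)
    have e5 : 1 / (2 * ε ^ 2) * (x ^ 2 / 2 - h ^ 2) = 1 / (4 * ε ^ 2) * x ^ 2 - h ^ 2 / (2 * ε ^ 2) := by
      field_simp; ring
    linarith
  calc (1 / ε ^ 2 + 1) * ((1 + |x - r|) * Real.exp (1 / 2 * |x - r| - 1 / (2 * ε ^ 2) * (x - r) ^ 2)) ≤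
        (1 / ε ^ 2 + 1) * (((1 + h) * (1 + |x|)) * (Real.exp (h / 2 + h ^ 2 / (2 * ε ^ 2)) *
          Real.exp (1 / 2 * |x| - 1 / (4 * ε ^ 2) * x ^ 2))) := by gcongr
    _ = _ := by ring

lemma mk_prim (ε x h : ℝ) : ∫ r in (0:ℝ)..h, mk ε (x - r) = Kt ε (x - h) - Kt ε x := by
  have hd : ∀ r ∈ uIcc 0 h, HasDerivAt (fun r : ℝ => Kt ε (x - r)) (mk ε (x - r)) r := by
    intro r _
    have h1 := (Kt_deriv ε (x - r))
    have h2 : HasDerivAt (fun r : ℝ => x - r) (-1) r := by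
      simpa using (hasDerivAt_id' r).const_sub x
    exact (h1.comp r h2).congr_deriv (by ring)
  have hc : Continuous (fun r : ℝ => mk ε (x - r)) := (mk_cont ε).comp (by fun_prop)
  rw [intervalIntegral.integral_eq_sub_of_hasDerivAt hd (hc.intervalIntegrable _ _), sub_zero]

lemma KD_int (k : ℕ) {ε : ℝ} (hε : 0 < ε) (u : ℝ) : Integrable (fun x => (Kt ε x : ℂ) * D0 k (u + x)) := by
  obtain ⟨C, hC, hb⟩ := D0_bd k
  refine ((Kt_int 2 hε).const_mul (C * Real.exp (2 * |u|))).mono' ?_ (Eventually.of_forall fun x => ?_)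
  · exact ((Complex.measurable_ofReal.comp (Kt_cont ε).measurable).mul
      ((D0_meas k).comp (measurable_const.add measurable_id))).aestronglyMeasurable
  · rw [norm_mul, Complex.norm_real, Real.norm_of_nonneg (Kt_pos ε x).le]
    have h1 := hb (u + x)
    have h2 : Real.exp (2 * |u + x|) ≤ Real.exp (2 * |u|) * Real.exp (2 * |x|) := by
      rw [← Real.exp_add]
      exact Real.exp_le_exp.2 (by linarith [abs_add_le u x])
    have hK := (Kt_pos ε x).le
    calc Kt ε x * ‖D0 k (u + x)‖ ≤ Kt ε x * (C * (Real.exp (2 * |u|) * Real.exp (2 * |x|))) := by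
          refine mul_le_mul_of_nonneg_left (h1.trans ?_) hK
          exact mul_le_mul_of_nonneg_left h2 (by linarith)
      _ = _ := by ring

lemma way2 (k : ℕ) {h ε : ℝ} (hh : 0 ≤ h) (hε : 0 < ε) (u : ℝ) :
    ∫ r in Ioc 0 h, ((Real.exp (r / 2) : ℝ) : ℂ) * Dl k ε (u + r) =
      ∫ x : ℝ, ((Real.exp (-(x ^ 2 / (2 * ε ^ 2))) : ℝ) : ℂ) * Ee k h (u + x) := by
  obtain ⟨C, hC, hb⟩ := D0_bd k
  have e1 : ∀ r : ℝ, ((Real.exp (r / 2) : ℝ) : ℂ) * Dl k ε (u + r) = ((Real.exp (-(u / 2)) : ℝ) : ℂ) *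
      ∫ x : ℝ, (mk ε (x - r) : ℂ) * D0 k (u + x) := by
    intro r
    rw [(Dl_D0 k hε (u + r)).2, ← mul_assoc, ← Complex.ofReal_mul, ← Real.exp_add]
    have e2 := integral_sub_right_eq_self (μ := volume) (fun s : ℝ => (mk ε s : ℂ) * D0 k (u + r + s)) r
    rw [← e2]
    congr 1
    · congr 2
      ring
    · refine integral_congr_ae (Eventually.of_forall fun x => ?_)
      simp only
      congr 2
      ring
  simp_rw [e1]
  rw [integral_const_mul, swap_Ioc (b := fun x => (1 / ε ^ 2 + 1) * (1 + h) *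
      Real.exp (h / 2 + h ^ 2 / (2 * ε ^ 2)) * (C * Real.exp (2 * |u|)) *
      ((1 + |x|) ^ 1 * Real.exp (5 / 2 * |x| - 1 / (4 * ε ^ 2) * x ^ 2)))]
  · have e3 : ∀ x : ℝ, ∫ r in Ioc 0 h, (mk ε (x - r) : ℂ) * D0 k (u + x) =
        (Kt ε (x - h) : ℂ) * D0 k (u + x) - (Kt ε x : ℂ) * D0 k (u + x) := by
      intro x
      rw [integral_mul_const, ← intervalIntegral.integral_of_le hh, intervalIntegral.integral_ofReal, mk_prim]
      push_cast
      ring
    simp_rw [e3]
    have i1 : Integrable (fun x : ℝ => (Kt ε (x - h) : ℂ) * D0 k (u + x)) := by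
      have h1 := (KD_int k hε (u + h)).comp_sub_right h
      refine h1.congr (Eventually.of_forall fun x => ?_)
      simp only
      congr 2
      ring
    rw [integral_sub i1 (KD_int k hε u)]
    have e4 : ∫ x : ℝ, (Kt ε (x - h) : ℂ) * D0 k (u + x) = ∫ x : ℝ, (Kt ε x : ℂ) * D0 k (u + h + x) := by
      rw [← integral_sub_right_eq_self (μ := volume) (fun x : ℝ => (Kt ε x : ℂ) * D0 k (u + h + x)) h]
      refine integral_congr_ae (Eventually.of_forall fun x => ?_)
      simp only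
      congr 2
      ring
    rw [e4, ← integral_sub (KD_int k hε (u + h)) (KD_int k hε u), ← integral_const_mul]
    refine integral_congr_ae (Eventually.of_forall fun x => ?_)
    simp only
    have e6 : Real.exp (-(u / 2)) * Kt ε x = Real.exp (-(x ^ 2 / (2 * ε ^ 2))) * Real.exp (-((u + x) / 2)) := by
      unfold Kt
      rw [← Real.exp_add, ← Real.exp_add]
      congr 1
      ring
    unfold Ee
    rw [← mul_sub, ← mul_assoc, ← mul_assoc, ← Complex.ofReal_mul, ← Complex.ofReal_mul, e6,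
      show u + h + x = u + x + h by ring]
  · refine Measurable.aestronglyMeasurable ?_
    unfold Function.uncurry
    refine Measurable.mul ?_ ?_
    · have := mk_cont ε
      exact Continuous.measurable (by fun_prop)
    · exact (D0_meas k).comp (measurable_const.add measurable_snd)
  · exact (ge_int 1 (5 / 2) (c := 1 / (4 * ε ^ 2)) (by positivity)).const_mul _
  · intro r hr x
    rw [norm_mul, Complex.norm_real, Real.norm_eq_abs]
    have h1 := mk_shift hε (x := x) hr.1.le hr.2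
    have h2 := hb (u + x)
    have h3 : Real.exp (2 * |u + x|) ≤ Real.exp (2 * |u|) * Real.exp (2 * |x|) := by
      rw [← Real.exp_add]
      exact Real.exp_le_exp.2 (by linarith [abs_add_le u x])
    have h4 : ‖D0 k (u + x)‖ ≤ C * (Real.exp (2 * |u|) * Real.exp (2 * |x|)) :=
      h2.trans (mul_le_mul_of_nonneg_left h3 (by linarith))
    have e5 : Real.exp (5 / 2 * |x| - 1 / (4 * ε ^ 2) * x ^ 2) =
        Real.exp (1 / 2 * |x| - 1 / (4 * ε ^ 2) * x ^ 2) * Real.exp (2 * |x|) := by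
      rw [← Real.exp_add]; congr 1; ring
    calc |mk ε (x - r)| * ‖D0 k (u + x)‖ ≤ _ := mul_le_mul h1 h4 (norm_nonneg _) (by positivity)
      _ = _ := by rw [e5, pow_one]; ring

/-- the Fourier representation of the smoothing -/
theorem Bh_ft (k : ℕ) {h ε : ℝ} (hh : 0 ≤ h) (hε : 0 < ε) (u : ℝ) :
    Bh k h ε u = ((1 / (2 * Real.pi) : ℝ) : ℂ) * 𝓕 (Gb k h ε) (-(u / (2 * Real.pi))) := by
  have hp : 0 < √(2 * Real.pi) := by positivity
  have h1 : √(2 * Real.pi) * √(2 * Real.pi) = 2 * Real.pi := Real.mul_self_sqrt (by positivity)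
  unfold Bh
  rw [← way2 k hh hε, way1 k hh hε, ft_eq, ← mul_assoc, ← Complex.ofReal_inv, ← Complex.ofReal_mul]
  have e1 : (√(2 * Real.pi) * ε)⁻¹ * (ε / √(2 * Real.pi)) = 1 / (2 * Real.pi) := by
    rw [mul_inv, mul_assoc, ← mul_div_assoc, inv_mul_cancel₀ hε.ne', ← div_eq_inv_mul, div_div, h1]
  rw [e1]
  congr 1
  refine integral_congr_ae (Eventually.of_forall fun t => ?_)
  simp only
  congr 2
  have hpi : (Real.pi : ℂ) ≠ 0 := by exact_mod_cast Real.pi_ne_zero
  push_cast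
  field_simp

/-- the smoothing converges almost everywhere -/
theorem Bh_lim (k : ℕ) (h : ℝ) : ∀ᵐ u : ℝ, Tendsto (fun ε => Bh k h ε u) (𝓝[>] 0) (𝓝 (Ee k h u)) := by
  obtain ⟨C, hC, hb⟩ := Ee_bd k
  filter_upwards [Ee_contAt k h] with u hu
  have h1 : Tendsto (fun ε : ℝ => ∫ y : ℝ, ((Real.exp (-y ^ 2 / 2) : ℝ) : ℂ) * Ee k h (u + ε * y)) (𝓝[>] 0)
      (𝓝 (∫ y : ℝ, ((Real.exp (-y ^ 2 / 2) : ℝ) : ℂ) * Ee k h u)) := by
    refine tendsto_integral_filter_of_dominated_convergence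
      (fun y => C * Real.exp (3 * |u| + 2 * |h|) * ((1 + |y|) ^ 0 * Real.exp (3 * |y| - 1 / 2 * y ^ 2))) ?_ ?_
      ((ge_int 0 3 (c := 1 / 2) (by norm_num)).const_mul _) ?_
    · refine Eventually.of_forall fun ε => ?_
      exact (Measurable.mul (Continuous.measurable (by fun_prop))
        ((Ee_meas k h).comp (by fun_prop))).aestronglyMeasurable
    · filter_upwards [self_mem_nhdsWithin, Ioc_mem_nhdsGT (show (0:ℝ) < 1 by norm_num)] with ε hε hε1
      refine Eventually.of_forall fun y => ?_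
      have hε0 : 0 < ε := hε
      rw [norm_mul, Complex.norm_real, Real.norm_of_nonneg (Real.exp_pos _).le]
      have h2 := hb h (u + ε * y)
      have h3 : |u + ε * y| ≤ |u| + |y| := by
        refine (abs_add_le _ _).trans ?_
        rw [abs_mul, abs_of_pos hε0]
        have : ε * |y| ≤ 1 * |y| := mul_le_mul_of_nonneg_right hε1.2 (abs_nonneg _)
        linarith
      have h4 : Real.exp (3 * |u + ε * y| + 2 * |h|) ≤ Real.exp (3 * |u| + 2 * |h|) * Real.exp (3 * |y|) := by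
        rw [← Real.exp_add]
        exact Real.exp_le_exp.2 (by linarith)
      have e5 : Real.exp (3 * |y| - 1 / 2 * y ^ 2) = Real.exp (-y ^ 2 / 2) * Real.exp (3 * |y|) := by
        rw [← Real.exp_add]; congr 1; ring
      calc Real.exp (-y ^ 2 / 2) * ‖Ee k h (u + ε * y)‖ ≤
            Real.exp (-y ^ 2 / 2) * (C * (Real.exp (3 * |u| + 2 * |h|) * Real.exp (3 * |y|))) := by
            refine mul_le_mul_of_nonneg_left (h2.trans ?_) (Real.exp_pos _).le
            exact mul_le_mul_of_nonneg_left h4 (by linarith)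
        _ = _ := by rw [e5]; ring
    · refine Eventually.of_forall fun y => ?_
      refine Tendsto.const_mul _ ?_
      have h5 : Tendsto (fun ε : ℝ => u + ε * y) (𝓝[>] 0) (𝓝 u) := by
        have h6 : Tendsto (fun ε : ℝ => u + ε * y) (𝓝 0) (𝓝 (u + 0 * y)) :=
          (by fun_prop : Continuous fun ε : ℝ => u + ε * y).tendsto 0
        rw [zero_mul, add_zero] at h6
        exact h6.mono_left nhdsWithin_le_nhds
      exact hu.tendsto.comp h5
  have hp : 0 < √(2 * Real.pi) := by positivity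
  have hpc : ((√(2 * Real.pi) : ℝ) : ℂ) ≠ 0 := by exact_mod_cast hp.ne'
  have e2 : ∫ y : ℝ, ((Real.exp (-y ^ 2 / 2) : ℝ) : ℂ) * Ee k h u = ((√(2 * Real.pi) : ℝ) : ℂ) * Ee k h u := by
    rw [integral_mul_const, integral_complex_ofReal, g_val2]
  rw [e2] at h1
  have h2 := h1.const_mul (((√(2 * Real.pi) : ℝ) : ℂ))⁻¹
  rw [inv_mul_cancel_left₀ hpc] at h2
  refine h2.congr' ?_
  filter_upwards [self_mem_nhdsWithin] with ε hε
  have hε0 : 0 < ε := hε
  unfold Bh
  have h3 := Measure.integral_comp_mul_left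
    (fun x : ℝ => ((Real.exp (-(x ^ 2 / (2 * ε ^ 2))) : ℝ) : ℂ) * Ee k h (u + x)) ε
  rw [abs_inv, abs_of_pos hε0, Complex.real_smul] at h3
  have e4 : ∫ y : ℝ, ((Real.exp (-y ^ 2 / 2) : ℝ) : ℂ) * Ee k h (u + ε * y) =
      ∫ y : ℝ, ((Real.exp (-((ε * y) ^ 2 / (2 * ε ^ 2))) : ℝ) : ℂ) * Ee k h (u + ε * y) := by
    refine integral_congr_ae (Eventually.of_forall fun y => ?_)
    simp only
    congr 4
    field_simp
  rw [e4, h3]
  push_cast
  rw [mul_inv, mul_assoc]

end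

end Pool.Agent.J4.H32.VS
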