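import Pool.Agent.J4.H32.VS.U29

set_option autoImplicit false

/-! The moment and the correlations of the divisor function. -/

namespace Pool.Agent.J4.H32.VS

open Complex MeasureTheory Filter Topology Set Metric Pool.Agent.TH535.SM Pool.Agent.R446.KR
open Pool.Agent.J4.H44.LP
open Pool.Agent.W182.KO (TF P P_bound P_diff)
open scoped FourierTransform ComplexConjugate ContDiff Convolution

noncomputable section

variable {q k : ℕ}

/-- the correlations minus the main term -/
def co (k : ℕ) (s u : ℝ) : ℝ := Aq k s u - dg k s u - ‖pk k s u‖ ^ 2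

lemma Ee_dec (k : ℕ) (s u : ℝ) : ‖Ee k s u‖ ^ 2 = co k s u + dg k s u - 2 * (conj (pk k s u) * Ee k s u).re := by
  have e : Ee k s u = akk k s u - pk k s u := by
    have := Ee_akk k s u
    linear_combination this
  have h1 : ‖Ee k s u‖ ^ 2 = ‖akk k s u‖ ^ 2 + ‖pk k s u‖ ^ 2 - 2 * (akk k s u * conj (pk k s u)).re := by
    rw [e, ← Complex.normSq_eq_norm_sq, ← Complex.normSq_eq_norm_sq, ← Complex.normSq_eq_norm_sq,
      Complex.normSq_sub]
  have h2 : (conj (pk k s u) * Ee k s u).re = (akk k s u * conj (pk k s u)).re - ‖pk k s u‖ ^ 2 := by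
    rw [e, mul_sub, Complex.sub_re, mul_comm (conj (pk k s u)) (pk k s u), Complex.mul_conj,
      Complex.ofReal_re, Complex.normSq_eq_norm_sq, mul_comm]
  rw [h1, h2, akk_sq]
  unfold co
  ring

lemma dg_meas (k : ℕ) (s : ℝ) : Measurable (dg k s) := by
  have h : Monotone (SS (fun n => (W182.KO.dk k n : ℝ) ^ 2)) := by
    intro u v huv
    unfold SS
    refine Finset.sum_le_sum_of_subset_of_nonneg
      (Finset.Icc_subset_Icc_right (Nat.floor_le_floor (Real.exp_le_exp.2 huv))) fun n _ _ => by positivity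
  unfold dg
  exact (Real.measurable_exp.comp measurable_neg).mul ((h.measurable.comp (measurable_id.add_const s)).sub h.measurable)

lemma sq_sum_le {s : Finset ℕ} {d : ℕ → ℝ} (h : ∀ n ∈ s, 0 ≤ d n) : ∑ n ∈ s, d n ^ 2 ≤ (∑ n ∈ s, d n) ^ 2 := by
  rw [pow_two, Finset.sum_mul_sum]
  refine Finset.sum_le_sum fun n hn => ?_
  rw [pow_two]
  exact Finset.single_le_sum (f := fun m => d n * d m) (fun m hm => mul_nonneg (h n hn) (h m hm)) hn

lemma SS_nonneg {f : ℕ → ℝ} (hf : ∀ n, 0 ≤ f n) (u : ℝ) : 0 ≤ SS f u := Finset.sum_nonneg fun n _ => hf n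

lemma dg_bd (k : ℕ) (s u : ℝ) (hs : 0 ≤ s) : 0 ≤ dg k s u ∧ dg k s u ≤ Real.exp (-u) * (Z2 k * Real.exp (2 * (u + s))) ^ 2 := by
  have h : Monotone (SS (fun n => (W182.KO.dk k n : ℝ) ^ 2)) := by
    intro u v huv
    unfold SS
    refine Finset.sum_le_sum_of_subset_of_nonneg
      (Finset.Icc_subset_Icc_right (Nat.floor_le_floor (Real.exp_le_exp.2 huv))) fun n _ _ => by positivity
  have h0 := SS_nonneg (f := fun n => (W182.KO.dk k n : ℝ) ^ 2) (fun n => by positivity) u
  have h1 : SS (fun n => (W182.KO.dk k n : ℝ) ^ 2) (u + s) ≤ (Sk k (u + s)) ^ 2 := by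
    unfold SS Sk
    exact sq_sum_le fun n _ => by positivity
  have h2 := Sk_le k (u + s)
  have h3 := Sk_nonneg k (u + s)
  have h4 := h (show u ≤ u + s by linarith)
  unfold dg
  constructor
  · exact mul_nonneg (Real.exp_pos _).le (by linarith)
  · refine mul_le_mul_of_nonneg_left ?_ (Real.exp_pos _).le
    have : (Sk k (u + s)) ^ 2 ≤ (Z2 k * Real.exp (2 * (u + s))) ^ 2 := pow_le_pow_left₀ h3 h2 2
    linarith

lemma gd_integrable (k : ℕ) {s : ℝ} (hs : 0 ≤ s) {g : ℝ → ℝ} (hg : Continuous g) (hc : HasCompactSupport g) :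
    Integrable (fun u => g u * dg k s u) := by
  have h1 : Integrable (fun u => |g u| * (Real.exp (-u) * (Z2 k * Real.exp (2 * (u + s))) ^ 2)) := by
    refine Continuous.integrable_of_hasCompactSupport (by fun_prop) ?_
    have : HasCompactSupport (fun u => |g u|) := hc.comp_left (g := abs) abs_zero
    exact this.mul_right
  refine h1.mono' (hg.measurable.mul (dg_meas k s)).aestronglyMeasurable (Eventually.of_forall fun u => ?_)
  obtain ⟨a1, a2⟩ := dg_bd k s u hs
  rw [norm_mul, Real.norm_eq_abs, Real.norm_of_nonneg a1]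
  exact mul_le_mul_of_nonneg_left a2 (abs_nonneg _)

/-- the integral of the correlations -/
def Cw (k : ℕ) (w : ℝ → ℝ) (T : ℝ) : ℝ := (∫ u, w (u / Real.log T) * co k (sg T) u) / Nh (k ^ 2) T

lemma V1_dec (k : ℕ) {w : ℝ → ℝ} (hw : Continuous w) (hc : HasCompactSupport w) {T : ℝ} (hT : 1 < T) :
    V1 k (k ^ 2) w T = Cw k w T + (∫ u, w (u / Real.log T) * dg k (sg T) u) / Nh (k ^ 2) T -
      2 * ((∫ u, conj (Gx k w (Real.log T) (Real.log (1 + T⁻¹)) u) * Ee k (Real.log (1 + T⁻¹)) u).re / Nh (k ^ 2) T) := by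
  have hT0 : 0 < T := by linarith
  have hL := Real.log_pos hT
  have hs := (sg_pos hT0).le
  have e0 : Real.log (1 + T⁻¹) = sg T := rfl
  rw [e0]
  set s := sg T with hsd
  have cw : Continuous (fun u : ℝ => w (u / Real.log T)) := by fun_prop
  have sw := cs_div hc hL
  have i1 := gE_int k s cw sw
  have i2 := gd_integrable k hs cw sw
  have i3 : Integrable (fun u => conj (Gx k w (Real.log T) s u) * Ee k s u) := by
    obtain ⟨C, hC, hb⟩ := Ee_bd k
    have cG := Gx_cont k hw (Real.log T) s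
    have sG := Gx_cs k hc hL s
    have h1 : Integrable (fun u => ‖Gx k w (Real.log T) s u‖ * (C * Real.exp (3 * |u| + 2 * |s|))) :=
      Continuous.integrable_of_hasCompactSupport (by fun_prop) sG.norm.mul_right
    refine h1.mono' ?_ (Eventually.of_forall fun u => ?_)
    · have : Continuous (fun z : ℂ => conj z) := Complex.continuous_conj
      exact ((this.comp cG).measurable.mul (Ee_meas k s)).aestronglyMeasurable
    · rw [norm_mul, RCLike.norm_conj]
      exact mul_le_mul_of_nonneg_left (hb _ _) (norm_nonneg _)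
  have i4 : Integrable (fun u => (conj (Gx k w (Real.log T) s u) * Ee k s u).re) := i3.re
  have e1 : ∀ u, w (u / Real.log T) * ‖Ee k s u‖ ^ 2 = w (u / Real.log T) * co k s u +
      w (u / Real.log T) * dg k s u - 2 * (conj (Gx k w (Real.log T) s u) * Ee k s u).re := by
    intro u
    rw [Ee_dec]
    unfold Gx
    rw [map_mul, Complex.conj_ofReal, mul_assoc, Complex.re_ofReal_mul]
    ring
  have i5 : Integrable (fun u => w (u / Real.log T) * co k s u) := by
    have h1 := (i1.sub i2).add (i4.const_mul 2)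
    refine h1.congr (Eventually.of_forall fun u => ?_)
    simp only [Pi.add_apply, Pi.sub_apply]
    rw [e1]
    ring
  unfold V1 Cw Af
  simp only [sub_zero]
  rw [e0, ← hsd]
  have e2 : ∫ u, w (u / Real.log T) * ‖Ee k s u‖ ^ 2 = (∫ u, w (u / Real.log T) * co k s u) +
      (∫ u, w (u / Real.log T) * dg k s u) - 2 * (∫ u, conj (Gx k w (Real.log T) s u) * Ee k s u).re := by
    simp_rw [e1]
    have i6 : Integrable (fun u => w (u / Real.log T) * co k s u + w (u / Real.log T) * dg k s u) := i5.add i2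
    rw [integral_sub i6 (i4.const_mul 2), integral_add i5 i2, integral_const_mul]
    congr 2
    exact integral_re i3
  rw [e2]
  ring

/-- **the correlations and the variance** -/
theorem co_diff (hk : 1 ≤ k) {w : ℝ → ℝ} {b : ℝ} (hw : ContDiff ℝ ∞ w) (hc : HasCompactSupport w)
    (h0 : ∀ v, b ≤ v → w v = 0) (hb : 0 < b) (hb2 : b < 2) :
    Tendsto (fun T => V1 k (k ^ 2) w T - Cw k w T) atTop (𝓝 (H306R2.aF k * J0 k w)) := by
  obtain ⟨R, C1, S, hR, hG⟩ := Ga_Tst hb (⟨hw, hc, h0⟩ : Tst b w)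
  have h1 := dg_lim hk hG hb hb2
  rw [El_eq hk] at h1
  have hTF : TF b (fun v => ((w v : ℝ) : ℂ)) := ⟨(ofRealCLM.contDiff (n := ∞)).comp hw,
    hc.comp_left (g := Complex.ofReal) Complex.ofReal_zero, fun v hv => by
      rw [h0 v hv.le, Complex.ofReal_zero]⟩
  have h2 := cross_small k hTF hw.continuous hc hb.le hb2 (k ^ 2)
  have h3 : Tendsto (fun T => (∫ u, conj (Gx k w (Real.log T) (Real.log (1 + T⁻¹)) u) *
      Ee k (Real.log (1 + T⁻¹)) u).re / Nh (k ^ 2) T) atTop (𝓝 0) := by
    rw [tendsto_zero_iff_abs_tendsto_zero]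
    refine squeeze_zero' (Eventually.of_forall fun T => abs_nonneg _) ?_ h2
    filter_upwards [eventually_gt_atTop 1] with T hT
    have hN := Nh_pos (k ^ 2) hT
    simp only [Function.comp]
    rw [abs_div, abs_of_pos hN]
    exact div_le_div_of_nonneg_right (Complex.abs_re_le_norm _) hN.le
  have h4 := h1.sub (h3.const_mul 2)
  rw [mul_zero, sub_zero] at h4
  refine h4.congr' ?_
  filter_upwards [eventually_gt_atTop 1] with T hT
  rw [V1_dec k hw.continuous hc hT]
  ring

end

end Pool.Agent.J4.H32.VS
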