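import Pool.Agent.J4.H32.VS.U30

set_option autoImplicit false

/-! The moment and the correlations of the divisor function: the result. -/

namespace Pool.Agent.J4.H32.VS

open Complex MeasureTheory Filter Topology Set Metric Pool.Agent.TH535.SM Pool.Agent.R446.KR
open Pool.Agent.J4.H44.LP
open Pool.Agent.W182.KO (TF P P_bound P_diff)
open scoped FourierTransform ComplexConjugate ContDiff Convolution

noncomputable section

variable {q k : ℕ}

/-- smooth weights -/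
structure SW (k : ℕ) (θ b : ℝ) (w : ℝ → ℝ) : Prop where
  smooth : ContDiff ℝ ∞ w
  left : ∀ v : ℝ, v ≤ 0 → w v = 0
  right : ∀ v : ℝ, b ≤ v → w v = 0
  sym : ∀ v : ℝ, θ ≤ v → v ≤ k / 2 → w v + w (k - v) = 1
  nn : ∀ v : ℝ, θ ≤ v → 0 ≤ w v
  pos : ∀ v : ℝ, θ ≤ v → v ≤ k / 2 → 0 < w v

lemma SW.cut {θ b : ℝ} {w : ℝ → ℝ} (h : SW k θ b w) (hb : b ≤ k - θ) : Cut k (1 - θ) w where
  cont := h.smooth.continuous
  sym v h1 h2 := h.sym v (by linarith) h2
  out v hv := h.right v (by linarith)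
  nn v hv := h.nn v (by linarith)
  pos v h1 h2 := h.pos v (by linarith) h2

lemma SW.cs {θ b : ℝ} {w : ℝ → ℝ} (h : SW k θ b w) : HasCompactSupport w :=
  HasCompactSupport.intro (isCompact_Icc (a := 0) (b := b)) fun v hv => by
    rw [mem_Icc, not_and_or, not_le, not_le] at hv
    rcases hv with hv | hv
    · exact h.left v hv.le
    · exact h.right v hv.le

lemma SW.half_eq {θ b : ℝ} {w : ℝ → ℝ} (h : SW k θ b w) : half w = w := by
  funext v
  rcases lt_or_ge v 0 with c | c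
  · rw [half_lt c, h.left v c.le]
  · rw [half_ge c]

/-- the constant -/
def ct (k : ℕ) (θ b : ℝ) (w : ℝ → ℝ) : ℝ := θ ^ (k ^ 2) / (k ^ 2).factorial +
  ∫ v in θ..b, w v * (v ^ (k ^ 2 - 1) / (k ^ 2 - 1).factorial)

lemma ct_eq (hk : 1 ≤ k) {θ b : ℝ} {w : ℝ → ℝ} (hθ : 0 ≤ θ) (hb : 0 ≤ b) (h : SW k θ b w) :
    corr k (1 - θ) w + J0 k w = ct k θ b w := by
  have hq : 1 ≤ k ^ 2 := Nat.one_le_pow _ _ hk
  obtain ⟨n, hn⟩ : ∃ n, k ^ 2 = n + 1 := ⟨k ^ 2 - 1, by omega⟩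
  have cw := h.smooth.continuous
  have hJ : J0 k w = ∫ v in (0:ℝ)..b, w v * (v ^ n / n.factorial) := by
    unfold J0
    rw [intervalIntegral.integral_of_le hb, hn, Nat.add_sub_cancel]
    have e1 : ∫ u in Ioi (0:ℝ), u ^ n / n.factorial * w u = ∫ u in Ioc (0:ℝ) b, u ^ n / n.factorial * w u := by
      refine setIntegral_eq_of_subset_of_forall_sdiff_eq_zero measurableSet_Ioi Ioc_subset_Ioi_self ?_
      rintro x ⟨h1, h2⟩
      have : b < x := by
        by_contra h3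
        exact h2 ⟨h1, not_lt.1 h3⟩
      rw [h.right x this.le, mul_zero]
    rw [e1]
    refine integral_congr_ae (Eventually.of_forall fun u => ?_)
    simp only
    ring
  have c1 : Continuous fun v : ℝ => w v * (v ^ n / (n.factorial : ℝ)) := by fun_prop
  have c2 : Continuous fun v : ℝ => (1 - w v) * (v ^ n / (n.factorial : ℝ)) := by fun_prop
  have e2 : ∫ v in (0:ℝ)..θ, v ^ n / (n.factorial : ℝ) = θ ^ (k ^ 2) / (k ^ 2).factorial := by
    rw [intervalIntegral.integral_div, integral_pow, hn, Nat.factorial_succ]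
    push_cast
    have : (0:ℝ) < n + 1 := by positivity
    have h3 : (0:ℝ) < n.factorial := by exact_mod_cast Nat.factorial_pos _
    rw [zero_pow (by omega)]
    field_simp
    ring
  unfold corr ct
  rw [hJ, sub_sub_cancel, ← e2, hn, Nat.add_sub_cancel,
    ← intervalIntegral.integral_add_adjacent_intervals (c1.intervalIntegrable 0 θ) (c1.intervalIntegrable θ b),
    ← add_assoc, ← intervalIntegral.integral_add (c2.intervalIntegrable _ _) (c1.intervalIntegrable _ _)]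
  congr 1
  refine intervalIntegral.integral_congr fun v _ => ?_
  ring

/-- **the equivalence with the correlations** -/
theorem co_iff (hk : 2 ≤ k) {θ b : ℝ} {w : ℝ → ℝ} (hθ : 0 ≤ θ) (hθ1 : θ < 1) (hb : 0 < b) (hb2 : b < 2)
    (hbk : b ≤ k - θ) (h : SW k θ b w) (c : ℝ) :
    Tendsto (fun T => M (zk k) T / NN (k ^ 2) T) atTop (𝓝 c) ↔
      Tendsto (Cw k w) atTop (𝓝 (c / 2 - H306R2.aF k * ct k θ b w)) := by
  have hd := co_diff (k := k) (by omega) h.smooth h.cs h.right hb hb2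
  rw [main_iff hk (by linarith) (by linarith) (h.cut hbk), h.half_eq, ← ct_eq (by omega) hθ hb.le h]
  constructor
  · intro h1
    have h2 := h1.sub hd
    have e : c / 2 - H306R2.aF (k:ℝ) * corr k (1 - θ) w - H306R2.aF (k:ℝ) * J0 k w =
        c / 2 - H306R2.aF (k:ℝ) * (corr k (1 - θ) w + J0 k w) := by ring
    rw [e] at h2
    exact h2.congr fun T => by ring
  · intro h1
    have h2 := h1.add hd
    have e : c / 2 - H306R2.aF (k:ℝ) * (corr k (1 - θ) w + J0 k w) + H306R2.aF (k:ℝ) * J0 k w =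
        c / 2 - H306R2.aF (k:ℝ) * corr k (1 - θ) w := by ring
    rw [e] at h2
    exact h2.congr fun T => by ring

lemma sq_pairs (d : ℕ → ℝ) {a b : ℕ} (hab : a ≤ b) : (∑ n ∈ Finset.Ioc a b, d n) ^ 2 =
    (∑ n ∈ Finset.Ioc a b, d n ^ 2) + 2 * ∑ m ∈ Finset.Ioc a b, ∑ n ∈ Finset.Ioc m b, d m * d n := by
  induction b, hab using Nat.le_induction with
  | base => simp
  | succ b hab ih =>
    rw [Finset.sum_Ioc_succ_top hab, Finset.sum_Ioc_succ_top hab, Finset.sum_Ioc_succ_top hab, add_sq, ih,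
      Finset.Ioc_self, Finset.sum_empty, add_zero]
    have e : ∑ m ∈ Finset.Ioc a b, ∑ n ∈ Finset.Ioc m (b + 1), d m * d n =
        (∑ m ∈ Finset.Ioc a b, ∑ n ∈ Finset.Ioc m b, d m * d n) + (∑ m ∈ Finset.Ioc a b, d m) * d (b + 1) := by
      rw [Finset.sum_mul, ← Finset.sum_add_distrib]
      refine Finset.sum_congr rfl fun m hm => ?_
      rw [Finset.sum_Ioc_succ_top (Finset.mem_Ioc.1 hm).2]
    rw [e]
    ring

/-- the residue -/
def Rx (k : ℕ) (x : ℝ) : ℂ := (2 * Real.pi * I)⁻¹ * ∮ s in C(1, 1 / 4), riemannZeta s ^ k * ((x : ℂ) ^ s / s)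

/-- the pairs -/
def Pr (k : ℕ) (h x : ℝ) : ℝ := ∑ m ∈ Finset.Ioc ⌊x⌋₊ ⌊x + h * x⌋₊, ∑ n ∈ Finset.Ioc m ⌊x + h * x⌋₊,
  ((Nat.finMulAntidiag k m).card : ℝ) * ((Nat.finMulAntidiag k n).card : ℝ)

/-- the mean of the correlations -/
def Cv (k : ℕ) (w : ℝ → ℝ) (h : ℝ) : ℝ :=
  (h * Real.log (1 / h) ^ (k ^ 2))⁻¹ *
    ∫ x in Ioi (1:ℝ), w (Real.log x / Real.log (1 / h)) * ((2 * Pr k h x - ‖Rx k (x + h * x) - Rx k x‖ ^ 2) / x ^ 2)

lemma Rx_eq (k : ℕ) (u : ℝ) : Rx k (Real.exp u) = Rk k u := by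
  unfold Rx Rk RL
  have e : ∀ s : ℂ, ((Real.exp u : ℝ) : ℂ) ^ s = cexp (u * s) := by
    intro s
    rw [Complex.cpow_def_of_ne_zero (by exact_mod_cast (Real.exp_pos u).ne'),
      ← Complex.ofReal_log (Real.exp_pos u).le, Real.log_exp]
  simp only [e]

lemma sum_Ioc (f : ℕ → ℝ) {a b : ℕ} (hab : a ≤ b) : (∑ n ∈ Finset.Icc 1 b, f n) - ∑ n ∈ Finset.Icc 1 a, f n =
    ∑ n ∈ Finset.Ioc a b, f n := by
  have h1 : ∀ c : ℕ, Finset.Icc 1 c = Finset.Ioc 0 c := fun c => by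
    ext n; simp [Nat.succ_le_iff]
  rw [h1, h1, ← Finset.sum_Ioc_consecutive f (Nat.zero_le a) hab]
  ring

lemma co_eq (k : ℕ) {T : ℝ} (hT : 1 < T) (u : ℝ) : co k (sg T) u = Real.exp (-u) *
    (2 * Pr k T⁻¹ (Real.exp u) - ‖Rx k (Real.exp u + T⁻¹ * Real.exp u) - Rx k (Real.exp u)‖ ^ 2) := by
  have hT0 : 0 < T := by linarith
  have hi : 0 < T⁻¹ := inv_pos.2 hT0
  have hp : 0 < 1 + T⁻¹ := by positivity
  have e1 : Real.exp u + T⁻¹ * Real.exp u = Real.exp (u + sg T) := by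
    unfold sg
    rw [Real.exp_add, Real.exp_log hp]; ring
  have hab : ⌊Real.exp u⌋₊ ≤ ⌊Real.exp (u + sg T)⌋₊ :=
    Nat.floor_le_floor (Real.exp_le_exp.2 (by linarith [sg_pos hT0]))
  have e2 : Sk k (u + sg T) - Sk k u = ∑ n ∈ Finset.Ioc ⌊Real.exp u⌋₊ ⌊Real.exp (u + sg T)⌋₊,
      ((Nat.finMulAntidiag k n).card : ℝ) := sum_Ioc _ hab
  have e3 : SS (fun n => (W182.KO.dk k n : ℝ) ^ 2) (u + sg T) - SS (fun n => (W182.KO.dk k n : ℝ) ^ 2) u =
      ∑ n ∈ Finset.Ioc ⌊Real.exp u⌋₊ ⌊Real.exp (u + sg T)⌋₊, ((Nat.finMulAntidiag k n).card : ℝ) ^ 2 :=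
    sum_Ioc _ hab
  unfold co Aq dg Pr
  rw [e1, Rx_eq, Rx_eq, e2, e3, sq_pairs _ hab]
  unfold pk
  rw [norm_mul, mul_pow, Complex.norm_real, Real.norm_of_nonneg (Real.exp_pos _).le, ← Real.exp_nat_mul]
  have e0 : ((2:ℕ):ℝ) * -(u / 2) = -u := by push_cast; ring
  rw [e0]
  ring

lemma Cv_eq (k : ℕ) {w : ℝ → ℝ} (hw : ∀ v ≤ 0, w v = 0) {T : ℝ} (hT : 1 < T) : Cv k w T⁻¹ = Cw k w T := by
  have hT0 : 0 < T := by linarith
  have hl := Real.log_pos hT
  unfold Cv Cw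
  rw [one_div, inv_inv, Nh_eq _ hT0, div_eq_inv_mul]
  congr 1
  have e0 : ∫ x in Ioi (1:ℝ), w (Real.log x / Real.log T) *
      ((2 * Pr k T⁻¹ x - ‖Rx k (x + T⁻¹ * x) - Rx k x‖ ^ 2) / x ^ 2) =
      ∫ x in Ioi (0:ℝ), w (Real.log x / Real.log T) *
      ((2 * Pr k T⁻¹ x - ‖Rx k (x + T⁻¹ * x) - Rx k x‖ ^ 2) / x ^ 2) := by
    refine (setIntegral_eq_of_subset_of_forall_sdiff_eq_zero measurableSet_Ioi
      (fun x hx => lt_trans one_pos hx) ?_).symm
    rintro x ⟨h1, h2⟩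
    have h3 : x ≤ 1 := not_lt.1 h2
    have h4 : 0 < x := h1
    rw [hw _ (div_nonpos_of_nonpos_of_nonneg (Real.log_nonpos h4.le h3) hl.le), zero_mul]
  rw [e0, sub_exp]
  refine integral_congr_ae (Eventually.of_forall fun u => ?_)
  simp only
  rw [Real.log_exp, co_eq k hT, Real.exp_neg]
  have := (Real.exp_pos u).ne'
  field_simp

lemma limC_iff (k : ℕ) {w : ℝ → ℝ} (hw : ∀ v ≤ 0, w v = 0) (l : ℝ) : Tendsto (Cv k w) (𝓝[>] 0) (𝓝 l) ↔
    Tendsto (Cw k w) atTop (𝓝 l) := by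
  have h0 : Tendsto (Cv k w) (𝓝[>] 0) (𝓝 l) ↔ Tendsto (fun T : ℝ => Cv k w T⁻¹) atTop (𝓝 l) := by
    refine ⟨fun h => h.comp tendsto_inv_atTop_nhdsGT_zero, fun h => ?_⟩
    have h1 := h.comp tendsto_inv_nhdsGT_zero
    refine h1.congr fun x => ?_
    simp only [Function.comp, inv_inv]
  rw [h0]
  refine tendsto_congr' ?_
  filter_upwards [eventually_gt_atTop 1] with T hT
  exact Cv_eq k hw hT

/-- existence of smooth weights -/
lemma exists_SW (hk : 2 ≤ k) {θ ε : ℝ} (hθ : 0 < θ) (hθ1 : θ < 1) (hε : 0 < ε) :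
    ∃ w : ℝ → ℝ, SW k θ (k / 2 + ε) w ∧ (∀ v, 0 ≤ w v ∧ w v ≤ 1) ∧ ∀ v : ℝ, v ≤ θ - ε → w v = 0 := by
  have hk2 : (2:ℝ) ≤ k := by exact_mod_cast hk
  obtain ⟨e, he⟩ : ∃ e : ℝ, e = min ε (min θ (1 - θ)) := ⟨_, rfl⟩
  have h1θ : 0 < 1 - θ := by linarith
  have e0 : 0 < e := by rw [he]; positivity
  have e1 : e ≤ ε := by rw [he]; exact min_le_left _ _
  have e2 : e ≤ θ := by rw [he]; exact (min_le_right _ _).trans (min_le_left _ _)
  have e3 : e ≤ 1 - θ := by rw [he]; exact (min_le_right _ _).trans (min_le_right _ _)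
  have hg := gm_HR k e0
  set χ : ℝ → ℝ := fun v => Real.smoothTransition ((v - (θ - e)) / e) with hχ
  have cχ : ContDiff ℝ ∞ χ := Real.smoothTransition.contDiff.comp ((contDiff_id.sub contDiff_const).div_const _)
  have χ0 : ∀ v, v ≤ θ - e → χ v = 0 := fun v hv =>
    Real.smoothTransition.zero_of_nonpos (div_nonpos_of_nonpos_of_nonneg (by linarith) e0.le)
  have χ1 : ∀ v, θ ≤ v → χ v = 1 := fun v hv =>
    Real.smoothTransition.one_of_one_le (by rw [one_le_div e0]; linarith)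
  have g0 : ∀ v, 0 ≤ gm k e v := fun v => Real.smoothTransition.nonneg _
  have g1 : ∀ v, gm k e v ≤ 1 := fun v => Real.smoothTransition.le_one _
  refine ⟨fun v => gm k e v * χ v, ⟨hg.cd.mul cχ, fun v hv => ?_, fun v hv => ?_, fun v h1 h2 => ?_, fun v hv => ?_,
    fun v h1 h2 => ?_⟩, fun v => ⟨?_, ?_⟩, fun v hv => ?_⟩
  · rw [χ0 v (by linarith), mul_zero]
  · rw [hg.out v (by linarith), zero_mul]
  · rw [χ1 v h1, χ1 (k - v) (by linarith), mul_one, mul_one, hg.sym v]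
  · exact mul_nonneg (g0 v) (Real.smoothTransition.nonneg _)
  · rw [χ1 v h1, mul_one]
    unfold gm
    refine Real.smoothTransition.pos_of_pos (div_pos (by linarith) (by positivity))
  · exact mul_nonneg (g0 v) (Real.smoothTransition.nonneg _)
  · exact mul_le_one₀ (g1 v) (Real.smoothTransition.nonneg _) (Real.smoothTransition.le_one _)
  · simp only
    rw [χ0 v (by linarith), mul_zero]

end

end Pool.Agent.J4.H32.VS
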