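import Pool.Agent.J4.H32.VS.U31

set_option autoImplicit false

/-! The cross term on a line to the left of the critical line. -/

namespace Pool.Agent.J4.H32.VS

open Complex MeasureTheory Filter Topology Set Metric Pool.Agent.TH535.SM Pool.Agent.R446.KR
open Pool.Agent.J4.H44.LP
open Pool.Agent.W182.KO (TF P P_bound P_diff)
open scoped FourierTransform ComplexConjugate ContDiff Convolution

noncomputable section

variable {q k : ℕ}

lemma Y_strip2 (k : ℕ) : ∃ (C : ℝ) (M : ℕ), 0 ≤ C ∧ ∀ s : ℂ, 0 ≤ s.re → s.re ≤ 3 / 2 →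
    ‖Y s ^ k‖ ≤ C * (1 + |s.im|) ^ M := by
  obtain ⟨C, M, hC, hb⟩ := H_strip k (u := 1) le_rfl
  refine ⟨C * 5 ^ k, M + k, by positivity, fun s h1 h2 => ?_⟩
  have h3 := hb s (by push_cast; linarith) (by push_cast; linarith)
  have hne : s + (2 * 1 + 1 : ℕ) ≠ 0 := by
    refine den_ne (u := 1) ?_
    push_cast; linarith
  have e : Y s ^ k = H k 1 s * (s + (2 * 1 + 1 : ℕ)) ^ k := by
    unfold H
    rw [div_pow, div_mul_cancel₀ _ (pow_ne_zero _ hne)]
  have h4 : ‖s + (2 * 1 + 1 : ℕ)‖ ≤ 5 * (1 + |s.im|) := by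
    have h5 := Complex.norm_le_abs_re_add_abs_im (s + (2 * 1 + 1 : ℕ))
    have e1 : (s + (2 * 1 + 1 : ℕ)).re = s.re + 3 := by simp
    have e2 : (s + (2 * 1 + 1 : ℕ)).im = s.im := by simp
    rw [e1, e2, abs_of_nonneg (by linarith : 0 ≤ s.re + 3)] at h5
    have := abs_nonneg s.im
    linarith
  rw [e, norm_mul, norm_pow]
  calc ‖H k 1 s‖ * ‖s + (2 * 1 + 1 : ℕ)‖ ^ k ≤ (C * (1 + |s.im|) ^ M) * (5 * (1 + |s.im|)) ^ k := by
        gcongr
    _ = _ := by rw [mul_pow, pow_add]; ring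

lemma far_one {s : ℂ} (h3 : s.re ≤ 1 / 2 ∨ s.re = 3 / 2 ∨ 1 ≤ |s.im|) : ‖((s - 1) ^ k)⁻¹‖ ≤ 2 ^ k := by
  have hd : 1 / 2 ≤ ‖s - 1‖ := by
    rcases h3 with h3 | h3 | h3
    · have := Complex.abs_re_le_norm (s - 1)
      rw [sub_re, one_re, abs_of_nonpos (by linarith)] at this
      linarith
    · have := Complex.abs_re_le_norm (s - 1)
      rw [sub_re, one_re, h3] at this
      norm_num at this ⊢
      exact this
    · have := Complex.abs_im_le_norm (s - 1)
      rw [sub_im, one_im, sub_zero] at this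
      linarith
  rw [norm_inv, norm_pow, ← inv_pow]
  refine pow_le_pow_left₀ (by positivity) ?_ k
  rw [inv_le_comm₀ (by linarith) (by norm_num)]
  linarith

/-- the contour shift -/
lemma shift_gen (k : ℕ) {Ψ : ℂ → ℂ} (hΨ : Differentiable ℂ Ψ) {A c a : ℝ} (hc : 0 < c) (hA : 0 ≤ A)
    (ha0 : 0 ≤ a) (ha : a ≤ 1 / 2)
    (hb : ∀ s : ℂ, a ≤ s.re → s.re ≤ 3 / 2 → ‖Ψ s‖ ≤ A * Real.exp (-(c * s.im ^ 2))) :
    I * (∫ y : ℝ, riemannZeta (((3 / 2 : ℝ) : ℂ) + y * I) ^ k * Ψ (((3 / 2 : ℝ) : ℂ) + y * I)) -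
      I * (∫ y : ℝ, riemannZeta ((a : ℂ) + y * I) ^ k * Ψ ((a : ℂ) + y * I)) =
      ∮ z in C(1, 1 / 4), riemannZeta z ^ k * Ψ z := by
  obtain ⟨C, M, hC, hY⟩ := Y_strip2 k
  obtain ⟨B, hB, hg⟩ := poly_gauss (M + 2) hc
  have hF : Differentiable ℂ (fun s => Y s ^ k * Ψ s) := (Y_diff.pow k).mul hΨ
  have key := line_pole hF k (w := 1) one_im (a := a) (b := 3 / 2)
    (B := C * (A * B) * 2 ^ k) (r := 1 / 4) (by rw [one_re]; linarith) (by simp; norm_num) (by norm_num)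
    (by positivity) (by
      intro s h1 h2 h3
      have h4 : ‖((s - 1) ^ k)⁻¹‖ ≤ 2 ^ k := far_one (by
        rcases h3 with h3 | h3 | h3
        · exact Or.inl (by linarith)
        · exact Or.inr (Or.inl h3)
        · exact Or.inr (Or.inr h3))
      have h5 := hb s h1 h2
      have h8 := hY s (by linarith) h2
      have h9 := hg s.im
      have hp : 0 < (1 + |s.im|) ^ 2 := by positivity
      rw [norm_mul, norm_mul, le_div_iff₀ hp]
      calc ‖Y s ^ k‖ * ‖Ψ s‖ * ‖((s - 1) ^ k)⁻¹‖ * (1 + |s.im|) ^ 2 ≤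
            (C * (1 + |s.im|) ^ M) * (A * Real.exp (-(c * s.im ^ 2))) * 2 ^ k *
            (1 + |s.im|) ^ 2 := by gcongr
        _ = C * (A * ((1 + |s.im|) ^ (M + 2) *
            Real.exp (-(c * s.im ^ 2)))) * 2 ^ k := by rw [pow_add]; ring
        _ ≤ _ := by gcongr)
  have hz : ∀ s : ℂ, s ≠ 1 → Y s ^ k * Ψ s * ((s - 1) ^ k)⁻¹ = riemannZeta s ^ k * Ψ s := by
    intro s hs
    have h1 : s - 1 ≠ 0 := sub_ne_zero.2 hs
    rw [Y_eq hs, mul_pow]
    field_simp
  have ne : ∀ (x : ℝ), x ≠ 1 → ∀ y : ℝ, ((x : ℂ) + y * I) ≠ 1 := by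
    intro x hx y h0
    have := congrArg Complex.re h0
    simp at this
    exact hx this
  have el : ∀ x : ℝ, x ≠ 1 → ∫ y : ℝ, riemannZeta ((x : ℂ) + y * I) ^ k * Ψ ((x : ℂ) + y * I) =
      ∫ y : ℝ, Y ((x : ℂ) + y * I) ^ k * Ψ ((x : ℂ) + y * I) * (((x : ℂ) + y * I - 1) ^ k)⁻¹ := by
    intro x hx
    refine integral_congr_ae (Eventually.of_forall fun y => ?_)
    exact (hz _ (ne _ hx y)).symm
  have ec : ∮ z in C(1, 1 / 4), riemannZeta z ^ k * Ψ z =
      ∮ z in C(1, 1 / 4), Y z ^ k * Ψ z * ((z - 1) ^ k)⁻¹ := by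
    refine circleIntegral.integral_congr (by norm_num) fun z hz' => (hz z ?_).symm
    intro h0
    rw [h0, mem_sphere_iff_norm, sub_self, norm_zero] at hz'
    norm_num at hz'
  rw [ec, ← key, el _ (by norm_num), el a (by linarith)]

/-- the two lines -/
lemma shift_two (k : ℕ) {Ψ : ℂ → ℂ} (hΨ : Differentiable ℂ Ψ) {A c a : ℝ} (hc : 0 < c) (hA : 0 ≤ A)
    (ha0 : 0 ≤ a) (ha : a ≤ 1 / 2)
    (hb : ∀ s : ℂ, a ≤ s.re → s.re ≤ 3 / 2 → ‖Ψ s‖ ≤ A * Real.exp (-(c * s.im ^ 2))) :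
    (∫ y : ℝ, riemannZeta (((1 / 2 : ℝ) : ℂ) + y * I) ^ k * Ψ (((1 / 2 : ℝ) : ℂ) + y * I)) =
      (∫ y : ℝ, riemannZeta ((a : ℂ) + y * I) ^ k * Ψ ((a : ℂ) + y * I)) := by
  have h1 := shift_gen k hΨ hc hA ha0 ha hb
  have h2 := shift_gen k hΨ hc hA (by norm_num : (0:ℝ) ≤ 1 / 2) le_rfl fun s h1 h2 => hb s (by linarith) h2
  rw [← h2] at h1
  have h3 := sub_right_injective h1
  exact (mul_left_cancel₀ I_ne_zero h3).symm

/-- the Laplace transform of a continuous function with compact support -/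
theorem P_diff' {ψ : ℝ → ℂ} (hc : Continuous ψ) (hs : HasCompactSupport ψ) : Differentiable ℂ (P ψ) := by
  intro z0
  have hint : ∀ z : ℂ, Integrable (fun ξ : ℝ => ψ ξ * cexp (ξ * z)) := fun z =>
    Continuous.integrable_of_hasCompactSupport (by fun_prop) hs.mul_right
  have hb : Integrable (fun ξ : ℝ => ‖ψ ξ‖ * (|ξ| * Real.exp (|ξ| * (‖z0‖ + 1)))) := by
    refine Continuous.integrable_of_hasCompactSupport ?_ ?_
    · fun_prop
    · exact (hs.norm).mul_right
  have key := hasDerivAt_integral_of_dominated_loc_of_deriv_le (𝕜 := ℂ)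
    (F := fun (z : ℂ) (ξ : ℝ) => ψ ξ * cexp (ξ * z))
    (F' := fun (z : ℂ) (ξ : ℝ) => ψ ξ * (cexp (ξ * z) * ξ))
    (x₀ := z0) (s := Metric.ball z0 1) (μ := volume)
    (bound := fun ξ : ℝ => ‖ψ ξ‖ * (|ξ| * Real.exp (|ξ| * (‖z0‖ + 1))))
    (Metric.ball_mem_nhds z0 one_pos)
    (Eventually.of_forall fun z => (hint z).aestronglyMeasurable)
    (hint z0) ?_ (Eventually.of_forall fun ξ z hz => ?_) hb
    (Eventually.of_forall fun ξ z hz => ?_)
  · exact key.2.differentiableAt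
  · exact (by fun_prop : Continuous fun ξ : ℝ => ψ ξ * (cexp (ξ * z0) * ξ)).aestronglyMeasurable
  · rw [norm_mul, norm_mul, Complex.norm_exp, Complex.norm_real, Real.norm_eq_abs, mul_comm (Real.exp _)]
    refine mul_le_mul_of_nonneg_left (mul_le_mul_of_nonneg_left (Real.exp_le_exp.2 ?_) (abs_nonneg _))
      (norm_nonneg _)
    have h1 : ‖z‖ ≤ ‖z0‖ + 1 := by
      have := norm_sub_norm_le z z0
      rw [Metric.mem_ball, dist_eq_norm] at hz
      linarith
    have h2 : ((ξ : ℂ) * z).re = ξ * z.re := Complex.re_ofReal_mul _ _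
    rw [h2]
    calc ξ * z.re ≤ |ξ * z.re| := le_abs_self _
      _ = |ξ| * |z.re| := abs_mul _ _
      _ ≤ |ξ| * (‖z0‖ + 1) := mul_le_mul_of_nonneg_left ((Complex.abs_re_le_norm z).trans h1) (abs_nonneg _)
  · have h1 := ((hasDerivAt_id z).const_mul (ξ : ℂ)).cexp.const_mul (ψ ξ)
    simpa using h1

lemma P_norm' {ψ : ℝ → ℂ} (hc : Continuous ψ) (hs : HasCompactSupport ψ) {z : ℂ} (hz : |z.re| ≤ 1) :
    ‖P ψ z‖ ≤ ∫ ξ, ‖ψ ξ‖ * Real.exp |ξ| := by
  unfold P
  refine norm_integral_le_of_norm_le ?_ (Eventually.of_forall fun ξ => ?_)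
  · exact Continuous.integrable_of_hasCompactSupport (by fun_prop) hs.norm.mul_right
  · rw [norm_mul, Complex.norm_exp, Complex.re_ofReal_mul]
    refine mul_le_mul_of_nonneg_left (Real.exp_le_exp.2 ?_) (norm_nonneg _)
    calc ξ * z.re ≤ |ξ * z.re| := le_abs_self _
      _ = |ξ| * |z.re| := abs_mul _ _
      _ ≤ |ξ| * 1 := mul_le_mul_of_nonneg_left hz (abs_nonneg _)
      _ = |ξ| := mul_one _

/-- the multiplier as an entire function -/
def kc (s : ℝ) : ℂ → ℂ := dslope (fun z : ℂ => cexp (s * z)) 0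

lemma kc_diff (s : ℝ) : Differentiable ℂ (kc s) := by
  have h : Differentiable ℂ (fun z : ℂ => cexp (s * z)) := by fun_prop
  have := (Complex.differentiableOn_dslope (s := univ) (c := (0:ℂ)) univ_mem).2 h.differentiableOn
  exact differentiableOn_univ.1 this

lemma kc_eq (s : ℝ) {z : ℂ} (hz : z ≠ 0) : kc s z = (cexp (s * z) - 1) / z := by
  unfold kc
  rw [dslope_of_ne _ hz, slope_def_field, mul_zero, Complex.exp_zero, sub_zero]

lemma kc_norm {s : ℝ} (hs : 0 ≤ s) (hs1 : s ≤ 1) {z : ℂ} (hz : z ≠ 0) (h0 : 0 ≤ z.re) (h1 : z.re ≤ 3 / 2) :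
    ‖kc s z‖ ≤ s * Real.exp (3 / 2) := by
  have e := integral_exp_mul_complex (a := 0) (b := s) hz
  simp only [Complex.ofReal_zero, mul_zero, Complex.exp_zero] at e
  rw [kc_eq s hz, mul_comm (s : ℂ) z, ← e]
  have h2 := intervalIntegral.norm_integral_le_of_norm_le_const (a := 0) (b := s)
    (f := fun r : ℝ => cexp (z * r)) (C := Real.exp (3 / 2)) (fun r hr => by
      rw [uIoc_of_le hs] at hr
      rw [Complex.norm_exp, mul_comm, Complex.re_ofReal_mul]
      refine Real.exp_le_exp.2 ?_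
      nlinarith [hr.1, hr.2])
  rw [sub_zero, abs_of_nonneg hs] at h2
  linarith

/-- **the bound for the cross term**, on the line `σ` -/
theorem cross_bd2 (k : ℕ) {σ : ℝ} (hσ : 0 < σ) (hσ2 : σ ≤ 1 / 2) : ∃ (C : ℝ) (N : ℕ), 0 ≤ C ∧ ∀ G : ℝ → ℂ,
    Continuous G → HasCompactSupport G → ∀ B : ℝ,
    (∀ t : ℝ, ‖P (fun u => conj (G u)) ((σ : ℂ) + t * I - 1 / 2)‖ * (1 + |t|) ^ N ≤ B) → ∀ s : ℝ, 0 ≤ s → s ≤ 1 →
      ‖∫ u, conj (G u) * Ee k s u‖ ≤ C * s * B := by
  obtain ⟨C0, p, hC0, hY⟩ := Y_strip2 k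
  obtain ⟨K, hK, hKb⟩ := Bh_bdd k
  set J : ℝ := ∫ t : ℝ, ((1 + |t|) ^ 2)⁻¹ with hJ
  have hJ0 : 0 ≤ J := integral_nonneg fun y => by positivity
  refine ⟨1 / (2 * Real.pi) * (Real.exp (3 / 2) * Real.exp 1 * (C0 * 2 ^ k) * J), p + 2, by positivity,
    fun G hG hc B hB s hs hs1 => ?_⟩
  have hB0 : 0 ≤ B := le_trans (by positivity) (hB 0)
  have cj : Continuous (fun z : ℂ => conj z) := Complex.continuous_conj
  set G' : ℝ → ℂ := fun u => conj (G u) with hG'
  have cG' : Continuous G' := cj.comp hG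
  have sG' : HasCompactSupport G' := hc.comp_left (g := fun z : ℂ => conj z) (map_zero _)
  set AG : ℝ := ∫ ξ, ‖G' ξ‖ * Real.exp |ξ| with hAG
  have hAG0 : 0 ≤ AG := integral_nonneg fun y => by positivity
  have h1 : ∀ ε, 0 < ε → ε ≤ 1 → ‖∫ u, conj (G u) * Bh k s ε u‖ ≤
      1 / (2 * Real.pi) * (Real.exp (3 / 2) * Real.exp 1 * (C0 * 2 ^ k) * J) * s * B := by
    intro ε hε hε1
    set Ψ : ℂ → ℂ := fun z => kc s z * Ex ε 0 z * P G' (z - 1 / 2) with hΨd
    have hΨ : Differentiable ℂ Ψ := ((kc_diff s).mul (Ex_diff ε 0)).mul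
      ((P_diff' cG' sG').comp (by fun_prop : Differentiable ℂ fun z : ℂ => z - 1 / 2))
    have hEx : ∀ z : ℂ, 0 ≤ z.re → z.re ≤ 3 / 2 → ‖Ex ε 0 z‖ ≤ Real.exp 1 * Real.exp (-(ε ^ 2 / 2 * z.im ^ 2)) := by
      intro z z0 z1
      rw [Ex_norm, ← Real.exp_add]
      refine Real.exp_le_exp.2 ?_
      have h6 : (z.re - 1 / 2) ^ 2 ≤ 1 := by
        have : |z.re - 1 / 2| ≤ 1 := abs_le.2 ⟨by linarith, by linarith⟩
        rw [← sq_abs]; exact pow_le_one₀ (abs_nonneg _) this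
      have h7 : ε ^ 2 ≤ 1 := pow_le_one₀ hε.le hε1
      nlinarith [sq_nonneg ε, mul_le_mul_of_nonneg_left h6 (sq_nonneg ε)]
    have hb : ∀ z : ℂ, σ ≤ z.re → z.re ≤ 3 / 2 →
        ‖Ψ z‖ ≤ (s * Real.exp (3 / 2) * Real.exp 1 * AG) * Real.exp (-(ε ^ 2 / 2 * z.im ^ 2)) := by
      intro z z0 z1
      have zne : z ≠ 0 := by
        intro h
        rw [h, zero_re] at z0
        linarith
      have a1 := kc_norm hs hs1 zne (by linarith) z1
      have a2 := hEx z (by linarith) z1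
      have a3 : ‖P G' (z - 1 / 2)‖ ≤ AG := P_norm' cG' sG' (by
        have : (z - 1 / 2).re = z.re - 1 / 2 := by simp
        rw [this]
        exact abs_le.2 ⟨by linarith, by linarith⟩)
      rw [hΨd]
      simp only
      rw [norm_mul, norm_mul]
      calc ‖kc s z‖ * ‖Ex ε 0 z‖ * ‖P G' (z - 1 / 2)‖ ≤
            (s * Real.exp (3 / 2)) * (Real.exp 1 * Real.exp (-(ε ^ 2 / 2 * z.im ^ 2))) * AG := by gcongr
        _ = _ := by ring
    have h2 := shift_two k hΨ (by positivity : 0 < ε ^ 2 / 2) (by positivity) hσ.le hσ2 hb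
    have e1 : ∫ u, conj (G u) * Bh k s ε u = ((1 / (2 * Real.pi) : ℝ) : ℂ) *
        ∫ y : ℝ, riemannZeta (((1 / 2 : ℝ) : ℂ) + y * I) ^ k * Ψ (((1 / 2 : ℝ) : ℂ) + y * I) := by
      rw [Bh_pars k hs hε hG hc]
      congr 1
      refine integral_congr_ae (Eventually.of_forall fun t => ?_)
      simp only
      have hne : (((1 / 2 : ℝ) : ℂ) + t * I) ≠ 0 := by
        intro h0
        have := congrArg Complex.re h0
        simp at this
      have e2 : conj (∫ u, G u * cexp (-(u * t * I))) = P G' (((1 / 2 : ℝ) : ℂ) + t * I - 1 / 2) := by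
        rw [← integral_conj]
        unfold P
        refine integral_congr_ae (Eventually.of_forall fun u => ?_)
        simp only
        rw [map_mul, ← Complex.exp_conj]
        congr 2
        push_cast
        simp
        ring
      have e3 : kap s t = kc s (((1 / 2 : ℝ) : ℂ) + t * I) := by
        rw [kap_eq, kc_eq s hne]
        push_cast
        rfl
      have e4 : Ex ε 0 (((1 / 2 : ℝ) : ℂ) + t * I) = (Real.exp (-(ε ^ 2 * t ^ 2 / 2)) : ℝ) := by
        rw [Ex_half]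
        simp
      rw [hΨd]
      simp only
      rw [e2, e4, ← e3]
      unfold Gb Fh zk ze
      push_cast
      ring
    rw [e1, h2, norm_mul, Complex.norm_real, Real.norm_of_nonneg (by positivity)]
    have h3 : ‖∫ y : ℝ, riemannZeta ((σ : ℂ) + y * I) ^ k * Ψ ((σ : ℂ) + y * I)‖ ≤
        ∫ y : ℝ, (s * Real.exp (3 / 2) * Real.exp 1 * (C0 * 2 ^ k) * B) * ((1 + |y|) ^ 2)⁻¹ := by
      refine norm_integral_le_of_norm_le (inv_sq_int.const_mul _) (Eventually.of_forall fun t => ?_)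
      set z : ℂ := (σ : ℂ) + t * I with hz
      have hre : z.re = σ := by simp [hz]
      have him : z.im = t := by simp [hz]
      have zne : z ≠ 0 := by
        intro h
        have := congrArg Complex.re h
        rw [hre, zero_re] at this
        linarith
      have zne1 : z ≠ 1 := by
        intro h
        have := congrArg Complex.re h
        rw [hre, one_re] at this
        linarith
      have b1 : ‖riemannZeta z ^ k‖ ≤ (C0 * (1 + |t|) ^ p) * 2 ^ k := by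
        have h1 : z - 1 ≠ 0 := sub_ne_zero.2 zne1
        have e5 : riemannZeta z ^ k = Y z ^ k * ((z - 1) ^ k)⁻¹ := by
          rw [Y_eq zne1, mul_pow]
          field_simp
        rw [e5, norm_mul]
        have h4 := hY z (by rw [hre]; exact hσ.le) (by rw [hre]; linarith)
        rw [him] at h4
        exact mul_le_mul h4 (far_one (Or.inl (by rw [hre]; exact hσ2))) (norm_nonneg _) (by positivity)
      have b2 := kc_norm hs hs1 zne (by rw [hre]; exact hσ.le) (by rw [hre]; linarith)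
      have b3 : ‖Ex ε 0 z‖ ≤ Real.exp 1 := by
        refine (hEx z (by rw [hre]; exact hσ.le) (by rw [hre]; linarith)).trans ?_
        have : Real.exp (-(ε ^ 2 / 2 * z.im ^ 2)) ≤ 1 := Real.exp_le_one_iff.2 (by
          have : 0 ≤ ε ^ 2 / 2 * z.im ^ 2 := by positivity
          linarith)
        calc Real.exp 1 * Real.exp (-(ε ^ 2 / 2 * z.im ^ 2)) ≤ Real.exp 1 * 1 :=
              mul_le_mul_of_nonneg_left this (Real.exp_pos _).le
          _ = _ := mul_one _
      have hX : 0 < (1 + |t|) ^ (p + 2) := by positivity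
      have b4 : ‖P G' (z - 1 / 2)‖ ≤ B / (1 + |t|) ^ (p + 2) := by
        rw [le_div_iff₀ hX]; exact hB t
      rw [hΨd]
      simp only
      rw [norm_mul, norm_mul, norm_mul]
      calc ‖riemannZeta z ^ k‖ * (‖kc s z‖ * ‖Ex ε 0 z‖ * ‖P G' (z - 1 / 2)‖) ≤
            ((C0 * (1 + |t|) ^ p) * 2 ^ k) * ((s * Real.exp (3 / 2)) * Real.exp 1 * (B / (1 + |t|) ^ (p + 2))) := by
            gcongr
        _ = _ := by
            rw [pow_add]
            field_simp
    rw [integral_const_mul] at h3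
    calc 1 / (2 * Real.pi) * ‖∫ y : ℝ, riemannZeta ((σ : ℂ) + y * I) ^ k * Ψ ((σ : ℂ) + y * I)‖ ≤
          1 / (2 * Real.pi) * ((s * Real.exp (3 / 2) * Real.exp 1 * (C0 * 2 ^ k) * B) * J) :=
          mul_le_mul_of_nonneg_left h3 (by positivity)
      _ = _ := by ring
  have hcn : HasCompactSupport (fun u => ‖G u‖) := hc.norm
  have h3 : Tendsto (fun ε => ∫ u, conj (G u) * Bh k s ε u) (𝓝[>] 0) (𝓝 (∫ u, conj (G u) * Ee k s u)) := by
    refine tendsto_integral_filter_of_dominated_convergence (fun u => ‖G u‖ * (K * Real.exp (3 * |u|))) ?_ ?_ ?_ ?_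
    · filter_upwards [self_mem_nhdsWithin] with ε hε
      have hε0 : 0 < ε := hε
      have c1 : Continuous (Bh k s ε) := by
        rw [Bh_Bf k hs hε0]
        exact Bf_cont (Gb_dec k hs hε0)
      exact ((cj.comp hG).mul c1).aestronglyMeasurable
    · filter_upwards [self_mem_nhdsWithin, Ioc_mem_nhdsGT (show (0:ℝ) < 1 by norm_num)] with ε hε hε1
      refine Eventually.of_forall fun u => ?_
      rw [norm_mul, RCLike.norm_conj]
      exact mul_le_mul_of_nonneg_left (hKb s ε u hs hs1 hε hε1.2) (norm_nonneg _)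
    · exact Continuous.integrable_of_hasCompactSupport (by fun_prop) hcn.mul_right
    · filter_upwards [Bh_lim k s] with u hu
      exact hu.const_mul _
  refine le_of_tendsto h3.norm ?_
  filter_upwards [Ioc_mem_nhdsGT (show (0:ℝ) < 1 by norm_num)] with ε hε
  exact h1 ε hε.1 hε.2

end

end Pool.Agent.J4.H32.VS
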