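import Pool.Agent.J4.H32.VS.U32

set_option autoImplicit false

/-! The cross term and the diagonal for all supports. -/

namespace Pool.Agent.J4.H32.VS

open Complex MeasureTheory Filter Topology Set Metric Pool.Agent.TH535.SM Pool.Agent.R446.KR
open Pool.Agent.J4.H44.LP
open Pool.Agent.W182.KO (TF P P_bound P_diff)
open scoped FourierTransform ComplexConjugate ContDiff Convolution

noncomputable section

variable {q k : ℕ}

/-- the analytic function of the residue, on the line `σ` -/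
def px2 (w : ℝ → ℝ) (L s σ t : ℝ) (z : ℂ) : ℂ :=
  (cexp (s * z) - 1) / z * (L * P (fun v => ((w v : ℝ) : ℂ)) (L * (z - 1 + σ - t * I)))

lemma Gx2_eq (k : ℕ) {w : ℝ → ℝ} (hw : Continuous w) (hs : HasCompactSupport w) {L : ℝ} (hL : 0 < L) (s σ t : ℝ) :
    ∫ u : ℝ, Gx k w L s u * cexp (((-((1 / 2 - σ) * u) : ℝ) : ℂ) + -(u * t * I)) = RL k (px2 w L s σ t) := by
  set φ : ℝ → ℂ → ℂ := fun u z => (((w (u / L) * Real.exp (-((1 - σ) * u)) : ℝ) : ℂ) * cexp (-(u * t * I))) *
    (cexp (((u + s : ℝ) : ℂ) * z) / z - cexp (u * z) / z) with hφ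
  have hc : Continuous (fun p : ℝ × ℝ => φ p.1 (cm p.2)) := by
    have h1 := cm_cont
    have h2 : Continuous (fun p : ℝ × ℝ => cexp (((p.1 + s : ℝ) : ℂ) * cm p.2) / cm p.2) :=
      Continuous.div (by fun_prop) (by fun_prop) fun p => cm_ne0 _
    have h3 := exps_cont
    rw [hφ]
    fun_prop
  have hb : ∀ u θ, ‖φ u (cm θ)‖ ≤ |w (u / L)| * (Real.exp (-((1 - σ) * u)) * (2 * Real.exp (2 * |u + s|) +
      2 * Real.exp (2 * |u|))) := by
    intro u θ
    rw [hφ]
    simp only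
    have e1 : ‖cexp (-(u * t * I))‖ = 1 := by
      have : (-(u * t * I) : ℂ) = ((-(u * t) : ℝ) : ℂ) * I := by push_cast; ring
      rw [this, Complex.norm_exp_ofReal_mul_I]
    rw [norm_mul, norm_mul, e1, mul_one, Complex.norm_real, norm_mul, Real.norm_eq_abs,
      Real.norm_of_nonneg (Real.exp_pos _).le, mul_assoc]
    refine mul_le_mul_of_nonneg_left ?_ (abs_nonneg _)
    refine mul_le_mul_of_nonneg_left ?_ (Real.exp_pos _).le
    exact (norm_sub_le _ _).trans (add_le_add (exps_norm _ _) (exps_norm _ _))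
  have hi : Integrable (fun u => |w (u / L)| * (Real.exp (-((1 - σ) * u)) * (2 * Real.exp (2 * |u + s|) +
      2 * Real.exp (2 * |u|)))) := by
    refine Continuous.integrable_of_hasCompactSupport (by fun_prop) ?_
    have h1 : HasCompactSupport (fun u => |w (u / L)|) := (cs_div hs hL).comp_left (g := abs) abs_zero
    exact h1.mul_right
  obtain ⟨-, h1⟩ := RL_swap k hc hi hb
  have e1 : ∀ u, RL k (φ u) = Gx k w L s u * cexp (((-((1 / 2 - σ) * u) : ℝ) : ℂ) + -(u * t * I)) := by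
    intro u
    rw [hφ]
    simp only
    rw [RL_const_mul, RL_sub k (exps_cont1 (u + s)) (exps_cont1 u)]
    unfold Gx pk Rk
    have e6 : Real.exp (-((1 - σ) * u)) = Real.exp (-(u / 2)) * Real.exp (-((1 / 2 - σ) * u)) := by
      rw [← Real.exp_add]; congr 1; ring
    rw [Complex.exp_add, ← Complex.ofReal_exp, e6]
    push_cast
    ring
  rw [← integral_congr_ae (Eventually.of_forall e1), h1]
  refine RL_congr k fun θ => ?_
  have e2 : ∀ u, φ u (cm θ) = (cexp (s * cm θ) - 1) / cm θ *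
      (((w (u / L) : ℝ) : ℂ) * cexp (((u / L : ℝ) : ℂ) * (L * (cm θ - 1 + σ - t * I)))) := by
    intro u
    rw [hφ]
    simp only
    have hLc : (L : ℂ) ≠ 0 := by exact_mod_cast hL.ne'
    have e3 : ((u / L : ℝ) : ℂ) * (L * (cm θ - 1 + σ - t * I)) = -((1 - σ) * u) + -(u * t * I) + u * cm θ := by
      push_cast
      field_simp
      ring
    have e4 : (((u + s : ℝ) : ℂ) * cm θ) = s * cm θ + u * cm θ := by push_cast; ring
    rw [e3, e4, Complex.exp_add, Complex.exp_add, Complex.exp_add]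
    push_cast
    ring
  simp_rw [e2]
  rw [integral_const_mul]
  unfold px2 P
  have h2 := Measure.integral_comp_div (fun v : ℝ => ((w v : ℝ) : ℂ) * cexp (v * (L * (cm θ - 1 + σ - t * I)))) L
  rw [h2, abs_of_pos hL]
  congr 1

/-- **the bound** for the transform -/
theorem Gx2_bd (k : ℕ) {w : ℝ → ℝ} {b : ℝ} (hw : TF b (fun v => ((w v : ℝ) : ℂ))) (hb : 0 ≤ b) {ρ : ℝ} (hρ : 0 < ρ)
    (hρ4 : ρ ≤ 1 / 4) {σ : ℝ} (hρσ : ρ ≤ σ) (N : ℕ) : ∃ C : ℝ, 0 ≤ C ∧ ∀ L s t : ℝ, 1 ≤ L → 0 ≤ s → s ≤ 1 / 2 →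
      ‖RL k (px2 w L s σ t)‖ * (1 + |t|) ^ N ≤ C * s * L * Real.exp (b * ((σ + ρ) * L)) := by
  obtain ⟨CP, hCP, hP⟩ := P_bound hw N
  have hz : ∀ z ∈ sphere (1:ℂ) ρ, z ≠ 1 ∧ 3 / 4 ≤ ‖z‖ ∧ ‖z‖ ≤ 5 / 4 ∧ 1 - ρ ≤ z.re ∧ z.re ≤ 1 + ρ ∧ |z.im| ≤ ρ := by
    intro z hz
    have h1 : ‖z - 1‖ = ρ := by rwa [mem_sphere, dist_eq_norm] at hz
    refine ⟨?_, ?_, ?_, ?_, ?_, ?_⟩
    · intro h
      rw [h, sub_self, norm_zero] at h1
      linarith
    · have := norm_sub_norm_le (1:ℂ) (1 - z)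
      rw [norm_one, sub_sub_cancel, norm_sub_rev, h1] at this
      linarith
    · have := norm_add_le (z - 1) 1
      rw [sub_add_cancel, h1, norm_one] at this
      linarith
    · have := neg_abs_le (z - 1).re
      have h2 := Complex.abs_re_le_norm (z - 1)
      rw [h1] at h2
      rw [sub_re, one_re] at this h2
      linarith
    · have := le_abs_self (z - 1).re
      have h2 := Complex.abs_re_le_norm (z - 1)
      rw [h1] at h2
      rw [sub_re, one_re] at this h2
      linarith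
    · have h2 := Complex.abs_im_le_norm (z - 1)
      rw [h1, sub_im, one_im, sub_zero] at h2
      exact h2
  have hc : ContinuousOn (fun s => riemannZeta s ^ k) (sphere (1:ℂ) ρ) := fun z hzs =>
    ((differentiableAt_riemannZeta (hz z hzs).1).continuousAt.pow k).continuousWithinAt
  obtain ⟨C, hC⟩ := (isCompact_sphere (1:ℂ) ρ).exists_bound_of_continuousOn hc
  have hC0 : 0 ≤ C := by
    have h1 : (1 + ρ : ℂ) ∈ sphere (1:ℂ) ρ := by
      rw [mem_sphere, dist_eq_norm, add_sub_cancel_left, Complex.norm_real, Real.norm_of_nonneg hρ.le]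
    exact (norm_nonneg _).trans (hC _ h1)
  refine ⟨ρ * (C * (4 * (CP * 2 ^ N))), by positivity, fun L s t hL hs hs2 => ?_⟩
  have hL0 : 0 < L := by linarith
  have hX : 0 < (1 + |t|) ^ N := by positivity
  have hdiff : ∀ z : ℂ, z ≠ 0 → DifferentiableAt ℂ (px2 w L s σ t) z := by
    intro z hz0
    unfold px2
    have h1 : Differentiable ℂ (P (fun v => ((w v : ℝ) : ℂ))) := P_diff hw
    exact (DifferentiableAt.div (by fun_prop) differentiableAt_id hz0).mul
      ((differentiableAt_const _).mul ((h1 _).comp z (by fun_prop)))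
  rw [RL_radius k hρ hρ4 hdiff]
  have hbd : ∀ z ∈ sphere (1:ℂ) ρ, ‖riemannZeta z ^ k * px2 w L s σ t z‖ ≤
      C * ((4 * s) * (L * (CP * 2 ^ N * Real.exp (b * ((σ + ρ) * L)) / (1 + |t|) ^ N))) := by
    intro z hzs
    obtain ⟨-, z1, z2, z3, z4, z5⟩ := hz z hzs
    unfold px2
    rw [norm_mul, norm_mul, norm_mul, norm_div, Complex.norm_real, Real.norm_of_nonneg hL0.le]
    have b2 : ‖cexp (s * z) - 1‖ / ‖z‖ ≤ 4 * s := by
      have hzp : 0 < ‖z‖ := by linarith
      rw [div_le_iff₀ hzp]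
      have h1 : ‖(s : ℂ) * z‖ = s * ‖z‖ := by rw [norm_mul, Complex.norm_real, Real.norm_of_nonneg hs]
      have h2 : ‖(s : ℂ) * z‖ ≤ 1 := by rw [h1]; nlinarith
      have h3 := Complex.norm_exp_sub_one_le h2
      rw [h1] at h3
      nlinarith
    set z' : ℂ := L * (z - 1 + σ - t * I) with hz'
    have r1 : z'.re = L * (z.re - 1 + σ) := by
      rw [hz', Complex.re_ofReal_mul]
      congr 1
      simp
    have i1 : z'.im = L * (z.im - t) := by
      rw [hz', Complex.im_ofReal_mul]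
      congr 1
      simp
    have r0 : 0 ≤ z'.re := by rw [r1]; exact mul_nonneg hL0.le (by linarith)
    have h4 := hP z' r0
    have h5 : Real.exp (b * z'.re) ≤ Real.exp (b * ((σ + ρ) * L)) := by
      refine Real.exp_le_exp.2 (mul_le_mul_of_nonneg_left ?_ hb)
      rw [r1, mul_comm]
      exact mul_le_mul_of_nonneg_right (by linarith) hL0.le
    have h6 : (1 + |t|) ^ N ≤ 2 ^ N * (1 + ‖z'‖) ^ N := by
      rw [← mul_pow]
      refine pow_le_pow_left₀ (by positivity) ?_ N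
      have h7 := Complex.abs_im_le_norm z'
      rw [i1, abs_mul, abs_of_pos hL0] at h7
      have h8 : |t| - |z.im| ≤ |z.im - t| := by
        have := abs_sub_abs_le_abs_sub t z.im
        rwa [abs_sub_comm] at this
      have h9 : |t| - 1 / 4 ≤ L * |z.im - t| := by
        have h10 : |z.im - t| ≤ L * |z.im - t| := by nlinarith [abs_nonneg (z.im - t)]
        linarith
      linarith [abs_nonneg t]
    have h7 : ‖P (fun v => ((w v : ℝ) : ℂ)) z'‖ ≤ CP * 2 ^ N * Real.exp (b * ((σ + ρ) * L)) / (1 + |t|) ^ N := by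
      rw [le_div_iff₀ hX]
      calc ‖P (fun v => ((w v : ℝ) : ℂ)) z'‖ * (1 + |t|) ^ N ≤
            ‖P (fun v => ((w v : ℝ) : ℂ)) z'‖ * (2 ^ N * (1 + ‖z'‖) ^ N) :=
            mul_le_mul_of_nonneg_left h6 (norm_nonneg _)
        _ = (‖P (fun v => ((w v : ℝ) : ℂ)) z'‖ * (1 + ‖z'‖) ^ N) * 2 ^ N := by ring
        _ ≤ (CP * Real.exp (b * ((σ + ρ) * L))) * 2 ^ N :=
            mul_le_mul_of_nonneg_right (h4.trans (mul_le_mul_of_nonneg_left h5 hCP)) (by positivity)
        _ = _ := by ring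
    refine mul_le_mul (hC z hzs) ?_ (by positivity) hC0
    refine mul_le_mul b2 ?_ (by positivity) (by positivity)
    exact mul_le_mul_of_nonneg_left h7 hL0.le
  have h1 := circleIntegral.norm_two_pi_i_inv_smul_integral_le_of_norm_le_const hρ.le hbd
  rw [smul_eq_mul] at h1
  refine (mul_le_mul_of_nonneg_right h1 hX.le).trans (le_of_eq ?_)
  field_simp

/-- **the cross term is small** -/
theorem cross_small2 (k : ℕ) {w : ℝ → ℝ} {b : ℝ} (hw : TF b (fun v => ((w v : ℝ) : ℂ))) (hc : Continuous w)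
    (hs : HasCompactSupport w) (hb : 0 ≤ b) (q : ℕ) :
    Tendsto (fun T => ‖∫ u, conj (Gx k w (Real.log T) (Real.log (1 + T⁻¹)) u) * Ee k (Real.log (1 + T⁻¹)) u‖ / Nh q T)
      atTop (𝓝 0) := by
  obtain ⟨ρ, hρd⟩ : ∃ ρ : ℝ, ρ = 1 / (4 * (b + 1)) := ⟨_, rfl⟩
  have hρ0 : 0 < ρ := by rw [hρd]; positivity
  have hρ4 : ρ ≤ 1 / 4 := by
    rw [hρd]
    exact one_div_le_one_div_of_le (by norm_num) (by linarith)
  have hρb : ρ * (b + 1) = 1 / 4 := by
    rw [hρd]
    field_simp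
  have hδ : b * (ρ + ρ) < 1 := by nlinarith
  obtain ⟨C1, N, hC1, h1⟩ := cross_bd2 k hρ0 (by linarith : ρ ≤ 1 / 2)
  obtain ⟨δ, hδd⟩ : ∃ δ : ℝ, δ = 1 - b * (ρ + ρ) := ⟨_, rfl⟩
  have hδ0 : 0 < δ := by rw [hδd]; linarith
  obtain ⟨C2, hC2, h2⟩ := Gx2_bd k hw hb hρ0 hρ4 (le_refl ρ) N
  have L1 : Tendsto (fun T : ℝ => C1 * C2 * (Real.log T * Real.exp (-(δ * Real.log T)))) atTop (𝓝 (C1 * C2 * 0)) :=
    ((exp_lim hδ0).comp Real.tendsto_log_atTop).const_mul _
  rw [mul_zero] at L1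
  refine squeeze_zero' ?_ ?_ L1
  · filter_upwards [eventually_gt_atTop 1] with T hT
    exact div_nonneg (norm_nonneg _) (Nh_pos q hT).le
  · filter_upwards [eventually_ge_atTop (Real.exp 1), eventually_ge_atTop 2] with T hT hT2
    have hT0 : 0 < T := by linarith
    have hL : 1 ≤ Real.log T := by rwa [Real.le_log_iff_exp_le hT0]
    have hL0 : 0 < Real.log T := by linarith
    have hi : 0 < T⁻¹ := inv_pos.2 hT0
    have hi2 : T⁻¹ ≤ 1 / 2 := by rw [one_div]; exact inv_anti₀ (by norm_num) hT2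
    have s0 : 0 ≤ Real.log (1 + T⁻¹) := Real.log_nonneg (by linarith)
    have s1 : Real.log (1 + T⁻¹) ≤ T⁻¹ := by
      have := Real.log_le_sub_one_of_pos (show 0 < 1 + T⁻¹ by linarith)
      linarith
    set s := Real.log (1 + T⁻¹) with hsd
    have h3 := h1 (Gx k w (Real.log T) s) (Gx_cont k hc _ _) (Gx_cs k hs hL0 _)
      (C2 * s * Real.log T * Real.exp (b * ((ρ + ρ) * Real.log T))) (fun t => by
        have e := Gx2_eq k hc hs hL0 s ρ t
        have e2 : P (fun u => conj (Gx k w (Real.log T) s u)) ((ρ : ℂ) + t * I - 1 / 2) =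
            conj (∫ u : ℝ, Gx k w (Real.log T) s u * cexp (((-((1 / 2 - ρ) * u) : ℝ) : ℂ) + -(u * t * I))) := by
          rw [← integral_conj]
          unfold P
          refine integral_congr_ae (Eventually.of_forall fun u => ?_)
          simp only
          rw [map_mul, ← Complex.exp_conj]
          congr 2
          simp only [map_add, map_neg, map_mul, Complex.conj_ofReal, Complex.conj_I]
          push_cast
          ring
        rw [e2, RCLike.norm_conj, e]
        exact h2 (Real.log T) s t hL s0 (by linarith)) s s0 (by linarith)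
    have hN := Nh_pos q (show 1 < T by linarith)
    rw [div_le_iff₀ hN]
    refine h3.trans ?_
    have h4 : T⁻¹ ^ 2 * T ≤ Nh q T := by
      unfold Nh NN
      refine mul_le_mul_of_nonneg_left ?_ (by positivity)
      have : (1:ℝ) ≤ Real.log T ^ q := one_le_pow₀ hL
      nlinarith
    have h5 : s * s ≤ T⁻¹ ^ 2 := by rw [pow_two]; exact mul_le_mul s1 s1 s0 hi.le
    have h6 : Real.exp (b * ((ρ + ρ) * Real.log T)) = T * Real.exp (-(δ * Real.log T)) := by
      have : T * Real.exp (-(δ * Real.log T)) = Real.exp (Real.log T) * Real.exp (-(δ * Real.log T)) := by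
        rw [Real.exp_log hT0]
      rw [this, ← Real.exp_add]
      congr 1
      rw [hδd]
      ring
    rw [h6]
    have hE : 0 ≤ Real.exp (-(δ * Real.log T)) := (Real.exp_pos _).le
    calc C1 * s * (C2 * s * Real.log T * (T * Real.exp (-(δ * Real.log T)))) =
          (C1 * C2 * (Real.log T * Real.exp (-(δ * Real.log T)))) * (s * s * T) := by ring
      _ ≤ (C1 * C2 * (Real.log T * Real.exp (-(δ * Real.log T)))) * (T⁻¹ ^ 2 * T) := by
          refine mul_le_mul_of_nonneg_left (mul_le_mul_of_nonneg_right h5 hT0.le) (by positivity)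
      _ ≤ _ := mul_le_mul_of_nonneg_left h4 (by positivity)

/-- **the diagonal**: the limit -/
theorem dg_lim2 (hk : 1 ≤ k) {g : ℝ → ℝ} {b R C1 S : ℝ} (h : Ga g b R C1 S) (hb0 : 0 < b) {m : ℕ} (hm0 : 1 ≤ m) (hb : b < m) :
    Tendsto (fun T => (∫ u, g (u / Real.log T) * dg k (sg T) u) / Nh (k ^ 2) T) atTop (𝓝 (El k g)) := by
  have hX := (W182.KO.diag_real hk g h.cont b hb0.le h.out).comp Real.tendsto_log_atTop
  have hY := (W182.KO.diag_real hk cφ cφ_cont 2 (by norm_num) fun u hu => cφ_zero hu).comp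
    (Real.tendsto_log_atTop.const_mul_atTop (show (0:ℝ) < m by exact_mod_cast hm0))
  have hm : (1:ℝ) ≤ m := by exact_mod_cast hm0
  have hm1 : (0:ℝ) < m := by linarith
  have hS0 : 0 ≤ S := (abs_nonneg _).trans (h.bd 0)
  have hs0 : Tendsto sg atTop (𝓝 0) := by
    refine squeeze_zero' ?_ ?_ (tendsto_inv_atTop_zero (𝕜 := ℝ))
    · filter_upwards [eventually_gt_atTop 0] with T hT
      exact (sg_pos hT).le
    · filter_upwards [eventually_gt_atTop 0] with T hT
      exact sg_le hT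
  have hE : Tendsto (fun T : ℝ => ((3 * C1 + 2 * S) * (T * sg T) * sg T * (m:ℝ) ^ (k ^ 2)) *
      ((∑' n : ℕ, (W182.KO.dk k n : ℝ) * W182.KO.dk k n / n * cφ (Real.log n / (m * Real.log T))) /
        (m * Real.log T) ^ (((k:ℕ):ℝ) ^ 2))) atTop (𝓝 0) := by
    have h1 := (((sg_lim.const_mul (3 * C1 + 2 * S)).mul hs0).mul_const ((m:ℝ) ^ (k ^ 2))).mul hY
    rwa [mul_zero, zero_mul, zero_mul] at h1
  have key : Tendsto (fun T => (∫ u, g (u / Real.log T) * dg k (sg T) u) / Nh (k ^ 2) T -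
      (T * sg T) * ((∑' n : ℕ, (W182.KO.dk k n : ℝ) * W182.KO.dk k n / n * g (Real.log n / Real.log T)) /
        Real.log T ^ (((k:ℕ):ℝ) ^ 2))) atTop (𝓝 0) := by
    rw [tendsto_zero_iff_abs_tendsto_zero]
    have hb' : 0 < m - b := by linarith
    refine squeeze_zero' (Eventually.of_forall fun T => abs_nonneg _) ?_ hE
    filter_upwards [eventually_ge_atTop 2, Real.tendsto_log_atTop.eventually_ge_atTop 1,
      Real.tendsto_log_atTop.eventually_ge_atTop (1 / (m - b))] with T c1 c2 c3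
    have hT0 : 0 < T := by linarith
    have hT1 : 1 < T := by linarith
    have hi : 0 < T⁻¹ := inv_pos.2 hT0
    have hi1 : T⁻¹ ≤ 1 := inv_le_one_of_one_le₀ hT1.le
    have hL : 0 < Real.log T := by linarith
    have hX0 : 0 < T ^ m := by positivity
    have hlX : Real.log (T ^ m) = m * Real.log T := Real.log_pow _ _
    have hX1 : 1 < T ^ m := one_lt_pow₀ hT1 (by omega)
    have s0 := sg_pos hT0
    have s1 := sg_le hT0
    set s := sg T with hsd
    have hq : ∀ x : ℝ, x ^ (((k:ℕ):ℝ) ^ 2) = x ^ (k ^ 2) := by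
      intro x
      have e0 : ((k:ℕ):ℝ) ^ 2 = ((k ^ 2 : ℕ) : ℝ) := by push_cast; ring
      rw [e0, Real.rpow_natCast]
    have hLq : 0 < Real.log T ^ (k ^ 2) := pow_pos hL _
    have hbs : b * Real.log T + s ≤ Real.log (T ^ m) := by
      rw [hlX]
      have h4 : 1 ≤ (m - b) * Real.log T := by
        have := mul_le_mul_of_nonneg_left c3 hb'.le
        rwa [mul_one_div_cancel hb'.ne'] at this
      linarith
    simp only [Function.comp]
    rw [hq, hq, Nh_eq _ hT0, dg_int k h.cont hX0 hL s0.le h.out hbs]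
    have hdq : ∑ n ∈ Finset.Icc 1 ⌊T ^ m⌋₊, (W182.KO.dk k n : ℝ) ^ 2 * (g (Real.log n / Real.log T) / n) =
        ∑' n : ℕ, (W182.KO.dk k n : ℝ) * W182.KO.dk k n / n * g (Real.log n / Real.log T) := by
      have h4 := dsum_eq k (g := fun v => g (m * v)) (b := b / m) hX1 (fun v hv => h.out _ (by rwa [div_le_iff₀ hm1, mul_comm] at hv))
        ((div_le_one hm1).2 hb.le)
      rw [hlX] at h4
      have e5 : ∀ n : ℕ, (m:ℝ) * (Real.log n / (m * Real.log T)) = Real.log n / Real.log T := fun n => by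
        field_simp
      simp only [e5] at h4
      exact h4
    rw [← hdq]
    have e1 : (∑ n ∈ Finset.Icc 1 ⌊T ^ m⌋₊, (W182.KO.dk k n : ℝ) ^ 2 *
        ∫ u in Ico (Real.log n - s) (Real.log n), g (u / Real.log T) * Real.exp (-u)) /
          (T⁻¹ * Real.log T ^ (k ^ 2)) -
        (T * s) * ((∑ n ∈ Finset.Icc 1 ⌊T ^ m⌋₊, (W182.KO.dk k n : ℝ) ^ 2 * (g (Real.log n / Real.log T) / n)) /
          Real.log T ^ (k ^ 2)) =
        (∑ n ∈ Finset.Icc 1 ⌊T ^ m⌋₊, (W182.KO.dk k n : ℝ) ^ 2 *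
        ((∫ u in Ico (Real.log n - s) (Real.log n), g (u / Real.log T) * Real.exp (-u)) -
          s * (g (Real.log n / Real.log T) / n))) / (T⁻¹ * Real.log T ^ (k ^ 2)) := by
      simp only [mul_sub, Finset.sum_sub_distrib, sub_div]
      congr 1
      have e2 : ∀ n : ℕ, (W182.KO.dk k n : ℝ) ^ 2 * (s * (g (Real.log n / Real.log T) / n)) =
          s * ((W182.KO.dk k n : ℝ) ^ 2 * (g (Real.log n / Real.log T) / n)) := fun n => by ring
      simp only [e2]
      rw [← Finset.mul_sum]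
      field_simp
    rw [e1, abs_div, abs_of_pos (mul_pos hi hLq), div_le_iff₀ (mul_pos hi hLq)]
    have h2 : |∑ n ∈ Finset.Icc 1 ⌊T ^ m⌋₊, (W182.KO.dk k n : ℝ) ^ 2 *
        ((∫ u in Ico (Real.log n - s) (Real.log n), g (u / Real.log T) * Real.exp (-u)) -
          s * (g (Real.log n / Real.log T) / n))| ≤
        ∑ n ∈ Finset.Icc 1 ⌊T ^ m⌋₊, ((3 * C1 + 2 * S) * s ^ 2) * ((W182.KO.dk k n : ℝ) ^ 2 / n) := by
      refine (Finset.abs_sum_le_sum_abs _ _).trans (Finset.sum_le_sum fun n hn => ?_)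
      rw [abs_mul, abs_of_nonneg (by positivity)]
      have h3 := int_cell h.cont h.hC1 h.bd h.lip (Finset.mem_Icc.1 hn).1 s0.le (by linarith : s ≤ 1) c2
      calc (W182.KO.dk k n : ℝ) ^ 2 * |(∫ u in Ico (Real.log n - s) (Real.log n), g (u / Real.log T) *
            Real.exp (-u)) - s * (g (Real.log n / Real.log T) / n)| ≤
            (W182.KO.dk k n : ℝ) ^ 2 * ((3 * C1 + 2 * S) * s ^ 2 / n) :=
            mul_le_mul_of_nonneg_left h3 (by positivity)
        _ = _ := by ring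
    refine h2.trans ?_
    rw [← Finset.mul_sum]
    have h4 := dsum_le k hX1
    rw [hlX] at h4
    have h5 : 0 ≤ (3 * C1 + 2 * S) * s ^ 2 := by
      have := h.hC1
      positivity
    refine (mul_le_mul_of_nonneg_left h4 h5).trans (le_of_eq ?_)
    rw [mul_pow]
    field_simp
  have h3 := key.add (sg_lim.mul hX)
  rw [zero_add, one_mul] at h3
  refine h3.congr fun T => ?_
  simp only [Function.comp]
  ring


/-- **the correlations and the variance** -/
theorem co_diff2 (hk : 1 ≤ k) {w : ℝ → ℝ} {b : ℝ} (hw : ContDiff ℝ ∞ w) (hc : HasCompactSupport w)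
    (h0 : ∀ v, b ≤ v → w v = 0) (hb : 0 < b) :
    Tendsto (fun T => V1 k (k ^ 2) w T - Cw k w T) atTop (𝓝 (H306R2.aF k * J0 k w)) := by
  obtain ⟨R, C1, S, hR, hG⟩ := Ga_Tst hb (⟨hw, hc, h0⟩ : Tst b w)
  obtain ⟨m, hm⟩ := exists_nat_gt (max b 1)
  have hm1 : b < m := (le_max_left _ _).trans_lt hm
  have hm2 : 1 ≤ m := by
    have : (1:ℝ) < m := (le_max_right _ _).trans_lt hm
    exact_mod_cast this.le
  have h1 := dg_lim2 hk hG hb hm2 hm1
  rw [El_eq hk] at h1
  have hTF : TF b (fun v => ((w v : ℝ) : ℂ)) := ⟨(ofRealCLM.contDiff (n := ∞)).comp hw,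
    hc.comp_left (g := Complex.ofReal) Complex.ofReal_zero, fun v hv => by
      rw [h0 v hv.le, Complex.ofReal_zero]⟩
  have h2 := cross_small2 k hTF hw.continuous hc hb.le (k ^ 2)
  have h3 : Tendsto (fun T => (∫ u, conj (Gx k w (Real.log T) (Real.log (1 + T⁻¹)) u) *
      Ee k (Real.log (1 + T⁻¹)) u).re / Nh (k ^ 2) T) atTop (𝓝 0) := by
    rw [tendsto_zero_iff_abs_tendsto_zero]
    refine squeeze_zero' (Eventually.of_forall fun T => abs_nonneg _) ?_ h2
    filter_upwards [eventually_gt_atTop 1] with T hT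
    have hN := Nh_pos (k ^ 2) hT
    simp only [Function.comp]
    rw [abs_div, abs_of_pos hN]
    exact div_le_div_of_nonneg_right (Complex.abs_re_le_norm _) hN.le
  have h4 := h1.sub (h3.const_mul 2)
  rw [mul_zero, sub_zero] at h4
  refine h4.congr' ?_
  filter_upwards [eventually_gt_atTop 1] with T hT
  rw [V1_dec k hw.continuous hc hT]
  ring

/-- **the equivalence with the correlations** -/
theorem co_iff2 (hk : 2 ≤ k) {θ : ℝ} {w : ℝ → ℝ} (hθ : 0 ≤ θ) (hθ1 : θ < 1) (h : SW k θ (k - θ) w) (c : ℝ) :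
    Tendsto (fun T => M (zk k) T / NN (k ^ 2) T) atTop (𝓝 c) ↔
      Tendsto (Cw k w) atTop (𝓝 (c / 2 - H306R2.aF k * ct k θ (k - θ) w)) := by
  have hk2 : (2:ℝ) ≤ k := by exact_mod_cast hk
  have hb : (0:ℝ) < k - θ := by linarith
  have hd := co_diff2 (k := k) (by omega) h.smooth h.cs h.right hb
  rw [main_iff hk (by linarith) (by linarith) (h.cut le_rfl), h.half_eq, ← ct_eq (by omega) hθ hb.le h]
  constructor
  · intro h1
    have h2 := h1.sub hd
    have e : c / 2 - H306R2.aF (k:ℝ) * corr k (1 - θ) w - H306R2.aF (k:ℝ) * J0 k w =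
        c / 2 - H306R2.aF (k:ℝ) * (corr k (1 - θ) w + J0 k w) := by ring
    rw [e] at h2
    exact h2.congr fun T => by ring
  · intro h1
    have h2 := h1.add hd
    have e : c / 2 - H306R2.aF (k:ℝ) * (corr k (1 - θ) w + J0 k w) + H306R2.aF (k:ℝ) * J0 k w =
        c / 2 - H306R2.aF (k:ℝ) * corr k (1 - θ) w := by ring
    rw [e] at h2
    exact h2.congr fun T => by ring

end

end Pool.Agent.J4.H32.VS
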