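import Pool.Agent.J4.H32.VS.U3

set_option autoImplicit false

/-! The error of the smoothing. -/

namespace Pool.Agent.J4.H32.VS

open Complex MeasureTheory Filter Topology Set Metric Pool.Agent.TH535.SM Pool.Agent.R446.KR
open Pool.Agent.J4.H44.LP
open scoped FourierTransform ComplexConjugate

noncomputable section

/-- the inverse transform -/
def Bf (F : ℝ → ℂ) (u : ℝ) : ℂ := ((1 / (2 * Real.pi) : ℝ) : ℂ) * 𝓕 F (-(u / (2 * Real.pi)))

lemma Bh_Bf (k : ℕ) {h ε : ℝ} (hh : 0 ≤ h) (hε : 0 < ε) : Bh k h ε = Bf (Gb k h ε) :=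
  funext fun u => Bh_ft k hh hε u

lemma Bf_cont {F : ℝ → ℂ} (hF : Dec F) : Continuous (Bf F) := by
  have := ft_cont hF
  unfold Bf
  fun_prop

lemma Bf_sub {F G : ℝ → ℂ} (hF : Dec F) (hG : Dec G) (u : ℝ) :
    Bf (fun t => F t - G t) u = Bf F u - Bf G u := by
  have e : (fun t => F t - G t) = fun t => F t + (-1 : ℂ) * G t := by funext t; ring
  unfold Bf
  rw [e, ft_add hF (hG.smul (-1)), ft_smul]
  ring

lemma Bf_sq (F : ℝ → ℂ) (u : ℝ) : ‖Bf F u‖ ^ 2 = (1 / (2 * Real.pi)) ^ 2 * ‖𝓕 F (-(u / (2 * Real.pi)))‖ ^ 2 := by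
  unfold Bf
  rw [norm_mul, mul_pow, Complex.norm_real, Real.norm_of_nonneg (by positivity)]

lemma Bf_St (F : ℝ → ℂ) (L : ℝ) (g : ℝ → ℝ) :
    ∫ u : ℝ, g (u / L) * ‖Bf F u‖ ^ 2 = 1 / (2 * Real.pi) * St F L g := by
  rw [scale_int]
  unfold St
  rw [smul_eq_mul, ← integral_const_mul, ← integral_const_mul]
  refine integral_congr_ae (Eventually.of_forall fun w => ?_)
  simp only
  rw [Bf_sq]
  have e1 : -(-(2 * Real.pi) * w / (2 * Real.pi)) = w := by field_simp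
  have e2 : -(2 * Real.pi) * w / L = -(2 * Real.pi * w / L) := by ring
  rw [e1, e2]
  field_simp

lemma Bf_int {F : ℝ → ℂ} (hF : Dec F) : Integrable (fun u : ℝ => ‖Bf F u‖ ^ 2) := by
  have h1 := (planch hF).1
  have h2 := h1.comp_mul_left' (R := -(2 * Real.pi)⁻¹) (neg_ne_zero.2 (by
    have := Real.pi_pos
    positivity))
  refine (h2.const_mul ((1 / (2 * Real.pi)) ^ 2)).congr (Eventually.of_forall fun u => ?_)
  simp only
  rw [Bf_sq]
  congr 3
  ring_nf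

lemma Bf_norm {F : ℝ → ℂ} (hF : Dec F) : ∫ u : ℝ, ‖Bf F u‖ ^ 2 = 1 / (2 * Real.pi) * ∫ t, ‖F t‖ ^ 2 := by
  have h := Bf_St F 1 (fun _ => 1)
  rw [St_one hF] at h
  rw [← h]
  refine integral_congr_ae (Eventually.of_forall fun u => ?_)
  simp

/-- Fatou's lemma -/
lemma fatou_sq {F : ℕ → ℝ → ℂ} {G : ℝ → ℂ} {B : ℝ} (hF : ∀ n, AEStronglyMeasurable (F n))
    (hG : AEStronglyMeasurable G) (hlim : ∀ᵐ u : ℝ, Tendsto (fun n => F n u) atTop (𝓝 (G u)))
    (hi : ∀ n, Integrable (fun u => ‖F n u‖ ^ 2)) (hB : ∀ n, ∫ u, ‖F n u‖ ^ 2 ≤ B) :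
    Integrable (fun u => ‖G u‖ ^ 2) ∧ ∫ u, ‖G u‖ ^ 2 ≤ B := by
  have hB0 : 0 ≤ B := (integral_nonneg fun u => by positivity).trans (hB 0)
  have h1 : ∫⁻ u, ENNReal.ofReal (‖G u‖ ^ 2) ≤ ENNReal.ofReal B := by
    have h2 : ∫⁻ u, ENNReal.ofReal (‖G u‖ ^ 2) = ∫⁻ u, liminf (fun n => ENNReal.ofReal (‖F n u‖ ^ 2)) atTop := by
      refine lintegral_congr_ae ?_
      filter_upwards [hlim] with u hu
      have h3 : Tendsto (fun n => ENNReal.ofReal (‖F n u‖ ^ 2)) atTop (𝓝 (ENNReal.ofReal (‖G u‖ ^ 2))) :=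
        (ENNReal.continuous_ofReal.tendsto _).comp (hu.norm.pow 2)
      exact h3.liminf_eq.symm
    rw [h2]
    refine (lintegral_liminf_le' (f := fun n u => ENNReal.ofReal (‖F n u‖ ^ 2))
      fun n => ((hF n).norm.pow 2).aemeasurable.ennreal_ofReal).trans ?_
    refine liminf_le_of_le (by isBoundedDefault) fun b hb => ?_
    obtain ⟨n, hn⟩ := hb.exists
    refine hn.trans ?_
    rw [← ofReal_integral_eq_lintegral_ofReal (hi n) (Eventually.of_forall fun u => by positivity)]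
    exact ENNReal.ofReal_le_ofReal (hB n)
  have h3 : Integrable (fun u => ‖G u‖ ^ 2) := by
    refine ⟨hG.norm.pow 2, ?_⟩
    rw [hasFiniteIntegral_iff_ofReal (Eventually.of_forall fun t => by positivity)]
    exact h1.trans_lt ENNReal.ofReal_lt_top
  refine ⟨h3, ?_⟩
  rw [← ENNReal.ofReal_le_ofReal_iff hB0, ofReal_integral_eq_lintegral_ofReal h3
    (Eventually.of_forall fun u => by positivity)]
  exact h1

/-- the integral of the normalisation -/
lemma NN_inv (q : ℕ) : ∃ K : ℝ, 0 ≤ K ∧ ∀ a b : ℝ, 0 < a → a ≤ b → b ≤ Real.exp (-1) →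
    IntervalIntegrable (fun s => NN q ((√s)⁻¹)) volume a b ∧
    ∫ s in a..b, NN q ((√s)⁻¹) ≤ K * √b * Real.log (1 / b) ^ q := by
  set K : ℝ := 4 ^ q * q.factorial * Real.exp (1 / 4) with hK
  refine ⟨4 * K, by positivity, fun a b ha hab hb => ?_⟩
  have hb0 : 0 < b := ha.trans_le hab
  have hlb : 1 ≤ Real.log (1 / b) := by
    rw [one_div, Real.log_inv]
    have := Real.log_le_log hb0 hb
    rw [Real.log_exp] at this
    linarith
  have hle : ∀ s ∈ Icc a b, NN q ((√s)⁻¹) ≤ K * Real.log (1 / b) ^ q * b ^ (1 / 4 : ℝ) * s ^ (-(3 / 4) : ℝ) := by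
    intro s hs
    have hs0 : 0 < s := ha.trans_le hs.1
    have hy : 1 ≤ b / s := by rw [one_le_div hs0]; exact hs.2
    have hly : 0 ≤ Real.log (b / s) := Real.log_nonneg hy
    unfold NN
    have e1 : Real.log ((√s)⁻¹) = 1 / 2 * Real.log (1 / s) := by
      rw [Real.log_inv, Real.log_sqrt hs0.le, one_div s, Real.log_inv]
      ring
    have e2 : Real.log (1 / s) = Real.log (1 / b) + Real.log (b / s) := by
      rw [← Real.log_mul (by positivity) (by positivity)]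
      congr 1
      field_simp
    have h1 : Real.log (1 / s) ≤ Real.log (1 / b) * (1 + Real.log (b / s)) := by
      rw [e2]; nlinarith
    have h2 : 0 ≤ Real.log (1 / s) := by rw [e2]; linarith
    have h3 : (1 + Real.log (b / s)) ^ q ≤ K * (b / s) ^ (1 / 4 : ℝ) := by
      have h4 := Real.pow_div_factorial_le_exp ((1 + Real.log (b / s)) / 4) (by positivity) q
      have hf : (0:ℝ) < q.factorial := by exact_mod_cast Nat.factorial_pos q
      rw [div_le_iff₀ hf, div_pow, div_le_iff₀ (by positivity)] at h4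
      have e5 : Real.exp ((1 + Real.log (b / s)) / 4) = Real.exp (1 / 4) * (b / s) ^ (1 / 4 : ℝ) := by
        rw [Real.rpow_def_of_pos (by positivity), ← Real.exp_add]
        congr 1; ring
      rw [e5] at h4
      calc _ ≤ _ := h4
        _ = _ := by rw [hK]; ring
    have h5 : Real.log ((√s)⁻¹) ^ q ≤ Real.log (1 / b) ^ q * (K * (b / s) ^ (1 / 4 : ℝ)) := by
      rw [e1]
      calc (1 / 2 * Real.log (1 / s)) ^ q ≤ (Real.log (1 / b) * (1 + Real.log (b / s))) ^ q := by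
            refine pow_le_pow_left₀ (by positivity) ?_ q
            linarith
        _ = Real.log (1 / b) ^ q * (1 + Real.log (b / s)) ^ q := mul_pow _ _ _
        _ ≤ _ := mul_le_mul_of_nonneg_left h3 (by positivity)
    have e6 : (√s)⁻¹ = s ^ (-(1 / 2) : ℝ) := by
      rw [Real.sqrt_eq_rpow, Real.rpow_neg hs0.le]
    have e7 : (b / s) ^ (1 / 4 : ℝ) = b ^ (1 / 4 : ℝ) * s ^ (-(1 / 4) : ℝ) := by
      rw [Real.div_rpow hb0.le hs0.le, Real.rpow_neg hs0.le]; rfl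
    have e8 : s ^ (-(1 / 2) : ℝ) * s ^ (-(1 / 4) : ℝ) = s ^ (-(3 / 4) : ℝ) := by
      rw [← Real.rpow_add hs0]; norm_num
    calc (√s)⁻¹ * Real.log ((√s)⁻¹) ^ q ≤ (√s)⁻¹ * (Real.log (1 / b) ^ q * (K * (b / s) ^ (1 / 4 : ℝ))) := by
          gcongr
      _ = K * Real.log (1 / b) ^ q * b ^ (1 / 4 : ℝ) * (s ^ (-(1 / 2) : ℝ) * s ^ (-(1 / 4) : ℝ)) := by
          rw [e6, e7]; ring
      _ = _ := by rw [e8]
  have hc : ContinuousOn (fun s => NN q ((√s)⁻¹)) (uIcc a b) := by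
    rw [uIcc_of_le hab]
    unfold NN
    have h1 : ContinuousOn (fun s : ℝ => (√s)⁻¹) (Icc a b) := by
      refine ContinuousOn.inv₀ (by fun_prop) fun s hs => ?_
      have : 0 < s := ha.trans_le hs.1
      positivity
    refine h1.mul (ContinuousOn.pow (ContinuousOn.log h1 fun s hs => ?_) q)
    have : 0 < s := ha.trans_le hs.1
    positivity
  have hi : IntervalIntegrable (fun s => NN q ((√s)⁻¹)) volume a b := hc.intervalIntegrable
  refine ⟨hi, ?_⟩
  have hi2 : IntervalIntegrable (fun s : ℝ => s ^ (-(3 / 4) : ℝ)) volume a b :=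
    intervalIntegral.intervalIntegrable_rpow' (by norm_num)
  have h1 := intervalIntegral.integral_mono_on hab hi
    (hi2.const_mul (K * Real.log (1 / b) ^ q * b ^ (1 / 4 : ℝ))) hle
  refine h1.trans ?_
  rw [intervalIntegral.integral_const_mul, integral_rpow (Or.inl (by norm_num))]
  have e9 : (-(3 / 4) + 1 : ℝ) = 1 / 4 := by norm_num
  rw [e9]
  have h2 : 0 ≤ a ^ (1 / 4 : ℝ) := by positivity
  have e10 : b ^ (1 / 4 : ℝ) * b ^ (1 / 4 : ℝ) = √b := by
    rw [← Real.rpow_add hb0, Real.sqrt_eq_rpow]; norm_num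
  have h3 : 0 ≤ K * Real.log (1 / b) ^ q * b ^ (1 / 4 : ℝ) := by positivity
  calc K * Real.log (1 / b) ^ q * b ^ (1 / 4 : ℝ) * ((b ^ (1 / 4 : ℝ) - a ^ (1 / 4 : ℝ)) / (1 / 4)) ≤
        K * Real.log (1 / b) ^ q * b ^ (1 / 4 : ℝ) * (b ^ (1 / 4 : ℝ) / (1 / 4)) := by
        refine mul_le_mul_of_nonneg_left ?_ h3
        linarith
    _ = 4 * K * (b ^ (1 / 4 : ℝ) * b ^ (1 / 4 : ℝ)) * Real.log (1 / b) ^ q := by ring
    _ = _ := by rw [e10]

lemma mass_sqrt (k : ℕ) {s : ℝ} (hs : 0 < s) : mass k ((√s)⁻¹) = ∫ t : ℝ, ‖zk k t‖ ^ 2 * Real.exp (-(s * t ^ 2)) := by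
  unfold mass
  refine integral_congr_ae (Eventually.of_forall fun t => ?_)
  simp only
  rw [Fh_norm, inv_inv, Real.sq_sqrt hs.le]

lemma zg_int (k : ℕ) {s : ℝ} (hs : 0 < s) : Integrable (fun t : ℝ => ‖zk k t‖ ^ 2 * Real.exp (-(s * t ^ 2))) := by
  have h := (Fh_dec k (h := √s) (by positivity)).sq
  refine h.congr (Eventually.of_forall fun t => ?_)
  simp only
  rw [Fh_norm, Real.sq_sqrt hs.le]

/-- integrating the mass -/
lemma mass_swap (k : ℕ) {a b : ℝ} (ha : 0 < a) (hab : a ≤ b) :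
    Integrable (fun t : ℝ => ‖zk k t‖ ^ 2 * ∫ s in a..b, Real.exp (-(s * t ^ 2))) ∧
    ∫ t : ℝ, ‖zk k t‖ ^ 2 * (∫ s in a..b, Real.exp (-(s * t ^ 2))) = ∫ s in a..b, mass k ((√s)⁻¹) := by
  have hz : Continuous (fun t => ‖zk k t‖ ^ 2) := (zk_cont k).norm.pow 2
  have hi : Integrable (Function.uncurry fun (s t : ℝ) => ‖zk k t‖ ^ 2 * Real.exp (-(s * t ^ 2)))
      ((volume.restrict (Ioc a b)).prod volume) := by
    have h1 : Integrable (fun p : ℝ × ℝ => (1:ℝ) * (‖zk k p.2‖ ^ 2 * Real.exp (-(a * p.2 ^ 2))))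
        ((volume.restrict (Ioc a b)).prod volume) := (integrable_const (1:ℝ)).mul_prod (zg_int k ha)
    refine h1.mono' (Continuous.aestronglyMeasurable ?_) ?_
    · unfold Function.uncurry
      exact (hz.comp continuous_snd).mul (by fun_prop)
    · have h2 : ∀ᵐ p : ℝ × ℝ ∂((volume.restrict (Ioc a b)).prod volume), p.1 ∈ Ioc a b := by
        have h3 : ∀ᵐ θ ∂(volume.restrict (Ioc a b)), θ ∈ Ioc a b := ae_restrict_mem measurableSet_Ioc
        exact Measure.quasiMeasurePreserving_fst.ae h3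
      filter_upwards [h2] with p hp
      rw [one_mul, Real.norm_of_nonneg (by unfold Function.uncurry; positivity)]
      unfold Function.uncurry
      refine mul_le_mul_of_nonneg_left (Real.exp_le_exp.2 ?_) (by positivity)
      have := mul_le_mul_of_nonneg_right hp.1.le (sq_nonneg p.2)
      linarith
  have e1 : ∀ t : ℝ, ‖zk k t‖ ^ 2 * (∫ s in a..b, Real.exp (-(s * t ^ 2))) =
      ∫ s in Ioc a b, ‖zk k t‖ ^ 2 * Real.exp (-(s * t ^ 2)) := by
    intro t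
    rw [intervalIntegral.integral_of_le hab, integral_const_mul]
  constructor
  · refine (hi.integral_prod_right).congr (Eventually.of_forall fun t => ?_)
    exact (e1 t).symm
  · simp_rw [e1]
    rw [← integral_integral_swap hi, intervalIntegral.integral_of_le hab]
    refine setIntegral_congr_fun measurableSet_Ioc fun s hs => ?_
    exact (mass_sqrt k (ha.trans hs.1)).symm

lemma gauss_prim (t a b : ℝ) : t ^ 2 * ∫ s in a..b, Real.exp (-(s * t ^ 2)) =
    Real.exp (-(a * t ^ 2)) - Real.exp (-(b * t ^ 2)) := by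
  rw [← intervalIntegral.integral_const_mul]
  have hd : ∀ s ∈ uIcc a b, HasDerivAt (fun s : ℝ => -Real.exp (-(s * t ^ 2))) (t ^ 2 * Real.exp (-(s * t ^ 2))) s := by
    intro s _
    have h1 : HasDerivAt (fun s : ℝ => -(s * t ^ 2)) (-(1 * t ^ 2)) s := ((hasDerivAt_id' s).mul_const _).fun_neg
    exact h1.exp.fun_neg.congr_deriv (by ring)
  rw [intervalIntegral.integral_eq_sub_of_hasDerivAt hd
    ((by fun_prop : Continuous fun s : ℝ => t ^ 2 * Real.exp (-(s * t ^ 2))).intervalIntegrable _ _)]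
  ring

/-- the distance of two smoothings -/
lemma Bh_dist (k : ℕ) {h a b : ℝ} (hh : 0 ≤ h) (hh1 : h ≤ 1) (ha : 0 < a) (hab : a ≤ b) :
    ∫ u, ‖Bh k h a u - Bh k h b u‖ ^ 2 ≤ 9 * ∫ s in (a ^ 2 / 2)..(b ^ 2 / 2), mass k ((√s)⁻¹) := by
  have hb : 0 < b := ha.trans_le hab
  have d1 := Gb_dec k hh ha
  have d2 := Gb_dec k hh hb
  have ha2 : 0 < a ^ 2 / 2 := by positivity
  have hab2 : a ^ 2 / 2 ≤ b ^ 2 / 2 := by gcongr
  obtain ⟨i1, e1⟩ := mass_swap k ha2 hab2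
  have e2 : ∫ u, ‖Bh k h a u - Bh k h b u‖ ^ 2 = 1 / (2 * Real.pi) * ∫ t, ‖Gb k h a t - Gb k h b t‖ ^ 2 := by
    rw [← Bf_norm (d1.sub d2), Bh_Bf k hh ha, Bh_Bf k hh hb]
    refine integral_congr_ae (Eventually.of_forall fun u => ?_)
    simp only
    rw [Bf_sub d1 d2]
  have h1 : ∫ t, ‖Gb k h a t - Gb k h b t‖ ^ 2 ≤ 9 * ∫ s in (a ^ 2 / 2)..(b ^ 2 / 2), mass k ((√s)⁻¹) := by
    rw [← e1, ← integral_const_mul]
    refine integral_mono (d1.sub d2).sq (i1.const_mul 9) fun t => ?_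
    simp only
    have e3 : Gb k h a t - Gb k h b t = kap h t * zk k t *
        ((Real.exp (-(a ^ 2 / 2 * t ^ 2)) - Real.exp (-(b ^ 2 / 2 * t ^ 2)) : ℝ) : ℂ) := by
      unfold Gb Fh
      rw [show -(a ^ 2 * t ^ 2 / 2) = -(a ^ 2 / 2 * t ^ 2) by ring,
        show -(b ^ 2 * t ^ 2 / 2) = -(b ^ 2 / 2 * t ^ 2) by ring]
      push_cast
      ring
    have h2 : 0 ≤ Real.exp (-(a ^ 2 / 2 * t ^ 2)) - Real.exp (-(b ^ 2 / 2 * t ^ 2)) := by
      rw [sub_nonneg]
      refine Real.exp_le_exp.2 ?_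
      have := mul_le_mul_of_nonneg_right hab2 (sq_nonneg t)
      linarith
    have h3 : Real.exp (-(a ^ 2 / 2 * t ^ 2)) - Real.exp (-(b ^ 2 / 2 * t ^ 2)) ≤ 1 := by
      have h4 : Real.exp (-(a ^ 2 / 2 * t ^ 2)) ≤ 1 := Real.exp_le_one_iff.2 (by
        have : 0 ≤ a ^ 2 / 2 * t ^ 2 := by positivity
        linarith)
      have := Real.exp_pos (-(b ^ 2 / 2 * t ^ 2))
      linarith
    have h5 := kap_dec hh1 t
    rw [e3, norm_mul, norm_mul, Complex.norm_real, Real.norm_of_nonneg h2, mul_pow, mul_pow]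
    rw [← gauss_prim] at h2 h3 ⊢
    set J : ℝ := ∫ s in (a ^ 2 / 2)..(b ^ 2 / 2), Real.exp (-(s * t ^ 2)) with hJ
    have h6 : (t ^ 2 * J) ^ 2 ≤ t ^ 2 * J := by nlinarith
    have h7 : (‖kap h t‖ * |t|) ^ 2 ≤ 9 := by
      have := mul_nonneg (norm_nonneg (kap h t)) (abs_nonneg t)
      nlinarith
    rw [mul_pow, sq_abs] at h7
    have hJ0 : 0 ≤ J := intervalIntegral.integral_nonneg hab2 fun s _ => (Real.exp_pos _).le
    calc ‖kap h t‖ ^ 2 * ‖zk k t‖ ^ 2 * (t ^ 2 * J) ^ 2 ≤ ‖kap h t‖ ^ 2 * ‖zk k t‖ ^ 2 * (t ^ 2 * J) := by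
          gcongr
      _ = (‖kap h t‖ ^ 2 * t ^ 2) * (‖zk k t‖ ^ 2 * J) := by ring
      _ ≤ 9 * (‖zk k t‖ ^ 2 * J) := by gcongr
  have h2 : 0 ≤ 9 * ∫ s in (a ^ 2 / 2)..(b ^ 2 / 2), mass k ((√s)⁻¹) :=
    (integral_nonneg fun t => by positivity).trans h1
  have h3 : 1 / (2 * Real.pi) ≤ 1 := by
    rw [div_le_one (by positivity)]
    linarith [Real.pi_gt_three]
  rw [e2]
  calc 1 / (2 * Real.pi) * ∫ t, ‖Gb k h a t - Gb k h b t‖ ^ 2 ≤
        1 / (2 * Real.pi) * (9 * ∫ s in (a ^ 2 / 2)..(b ^ 2 / 2), mass k ((√s)⁻¹)) := by gcongr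
    _ ≤ 1 * (9 * ∫ s in (a ^ 2 / 2)..(b ^ 2 / 2), mass k ((√s)⁻¹)) := by gcongr
    _ = _ := one_mul _

/-- **the error of the smoothing** -/
theorem Bh_err {k q : ℕ} (hup : ∃ C : ℝ, ∀ᶠ T : ℝ in atTop, mass k T ≤ C * NN q T) :
    ∃ K b0 : ℝ, 0 ≤ K ∧ 0 < b0 ∧ ∀ h b : ℝ, 0 ≤ h → h ≤ 1 → 0 < b → b ≤ b0 →
      Integrable (fun u => ‖Ee k h u - Bh k h b u‖ ^ 2) ∧
      ∫ u, ‖Ee k h u - Bh k h b u‖ ^ 2 ≤ K * b * Real.log (1 / b) ^ q := by
  obtain ⟨C, hC⟩ := hup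
  obtain ⟨T0, hT0⟩ := eventually_atTop.1 hC
  obtain ⟨K, hK, hb⟩ := NN_inv q
  set T1 : ℝ := max T0 2 with hT1
  have hT1p : 0 < T1 := lt_of_lt_of_le (by norm_num) (le_max_right _ _)
  refine ⟨9 * (|C| * (K * 3 ^ q)), min (min (Real.exp (-1)) (T1⁻¹)) (1 / 4), by positivity, by positivity,
    fun h b hh hh1 hb0 hbb => ?_⟩
  have hb1 : b ≤ Real.exp (-1) := hbb.trans ((min_le_left _ _).trans (min_le_left _ _))
  have hb2 : b ≤ T1⁻¹ := hbb.trans ((min_le_left _ _).trans (min_le_right _ _))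
  have hb3 : b ≤ 1 / 4 := hbb.trans (min_le_right _ _)
  have hlb : 1 ≤ Real.log (1 / b) := by
    rw [one_div, Real.log_inv]
    have := Real.log_le_log hb0 hb1
    rw [Real.log_exp] at this
    linarith
  have hbs : b ^ 2 / 2 ≤ Real.exp (-1) := by
    have : b ^ 2 / 2 ≤ b := by nlinarith
    linarith
  have h4 : √(b ^ 2 / 2) ≤ b := by
    rw [Real.sqrt_le_left hb0.le]
    nlinarith [sq_nonneg b]
  -- the bound for all `a`
  have key : ∀ a : ℝ, 0 < a → a ≤ b → ∫ u, ‖Bh k h a u - Bh k h b u‖ ^ 2 ≤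
      9 * (|C| * (K * 3 ^ q)) * b * Real.log (1 / b) ^ q := by
    intro a ha hab
    have ha2 : 0 < a ^ 2 / 2 := by positivity
    have hab2 : a ^ 2 / 2 ≤ b ^ 2 / 2 := by gcongr
    obtain ⟨i1, n1⟩ := hb _ _ ha2 hab2 hbs
    have h1 := Bh_dist k hh hh1 ha hab
    have h2 : ∫ s in (a ^ 2 / 2)..(b ^ 2 / 2), mass k ((√s)⁻¹) ≤
        ∫ s in (a ^ 2 / 2)..(b ^ 2 / 2), |C| * NN q ((√s)⁻¹) := by
      rw [intervalIntegral.integral_of_le hab2, intervalIntegral.integral_of_le hab2]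
      refine integral_mono_of_nonneg (Eventually.of_forall fun s => mass_nonneg k _)
        ((intervalIntegrable_iff_integrableOn_Ioc_of_le hab2).1 (i1.const_mul |C|)) ?_
      filter_upwards [ae_restrict_mem measurableSet_Ioc] with s hs
      have hs0 : 0 < s := ha2.trans hs.1
      have h5 : T1 ≤ (√s)⁻¹ := by
        rw [le_inv_comm₀ hT1p (by positivity)]
        exact ((Real.sqrt_le_sqrt hs.2).trans h4).trans hb2
      have h6 := hT0 ((√s)⁻¹) ((le_max_left _ _).trans h5)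
      have h7 := NN_pos q (show 1 < (√s)⁻¹ from lt_of_lt_of_le (by
        have := le_max_right T0 2
        linarith) h5)
      exact h6.trans (mul_le_mul_of_nonneg_right (le_abs_self C) h7.le)
    rw [intervalIntegral.integral_const_mul] at h2
    have h3 : Real.log (1 / (b ^ 2 / 2)) ≤ 3 * Real.log (1 / b) := by
      have e1 : 1 / (b ^ 2 / 2) = 2 * (1 / b) ^ 2 := by field_simp
      rw [e1, Real.log_mul (by norm_num) (by positivity), Real.log_pow]
      have := Real.log_two_lt_d9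
      push_cast
      linarith
    have h0 : 0 ≤ Real.log (1 / (b ^ 2 / 2)) := by
      refine Real.log_nonneg ?_
      rw [one_le_div (by positivity)]
      nlinarith
    calc _ ≤ 9 * ∫ s in (a ^ 2 / 2)..(b ^ 2 / 2), mass k ((√s)⁻¹) := h1
      _ ≤ 9 * (|C| * (K * √(b ^ 2 / 2) * Real.log (1 / (b ^ 2 / 2)) ^ q)) := by
          have := mul_le_mul_of_nonneg_left n1 (abs_nonneg C)
          linarith
      _ ≤ 9 * (|C| * (K * b * (3 * Real.log (1 / b)) ^ q)) := by gcongr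
      _ = _ := by rw [mul_pow]; ring
  -- Fatou
  have t1 : Tendsto (fun n : ℕ => b / ((n:ℝ) + 1)) atTop (𝓝[>] 0) := by
    rw [tendsto_nhdsWithin_iff]
    refine ⟨?_, Eventually.of_forall fun n => ?_⟩
    · exact tendsto_const_nhds.div_atTop (tendsto_atTop_add_const_right _ _ tendsto_natCast_atTop_atTop)
    · show 0 < b / ((n:ℝ) + 1)
      positivity
  have hpos : ∀ n : ℕ, 0 < b / ((n:ℝ) + 1) := fun n => by positivity
  have hle : ∀ n : ℕ, b / ((n:ℝ) + 1) ≤ b := fun n => div_le_self hb0.le (by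
    have : (0:ℝ) ≤ n := Nat.cast_nonneg n
    linarith)
  have hBc : ∀ c : ℝ, 0 < c → Continuous (Bh k h c) := fun c hc => by
    rw [Bh_Bf k hh hc]; exact Bf_cont (Gb_dec k hh hc)
  refine fatou_sq (F := fun n u => Bh k h (b / ((n:ℝ) + 1)) u - Bh k h b u)
    (G := fun u => Ee k h u - Bh k h b u) (fun n => ((hBc _ (hpos n)).sub (hBc b hb0)).aestronglyMeasurable)
    ((Ee_meas k h).sub (hBc b hb0).measurable).aestronglyMeasurable ?_ (fun n => ?_)
    (fun n => key _ (hpos n) (hle n))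
  · filter_upwards [Bh_lim k h] with u hu
    exact (hu.comp t1).sub_const _
  · have d1 := Gb_dec k hh (hpos n)
    have d2 := Gb_dec k hh hb0
    refine (Bf_int (d1.sub d2)).congr (Eventually.of_forall fun u => ?_)
    simp only
    rw [Bf_sub d1 d2, Bh_Bf k hh (hpos n), Bh_Bf k hh hb0]

end

end Pool.Agent.J4.H32.VS
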