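import Pool.Agent.J4.H32.VS.U3

set_option autoImplicit false

/-! Means of the shifted products with general weights. -/

namespace Pool.Agent.J4.H32.VS

open Complex MeasureTheory Filter Topology Set Metric Polynomial Pool.Agent.TH535.SM Pool.Agent.R446.KR
open Pool.Agent.J4.H44.LP
open Pool.Agent.J4.H44.OL (Cr Cr_int Rs Rs_int Cr_eq)
open scoped FourierTransform ComplexConjugate

noncomputable section

variable {q k : ℕ}

/-- a Gaussian -/
def gz (c x : ℝ) : ℝ := Real.exp (-(c * x ^ 2))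

lemma gz_pos (c x : ℝ) : 0 < gz c x := Real.exp_pos _

lemma gz_cont (c : ℝ) : Continuous (gz c) := by unfold gz; fun_prop

lemma gz_int {c : ℝ} (hc : 0 < c) : Integrable (gz c) := by
  refine (integrable_exp_neg_mul_sq hc).congr (Eventually.of_forall fun x => ?_)
  simp only [gz]
  congr 1; ring

lemma gz_val {c : ℝ} : ∫ x, gz c x = √(Real.pi / c) := by
  rw [← integral_gaussian c]
  refine integral_congr_ae (Eventually.of_forall fun x => ?_)
  simp only [gz]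
  congr 1; ring

lemma gz_scale {c T : ℝ} (hc : 0 < c) (t : ℝ) : gz c (t / T) = eg 0 (t / ((√c)⁻¹ * T)) := by
  unfold gz eg
  congr 1
  have h : √c ^ 2 = c := Real.sq_sqrt hc.le
  push_cast
  have e : t / ((√c)⁻¹ * T) = √c * (t / T) := by
    by_cases hT : T = 0
    · subst hT; simp
    · have : √c ≠ 0 := by positivity
      field_simp
  rw [e, mul_pow, h]
  ring

lemma Pa_gint (k : ℕ) (a : ℝ) {c T : ℝ} (hc : 0 < c) (hT : 0 < T) :
    Integrable (fun t : ℝ => ((gz c (t / T) : ℝ) : ℂ) * Pa k a t) := by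
  have h := Pa_int k a (T := (√c)⁻¹ * T) (by positivity)
  refine h.congr (Eventually.of_forall fun t => ?_)
  simp only
  rw [gz_scale hc]

/-- the Gaussian means of the shifted products -/
lemma Pa_gauss {G : ℝ → ℂ}
    (hG : ∀ α : ℝ, Tendsto (fun T => Rs (Fh k T⁻¹) (α / Real.log T) / (NN q T : ℂ)) atTop (𝓝 (√Real.pi * G α)))
    (hup : ∃ C : ℝ, ∀ᶠ T in atTop, ∫ t, ‖Fh k T⁻¹ t‖ ^ 2 ≤ C * NN q T) {c : ℝ} (hc : 0 < c) (α : ℝ) :
    Tendsto (fun T => (∫ t : ℝ, ((gz c (t / T) : ℝ) : ℂ) * Pa k (α / Real.log T) t) / (NN q T : ℂ)) atTop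
      (𝓝 (((∫ x, gz c x : ℝ) : ℂ) * G α)) := by
  set s : ℝ := (√c)⁻¹ with hs
  have hs0 : 0 < s := by positivity
  have h2 := Rs_Fh_eq (k := k) (q := q) hup (a := fun X => α / Real.log (s⁻¹ * X)) (b := fun X => α / Real.log X)
    (log_scale α (inv_pos.2 hs0))
  have h3 := h2.add (hG α)
  simp only [zero_add] at h3
  have h4 : Tendsto (fun X => Rs (Fh k X⁻¹) (α / Real.log (s⁻¹ * X)) / (NN q X : ℂ)) atTop
      (𝓝 (√Real.pi * G α)) := by
    refine h3.congr fun X => ?_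
    ring
  have h5 := scale_lim (smul_formC.1 h4) hs0
  have h6 : Tendsto (fun T : ℝ => ((Real.exp ((s * T)⁻¹ ^ 2 * (α / Real.log T) ^ 2) : ℝ) : ℂ)) atTop (𝓝 1) := by
    have a1 : Tendsto (fun T : ℝ => (s * T)⁻¹ ^ 2 * (α / Real.log T) ^ 2) atTop (𝓝 (0 ^ 2 * 0 ^ 2)) := by
      refine Tendsto.mul (Tendsto.pow ?_ 2) (Tendsto.pow ?_ 2)
      · exact tendsto_inv_atTop_zero.comp (tendsto_id.const_mul_atTop hs0)
      · exact tendsto_const_nhds.div_atTop Real.tendsto_log_atTop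
    have a2 := (Complex.continuous_ofReal.tendsto _).comp ((Real.continuous_exp.tendsto _).comp a1)
    have e : ((Real.exp ((0:ℝ) ^ 2 * (0:ℝ) ^ 2) : ℝ) : ℂ) = 1 := by simp
    rw [e] at a2
    exact a2
  have h7 := h6.mul h5
  have e1 : (1:ℂ) * s • ((√Real.pi : ℂ) * G α) = ((∫ x, gz c x : ℝ) : ℂ) * G α := by
    rw [gz_val, Real.sqrt_div' _ hc.le, one_mul, Complex.real_smul, hs]
    push_cast
    ring
  rw [e1] at h7
  refine h7.congr' ?_
  filter_upwards [eventually_gt_atTop 1] with T hT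
  have hT0 : 0 < T := by linarith
  have hX : 0 < s * T := by positivity
  have e9 : s⁻¹ * (s * T) = T := by field_simp
  rw [e9, Complex.real_smul, ← Cr_eq (Fh_dec k (h := (s * T)⁻¹) (by positivity)), Cr_Fh]
  have e2 : ∫ t : ℝ, zk k (t + α / Real.log T) * conj (zk k (t + -(α / Real.log T))) *
      ((Real.exp (-((s * T)⁻¹ ^ 2 * t ^ 2)) : ℝ) : ℂ) =
      ∫ t : ℝ, ((gz c (t / T) : ℝ) : ℂ) * Pa k (α / Real.log T) t := by
    refine integral_congr_ae (Eventually.of_forall fun t => ?_)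
    simp only
    rw [gz_scale hc, eg_zero, ← hs]
    unfold Pa
    ring
  rw [e2]
  have e3 : ((Real.exp ((s * T)⁻¹ ^ 2 * (α / Real.log T) ^ 2) : ℝ) : ℂ) *
      ((Real.exp (-((s * T)⁻¹ ^ 2 * (α / Real.log T) ^ 2)) : ℝ) : ℂ) = 1 := by
    rw [← Complex.ofReal_mul, ← Real.exp_add, add_neg_cancel, Real.exp_zero, Complex.ofReal_one]
  rw [Complex.ofReal_inv, div_eq_inv_mul (∫ t : ℝ, ((gz c (t / T) : ℝ) : ℂ) * Pa k (α / Real.log T) t)]
  rw [show ((Real.exp ((s * T)⁻¹ ^ 2 * (α / Real.log T) ^ 2) : ℝ) : ℂ) * ((NN q T : ℂ)⁻¹ *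
      (((Real.exp (-((s * T)⁻¹ ^ 2 * (α / Real.log T) ^ 2)) : ℝ) : ℂ) *
        ∫ t : ℝ, ((gz c (t / T) : ℝ) : ℂ) * Pa k (α / Real.log T) t)) =
      (((Real.exp ((s * T)⁻¹ ^ 2 * (α / Real.log T) ^ 2) : ℝ) : ℂ) *
      ((Real.exp (-((s * T)⁻¹ ^ 2 * (α / Real.log T) ^ 2)) : ℝ) : ℂ)) * ((NN q T : ℂ)⁻¹ *
        ∫ t : ℝ, ((gz c (t / T) : ℝ) : ℂ) * Pa k (α / Real.log T) t) by ring]
  rw [e3, one_mul]

/-- the absolute means -/
lemma Pa_abs (k : ℕ) {a X : ℝ} (hX : 1 ≤ X) (ha : |a| ≤ 1) : Integrable (fun t => eg 0 (t / X) * ‖Pa k a t‖) ∧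
    ∫ t, eg 0 (t / X) * ‖Pa k a t‖ ≤ Real.exp 1 * mass k X := by
  have hX0 : 0 < X := by linarith
  have hF := Fh_dec k (h := X⁻¹) (by positivity)
  have hsq := hF.sq
  have i0 : Integrable (fun t => ((‖Fh k X⁻¹ (t + a)‖ ^ 2 + ‖Fh k X⁻¹ (t + -a)‖ ^ 2) / 2)) :=
    ((hsq.comp_add_right a).add (hsq.comp_add_right (-a))).div_const 2
  have hle : ∀ t, eg 0 (t / X) * ‖Pa k a t‖ ≤
      Real.exp 1 * ((‖Fh k X⁻¹ (t + a)‖ ^ 2 + ‖Fh k X⁻¹ (t + -a)‖ ^ 2) / 2) := by
    intro t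
    have h1 := wF k X a t
    have h2 : 1 ≤ Real.exp 1 * Real.exp (-(X⁻¹ ^ 2 * a ^ 2)) := by
      rw [← Real.exp_add]
      refine Real.one_le_exp ?_
      have h3 : X⁻¹ ^ 2 ≤ 1 := pow_le_one₀ (by positivity) (inv_le_one_of_one_le₀ hX)
      have h4 : a ^ 2 ≤ 1 := by rw [← sq_abs]; exact pow_le_one₀ (abs_nonneg _) ha
      have : X⁻¹ ^ 2 * a ^ 2 ≤ 1 * 1 := by gcongr
      linarith
    have h5 : 0 ≤ eg 0 (t / X) * ‖Pa k a t‖ := mul_nonneg (eg_pos _ _).le (norm_nonneg _)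
    have h6 : ‖Fh k X⁻¹ (t + a)‖ * ‖Fh k X⁻¹ (t + -a)‖ ≤
        (‖Fh k X⁻¹ (t + a)‖ ^ 2 + ‖Fh k X⁻¹ (t + -a)‖ ^ 2) / 2 := by
      nlinarith [sq_nonneg (‖Fh k X⁻¹ (t + a)‖ - ‖Fh k X⁻¹ (t + -a)‖)]
    calc eg 0 (t / X) * ‖Pa k a t‖ ≤ (Real.exp 1 * Real.exp (-(X⁻¹ ^ 2 * a ^ 2))) * (eg 0 (t / X) * ‖Pa k a t‖) :=
          le_mul_of_one_le_left h5 h2
      _ = Real.exp 1 * (Real.exp (-(X⁻¹ ^ 2 * a ^ 2)) * eg 0 (t / X) * ‖Pa k a t‖) := by ring
      _ ≤ _ := by rw [h1]; exact mul_le_mul_of_nonneg_left h6 (Real.exp_pos _).le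
  have i1 : Integrable (fun t => eg 0 (t / X) * ‖Pa k a t‖) := by
    refine (i0.const_mul (Real.exp 1)).mono' ?_ (Eventually.of_forall fun t => ?_)
    · have h1 := (Pa_cont k a).norm
      have h2 := eg_cont 0
      exact Continuous.aestronglyMeasurable (by fun_prop)
    · rw [Real.norm_of_nonneg (mul_nonneg (eg_pos _ _).le (norm_nonneg _))]
      exact hle t
  refine ⟨i1, ?_⟩
  have h1 : ∀ x : ℝ, ∫ t, ‖Fh k X⁻¹ (t + x)‖ ^ 2 = mass k X := fun x =>
    integral_add_right_eq_self (fun t => ‖Fh k X⁻¹ t‖ ^ 2) x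
  refine (integral_mono i1 (i0.const_mul (Real.exp 1)) hle).trans (le_of_eq ?_)
  rw [integral_const_mul, integral_div, integral_add (hsq.comp_add_right a) (hsq.comp_add_right (-a)), h1, h1]
  ring

lemma Pa_up (hup : ∃ C : ℝ, ∀ᶠ T in atTop, mass k T ≤ C * NN q T) {c : ℝ} (hc : 0 < c) (α : ℝ) :
    ∃ C : ℝ, 0 ≤ C ∧ ∀ᶠ T : ℝ in atTop, Integrable (fun t => gz c (t / T) * ‖Pa k (α / Real.log T) t‖) ∧
      ∫ t, gz c (t / T) * ‖Pa k (α / Real.log T) t‖ ≤ C * NN q T := by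
  obtain ⟨C, hC⟩ := hup
  set s : ℝ := (√c)⁻¹ with hs
  have hs0 : 0 < s := by positivity
  have t1 : Tendsto (fun T : ℝ => s * T) atTop atTop := tendsto_id.const_mul_atTop hs0
  have h1 := (NN_scale q hs0).eventually_le_const (show s < s + 1 by linarith)
  refine ⟨Real.exp 1 * (|C| * (s + 1)), by positivity, ?_⟩
  filter_upwards [t1.eventually hC, t1.eventually_ge_atTop 1, shift_small α, h1, eventually_gt_atTop 1]
    with T a1 a2 a3 a4 a5
  obtain ⟨i1, b1⟩ := Pa_abs k a2 a3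
  have e : (fun t => gz c (t / T) * ‖Pa k (α / Real.log T) t‖) =
      fun t => eg 0 (t / (s * T)) * ‖Pa k (α / Real.log T) t‖ := by
    funext t
    rw [gz_scale hc]
  rw [e]
  refine ⟨i1, b1.trans ?_⟩
  have hN := NN_pos q a5
  rw [mul_assoc]
  refine mul_le_mul_of_nonneg_left ?_ (Real.exp_pos _).le
  rw [div_le_iff₀ hN] at a4
  have hN2 : 0 ≤ NN q (s * T) := by
    unfold NN
    have := Real.log_nonneg a2
    positivity
  calc mass k (s * T) ≤ C * NN q (s * T) := a1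
    _ ≤ |C| * NN q (s * T) := mul_le_mul_of_nonneg_right (le_abs_self C) hN2
    _ ≤ |C| * ((s + 1) * NN q T) := mul_le_mul_of_nonneg_left a4 (abs_nonneg _)
    _ = _ := by ring

/-- Gaussian polynomials -/
def wq (c : ℝ) (p : ℝ[X]) (x : ℝ) : ℝ := gz c x * p.eval (gz c x)

lemma wq_eq (c : ℝ) (p : ℝ[X]) (x : ℝ) : wq c p x =
    ∑ j ∈ Finset.range (p.natDegree + 1), p.coeff j * gz (c * (j + 1)) x := by
  unfold wq gz
  rw [Polynomial.eval_eq_sum_range, Finset.mul_sum]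
  refine Finset.sum_congr rfl fun j _ => ?_
  rw [← Real.exp_nat_mul, mul_left_comm, ← Real.exp_add]
  congr 2
  ring

lemma wq_int {c : ℝ} (hc : 0 < c) (p : ℝ[X]) : Integrable (wq c p) := by
  have e : wq c p = fun x => ∑ j ∈ Finset.range (p.natDegree + 1), p.coeff j * gz (c * (j + 1)) x :=
    funext (wq_eq c p)
  rw [e]
  exact integrable_finsetSum _ fun j _ => (gz_int (by positivity)).const_mul _

lemma wq_lim {G : ℝ → ℂ}
    (hG : ∀ α : ℝ, Tendsto (fun T => Rs (Fh k T⁻¹) (α / Real.log T) / (NN q T : ℂ)) atTop (𝓝 (√Real.pi * G α)))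
    (hup : ∃ C : ℝ, ∀ᶠ T in atTop, ∫ t, ‖Fh k T⁻¹ t‖ ^ 2 ≤ C * NN q T) {c : ℝ} (hc : 0 < c) (p : ℝ[X]) (α : ℝ) :
    Tendsto (fun T => (∫ t : ℝ, ((wq c p (t / T) : ℝ) : ℂ) * Pa k (α / Real.log T) t) / (NN q T : ℂ)) atTop
      (𝓝 (((∫ x, wq c p x : ℝ) : ℂ) * G α)) := by
  have e0 : ((∫ x, wq c p x : ℝ) : ℂ) * G α = ∑ j ∈ Finset.range (p.natDegree + 1), (p.coeff j : ℂ) *
      (((∫ x, gz (c * (j + 1)) x : ℝ) : ℂ) * G α) := by
    have e : wq c p = fun x => ∑ j ∈ Finset.range (p.natDegree + 1), p.coeff j * gz (c * (j + 1)) x :=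
      funext (wq_eq c p)
    rw [e, integral_finsetSum _ fun j _ => (gz_int (by positivity)).const_mul _, Complex.ofReal_sum,
      Finset.sum_mul]
    refine Finset.sum_congr rfl fun j _ => ?_
    rw [integral_const_mul]
    push_cast
    ring
  rw [e0]
  have h1 := tendsto_finsetSum (Finset.range (p.natDegree + 1)) fun j _ =>
    (Pa_gauss hG hup (c := c * (j + 1)) (by positivity) α).const_mul (p.coeff j : ℂ)
  refine h1.congr' ?_
  filter_upwards [eventually_gt_atTop 0] with T hT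
  have e2 : ∀ t : ℝ, ((wq c p (t / T) : ℝ) : ℂ) * Pa k (α / Real.log T) t =
      ∑ j ∈ Finset.range (p.natDegree + 1), (p.coeff j : ℂ) *
        (((gz (c * (j + 1)) (t / T) : ℝ) : ℂ) * Pa k (α / Real.log T) t) := by
    intro t
    rw [wq_eq, Complex.ofReal_sum, Finset.sum_mul]
    refine Finset.sum_congr rfl fun j _ => ?_
    push_cast
    ring
  simp_rw [e2]
  rw [integral_finsetSum _ fun j _ => (Pa_gint k _ (by positivity) hT).const_mul _, Finset.sum_div]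
  refine Finset.sum_congr rfl fun j _ => ?_
  rw [integral_const_mul]
  ring

/-- the pull-back of a weight -/
def pb (c : ℝ) (ψ : ℝ → ℝ) (y : ℝ) : ℝ := if y ≤ 0 then 0 else ψ (√(-Real.log y / c))

lemma pb_cont {c : ℝ} (hc : 0 < c) {ψ : ℝ → ℝ} (hψ : Continuous ψ) (h0 : Tendsto ψ atTop (𝓝 0)) :
    ContinuousOn (pb c ψ) (Icc 0 1) := by
  intro y hy
  rcases hy.1.eq_or_lt with h | h
  · -- at zero
    subst h
    refine ContinuousAt.continuousWithinAt ?_
    unfold ContinuousAt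
    have e0 : pb c ψ 0 = 0 := by unfold pb; simp
    rw [e0]
    have h1 : Tendsto (pb c ψ) (𝓝[>] 0) (𝓝 0) := by
      have h2 : Tendsto (fun y : ℝ => √(-Real.log y / c)) (𝓝[>] 0) atTop := by
        refine Real.tendsto_sqrt_atTop.comp ?_
        refine Tendsto.atTop_div_const hc ?_
        exact tendsto_neg_atBot_atTop.comp Real.tendsto_log_nhdsGT_zero
      refine (h0.comp h2).congr' ?_
      filter_upwards [self_mem_nhdsWithin] with y hy
      have hy0 : ¬ y ≤ 0 := not_le.2 hy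
      simp only [Function.comp]
      unfold pb
      rw [if_neg hy0]
    have h3 : Tendsto (pb c ψ) (𝓝[≤] 0) (𝓝 0) := by
      refine tendsto_const_nhds.congr' ?_
      filter_upwards [self_mem_nhdsWithin] with y hy
      have hy0 : y ≤ 0 := hy
      unfold pb
      rw [if_pos hy0]
    have := h3.sup h1
    rwa [← nhdsWithin_union, Iic_union_Ioi, nhdsWithin_univ] at this
  · refine ContinuousAt.continuousWithinAt ?_
    have h1 : ContinuousAt (fun y : ℝ => ψ (√(-Real.log y / c))) y := by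
      refine hψ.continuousAt.comp ?_
      refine Real.continuous_sqrt.continuousAt.comp ?_
      exact ((Real.continuousAt_log h.ne').neg).div_const c
    refine h1.congr ?_
    filter_upwards [eventually_gt_nhds h] with z hz
    unfold pb
    rw [if_neg (not_le.2 hz)]

/-- **means with general weights** -/
theorem weier {G : ℝ → ℂ}
    (hG : ∀ α : ℝ, Tendsto (fun T => Rs (Fh k T⁻¹) (α / Real.log T) / (NN q T : ℂ)) atTop (𝓝 (√Real.pi * G α)))
    (hup : ∃ C : ℝ, ∀ᶠ T in atTop, mass k T ≤ C * NN q T) {c : ℝ} (hc : 0 < c) {ψ : ℝ → ℝ}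
    (hψ : Continuous ψ) (h0 : Tendsto ψ atTop (𝓝 0)) (hev : ∀ x, ψ (-x) = ψ x) (α : ℝ) :
    Tendsto (fun T => (∫ t : ℝ, ((gz c (t / T) * ψ (t / T) : ℝ) : ℂ) * Pa k (α / Real.log T) t) / (NN q T : ℂ)) atTop
      (𝓝 (((∫ x, gz c x * ψ x : ℝ) : ℂ) * G α)) := by
  obtain ⟨C, hC, hb⟩ := Pa_up hup hc α
  have happ : ∀ ε : ℝ, 0 < ε → ∃ p : ℝ[X], ∀ x : ℝ, |gz c x * ψ x - wq c p x| ≤ ε * gz c x := by
    intro ε hε
    obtain ⟨p, hp⟩ := exists_polynomial_near_of_continuousOn 0 1 (pb c ψ) (pb_cont hc hψ h0) ε hε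
    refine ⟨p, fun x => ?_⟩
    have hy : gz c x ∈ Icc (0:ℝ) 1 := ⟨(gz_pos c x).le, by
      unfold gz
      rw [Real.exp_le_one_iff]
      have : 0 ≤ c * x ^ 2 := by positivity
      linarith⟩
    have e1 : pb c ψ (gz c x) = ψ x := by
      unfold pb
      rw [if_neg (not_le.2 (gz_pos c x))]
      have e2 : -Real.log (gz c x) / c = x ^ 2 := by
        unfold gz
        rw [Real.log_exp]
        field_simp
      rw [e2, Real.sqrt_sq_eq_abs]
      rcases abs_choice x with h | h <;> rw [h]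
      exact hev x
    have h1 := hp _ hy
    rw [e1] at h1
    unfold wq
    rw [← mul_sub, abs_mul, abs_of_pos (gz_pos c x), mul_comm, abs_sub_comm]
    exact mul_le_mul_of_nonneg_right h1.le (gz_pos c x).le
  have hψb : ∃ S : ℝ, ∀ x, |ψ x| ≤ S := by
    have h1 : ∀ᶠ x in atTop, |ψ x| ≤ 1 := by
      have := h0.abs
      rw [abs_zero] at this
      exact this.eventually_le_const (by norm_num)
    obtain ⟨R, hR⟩ := eventually_atTop.1 h1
    obtain ⟨S, hS⟩ := (isCompact_Icc (a := -(max R 0)) (b := max R 0)).exists_bound_of_continuousOn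
      hψ.continuousOn
    refine ⟨max S 1, fun x => ?_⟩
    rcases le_or_gt |x| (max R 0) with h2 | h2
    · exact (hS x (abs_le.1 h2)).trans (le_max_left _ _)
    · have h3 : |ψ x| = abs (ψ (abs x)) := by
        rcases abs_choice x with h | h <;> rw [h]
        rw [hev]
      rw [h3]
      exact (hR _ ((le_max_left R 0).trans h2.le)).trans (le_max_right _ _)
  obtain ⟨S, hS⟩ := hψb
  have hS0 : 0 ≤ S := (abs_nonneg _).trans (hS 0)
  have hWi : Integrable (fun x => gz c x * ψ x) := by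
    refine ((gz_int hc).const_mul S).mono' ?_ (Eventually.of_forall fun x => ?_)
    · have := gz_cont c
      exact Continuous.aestronglyMeasurable (by fun_prop)
    · rw [norm_mul, Real.norm_of_nonneg (gz_pos c x).le, mul_comm]
      exact mul_le_mul_of_nonneg_right (hS x) (gz_pos c x).le
  have hJ0 : 0 ≤ ∫ x, gz c x := integral_nonneg fun x => (gz_pos c x).le
  rw [Metric.tendsto_nhds]
  intro ε hε
  set η : ℝ := ε / (4 * (C + 1) + 4 * ((∫ x, gz c x) + 1) * (‖G α‖ + 1)) with hη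
  have hden : 0 < 4 * (C + 1) + 4 * ((∫ x, gz c x) + 1) * (‖G α‖ + 1) := by positivity
  have hη0 : 0 < η := by positivity
  have hη1 : η * C ≤ ε / 4 := by
    have : η * (4 * (C + 1) + 4 * ((∫ x, gz c x) + 1) * (‖G α‖ + 1)) = ε := by
      rw [hη]; field_simp
    have h2 : 0 ≤ η * (4 * ((∫ x, gz c x) + 1) * (‖G α‖ + 1)) := by positivity
    nlinarith
  have hη2 : η * (∫ x, gz c x) * ‖G α‖ ≤ ε / 4 := by
    have h1 : η * (4 * (C + 1) + 4 * ((∫ x, gz c x) + 1) * (‖G α‖ + 1)) = ε := by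
      rw [hη]; field_simp
    have h2 : 0 ≤ η * (4 * (C + 1)) := by positivity
    have h3 : (∫ x, gz c x) * ‖G α‖ ≤ ((∫ x, gz c x) + 1) * (‖G α‖ + 1) := by
      have := norm_nonneg (G α)
      nlinarith
    nlinarith [mul_le_mul_of_nonneg_left h3 hη0.le]
  obtain ⟨p, hp⟩ := happ η hη0
  have hpl := wq_lim hG hup hc p α
  filter_upwards [Metric.tendsto_nhds.1 hpl (ε / 4) (by positivity), hb, eventually_gt_atTop 1] with T a1 a2 a3
  have hN := NN_pos q a3
  have hT0 : 0 < T := by linarith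
  obtain ⟨i1, b1⟩ := a2
  -- difference of the means
  have hPc := Pa_cont k (α / Real.log T)
  have iw : Integrable (fun t : ℝ => ((gz c (t / T) * ψ (t / T) : ℝ) : ℂ) * Pa k (α / Real.log T) t) := by
    refine (i1.const_mul S).mono' ?_ (Eventually.of_forall fun t => ?_)
    · have := gz_cont c
      exact Continuous.aestronglyMeasurable (by fun_prop)
    · rw [norm_mul, Complex.norm_real, norm_mul, Real.norm_of_nonneg (gz_pos _ _).le]
      have h1 := hS (t / T)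
      have h2 := (gz_pos c (t / T)).le
      calc gz c (t / T) * ‖ψ (t / T)‖ * ‖Pa k (α / Real.log T) t‖ ≤
            gz c (t / T) * S * ‖Pa k (α / Real.log T) t‖ := by gcongr; exact h1
        _ = _ := by ring
  have ip : Integrable (fun t : ℝ => ((wq c p (t / T) : ℝ) : ℂ) * Pa k (α / Real.log T) t) := by
    have e2 : ∀ t : ℝ, ((wq c p (t / T) : ℝ) : ℂ) * Pa k (α / Real.log T) t =
        ∑ j ∈ Finset.range (p.natDegree + 1), (p.coeff j : ℂ) *
          (((gz (c * (j + 1)) (t / T) : ℝ) : ℂ) * Pa k (α / Real.log T) t) := by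
      intro t
      rw [wq_eq, Complex.ofReal_sum, Finset.sum_mul]
      refine Finset.sum_congr rfl fun j _ => ?_
      push_cast
      ring
    simp_rw [e2]
    exact integrable_finsetSum _ fun j _ => (Pa_gint k _ (by positivity) hT0).const_mul _
  have hd : ‖(∫ t : ℝ, ((gz c (t / T) * ψ (t / T) : ℝ) : ℂ) * Pa k (α / Real.log T) t) -
      ∫ t : ℝ, ((wq c p (t / T) : ℝ) : ℂ) * Pa k (α / Real.log T) t‖ ≤ η * (C * NN q T) := by
    rw [← integral_sub iw ip]
    refine (norm_integral_le_of_norm_le (i1.const_mul η) (Eventually.of_forall fun t => ?_)).trans ?_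
    · rw [← sub_mul, norm_mul, ← Complex.ofReal_sub, Complex.norm_real, Real.norm_eq_abs, ← mul_assoc]
      exact mul_le_mul_of_nonneg_right (hp (t / T)) (norm_nonneg _)
    · rw [integral_const_mul]
      exact mul_le_mul_of_nonneg_left b1 hη0.le
  have hd2 : |(∫ x, gz c x * ψ x) - ∫ x, wq c p x| ≤ η * ∫ x, gz c x := by
    rw [← integral_sub hWi (wq_int hc p), ← integral_const_mul, ← Real.norm_eq_abs]
    refine norm_integral_le_of_norm_le ((gz_int hc).const_mul η) (Eventually.of_forall fun x => ?_)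
    exact hp x
  set X : ℂ := ∫ t : ℝ, ((gz c (t / T) * ψ (t / T) : ℝ) : ℂ) * Pa k (α / Real.log T) t with hX
  set Y : ℂ := ∫ t : ℝ, ((wq c p (t / T) : ℝ) : ℂ) * Pa k (α / Real.log T) t with hY
  set A : ℝ := ∫ x, gz c x * ψ x with hA
  set B : ℝ := ∫ x, wq c p x with hB
  rw [dist_eq_norm] at a1 ⊢
  have e3 : X / (NN q T : ℂ) - (A : ℂ) * G α = (X / (NN q T : ℂ) - Y / (NN q T : ℂ)) +
      (Y / (NN q T : ℂ) - (B : ℂ) * G α) - ((A - B : ℝ) : ℂ) * G α := by push_cast; ring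
  have h1 : ‖X / (NN q T : ℂ) - Y / (NN q T : ℂ)‖ ≤ ε / 4 := by
    rw [← sub_div, norm_div, Complex.norm_real, Real.norm_of_nonneg hN.le, div_le_iff₀ hN]
    calc ‖X - Y‖ ≤ η * (C * NN q T) := hd
      _ = (η * C) * NN q T := by ring
      _ ≤ _ := mul_le_mul_of_nonneg_right hη1 hN.le
  have h2 : ‖((A - B : ℝ) : ℂ) * G α‖ ≤ ε / 4 := by
    rw [norm_mul, Complex.norm_real, Real.norm_eq_abs]
    exact (mul_le_mul_of_nonneg_right hd2 (norm_nonneg _)).trans hη2
  rw [e3]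
  refine ((norm_sub_le _ _).trans (add_le_add (norm_add_le _ _) le_rfl)).trans_lt ?_
  linarith

end

end Pool.Agent.J4.H32.VS
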