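import Pool.Agent.J4.H32.VS.U5

set_option autoImplicit false

/-! The Fejér kernel and the correlations of the short intervals. -/

namespace Pool.Agent.J4.H32.VS

open Complex MeasureTheory Filter Topology Set Metric Polynomial Pool.Agent.TH535.SM Pool.Agent.R446.KR
open Pool.Agent.J4.H44.LP
open Pool.Agent.J4.H44.OL (Cr Cr_int Rs Rs_int Cr_eq)
open scoped FourierTransform ComplexConjugate

noncomputable section

variable {q k : ℕ}

/-- the transform of the unit interval -/
def k1 (x : ℝ) : ℂ := ∫ v in (0:ℝ)..1, cexp (v * x * I)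

/-- the Fejér kernel -/
def fj (x : ℝ) : ℝ := ‖k1 x‖ ^ 2

lemma k1_cont : Continuous k1 := by
  unfold k1
  refine intervalIntegral.continuous_parametric_intervalIntegral_of_continuous' ?_ _ _
  fun_prop

lemma exp_vx (v x : ℝ) : ‖cexp (v * x * I)‖ = 1 := by
  rw [← Complex.ofReal_mul, Complex.norm_exp_ofReal_mul_I]

lemma k1_norm (x : ℝ) : ‖k1 x‖ ≤ 1 := by
  unfold k1
  have h1 := intervalIntegral.norm_integral_le_of_norm_le_const (a := 0) (b := 1)
    (f := fun v : ℝ => cexp (v * x * I)) (C := 1) (fun v _ => (exp_vx v x).le)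
  simpa using h1

lemma k1_conj (x : ℝ) : conj (k1 x) = ∫ v in (0:ℝ)..1, cexp (-(v * x * I)) := by
  unfold k1
  rw [intervalIntegral.integral_of_le zero_le_one, intervalIntegral.integral_of_le zero_le_one, ← integral_conj]
  refine integral_congr_ae (Eventually.of_forall fun v => ?_)
  simp only
  rw [← Complex.exp_conj, map_mul, map_mul, conj_ofReal, conj_ofReal, conj_I]
  congr 1
  ring

lemma k1_neg (x : ℝ) : k1 (-x) = conj (k1 x) := by
  rw [k1_conj]
  unfold k1
  refine intervalIntegral.integral_congr fun v _ => ?_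
  congr 1
  push_cast
  ring

lemma fj_neg (x : ℝ) : fj (-x) = fj x := by
  unfold fj
  rw [k1_neg, RCLike.norm_conj]

lemma fj_cont : Continuous fj := k1_cont.norm.pow 2

lemma fj_nonneg (x : ℝ) : 0 ≤ fj x := by unfold fj; positivity

lemma fj_le (x : ℝ) : fj x ≤ 1 := by
  unfold fj
  exact pow_le_one₀ (norm_nonneg _) (k1_norm x)

/-- the regularised integral of the Fejér kernel -/
def Jc (c : ℝ) : ℝ := ∫ x, gz c x * fj x

lemma gz_fj_int {c : ℝ} (hc : 0 < c) : Integrable (fun x => gz c x * fj x) := by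
  refine (gz_int hc).mono' ?_ (Eventually.of_forall fun x => ?_)
  · have := gz_cont c
    have := fj_cont
    exact Continuous.aestronglyMeasurable (by fun_prop)
  · rw [norm_mul, Real.norm_of_nonneg (gz_pos c x).le, Real.norm_of_nonneg (fj_nonneg x)]
    exact mul_le_of_le_one_right (gz_pos c x).le (fj_le x)

lemma gz_ft {c : ℝ} (hc : 0 < c) (r : ℝ) : ∫ x : ℝ, (gz c x : ℂ) * cexp (r * x * I) =
    ((√(Real.pi / c) * Real.exp (-(r ^ 2 / (4 * c))) : ℝ) : ℂ) := by
  have hcc : (c:ℂ) ≠ 0 := by exact_mod_cast hc.ne'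
  have e1 : ∀ x : ℝ, (gz c x : ℂ) * cexp (r * x * I) = cexp ((-c : ℂ) * (x:ℂ) ^ 2 + (r * I) * x + 0) := by
    intro x
    unfold gz
    rw [Complex.ofReal_exp, ← Complex.exp_add]
    congr 1
    push_cast
    ring
  simp_rw [e1]
  rw [integral_cexp_quadratic (by
    rw [← Complex.ofReal_neg, Complex.ofReal_re]
    linarith)]
  have e2 : ((Real.pi : ℂ) / -(-c : ℂ)) ^ (1 / 2 : ℂ) = ((√(Real.pi / c) : ℝ) : ℂ) := by
    have e3 : ((Real.pi : ℂ) / -(-c : ℂ)) = ((Real.pi / c : ℝ) : ℂ) := by push_cast; ring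
    have e4 : (1 / 2 : ℂ) = ((1 / 2 : ℝ) : ℂ) := by push_cast; ring
    rw [e3, e4, ← Complex.ofReal_cpow (by positivity), ← Real.sqrt_eq_rpow]
  rw [e2, Complex.ofReal_mul, Complex.ofReal_exp]
  congr 2
  push_cast
  field_simp
  linear_combination (r:ℂ) ^ 2 * I_sq

/-- the inner integral -/
def Ic (c v : ℝ) : ℝ := ∫ w in Ioc (0:ℝ) 1, √(Real.pi / c) * Real.exp (-((v - w) ^ 2 / (4 * c)))

lemma Jc_eq {c : ℝ} (hc : 0 < c) : Jc c = ∫ v in Ioc (0:ℝ) 1, Ic c v := by
  have e0 : ((Jc c : ℝ) : ℂ) = ∫ x : ℝ, ∫ v in Ioc (0:ℝ) 1, (gz c x : ℂ) * (cexp (v * x * I) * conj (k1 x)) := by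
    unfold Jc
    rw [← integral_complex_ofReal]
    refine integral_congr_ae (Eventually.of_forall fun x => ?_)
    simp only
    rw [integral_const_mul, integral_mul_const, ← intervalIntegral.integral_of_le zero_le_one]
    have : ((fj x : ℝ) : ℂ) = k1 x * conj (k1 x) := by
      unfold fj
      rw [Complex.mul_conj, Complex.normSq_eq_norm_sq]
    rw [Complex.ofReal_mul, this]
    rfl
  have hk := k1_cont
  have hg := gz_cont c
  rw [← swap_Ioc (H := fun v x => (gz c x : ℂ) * (cexp (v * x * I) * conj (k1 x))) (b := gz c)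
    (Continuous.aestronglyMeasurable (by
      unfold Function.uncurry
      have h1 : Continuous (fun p : ℝ × ℝ => conj (k1 p.2)) :=
        Complex.continuous_conj.comp (hk.comp continuous_snd)
      fun_prop)) (gz_int hc) (fun v _ x => by
      rw [norm_mul, norm_mul, exp_vx, RCLike.norm_conj, one_mul, Complex.norm_real,
        Real.norm_of_nonneg (gz_pos c x).le]
      exact mul_le_of_le_one_right (gz_pos c x).le (k1_norm x))] at e0
  have e1 : ∀ v : ℝ, ∫ x : ℝ, (gz c x : ℂ) * (cexp (v * x * I) * conj (k1 x)) = ((Ic c v : ℝ) : ℂ) := by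
    intro v
    have e2 : ∫ x : ℝ, (gz c x : ℂ) * (cexp (v * x * I) * conj (k1 x)) =
        ∫ x : ℝ, ∫ w in Ioc (0:ℝ) 1, (gz c x : ℂ) * (cexp (v * x * I) * cexp (-(w * x * I))) := by
      refine integral_congr_ae (Eventually.of_forall fun x => ?_)
      simp only
      rw [integral_const_mul, integral_const_mul, ← intervalIntegral.integral_of_le zero_le_one, ← k1_conj]
    rw [e2, ← swap_Ioc (H := fun w x => (gz c x : ℂ) * (cexp (v * x * I) * cexp (-(w * x * I)))) (b := gz c)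
      (Continuous.aestronglyMeasurable (by
        unfold Function.uncurry
        fun_prop)) (gz_int hc) (fun w _ x => by
        have e3 : cexp (-(w * x * I)) = cexp (((-(w * x) : ℝ) : ℂ) * I) := by push_cast; ring_nf
        rw [norm_mul, norm_mul, exp_vx, e3, Complex.norm_exp_ofReal_mul_I, one_mul, mul_one, Complex.norm_real,
          Real.norm_of_nonneg (gz_pos c x).le])]
    unfold Ic
    rw [← integral_complex_ofReal]
    refine integral_congr_ae (Eventually.of_forall fun w => ?_)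
    simp only
    rw [← gz_ft hc (v - w)]
    refine integral_congr_ae (Eventually.of_forall fun x => ?_)
    simp only
    rw [← Complex.exp_add]
    congr 2
    push_cast
    ring
  simp_rw [e1] at e0
  rw [integral_complex_ofReal] at e0
  exact_mod_cast e0

lemma Ic_nonneg (c v : ℝ) : 0 ≤ Ic c v := integral_nonneg fun w => by positivity

lemma Ic_sub {c : ℝ} (hc : 0 < c) (v : ℝ) : Ic c v =
    2 * √Real.pi * ∫ y in (-(v / (2 * √c)))..((1 - v) / (2 * √c)), Real.exp (-y ^ 2) := by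
  unfold Ic
  have hs : 0 < √c := by positivity
  have h2 : √c ^ 2 = c := Real.sq_sqrt hc.le
  rw [← intervalIntegral.integral_of_le zero_le_one, intervalIntegral.integral_const_mul]
  have h1 := intervalIntegral.integral_comp_sub_div (a := 0) (b := 1) (fun y : ℝ => Real.exp (-y ^ 2))
    (c := 2 * √c) (by positivity) (v / (2 * √c))
  have e1 : ∫ w in (0:ℝ)..1, Real.exp (-((v - w) ^ 2 / (4 * c))) =
      ∫ w in (0:ℝ)..1, Real.exp (-(v / (2 * √c) - w / (2 * √c)) ^ 2) := by
    refine intervalIntegral.integral_congr fun w _ => ?_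
    congr 2
    rw [← sub_div, div_pow, mul_pow, h2]
    norm_num
  rw [e1, h1, smul_eq_mul]
  have e2 : ∫ y in (v / (2 * √c) - 1 / (2 * √c))..(v / (2 * √c) - 0 / (2 * √c)), Real.exp (-y ^ 2) =
      ∫ y in (-(v / (2 * √c)))..((1 - v) / (2 * √c)), Real.exp (-y ^ 2) := by
    have h3 := intervalIntegral.integral_comp_neg (a := -(v / (2 * √c))) (b := (1 - v) / (2 * √c))
      (fun y : ℝ => Real.exp (-y ^ 2))
    simp only [neg_sq, neg_neg] at h3
    rw [h3]
    congr 1
    · ring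
    · ring
  rw [e2, Real.sqrt_div' _ hc.le]
  field_simp

lemma Ic_le {c : ℝ} (hc : 0 < c) {v : ℝ} (hv : v ∈ Ioc (0:ℝ) 1) : Ic c v ≤ 2 * Real.pi := by
  rw [Ic_sub hc]
  have hs : 0 < √c := by positivity
  have h0 : -(v / (2 * √c)) ≤ (1 - v) / (2 * √c) := by
    have : 0 ≤ v / (2 * √c) := div_nonneg hv.1.le (by positivity)
    have : 0 ≤ (1 - v) / (2 * √c) := div_nonneg (by linarith [hv.2]) (by positivity)
    linarith
  have h1 : ∫ y in (-(v / (2 * √c)))..((1 - v) / (2 * √c)), Real.exp (-y ^ 2) ≤ √Real.pi := by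
    rw [intervalIntegral.integral_of_le h0, ← g_val]
    exact setIntegral_le_integral g_int (Eventually.of_forall fun y => (Real.exp_pos _).le)
  have h2 : √Real.pi * √Real.pi = Real.pi := Real.mul_self_sqrt (by positivity)
  calc 2 * √Real.pi * ∫ y in (-(v / (2 * √c)))..((1 - v) / (2 * √c)), Real.exp (-y ^ 2) ≤
        2 * √Real.pi * √Real.pi := by gcongr
    _ = _ := by rw [mul_assoc, h2]

lemma Ic_lim {v : ℝ} (hv : v ∈ Ioo (0:ℝ) 1) : Tendsto (fun c => Ic c v) (𝓝[>] 0) (𝓝 (2 * Real.pi)) := by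
  have t0 : Tendsto (fun c : ℝ => (2 * √c)⁻¹) (𝓝[>] 0) atTop := by
    have h1 : Tendsto (fun c : ℝ => 2 * √c) (𝓝[>] 0) (𝓝[>] 0) := by
      rw [tendsto_nhdsWithin_iff]
      refine ⟨?_, ?_⟩
      · have : Tendsto (fun c : ℝ => 2 * √c) (𝓝 0) (𝓝 (2 * √0)) :=
          (by fun_prop : Continuous fun c : ℝ => 2 * √c).tendsto 0
        rw [Real.sqrt_zero, mul_zero] at this
        exact this.mono_left nhdsWithin_le_nhds
      · filter_upwards [self_mem_nhdsWithin] with c hc
        have hc0 : 0 < c := hc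
        show 0 < 2 * √c
        positivity
    exact tendsto_inv_nhdsGT_zero.comp h1
  have t1 : Tendsto (fun c : ℝ => -(v / (2 * √c))) (𝓝[>] 0) atBot := by
    have := t0.const_mul_atTop hv.1
    exact tendsto_neg_atTop_atBot.comp (this.congr fun c => (div_eq_mul_inv _ _).symm)
  have t2 : Tendsto (fun c : ℝ => (1 - v) / (2 * √c)) (𝓝[>] 0) atTop := by
    have := t0.const_mul_atTop (show 0 < 1 - v by linarith [hv.2])
    exact this.congr fun c => (div_eq_mul_inv _ _).symm
  have h1 := (intervalIntegral_tendsto_integral g_int t1 t2).const_mul (2 * √Real.pi)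
  have h2 : √Real.pi * √Real.pi = Real.pi := Real.mul_self_sqrt (by positivity)
  rw [g_val, mul_assoc, h2] at h1
  refine h1.congr' ?_
  filter_upwards [self_mem_nhdsWithin] with c hc
  exact (Ic_sub hc v).symm

/-- the integral of the Fejér kernel -/
theorem Jc_lim : Tendsto Jc (𝓝[>] 0) (𝓝 (2 * Real.pi)) := by
  have h1 : Tendsto (fun c => ∫ v in Ioc (0:ℝ) 1, Ic c v) (𝓝[>] 0)
      (𝓝 (∫ _v in Ioc (0:ℝ) 1, 2 * Real.pi)) := by
    refine tendsto_integral_filter_of_dominated_convergence (fun _ => 2 * Real.pi) ?_ ?_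
      (integrable_const _) ?_
    · refine Eventually.of_forall fun c => ?_
      refine Continuous.aestronglyMeasurable ?_
      unfold Ic
      simp_rw [← intervalIntegral.integral_of_le (zero_le_one (α := ℝ))]
      refine intervalIntegral.continuous_parametric_intervalIntegral_of_continuous' ?_ _ _
      fun_prop
    · filter_upwards [self_mem_nhdsWithin] with c hc
      filter_upwards [ae_restrict_mem measurableSet_Ioc] with v hv
      rw [Real.norm_of_nonneg (Ic_nonneg c v)]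
      exact Ic_le hc hv
    · have h2 : ∀ᵐ v : ℝ, v ≠ 1 := by
        rw [ae_iff]
        simp
      filter_upwards [ae_restrict_mem measurableSet_Ioc, ae_restrict_of_ae h2] with v hv hv1
      exact Ic_lim ⟨hv.1, lt_of_le_of_ne hv.2 hv1⟩
  have e : ∫ _v in Ioc (0:ℝ) 1, 2 * Real.pi = 2 * Real.pi := by
    rw [setIntegral_const, Real.volume_real_Ioc]
    simp
  rw [e] at h1
  refine h1.congr' ?_
  filter_upwards [self_mem_nhdsWithin] with c hc
  exact (Jc_eq hc).symm

/-- the multiplier near the Fejér kernel -/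
lemma kap_near {h : ℝ} (hh : 0 < h) (hh1 : h ≤ 1 / 2) {a : ℝ} (ha : |a| ≤ 1) (t : ℝ) :
    ‖kap h (t + a) - h * k1 (h * t)‖ ≤ 3 * h ^ 2 := by
  have e1 : kap h (t + a) = h * ∫ v in (0:ℝ)..1, cexp ((h * v : ℝ) * (1 / 2 + (t + a : ℝ) * I)) := by
    have h1 := intervalIntegral.integral_comp_mul_left (a := 0) (b := 1)
      (fun r : ℝ => cexp (r * (1 / 2 + (t + a : ℝ) * I))) hh.ne'
    rw [mul_zero, mul_one] at h1
    rw [h1, Complex.real_smul, ← mul_assoc, ← Complex.ofReal_mul, mul_inv_cancel₀ hh.ne', Complex.ofReal_one,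
      one_mul]
    rfl
  have c1 : Continuous (fun v : ℝ => cexp ((h * v : ℝ) * (1 / 2 + (t + a : ℝ) * I))) := by fun_prop
  have c2 : Continuous (fun v : ℝ => cexp (v * (h * t : ℝ) * I)) := by fun_prop
  unfold k1
  rw [e1, ← mul_sub, ← intervalIntegral.integral_sub (c1.intervalIntegrable _ _) (c2.intervalIntegrable _ _),
    norm_mul, Complex.norm_real, Real.norm_of_nonneg hh.le]
  have h2 := intervalIntegral.norm_integral_le_of_norm_le_const (a := 0) (b := 1)
    (f := fun v : ℝ => cexp ((h * v : ℝ) * (1 / 2 + (t + a : ℝ) * I)) - cexp (v * (h * t : ℝ) * I))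
    (C := 3 * h) (fun v hv => by
      rw [uIoc_of_le zero_le_one] at hv
      have e2 : cexp ((h * v : ℝ) * (1 / 2 + (t + a : ℝ) * I)) - cexp (v * (h * t : ℝ) * I) =
          (cexp ((h * v : ℝ) * (1 / 2 + a * I)) - 1) * cexp (v * (h * t : ℝ) * I) := by
        rw [sub_mul, one_mul, ← Complex.exp_add]
        congr 2
        push_cast
        ring
      rw [e2, norm_mul, exp_vx, mul_one]
      have h3 : ‖((h * v : ℝ) : ℂ) * (1 / 2 + a * I)‖ ≤ 3 / 2 * h := by
        rw [norm_mul, Complex.norm_real, Real.norm_of_nonneg (mul_nonneg hh.le hv.1.le)]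
        have h4 : ‖(1 / 2 + a * I : ℂ)‖ ≤ 3 / 2 := by
          refine (norm_add_le _ _).trans ?_
          rw [norm_mul, norm_I, mul_one, Complex.norm_real, Real.norm_eq_abs]
          have : ‖(1 / 2 : ℂ)‖ = 1 / 2 := by norm_num
          rw [this]
          linarith
        calc h * v * ‖(1 / 2 + a * I : ℂ)‖ ≤ h * 1 * (3 / 2) := by
              have := hv.2
              have := hv.1.le
              gcongr
          _ = _ := by ring
      have h5 := Complex.norm_exp_sub_one_le (x := ((h * v : ℝ) : ℂ) * (1 / 2 + a * I)) (by linarith)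
      linarith)
  rw [sub_zero, abs_one, mul_one] at h2
  calc h * _ ≤ h * (3 * h) := mul_le_mul_of_nonneg_left h2 hh.le
    _ = _ := by ring

/-- the correlations of the short intervals -/
lemma Rs_Gb (k : ℕ) {h ε a : ℝ} (hh : 0 < h) (hh1 : h ≤ 1 / 2) (hε : 0 < ε) (ha : |a| ≤ 1) :
    ‖Rs (Gb k h ε) a - (h:ℂ) ^ 2 * (((Real.exp (-(ε ^ 2 * a ^ 2)) : ℝ) : ℂ) *
      ∫ t : ℝ, ((gz (ε ^ 2) t * fj (h * t) : ℝ) : ℂ) * Pa k a t)‖ ≤ 9 * h ^ 3 * mass k ε⁻¹ := by
  have hd := Gb_dec k hh.le hε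
  have hF := Fh_dec k hε
  have hsq := hF.sq
  rw [← Cr_eq hd]
  have hFF : ∀ t : ℝ, Fh k ε (t + a) * conj (Fh k ε (t + -a)) =
      ((Real.exp (-(ε ^ 2 * a ^ 2)) : ℝ) : ℂ) * (((gz (ε ^ 2) t : ℝ) : ℂ) * Pa k a t) := by
    intro t
    unfold Fh Pa gz
    rw [map_mul, Complex.conj_ofReal]
    have e : ((Real.exp (-(ε ^ 2 * (t + a) ^ 2 / 2)) : ℝ) : ℂ) * ((Real.exp (-(ε ^ 2 * (t + -a) ^ 2 / 2)) : ℝ) : ℂ) =
        ((Real.exp (-(ε ^ 2 * a ^ 2)) : ℝ) : ℂ) * ((Real.exp (-(ε ^ 2 * t ^ 2)) : ℝ) : ℂ) := by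
      rw [← Complex.ofReal_mul, ← Complex.ofReal_mul, ← Real.exp_add, ← Real.exp_add]
      congr 2
      ring
    calc _ = zk k (t + a) * conj (zk k (t + -a)) * (((Real.exp (-(ε ^ 2 * (t + a) ^ 2 / 2)) : ℝ) : ℂ) *
          ((Real.exp (-(ε ^ 2 * (t + -a) ^ 2 / 2)) : ℝ) : ℂ)) := by ring
      _ = _ := by rw [e]; ring
  have e1 : (h:ℂ) ^ 2 * (((Real.exp (-(ε ^ 2 * a ^ 2)) : ℝ) : ℂ) *
      ∫ t : ℝ, ((gz (ε ^ 2) t * fj (h * t) : ℝ) : ℂ) * Pa k a t) =
      ∫ t : ℝ, ((h:ℂ) ^ 2 * (fj (h * t) : ℂ)) * (Fh k ε (t + a) * conj (Fh k ε (t + -a))) := by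
    rw [← integral_const_mul, ← integral_const_mul]
    refine integral_congr_ae (Eventually.of_forall fun t => ?_)
    simp only
    rw [hFF]
    push_cast
    ring
  have e2 : Cr (Gb k h ε) a = ∫ t : ℝ, (kap h (t + a) * conj (kap h (t + -a))) *
      (Fh k ε (t + a) * conj (Fh k ε (t + -a))) := by
    unfold Cr
    refine integral_congr_ae (Eventually.of_forall fun t => ?_)
    simp only
    unfold Gb
    rw [map_mul]
    ring
  have i0 : Integrable (fun t => ((‖Fh k ε (t + a)‖ ^ 2 + ‖Fh k ε (t + -a)‖ ^ 2) / 2)) :=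
    ((hsq.comp_add_right a).add (hsq.comp_add_right (-a))).div_const 2
  have h6 : ∀ t, ‖Fh k ε (t + a) * conj (Fh k ε (t + -a))‖ ≤ (‖Fh k ε (t + a)‖ ^ 2 + ‖Fh k ε (t + -a)‖ ^ 2) / 2 := by
    intro t
    rw [norm_mul, RCLike.norm_conj]
    nlinarith [sq_nonneg (‖Fh k ε (t + a)‖ - ‖Fh k ε (t + -a)‖)]
  have hcc := hF.cont
  have hkc := kap_cont h
  have hfc := fj_cont
  have cF : Continuous (fun t => Fh k ε (t + a) * conj (Fh k ε (t + -a))) :=
    (hcc.comp (by fun_prop)).mul (Complex.continuous_conj.comp (hcc.comp (by fun_prop)))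
  have i1 : Integrable (fun t : ℝ => (kap h (t + a) * conj (kap h (t + -a))) *
      (Fh k ε (t + a) * conj (Fh k ε (t + -a)))) := by
    refine (i0.const_mul ((h * Real.exp (h / 2)) ^ 2)).mono' (Continuous.aestronglyMeasurable ?_)
      (Eventually.of_forall fun t => ?_)
    · exact ((hkc.comp (by fun_prop)).mul (Complex.continuous_conj.comp (hkc.comp (by fun_prop)))).mul cF
    · rw [norm_mul, norm_mul (kap h (t + a)), RCLike.norm_conj, sq (h * Real.exp (h / 2))]
      exact mul_le_mul (mul_le_mul (kap_norm hh.le _) (kap_norm hh.le _) (norm_nonneg _) (by positivity)) (h6 t)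
        (norm_nonneg _) (by positivity)
  have i2 : Integrable (fun t : ℝ => ((h:ℂ) ^ 2 * (fj (h * t) : ℂ)) *
      (Fh k ε (t + a) * conj (Fh k ε (t + -a)))) := by
    refine (i0.const_mul (h ^ 2)).mono' (Continuous.aestronglyMeasurable ?_)
      (Eventually.of_forall fun t => ?_)
    · exact (by fun_prop : Continuous fun t : ℝ => ((h:ℂ) ^ 2 * (fj (h * t) : ℂ))).mul cF
    · rw [norm_mul, norm_mul, norm_pow, Complex.norm_real, Real.norm_of_nonneg hh.le, Complex.norm_real,
        Real.norm_of_nonneg (fj_nonneg _)]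
      exact mul_le_mul (mul_le_of_le_one_right (by positivity) (fj_le _)) (h6 t) (norm_nonneg _) (by positivity)
  have hk : ∀ t, ‖kap h (t + a) * conj (kap h (t + -a)) - (h:ℂ) ^ 2 * (fj (h * t) : ℂ)‖ ≤ 9 * h ^ 3 := by
    intro t
    have n1 := kap_near hh hh1 ha t
    have n2 := kap_near hh hh1 (a := -a) (by rwa [abs_neg]) t
    have n3 := kap_norm hh.le (t + -a)
    have n4 := k1_norm (h * t)
    have e3 : (h:ℂ) ^ 2 * (fj (h * t) : ℂ) = (h * k1 (h * t)) * conj (h * k1 (h * t)) := by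
      unfold fj
      rw [map_mul, conj_ofReal]
      have : ((‖k1 (h * t)‖ ^ 2 : ℝ) : ℂ) = k1 (h * t) * conj (k1 (h * t)) := by
        rw [Complex.mul_conj, Complex.normSq_eq_norm_sq]
      rw [this]
      ring
    have e4 : kap h (t + a) * conj (kap h (t + -a)) - (h * k1 (h * t)) * conj (h * k1 (h * t)) =
        (kap h (t + a) - h * k1 (h * t)) * conj (kap h (t + -a)) +
          (h * k1 (h * t)) * conj (kap h (t + -a) - h * k1 (h * t)) := by
      rw [map_sub]; ring
    rw [e3, e4]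
    refine (norm_add_le _ _).trans ?_
    rw [norm_mul, norm_mul, RCLike.norm_conj, RCLike.norm_conj, norm_mul, Complex.norm_real,
      Real.norm_of_nonneg hh.le]
    have h8 : Real.exp (h / 2) ≤ 2 := by
      have h5 : Real.exp (1 / 2) ^ 2 = Real.exp 1 := by rw [← Real.exp_nat_mul]; norm_num
      have h6 := Real.exp_one_lt_d9
      have h7 : Real.exp (1 / 2) ≤ 2 := by nlinarith [Real.exp_pos (1 / 2)]
      exact (Real.exp_le_exp.2 (by linarith)).trans h7
    calc ‖kap h (t + a) - h * k1 (h * t)‖ * ‖kap h (t + -a)‖ + h * ‖k1 (h * t)‖ *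
          ‖kap h (t + -a) - h * k1 (h * t)‖ ≤ (3 * h ^ 2) * (h * 2) + h * 1 * (3 * h ^ 2) := by
          gcongr
          exact n3.trans (mul_le_mul_of_nonneg_left h8 hh.le)
      _ = _ := by ring
  rw [e1, e2, ← integral_sub i1 i2]
  refine (norm_integral_le_of_norm_le (i0.const_mul (9 * h ^ 3)) (Eventually.of_forall fun t => ?_)).trans
    (le_of_eq ?_)
  · rw [← sub_mul, norm_mul]
    exact mul_le_mul (hk t) (h6 t) (norm_nonneg _) (by positivity)
  · have h1 : ∀ x : ℝ, ∫ t, ‖Fh k ε (t + x)‖ ^ 2 = mass k ε⁻¹ := fun x => by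
      unfold mass
      rw [inv_inv]
      exact integral_add_right_eq_self (fun t => ‖Fh k ε t‖ ^ 2) x
    rw [integral_const_mul, integral_div, integral_add (hsq.comp_add_right a) (hsq.comp_add_right (-a)), h1, h1]
    ring

end

end Pool.Agent.J4.H32.VS
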