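import Pool.Agent.J4.H32.VS.U4
import Pool.Agent.J4.H32.VS.U6

set_option autoImplicit false

/-! From the shifted moments to short intervals. -/

namespace Pool.Agent.J4.H32.VS

open Complex MeasureTheory Filter Topology Set Metric Pool.Agent.TH535.SM Pool.Agent.R446.KR
open Pool.Agent.J4.H44.LP
open Pool.Agent.J4.H44.OL (Cr Cr_int Rs Rs_int Cr_eq)
open Pool.Agent.W182.KO (TF)
open scoped FourierTransform ComplexConjugate

noncomputable section

variable {q k : ℕ}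

/-- the normalisation of the short intervals -/
def Nh (q : ℕ) (T : ℝ) : ℝ := T⁻¹ ^ 2 * NN q T

lemma Nh_pos (q : ℕ) {T : ℝ} (hT : 1 < T) : 0 < Nh q T := by
  unfold Nh
  have := NN_pos q hT
  have : 0 < T := by linarith
  positivity

lemma Nh_eq (q : ℕ) {T : ℝ} (hT : 0 < T) : Nh q T = T⁻¹ * Real.log T ^ q := by
  unfold Nh NN
  field_simp

lemma up_of_ratio' {X Y : ℝ → ℝ} {c : ℝ} (h : Tendsto (fun T => X T / Y T) atTop (𝓝 c)) :
    ∀ᶠ T in atTop, 0 < Y T → X T ≤ (|c| + 1) * Y T := by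
  filter_upwards [h.eventually_le_const (show c < |c| + 1 by linarith [le_abs_self c])] with T h1 h2
  rwa [div_le_iff₀ h2] at h1

lemma Jc_le {c : ℝ} (hc : 0 < c) : Jc c ≤ 2 * Real.pi := by
  rw [Jc_eq hc]
  have h1 : ∫ v in Ioc (0:ℝ) 1, Ic c v ≤ ∫ _v in Ioc (0:ℝ) 1, 2 * Real.pi := by
    refine integral_mono_of_nonneg (Eventually.of_forall fun v => Ic_nonneg c v) (integrable_const _) ?_
    filter_upwards [ae_restrict_mem measurableSet_Ioc] with v hv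
    exact Ic_le hc hv
  refine h1.trans (le_of_eq ?_)
  rw [setIntegral_const, Real.volume_real_Ioc]
  simp

lemma Jc_nonneg (c : ℝ) : 0 ≤ Jc c := integral_nonneg fun x => mul_nonneg (gz_pos c x).le (fj_nonneg x)

lemma gz_top {c : ℝ} (hc : 0 < c) : Tendsto (gz c) atTop (𝓝 0) := by
  have h1 : Tendsto (fun x : ℝ => c * x ^ 2) atTop atTop :=
    (tendsto_pow_atTop (two_ne_zero)).const_mul_atTop hc
  exact Real.tendsto_exp_neg_atTop_nhds_zero.comp h1

/-- the limits of the correlations of the short intervals -/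
theorem Rs_Gb_lim {G : ℝ → ℂ}
    (hG : ∀ α : ℝ, Tendsto (fun T => Rs (Fh k T⁻¹) (α / Real.log T) / (NN q T : ℂ)) atTop (𝓝 (√Real.pi * G α)))
    (hup : ∃ C : ℝ, ∀ᶠ T in atTop, mass k T ≤ C * NN q T) {δ : ℝ} (hδ : 0 < δ) (α : ℝ) :
    Tendsto (fun T => Rs (Gb k T⁻¹ (δ / T)) (α / Real.log T) / ((Nh q T : ℝ) : ℂ)) atTop
      (𝓝 (((Jc (δ ^ 2) : ℝ) : ℂ) * G α)) := by
  have hψ : Continuous (fun x => gz (δ ^ 2 / 2) x * fj x) := (gz_cont _).mul fj_cont
  have h0 : Tendsto (fun x => gz (δ ^ 2 / 2) x * fj x) atTop (𝓝 0) :=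
    squeeze_zero (fun x => mul_nonneg (gz_pos _ x).le (fj_nonneg x))
      (fun x => mul_le_of_le_one_right (gz_pos _ x).le (fj_le x)) (gz_top (by positivity))
  have hev : ∀ x, gz (δ ^ 2 / 2) (-x) * fj (-x) = gz (δ ^ 2 / 2) x * fj x := by
    intro x
    rw [fj_neg]
    unfold gz
    rw [neg_sq]
  have h1 := weier hG hup (c := δ ^ 2 / 2) (by positivity) hψ h0 hev α
  have e1 : ∀ x, gz (δ ^ 2 / 2) x * (gz (δ ^ 2 / 2) x * fj x) = gz (δ ^ 2) x * fj x := by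
    intro x
    rw [← mul_assoc]
    congr 1
    unfold gz
    rw [← Real.exp_add]
    congr 1
    ring
  simp only [e1] at h1
  -- the small factor
  have h2 : Tendsto (fun T : ℝ => ((Real.exp (-((δ / T) ^ 2 * (α / Real.log T) ^ 2)) : ℝ) : ℂ)) atTop (𝓝 1) := by
    have h3 : Tendsto (fun T : ℝ => -((δ / T) ^ 2 * (α / Real.log T) ^ 2)) atTop (𝓝 (-(0 ^ 2 * 0 ^ 2))) := by
      refine Tendsto.neg (Tendsto.mul (Tendsto.pow ?_ 2) (Tendsto.pow ?_ 2))
      · exact tendsto_const_nhds.div_atTop tendsto_id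
      · exact tendsto_const_nhds.div_atTop Real.tendsto_log_atTop
    have h4 := (Complex.continuous_ofReal.tendsto _).comp ((Real.continuous_exp.tendsto _).comp h3)
    have e : ((Real.exp (-((0:ℝ) ^ 2 * (0:ℝ) ^ 2)) : ℝ) : ℂ) = 1 := by simp
    rw [e] at h4
    exact h4
  have h5 := h2.mul h1
  rw [one_mul] at h5
  -- the error
  obtain ⟨C, hC⟩ := hup
  have hs0 : 0 < δ⁻¹ := by positivity
  have t1 : Tendsto (fun T : ℝ => δ⁻¹ * T) atTop atTop := tendsto_id.const_mul_atTop hs0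
  have h6 := (NN_scale q hs0).eventually_le_const (show δ⁻¹ < δ⁻¹ + 1 by linarith)
  have herr : Tendsto (fun T : ℝ => 9 * (|C| * (δ⁻¹ + 1)) * T⁻¹) atTop (𝓝 0) := by
    simpa using tendsto_inv_atTop_zero.const_mul (9 * (|C| * (δ⁻¹ + 1)))
  have h7 : Tendsto (fun T => Rs (Gb k T⁻¹ (δ / T)) (α / Real.log T) / ((Nh q T : ℝ) : ℂ) -
      ((Real.exp (-((δ / T) ^ 2 * (α / Real.log T) ^ 2)) : ℝ) : ℂ) *
        ((∫ t : ℝ, ((gz (δ ^ 2) (t / T) * fj (t / T) : ℝ) : ℂ) * Pa k (α / Real.log T) t) / (NN q T : ℂ)))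
      atTop (𝓝 0) := by
    rw [tendsto_zero_iff_norm_tendsto_zero]
    refine squeeze_zero' (Eventually.of_forall fun T => norm_nonneg _) ?_ herr
    filter_upwards [t1.eventually hC, t1.eventually_ge_atTop 1, shift_small α, h6, eventually_ge_atTop 2]
      with T a1 a2 a3 a4 a5
    have hT0 : 0 < T := by linarith
    have hN := NN_pos q (show 1 < T by linarith)
    have hNh := Nh_pos q (show 1 < T by linarith)
    have hh1 : T⁻¹ ≤ 1 / 2 := by
      rw [one_div]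
      exact inv_anti₀ (by norm_num) a5
    have b1 := Rs_Gb k (h := T⁻¹) (ε := δ / T) (by positivity) hh1 (by positivity) a3
    have e2 : ∫ t : ℝ, ((gz ((δ / T) ^ 2) t * fj (T⁻¹ * t) : ℝ) : ℂ) * Pa k (α / Real.log T) t =
        ∫ t : ℝ, ((gz (δ ^ 2) (t / T) * fj (t / T) : ℝ) : ℂ) * Pa k (α / Real.log T) t := by
      refine integral_congr_ae (Eventually.of_forall fun t => ?_)
      simp only
      have e3 : gz ((δ / T) ^ 2) t = gz (δ ^ 2) (t / T) := by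
        unfold gz
        congr 1
        field_simp
      rw [e3, show T⁻¹ * t = t / T by ring]
    rw [e2] at b1
    have e4 : (δ / T)⁻¹ = δ⁻¹ * T := by field_simp
    rw [e4] at b1
    rw [div_le_iff₀ hN] at a4
    have hN2 : 0 ≤ NN q (δ⁻¹ * T) := by
      unfold NN
      have := Real.log_nonneg a2
      positivity
    have b2 : mass k (δ⁻¹ * T) ≤ |C| * (δ⁻¹ + 1) * NN q T := by
      calc mass k (δ⁻¹ * T) ≤ C * NN q (δ⁻¹ * T) := a1
        _ ≤ |C| * NN q (δ⁻¹ * T) := mul_le_mul_of_nonneg_right (le_abs_self C) hN2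
        _ ≤ |C| * ((δ⁻¹ + 1) * NN q T) := mul_le_mul_of_nonneg_left a4 (abs_nonneg _)
        _ = _ := by ring
    set X := Rs (Gb k T⁻¹ (δ / T)) (α / Real.log T) with hX
    set E : ℂ := ((Real.exp (-((δ / T) ^ 2 * (α / Real.log T) ^ 2)) : ℝ) : ℂ) with hE
    set J : ℂ := ∫ t : ℝ, ((gz (δ ^ 2) (t / T) * fj (t / T) : ℝ) : ℂ) * Pa k (α / Real.log T) t with hJ
    have hNc : (NN q T : ℂ) ≠ 0 := by exact_mod_cast hN.ne'
    have hTc : (T : ℂ) ≠ 0 := by exact_mod_cast hT0.ne'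
    have e5 : X / ((Nh q T : ℝ) : ℂ) - E * (J / (NN q T : ℂ)) =
        (X - ((T⁻¹ : ℝ) : ℂ) ^ 2 * (E * J)) / ((Nh q T : ℝ) : ℂ) := by
      unfold Nh
      push_cast
      field_simp
    rw [e5, norm_div, Complex.norm_real, Real.norm_of_nonneg hNh.le, div_le_iff₀ hNh]
    calc _ ≤ 9 * T⁻¹ ^ 3 * mass k (δ⁻¹ * T) := b1
      _ ≤ 9 * T⁻¹ ^ 3 * (|C| * (δ⁻¹ + 1) * NN q T) := by gcongr
      _ = _ := by unfold Nh; ring
  have h8 := h7.add h5
  rw [zero_add] at h8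
  refine h8.congr fun T => ?_
  ring

lemma Gb_zero (k : ℕ) {h ε : ℝ} (hh : 0 ≤ h) (hε : 0 < ε) :
    Rs (Gb k h ε) 0 = ((∫ t, ‖Gb k h ε t‖ ^ 2 : ℝ) : ℂ) := by
  unfold Rs
  rw [← (planch (Gb_dec k hh hε)).2, ← integral_complex_ofReal]
  refine integral_congr_ae (Eventually.of_forall fun t => ?_)
  simp

lemma Gb_mass_lim {G : ℝ → ℂ}
    (hG : ∀ α : ℝ, Tendsto (fun T => Rs (Fh k T⁻¹) (α / Real.log T) / (NN q T : ℂ)) atTop (𝓝 (√Real.pi * G α)))
    (hup : ∃ C : ℝ, ∀ᶠ T in atTop, mass k T ≤ C * NN q T) {δ : ℝ} (hδ : 0 < δ) :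
    Tendsto (fun T => (∫ t, ‖Gb k T⁻¹ (δ / T) t‖ ^ 2) / Nh q T) atTop (𝓝 (Jc (δ ^ 2) * (G 0).re)) := by
  have h1 := (Complex.continuous_re.tendsto _).comp (Rs_Gb_lim hG hup hδ 0)
  rw [Complex.re_ofReal_mul] at h1
  refine h1.congr' ?_
  filter_upwards [eventually_gt_atTop 0] with T hT
  simp only [Function.comp]
  rw [zero_div, Gb_zero k (by positivity) (by positivity), ← Complex.ofReal_div, Complex.ofReal_re]

/-- the test functions -/
theorem Sg_Gb_lim {G : ℝ → ℂ}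
    (hG : ∀ α : ℝ, Tendsto (fun T => Rs (Fh k T⁻¹) (α / Real.log T) / (NN q T : ℂ)) atTop (𝓝 (√Real.pi * G α)))
    (hup : ∃ C : ℝ, ∀ᶠ T in atTop, mass k T ≤ C * NN q T) {δ : ℝ} (hδ : 0 < δ) {ξ : ℝ} {f : ℝ → ℂ} (hf : TF ξ f) :
    Tendsto (fun T => Sg (Gb k T⁻¹ (δ / T)) (Real.log T) f / ((Nh q T : ℝ) : ℂ)) atTop
      (𝓝 (((Jc (δ ^ 2) : ℝ) : ℂ) * ∫ y, KL f 1 y * G (y / 2))) := by
  have hR := Rs_Gb_lim hG hup hδ
  have hm := up_of_ratio' (Gb_mass_lim hG hup hδ)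
  set C : ℝ := |Jc (δ ^ 2) * (G 0).re| + 1 with hC
  have hlim : Tendsto (fun T => ∫ y, KL f 1 y * (Rs (Gb k T⁻¹ (δ / T)) (y / 2 / Real.log T) /
      ((Nh q T : ℝ) : ℂ))) atTop (𝓝 (∫ y, KL f 1 y * (((Jc (δ ^ 2) : ℝ) : ℂ) * G (y / 2)))) := by
    refine tendsto_integral_filter_of_dominated_convergence (fun y => ‖KL f 1 y‖ * C) ?_ ?_
      ((KL_int hf one_pos).norm.mul_const C) ?_
    · filter_upwards [eventually_ge_atTop 1] with T hT
      have hF := Gb_dec k (h := T⁻¹) (ε := δ / T) (by positivity) (by positivity)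
      have := Rs_cont hF
      have h2 := KL_cont hf 1
      refine Continuous.aestronglyMeasurable ?_
      exact h2.mul ((this.comp (by fun_prop)).div_const _)
    · filter_upwards [hm, eventually_gt_atTop 1] with T hT1 hT
      have hF := Gb_dec k (h := T⁻¹) (ε := δ / T) (by positivity) (by positivity)
      have hN := Nh_pos q hT
      refine Eventually.of_forall fun y => ?_
      rw [norm_mul, norm_div, Complex.norm_real, Real.norm_of_nonneg hN.le]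
      refine mul_le_mul_of_nonneg_left ?_ (norm_nonneg _)
      rw [div_le_iff₀ hN]
      exact (Rs_le hF _).trans (hT1 hN)
    · exact Eventually.of_forall fun y => (hR (y / 2)).const_mul _
  have e0 : ∫ y, KL f 1 y * (((Jc (δ ^ 2) : ℝ) : ℂ) * G (y / 2)) =
      ((Jc (δ ^ 2) : ℝ) : ℂ) * ∫ y, KL f 1 y * G (y / 2) := by
    rw [← integral_const_mul]
    refine integral_congr_ae (Eventually.of_forall fun y => ?_)
    simp only
    ring
  rw [e0] at hlim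
  refine hlim.congr' ?_
  filter_upwards [eventually_gt_atTop 1] with T hT
  have hF := Gb_dec k (h := T⁻¹) (ε := δ / T) (by positivity) (by positivity)
  rw [Sg_Rs hf hF (Real.log_pos hT), ← integral_div]
  refine integral_congr_ae (Eventually.of_forall fun y => ?_)
  simp only
  rw [div_div y 2, mul_div_assoc]

lemma Ee_sq_int {h b : ℝ} (hh : 0 ≤ h) (hb : 0 < b) (hi : Integrable (fun u => ‖Ee k h u - Bh k h b u‖ ^ 2)) :
    Integrable (fun u => ‖Ee k h u‖ ^ 2) := by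
  have h1 : Integrable (fun u => ‖Bh k h b u‖ ^ 2) := by
    rw [Bh_Bf k hh hb]
    exact Bf_int (Gb_dec k hh hb)
  refine ((hi.const_mul 2).add (h1.const_mul 2)).mono' ((Ee_meas k h).norm.pow_const 2).aestronglyMeasurable
    (Eventually.of_forall fun u => ?_)
  rw [Real.norm_of_nonneg (by positivity)]
  simp only [Pi.add_apply]
  have h2 : ‖Ee k h u‖ ≤ ‖Ee k h u - Bh k h b u‖ + ‖Bh k h b u‖ := by
    have := norm_add_le (Ee k h u - Bh k h b u) (Bh k h b u)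
    rwa [sub_add_cancel] at this
  have := norm_nonneg (Ee k h u)
  nlinarith [sq_nonneg (‖Ee k h u - Bh k h b u‖ - ‖Bh k h b u‖)]

lemma sq_cmp (a b : ℂ) {l : ℝ} (hl : 0 < l) : |‖a‖ ^ 2 - ‖b‖ ^ 2| ≤ (1 + l⁻¹) * ‖a - b‖ ^ 2 + l * ‖b‖ ^ 2 := by
  have h1 : |‖a‖ - ‖b‖| ≤ ‖a - b‖ := abs_norm_sub_norm_le a b
  have h2 : ‖a‖ ≤ ‖a - b‖ + ‖b‖ := by
    have := norm_add_le (a - b) b
    rwa [sub_add_cancel] at this
  have e : ‖a‖ ^ 2 - ‖b‖ ^ 2 = (‖a‖ - ‖b‖) * (‖a‖ + ‖b‖) := by ring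
  have h0 := norm_nonneg (a - b)
  have ha := norm_nonneg a
  have hb := norm_nonneg b
  have h3 : 2 * ‖a - b‖ * ‖b‖ ≤ l⁻¹ * ‖a - b‖ ^ 2 + l * ‖b‖ ^ 2 := by
    have h4 : 0 ≤ l⁻¹ * (‖a - b‖ - l * ‖b‖) ^ 2 := by positivity
    have h5 : l⁻¹ * (‖a - b‖ - l * ‖b‖) ^ 2 = l⁻¹ * ‖a - b‖ ^ 2 - 2 * ‖a - b‖ * ‖b‖ + l * ‖b‖ ^ 2 := by
      field_simp
      ring
    linarith
  rw [e, abs_mul, abs_of_nonneg (add_nonneg ha hb)]
  calc |‖a‖ - ‖b‖| * (‖a‖ + ‖b‖) ≤ ‖a - b‖ * ((‖a - b‖ + ‖b‖) + ‖b‖) := by gcongr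
    _ = ‖a - b‖ ^ 2 + 2 * ‖a - b‖ * ‖b‖ := by ring
    _ ≤ _ := by linarith

/-- **from the shifted moments to short intervals** -/
theorem fwd {G : ℝ → ℂ}
    (hG : ∀ α : ℝ, Tendsto (fun T => Cor (zk k) (α / Real.log T) T / (NN q T : ℂ)) atTop (𝓝 (G α)))
    {ξ : ℝ} {f : ℝ → ℝ} (hf : TF ξ (fun v => ((f v : ℝ) : ℂ))) :
    Tendsto (fun T => (∫ u, f (u / Real.log T) * ‖Ee k T⁻¹ u‖ ^ 2) / Nh q T) atTop
      (𝓝 (∫ y, KL (fun v => ((f v : ℝ) : ℂ)) 1 y * G (y / 2)).re) := by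
  have hR := AT2a (k := k) (q := q) hG
  have hM : Tendsto (fun T => M (zk k) T / NN q T) atTop (𝓝 (G 0).re) := by
    have h2 := (Complex.continuous_re.tendsto _).comp (hG 0)
    refine h2.congr fun T => ?_
    simp only [Function.comp, zero_div]
    rw [Cor_zero, ← Complex.ofReal_div, Complex.ofReal_re]
  have hup : ∃ C : ℝ, ∀ᶠ T in atTop, mass k T ≤ C * NN q T := ⟨_, up_of_ratio ((AT1 k q _).1 hM)⟩
  obtain ⟨K, b0, hK, hb0, herr⟩ := Bh_err (k := k) (q := q) hup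
  -- bound of the test function
  have hfc : Continuous f := by
    have h1 := Complex.continuous_re.comp hf.cd.continuous
    exact h1
  obtain ⟨S, hS⟩ : ∃ S : ℝ, ∀ v, |f v| ≤ S := by
    obtain ⟨S, hS⟩ := hf.cs.exists_bound_of_continuous hf.cd.continuous
    refine ⟨S, fun v => ?_⟩
    have := hS v
    rwa [Complex.norm_real] at this
  have hS0 : 0 ≤ S := (abs_nonneg _).trans (hS 0)
  set v0 : ℝ := (∫ y, KL (fun v => ((f v : ℝ) : ℂ)) 1 y * G (y / 2)).re with hv0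
  set g0 : ℝ := |(G 0).re| with hg0
  have hg00 : 0 ≤ g0 := abs_nonneg _
  -- the choice of the parameter
  have c1 : Tendsto (fun δ : ℝ => S * ((1 + (√δ)⁻¹) * (2 * K * δ) + √δ * (g0 + 1))) (𝓝[>] 0) (𝓝 0) := by
    have h1 : Tendsto (fun δ : ℝ => S * (2 * K * δ + 2 * K * √δ + √δ * (g0 + 1))) (𝓝[>] 0) (𝓝 0) := by
      have h2 : Tendsto (fun δ : ℝ => S * (2 * K * δ + 2 * K * √δ + √δ * (g0 + 1))) (𝓝 0)
          (𝓝 (S * (2 * K * 0 + 2 * K * √0 + √0 * (g0 + 1)))) :=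
        (by fun_prop : Continuous fun δ : ℝ => S * (2 * K * δ + 2 * K * √δ + √δ * (g0 + 1))).tendsto 0
      simp only [Real.sqrt_zero, mul_zero, zero_mul, add_zero] at h2
      exact h2.mono_left nhdsWithin_le_nhds
    refine h1.congr' ?_
    filter_upwards [self_mem_nhdsWithin] with δ hδ
    have hδ0 : 0 < δ := hδ
    have hs : 0 < √δ := by positivity
    have e : (√δ)⁻¹ * δ = √δ := by
      rw [inv_mul_eq_div, Real.div_sqrt]
    linear_combination (-(S * 2 * K)) * e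
  have c2 : Tendsto (fun δ : ℝ => |Jc (δ ^ 2) / (2 * Real.pi) - 1| * |v0|) (𝓝[>] 0) (𝓝 0) := by
    have h1 : Tendsto (fun δ : ℝ => δ ^ 2) (𝓝[>] 0) (𝓝[>] 0) := by
      rw [tendsto_nhdsWithin_iff]
      refine ⟨?_, ?_⟩
      · have : Tendsto (fun δ : ℝ => δ ^ 2) (𝓝 0) (𝓝 (0 ^ 2)) := (continuous_pow 2).tendsto 0
        rw [zero_pow two_ne_zero] at this
        exact this.mono_left nhdsWithin_le_nhds
      · filter_upwards [self_mem_nhdsWithin] with δ hδ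
        have hδ0 : 0 < δ := hδ
        show 0 < δ ^ 2
        positivity
    have h2 := (((Jc_lim.comp h1).div_const (2 * Real.pi)).sub_const 1).abs.mul_const |v0|
    have e : |2 * Real.pi / (2 * Real.pi) - 1| * |v0| = 0 := by
      rw [div_self (by positivity), sub_self, abs_zero, zero_mul]
    rw [e] at h2
    exact h2
  rw [Metric.tendsto_nhds]
  intro ε hε
  obtain ⟨δ, ⟨d1, d2⟩, d3⟩ := ((((c1.eventually_lt_const (show (0:ℝ) < ε / 3 by positivity)).and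
    (c2.eventually_lt_const (show (0:ℝ) < ε / 3 by positivity)))).and self_mem_nhdsWithin).exists
  have hδ : 0 < δ := d3
  have hs : 0 < √δ := by positivity
  -- the three limits
  have l1 := Sg_Gb_lim hR hup hδ hf
  have l1' : Tendsto (fun T => (∫ u, f (u / Real.log T) * ‖Bh k T⁻¹ (δ / T) u‖ ^ 2) / Nh q T) atTop
      (𝓝 (Jc (δ ^ 2) / (2 * Real.pi) * v0)) := by
    have h1 := ((Complex.continuous_re.tendsto _).comp l1).const_mul (1 / (2 * Real.pi))
    rw [Complex.re_ofReal_mul] at h1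
    have e : 1 / (2 * Real.pi) * (Jc (δ ^ 2) * (∫ y, KL (fun v => ((f v : ℝ) : ℂ)) 1 y * G (y / 2)).re) =
        Jc (δ ^ 2) / (2 * Real.pi) * v0 := by rw [hv0]; ring
    rw [e] at h1
    refine h1.congr' ?_
    filter_upwards [eventually_gt_atTop 0] with T hT
    simp only [Function.comp]
    rw [Sg_real f, ← Complex.ofReal_div, Complex.ofReal_re, Bh_Bf k (by positivity) (by positivity), Bf_St]
    ring
  have l2 : ∀ᶠ T in atTop, (∫ u, ‖Bh k T⁻¹ (δ / T) u‖ ^ 2) ≤ (g0 + 1) * Nh q T := by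
    have h1 := up_of_ratio' (Gb_mass_lim hR hup hδ)
    have h3 := (Gb_mass_lim hR hup hδ).eventually_le_const
      (show Jc (δ ^ 2) * (G 0).re < 2 * Real.pi * g0 + 2 * Real.pi by
        have h4 := Jc_le (c := δ ^ 2) (by positivity)
        have h5 := Jc_nonneg (δ ^ 2)
        have h6 : Jc (δ ^ 2) * (G 0).re ≤ Jc (δ ^ 2) * g0 := mul_le_mul_of_nonneg_left (le_abs_self _) h5
        have h7 : Jc (δ ^ 2) * g0 ≤ 2 * Real.pi * g0 := mul_le_mul_of_nonneg_right h4 hg00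
        have := Real.pi_pos
        linarith)
    filter_upwards [h3, eventually_gt_atTop 1] with T a1 a2
    have hN := Nh_pos q a2
    have hT0 : 0 < T := by linarith
    rw [div_le_iff₀ hN] at a1
    rw [Bh_Bf k (by positivity) (by positivity), Bf_norm (Gb_dec k (by positivity) (by positivity))]
    have hp := Real.pi_pos
    calc 1 / (2 * Real.pi) * ∫ t, ‖Gb k T⁻¹ (δ / T) t‖ ^ 2 ≤
          1 / (2 * Real.pi) * ((2 * Real.pi * g0 + 2 * Real.pi) * Nh q T) := by gcongr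
      _ = _ := by field_simp
  have l3 : ∀ᶠ T in atTop, Integrable (fun u => ‖Ee k T⁻¹ u - Bh k T⁻¹ (δ / T) u‖ ^ 2) ∧
      ∫ u, ‖Ee k T⁻¹ u - Bh k T⁻¹ (δ / T) u‖ ^ 2 ≤ 2 * K * δ * Nh q T := by
    have t1 : Tendsto (fun T : ℝ => δ / T) atTop (𝓝 0) := tendsto_const_nhds.div_atTop tendsto_id
    have t2 : Tendsto (fun T : ℝ => (1 + -Real.log δ / Real.log T) ^ q) atTop (𝓝 ((1 + 0) ^ q)) :=
      Tendsto.pow (tendsto_const_nhds.add (tendsto_const_nhds.div_atTop Real.tendsto_log_atTop)) q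
    rw [add_zero, one_pow] at t2
    filter_upwards [t1.eventually_le_const hb0, t2.eventually_le_const (show (1:ℝ) < 2 by norm_num),
      eventually_gt_atTop 1] with T a1 a2 a3
    have hT0 : 0 < T := by linarith
    have hl := Real.log_pos a3
    obtain ⟨i1, b1⟩ := herr T⁻¹ (δ / T) (by positivity) (inv_le_one_of_one_le₀ a3.le) (by positivity) a1
    refine ⟨i1, b1.trans ?_⟩
    have e1 : Real.log (1 / (δ / T)) = Real.log T * (1 + -Real.log δ / Real.log T) := by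
      rw [one_div_div, Real.log_div hT0.ne' hδ.ne']
      field_simp
      ring
    rw [e1, mul_pow, Nh_eq q hT0]
    have h5 : 0 ≤ K * (δ / T) * Real.log T ^ q := by positivity
    calc K * (δ / T) * (Real.log T ^ q * (1 + -Real.log δ / Real.log T) ^ q) =
          K * (δ / T) * Real.log T ^ q * (1 + -Real.log δ / Real.log T) ^ q := by ring
      _ ≤ K * (δ / T) * Real.log T ^ q * 2 := mul_le_mul_of_nonneg_left a2 h5
      _ = _ := by ring
  filter_upwards [Metric.tendsto_nhds.1 l1' (ε / 3) (by positivity), l2, l3, eventually_gt_atTop 1]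
    with T a1 a2 a3 a4
  obtain ⟨i1, b1⟩ := a3
  have hT0 : 0 < T := by linarith
  have hN := Nh_pos q a4
  have iE := Ee_sq_int (k := k) (h := T⁻¹) (b := δ / T) (by positivity) (by positivity) i1
  have iB : Integrable (fun u => ‖Bh k T⁻¹ (δ / T) u‖ ^ 2) := by
    rw [Bh_Bf k (by positivity) (by positivity)]
    exact Bf_int (Gb_dec k (by positivity) (by positivity))
  have bint : ∀ {g : ℝ → ℝ}, Integrable g → Integrable (fun u => f (u / Real.log T) * g u) := by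
    intro g hg
    refine (hg.norm.const_mul S).mono' ?_ (Eventually.of_forall fun u => ?_)
    · exact (hfc.comp (by fun_prop : Continuous fun u : ℝ => u / Real.log T)).aestronglyMeasurable.mul hg.1
    · rw [norm_mul]
      exact mul_le_mul_of_nonneg_right (hS _) (norm_nonneg _)
  have hd : |(∫ u, f (u / Real.log T) * ‖Ee k T⁻¹ u‖ ^ 2) - ∫ u, f (u / Real.log T) * ‖Bh k T⁻¹ (δ / T) u‖ ^ 2| ≤
      S * ((1 + (√δ)⁻¹) * (2 * K * δ) + √δ * (g0 + 1)) * Nh q T := by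
    rw [← integral_sub (bint iE) (bint iB), ← Real.norm_eq_abs]
    have i2 : Integrable (fun u => S * ((1 + (√δ)⁻¹) * ‖Ee k T⁻¹ u - Bh k T⁻¹ (δ / T) u‖ ^ 2 +
        √δ * ‖Bh k T⁻¹ (δ / T) u‖ ^ 2)) := ((i1.const_mul _).add (iB.const_mul _)).const_mul S
    refine (norm_integral_le_of_norm_le i2 (Eventually.of_forall fun u => ?_)).trans ?_
    · rw [← mul_sub, norm_mul, Real.norm_eq_abs, Real.norm_eq_abs]
      exact mul_le_mul (hS _) (sq_cmp _ _ hs) (abs_nonneg _) hS0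
    · rw [integral_const_mul, integral_add (i1.const_mul _) (iB.const_mul _), integral_const_mul,
        integral_const_mul]
      calc S * ((1 + (√δ)⁻¹) * (∫ u, ‖Ee k T⁻¹ u - Bh k T⁻¹ (δ / T) u‖ ^ 2) +
            √δ * ∫ u, ‖Bh k T⁻¹ (δ / T) u‖ ^ 2) ≤
            S * ((1 + (√δ)⁻¹) * (2 * K * δ * Nh q T) + √δ * ((g0 + 1) * Nh q T)) := by gcongr
        _ = _ := by ring
  rw [Real.dist_eq] at a1 ⊢
  have e1 : (∫ u, f (u / Real.log T) * ‖Ee k T⁻¹ u‖ ^ 2) / Nh q T - v0 =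
      ((∫ u, f (u / Real.log T) * ‖Ee k T⁻¹ u‖ ^ 2) - ∫ u, f (u / Real.log T) * ‖Bh k T⁻¹ (δ / T) u‖ ^ 2) / Nh q T +
      ((∫ u, f (u / Real.log T) * ‖Bh k T⁻¹ (δ / T) u‖ ^ 2) / Nh q T - Jc (δ ^ 2) / (2 * Real.pi) * v0) +
      (Jc (δ ^ 2) / (2 * Real.pi) - 1) * v0 := by ring
  rw [e1]
  have h1 : |((∫ u, f (u / Real.log T) * ‖Ee k T⁻¹ u‖ ^ 2) -
      ∫ u, f (u / Real.log T) * ‖Bh k T⁻¹ (δ / T) u‖ ^ 2) / Nh q T| < ε / 3 := by
    rw [abs_div, abs_of_pos hN, div_lt_iff₀ hN]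
    exact hd.trans_lt (mul_lt_mul_of_pos_right d1 hN)
  have h2 : |(Jc (δ ^ 2) / (2 * Real.pi) - 1) * v0| < ε / 3 := by
    rw [abs_mul]; exact d2
  refine (abs_add_three _ _ _).trans_lt ?_
  linarith

end

end Pool.Agent.J4.H32.VS
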