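import Pool.Agent.J4.H32.VS.U3

set_option autoImplicit false

/-! The Gaussian variance as a double integral of variances of short intervals. -/

namespace Pool.Agent.J4.H32.VS

open Complex MeasureTheory Filter Topology Set Metric Pool.Agent.TH535.SM Pool.Agent.R446.KR
open scoped FourierTransform ComplexConjugate

noncomputable section

/-- the square of a mean, for a weight of mean zero -/
lemma sqdiff {m : ℝ → ℝ} {a : ℝ → ℂ} (hm : Integrable m) (h0 : ∫ s, m s = 0)
    (h1 : Integrable (fun s => (m s : ℂ) * a s)) (h2 : Integrable (fun s => m s * ‖a s‖ ^ 2)) :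
    ∫ s, m s * ∫ r, m r * ‖a s - a r‖ ^ 2 = -2 * ‖∫ s, (m s : ℂ) * a s‖ ^ 2 := by
  set A : ℂ := ∫ s, (m s : ℂ) * a s with hA
  set B : ℝ := ∫ s, m s * ‖a s‖ ^ 2 with hB
  have key : ∀ z : ℂ, Integrable (fun r => m r * (z * conj (a r)).re) ∧
      ∫ r, m r * (z * conj (a r)).re = (z * conj A).re := by
    intro z
    have i1 : Integrable (fun r => (z * conj ((m r : ℂ) * a r)).re) := by
      have i2 : Integrable (fun r => conj ((m r : ℂ) * a r)) :=
        (LinearIsometryEquiv.integrable_comp_iff (conjLIE : ℂ ≃ₗᵢ[ℝ] ℂ)).2 h1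
      exact (i2.const_mul z).re
    have e1 : (fun r => m r * (z * conj (a r)).re) = fun r => (z * conj ((m r : ℂ) * a r)).re := by
      funext r
      rw [map_mul, conj_ofReal, mul_left_comm, Complex.re_ofReal_mul]
    rw [e1]
    refine ⟨i1, ?_⟩
    have i2 : Integrable (fun r => z * conj ((m r : ℂ) * a r)) :=
      ((LinearIsometryEquiv.integrable_comp_iff (conjLIE : ℂ ≃ₗᵢ[ℝ] ℂ)).2 h1).const_mul z
    have h3 := integral_re i2
    simp only [RCLike.re_eq_complex_re] at h3
    rw [h3, integral_const_mul, integral_conj]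
  have hin : ∀ s, ∫ r, m r * ‖a s - a r‖ ^ 2 = B - 2 * (a s * conj A).re := by
    intro s
    have e1 : (fun r => m r * ‖a s - a r‖ ^ 2) = fun r => ‖a s‖ ^ 2 * m r + m r * ‖a r‖ ^ 2 -
        2 * (m r * (a s * conj (a r)).re) := by
      funext r
      have h4 : ‖a s - a r‖ ^ 2 = ‖a s‖ ^ 2 + ‖a r‖ ^ 2 - 2 * (a s * conj (a r)).re := by
        rw [← Complex.normSq_eq_norm_sq, Complex.normSq_sub, Complex.normSq_eq_norm_sq, Complex.normSq_eq_norm_sq]
      rw [h4]
      ring
    rw [e1, integral_sub (f := fun r => ‖a s‖ ^ 2 * m r + m r * ‖a r‖ ^ 2)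
      (g := fun r => 2 * (m r * (a s * conj (a r)).re)) ((hm.const_mul _).add h2) ((key (a s)).1.const_mul 2),
      integral_add (hm.const_mul _) h2, integral_const_mul, integral_const_mul, h0, (key (a s)).2]
    ring
  simp_rw [hin]
  have e2 : (fun s => m s * (B - 2 * (a s * conj A).re)) = fun s => B * m s - 2 * (m s * (conj A * conj (conj (a s))).re) := by
    funext s
    rw [conj_conj, mul_comm (conj A)]
    ring
  have i3 : Integrable (fun s => m s * (conj A * conj (conj (a s))).re) := by
    have := (h1.const_mul (conj A)).re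
    refine this.congr (Eventually.of_forall fun s => ?_)
    simp only [RCLike.re_eq_complex_re]
    rw [conj_conj, mul_left_comm, Complex.re_ofReal_mul]
  have e3 : ∫ s, m s * (conj A * conj (conj (a s))).re = ‖A‖ ^ 2 := by
    have h3 := integral_re (h1.const_mul (conj A))
    simp only [RCLike.re_eq_complex_re] at h3
    have h4 : ∫ s, m s * (conj A * conj (conj (a s))).re = ∫ s, (conj A * ((m s : ℂ) * a s)).re := by
      refine integral_congr_ae (Eventually.of_forall fun s => ?_)
      simp only
      rw [conj_conj, mul_left_comm, Complex.re_ofReal_mul]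
    rw [h4, h3, integral_const_mul, ← hA, mul_comm, Complex.mul_conj, Complex.ofReal_re,
      Complex.normSq_eq_norm_sq]
  rw [e2, integral_sub (hm.const_mul B) (i3.const_mul 2), integral_const_mul, integral_const_mul, h0, e3]
  ring

/-- the rescaled kernel -/
def mr (h s : ℝ) : ℝ := h * mk h (h * s)

lemma mr_eq {h : ℝ} (hh : 0 < h) (s : ℝ) : mr h s = (s + h / 2) * Real.exp (-(s ^ 2 / 2) - h * s / 2) := by
  unfold mr mk Kt
  have e : -((h * s) ^ 2 / (2 * h ^ 2)) - h * s / 2 = -(s ^ 2 / 2) - h * s / 2 := by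
    field_simp
  rw [e, ← mul_assoc]
  congr 1
  field_simp

lemma mr_cont (h : ℝ) : Continuous (mr h) := by
  have := mk_cont h
  unfold mr
  fun_prop

lemma mr_le {h : ℝ} (hh : 0 < h) (hh1 : h ≤ 1) (s : ℝ) : |mr h s| ≤ (1 + |s|) * Real.exp (|s| - 1 / 2 * s ^ 2) := by
  rw [mr_eq hh, abs_mul, abs_of_pos (Real.exp_pos _)]
  have h1 : |s + h / 2| ≤ 1 + |s| := by
    refine (abs_add_le _ _).trans ?_
    rw [abs_of_pos (by positivity : 0 < h / 2)]
    linarith
  refine mul_le_mul h1 (Real.exp_le_exp.2 ?_) (Real.exp_pos _).le (by positivity)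
  have h2 : -(h * s) ≤ |s| := by
    have h3 : |h * s| ≤ 1 * |s| := by
      rw [abs_mul, abs_of_pos hh]
      exact mul_le_mul_of_nonneg_right hh1 (abs_nonneg s)
    have := neg_abs_le (h * s)
    linarith
  have := abs_nonneg s
  linarith

/-- the weighted integral over the translations -/
def Psi (k : ℕ) (f : ℝ → ℝ) (L s r : ℝ) : ℝ := ∫ u, f (u / L) * Real.exp (-u) * ‖D0 k (u + s) - D0 k (u + r)‖ ^ 2

lemma Dl_mr (k : ℕ) {h : ℝ} (hh : 0 < h) (u : ℝ) :
    Integrable (fun s => (mr h s : ℂ) * D0 k (u + h * s)) ∧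
    Dl k h u = (Real.exp (-(u / 2)) : ℝ) * ∫ s, (mr h s : ℂ) * D0 k (u + h * s) := by
  obtain ⟨i1, e1⟩ := Dl_D0 k hh u
  have i2 := (i1.comp_mul_left' hh.ne').const_mul (h:ℂ)
  have e2 : (fun s => (mr h s : ℂ) * D0 k (u + h * s)) =
      fun s => (h:ℂ) * ((mk h (h * s) : ℂ) * D0 k (u + h * s)) := by
    funext s
    unfold mr
    push_cast
    ring
  rw [e2]
  refine ⟨i2, ?_⟩
  rw [e1, integral_const_mul, Measure.integral_comp_mul_left (fun s => (mk h s : ℂ) * D0 k (u + s)) h, abs_inv,
    abs_of_pos hh, Complex.real_smul, ← mul_assoc (h:ℂ), ← Complex.ofReal_mul, mul_inv_cancel₀ hh.ne',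
    Complex.ofReal_one, one_mul]

lemma mr_int {h : ℝ} (hh : 0 < h) (hh1 : h ≤ 1) (l : ℝ) : Integrable (fun s => |mr h s| * Real.exp (l * |s|)) := by
  refine (ge_int 1 (l + 1) (c := 1 / 2) (by norm_num)).mono' ?_ (Eventually.of_forall fun s => ?_)
  · have := mr_cont h
    exact Continuous.aestronglyMeasurable (by fun_prop)
  · rw [Real.norm_of_nonneg (by positivity), pow_one]
    calc |mr h s| * Real.exp (l * |s|) ≤ ((1 + |s|) * Real.exp (|s| - 1 / 2 * s ^ 2)) * Real.exp (l * |s|) :=
          mul_le_mul_of_nonneg_right (mr_le hh hh1 s) (Real.exp_pos _).le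
      _ = _ := by
          rw [mul_assoc, ← Real.exp_add]
          congr 2
          ring

lemma mr_int0 {h : ℝ} (hh : 0 < h) (hh1 : h ≤ 1) : Integrable (mr h) := by
  refine (mr_int hh hh1 0).mono' (mr_cont h).aestronglyMeasurable (Eventually.of_forall fun s => ?_)
  rw [zero_mul, Real.exp_zero, mul_one, Real.norm_eq_abs]

lemma mr_zero {h : ℝ} (hh : 0 < h) : ∫ s, mr h s = 0 := by
  unfold mr
  rw [integral_const_mul, Measure.integral_comp_mul_left (fun s => mk h s) h, mk_zero hh, smul_zero, mul_zero]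

lemma D0_two (k : ℕ) : ∃ C : ℝ, 1 ≤ C ∧ ∀ u s r : ℝ, ‖D0 k (u + s) - D0 k (u + r)‖ ^ 2 ≤
    C * Real.exp (4 * |u|) * (Real.exp (4 * |s|) * Real.exp (4 * |r|)) := by
  obtain ⟨C, hC, hb⟩ := D0_bd k
  refine ⟨4 * C ^ 2, by nlinarith, fun u s r => ?_⟩
  have key : ∀ s r : ℝ, ‖D0 k (u + s)‖ ≤ C * (Real.exp (2 * |u|) * (Real.exp (2 * |s|) * Real.exp (2 * |r|))) := by
    intro s r
    refine (hb (u + s)).trans (mul_le_mul_of_nonneg_left ?_ (by linarith))
    rw [← Real.exp_add, ← Real.exp_add]
    refine Real.exp_le_exp.2 ?_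
    have := abs_add_le u s
    have := abs_nonneg r
    linarith
  have h1 := key s r
  have h2 := key r s
  rw [mul_comm (Real.exp (2 * |r|))] at h2
  have h3 : ‖D0 k (u + s) - D0 k (u + r)‖ ≤
      2 * (C * (Real.exp (2 * |u|) * (Real.exp (2 * |s|) * Real.exp (2 * |r|)))) :=
    (norm_sub_le _ _).trans (by linarith)
  have e : ∀ x : ℝ, Real.exp (2 * x) ^ 2 = Real.exp (4 * x) := fun x => by
    rw [← Real.exp_nat_mul]; congr 1; push_cast; ring
  calc ‖D0 k (u + s) - D0 k (u + r)‖ ^ 2 ≤
        (2 * (C * (Real.exp (2 * |u|) * (Real.exp (2 * |s|) * Real.exp (2 * |r|))))) ^ 2 := by gcongr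
    _ = 4 * C ^ 2 * (Real.exp (2 * |u|) ^ 2) * (Real.exp (2 * |s|) ^ 2 * Real.exp (2 * |r|) ^ 2) := by ring
    _ = _ := by rw [e, e, e]

/-- **the Gaussian variance as a double integral** -/
theorem Dl_double (k : ℕ) {h L : ℝ} (hh : 0 < h) (hh1 : h ≤ 1) (hL : 0 < L) {f : ℝ → ℝ} (hf : Continuous f)
    (hs : HasCompactSupport f) :
    -2 * ∫ u, f (u / L) * ‖Dl k h u‖ ^ 2 =
      ∫ p : ℝ × ℝ, mr h p.1 * mr h p.2 * Psi k f L (h * p.1) (h * p.2) := by
  obtain ⟨C, hC, hb⟩ := D0_bd k
  obtain ⟨C2, hC2, hb2⟩ := D0_two k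
  have hDm := D0_meas k
  -- step 1
  have e1 : ∀ u, -2 * (f (u / L) * ‖Dl k h u‖ ^ 2) =
      ∫ p : ℝ × ℝ, f (u / L) * Real.exp (-u) * (mr h p.1 * mr h p.2 * ‖D0 k (u + h * p.1) - D0 k (u + h * p.2)‖ ^ 2) := by
    intro u
    have i2 : Integrable (fun s => mr h s * ‖D0 k (u + h * s)‖ ^ 2) := by
      refine ((mr_int hh hh1 4).const_mul (C ^ 2 * Real.exp (4 * |u|))).mono' ?_ (Eventually.of_forall fun s => ?_)
      · exact ((mr_cont h).measurable.mul ((hDm.comp (by fun_prop)).norm.pow_const 2)).aestronglyMeasurable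
      · rw [norm_mul, Real.norm_eq_abs, norm_pow, norm_norm]
        have h1 := hb (u + h * s)
        have h2 : |u + h * s| ≤ |u| + |s| := by
          refine (abs_add_le _ _).trans ?_
          rw [abs_mul, abs_of_pos hh]
          have : h * |s| ≤ 1 * |s| := mul_le_mul_of_nonneg_right hh1 (abs_nonneg s)
          linarith
        have h3 : ‖D0 k (u + h * s)‖ ^ 2 ≤ C ^ 2 * (Real.exp (4 * |u|) * Real.exp (4 * |s|)) := by
          calc ‖D0 k (u + h * s)‖ ^ 2 ≤ (C * Real.exp (2 * |u + h * s|)) ^ 2 := by gcongr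
            _ = C ^ 2 * Real.exp (4 * |u + h * s|) := by
                rw [mul_pow, ← Real.exp_nat_mul]
                congr 2
                push_cast; ring
            _ ≤ _ := by
                rw [← Real.exp_add]
                refine mul_le_mul_of_nonneg_left (Real.exp_le_exp.2 ?_) (by positivity)
                linarith
        calc |mr h s| * ‖D0 k (u + h * s)‖ ^ 2 ≤ |mr h s| * (C ^ 2 * (Real.exp (4 * |u|) * Real.exp (4 * |s|))) :=
              mul_le_mul_of_nonneg_left h3 (abs_nonneg _)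
          _ = _ := by ring
    have h5 := sqdiff (mr_int0 hh hh1) (mr_zero hh) (Dl_mr k hh u).1 i2
    have hp : Integrable (fun p : ℝ × ℝ => mr h p.1 * mr h p.2 * ‖D0 k (u + h * p.1) - D0 k (u + h * p.2)‖ ^ 2)
        (volume.prod volume) := by
      have h6 := ((mr_int hh hh1 4).mul_prod (mr_int hh hh1 4)).const_mul (C2 * Real.exp (4 * |u|))
      refine h6.mono' ?_ (Eventually.of_forall fun p => ?_)
      · refine Measurable.aestronglyMeasurable ?_
        have m1 := (mr_cont h).measurable
        refine Measurable.mul ?_ (Measurable.pow_const (Measurable.norm ?_) 2)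
        · exact (m1.comp measurable_fst).mul (m1.comp measurable_snd)
        · exact (hDm.comp (by fun_prop)).sub (hDm.comp (by fun_prop))
      · rw [norm_mul, norm_mul, Real.norm_eq_abs, Real.norm_eq_abs, Real.norm_of_nonneg (by positivity)]
        have h7 := hb2 u (h * p.1) (h * p.2)
        have h8 : ∀ x : ℝ, Real.exp (4 * |h * x|) ≤ Real.exp (4 * |x|) := fun x => by
          refine Real.exp_le_exp.2 ?_
          rw [abs_mul, abs_of_pos hh]
          have : h * |x| ≤ 1 * |x| := mul_le_mul_of_nonneg_right hh1 (abs_nonneg x)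
          linarith
        calc |mr h p.1| * |mr h p.2| * ‖D0 k (u + h * p.1) - D0 k (u + h * p.2)‖ ^ 2 ≤
              |mr h p.1| * |mr h p.2| * (C2 * Real.exp (4 * |u|) * (Real.exp (4 * |p.1|) * Real.exp (4 * |p.2|))) := by
              refine mul_le_mul_of_nonneg_left (h7.trans ?_) (by positivity)
              have := h8 p.1
              have := h8 p.2
              gcongr
          _ = _ := by ring
    rw [integral_const_mul, show (volume : Measure (ℝ × ℝ)) = (volume : Measure ℝ).prod volume from rfl,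
      integral_prod _ hp]
    have e5 : ∫ s, ∫ r, mr h s * mr h r * ‖D0 k (u + h * s) - D0 k (u + h * r)‖ ^ 2 =
        ∫ s, mr h s * ∫ r, mr h r * ‖D0 k (u + h * s) - D0 k (u + h * r)‖ ^ 2 := by
      refine integral_congr_ae (Eventually.of_forall fun s => ?_)
      simp only
      rw [← integral_const_mul]
      refine integral_congr_ae (Eventually.of_forall fun r => ?_)
      simp only
      ring
    simp only at e5 ⊢
    rw [e5, h5, (Dl_mr k hh u).2, norm_mul, mul_pow, Complex.norm_real, Real.norm_of_nonneg (Real.exp_pos _).le]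
    have e6 : Real.exp (-(u / 2)) ^ 2 = Real.exp (-u) := by
      rw [← Real.exp_nat_mul]; congr 1; push_cast; ring
    rw [e6]
    ring
  -- step 2: Fubini
  have hfe : Integrable (fun u => |f (u / L)| * Real.exp (5 * |u|)) := by
    refine Continuous.integrable_of_hasCompactSupport (by fun_prop) ?_
    have h1 : HasCompactSupport (fun u : ℝ => f (u / L)) := by
      have h2 := hs.comp_homeomorph (Homeomorph.mulRight₀ L⁻¹ (by positivity))
      have e : (fun u : ℝ => f (u / L)) = f ∘ ⇑(Homeomorph.mulRight₀ L⁻¹ (by positivity)) := by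
        funext u
        simp [div_eq_mul_inv]
      rw [e]
      exact h2
    exact (h1.comp_left (g := fun x => |x|) abs_zero).mul_right
  have hP : Integrable (Function.uncurry fun (u : ℝ) (p : ℝ × ℝ) => f (u / L) * Real.exp (-u) *
      (mr h p.1 * mr h p.2 * ‖D0 k (u + h * p.1) - D0 k (u + h * p.2)‖ ^ 2)) (volume.prod volume) := by
    have h6 := (hfe.mul_prod ((mr_int hh hh1 4).mul_prod (mr_int hh hh1 4))).const_mul C2
    refine h6.mono' ?_ (Eventually.of_forall fun w => ?_)
    · refine Measurable.aestronglyMeasurable ?_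
      have m1 := (mr_cont h).measurable
      unfold Function.uncurry
      refine Measurable.mul ?_ (Measurable.mul ?_ (Measurable.pow_const (Measurable.norm ?_) 2))
      · exact Continuous.measurable (by fun_prop)
      · exact (m1.comp (measurable_fst.comp measurable_snd)).mul (m1.comp (measurable_snd.comp measurable_snd))
      · exact (hDm.comp (by fun_prop)).sub (hDm.comp (by fun_prop))
    · obtain ⟨u, s, r⟩ := w
      simp only [Function.uncurry]
      rw [norm_mul, norm_mul, norm_mul, norm_mul, Real.norm_eq_abs, Real.norm_eq_abs, Real.norm_eq_abs,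
        Real.norm_eq_abs, abs_of_pos (Real.exp_pos _), Real.norm_of_nonneg (by positivity)]
      have h7 := hb2 u (h * s) (h * r)
      have h8 : ∀ x : ℝ, Real.exp (4 * |h * x|) ≤ Real.exp (4 * |x|) := fun x => by
        refine Real.exp_le_exp.2 ?_
        rw [abs_mul, abs_of_pos hh]
        have : h * |x| ≤ 1 * |x| := mul_le_mul_of_nonneg_right hh1 (abs_nonneg x)
        linarith
      have h9 : Real.exp (-u) * Real.exp (4 * |u|) ≤ Real.exp (5 * |u|) := by
        rw [← Real.exp_add]
        refine Real.exp_le_exp.2 ?_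
        linarith [neg_abs_le u]
      calc |f (u / L)| * Real.exp (-u) * (|mr h s| * |mr h r| * ‖D0 k (u + h * s) - D0 k (u + h * r)‖ ^ 2) ≤
            |f (u / L)| * Real.exp (-u) * (|mr h s| * |mr h r| *
              (C2 * Real.exp (4 * |u|) * (Real.exp (4 * |s|) * Real.exp (4 * |r|)))) := by
            refine mul_le_mul_of_nonneg_left (mul_le_mul_of_nonneg_left (h7.trans ?_) (by positivity)) (by positivity)
            have := h8 s
            have := h8 r
            gcongr
        _ = (Real.exp (-u) * Real.exp (4 * |u|)) * (C2 * |f (u / L)| * ((|mr h s| * Real.exp (4 * |s|)) *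
              (|mr h r| * Real.exp (4 * |r|)))) := by ring
        _ ≤ Real.exp (5 * |u|) * (C2 * |f (u / L)| * ((|mr h s| * Real.exp (4 * |s|)) *
              (|mr h r| * Real.exp (4 * |r|)))) := by gcongr
        _ = _ := by ring
  rw [← integral_const_mul]
  simp_rw [e1]
  rw [integral_integral_swap hP]
  refine integral_congr_ae (Eventually.of_forall fun p => ?_)
  simp only
  unfold Psi
  rw [← integral_const_mul]
  refine integral_congr_ae (Eventually.of_forall fun u => ?_)
  simp only
  ring

/-- the limit kernel -/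
def m0 (s : ℝ) : ℝ := s * Real.exp (-(s ^ 2 / 2))

lemma m0_cont : Continuous m0 := by unfold m0; fun_prop

lemma m0_int (l : ℝ) : Integrable (fun s => |m0 s| * Real.exp (l * |s|)) := by
  refine (ge_int 1 l (c := 1 / 2) (by norm_num)).mono' ?_ (Eventually.of_forall fun s => ?_)
  · have := m0_cont
    exact Continuous.aestronglyMeasurable (by fun_prop)
  · unfold m0
    rw [Real.norm_of_nonneg (by positivity), abs_mul, abs_of_pos (Real.exp_pos _), pow_one, mul_assoc,
      ← Real.exp_add]
    refine mul_le_mul (by linarith) (le_of_eq ?_) (Real.exp_pos _).le (by positivity)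
    congr 1
    ring

lemma m0_int0 : Integrable m0 := by
  refine (m0_int 0).mono' m0_cont.aestronglyMeasurable (Eventually.of_forall fun s => ?_)
  rw [zero_mul, Real.exp_zero, mul_one, Real.norm_eq_abs]

lemma m0_deriv (s : ℝ) : HasDerivAt (fun s : ℝ => -Real.exp (-(s ^ 2 / 2))) (m0 s) s := by
  have h1 : HasDerivAt (fun s : ℝ => -(s ^ 2 / 2)) (-(2 * s / 2)) s := by
    exact (((hasDerivAt_pow 2 s).div_const 2).fun_neg).congr_deriv (by norm_num)
  refine h1.exp.fun_neg.congr_deriv ?_
  unfold m0
  ring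

lemma m0_zero : ∫ s, m0 s = 0 := by
  have h1 := integral_neg_eq_self m0 volume
  have h2 : ∫ s, m0 (-s) = -∫ s, m0 s := by
    rw [← integral_neg]
    refine integral_congr_ae (Eventually.of_forall fun s => ?_)
    simp only
    unfold m0
    rw [neg_sq]
    ring
  linarith

lemma m0_tail (x : ℝ) : ∫ s in Ioi x, m0 s = Real.exp (-(x ^ 2 / 2)) := by
  have hl : Tendsto (fun s : ℝ => -Real.exp (-(s ^ 2 / 2))) atTop (𝓝 0) := by
    rw [← neg_zero]
    refine Tendsto.neg (Real.tendsto_exp_neg_atTop_nhds_zero.comp ?_)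
    exact (tendsto_pow_atTop two_ne_zero).atTop_div_const (by norm_num)
  have h2 := integral_Ioi_of_hasDerivAt_of_tendsto (a := x) (f := fun s : ℝ => -Real.exp (-(s ^ 2 / 2))) (f' := m0)
    (Continuous.continuousWithinAt (by fun_prop)) (fun s _ => m0_deriv s) m0_int0.integrableOn hl
  rw [h2]
  ring

/-- the jump function -/
def jp (x s : ℝ) : ℝ := (Ioi x).indicator (fun _ => (1:ℝ)) s

lemma jp_cases (x s : ℝ) : jp x s = 1 ∧ x < s ∨ jp x s = 0 ∧ s ≤ x := by
  unfold jp
  by_cases h : s ∈ Ioi x
  · left; exact ⟨indicator_of_mem h _, h⟩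
  · right; exact ⟨indicator_of_notMem h _, not_lt.1 h⟩

lemma jp_int (s r : ℝ) : ∫ x, |jp x s - jp x r| = |s - r| := by
  have h1 : ∀ s r : ℝ, s ≤ r → ∫ x, |jp x s - jp x r| = r - s := by
    intro s r hsr
    have e : (fun x => |jp x s - jp x r|) = (Ico s r).indicator (fun _ => (1:ℝ)) := by
      funext x
      rcases jp_cases x s with ⟨a1, a2⟩ | ⟨a1, a2⟩ <;> rcases jp_cases x r with ⟨b1, b2⟩ | ⟨b1, b2⟩ <;> rw [a1, b1]
      · rw [indicator_of_notMem (fun h => absurd h.1 (not_le.2 a2))]; simp
      · exfalso; linarith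
      · rw [indicator_of_mem (show x ∈ Ico s r from ⟨a2, b2⟩)]; simp
      · rw [indicator_of_notMem (fun h => absurd h.2 (not_lt.2 b2))]; simp
    rw [e, integral_indicator measurableSet_Ico, setIntegral_const, Real.volume_real_Ico,
      max_eq_left (by linarith), smul_eq_mul, mul_one]
  rcases le_total s r with h | h
  · rw [h1 s r h, abs_sub_comm, abs_of_nonneg (by linarith)]
  · rw [abs_of_nonneg (by linarith : 0 ≤ s - r), ← h1 r s h]
    refine integral_congr_ae (Eventually.of_forall fun x => ?_)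
    exact abs_sub_comm _ _

lemma jp_meas : Measurable (fun w : ℝ × ℝ => jp w.1 w.2) := by
  have e : (fun w : ℝ × ℝ => jp w.1 w.2) = {w : ℝ × ℝ | w.1 < w.2}.indicator (fun _ => (1:ℝ)) := by
    funext w
    unfold jp
    by_cases h : w.1 < w.2
    · rw [indicator_of_mem (show w.2 ∈ Ioi w.1 from h), indicator_of_mem (show w ∈ {w : ℝ × ℝ | w.1 < w.2} from h)]
    · rw [indicator_of_notMem (show w.2 ∉ Ioi w.1 from h), indicator_of_notMem (show w ∉ {w : ℝ × ℝ | w.1 < w.2} from h)]
  rw [e]
  exact measurable_const.indicator (measurableSet_lt measurable_fst measurable_snd)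

/-- **the constant** -/
theorem m0_const : ∫ p : ℝ × ℝ, m0 p.1 * m0 p.2 * |p.1 - p.2| = -2 * √Real.pi := by
  have hj : ∀ x s, |jp x s| ≤ 1 := fun x s => by
    rcases jp_cases x s with ⟨a1, -⟩ | ⟨a1, -⟩ <;> rw [a1] <;> norm_num
  have hjs : ∀ x s r : ℝ, ‖((jp x s : ℝ) : ℂ) - ((jp x r : ℝ) : ℂ)‖ ^ 2 = |jp x s - jp x r| := by
    intro x s r
    rw [← Complex.ofReal_sub, Complex.norm_real, Real.norm_eq_abs]
    rcases jp_cases x s with ⟨a1, -⟩ | ⟨a1, -⟩ <;> rcases jp_cases x r with ⟨b1, -⟩ | ⟨b1, -⟩ <;>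
      rw [a1, b1] <;> norm_num
  have mj : ∀ x : ℝ, Measurable (jp x) := fun x => measurable_const.indicator measurableSet_Ioi
  -- for each `x`
  have key : ∀ x : ℝ, ∫ p : ℝ × ℝ, m0 p.1 * m0 p.2 * |jp x p.1 - jp x p.2| = -2 * Real.exp (-x ^ 2) := by
    intro x
    have i1 : Integrable (fun s => (m0 s : ℂ) * ((jp x s : ℝ) : ℂ)) := by
      refine m0_int0.norm.mono' ?_ (Eventually.of_forall fun s => ?_)
      · exact ((Complex.measurable_ofReal.comp m0_cont.measurable).mul
          (Complex.measurable_ofReal.comp (mj x))).aestronglyMeasurable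
      · rw [norm_mul, Complex.norm_real, Complex.norm_real]
        exact mul_le_of_le_one_right (norm_nonneg _) (hj x s)
    have i2 : Integrable (fun s => m0 s * ‖((jp x s : ℝ) : ℂ)‖ ^ 2) := by
      refine m0_int0.norm.mono' ?_ (Eventually.of_forall fun s => ?_)
      · exact (m0_cont.measurable.mul ((Complex.measurable_ofReal.comp (mj x)).norm.pow_const 2)).aestronglyMeasurable
      · rw [norm_mul, norm_pow, norm_norm, Complex.norm_real]
        exact mul_le_of_le_one_right (norm_nonneg _) (pow_le_one₀ (norm_nonneg _) (hj x s))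
    have h1 := sqdiff m0_int0 m0_zero i1 i2
    have hp : Integrable (fun p : ℝ × ℝ => m0 p.1 * m0 p.2 * |jp x p.1 - jp x p.2|) (volume.prod volume) := by
      refine (m0_int0.norm.mul_prod m0_int0.norm).const_mul 2 |>.mono' ?_ (Eventually.of_forall fun p => ?_)
      · refine Measurable.aestronglyMeasurable ?_
        have m1 := m0_cont.measurable
        exact ((m1.comp measurable_fst).mul (m1.comp measurable_snd)).mul
          (continuous_abs.measurable.comp (((mj x).comp measurable_fst).sub ((mj x).comp measurable_snd)))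
      · rw [norm_mul, norm_mul, Real.norm_eq_abs (|_|), abs_abs]
        have h2 : |jp x p.1 - jp x p.2| ≤ 2 := (abs_sub _ _).trans (by linarith [hj x p.1, hj x p.2])
        calc ‖m0 p.1‖ * ‖m0 p.2‖ * |jp x p.1 - jp x p.2| ≤ ‖m0 p.1‖ * ‖m0 p.2‖ * 2 := by gcongr
          _ = _ := by ring
    rw [show (volume : Measure (ℝ × ℝ)) = (volume : Measure ℝ).prod volume from rfl, integral_prod _ hp]
    have e5 : ∫ s, ∫ r, m0 s * m0 r * |jp x s - jp x r| =
        ∫ s, m0 s * ∫ r, m0 r * ‖((jp x s : ℝ) : ℂ) - ((jp x r : ℝ) : ℂ)‖ ^ 2 := by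
      refine integral_congr_ae (Eventually.of_forall fun s => ?_)
      simp only
      rw [← integral_const_mul]
      refine integral_congr_ae (Eventually.of_forall fun r => ?_)
      simp only
      rw [hjs]
      ring
    simp only at e5 ⊢
    rw [e5, h1]
    have e6 : ∫ s, (m0 s : ℂ) * ((jp x s : ℝ) : ℂ) = ((Real.exp (-(x ^ 2 / 2)) : ℝ) : ℂ) := by
      rw [← m0_tail x, ← integral_indicator measurableSet_Ioi, ← integral_complex_ofReal]
      refine integral_congr_ae (Eventually.of_forall fun s => ?_)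
      simp only
      rcases jp_cases x s with ⟨a1, a2⟩ | ⟨a1, a2⟩
      · rw [a1, indicator_of_mem (show s ∈ Ioi x from a2)]; simp
      · rw [a1, indicator_of_notMem (show s ∉ Ioi x from not_lt.2 a2)]; simp
    rw [e6, Complex.norm_real, Real.norm_of_nonneg (Real.exp_pos _).le, ← Real.exp_nat_mul]
    congr 2
    push_cast
    ring
  -- Fubini
  have hi : Integrable (Function.uncurry fun (x : ℝ) (p : ℝ × ℝ) => m0 p.1 * m0 p.2 * |jp x p.1 - jp x p.2|)
      (volume.prod volume) := by
    have hx : Integrable (fun x : ℝ => Real.exp (-|x|)) := by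
      refine (W182.KO.one_add_inv_sq_int.const_mul (2 * Real.exp 1)).mono'
        (by fun_prop : Continuous _).aestronglyMeasurable (Eventually.of_forall fun x => ?_)
      rw [Real.norm_of_nonneg (Real.exp_pos _).le, ← div_eq_mul_inv, le_div_iff₀ (by positivity), Real.exp_neg,
        inv_mul_le_iff₀ (Real.exp_pos _)]
      have h1 := Real.pow_div_factorial_le_exp (1 + |x|) (by positivity) 2
      rw [Real.exp_add] at h1
      norm_num at h1
      linarith
    have h6 := (hx.mul_prod ((m0_int 1).mul_prod (m0_int 1)))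
    refine h6.mono' ?_ (Eventually.of_forall fun w => ?_)
    · refine Measurable.aestronglyMeasurable ?_
      have m1 := m0_cont.measurable
      unfold Function.uncurry
      refine Measurable.mul ((m1.comp (measurable_fst.comp measurable_snd)).mul
        (m1.comp (measurable_snd.comp measurable_snd))) ?_
      refine continuous_abs.measurable.comp ?_
      exact (jp_meas.comp (measurable_fst.prodMk (measurable_fst.comp measurable_snd))).sub
        (jp_meas.comp (measurable_fst.prodMk (measurable_snd.comp measurable_snd)))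
    · obtain ⟨x, s, r⟩ := w
      simp only [Function.uncurry]
      rw [norm_mul, norm_mul, Real.norm_eq_abs, Real.norm_eq_abs, Real.norm_eq_abs, abs_abs]
      have h7 : |jp x s - jp x r| ≤ Real.exp (-|x|) * (Real.exp (1 * |s|) * Real.exp (1 * |r|)) := by
        rw [← Real.exp_add, ← Real.exp_add, one_mul, one_mul]
        have hz : |jp x s - jp x r| = 0 ∨ (|jp x s - jp x r| = 1 ∧ |x| ≤ |s| + |r|) := by
          rcases jp_cases x s with ⟨a1, a2⟩ | ⟨a1, a2⟩ <;> rcases jp_cases x r with ⟨b1, b2⟩ | ⟨b1, b2⟩ <;> rw [a1, b1]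
          · left; simp
          · right
            refine ⟨by norm_num, abs_le.2 ⟨?_, ?_⟩⟩
            · have := neg_abs_le r
              have := abs_nonneg s
              linarith
            · have := le_abs_self s
              have := abs_nonneg r
              linarith
          · right
            refine ⟨by norm_num, abs_le.2 ⟨?_, ?_⟩⟩
            · have := neg_abs_le s
              have := abs_nonneg r
              linarith
            · have := le_abs_self r
              have := abs_nonneg s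
              linarith
          · left; simp
        rcases hz with hz | ⟨hz, hx2⟩
        · rw [hz]; exact (Real.exp_pos _).le
        · rw [hz]; exact Real.one_le_exp (by linarith)
      calc |m0 s| * |m0 r| * |jp x s - jp x r| ≤
            |m0 s| * |m0 r| * (Real.exp (-|x|) * (Real.exp (1 * |s|) * Real.exp (1 * |r|))) := by gcongr
        _ = _ := by ring
  have h2 := integral_integral_swap hi
  simp_rw [key] at h2
  rw [integral_const_mul, g_val] at h2
  rw [h2]
  refine integral_congr_ae (Eventually.of_forall fun p => ?_)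
  simp only
  rw [integral_const_mul, jp_int]

end

end Pool.Agent.J4.H32.VS
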