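import Pool.Agent.J4.H32.VS.U7
import Pool.Agent.J4.H32.VS.U8

set_option autoImplicit false

/-! From short intervals to Gaussian windows. -/

namespace Pool.Agent.J4.H32.VS

open Complex MeasureTheory Filter Topology Set Metric Pool.Agent.TH535.SM Pool.Agent.R446.KR
open scoped FourierTransform ComplexConjugate ContDiff

noncomputable section

variable {q k : ℕ}

/-- the variance of the short intervals -/
def Af (k : ℕ) (f : ℝ → ℝ) (p L h : ℝ) : ℝ := ∫ v, f ((v - p) / L) * ‖Ee k h v‖ ^ 2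

lemma Ee_sq (k : ℕ) (h v : ℝ) : ‖Ee k h v‖ ^ 2 = Real.exp (-v) * ‖D0 k (v + h) - D0 k v‖ ^ 2 := by
  unfold Ee
  rw [norm_mul, mul_pow, Complex.norm_real, Real.norm_of_nonneg (Real.exp_pos _).le, ← Real.exp_nat_mul]
  congr 2
  push_cast; ring

lemma Psi_Af (k : ℕ) (f : ℝ → ℝ) (L s r : ℝ) : Psi k f L s r = Real.exp r * Af k f r L (s - r) := by
  unfold Psi Af
  rw [← integral_const_mul]
  have h1 := integral_add_right_eq_self (μ := volume)
    (fun v : ℝ => Real.exp r * (f ((v - r) / L) * ‖Ee k (s - r) v‖ ^ 2)) r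
  rw [← h1]
  refine integral_congr_ae (Eventually.of_forall fun u => ?_)
  simp only
  rw [Ee_sq, add_sub_cancel_right, show u + r + (s - r) = u + s by ring]
  have e : Real.exp r * Real.exp (-(u + r)) = Real.exp (-u) := by
    rw [← Real.exp_add]; congr 1; ring
  calc f (u / L) * Real.exp (-u) * ‖D0 k (u + s) - D0 k (u + r)‖ ^ 2 =
        (Real.exp r * Real.exp (-(u + r))) * (f (u / L) * ‖D0 k (u + s) - D0 k (u + r)‖ ^ 2) := by rw [e]; ring
    _ = _ := by ring

lemma Psi_symm (k : ℕ) (f : ℝ → ℝ) (L s r : ℝ) : Psi k f L s r = Psi k f L r s := by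
  unfold Psi
  refine integral_congr_ae (Eventually.of_forall fun u => ?_)
  simp only
  rw [norm_sub_rev]

lemma Psi_self (k : ℕ) (f : ℝ → ℝ) (L s : ℝ) : Psi k f L s s = 0 := by
  unfold Psi
  simp

lemma Psi_meas (k : ℕ) {f : ℝ → ℝ} (hf : Continuous f) (L : ℝ) :
    StronglyMeasurable (fun p : ℝ × ℝ => Psi k f L p.1 p.2) := by
  have hD := D0_meas k
  have h1 : StronglyMeasurable (fun w : (ℝ × ℝ) × ℝ => f (w.2 / L) * Real.exp (-w.2) *
      ‖D0 k (w.2 + w.1.1) - D0 k (w.2 + w.1.2)‖ ^ 2) := by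
    refine Measurable.stronglyMeasurable ?_
    refine Measurable.mul (Continuous.measurable (by fun_prop)) (Measurable.pow_const (Measurable.norm ?_) 2)
    exact (hD.comp (by fun_prop)).sub (hD.comp (by fun_prop))
  exact h1.integral_prod_right'

/-- a compactly supported weight against the short intervals -/
lemma gE_int (k : ℕ) (h : ℝ) {g : ℝ → ℝ} (hg : Continuous g) (hs : HasCompactSupport g) :
    Integrable (fun v => g v * ‖Ee k h v‖ ^ 2) := by
  obtain ⟨C, hC, hb⟩ := Ee_bd k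
  have h1 : Integrable (fun v => |g v| * (C * Real.exp (3 * |v| + 2 * |h|)) ^ 2) := by
    refine Continuous.integrable_of_hasCompactSupport (by fun_prop) ?_
    exact (hs.comp_left (g := fun x => |x|) abs_zero).mul_right
  refine h1.mono' ?_ (Eventually.of_forall fun v => ?_)
  · exact (hg.measurable.mul ((Ee_meas k h).norm.pow_const 2)).aestronglyMeasurable
  · rw [norm_mul, Real.norm_eq_abs, norm_pow, norm_norm]
    gcongr
    exact hb h v

lemma aff_cs {f : ℝ → ℝ} {R : ℝ} (hR : ∀ v, R ≤ |v| → f v = 0) (p : ℝ) {L : ℝ} (hL : 0 < L) :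
    HasCompactSupport (fun v : ℝ => f ((v - p) / L)) := by
  refine HasCompactSupport.intro (isCompact_Icc (a := p - R * L) (b := p + R * L)) fun v hv => ?_
  refine hR _ ?_
  by_contra hcon
  push Not at hcon
  apply hv
  rw [abs_div, abs_of_pos hL, div_lt_iff₀ hL] at hcon
  have := abs_lt.1 hcon
  constructor <;> linarith

/-- a majorant -/
lemma exists_f0 {R B1 B2 : ℝ} (hB : B1 < B2) : ∃ f0 : ℝ → ℝ, ContDiff ℝ ∞ f0 ∧ HasCompactSupport f0 ∧
    (∀ v, B2 ≤ v → f0 v = 0) ∧ (∀ v, 0 ≤ f0 v) ∧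
    (∀ v, -(2 * R + 2) ≤ v → v ≤ (B1 + B2) / 2 → f0 v = 1) := by
  have hd : 0 < (B2 - B1) / 2 := by linarith
  refine ⟨fun v => Real.smoothTransition ((B2 - v) / ((B2 - B1) / 2)) * Real.smoothTransition (v + 2 * R + 3),
    ?_, ?_, fun v hv => ?_, fun v => ?_, fun v h1 h2 => ?_⟩
  · exact (Real.smoothTransition.contDiff.comp ((contDiff_const.sub contDiff_id).div_const _)).mul
      (Real.smoothTransition.contDiff.comp ((contDiff_id.add contDiff_const).add contDiff_const))
  · refine HasCompactSupport.intro (isCompact_Icc (a := -(2 * R + 3)) (b := B2)) fun v hv => ?_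
    rw [mem_Icc, not_and_or, not_le, not_le] at hv
    rcases hv with hv | hv
    · rw [Real.smoothTransition.zero_of_nonpos (show v + 2 * R + 3 ≤ 0 by linarith), mul_zero]
    · rw [Real.smoothTransition.zero_of_nonpos (div_nonpos_of_nonpos_of_nonneg (by linarith) hd.le), zero_mul]
  · simp only
    rw [Real.smoothTransition.zero_of_nonpos (div_nonpos_of_nonpos_of_nonneg (by linarith) hd.le), zero_mul]
  · exact mul_nonneg (Real.smoothTransition.nonneg _) (Real.smoothTransition.nonneg _)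
  · simp only
    rw [Real.smoothTransition.one_of_one_le (by rw [le_div_iff₀ hd]; linarith),
      Real.smoothTransition.one_of_one_le (by linarith), mul_one]

/-- the comparison of two scales -/
lemma cmp1 {f f0 : ℝ → ℝ} {C1 R B1 Bm : ℝ} (hC1 : 0 ≤ C1) (hR0 : 0 ≤ R) (hlip : ∀ x y, |f x - f y| ≤ C1 * |x - y|)
    (hR : ∀ v, R ≤ |v| → f v = 0) (hB1 : ∀ v, B1 ≤ v → f v = 0) (h0 : ∀ v, 0 ≤ f0 v)
    (h1 : ∀ v, -(2 * R + 2) ≤ v → v ≤ Bm → f0 v = 1) (hBm : B1 ≤ Bm)
    {p L L' e : ℝ} (hL : 0 < L) (hL' : 0 < L')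
    (he : |p| / L + (R + |p| / L) * |L / L' - 1| + R * |L' / L - 1| ≤ e) (he1 : e ≤ 1) (he2 : e ≤ Bm - B1)
    (v : ℝ) : |f ((v - p) / L) - f (v / L')| ≤ C1 * e * f0 (v / L') := by
  have hp : 0 ≤ |p| / L := by positivity
  have a1 : 0 ≤ (R + |p| / L) * |L / L' - 1| := by positivity
  have a2 : 0 ≤ R * |L' / L - 1| := by positivity
  have he0 : 0 ≤ e := by linarith
  by_cases c1 : f (v / L') = 0
  · by_cases c2 : f ((v - p) / L) = 0
    · rw [c1, c2, sub_zero, abs_zero]
      have := h0 (v / L')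
      positivity
    · set z : ℝ := (v - p) / L with hz
      have z1 : |z| < R := by
        by_contra hcon
        exact c2 (hR z (not_lt.1 hcon))
      have z2 : z < B1 := by
        by_contra hcon
        exact c2 (hB1 z (not_lt.1 hcon))
      have e1 : v / L' - z = (z + p / L) * (L / L' - 1) + p / L := by
        rw [hz]; field_simp; ring
      have h3 : |v / L' - z| ≤ e := by
        rw [e1]
        refine (abs_add_le _ _).trans ?_
        rw [abs_mul, abs_div p L, abs_of_pos hL]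
        have h4 : |z + p / L| ≤ R + |p| / L := by
          refine (abs_add_le _ _).trans ?_
          rw [abs_div p L, abs_of_pos hL]
          linarith
        have h5 : |z + p / L| * |L / L' - 1| ≤ (R + |p| / L) * |L / L' - 1| :=
          mul_le_mul_of_nonneg_right h4 (abs_nonneg _)
        linarith
      have h4 := abs_le.1 h3
      have h5 := abs_lt.1 z1
      rw [h1 (v / L') (by linarith) (by linarith), mul_one]
      refine (hlip _ _).trans (mul_le_mul_of_nonneg_left ?_ hC1)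
      rw [abs_sub_comm]; exact h3
  · set y : ℝ := v / L' with hy
    have z1 : |y| < R := by
      by_contra hcon
      exact c1 (hR y (not_lt.1 hcon))
    have z2 : y < B1 := by
      by_contra hcon
      exact c1 (hB1 y (not_lt.1 hcon))
    have e1 : (v - p) / L - y = y * (L' / L - 1) - p / L := by
      rw [hy]; field_simp; ring
    have h3 : |(v - p) / L - y| ≤ e := by
      rw [e1]
      refine (abs_sub _ _).trans ?_
      rw [abs_mul, abs_div p L, abs_of_pos hL]
      have h5 : |y| * |L' / L - 1| ≤ R * |L' / L - 1| := mul_le_mul_of_nonneg_right z1.le (abs_nonneg _)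
      linarith
    have h5 := abs_lt.1 z1
    rw [h1 y (by linarith) (by linarith), mul_one]
    exact (hlip _ _).trans (mul_le_mul_of_nonneg_left h3 hC1)

/-- the majorisation -/
lemma cmp2 {f f0 : ℝ → ℝ} {S R B1 Bm κ : ℝ} (hS : ∀ v, |f v| ≤ S) (hR0 : 0 ≤ R)
    (hR : ∀ v, R ≤ |v| → f v = 0) (hB1 : ∀ v, B1 ≤ v → f v = 0) (hB0 : 0 < B1) (h0 : ∀ v, 0 ≤ f0 v)
    (h1 : ∀ v, -(2 * R + 2) ≤ v → v ≤ Bm → f0 v = 1) (hκ0 : 0 ≤ κ) (hκ1 : κ ≤ 1)
    (hκ : (1 + κ) * (B1 + κ) ≤ Bm) {p L L' : ℝ} (hL : 0 < L) (hL' : 0 < L') (hp : |p| / L ≤ κ)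
    (hr : L / L' ≤ 1 + κ) (v : ℝ) : |f ((v - p) / L)| ≤ S * f0 (v / L') := by
  have hS0 : 0 ≤ S := (abs_nonneg _).trans (hS 0)
  by_cases c2 : f ((v - p) / L) = 0
  · rw [c2, abs_zero]
    exact mul_nonneg hS0 (h0 _)
  set z : ℝ := (v - p) / L with hz
  have z1 : |z| < R := by
    by_contra hcon
    exact c2 (hR z (not_lt.1 hcon))
  have z2 : z < B1 := by
    by_contra hcon
    exact c2 (hB1 z (not_lt.1 hcon))
  have e1 : v / L' = (z + p / L) * (L / L') := by
    rw [hz]; field_simp; ring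
  have hr0 : 0 < L / L' := by positivity
  have hpl : |p / L| ≤ κ := by rwa [abs_div, abs_of_pos hL]
  have h2 := abs_le.1 hpl
  have h3 := abs_lt.1 z1
  have h4 : v / L' ≤ Bm := by
    rw [e1]
    rcases le_or_gt 0 (z + p / L) with c | c
    · calc (z + p / L) * (L / L') ≤ (B1 + κ) * (1 + κ) :=
            mul_le_mul (by linarith) hr hr0.le (by linarith)
        _ = (1 + κ) * (B1 + κ) := mul_comm _ _
        _ ≤ _ := hκ
    · have : (z + p / L) * (L / L') ≤ 0 := mul_nonpos_of_nonpos_of_nonneg c.le hr0.le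
      have : 0 ≤ (1 + κ) * (B1 + κ) := by positivity
      linarith
  have h5 : -(2 * R + 2) ≤ v / L' := by
    rw [e1]
    have h6 : -((R + κ) * (1 + κ)) ≤ (z + p / L) * (L / L') := by
      have h7 : |(z + p / L) * (L / L')| ≤ (R + κ) * (1 + κ) := by
        rw [abs_mul, abs_of_pos hr0]
        refine mul_le_mul ?_ hr hr0.le (by positivity)
        exact (abs_add_le _ _).trans (by linarith)
      exact (abs_le.1 h7).1
    have h8 : (R + κ) * (1 + κ) ≤ 2 * R + 2 := by nlinarith
    linarith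
  rw [h1 _ h5 h4, mul_one]
  exact hS _

lemma xlog (q : ℕ) : ∃ C : ℝ, 0 ≤ C ∧ ∀ x : ℝ, 0 < x → x * (1 + |Real.log x|) ^ q ≤ C * (1 + x) ^ (q + 1) := by
  have hf : (1:ℝ) ≤ q.factorial := by exact_mod_cast Nat.succ_le_of_lt (Nat.factorial_pos q)
  have he : 1 ≤ Real.exp 1 := Real.one_le_exp zero_le_one
  refine ⟨q.factorial * Real.exp 1, by positivity, fun x hx => ?_⟩
  have h1 : (1:ℝ) ≤ q.factorial * Real.exp 1 := by nlinarith
  rcases le_total 1 x with h | h
  · have h2 := Real.log_le_sub_one_of_pos hx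
    rw [abs_of_nonneg (Real.log_nonneg h)]
    calc x * (1 + Real.log x) ^ q ≤ (1 + x) * (1 + x) ^ q := by
          have := Real.log_nonneg h
          gcongr <;> linarith
      _ = 1 * (1 + x) ^ (q + 1) := by ring
      _ ≤ _ := mul_le_mul_of_nonneg_right h1 (by positivity)
  · have hl : Real.log x ≤ 0 := Real.log_nonpos hx.le h
    rw [abs_of_nonpos hl]
    have h3 := Real.pow_div_factorial_le_exp (1 + -Real.log x) (by linarith) q
    rw [div_le_iff₀ (by positivity), Real.exp_add, Real.exp_neg, Real.exp_log hx] at h3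
    calc x * (1 + -Real.log x) ^ q ≤ x * (Real.exp 1 * x⁻¹ * q.factorial) := by gcongr
      _ = q.factorial * Real.exp 1 * 1 := by field_simp
      _ ≤ _ := mul_le_mul_of_nonneg_left (one_le_pow₀ (by linarith)) (by positivity)

/-- the data of a test function -/
structure Td (f : ℝ → ℝ) (C1 S B1 : ℝ) (R : ℕ) : Prop where
  cont : Continuous f
  hC1 : 0 ≤ C1
  hB0 : 0 < B1
  lip : ∀ x y, |f x - f y| ≤ C1 * |x - y|
  bd : ∀ v, |f v| ≤ S
  out : ∀ v, (R : ℝ) ≤ |v| → f v = 0
  edge : ∀ v, B1 ≤ v → f v = 0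

lemma mk_Td {f : ℝ → ℝ} {B1 : ℝ} (hB0 : 0 < B1) (hc : ContDiff ℝ ∞ f) (hs : HasCompactSupport f)
    (h0 : ∀ v, B1 ≤ v → f v = 0) : ∃ (C1 S : ℝ) (R : ℕ), Td f C1 S B1 R := by
  obtain ⟨C, hC⟩ := (hc.of_le (by exact_mod_cast le_top : (1 : ℕ∞ω) ≤ ∞)).lipschitzWith_of_hasCompactSupport hs
    one_ne_zero
  obtain ⟨S, hS⟩ := hs.exists_bound_of_continuous hc.continuous
  obtain ⟨R, hR⟩ := hs.isCompact.isBounded.subset_closedBall 0
  obtain ⟨n, hn⟩ := exists_nat_gt R
  refine ⟨C, S, n, hc.continuous, C.2, hB0, fun x y => ?_, fun v => ?_, fun v hv => ?_, h0⟩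
  · have := hC.dist_le_mul x y
    rwa [Real.dist_eq, Real.dist_eq] at this
  · exact hS v
  · by_contra hcon
    have h1 := hR (subset_tsupport f hcon)
    rw [mem_closedBall, dist_zero_right, Real.norm_eq_abs] at h1
    linarith

/-- the crude bound -/
lemma Psi_crude (k : ℕ) : ∃ C : ℝ, 1 ≤ C ∧ ∀ (f : ℝ → ℝ) (C1 S B1 : ℝ) (R : ℕ), Td f C1 S B1 R → ∀ L s r : ℝ, 0 < L →
    |Psi k f L s r| ≤ C * S * (2 * R * L) * Real.exp (5 * R * L) * (Real.exp (4 * |s|) * Real.exp (4 * |r|)) := by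
  obtain ⟨C, hC, hb⟩ := D0_two k
  refine ⟨C, hC, fun f C1 S B1 R h L s r hL => ?_⟩
  have hS0 : 0 ≤ S := (abs_nonneg _).trans (h.bd 0)
  have hR0 : (0:ℝ) ≤ R := Nat.cast_nonneg R
  unfold Psi
  rw [← Real.norm_eq_abs]
  have hi : Integrable (fun u : ℝ => (Icc (-(R * L)) (R * L)).indicator (fun _ => C * S * Real.exp (5 * R * L) *
      (Real.exp (4 * |s|) * Real.exp (4 * |r|))) u) :=
    (integrable_indicator_iff measurableSet_Icc).2 continuousOn_const.integrableOn_Icc
  refine (norm_integral_le_of_norm_le hi (Eventually.of_forall fun u => ?_)).trans (le_of_eq ?_)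
  · by_cases hu : u ∈ Icc (-(R * L)) (R * L)
    · rw [indicator_of_mem hu, norm_mul, norm_mul, Real.norm_eq_abs, Real.norm_of_nonneg (Real.exp_pos _).le,
        Real.norm_of_nonneg (by positivity)]
      have h1 := hb u s r
      have h2 : |u| ≤ R * L := abs_le.2 hu
      have h3 : Real.exp (-u) * Real.exp (4 * |u|) ≤ Real.exp (5 * R * L) := by
        rw [← Real.exp_add]
        refine Real.exp_le_exp.2 ?_
        have := neg_abs_le u
        linarith
      calc |f (u / L)| * Real.exp (-u) * ‖D0 k (u + s) - D0 k (u + r)‖ ^ 2 ≤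
            S * Real.exp (-u) * (C * Real.exp (4 * |u|) * (Real.exp (4 * |s|) * Real.exp (4 * |r|))) := by
            gcongr
            exact h.bd _
        _ = C * S * (Real.exp (-u) * Real.exp (4 * |u|)) * (Real.exp (4 * |s|) * Real.exp (4 * |r|)) := by ring
        _ ≤ _ := by gcongr
    · rw [indicator_of_notMem hu, h.out (u / L) ?_, zero_mul, zero_mul, norm_zero]
      rw [abs_div, abs_of_pos hL, le_div_iff₀ hL]
      by_contra hcon
      push Not at hcon
      exact hu (abs_le.1 hcon.le)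
  · rw [integral_indicator measurableSet_Icc, setIntegral_const, Real.volume_real_Icc, max_eq_left (by
      have : 0 ≤ R * L := by positivity
      linarith), smul_eq_mul]
    ring

/-- **domination** -/
theorem Psi_dom {f f0 : ℝ → ℝ} {C1 S B1 Bm C0 T1 : ℝ} {R : ℕ} (h : Td f C1 S B1 R) (hBm : B1 < Bm)
    (f0c : Continuous f0) (f0s : HasCompactSupport f0) (h0 : ∀ v, 0 ≤ f0 v)
    (h1 : ∀ v, -(2 * (R : ℝ) + 2) ≤ v → v ≤ Bm → f0 v = 1) (hC0 : 0 ≤ C0)
    (hup : ∀ T, T1 ≤ T → Af k f0 0 (Real.log T) T⁻¹ ≤ C0 * Nh q T) :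
    ∃ (C T0 : ℝ) (A : ℕ), 0 ≤ C ∧ 2 ≤ T0 ∧ ∀ T, T0 ≤ T → ∀ s r : ℝ,
      |Psi k f (Real.log T) (T⁻¹ * s) (T⁻¹ * r)| ≤ C * ((1 + |s|) ^ A * (1 + |r|) ^ A) *
        (Real.exp (4 * |s|) * Real.exp (4 * |r|)) * Nh q T := by
  obtain ⟨Cc, hCc, hcr⟩ := Psi_crude k
  obtain ⟨Cx, hCx, hx⟩ := xlog q
  have hS0 : 0 ≤ S := (abs_nonneg _).trans (h.bd 0)
  have hR0 : (0:ℝ) ≤ R := Nat.cast_nonneg R
  set κ1 : ℝ := min 1 ((Bm - B1) / (2 + B1)) with hκ1
  have hB0 := h.hB0
  have k0 : 0 < κ1 := lt_min one_pos (div_pos (by linarith) (by linarith))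
  have k1' : κ1 ≤ 1 := min_le_left _ _
  have k2 : (1 + κ1) * (B1 + κ1) ≤ Bm := by
    have h2 : κ1 ≤ (Bm - B1) / (2 + B1) := min_le_right _ _
    rw [le_div_iff₀ (by linarith)] at h2
    nlinarith
  set κ : ℝ := κ1 / (1 + κ1) with hκ
  have kp : 0 < κ := by positivity
  have kl : κ < 1 := by rw [hκ, div_lt_one (by linarith)]; linarith
  have ke : 1 / (1 - κ) = 1 + κ1 := by rw [hκ]; field_simp; ring
  set A' : ℕ := ⌈((5 * R + 2 : ℕ) : ℝ) / κ⌉₊ with hA'
  have t1 : Tendsto (fun T : ℝ => T ^ (1 - κ)) atTop atTop := tendsto_rpow_atTop (by linarith)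
  have ev : ∀ᶠ T : ℝ in atTop, 2 ≤ T ∧ 1 ≤ Real.log T ∧ 1 ≤ κ1 * Real.log T ∧ T1 ≤ T ^ (1 - κ) := by
    filter_upwards [eventually_ge_atTop 2, Real.tendsto_log_atTop.eventually_ge_atTop 1,
      Real.tendsto_log_atTop.eventually_ge_atTop (1 / κ1), t1.eventually_ge_atTop T1] with T a1 a2 a3 a4
    rw [div_le_iff₀ k0] at a3
    exact ⟨a1, a2, by linarith, a4⟩
  obtain ⟨T0, hT0⟩ := eventually_atTop.1 ev
  refine ⟨Real.exp 1 * S * C0 * Cx + Cc * S * (2 * R), max T0 2, max A' (q + 1), by positivity, le_max_right _ _,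
    fun T hT => ?_⟩
  obtain ⟨b1, b2, b3, b4⟩ := hT0 T ((le_max_left _ _).trans hT)
  have hTp : 0 < T := by linarith
  have hNh := Nh_pos q (show 1 < T by linarith)
  set L := Real.log T with hL
  have hL0 : 0 < L := by linarith
  -- reduce to r < s
  have key : ∀ s r : ℝ, r < s → |Psi k f L (T⁻¹ * s) (T⁻¹ * r)| ≤
      (Real.exp 1 * S * C0 * Cx + Cc * S * (2 * R)) * ((1 + |s|) ^ (max A' (q + 1)) * (1 + |r|) ^ (max A' (q + 1))) *
        (Real.exp (4 * |s|) * Real.exp (4 * |r|)) * Nh q T := by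
    intro s r hsr
    have hs := abs_nonneg s
    have hr := abs_nonneg r
    have hexp : 1 ≤ Real.exp (4 * |s|) * Real.exp (4 * |r|) := by
      rw [← Real.exp_add]; exact Real.one_le_exp (by positivity)
    have hprod : 1 + |s| + |r| ≤ (1 + |s|) * (1 + |r|) := by nlinarith
    have hpow : ∀ n : ℕ, n ≤ max A' (q + 1) → (1 + |s| + |r|) ^ n ≤
        (1 + |s|) ^ (max A' (q + 1)) * (1 + |r|) ^ (max A' (q + 1)) := by
      intro n hn
      rw [← mul_pow]
      calc (1 + |s| + |r|) ^ n ≤ ((1 + |s|) * (1 + |r|)) ^ n := by gcongr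
        _ ≤ _ := pow_le_pow_right₀ (by nlinarith) hn
    set P := (1 + |s|) ^ (max A' (q + 1)) * (1 + |r|) ^ (max A' (q + 1)) with hP
    have hP0 : 0 ≤ P := by positivity
    rcases le_or_gt (|s| + |r|) (T ^ κ) with c | c
    · -- regime (i)
      set x : ℝ := s - r with hxd
      have hx0 : 0 < x := by rw [hxd]; linarith
      have hxle : x ≤ |s| + |r| := by
        have := le_abs_self s
        have := neg_abs_le r
        rw [hxd]; linarith
      have hxT : x ≤ T ^ κ := hxle.trans c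
      have hlx : Real.log x ≤ κ * L := by
        have := Real.log_le_log hx0 hxT
        rwa [Real.log_rpow hTp] at this
      set T' : ℝ := x⁻¹ * T with hT'
      have hT'p : 0 < T' := by positivity
      have hT'1 : T ^ (1 - κ) ≤ T' := by
        rw [Real.rpow_sub hTp, Real.rpow_one, hT', inv_mul_eq_div]
        gcongr
      have hT'2 : T1 ≤ T' := b4.trans hT'1
      have hL' : Real.log T' = L - Real.log x := by
        rw [hT', Real.log_mul (by positivity) hTp.ne', Real.log_inv]; ring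
      have hL'1 : (1 - κ) * L ≤ Real.log T' := by rw [hL']; linarith
      have hL'0 : 0 < Real.log T' := lt_of_lt_of_le (by
        have : 0 < 1 - κ := by linarith
        positivity) hL'1
      have hrat : L / Real.log T' ≤ 1 + κ1 := by
        rw [← ke, div_le_div_iff₀ hL'0 (by linarith), one_mul]
        linarith
      have hTk : T ^ κ ≤ T := by
        calc T ^ κ ≤ T ^ (1:ℝ) := Real.rpow_le_rpow_of_exponent_le (by linarith) kl.le
          _ = T := Real.rpow_one T
      have hp1 : |T⁻¹ * r| ≤ 1 := by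
        rw [abs_mul, abs_of_pos (inv_pos.2 hTp), inv_mul_le_iff₀ hTp, mul_one]
        linarith
      have hp2 : |T⁻¹ * r| / L ≤ κ1 := by
        rw [div_le_iff₀ hL0]; linarith
      have hcm := cmp2 h.bd hR0 h.out h.edge hB0 h0 h1 k0.le k1' k2 hL0 hL'0 hp2 hrat
      have e1 : T⁻¹ * s - T⁻¹ * r = T'⁻¹ := by
        rw [hT', mul_inv, inv_inv, hxd]; ring
      rw [Psi_Af, e1, abs_mul, abs_of_pos (Real.exp_pos _)]
      have h2 : |Af k f (T⁻¹ * r) L T'⁻¹| ≤ S * Af k f0 0 (Real.log T') T'⁻¹ := by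
        unfold Af
        rw [← integral_const_mul, ← Real.norm_eq_abs]
        have i0 := gE_int k T'⁻¹ (g := fun v => f0 ((v - 0) / Real.log T')) (by fun_prop) (by
          obtain ⟨R', hR'⟩ := f0s.isCompact.isBounded.subset_closedBall 0
          refine aff_cs (R := R' + 1) (fun v hv => ?_) 0 hL'0
          by_contra hcon
          have h1 := hR' (subset_tsupport f0 hcon)
          rw [mem_closedBall, dist_zero_right, Real.norm_eq_abs] at h1
          linarith)
        refine norm_integral_le_of_norm_le (i0.const_mul S) (Eventually.of_forall fun v => ?_)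
        rw [norm_mul, Real.norm_eq_abs, norm_pow, norm_norm, sub_zero, ← mul_assoc]
        exact mul_le_mul_of_nonneg_right (hcm v) (by positivity)
      have h3 := hup T' hT'2
      have h4 : Nh q T' ≤ Cx * (1 + x) ^ (q + 1) * Nh q T := by
        rw [Nh_eq q hT'p, Nh_eq q hTp, hL', hT', mul_inv, inv_inv]
        have h5 : L - Real.log x ≤ L * (1 + |Real.log x|) := by
          have := neg_abs_le (Real.log x)
          have := abs_nonneg (Real.log x)
          nlinarith
        have h6 : 0 ≤ L - Real.log x := by rw [← hL']; exact hL'0.le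
        calc x * T⁻¹ * (L - Real.log x) ^ q ≤ x * T⁻¹ * (L * (1 + |Real.log x|)) ^ q := by gcongr
          _ = (x * (1 + |Real.log x|) ^ q) * (T⁻¹ * L ^ q) := by rw [mul_pow]; ring
          _ ≤ (Cx * (1 + x) ^ (q + 1)) * (T⁻¹ * L ^ q) := mul_le_mul_of_nonneg_right (hx x hx0) (by positivity)
          _ = _ := by ring
      have h5 : (1 + x) ^ (q + 1) ≤ P := by
        refine le_trans ?_ (hpow (q + 1) (le_max_right _ _))
        exact pow_le_pow_left₀ (by linarith) (by linarith) _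
      calc Real.exp (T⁻¹ * r) * |Af k f (T⁻¹ * r) L T'⁻¹| ≤
            Real.exp 1 * (S * (C0 * (Cx * P * Nh q T))) := by
            refine mul_le_mul (Real.exp_le_exp.2 ((le_abs_self _).trans hp1)) (h2.trans ?_) (abs_nonneg _)
              (Real.exp_pos _).le
            refine mul_le_mul_of_nonneg_left (h3.trans (mul_le_mul_of_nonneg_left (h4.trans ?_) hC0)) hS0
            gcongr
        _ = Real.exp 1 * S * C0 * Cx * P * 1 * Nh q T := by ring
        _ ≤ Real.exp 1 * S * C0 * Cx * P * (Real.exp (4 * |s|) * Real.exp (4 * |r|)) * Nh q T := by gcongr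
        _ ≤ _ := by
            have : 0 ≤ Cc * S * (2 * R) * P * (Real.exp (4 * |s|) * Real.exp (4 * |r|)) * Nh q T := by positivity
            nlinarith
    · -- regime (ii)
      have h2 := hcr f C1 S B1 R h L (T⁻¹ * s) (T⁻¹ * r) hL0
      have hTi : T⁻¹ ≤ 1 := inv_le_one_of_one_le₀ (by linarith)
      have hle : ∀ y : ℝ, Real.exp (4 * |T⁻¹ * y|) ≤ Real.exp (4 * |y|) := fun y => by
        refine Real.exp_le_exp.2 ?_
        rw [abs_mul, abs_of_pos (inv_pos.2 hTp)]
        have : T⁻¹ * |y| ≤ 1 * |y| := mul_le_mul_of_nonneg_right hTi (abs_nonneg y)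
        linarith
      have e1 : Real.exp (5 * R * L) = T ^ (5 * R) := by
        rw [show (5 * R * L : ℝ) = ((5 * R : ℕ) : ℝ) * L by push_cast; ring, Real.exp_nat_mul, hL, Real.exp_log hTp]
      have hLT : L ≤ T := by
        have := Real.log_le_sub_one_of_pos hTp
        linarith
      have h1N : 1 ≤ T * Nh q T := by
        rw [Nh_eq q hTp, ← mul_assoc, mul_inv_cancel₀ hTp.ne', one_mul]
        exact one_le_pow₀ b2
      have h3 : T ^ (5 * R + 2) ≤ P := by
        refine le_trans ?_ (hpow A' (le_max_left _ _))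
        have h4 : T ^ (5 * R + 2) = (T ^ κ) ^ (((5 * R + 2 : ℕ) : ℝ) / κ) := by
          rw [← Real.rpow_mul hTp.le, mul_div_cancel₀ _ kp.ne', Real.rpow_natCast]
        rw [h4, ← Real.rpow_natCast (1 + |s| + |r|) A']
        calc (T ^ κ) ^ (((5 * R + 2 : ℕ) : ℝ) / κ) ≤ (1 + |s| + |r|) ^ (((5 * R + 2 : ℕ) : ℝ) / κ) := by
              refine Real.rpow_le_rpow (by positivity) (by linarith) (by positivity)
          _ ≤ (1 + |s| + |r|) ^ (A' : ℝ) := by
              refine Real.rpow_le_rpow_of_exponent_le (by linarith) ?_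
              exact Nat.le_ceil _
      have h7 : T ^ (5 * R + 1) ≤ T ^ (5 * R + 2) * Nh q T := by
        calc T ^ (5 * R + 1) = T ^ (5 * R + 1) * 1 := (mul_one _).symm
          _ ≤ T ^ (5 * R + 1) * (T * Nh q T) := mul_le_mul_of_nonneg_left h1N (by positivity)
          _ = _ := by ring
      calc |Psi k f L (T⁻¹ * s) (T⁻¹ * r)| ≤ _ := h2
        _ ≤ Cc * S * (2 * R * T) * T ^ (5 * R) * (Real.exp (4 * |s|) * Real.exp (4 * |r|)) := by
            rw [e1]
            have := hle s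
            have := hle r
            gcongr
        _ = Cc * S * (2 * R) * T ^ (5 * R + 1) * (Real.exp (4 * |s|) * Real.exp (4 * |r|)) := by ring
        _ ≤ Cc * S * (2 * R) * (T ^ (5 * R + 2) * Nh q T) * (Real.exp (4 * |s|) * Real.exp (4 * |r|)) := by gcongr
        _ ≤ Cc * S * (2 * R) * (P * Nh q T) * (Real.exp (4 * |s|) * Real.exp (4 * |r|)) := by gcongr
        _ ≤ _ := by
            have : 0 ≤ Real.exp 1 * S * C0 * Cx * P * (Real.exp (4 * |s|) * Real.exp (4 * |r|)) * Nh q T := by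
              positivity
            nlinarith
  intro s r
  rcases lt_trichotomy r s with c | c | c
  · exact key s r c
  · rw [c, Psi_self, abs_zero]
    positivity
  · rw [Psi_symm, mul_comm ((1 + |s|) ^ _), mul_comm (Real.exp (4 * |s|))]
    exact key r s c

end

end Pool.Agent.J4.H32.VS
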